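import Pool.Statements.S00234
import Pool.Agent.TH210.Final

set_option autoImplicit false
open Pool Pool.MP_6babc4_ag

namespace Pool.Agent.S00234

open Pool.Agent.TH210

/-- The negation of the preceding statement: For a Noetherian local domain of dimension d≥1 that is regular off the maximal ideal, every bounded free complex with finite-length homology has zero Euler characteristic after tensoring with any finitely generated module of dimension ≤ d/2. -/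
theorem result :
    ¬ (∀ (A : Type) [CommRing A] [IsDomain A] [IsLocalRing A] [IsNoetherianRing A] (d : ℕ),
      ringKrullDim A = (d : WithBot ℕ∞) → 1 ≤ d →
      (∀ (p : Ideal A) [p.IsPrime], p ≠ IsLocalRing.maximalIdeal A →
        ∃ s : Finset (Localization.AtPrime p),
          Ideal.span (s : Set (Localization.AtPrime p)) =
              IsLocalRing.maximalIdeal (Localization.AtPrime p) ∧
            (s.card : WithBot ℕ∞) ≤ ringKrullDim (Localization.AtPrime p)) →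
      ∀ (M : Type) [AddCommGroup M] [Module A M] [Module.Finite A M],
      (∀ p ∈ Module.support A M, ∃ k : ℕ,
          ringKrullDim (A ⧸ p.asIdeal) ≤ (k : WithBot ℕ∞) ∧ 2 * k ≤ d) →
      ∀ (N : ℕ) (n : ℕ → ℕ) (D : ∀ j : ℕ, (Fin (n (j + 1)) → A) →ₗ[A] (Fin (n j) → A)),
      n 0 = 0 → (∀ j, N < j → n j = 0) → (∀ j, (D j).comp (D (j + 1)) = 0) →
      (∀ j, Module.length A
          ↥(Submodule.map (LinearMap.range (D (j + 1))).mkQ (LinearMap.ker (D j))) < ⊤) →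
      ∑ j ∈ Finset.range (N + 1), (-1 : ℤ) ^ j *
        ((Module.length A
          ↥(Submodule.map (LinearMap.range ((D (j + 1)).rTensor M)).mkQ
              (LinearMap.ker ((D j).rTensor M)))).toNat : ℤ) = 0) := by
  intro h
  have hunit := KF.dat.hunit
  haveI hloc : IsLocalRing (Apb KF.dat.Φ1 KF.dat.Φ2) := isLocalRing_Apb _ _ hunit
  have x1 : KF.dat.Φ1 KF.dat.x = 0 := by rw [Dat.x, Dat.Φ1_alg, Dat.f1_x]
  have y1 : KF.dat.Φ1 KF.dat.y = 0 := by rw [Dat.y, Dat.Φ1_alg, Dat.f1_y]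
  have z1 : KF.dat.Φ1 KF.dat.z = 0 := by rw [Dat.z, Dat.Φ1_alg, Dat.f1_z]
  have w1 : KF.dat.Φ1 KF.dat.w = 0 := by rw [Dat.w, Dat.Φ1_alg, Dat.f1_w]
  have x2 : KF.dat.Φ2 KF.dat.x = 1 := by rw [Dat.x, Dat.Φ2_alg, Dat.f2_x]
  have y2 : KF.dat.Φ2 KF.dat.y = 0 := by rw [Dat.y, Dat.Φ2_alg, Dat.f2_y]
  have z2 : KF.dat.Φ2 KF.dat.z = 0 := by rw [Dat.z, Dat.Φ2_alg, Dat.f2_z]
  have w2 : KF.dat.Φ2 KF.dat.w = 0 := by rw [Dat.w, Dat.Φ2_alg, Dat.f2_w]
  have s2 : KF.dat.Φ2 KF.dat.s = 0 := by rw [Dat.s, Dat.Φ2_alg, Dat.f2_C, Dat.e_ϖ]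
  haveI hnoeth : IsNoetherianRing (Apb KF.dat.Φ1 KF.dat.Φ2) :=
    isNoetherianRing_Apb _ _ hunit KF.dat.Φ1_surj KF.dat.Φ2_surj KF.dat.x x1 x2
  obtain ⟨d, hd, h4⟩ := exists_dim (Apb KF.dat.Φ1 KF.dat.Φ2) KF.dat.four_le_dim
  letI : Algebra (Apb KF.dat.Φ1 KF.dat.Φ2) KF.dat.P :=
    (KF.dat.ψ.comp (Apb KF.dat.Φ1 KF.dat.Φ2).subtype).toAlgebra
  have hsurj : Function.Surjective (algebraMap (Apb KF.dat.Φ1 KF.dat.Φ2) KF.dat.P) :=
    KF.dat.ψA_surj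
  haveI : Module.Finite (Apb KF.dat.Φ1 KF.dat.Φ2) KF.dat.P :=
    Module.Finite.of_surjective (Algebra.linearMap (Apb KF.dat.Φ1 KF.dat.Φ2) KF.dat.P) hsurj
  have hm : ∀ a ∈ IsLocalRing.maximalIdeal (Apb KF.dat.Φ1 KF.dat.Φ2),
      KF.dat.Φ1 (a : KF.dat.B) = 0 ∧ KF.dat.Φ2 (a : KF.dat.B) = 0 := by
    intro a ha
    have ha1 := (mem_maximalIdeal_Apb _ _ hunit a).mp ha
    exact ⟨ha1, a.2.symm.trans ha1⟩
  obtain ⟨N, n, Df, h0, hN, hcomp, hfin, hsum⟩ :=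
    exists_complex (P := KF.dat.P) (Apb KF.dat.Φ1 KF.dat.Φ2).subtype Subtype.coe_injective
      KF.dat.Φ1 KF.dat.Φ2 (fun b hb => ⟨⟨b, hb⟩, rfl⟩) hm KF.dat.two_B
      KF.dat.x KF.dat.y KF.dat.z KF.dat.w KF.dat.s KF.dat.rel x1 y1 z1 w1 x2 y2 z2 w2 s2
      KF.dat.hN1 KF.dat.hN2 KF.dat.ψ (fun a => rfl) KF.dat.ψ_x KF.dat.ψ_z
      KF.dat.ψ_y_ne KF.dat.hreg (length_residue hsurj _ KF.dat.maximalIdeal_P)
  refine hsum (h (Apb KF.dat.Φ1 KF.dat.Φ2) d hd (by omega) ?_ KF.dat.P ?_ N n Df h0 hN hcomp hfin)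
  · intro p hp hpm
    obtain ⟨q, hq, hj, ⟨e⟩⟩ := exists_prime_over _ _ hunit KF.dat.Φ1_surj KF.dat.Φ2_surj
      KF.dat.x x1 x2 p hpm
    haveI := KF.dat.regular_B q hj
    haveI : IsRegularLocalRing (Localization.AtPrime p) := IsRegularLocalRing.of_ringEquiv e.symm
    exact exists_gens_of_regular (Localization.AtPrime p)
  · intro p hp
    refine ⟨2, ?_, by omega⟩
    exact (dim_quot_le hsurj p hp).trans KF.dat.dim_P

end Pool.Agent.S00234
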