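import Pool.Statements.S00329
import Pool.Agent.TH192.Gor.Final
-- import your own Pool.Agent.* helpers here

set_option autoImplicit false
open Pool Pool.MP_9bd952_ag

namespace Pool.Agent.S00329

/-- For every connected smooth closed algebraic submanifold X of some C^n there is B such that every such Y homeomorphic to X has at most B non-constant holomorphic maps into C minus {0,1}. -/
theorem result :
  ∀ (n : ℕ) (X : Set (Fin n → ℂ)),
    (∃ S : Set (MvPolynomial (Fin n) ℂ), X = {x | ∀ P ∈ S, MvPolynomial.eval x P = 0}) →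
    (∀ p ∈ X, ∃ U : Set (Fin n → ℂ), IsOpen U ∧ p ∈ U ∧
      ∃ (k : ℕ) (F : (Fin n → ℂ) → (Fin k → ℂ)), DifferentiableOn ℂ F U ∧
        (∀ x ∈ U, Function.Surjective ⇑(fderiv ℂ F x)) ∧ X ∩ U = U ∩ F ⁻¹' {0}) →
    IsConnected X →
    ∃ B : ℕ, ∀ (m : ℕ) (Y : Set (Fin m → ℂ)),
      (∃ S : Set (MvPolynomial (Fin m) ℂ), Y = {y | ∀ P ∈ S, MvPolynomial.eval y P = 0}) →
      (∀ p ∈ Y, ∃ U : Set (Fin m → ℂ), IsOpen U ∧ p ∈ U ∧
        ∃ (k : ℕ) (F : (Fin m → ℂ) → (Fin k → ℂ)), DifferentiableOn ℂ F U ∧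
          (∀ x ∈ U, Function.Surjective ⇑(fderiv ℂ F x)) ∧ Y ∩ U = U ∩ F ⁻¹' {0}) →
      IsConnected Y →
      Nonempty (↥X ≃ₜ ↥Y) →
      {g : ↥Y → ℂ | (∀ y, g y ≠ 0 ∧ g y ≠ 1) ∧ (∃ a b, g a ≠ g b) ∧
        ∀ p : ↥Y, ∃ U : Set (Fin m → ℂ), IsOpen U ∧ (p : Fin m → ℂ) ∈ U ∧
          ∃ h : (Fin m → ℂ) → ℂ, DifferentiableOn ℂ h U ∧
            ∀ y : ↥Y, (y : Fin m → ℂ) ∈ U → h y = g y}.encard ≤ (B : ℕ∞) := by
  classical
  intro n X hX hXs hXc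
  obtain ⟨S, hS⟩ := Pool.Agent.TH192.Gor.exists_finiteRank (Y := X) hX hXs hXc
  obtain ⟨B, hB⟩ := Pool.Agent.TH192.Gor.main_bound S
  refine ⟨B, ?_⟩
  intro m Y hY hYs hYc hXY
  obtain ⟨φ⟩ := hXY
  have hSY := Pool.Agent.TH192.Gor.finiteRank_congr φ hS
  by_contra hcon
  push Not at hcon
  obtain ⟨T, hT, hTcard⟩ := Set.exists_subset_encard_eq (k := ((B + 1 : ℕ) : ℕ∞)) (by
    have := Order.add_one_le_of_lt hcon
    exact_mod_cast this)
  have hTfin : T.Finite := Set.finite_of_encard_eq_coe hTcard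
  have hcard : hTfin.toFinset.card = B + 1 := by
    have h1 := hTfin.encard_eq_coe_toFinset_card
    rw [h1] at hTcard
    exact_mod_cast hTcard
  let ι := (hTfin.toFinset.equivFinOfCardEq hcard).symm
  have hι : ∀ j, ((ι j : ↥Y → ℂ)) ∈ T := fun j => by
    have := (ι j).2
    rwa [Set.Finite.mem_toFinset] at this
  let f : Fin (B + 1) → (Fin m → ℂ) → ℂ := fun j y => if hy : y ∈ Y then (ι j).1 ⟨y, hy⟩ else 2
  have hfY : ∀ j (y : ↥Y), f j y = (ι j).1 y := fun j y => dif_pos y.2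
  have hprop := fun j => hT (hι j)
  have h1 : ∀ j, Pool.Agent.TH192.Gor.Om Y (f j) := by
    intro j
    refine ⟨?_, ?_, ?_⟩
    · intro p hp
      obtain ⟨U, hU, hpU, h, hd, he⟩ := (hprop j).2.2 ⟨p, hp⟩
      refine ⟨U, hU, hpU, h, hd, fun y hy hyU => ?_⟩
      rw [show f j y = (ι j).1 ⟨y, hy⟩ from hfY j ⟨y, hy⟩]
      exact he ⟨y, hy⟩ hyU
    · intro y hy
      rw [show f j y = (ι j).1 ⟨y, hy⟩ from hfY j ⟨y, hy⟩]
      exact ((hprop j).1 ⟨y, hy⟩).1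
    · intro y hy
      rw [show f j y = (ι j).1 ⟨y, hy⟩ from hfY j ⟨y, hy⟩]
      exact ((hprop j).1 ⟨y, hy⟩).2
  have h2 : ∀ j, ∃ y ∈ Y, ∃ y' ∈ Y, f j y ≠ f j y' := by
    intro j
    obtain ⟨a, b, hab⟩ := (hprop j).2.1
    refine ⟨a, a.2, b, b.2, ?_⟩
    rw [hfY, hfY]
    exact hab
  have h3 : ∀ i j, i ≠ j → ∃ y ∈ Y, f i y ≠ f j y := by
    intro i j hij
    by_contra hcon'
    push Not at hcon'
    apply hij
    apply ι.injective
    apply Subtype.ext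
    funext y
    have := hcon' y y.2
    rw [hfY, hfY] at this
    exact this
  have h4 := hB m Y hY hYs hYc hSY (B + 1) f h1 h2 h3
  omega

end Pool.Agent.S00329
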