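import Pool.Statements.S00348
import Pool.Agent.TH203.Uni.Fill
import Pool.Agent.TH203.Uni.NonA
import Pool.Agent.TH203.Uni.NonB

set_option autoImplicit false
open Pool Pool.MP_a30cf1_ag

namespace Pool.Agent.S00348

/-- The negation of the preceding statement: For L ≥ 1 and r ≥ 2, any coordinatewise-minimal positive width vector (with d_0, d_L fixed) whose depth-L polynomial network with x^r activation has Zariski-dense output set in the ambient space is unimodal. -/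
theorem result :
    ¬ (∀ (L r : ℕ), 1 ≤ L → 2 ≤ r →
  ∀ Filling : (Fin (L+1) → ℕ) → Prop,
  (∀ e : Fin (L+1) → ℕ, Filling e ↔
    ∀ P : MvPolynomial (ℕ × (ℕ →₀ ℕ)) ℂ,
      (∀ W : Fin L → ℕ → ℕ → ℂ,
        MvPolynomial.eval (fun p : ℕ × (ℕ →₀ ℕ) => MvPolynomial.coeff p.2
          ((List.finRange L).foldl
            (fun (h : ℕ → MvPolynomial ℕ ℂ) (k : Fin L) (a : ℕ) =>
              ∑ b ∈ Finset.range (e k.castSucc),
                MvPolynomial.C (W k a b) * h b ^ (if (k : ℕ) = 0 then 1 else r))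
            (fun b : ℕ => (MvPolynomial.X b : MvPolynomial ℕ ℂ)) p.1)) P = 0) →
      ∀ c : ℕ × (ℕ →₀ ℕ) → ℂ,
        (∀ p : ℕ × (ℕ →₀ ℕ), c p ≠ 0 →
          p.1 < e (Fin.last L) ∧ (∑ b ∈ p.2.support, p.2 b) = r ^ (L - 1) ∧
            ∀ b ∈ p.2.support, b < e 0) →
        MvPolynomial.eval c P = 0) →
  ∀ d : Fin (L+1) → ℕ, (∀ i, 1 ≤ d i) → Filling d →
  (∀ d' : Fin (L+1) → ℕ, (∀ i, 1 ≤ d' i) → d' 0 = d 0 →
      d' (Fin.last L) = d (Fin.last L) → d' ≤ d → Filling d' → d' = d) →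
  ∃ i : Fin (L+1), (∀ j k : Fin (L+1), j ≤ k → k ≤ i → d j ≤ d k) ∧
    (∀ j k : Fin (L+1), i ≤ j → j ≤ k → d k ≤ d j)) := by
  intro H
  obtain ⟨d, ⟨hd1, hd0, hd7, hdle, hdF⟩, hmin⟩ := (wellFounded_lt (α := Fin (7 + 1) → ℕ)).has_min
    {d | (∀ i, 1 ≤ d i) ∧ d 0 = 2 ∧ d 7 = 1 ∧ d ≤ TH203.Uni.dstar ∧ TH203.Uni.Fills d}
    ⟨TH203.Uni.dstar, by decide, rfl, rfl, le_rfl, TH203.Uni.fills_dstar⟩
  obtain ⟨i, hi1, hi2⟩ := H 7 2 (by norm_num) le_rfl TH203.Uni.Fills (fun e => Iff.rfl) d hd1 hdF (by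
    intro d' h1 h0 h7 hle hF
    by_contra hne
    refine hmin d' ⟨h1, h0.trans hd0, h7.trans hd7, hle.trans hdle, hF⟩ (lt_of_le_of_ne hle hne))
  have h4 : d 4 ≤ 4 := hdle 4
  by_cases hi : i ≤ 4
  · have h5 : d 5 ≤ d 4 := hi2 4 5 hi (by decide)
    exact TH203.Uni.nonfillA d hd0 hd7 h4 (h5.trans h4) hdF
  · have h3 : d 3 ≤ d 4 := hi1 3 4 (by decide) (not_le.1 hi).le
    exact TH203.Uni.nonfillB d hd0 hd7 (h3.trans h4) h4 hdF

end Pool.Agent.S00348
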