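import Pool.Statements.S00360
import Pool.Agent.TH621.PSGrade

set_option autoImplicit false
open Pool Pool.MP_a907e8_ag

namespace Pool.Agent.S00360

open Pool.Agent.H607R3.PS Pool.Agent.TH621.PS in
/-- The negation of the preceding statement: For every Noetherian local ring A and nonzero finitely generated A-module M with a finite projective resolution, the maximal length of an A-regular sequence in ann M plus the Krull dimension of A/ann M equals the Krull dimension of A. -/
theorem result :
    ¬ (∀ (A : Type) [CommRing A] [IsLocalRing A] [IsNoetherianRing A]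
      (M : Type) [AddCommGroup M] [Module A M] [Module.Finite A M] [Nontrivial M],
      (∃ P : CategoryTheory.ProjectiveResolution (ModuleCat.of A M), ∃ n : ℕ,
          ∀ i : ℕ, n ≤ i → CategoryTheory.Limits.IsZero (P.complex.X i)) →
      ∀ g : ℕ,
        (∃ rs : List A, rs.length = g ∧ (∀ r ∈ rs, r ∈ Module.annihilator A M) ∧
            RingTheory.Sequence.IsWeaklyRegular A rs) →
        (¬ ∃ rs : List A, rs.length = g + 1 ∧ (∀ r ∈ rs, r ∈ Module.annihilator A M) ∧
            RingTheory.Sequence.IsWeaklyRegular A rs) →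
        (g : WithBot ℕ∞) + ringKrullDim (A ⧸ Module.annihilator A M) = ringKrullDim A) := by
  intro h
  obtain ⟨T, iT, iL, iN, iD, α, β, γ, hB⟩ := Pool.Agent.H291R3.PSB.taskBase
  obtain ⟨hα, hβ, hγ⟩ := H51R3.PS.mem_max hB
  have hlR : IsLocalRing (RR T α β γ) :=
    Pool.Agent.H607R3.PS.taskLoc T α β γ hα hβ hγ
  have hlP : IsLocalRing (RP T α β γ) := local_RP
  have hnP : IsNoetherianRing (RP T α β γ) := noeth_RP
  have hne := cP_ne_top hα hβ hγ
  have hnt : Nontrivial (RP T α β γ ⧸ cP T α β γ) := Ideal.Quotient.nontrivial_iff.2 hne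
  have hres := finRes_RP Pool.Agent.H607R3.PS.taskRes taskRegP hγ hB.reg
  have h3 := taskGradeP T α β γ hB
  have h1 := h (RP T α β γ) (RP T α β γ ⧸ cP T α β γ) hres
  rw [Ideal.annihilator_quotient] at h1
  have hd := taskDimP hB hne
  -- the grade is at most two
  have key : ∀ g : ℕ, g ≤ 2 → ¬ ((g : WithBot ℕ∞) + ringKrullDim (RP T α β γ ⧸ cP T α β γ) =
      ringKrullDim (RP T α β γ)) := by
    intro g hg hcon
    rw [← hcon] at hd
    have h5 : (g : WithBot ℕ∞) ≤ 2 := by exact_mod_cast hg
    exact absurd (add_le_add h5 (le_refl (ringKrullDim (RP T α β γ ⧸ cP T α β γ)))) (not_le.2 hd)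
  by_cases h2 : ∃ rs : List (RP T α β γ), rs.length = 2 ∧ (∀ r ∈ rs, r ∈ cP T α β γ) ∧
      RingTheory.Sequence.IsWeaklyRegular (RP T α β γ) rs
  · exact key 2 le_rfl (h1 2 h2 h3)
  · by_cases h4 : ∃ rs : List (RP T α β γ), rs.length = 1 ∧ (∀ r ∈ rs, r ∈ cP T α β γ) ∧
      RingTheory.Sequence.IsWeaklyRegular (RP T α β γ) rs
    · exact key 1 (by norm_num) (h1 1 h4 h2)
    · refine key 0 (by norm_num) (h1 0 ⟨[], rfl, by simp, ?_⟩ h4)
      exact RingTheory.Sequence.IsWeaklyRegular.nil _ _

end Pool.Agent.S00360
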