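import Pool.Statements.S00493
import Pool.Agent.TH308.QM.Fin

set_option autoImplicit false
open Pool Pool.MP_dd8059_ag

namespace Pool.Agent.S00493

/-- For t≥9 and a very general smooth germ y=φ(x) at a point of the plane, every nonzero degree-d form has quasimonomial valuation (weights 1 on x, t on y−φ(x)) at most d√t, i.e. μ̂(t)=√t. -/
theorem result :
    ∀ t : ℝ, 9 ≤ t →
      ∃ S : ℕ → MvPolynomial ℕ ℂ, (∀ k, S k ≠ 0) ∧
        ∀ c : ℕ → ℂ, (∀ k, MvPolynomial.eval c (S k) ≠ 0) →
          ∀ d : ℕ, ∀ f : MvPolynomial (Fin 3) ℂ, f.IsHomogeneous d → f ≠ 0 →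
            ∃ i j : ℕ,
              PowerSeries.coeff i
                  ((MvPolynomial.aeval
                      (![Polynomial.C PowerSeries.X,
                         Polynomial.C (PowerSeries.X * PowerSeries.mk c) + Polynomial.X,
                         1] : Fin 3 → Polynomial (PowerSeries ℂ)) f).coeff j) ≠ 0 ∧
              (i : ℝ) + t * (j : ℝ) ≤ (d : ℝ) * Real.sqrt t := by
  intro t ht
  obtain ⟨S, hS, hS'⟩ := Pool.Agent.TH308.QM.nearMinimal_nine ht
  refine ⟨S, hS, fun c hc d f hf hf0 => ?_⟩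
  have h := hS' c hc d f hf hf0
  rw [one_mul] at h
  exact h

end Pool.Agent.S00493
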