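import Pool.Statements.S00532
import Pool.Agent.TH208.LamFinal

set_option autoImplicit false
open Pool Pool.MP_ed7674_ag

namespace Pool.Agent.S00532

/-- The negation of the preceding statement: For every commutative ring A and every d, any stably free module P over A[x1,...,xd] (P plus a free module of rank n is free of rank m) is isomorphic to A[x1,...,xd] tensored over A with some A-module Q. -/
theorem result :
    ¬ (∀ (A : Type) [CommRing A] (d : ℕ) (P : Type) [AddCommGroup P]
      [Module (MvPolynomial (Fin d) A) P],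
      (∃ n m : ℕ, Nonempty ((P × (Fin n → MvPolynomial (Fin d) A)) ≃ₗ[MvPolynomial (Fin d) A]
        (Fin m → MvPolynomial (Fin d) A))) →
      ∃ (Q : Type) (_ : AddCommGroup Q) (_ : Module A Q),
        Nonempty (P ≃ₗ[MvPolynomial (Fin d) A] TensorProduct A (MvPolynomial (Fin d) A) Q)) := by
  intro H
  obtain ⟨A, _, w, v, hwv, hno⟩ := Pool.Agent.TH208.Lam.main
  obtain ⟨Q, _, _, ⟨e⟩⟩ := H A 1 (LinearMap.ker (Pool.Agent.TH208.Lam.dot w))
    ⟨1, 3, Pool.Agent.TH208.Lam.stablyFree_ker w v hwv⟩
  exact hno Q e

end Pool.Agent.S00532
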