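import Pool.Statements.S00541
import Pool.Agent.H737R3.Points

set_option autoImplicit false
open Pool Pool.MP_ef83ea_ag

namespace Pool.Agent.S00541

open Pool.Agent.H737R3 MvPolynomial

/-- the ideal of the 2 × 2 minors of `(x, p)` -/
noncomputable def minI {N : ℕ} (p : Fin (N + 1) → ℂ) : Ideal (MvPolynomial (Fin (N + 1)) ℂ) :=
  Ideal.span (Set.range (fun ij : Fin (N + 1) × Fin (N + 1) =>
    (MvPolynomial.X ij.1 * MvPolynomial.C (p ij.2)
      - MvPolynomial.X ij.2 * MvPolynomial.C (p ij.1) : MvPolynomial (Fin (N + 1)) ℂ)))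

theorem lin_eq_sum {N : ℕ} {l : MvPolynomial (Fin (N + 1)) ℂ} (hl : l.IsHomogeneous 1) :
    l = ∑ i, C (coeff (Finsupp.single i 1) l) * X i := by
  classical
  ext m
  rw [coeff_sum]
  simp only [coeff_C_mul, coeff_X, mul_ite, mul_one, mul_zero]
  by_cases h : coeff m l = 0
  · rw [h]
    symm
    apply Finset.sum_eq_zero
    intro i _
    split_ifs with h1
    · rw [h1, h]
    · rfl
  · have h1 := hl h
    have h2 : m.degree = 1 := by rwa [Finsupp.degree_eq_weight_one]
    have h3 : ∃ i, m = Finsupp.single i 1 := by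
      rw [Finsupp.degree_eq_sum] at h2
      obtain ⟨i, -, hi⟩ : ∃ i ∈ (Finset.univ : Finset (Fin (N + 1))), m i ≠ 0 := by
        apply Finset.exists_ne_zero_of_sum_ne_zero
        rw [h2]
        exact one_ne_zero
      rw [← Finset.add_sum_erase _ _ (Finset.mem_univ i)] at h2
      have h4 : m i = 1 := by omega
      have h5 : ∑ x ∈ Finset.univ.erase i, m x = 0 := by omega
      refine ⟨i, ?_⟩
      ext j
      by_cases hij : j = i
      · subst hij
        rw [h4, Finsupp.single_eq_same]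
      · rw [Finsupp.single_eq_of_ne hij]
        exact Finset.sum_eq_zero_iff.1 h5 j (Finset.mem_erase.2 ⟨hij, Finset.mem_univ j⟩)
    obtain ⟨i, rfl⟩ := h3
    rw [Finset.sum_eq_single i]
    · simp
    · intro j _ hj
      rw [if_neg]
      intro h4
      apply hj
      exact (Finsupp.single_left_injective one_ne_zero h4)
    · intro h4
      exact absurd (Finset.mem_univ i) h4

theorem minI_eq {N : ℕ} {p : Fin (N + 1) → ℂ} (hp : p ≠ 0) : minI p = linI p := by
  classical
  apply le_antisymm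
  · unfold minI linI
    rw [Ideal.span_le]
    rintro _ ⟨⟨i, j⟩, rfl⟩
    apply Ideal.subset_span
    refine ⟨?_, ?_⟩
    · apply IsHomogeneous.sub
      · simpa using (isHomogeneous_X ℂ i).mul (isHomogeneous_C (Fin (N + 1)) (p j))
      · simpa using (isHomogeneous_X ℂ j).mul (isHomogeneous_C (Fin (N + 1)) (p i))
    · simp [mul_comm]
  · unfold linI
    rw [Ideal.span_le]
    rintro l ⟨hl, hl0⟩
    obtain ⟨j, hj⟩ : ∃ j, p j ≠ 0 := Function.ne_iff.1 hp
    have h1 := lin_eq_sum hl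
    set c : Fin (N + 1) → ℂ := fun i => coeff (Finsupp.single i 1) l with hc
    have h2 : ∑ i, c i * p i = 0 := by
      rw [h1] at hl0
      simpa [map_sum] using hl0
    have h3 : l = C ((p j)⁻¹) * ∑ i, C (c i) * (X i * C (p j) - X j * C (p i)) := by
      have h4 : ∑ i, C (c i) * (X i * C (p j) - X j * C (p i)) =
          C (p j) * (∑ i, C (c i) * X i : MvPolynomial (Fin (N + 1)) ℂ) - X j * C (∑ i, c i * p i) := by
        rw [map_sum, Finset.mul_sum, Finset.mul_sum, ← Finset.sum_sub_distrib]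
        apply Finset.sum_congr rfl
        intro i _
        rw [C_mul]
        ring
      rw [h4, h2, C_0, mul_zero, sub_zero, ← mul_assoc, ← C_mul, inv_mul_cancel₀ hj, C_1, one_mul]
      exact h1
    rw [h3]
    apply Ideal.mul_mem_left
    apply Ideal.sum_mem
    intro i _
    apply Ideal.mul_mem_left
    exact Ideal.subset_span ⟨(i, j), rfl⟩

/-- For any nonempty finite set of points in complex projective N-space (N at least 1) with ideal I, every m ≥ 1 satisfies alpha(I^(m))/m ≥ (alpha(I^(3)) + N - 1)/(N + 2), i.e. the Waldschmidt constant is at least that bound. -/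
theorem result :
    ∀ (N : ℕ), 1 ≤ N → ∀ S : Finset (Fin (N + 1) → ℂ), S.Nonempty → (∀ p ∈ S, p ≠ 0) →
      ∀ m : ℕ, 1 ≤ m →
        (((sInf {d : ℕ | ∃ f ∈ (⨅ p ∈ S,
              (Ideal.span (Set.range (fun ij : Fin (N + 1) × Fin (N + 1) =>
                (MvPolynomial.X ij.1 * MvPolynomial.C (p ij.2)
                  - MvPolynomial.X ij.2 * MvPolynomial.C (p ij.1) :
                  MvPolynomial (Fin (N + 1)) ℂ)))) ^ 3),
              f ≠ 0 ∧ f.totalDegree = d} : ℕ) : ℝ) + (N : ℝ) - 1) / ((N : ℝ) + 2)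
          ≤ ((sInf {d : ℕ | ∃ f ∈ (⨅ p ∈ S,
              (Ideal.span (Set.range (fun ij : Fin (N + 1) × Fin (N + 1) =>
                (MvPolynomial.X ij.1 * MvPolynomial.C (p ij.2)
                  - MvPolynomial.X ij.2 * MvPolynomial.C (p ij.1) :
                  MvPolynomial (Fin (N + 1)) ℂ)))) ^ m),
              f ≠ 0 ∧ f.totalDegree = d} : ℕ) : ℝ) / (m : ℝ) := by
  classical
  intro N hN S hS hS0 m hm
  have hmem : ∀ (r : ℕ) (f : MvPolynomial (Fin (N + 1)) ℂ),
      f ∈ (⨅ p ∈ S, (Ideal.span (Set.range (fun ij : Fin (N + 1) × Fin (N + 1) =>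
                (MvPolynomial.X ij.1 * MvPolynomial.C (p ij.2)
                  - MvPolynomial.X ij.2 * MvPolynomial.C (p ij.1) :
                  MvPolynomial (Fin (N + 1)) ℂ)))) ^ r) ↔ ∀ p ∈ S, f ∈ linI p ^ r := by
    intro r f
    simp only [Submodule.mem_iInf]
    refine forall₂_congr fun p hp => ?_
    have h := minI_eq (hS0 p hp)
    unfold minI at h
    rw [h]
  have hset : ∀ r : ℕ, {d : ℕ | ∃ f ∈ (⨅ p ∈ S,
              (Ideal.span (Set.range (fun ij : Fin (N + 1) × Fin (N + 1) =>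
                (MvPolynomial.X ij.1 * MvPolynomial.C (p ij.2)
                  - MvPolynomial.X ij.2 * MvPolynomial.C (p ij.1) :
                  MvPolynomial (Fin (N + 1)) ℂ)))) ^ r),
              f ≠ 0 ∧ f.totalDegree = d} =
      {d : ℕ | ∃ f : MvPolynomial (Fin (N + 1)) ℂ, (∀ p ∈ S, f ∈ linI p ^ r) ∧
        f ≠ 0 ∧ f.totalDegree = d} := by
    intro r
    ext d
    simp only [Set.mem_ofPred_eq, hmem]
  rw [hset 3, hset m]
  set a := sInf {d : ℕ | ∃ f : MvPolynomial (Fin (N + 1)) ℂ, (∀ p ∈ S, f ∈ linI p ^ 3) ∧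
        f ≠ 0 ∧ f.totalDegree = d} with ha
  set b := sInf {d : ℕ | ∃ f : MvPolynomial (Fin (N + 1)) ℂ, (∀ p ∈ S, f ∈ linI p ^ m) ∧
        f ≠ 0 ∧ f.totalDegree = d} with hb
  have hne : {d : ℕ | ∃ f : MvPolynomial (Fin (N + 1)) ℂ, (∀ p ∈ S, f ∈ linI p ^ m) ∧
        f ≠ 0 ∧ f.totalDegree = d}.Nonempty := by
    choose l hl hl0 using fun p : Fin (N + 1) → ℂ => linI_ne_bot hN p
    refine ⟨_, ∏ p ∈ S, l p ^ m, ?_, Finset.prod_ne_zero_iff.2 fun p _ => pow_ne_zero _ (hl0 p),
      rfl⟩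
    intro p hp
    rw [← Finset.mul_prod_erase _ _ hp]
    exact Ideal.mul_mem_right _ _ (Ideal.pow_mem_pow (hl p) _)
  obtain ⟨F, hF, hF0, hFd⟩ := Nat.sInf_mem hne
  rw [← hb] at hFd
  have hG0 := top_component hF0
  have hGh := homogeneousComponent_isHomogeneous F.totalDegree F
  rw [hFd] at hGh
  have hGv : ∀ p ∈ (S : Set (Fin (N + 1) → ℂ)),
      homogeneousComponent F.totalDegree F ∈ Pool.Agent.Chud.mI p ^ m := fun p hp =>
    Ideal.pow_right_mono (linI_le_mI p) m (component_mem p m (hF p hp) _)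
  have hlow : Pool.Agent.H580C.LowT (S : Set (Fin (N + 1) → ℂ)) 3 a := by
    intro G d hG hGd hGv
    refine Nat.sInf_le ⟨G, ?_, hG, hGd.totalDegree hG⟩
    intro p hp
    exact mem_linI_pow hGd (hS0 p hp) (hGv p hp)
  rw [hFd] at hG0 hGv
  have key := Pool.Agent.H580C.p_CD ℂ N 3 a m b (S : Set (Fin (N + 1) → ℂ)) _ hN (by norm_num)
    S.finite_toSet (by simpa using hS) (fun v hv => hS0 v hv) hlow hG0 hGh hGv
  have := real_of_nat (a := a) (b := b) (t := 3) (m := m) hN (by norm_num) hm key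
  have h3 : ((3 : ℕ) : ℝ) + N - 1 = (N : ℝ) + 2 := by push_cast; ring
  rw [h3] at this
  exact this

end Pool.Agent.S00541
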