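import Pool.Statements.S00646
import Pool.Agent.TH787.CBF

set_option autoImplicit false
open Pool Pool.MP_068a9c_al

namespace Pool.Agent.S00646

open Pool.Agent.TH787 Pool.Agent.TH787.RelMod Pool.Agent.TH787.CBF

/-- The negation of the preceding statement: Every periodic group in which, for each finite subgroup H, any two conjugate prime-order elements of N(H)/H generate a finite subgroup lies in the smallest extension-closed class containing all 2-groups and all groups whose 2-generated subgroups are finite. -/
theorem result :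
    ¬ (∀ (G : Type) [Group G], Monoid.IsTorsion G →
    (∀ (H : Subgroup G), (H : Set G).Finite →
      ∀ a ∈ Subgroup.normalizer (H : Set G), ∀ b ∈ Subgroup.normalizer (H : Set G),
        ∀ p : ℕ, p.Prime →
        a ∉ H → a ^ p ∈ H →
        (∃ c ∈ Subgroup.normalizer (H : Set G), c * a * c⁻¹ * b⁻¹ ∈ H) →
        ((Subgroup.closure (insert a (insert b (H : Set G)))) : Set G).Finite) →
    ∀ (C : ∀ (K : Type) [Group K], Prop),
      (∀ (K L : Type) [Group K] [Group L], (K ≃* L) → C K → C L) →
      (∀ (K : Type) [Group K], IsPGroup 2 K → C K) →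
      (∀ (K : Type) [Group K],
        (∀ x y : K, ((Subgroup.closure ({x, y} : Set K)) : Set K).Finite) → C K) →
      (∀ (K : Type) [Group K] (N : Subgroup K) [N.Normal], C ↥N → C (K ⧸ N) → C K) →
      C G) := by
  intro hall
  have hp : Fact (Nat.Prime 3) := ⟨Nat.prime_three⟩
  obtain ⟨Q, _, h1, h2, h3⟩ := MonP.exists_monster (p := 3) (by decide) (by norm_num)
  have hbad : Bad Q := bad_monster (p := 3) (by decide) h1 h2 h3
  have hC := hall (GG 3 Q) ?_ ?_ (fun K _ => NoBad K) (fun K L _ _ e h => noBad_iso K L e h)
    (fun K _ h => noBad_two K h) (fun K _ h => noBad_bin K h)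
    (fun K _ N _ h1 h2 => noBad_ext K N h1 h2)
  · exact hC Q (GG.pi 3 Q) GG.pi_surj hbad
  · intro g
    obtain ⟨k, hk⟩ := pgroup h1 g
    exact isOfFinOrder_iff_pow_eq_one.2 ⟨3 ^ k, by positivity, hk⟩
  · intro H hH a ha b hb q hq haH haq hc
    obtain ⟨c, hcN, hcH⟩ := hc
    apply fin_of_fg
    · refine (Subgroup.fg_iff _).2 ⟨_, rfl, ?_⟩
      exact (hH.insert b).insert a
    by_cases hne : H = ⊥
    · subst hne
      rw [Subgroup.mem_bot] at haH haq hcH
      have hax : a.x = 1 := x_of_prime h1 hq haH haq
      have hbx : b.x = 1 := by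
        have : b = c * a * c⁻¹ := (mul_inv_eq_one.1 hcH).symm
        rw [this, GG.mul_x, GG.mul_x, hax, GG.inv_x, mul_one, mul_inv_cancel]
      have hle : Subgroup.closure (insert a (insert b ((⊥ : Subgroup (GG 3 Q)) : Set (GG 3 Q)))) ≤
          (GG.pi 3 Q).ker := by
        rw [Subgroup.closure_le]
        rintro x (rfl | rfl | hx)
        · exact hax
        · exact hbx
        · rw [Subgroup.coe_bot, Set.mem_singleton_iff] at hx
          rw [hx]
          exact Subgroup.one_mem _
      refine (Set.finite_singleton (1 : Q)).subset ?_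
      rintro _ ⟨x, hx, rfl⟩
      exact hle hx
    · refine (norm_fin h1 H hH hne).subset (Set.image_mono ?_)
      have hle : Subgroup.closure (insert a (insert b (H : Set (GG 3 Q)))) ≤
          Subgroup.normalizer (H : Set (GG 3 Q)) := by
        rw [Subgroup.closure_le]
        rintro x (rfl | rfl | hx)
        · exact ha
        · exact hb
        · exact Subgroup.le_normalizer hx
      intro g hg h hh
      exact (Subgroup.mem_normalizer_iff.1 (hle hg) h).1 hh

end Pool.Agent.S00646
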