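import Pool.Statements.S00648
import Pool.Agent.TH64.AppB

set_option autoImplicit false
open Pool Pool.MP_06935a_al

namespace Pool.Agent.S00648

open Pool.Agent.TH64 Pool.Agent.TH64.AppB

/-- the limit of the construction -/
theorem limit : ∃ p : ℕ, p.Prime ∧ ∃ R : Subgroup F, R.Normal ∧ (∀ g ∈ R, pr p g = 1) ∧
    (∀ g : F, ∃ m : ℕ, 1 ≤ m ∧ g ^ m ∈ R) ∧
    (∀ g, pr p g = 1 → g ^ p ∈ R → g ∈ R) ∧
    (∀ g, ga⁻¹ * g * ga * g⁻¹ ∈ R → ∃ k : ℤ, ga ^ (-k) * g ∈ R) ∧ gb ^ p ∉ R ∧ ga ^ p ∈ R := by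
  classical
  obtain ⟨p, hp, hp2, R0, h0⟩ := base
  obtain ⟨e, he⟩ := exists_surjective_nat F
  have hstep : ∀ (n : ℕ) (R : {R : Subgroup F // Inv p R}), ∃ R' : {R : Subgroup F // Inv p R},
      R.1 ≤ R'.1 ∧ ∃ m : ℕ, 1 ≤ m ∧ (e n) ^ m ∈ R'.1 := by
    intro n R
    obtain ⟨R', h1, h2, h3⟩ := step hp hp2 R.2 (e n)
    exact ⟨⟨R', h2⟩, h1, h3⟩
  choose nxt hn1 hn2 using hstep
  let R : ℕ → {R : Subgroup F // Inv p R} := fun n => Nat.rec ⟨R0, h0⟩ (fun n R => nxt n R) n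
  have hR : ∀ n, R (n + 1) = nxt n (R n) := fun n => rfl
  have hmono : Monotone (fun n => (R n).1) := by
    apply monotone_nat_of_le_succ
    intro n
    show (R n).1 ≤ (R (n + 1)).1
    rw [hR]
    exact hn1 n (R n)
  have hmem : ∀ g, g ∈ (⨆ n, (R n).1) ↔ ∃ n, g ∈ (R n).1 := by
    intro g
    exact Subgroup.mem_iSup_of_directed hmono.directed_le
  have hnorm : ∀ n, (R n).1.Normal := by
    intro n
    obtain ⟨Q, _, ψ, σ, hψs, hQ, hker, hσ⟩ := (R n).2.nice
    constructor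
    intro r hr g
    rw [← hker] at hr ⊢
    rw [map_mul, map_mul, hr, map_inv, mul_one, mul_inv_cancel]
  refine ⟨p, hp, ⨆ n, (R n).1, ?_, ?_, ?_, ?_, ?_, ?_, ?_⟩
  · constructor
    intro n hn g
    rw [hmem] at hn ⊢
    obtain ⟨i, hi⟩ := hn
    exact ⟨i, (hnorm i).conj_mem n hi g⟩
  · intro g hg
    obtain ⟨i, hi⟩ := (hmem g).1 hg
    obtain ⟨Q, _, ψ, σ, hψs, hQ, hker, hσ⟩ := (R i).2.nice
    rw [← hσ, (hker g).2 hi, map_one]
  · intro g
    obtain ⟨n, rfl⟩ := he g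
    obtain ⟨m, hm, hv⟩ := hn2 n (R n)
    rw [← hR] at hv
    exact ⟨m, hm, (hmem _).2 ⟨n + 1, hv⟩⟩
  · intro g hg hgp
    obtain ⟨i, hi⟩ := (hmem _).1 hgp
    obtain ⟨m', h1, h2⟩ := (R i).2.tors g hg p hp.one_lt.le hi
    refine (hmem _).2 ⟨i, ?_⟩
    have h3 : g ^ (Nat.gcd m' p : ℤ) ∈ (R i).1 := by
      rw [Nat.gcd_eq_gcd_ab, zpow_add, zpow_mul, zpow_mul, zpow_natCast, zpow_natCast]
      exact Subgroup.mul_mem _ (Subgroup.zpow_mem _ h2 _) (Subgroup.zpow_mem _ hi _)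
    rw [Nat.Coprime] at h1
    rwa [h1, Nat.cast_one, zpow_one] at h3
  · intro g hg
    obtain ⟨i, hi⟩ := (hmem _).1 hg
    obtain ⟨k, hk⟩ := (R i).2.cent g hi
    exact ⟨k, (hmem _).2 ⟨i, hk⟩⟩
  · intro hb
    obtain ⟨i, hi⟩ := (hmem _).1 hb
    exact (R i).2.bp hi
  · exact (hmem _).2 ⟨0, (R 0).2.ap⟩

/-- The negation of the preceding statement: In any periodic group with no elements of order p, every fixed-point-free automorphism α of prime order p satisfies x·α(x)·α²(x)···α^{p−1}(x) = 1 for all x, i.e. α is splitting. -/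
theorem result :
    ¬ (∀ (G : Type) [Group G], (∀ g : G, IsOfFinOrder g) →
      ∀ (p : ℕ), p.Prime →
        ∀ (α : MulAut G), orderOf α = p →
          (∀ g : G, α g = g → g = 1) →
          (∀ g : G, g ^ p = 1 → g = 1) →
          ∀ x : G, ((List.range p).map (fun i => (α ^ i) x)).prod = 1) := by
  intro hall
  obtain ⟨p, hp, R, hRn, hRpr, htor, hRp, hcent, hbp, hap⟩ := limit
  set π := QuotientGroup.mk' R with hπ
  have hπs : Function.Surjective π := QuotientGroup.mk'_surjective R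
  have hπ1 : ∀ g, π g = 1 ↔ g ∈ R := fun g => QuotientGroup.eq_one_iff g
  let τ : F ⧸ R →* Multiplicative (ZMod p) := QuotientGroup.lift R (pr p) (fun n hn => hRpr n hn)
  have hτ : ∀ g, τ (π g) = pr p g := fun g => rfl
  let K := τ.ker
  have hKn : K.Normal := inferInstance
  let α : MulAut K := MulAut.conjNormal (π ga)
  have hα : ∀ x : K, ((α x : K) : F ⧸ R) = π ga * x * (π ga)⁻¹ := fun x => rfl
  have hαpow : ∀ (i : ℕ) (x : K), (((α ^ i) x : K) : F ⧸ R) = π ga ^ i * x * (π ga ^ i)⁻¹ := by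
    intro i x
    have : α ^ i = MulAut.conjNormal (π ga ^ i) := (map_pow _ _ _).symm
    rw [this]
    rfl
  have hfix : ∀ g : K, α g = g → g = 1 := by
    intro g hg
    obtain ⟨g', hg'⟩ := hπs g
    have h1 := hα g
    rw [hg, ← hg'] at h1
    have h2 : ga⁻¹ * g' * ga * g'⁻¹ ∈ R := by
      rw [← hπ1, map_mul, map_mul, map_mul, map_inv, map_inv]
      have h3 : (π ga)⁻¹ * π g' * π ga = π g' := by
        conv_lhs => rw [h1]
        group
      rw [h3, mul_inv_cancel]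
    obtain ⟨k, hk⟩ := hcent g' h2
    have h4 : π g' = π ga ^ k := by
      have : π (ga ^ (-k) * g') = 1 := (hπ1 _).2 hk
      rw [map_mul, map_zpow, zpow_neg] at this
      exact (inv_mul_eq_one.1 this).symm
    have h5 : pr p ga ^ k = 1 := by
      have h6 : τ (g : F ⧸ R) = 1 := g.2
      rw [← hg', h4, map_zpow, hτ] at h6
      exact h6
    have h7 := dvd_of_zpow hp (q := pr p ga) (by
      rw [pr_a]
      intro h3
      have : Fact p.Prime := ⟨hp⟩
      have h4 := Multiplicative.ofAdd.injective (h3.trans ofAdd_zero.symm)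
      exact one_ne_zero h4) h5
    obtain ⟨l, hl⟩ := h7
    apply Subtype.ext
    rw [← hg', h4, hl, zpow_mul, zpow_natCast, ← map_pow, (hπ1 _).2 hap, one_zpow]
    rfl
  have hbK : pr p (gb ^ p) = 1 := by rw [map_pow, pow_eq_one]
  have hord : orderOf α = p := by
    have : Fact p.Prime := ⟨hp⟩
    apply orderOf_eq_prime
    · apply MulEquiv.ext
      intro x
      apply Subtype.ext
      rw [hαpow, ← map_pow, (hπ1 _).2 hap]
      simp
    · intro h1
      apply hbp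
      have h2 := hfix ⟨π (gb ^ p), by show τ (π (gb ^ p)) = 1; rw [hτ, hbK]⟩ (by
        rw [h1]
        rfl)
      exact (hπ1 _).1 (congrArg Subtype.val h2)
  have hper : ∀ g : K, IsOfFinOrder g := by
    intro g
    obtain ⟨g', hg'⟩ := hπs g
    obtain ⟨m, hm, hmR⟩ := htor g'
    rw [isOfFinOrder_iff_pow_eq_one]
    refine ⟨m, hm, Subtype.ext ?_⟩
    rw [Subgroup.coe_pow, ← hg', ← map_pow, (hπ1 _).2 hmR]
    rfl
  have hnop : ∀ g : K, g ^ p = 1 → g = 1 := by
    intro g hg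
    obtain ⟨g', hg'⟩ := hπs g
    have h1 : pr p g' = 1 := by
      have h6 : τ (g : F ⧸ R) = 1 := g.2
      rwa [← hg', hτ] at h6
    have h2 : g' ^ p ∈ R := by
      rw [← hπ1, map_pow, hg', ← Subgroup.coe_pow, hg]
      rfl
    apply Subtype.ext
    rw [← hg', (hπ1 _).2 (hRp g' h1 h2)]
    rfl
  -- the element `b a⁻¹`
  let x : K := ⟨π (gb * ga⁻¹), by
    show τ (π (gb * ga⁻¹)) = 1
    rw [hτ, map_mul, map_inv, pr_a, pr_b, mul_inv_cancel]⟩
  have h1 := hall K hper p hp α hord hfix hnop x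
  have h2 : ∀ n : ℕ, ((((List.range n).map (fun i => (α ^ i) x)).prod : K) : F ⧸ R) =
      π gb ^ n * (π ga ^ n)⁻¹ := by
    intro n
    induction n with
    | zero => simp
    | succ n ih =>
      rw [List.range_succ, List.map_append, List.prod_append, Subgroup.coe_mul, ih]
      simp only [List.map_cons, List.map_nil, List.prod_cons, List.prod_nil, mul_one]
      rw [hαpow]
      show π gb ^ n * (π ga ^ n)⁻¹ * (π ga ^ n * π (gb * ga⁻¹) * (π ga ^ n)⁻¹) = _
      rw [map_mul, map_inv, pow_succ, pow_succ]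
      group
  have h3 := h2 p
  rw [h1, ← map_pow, ← map_pow, (hπ1 _).2 hap, inv_one, mul_one] at h3
  exact hbp ((hπ1 _).1 h3.symm)

end Pool.Agent.S00648
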