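import Pool.Statements.S00830

set_option autoImplicit false
open Pool Pool.MP_196888_al

namespace Pool.Agent.S00830

/-- The set `ℤ × ZMod 25`, to be equipped with the group law
`(m, a) (n, b) = (m + n, a + b + 5 t (n a - m b))`.  For `t = 1` and `t = 2` these are two
non-isomorphic groups `C_25 ⋊ C_∞` (G. Baumslag's metacyclic groups). -/
@[ext] structure M (t : ZMod 25) where
  m : ℤ
  a : ZMod 25

variable {t : ZMod 25}

instance : Mul (M t) :=
  ⟨fun x y => ⟨x.m + y.m, x.a + y.a + 5 * t * ((y.m : ZMod 25) * x.a - (x.m : ZMod 25) * y.a)⟩⟩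
instance : One (M t) := ⟨⟨0, 0⟩⟩
instance : Inv (M t) := ⟨fun x => ⟨-x.m, -x.a⟩⟩

@[simp] lemma mul_m (x y : M t) : (x * y).m = x.m + y.m := rfl
@[simp] lemma mul_a (x y : M t) : (x * y).a =
    x.a + y.a + 5 * t * ((y.m : ZMod 25) * x.a - (x.m : ZMod 25) * y.a) := rfl
@[simp] lemma one_m : (1 : M t).m = 0 := rfl
@[simp] lemma one_a : (1 : M t).a = 0 := rfl
@[simp] lemma inv_m (x : M t) : (x⁻¹).m = -x.m := rfl
@[simp] lemma inv_a (x : M t) : (x⁻¹).a = -x.a := rfl

lemma h25 : (25 : ZMod 25) = 0 := by decide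

instance : Group (M t) where
  mul_assoc x y z := by
    ext
    · simp [add_assoc]
    · simp only [mul_a, mul_m, Int.cast_add]
      linear_combination (t ^ 2 * (((z.m : ZMod 25) * ((y.m : ZMod 25) * x.a - (x.m : ZMod 25) * y.a))
        + (x.m : ZMod 25) * ((z.m : ZMod 25) * y.a - (y.m : ZMod 25) * z.a))) * h25
  one_mul x := by ext <;> simp
  mul_one x := by ext <;> simp
  inv_mul_cancel x := by
    ext
    · simp
    · simp only [mul_a, inv_m, inv_a, one_a, Int.cast_neg]; ring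

lemma pow_eq (x : M t) (k : ℕ) : x ^ k = ⟨k * x.m, k * x.a⟩ := by
  induction k with
  | zero => ext <;> simp
  | succ k ih =>
    rw [pow_succ, ih]
    ext
    · simp only [mul_m]; push_cast; ring
    · simp only [mul_a]; push_cast; ring

/-- The commutator. -/
lemma comm_eq (x y : M t) : x * y * x⁻¹ * y⁻¹ =
    ⟨0, 10 * t * ((y.m : ZMod 25) * x.a - (x.m : ZMod 25) * y.a)⟩ := by
  ext
  · simp
  · simp only [mul_a, mul_m, inv_m, inv_a, Int.cast_add, Int.cast_neg]
    linear_combination (-(t ^ 2) * (((y.m : ZMod 25) + x.m) *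
      ((y.m : ZMod 25) * x.a - (x.m : ZMod 25) * y.a)) + (-(x.a * t ^ 2 * y.m ^ 2)
      + 5 * x.a * t ^ 3 * y.m ^ 2 * x.m + y.a * t ^ 2 * y.m * x.m
      - 5 * y.a * t ^ 3 * y.m * x.m ^ 2)) * h25

/-- Identity map on the underlying set. -/
def conv (s t : ZMod 25) : M s ≃ M t where
  toFun x := ⟨x.m, x.a⟩
  invFun x := ⟨x.m, x.a⟩
  left_inv _ := rfl
  right_inv _ := rfl

/-- The multiplication of `M 2` in terms of that of `M 1`. -/
lemma conv_mul12 (x y : M 1) :
    conv 1 2 x * conv 1 2 y = conv 1 2 (x * y * (x * y * x⁻¹ * y⁻¹) ^ 3) := by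
  rw [comm_eq, pow_eq]
  ext
  · simp [conv]
  · simp only [conv, Equiv.coe_fn_mk, mul_a, mul_m]
    push_cast
    linear_combination (-(((y.m : ZMod 25) * x.a - (x.m : ZMod 25) * y.a)) *
      (1 - 6 * ((x.m : ZMod 25) + y.m))) * h25

lemma conv_mul21 (x y : M 2) :
    conv 2 1 x * conv 2 1 y = conv 2 1 (x * y * (x * y * x⁻¹ * y⁻¹)) := by
  rw [comm_eq]
  ext
  · simp [conv]
  · simp only [conv, Equiv.coe_fn_mk, mul_a, mul_m]
    push_cast
    linear_combination (-(((y.m : ZMod 25) * x.a - (x.m : ZMod 25) * y.a)) *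
      (1 - 8 * ((x.m : ZMod 25) + y.m))) * h25

/-- The coordinatewise identity map on squares. -/
def cv (s t : ZMod 25) : (Fin 2 → M s) ≃ (Fin 2 → M t) where
  toFun f i := conv s t (f i)
  invFun f i := conv t s (f i)
  left_inv _ := rfl
  right_inv _ := rfl

lemma cv_mul12 (x y : Fin 2 → M 1) :
    cv 1 2 x * cv 1 2 y = cv 1 2 (x * y * (x * y * x⁻¹ * y⁻¹) ^ 3) := by
  funext i
  exact conv_mul12 (x i) (y i)

lemma cv_mul21 (x y : Fin 2 → M 2) :
    cv 2 1 x * cv 2 1 y = cv 2 1 (x * y * (x * y * x⁻¹ * y⁻¹)) := by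
  funext i
  exact conv_mul21 (x i) (y i)

lemma cv_inv (s t : ZMod 25) (x : Fin 2 → M s) : (cv s t x)⁻¹ = cv s t x⁻¹ := rfl
lemma cv_one (s t : ZMod 25) : cv s t 1 = 1 := rfl
lemma cv_cv (s t : ZMod 25) (x : Fin 2 → M s) : cv t s (cv s t x) = x := rfl

/-- A subgroup of `(M 1)^2` is, as a set, a subgroup of `(M 2)^2`. -/
def fwd (H : Subgroup (Fin 2 → M 1)) : Subgroup (Fin 2 → M 2) where
  carrier := {y | cv 2 1 y ∈ H}
  mul_mem' := by
    intro x y hx hy
    have hx' : cv 2 1 x ∈ H := hx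
    have hy' : cv 2 1 y ∈ H := hy
    have h := cv_mul12 (cv 2 1 x) (cv 2 1 y)
    rw [cv_cv, cv_cv] at h
    change cv 2 1 (x * y) ∈ H
    rw [h, cv_cv]
    exact H.mul_mem (H.mul_mem hx' hy') (H.pow_mem (H.mul_mem (H.mul_mem (H.mul_mem hx' hy')
      (H.inv_mem hx')) (H.inv_mem hy')) 3)
  one_mem' := by
    change cv 2 1 1 ∈ H
    rw [cv_one]; exact H.one_mem
  inv_mem' := by
    intro x hx
    have hx' : cv 2 1 x ∈ H := hx
    change cv 2 1 x⁻¹ ∈ H
    rw [← cv_inv]; exact H.inv_mem hx'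

/-- A subgroup of `(M 2)^2` is, as a set, a subgroup of `(M 1)^2`. -/
def bwd (H : Subgroup (Fin 2 → M 2)) : Subgroup (Fin 2 → M 1) where
  carrier := {y | cv 1 2 y ∈ H}
  mul_mem' := by
    intro x y hx hy
    have hx' : cv 1 2 x ∈ H := hx
    have hy' : cv 1 2 y ∈ H := hy
    have h := cv_mul21 (cv 1 2 x) (cv 1 2 y)
    rw [cv_cv, cv_cv] at h
    change cv 1 2 (x * y) ∈ H
    rw [h, cv_cv]
    exact H.mul_mem (H.mul_mem hx' hy') (H.mul_mem (H.mul_mem (H.mul_mem hx' hy')
      (H.inv_mem hx')) (H.inv_mem hy'))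
  one_mem' := by
    change cv 1 2 1 ∈ H
    rw [cv_one]; exact H.one_mem
  inv_mem' := by
    intro x hx
    have hx' : cv 1 2 x ∈ H := hx
    change cv 1 2 x⁻¹ ∈ H
    rw [← cv_inv]; exact H.inv_mem hx'

/-- The projectivity. -/
def phi : Subgroup (Fin 2 → M 1) ≃o Subgroup (Fin 2 → M 2) where
  toFun := fwd
  invFun := bwd
  left_inv _ := rfl
  right_inv _ := rfl
  map_rel_iff' := by
    intro H K
    constructor
    · intro h x hx
      exact h (show cv 1 2 x ∈ fwd H from hx)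
    · intro h x hx
      exact h (show cv 2 1 x ∈ H from hx)

lemma mem_range_single {s : ZMod 25} (i : Fin 2) (f : Fin 2 → M s) :
    f ∈ (MonoidHom.mulSingle (fun _ : Fin 2 => M s) i).range ↔ ∀ j, j ≠ i → f j = 1 := by
  constructor
  · rintro ⟨x, rfl⟩ j hj
    simp [MonoidHom.mulSingle_apply, hj]
  · intro h
    refine ⟨f i, ?_⟩
    funext j
    by_cases hj : j = i
    · subst hj; simp
    · rw [h j hj]; simp [MonoidHom.mulSingle_apply, hj]

lemma phi_range (i : Fin 2) : phi (MonoidHom.mulSingle (fun _ : Fin 2 => M 1) i).range =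
    (MonoidHom.mulSingle (fun _ : Fin 2 => M 2) i).range := by
  ext f
  rw [mem_range_single]
  change cv 2 1 f ∈ (MonoidHom.mulSingle (fun _ : Fin 2 => M 1) i).range ↔ _
  rw [mem_range_single]
  constructor
  · intro h j hj
    have := h j hj
    have h2 : conv 1 2 (conv 2 1 (f j)) = conv 1 2 1 := congrArg (conv 1 2) this
    exact h2
  · intro h j hj
    have := h j hj
    have h2 : conv 2 1 (f j) = conv 2 1 1 := congrArg (conv 2 1) this
    exact h2

lemma range_normal {s : ZMod 25} (i : Fin 2) :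
    ((MonoidHom.mulSingle (fun _ : Fin 2 => M s) i).range).Normal := by
  constructor
  intro f hf g
  rw [mem_range_single] at hf ⊢
  intro j hj
  simp [hf j hj]

lemma range_sup {s : ZMod 25} :
    (⨆ i : Fin 2, (MonoidHom.mulSingle (fun _ : Fin 2 => M s) i).range) = ⊤ := by
  rw [eq_top_iff]
  intro f _
  have h : f = Pi.mulSingle 0 (f 0) * Pi.mulSingle 1 (f 1) := by
    funext j
    fin_cases j <;> simp
  rw [h]
  refine Subgroup.mul_mem _ ?_ ?_
  · exact (le_iSup (fun i : Fin 2 => (MonoidHom.mulSingle (fun _ : Fin 2 => M s) i).range) 0)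
      ⟨f 0, rfl⟩
  · exact (le_iSup (fun i : Fin 2 => (MonoidHom.mulSingle (fun _ : Fin 2 => M s) i).range) 1)
      ⟨f 1, rfl⟩

lemma range_indep {s : ZMod 25} :
    iSupIndep (fun i : Fin 2 => (MonoidHom.mulSingle (fun _ : Fin 2 => M s) i).range) := by
  intro i
  rw [disjoint_iff_inf_le]
  rintro f ⟨hf1, hf2⟩
  have hle : (⨆ j, ⨆ (_ : j ≠ i), (MonoidHom.mulSingle (fun _ : Fin 2 => M s) j).range) ≤
      (Pi.evalMonoidHom (fun _ : Fin 2 => M s) i).ker := by
    refine iSup_le fun j => iSup_le fun hj => ?_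
    intro g hg
    rw [mem_range_single] at hg
    exact hg i (Ne.symm hj)
  have h2 : f i = 1 := hle hf2
  have h1 := (mem_range_single i f).1 hf1
  rw [Subgroup.mem_bot]
  funext j
  by_cases hj : j = i
  · subst hj; exact h2
  · exact h1 j hj

/-- The two groups are not isomorphic. -/
lemma not_iso : ¬ Nonempty (M 2 ≃* M 1) := by
  rintro ⟨ψ⟩
  -- first coordinate of the image
  have hpow : ∀ x : M 2, (ψ x).m = x.m * (ψ ⟨1, 0⟩).m := by
    intro x
    have h1 : x ^ 25 = (⟨25 * x.m, 0⟩ : M 2) := by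
      rw [pow_eq]; ext
      · simp
      · simp [h25]
    -- pass to the integer-valued homomorphism
    let π : M 1 →* Multiplicative ℤ :=
      { toFun := fun y => Multiplicative.ofAdd y.m
        map_one' := rfl
        map_mul' := fun _ _ => rfl }
    have hz : ∀ k : ℤ, ((⟨1, 0⟩ : M 2) ^ k) = ⟨k, 0⟩ := by
      intro k
      obtain ⟨n, rfl | rfl⟩ := k.eq_nat_or_neg
      · rw [zpow_natCast, pow_eq]; ext <;> simp
      · rw [zpow_neg, zpow_natCast, pow_eq]; ext <;> simp
    have h2 : (⟨25 * x.m, 0⟩ : M 2) = (⟨1, 0⟩ : M 2) ^ (25 * x.m) := (hz _).symm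
    have h3 : π (ψ (x ^ 25)) = π (ψ ((⟨1, 0⟩ : M 2) ^ (25 * x.m))) := by rw [h1, h2]
    rw [map_pow, map_pow, map_zpow, map_zpow] at h3
    have h4 : (25 : ℤ) * (ψ x).m = (25 * x.m) * (ψ ⟨1, 0⟩).m := by
      have := congrArg Multiplicative.toAdd h3
      simpa [π] using this
    linarith
  set p : ℤ := (ψ ⟨1, 0⟩).m with hp
  have hunit : IsUnit p := by
    obtain ⟨x, hx⟩ := ψ.surjective ⟨1, 0⟩
    have := hpow x
    rw [hx] at this
    exact IsUnit.of_mul_eq_one x.m (by rw [mul_comm]; exact this.symm)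
  -- the image of the torsion generator
  have ha : (ψ ⟨0, 1⟩).m = 0 := by rw [hpow]; simp
  set u : ZMod 25 := (ψ ⟨0, 1⟩).a with hu
  have hψa : ψ ⟨0, 1⟩ = ⟨0, u⟩ := by ext <;> simp [ha, hu]
  set v : ZMod 25 := (ψ ⟨1, 0⟩).a with hv
  have hψb : ψ ⟨1, 0⟩ = ⟨p, v⟩ := by ext <;> simp [hp, hv]
  -- `5 * u ≠ 0`
  have hu5 : 5 * u ≠ 0 := by
    intro h
    have h1 : ψ ((⟨0, 1⟩ : M 2) ^ 5) = 1 := by
      rw [map_pow, hψa, pow_eq]
      ext
      · simp
      · simpa using h
    have h2 : (⟨0, 1⟩ : M 2) ^ 5 = 1 := by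
      rw [← ψ.map_one] at h1
      exact ψ.injective h1
    rw [pow_eq] at h2
    have h3 := congrArg M.a h2
    revert h3
    simp only [one_a]
    decide
  -- compare commutators
  have hc := comm_eq (⟨0, 1⟩ : M 2) (⟨1, 0⟩ : M 2)
  have hc1 : (⟨0, 10 * 2 * (((1 : ℤ) : ZMod 25) * 1 - ((0 : ℤ) : ZMod 25) * 0)⟩ : M 2) =
      (⟨0, 1⟩ : M 2) ^ 20 := by
    rw [pow_eq]
    ext
    · simp
    · simp only []
      decide
  rw [hc1] at hc
  have hc2 := congrArg ψ hc
  rw [map_mul, map_mul, map_mul, map_inv, map_inv, map_pow, hψa, hψb, comm_eq, pow_eq] at hc2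
  have hc3 := congrArg M.a hc2
  simp only [Int.cast_zero, zero_mul, sub_zero, mul_one] at hc3
  rcases Int.isUnit_iff.1 hunit with h | h
  · rw [h] at hc3
    push_cast at hc3
    apply hu5
    linear_combination (-3 : ZMod 25) * hc3 - u * h25
  · rw [h] at hc3
    push_cast at hc3
    apply hu5
    linear_combination (-1 : ZMod 25) * hc3 - u * h25

/-- The negation of the preceding statement: For every group G, every m ≥ 2 and every lattice isomorphism φ from the subgroups of G^m to the subgroups of a group H such that H is the internal direct product of the images of the coordinate subgroups, the image of the first coordinate subgroup is isomorphic to G. -/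
theorem result :
    ¬ (∀ (G : Type) [Group G] (n : ℕ) (H : Type) [Group H]
      (φ : Subgroup (Fin (n + 2) → G) ≃o Subgroup H),
      (∀ i : Fin (n + 2),
          (φ (MonoidHom.mulSingle (fun _ : Fin (n + 2) => G) i).range).Normal) →
      (⨆ i : Fin (n + 2), φ (MonoidHom.mulSingle (fun _ : Fin (n + 2) => G) i).range) = ⊤ →
      iSupIndep (fun i : Fin (n + 2) =>
          φ (MonoidHom.mulSingle (fun _ : Fin (n + 2) => G) i).range) →
      Nonempty (↥(φ (MonoidHom.mulSingle (fun _ : Fin (n + 2) => G) 0).range) ≃* G)) := by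
  intro h
  have h0 := h (M 1) 0 (Fin 2 → M 2) phi
  have e : ∀ i : Fin (0 + 2), phi (MonoidHom.mulSingle (fun _ : Fin (0 + 2) => M 1) i).range =
      (MonoidHom.mulSingle (fun _ : Fin 2 => M 2) i).range := phi_range
  obtain ⟨χ⟩ := h0 (fun i => by rw [e i]; exact range_normal i)
    (by simp_rw [e]; exact range_sup)
    (by simp_rw [e]; exact range_indep)
  apply not_iso
  have hinj : Function.Injective (MonoidHom.mulSingle (fun _ : Fin 2 => M 2) 0) := by
    intro x y hxy
    have := congrFun hxy 0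
    simpa using this
  exact ⟨((MonoidHom.ofInjective hinj).trans (MulEquiv.subgroupCongr (e 0).symm)).trans χ⟩

end Pool.Agent.S00830
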