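import Pool.Statements.S00878
import Pool.Agent.Helper475.Torsion

set_option autoImplicit false
open scoped Pointwise
open Pool Pool.MP_1dd661_al

namespace Pool.Agent.S00878

section aux

variable {T : Type} [Group T]

/-- The group of the example: all functions from `T` to the group of order two, with the product
topology. -/
abbrev GG (T : Type) : Type := T → Multiplicative (ZMod 2)

/-- The shift action. -/
def shift (T : Type) [Group T] : T →* MulAut (GG T) where
  toFun t :=
    { toFun := fun f x => f (t⁻¹ * x)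
      invFun := fun f x => f (t * x)
      left_inv := fun f => by funext x; simp
      right_inv := fun f => by funext x; simp
      map_mul' := fun f g => rfl }
  map_one' := by ext f x; simp
  map_mul' := fun s t => by
    ext f x
    simp [mul_assoc]

lemma shift_apply (t : T) (f : GG T) (x : T) : shift T t f x = f (t⁻¹ * x) := rfl

lemma tidy_le {G : Type} [Group G] (a : MulAut G) (U : Subgroup G) (ha : IsOfFinOrder a)
    (h : (U : Set G) =
              (⋂ n : ℕ, Set.image (⇑(a ^ n)) (U : Set G)) *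
                (⋂ n : ℕ, Set.image (⇑(a⁻¹ ^ n)) (U : Set G))) :
    ∀ u ∈ U, a u ∈ U := by
  obtain ⟨N, hN, haN⟩ := isOfFinOrder_iff_pow_eq_one.mp ha
  -- both intersections are contained in every `a ^ n U`
  have key : ∀ u ∈ U, ∀ n : ℕ, u ∈ Set.image (⇑(a ^ n)) (U : Set G) := by
    intro u hu n
    have hu' : u ∈ (U : Set G) := hu
    rw [h] at hu'
    obtain ⟨v, hv, w, hw, rfl⟩ := hu'
    have h1 : v ∈ Set.image (⇑(a ^ n)) (U : Set G) := Set.mem_iInter.mp hv n
    have h2 : w ∈ Set.image (⇑(a ^ n)) (U : Set G) := by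
      have h3 := Set.mem_iInter.mp hw (N * n - n)
      have h4 : a⁻¹ ^ (N * n - n) = a ^ n := by
        have h5 : a ^ (N * n - n) * a ^ n = 1 := by
          rw [← pow_add, Nat.sub_add_cancel (Nat.le_mul_of_pos_left n hN), pow_mul, haN, one_pow]
        rw [inv_pow]
        exact inv_eq_of_mul_eq_one_right h5
      rw [h4] at h3
      exact h3
    obtain ⟨v', hv', rfl⟩ := h1
    obtain ⟨w', hw', rfl⟩ := h2
    exact ⟨v' * w', U.mul_mem hv' hw', by simp⟩
  intro u hu
  obtain ⟨u', hu', h1⟩ := key u hu (N - 1)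
  have h2 : a ((a ^ (N - 1)) u') = u' := by
    rw [← MulAut.mul_apply, ← pow_succ', Nat.sub_add_cancel hN, haN]
    rfl
  rw [← h1, h2]
  exact hu'

lemma exists_disjoint [Infinite T] (S : Finset T) : ∃ t : T, ∀ s ∈ S, t⁻¹ * s ∉ S := by
  classical
  obtain ⟨t, ht⟩ := Infinite.exists_notMem_finset
    ((S ×ˢ S).image (fun p : T × T => p.1 * p.2⁻¹))
  refine ⟨t, fun s hs hts => ht ?_⟩
  refine Finset.mem_image.mpr ⟨(s, t⁻¹ * s), Finset.mem_product.mpr ⟨hs, hts⟩, ?_⟩
  simp

/-- An open subgroup of the group of functions that is invariant under the shifts by an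
infinite group is everything. -/
lemma eq_top_of_invariant [Infinite T] (U : Subgroup (GG T)) (hU : IsOpen (U : Set (GG T)))
    (hinv : ∀ t : T, ∀ u ∈ U, shift T t u ∈ U) : U = ⊤ := by
  classical
  have h1 : (U : Set (GG T)) ∈ nhds (1 : GG T) := hU.mem_nhds U.one_mem
  rw [nhds_pi, Filter.mem_pi] at h1
  obtain ⟨I, hI, V, hV, hIV⟩ := h1
  let S : Finset T := hI.toFinset
  have hS : ∀ f : GG T, (∀ s ∈ S, f s = 1) → f ∈ U := by
    intro f hf
    apply hIV
    intro i hi
    have h2 : f i = 1 := hf i (hI.mem_toFinset.mpr hi)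
    rw [h2]
    exact mem_of_mem_nhds (hV i)
  obtain ⟨t, ht⟩ := exists_disjoint S
  rw [eq_top_iff]
  intro g _
  have h3 : (fun x => if x ∈ S then 1 else g x : GG T) ∈ U :=
    hS _ (fun s hs => by simp [hs])
  have h4 : (fun x => if x ∈ S then g x else 1 : GG T) ∈ U := by
    have h5 : shift T t (fun x => if x ∈ S then g x else 1 : GG T) ∈ U := by
      refine hS _ (fun s hs => ?_)
      rw [shift_apply]
      simp [ht s hs]
    have h6 := hinv t⁻¹ _ h5
    rw [← MulAut.mul_apply, ← map_mul, inv_mul_cancel, map_one] at h6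
    exact h6
  have h7 : g = (fun x => if x ∈ S then 1 else g x : GG T) *
      (fun x => if x ∈ S then g x else 1 : GG T) := by
    funext x
    by_cases hx : x ∈ S <;> simp [hx]
  rw [h7]
  exact U.mul_mem h3 h4

/-- For a shift of finite order there are small compact open tidy subgroups. -/
lemma exists_tidy (t : T) (ht : IsOfFinOrder t) (g : GG T) (hg : g ≠ 1) :
    ∃ U : Subgroup (GG T), IsOpen (U : Set (GG T)) ∧
      (∀ n : ℕ, Set.image (⇑((shift T t) ^ n)) (U : Set (GG T)) = U) ∧
      (∀ n : ℕ, Set.image (⇑((shift T t)⁻¹ ^ n)) (U : Set (GG T)) = U) ∧ g ∉ U := by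
  classical
  obtain ⟨x, hx⟩ : ∃ x, g x ≠ 1 := by
    by_contra h
    push Not at h
    exact hg (funext h)
  obtain ⟨N, hN, htN⟩ := isOfFinOrder_iff_pow_eq_one.mp ht
  let O : Set T := Set.range (fun k : ℤ => t ^ k * x)
  have hO : O.Finite := by
    have h1 : (Set.range (fun k : ℤ => t ^ k)).Finite := by
      have := ht.finite_zpowers
      exact this
    have h2 : O = (fun y => y * x) '' (Set.range (fun k : ℤ => t ^ k)) := by
      rw [← Set.range_comp]
      rfl
    rw [h2]
    exact h1.image _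
  let U : Subgroup (GG T) :=
    { carrier := {f | ∀ y ∈ O, f y = 1}
      mul_mem' := fun {a b} ha hb y hy => by
        rw [Pi.mul_apply, ha y hy, hb y hy, one_mul]
      one_mem' := fun y _ => rfl
      inv_mem' := fun {a} ha y hy => by
        rw [Pi.inv_apply, ha y hy, inv_one] }
  have hUo : IsOpen (U : Set (GG T)) := by
    have : (U : Set (GG T)) = ⋂ y ∈ O, {f : GG T | f y = 1} := by
      ext f
      simp [U]
    rw [this]
    refine hO.isOpen_biInter (fun y _ => ?_)
    have h3 : IsOpen ({1} : Set (Multiplicative (ZMod 2))) := isOpen_discrete _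
    exact h3.preimage (continuous_apply (A := fun _ : T => Multiplicative (ZMod 2)) y)
  have hinv : ∀ k : ℤ, ∀ f ∈ U, (shift T (t ^ k)) f ∈ U := by
    intro k f hf y hy
    obtain ⟨m, rfl⟩ := hy
    rw [shift_apply]
    refine hf _ ⟨-k + m, ?_⟩
    simp only
    rw [← zpow_neg, zpow_add, mul_assoc]
  have himg : ∀ k : ℤ, Set.image (⇑(shift T (t ^ k))) (U : Set (GG T)) = U := by
    intro k
    apply Set.Subset.antisymm
    · rintro _ ⟨f, hf, rfl⟩
      exact hinv k f hf
    · intro f hf
      refine ⟨shift T (t ^ (-k)) f, hinv (-k) f hf, ?_⟩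
      rw [← MulAut.mul_apply, ← map_mul, ← zpow_add, add_neg_cancel, zpow_zero, map_one]
      rfl
  refine ⟨U, hUo, ?_, ?_, ?_⟩
  · intro n
    rw [← map_pow, ← zpow_natCast]
    exact himg n
  · intro n
    rw [← map_inv, ← map_pow, inv_pow, ← zpow_natCast, ← zpow_neg]
    exact himg _
  · intro h
    exact hx (h x ⟨0, by simp⟩)

end aux

/-- The negation of the preceding statement: For a t.d.l.c. group G and a finitely generated flat group H of topological automorphisms, there are finitely many distinct elements of H whose nubs multiply, as sets, to the nub of H. -/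
theorem result :
    ¬ (∀ (G : Type) [Group G] [TopologicalSpace G] [IsTopologicalGroup G]
      [LocallyCompactSpace G] [TotallyDisconnectedSpace G]
      (H : Subgroup (MulAut G)) (tidy : MulAut G → Subgroup G → Prop),
      (∀ (a : MulAut G) (U : Subgroup G), tidy a U ↔
          ((U : Set G) =
              (⋂ n : ℕ, Set.image (⇑(a ^ n)) (U : Set G)) *
                (⋂ n : ℕ, Set.image (⇑(a⁻¹ ^ n)) (U : Set G)) ∧
            IsClosed (⋃ m : ℕ, Set.image (⇑(a ^ m))
                (⋂ n : ℕ, Set.image (⇑(a ^ n)) (U : Set G))))) →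
      (∀ a ∈ H, Continuous (⇑a)) →
      H.FG →
      (∃ U : Subgroup G, IsCompact (U : Set G) ∧ IsOpen (U : Set G) ∧
          ∀ a ∈ H, tidy a U) →
      ∃ l : List (MulAut G), l.Nodup ∧ (∀ a ∈ l, a ∈ H) ∧
        (⋂ (U : Subgroup G)
            (_ : IsCompact (U : Set G) ∧ IsOpen (U : Set G) ∧ ∀ a ∈ H, tidy a U),
            (U : Set G)) =
          (l.map (fun a => ⋂ (U : Subgroup G)
              (_ : IsCompact (U : Set G) ∧ IsOpen (U : Set G) ∧ tidy a U),
              (U : Set G))).prod) := by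
  intro hmain
  classical
  obtain ⟨T, hT, S, hS, hinf, htor⟩ := Pool.Agent.Helper475.Torsion.exists_inf_torsion
  let H : Subgroup (MulAut (GG T)) := (shift T).range
  let tidy : MulAut (GG T) → Subgroup (GG T) → Prop := fun a U =>
    ((U : Set (GG T)) =
              (⋂ n : ℕ, Set.image (⇑(a ^ n)) (U : Set (GG T))) *
                (⋂ n : ℕ, Set.image (⇑(a⁻¹ ^ n)) (U : Set (GG T))) ∧
            IsClosed (⋃ m : ℕ, Set.image (⇑(a ^ m))
                (⋂ n : ℕ, Set.image (⇑(a ^ n)) (U : Set (GG T)))))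
  have htidy : ∀ a U, tidy a U ↔ ((U : Set (GG T)) =
              (⋂ n : ℕ, Set.image (⇑(a ^ n)) (U : Set (GG T))) *
                (⋂ n : ℕ, Set.image (⇑(a⁻¹ ^ n)) (U : Set (GG T))) ∧
            IsClosed (⋃ m : ℕ, Set.image (⇑(a ^ m))
                (⋂ n : ℕ, Set.image (⇑(a ^ n)) (U : Set (GG T))))) := fun a U => Iff.rfl
  have tidy_of : ∀ (a : MulAut (GG T)) (U : Subgroup (GG T)), IsClosed (U : Set (GG T)) →
      (∀ n : ℕ, Set.image (⇑(a ^ n)) (U : Set (GG T)) = U) →
      (∀ n : ℕ, Set.image (⇑(a⁻¹ ^ n)) (U : Set (GG T)) = U) → tidy a U := by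
    intro a U hc h1 h2
    refine (htidy a U).mpr ⟨?_, ?_⟩
    · simp only [h1, h2, Set.iInter_const]
      exact (coe_mul_coe U).symm
    · simp only [h1, Set.iInter_const, Set.iUnion_const]
      exact hc
  have htop : ∀ a ∈ H, tidy a ⊤ := by
    intro a _
    refine tidy_of a ⊤ (by simp) (fun n => ?_) (fun n => ?_)
    · simp
    · simp
  obtain ⟨l, _, hl, heq⟩ := hmain (GG T) H tidy htidy (by
    rintro _ ⟨t, rfl⟩
    exact continuous_pi (fun x => continuous_apply (t⁻¹ * x))) (by
    refine ⟨S.image (shift T), ?_⟩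
    rw [Finset.coe_image, ← MonoidHom.map_closure, hS, ← MonoidHom.range_eq_map]) ⟨⊤, by simpa using isCompact_univ, by simp, htop⟩
  have hL : (⋂ (U : Subgroup (GG T))
            (_ : IsCompact (U : Set (GG T)) ∧ IsOpen (U : Set (GG T)) ∧ ∀ a ∈ H, tidy a U),
            (U : Set (GG T))) = Set.univ := by
    rw [Set.iInter_eq_univ]
    intro U
    rw [Set.iInter_eq_univ]
    rintro ⟨_, hUo, hUt⟩
    have : U = ⊤ := by
      refine eq_top_of_invariant U hUo (fun t u hu => ?_)
      have h1 := (htidy _ _).mp (hUt (shift T t) ⟨t, rfl⟩)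
      exact tidy_le (shift T t) U ((shift T).isOfFinOrder (htor t)) h1.1 u hu
    rw [this]
    rfl
  have hR : ∀ a ∈ l, (⋂ (U : Subgroup (GG T))
              (_ : IsCompact (U : Set (GG T)) ∧ IsOpen (U : Set (GG T)) ∧ tidy a U),
              (U : Set (GG T))) = 1 := by
    intro a ha
    obtain ⟨t, rfl⟩ := hl a ha
    apply Set.Subset.antisymm
    · intro g hg
      by_contra hg1
      have hg2 : g ≠ 1 := fun h => hg1 (by rw [h]; exact Set.mem_one.mpr rfl)
      obtain ⟨U, hUo, h1, h2, hgU⟩ := exists_tidy t (htor t) g hg2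
      have hUc : IsClosed (U : Set (GG T)) := U.isClosed_of_isOpen hUo
      exact hgU (Set.mem_iInter₂.mp hg U ⟨hUc.isCompact, hUo, tidy_of _ _ hUc h1 h2⟩)
    · intro g hg
      rw [Set.mem_one] at hg
      subst hg
      exact Set.mem_iInter₂.mpr (fun U _ => U.one_mem)
  have hR2 : (l.map (fun a => ⋂ (U : Subgroup (GG T))
              (_ : IsCompact (U : Set (GG T)) ∧ IsOpen (U : Set (GG T)) ∧ tidy a U),
              (U : Set (GG T)))).prod = 1 := by
    apply List.prod_eq_one
    intro s hs
    obtain ⟨a, ha, rfl⟩ := List.mem_map.mp hs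
    exact hR a ha
  rw [hL, hR2] at heq
  have h0 : (fun _ => Multiplicative.ofAdd (1 : ZMod 2) : GG T) ∈ (1 : Set (GG T)) := by
    rw [← heq]; trivial
  have h1 := congrFun (Set.mem_one.mp h0) (Classical.arbitrary T)
  have h2 : (1 : ZMod 2) = 0 := congrArg Multiplicative.toAdd h1
  exact one_ne_zero h2

end Pool.Agent.S00878
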