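import Pool.Statements.S01044
import Pool.Agent.TH53.PC2

set_option autoImplicit false
open Pool Pool.MP_2c0439_al

namespace Pool.Agent.S01044

/-- The negation of the preceding statement: For every finite set of size at least 3 and every clone C on it, the strong partial clones (closed under composition and restriction) whose total part is C form a finite set or a set of continuum size. -/
theorem result :
    ¬ (∀ k : ℕ, 3 ≤ k →
  ∀ C : (n : ℕ) → Set ((Fin (n+1) → Fin k) → Fin k),
    (∀ (n : ℕ) (i : Fin (n+1)), (fun x : Fin (n+1) → Fin k => x i) ∈ C n) →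
    (∀ (n m : ℕ) (f : (Fin (n+1) → Fin k) → Fin k)
        (g : Fin (n+1) → (Fin (m+1) → Fin k) → Fin k),
        f ∈ C n → (∀ i, g i ∈ C m) →
        (fun x : Fin (m+1) → Fin k => f (fun i => g i x)) ∈ C m) →
    (Set.Finite {F : (n : ℕ) → Set ((Fin (n+1) → Fin k) → Option (Fin k)) |
        (∀ (n : ℕ) (i : Fin (n+1)), (fun x : Fin (n+1) → Fin k => some (x i)) ∈ F n) ∧
        (∀ (n m : ℕ) (f : (Fin (n+1) → Fin k) → Option (Fin k))
            (g : Fin (n+1) → (Fin (m+1) → Fin k) → Option (Fin k))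
            (h : (Fin (m+1) → Fin k) → Option (Fin k)),
            f ∈ F n → (∀ i, g i ∈ F m) →
            (∀ x b, h x = some b ↔
              ∃ y : Fin (n+1) → Fin k, (∀ i, g i x = some (y i)) ∧ f y = some b) →
            h ∈ F m) ∧
        (∀ (n : ℕ) (f h : (Fin (n+1) → Fin k) → Option (Fin k)),
            f ∈ F n → (∀ x b, h x = some b → f x = some b) → h ∈ F n) ∧
        (∀ (n : ℕ) (f : (Fin (n+1) → Fin k) → Fin k),
            f ∈ C n ↔ (fun x => some (f x)) ∈ F n)}
    ∨ Cardinal.mk ↥{F : (n : ℕ) → Set ((Fin (n+1) → Fin k) → Option (Fin k)) |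
        (∀ (n : ℕ) (i : Fin (n+1)), (fun x : Fin (n+1) → Fin k => some (x i)) ∈ F n) ∧
        (∀ (n m : ℕ) (f : (Fin (n+1) → Fin k) → Option (Fin k))
            (g : Fin (n+1) → (Fin (m+1) → Fin k) → Option (Fin k))
            (h : (Fin (m+1) → Fin k) → Option (Fin k)),
            f ∈ F n → (∀ i, g i ∈ F m) →
            (∀ x b, h x = some b ↔
              ∃ y : Fin (n+1) → Fin k, (∀ i, g i x = some (y i)) ∧ f y = some b) →
            h ∈ F m) ∧
        (∀ (n : ℕ) (f h : (Fin (n+1) → Fin k) → Option (Fin k)),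
            f ∈ F n → (∀ x b, h x = some b → f x = some b) → h ∈ F n) ∧
        (∀ (n : ℕ) (f : (Fin (n+1) → Fin k) → Fin k),
            f ∈ C n ↔ (fun x => some (f x)) ∈ F n)} = Cardinal.continuum)) := by
  intro hmain
  have h := hmain 5 (by norm_num) Pool.Agent.TH53.PC.C Pool.Agent.TH53.PC.C_proj
    Pool.Agent.TH53.PC.C_comp
  have hset : {F : (n : ℕ) → Set ((Fin (n+1) → Fin 5) → Option (Fin 5)) |
        (∀ (n : ℕ) (i : Fin (n+1)), (fun x : Fin (n+1) → Fin 5 => some (x i)) ∈ F n) ∧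
        (∀ (n m : ℕ) (f : (Fin (n+1) → Fin 5) → Option (Fin 5))
            (g : Fin (n+1) → (Fin (m+1) → Fin 5) → Option (Fin 5))
            (h : (Fin (m+1) → Fin 5) → Option (Fin 5)),
            f ∈ F n → (∀ i, g i ∈ F m) →
            (∀ x b, h x = some b ↔
              ∃ y : Fin (n+1) → Fin 5, (∀ i, g i x = some (y i)) ∧ f y = some b) →
            h ∈ F m) ∧
        (∀ (n : ℕ) (f h : (Fin (n+1) → Fin 5) → Option (Fin 5)),
            f ∈ F n → (∀ x b, h x = some b → f x = some b) → h ∈ F n) ∧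
        (∀ (n : ℕ) (f : (Fin (n+1) → Fin 5) → Fin 5),
            f ∈ Pool.Agent.TH53.PC.C n ↔ (fun x => some (f x)) ∈ F n)} =
      Pool.Agent.TH53.PC.Interval := by
    ext F
    constructor
    · rintro ⟨h1, h2, h3, h4⟩
      exact ⟨⟨h1, h2, h3⟩, h4⟩
    · rintro ⟨⟨h1, h2, h3⟩, h4⟩
      exact ⟨h1, h2, h3, h4⟩
  rw [hset] at h
  rcases h with h | h
  · exact Pool.Agent.TH53.PC.interval_infinite h
  · have h1 : Cardinal.mk ↥Pool.Agent.TH53.PC.Interval ≤ Cardinal.aleph0 :=
      Cardinal.le_aleph0_iff_set_countable.2 Pool.Agent.TH53.PC.interval_countable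
    rw [h] at h1
    exact absurd Cardinal.aleph0_lt_continuum (not_lt.2 h1)


end Pool.Agent.S01044
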