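import Pool.Statements.S01206
import Pool.Agent.TH54.BU.Main2
import Pool.Agent.TH54.BU.Inf

set_option autoImplicit false
open Pool Pool.MP_38b588_al

namespace Pool.Agent.S01206

/-- The negation of the preceding statement: For every word w in n letters and every group G: G is finite or satisfies the law w=1 iff for any n infinite subsets X_i of G one can pick x_i in X_i with w(x_1,…,x_n)=1. -/
theorem result :
    ¬ (∀ (n : ℕ) (w : FreeGroup (Fin n)) (G : Type) [Group G],
      (Finite G ∨ ∀ x : Fin n → G, FreeGroup.lift x w = 1) ↔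
        (∀ X : Fin n → Set G, (∀ i, (X i).Infinite) →
          ∃ x : Fin n → G, (∀ i, x i ∈ X i) ∧ FreeGroup.lift x w = 1)) := by
  obtain ⟨p1, h1⟩ := Pool.Agent.TH54.BU.burnside
  obtain ⟨p2, h2⟩ := Pool.Agent.TH54.BU.burnside2
  obtain ⟨p, hle, hp⟩ := Nat.exists_infinite_primes (max (max p1 p2) 3)
  have e1 : p1 ≤ p := (le_max_left _ _).trans ((le_max_left _ _).trans hle)
  have e2 : p2 ≤ p := (le_max_right _ _).trans ((le_max_left _ _).trans hle)
  have e3 : 3 ≤ p := (le_max_right _ _).trans hle
  exact Pool.Agent.TH54.BU.app_S01206 hp e3 (h2 p hp e2) ((h1 p hp e1).infinite hp)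

end Pool.Agent.S01206
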