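import Pool.Statements.S01227
import Pool.Agent.TH714.TD.Final

set_option autoImplicit false
open Pool Pool.MP_3ae405_al

namespace Pool.Agent.S01227

/-- For every k ≥ 1 there is an infinite countable group that has a faithful k-transitive action on a set of at least k points, but no faithful (k+1)-transitive action on any set of at least k+1 points. -/
theorem result :
    ∀ k : ℕ, 1 ≤ k →
      ∃ (G : Type) (_ : Group G), Infinite G ∧ Countable G ∧
        (∃ (X : Type) (_ : MulAction G X),
            Nonempty (Fin k ↪ X) ∧
            (∀ g : G, (∀ x : X, g • x = x) → g = 1) ∧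
            ∀ x y : Fin k ↪ X, ∃ g : G, ∀ i, g • x i = y i) ∧
        ∀ (X : Type) (_ : MulAction G X),
            Nonempty (Fin (k + 1) ↪ X) →
            (∀ g : G, (∀ x : X, g • x = x) → g = 1) →
            ¬ ∀ x y : Fin (k + 1) ↪ X, ∃ g : G, ∀ i, g • x i = y i := by
  exact Pool.Agent.TH714.TD.main

end Pool.Agent.S01227
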