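import Pool.Statements.S01298
import Pool.Agent.TH59.TD.Final

set_option autoImplicit false
open Pool Pool.MP_405426_al

namespace Pool.Agent.S01298

/-- The negation of the preceding statement: Suppose a countable group has, for every k, a faithful action on a set of at least k points that is transitive on k-tuples of distinct points. Then it has one faithful action on an infinite set that is k-transitive for every k. -/
theorem result :
    ¬ (∀ (G : Type) [Group G] [Countable G],
      (∀ k : ℕ, ∃ (X : Type) (_ : MulAction G X),
          FaithfulSMul G X ∧ Nonempty (Fin k ↪ X) ∧
            MulAction.IsMultiplyPretransitive G X k) →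
      ∃ (X : Type) (_ : MulAction G X),
          FaithfulSMul G X ∧ Infinite X ∧
            ∀ n : ℕ, MulAction.IsMultiplyPretransitive G X n) := by
  intro h
  obtain ⟨G, hG, hc, htd, hnot⟩ := Pool.Agent.TH59.TD.main
  exact hnot (h G htd)

end Pool.Agent.S01298
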