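import Pool.Statements.S01306
import Pool.Agent.TH595.PowerGap

set_option autoImplicit false
open Pool Pool.MP_417d56_al

namespace Pool.Agent.S01306

/-- The negation of the preceding statement: For every m ≥ 1 there is ε > 0 such that any finite group in which more than a (1 − ε) fraction of elements satisfy x^m = 1 must satisfy x^m = 1 for all its elements. -/
theorem result :
    ¬ (∀ m : ℕ, 0 < m → ∃ ε : ℝ, 0 < ε ∧
      ∀ (G : Type) [Group G] [Finite G],
        (1 - ε) * (Nat.card G : ℝ) < (Nat.card {x : G // x ^ m = 1} : ℝ) →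
          ∀ x : G, x ^ m = 1) := by
  intro h
  obtain ⟨ε, hε, hG⟩ := h 4 (by norm_num)
  obtain ⟨n, hn, x, hx⟩ := Pool.Agent.TH595.PowerGap.no_gap_four ε hε
  exact hx (hG (Pool.Agent.TH595.PowerGap.Elt n) hn x)

end Pool.Agent.S01306
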