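import Pool.Statements.S01370
import Pool.Agent.TH884.KF.Final

set_option autoImplicit false
open Pool Pool.MP_4913c2_al

namespace Pool.Agent.S01370

/-- The negation of the preceding statement: For every field K and every standard graded K[x1..xn]/I whose residue field has a linear free resolution (Koszul), some polynomial ring modulo degree-2 monomials has the same h-vector (same h with h(1)≠0 times (1−z)^(−d)). -/
theorem result :
    ¬ (∀ (K : Type) [Field K] (n : ℕ) (I : Ideal (MvPolynomial (Fin n) K)),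
    (∀ p ∈ I, ∀ j : ℕ, MvPolynomial.homogeneousComponent j p ∈ I) →
    I ≤ (RingHom.ker (MvPolynomial.constantCoeff : MvPolynomial (Fin n) K →+* K)) ^ 2 →
    (∃ (b : ℕ → ℕ)
        (M : ∀ i : ℕ, Matrix (Fin (b i)) (Fin (b (i + 1))) (MvPolynomial (Fin n) K ⧸ I)),
        b 0 = 1 ∧
        (∀ (i : ℕ) (r : Fin (b i)) (c : Fin (b (i + 1))),
          ∃ p : MvPolynomial (Fin n) K, p.IsHomogeneous 1 ∧ Ideal.Quotient.mk I p = M i r c) ∧
        (∀ u : Fin (b 0) → MvPolynomial (Fin n) K ⧸ I,
          (∃ w, Matrix.mulVec (M 0) w = u) ↔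
            ∀ r, u r ∈ Ideal.map (Ideal.Quotient.mk I)
              (RingHom.ker (MvPolynomial.constantCoeff : MvPolynomial (Fin n) K →+* K))) ∧
        (∀ (i : ℕ) (v : Fin (b (i + 1)) → MvPolynomial (Fin n) K ⧸ I),
          Matrix.mulVec (M i) v = 0 ↔ ∃ w, Matrix.mulVec (M (i + 1)) w = v)) →
    ∃ (m : ℕ) (E : Set (Fin m →₀ ℕ)), (∀ e ∈ E, ∑ i, e i = 2) ∧
      ∃ (h : Polynomial ℤ) (dR dA : ℕ), h.eval 1 ≠ 0 ∧
        (1 - PowerSeries.X) ^ dR * PowerSeries.mk (fun j : ℕ =>
          ((Module.finrank K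
            (Submodule.map (Ideal.Quotient.mkₐ K I).toLinearMap
              (MvPolynomial.homogeneousSubmodule (Fin n) K j)) : ℕ) : ℤ))
          = (h : PowerSeries ℤ) ∧
        (1 - PowerSeries.X) ^ dA * PowerSeries.mk (fun j : ℕ =>
          ((Module.finrank K
            (Submodule.map
              (Ideal.Quotient.mkₐ K
                (Ideal.span ((fun e => MvPolynomial.monomial e (1 : K)) '' E))).toLinearMap
              (MvPolynomial.homogeneousSubmodule (Fin m) K j)) : ℕ) : ℤ))
          = (h : PowerSeries ℤ)) := by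
  intro hall
  obtain ⟨m, E, hE, h, dR, dA, h1, hR, hA⟩ := hall ℚ 4 (TH884.KF.J ℚ) TH884.KF.J_hom
    TH884.KF.J_le TH884.KF.koszul
  have hh : h = TH884.KF.hpoly := TH884.KF.h_unique h1
    (by rw [TH884.KF.hpoly_eval]; norm_num) hR TH884.KF.hilbert
  exact TH884.KF.no_monomial_algebra hE hh hA

end Pool.Agent.S01370
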