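import Pool.Statements.S01388
import Pool.Agent.TH109.Cases

set_option autoImplicit false
open Pool Pool.MP_4b60bf_al

namespace Pool.Agent.S01388

/-- The negation of the preceding statement: For some n, some rational invertible A of infinite order and finite-index L' in Z^n with A·L' in Z^n, the HNN-extension of Z^n conjugating L' to A·L' via A has a regular language of words with the fellow-traveller property, i.e. is automatic. -/
theorem result :
    ¬ (∃ n : ℕ, ∃ A : Matrix.GeneralLinearGroup (Fin n) ℚ,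
      ∃ L' : Subgroup (Multiplicative (Fin n → ℤ)),
      ∃ B : Subgroup (Multiplicative (Fin n → ℤ)),
      ∃ φ : L' ≃* B,
        ¬ IsOfFinOrder A ∧
        L'.index ≠ 0 ∧
        (∀ x : L', ∀ i : Fin n,
          ((Multiplicative.toAdd ((φ x : Multiplicative (Fin n → ℤ))) i : ℤ) : ℚ) =
            (A : Matrix (Fin n) (Fin n) ℚ).mulVec
              (fun j => ((Multiplicative.toAdd ((x : Multiplicative (Fin n → ℤ))) j : ℤ) : ℚ)) i) ∧
        ∃ k : ℕ, ∃ gen : Fin k → HNNExtension (Multiplicative (Fin n → ℤ)) L' B φ,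
          ∃ σ : Type, ∃ _ : Fintype σ, ∃ M : DFA (Fin k) σ,
            (∀ g : HNNExtension (Multiplicative (Fin n → ℤ)) L' B φ,
              ∃ u ∈ M.accepts, (u.map gen).prod = g) ∧
            ∃ K : ℕ, ∀ u ∈ M.accepts, ∀ v ∈ M.accepts,
              ((v.map gen).prod = (u.map gen).prod ∨
                ∃ i : Fin k, (v.map gen).prod = (u.map gen).prod * gen i) →
              ∀ t : ℕ, ∃ w : List (Fin k), w.length ≤ K ∧
                ((u.take t).map gen).prod * (w.map gen).prod = ((v.take t).map gen).prod) := by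
  rintro ⟨n, A, L', B, φ, hA, hL, hφ, hft⟩
  obtain ⟨U⟩ := Pool.Agent.TH111.J629.ua_of_ft hft
  set Φ : Matrix.GeneralLinearGroup (Fin n) ℚ ≃* ((Fin n → ℚ) ≃ₗ[ℚ] (Fin n → ℚ)) :=
    Matrix.GeneralLinearGroup.toLin.trans
      (LinearMap.GeneralLinearGroup.generalLinearEquiv ℚ (Fin n → ℚ)) with hΦ
  refine Pool.Agent.TH109.main U hL (Φ A) ?_ ?_
  · intro m hm h
    apply hA
    rw [isOfFinOrder_iff_pow_eq_one]
    refine ⟨m, hm, ?_⟩
    rw [← map_pow] at h
    exact Φ.injective (h.trans (map_one Φ).symm)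
  · intro x
    funext i
    exact hφ x i

end Pool.Agent.S01388
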