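import Pool.Statements.S01445
import Pool.Agent.TH68.FR.Fin
-- import your own Pool.Agent.* helpers here

set_option autoImplicit false
open Pool Pool.MP_50f8f6_al

namespace Pool.Agent.S01445

/-- There is a prime p and a group G in which every element has p-power order that splits as a Frobenius group F ⋊ H: F, H nontrivial, H meets each other conjugate trivially, and F minus 1 is the complement of the union of H's conjugates. -/
theorem result :
    ∃ (p : ℕ), p.Prime ∧ ∃ (G : Type) (_ : Group G) (F H : Subgroup G),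
      IsPGroup p G ∧ F.Normal ∧ F ⊓ H = ⊥ ∧ F ⊔ H = ⊤ ∧ F ≠ ⊥ ∧ H ≠ ⊥ ∧
      (∀ g : G, g ∉ H → ∀ x : G, x ∈ H → g * x * g⁻¹ ∈ H → x = 1) ∧
      (∀ x : G, (x ∈ F ∧ x ≠ 1) ↔ ∀ g : G, g⁻¹ * x * g ∉ H) := by
  exact Pool.Agent.TH68.FR.frob

end Pool.Agent.S01445
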