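import Pool.Statements.S01554
-- import your own Pool.Agent.* helpers here

set_option autoImplicit false
open Pool Pool.MP_58cc81_al

namespace Pool.Agent.S01554

/-- The discrete quotient: finitely supported sequences over the field with two elements. -/
def E0 : Type := ℕ →₀ ZMod 2

noncomputable instance : AddCommGroup E0 := inferInstanceAs (AddCommGroup (ℕ →₀ ZMod 2))

instance : TopologicalSpace E0 := ⊥

instance : DiscreteTopology E0 := ⟨rfl⟩

/-- The `i`-th coordinate. -/
def co (x : E0) (i : ℕ) : ZMod 2 := (show (ℕ →₀ ZMod 2) from x) i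

theorem co_add (x y : E0) (i : ℕ) : co (x + y) i = co x i + co y i := rfl

theorem co_zero (i : ℕ) : co (0 : E0) i = 0 := rfl

theorem co_neg (x : E0) (i : ℕ) : co (-x) i = -co x i := rfl

theorem co_ext {x y : E0} (h : ∀ i, co x i = co y i) : x = y := Finsupp.ext h

/-- The compact kernel. -/
abbrev C0 : Type := ℕ × ℕ → ZMod 2

/-- The bilinear cocycle. -/
def be (x y : E0) : C0 := fun p => co x p.1 * co y p.2

/-- The class two group. -/
structure TT : Type where
  x : E0
  c : C0

theorem TT.ext' {a b : TT} (h1 : a.x = b.x) (h2 : a.c = b.c) : a = b := by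
  cases a; cases b; simp_all

noncomputable instance : Mul TT := ⟨fun a b => ⟨a.x + b.x, a.c + b.c + be a.x b.x⟩⟩
noncomputable instance : One TT := ⟨⟨0, 0⟩⟩
noncomputable instance : Inv TT := ⟨fun a => ⟨-a.x, -a.c + be a.x a.x⟩⟩

theorem mul_x (a b : TT) : (a * b).x = a.x + b.x := rfl
theorem mul_c (a b : TT) : (a * b).c = a.c + b.c + be a.x b.x := rfl
theorem one_x : (1 : TT).x = 0 := rfl
theorem one_c : (1 : TT).c = 0 := rfl
theorem inv_x (a : TT) : (a⁻¹).x = -a.x := rfl
theorem inv_c (a : TT) : (a⁻¹).c = -a.c + be a.x a.x := rfl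

noncomputable instance : Group TT :=
  Group.ofLeftAxioms
    (by
      intro a b c
      apply TT.ext'
      · simp only [mul_x]; abel
      · simp only [mul_x, mul_c]
        funext p
        simp only [Pi.add_apply, be, co_add]
        ring)
    (by
      intro a
      apply TT.ext'
      · simp only [mul_x, one_x]; abel
      · simp only [mul_c, one_x, one_c]
        funext p
        simp only [Pi.add_apply, Pi.zero_apply, be, co_zero]
        ring)
    (by
      intro a
      apply TT.ext'
      · simp only [mul_x, inv_x, one_x]; abel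
      · simp only [mul_c, inv_x, inv_c, one_c]
        funext p
        simp only [Pi.add_apply, Pi.neg_apply, Pi.zero_apply, be, co_neg]
        ring)

/-- The underlying bijection with the product. -/
def eqv : TT ≃ E0 × C0 where
  toFun a := (a.x, a.c)
  invFun p := ⟨p.1, p.2⟩
  left_inv _ := rfl
  right_inv _ := rfl

instance : TopologicalSpace TT := TopologicalSpace.induced eqv inferInstance

/-- The homeomorphism with the product. -/
def hom : TT ≃ₜ E0 × C0 := eqv.toHomeomorphOfIsInducing ⟨rfl⟩

instance : T2Space TT := hom.symm.t2Space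

instance : LocallyCompactSpace TT := hom.isClosedEmbedding.locallyCompactSpace

theorem cont_x : Continuous (fun a : TT => a.x) := continuous_fst.comp hom.continuous
theorem cont_c : Continuous (fun a : TT => a.c) := continuous_snd.comp hom.continuous

theorem cont_mk {X : Type} [TopologicalSpace X] {f : X → E0} {g : X → C0}
    (hf : Continuous f) (hg : Continuous g) : Continuous (fun t => (⟨f t, g t⟩ : TT)) :=
  hom.symm.continuous.comp (hf.prodMk hg)

instance : IsTopologicalGroup TT where
  continuous_mul := by
    have h1 : Continuous (fun p : TT × TT => (p.1.x, p.2.x)) :=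
      (cont_x.comp continuous_fst).prodMk (cont_x.comp continuous_snd)
    have h2 : Continuous (fun q : E0 × E0 => q.1 + q.2) := continuous_of_discreteTopology
    have h3 : Continuous (fun q : E0 × E0 => be q.1 q.2) := continuous_of_discreteTopology
    refine cont_mk (X := TT × TT) (f := fun p => p.1.x + p.2.x)
      (g := fun p => p.1.c + p.2.c + be p.1.x p.2.x) (h2.comp h1) ?_
    exact ((cont_c.comp continuous_fst).add (cont_c.comp continuous_snd)).add (h3.comp h1)
  continuous_inv := by
    have h2 : Continuous (fun q : E0 => -q) := continuous_of_discreteTopology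
    have h3 : Continuous (fun q : E0 => be q q) := continuous_of_discreteTopology
    exact cont_mk (X := TT) (f := fun p => -p.x) (g := fun p => -p.c + be p.x p.x)
      (h2.comp cont_x) (cont_c.neg.add (h3.comp cont_x))

/-- The group of the counterexample. -/
abbrev GG : Type := Circle × TT

/-- Projection to the discrete part. -/
def pr (g : GG) : E0 := g.2.x

theorem pr_cont : Continuous pr := cont_x.comp continuous_snd

theorem pr_mul (g h : GG) : pr (g * h) = pr g + pr h := rfl
theorem pr_inv (g : GG) : pr (g⁻¹) = -pr g := rfl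
theorem pr_one : pr (1 : GG) = 0 := rfl

theorem compact_pre {F : Set E0} (hF : F.Finite) : IsCompact (pr ⁻¹' F) := by
  have h1 : IsCompact ((Set.univ : Set Circle) ×ˢ (F ×ˢ (Set.univ : Set C0))) :=
    isCompact_univ.prod (hF.isCompact.prod isCompact_univ)
  have h2 : Continuous (fun q : Circle × (E0 × C0) => ((q.1, hom.symm q.2) : GG)) :=
    continuous_fst.prodMk (hom.symm.continuous.comp continuous_snd)
  have h3 := h1.image h2
  have h4 : (fun q : Circle × (E0 × C0) => ((q.1, hom.symm q.2) : GG)) ''
      ((Set.univ : Set Circle) ×ˢ (F ×ˢ (Set.univ : Set C0))) = pr ⁻¹' F := by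
    ext g
    constructor
    · rintro ⟨q, hq, rfl⟩
      exact hq.2.1
    · intro hg
      exact ⟨(g.1, (g.2.x, g.2.c)), ⟨trivial, hg, trivial⟩, rfl⟩
  rw [h4] at h3
  exact h3

theorem compact_closure_of_sub {F : Set E0} (hF : F.Finite) {S : Set GG} (hS : S ⊆ pr ⁻¹' F) :
    IsCompact (closure S) := by
  have h1 := compact_pre hF
  exact h1.of_isClosed_subset isClosed_closure (closure_minimal hS h1.isClosed)

theorem central_of_pr {g x : GG} (hx : pr x = 0) : g * x * g⁻¹ = x := by
  rw [mul_inv_eq_iff_eq_mul]
  apply Prod.ext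
  · exact mul_comm _ _
  · have hx' : x.2.x = 0 := hx
    apply TT.ext'
    · show g.2.x + x.2.x = x.2.x + g.2.x
      abel
    · show g.2.c + x.2.c + be g.2.x x.2.x = x.2.c + g.2.c + be x.2.x g.2.x
      rw [hx']
      funext p
      simp only [Pi.add_apply, be, co_zero]
      ring

theorem be_comm {x y : E0} (h : be x y = be y x) (hx : x ≠ 0) : y = 0 ∨ y = x := by
  have hex : ∃ i, co x i ≠ 0 := by
    by_contra hcon
    push Not at hcon
    exact hx (co_ext fun i => by rw [hcon i, co_zero])
  obtain ⟨i, hi⟩ := hex
  have two : ∀ t : ZMod 2, t = 0 ∨ t = 1 := by decide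
  have hi1 : co x i = 1 := (two _).resolve_left hi
  have key : ∀ j, co y j = co y i * co x j := by
    intro j
    have := congrFun h (i, j)
    simp only [be] at this
    rw [hi1, one_mul] at this
    exact this
  rcases two (co y i) with h0 | h1
  · left
    exact co_ext fun j => by rw [key j, h0, zero_mul, co_zero]
  · right
    exact co_ext fun j => by rw [key j, h1, one_mul]

theorem pr_comm {a b : GG} (h : a * b = b * a) : be (pr a) (pr b) = be (pr b) (pr a) := by
  have h2 : (a * b).2.c = (b * a).2.c := by rw [h]
  have h3 : a.2.c + b.2.c + be (pr a) (pr b) = b.2.c + a.2.c + be (pr b) (pr a) := h2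
  rw [add_comm b.2.c a.2.c] at h3
  exact add_left_cancel h3

/-- Elements of the discrete part supported below `N`. -/
def AN (N : ℕ) : Set E0 := {x | ∀ i, N ≤ i → co x i = 0}

theorem AN_finite (N : ℕ) : (AN N).Finite := by
  have : Function.Injective (fun (x : AN N) (i : Fin N) => co x.1 i.1) := by
    intro x y hxy
    apply Subtype.ext
    apply co_ext
    intro i
    by_cases hi : i < N
    · exact congrFun hxy ⟨i, hi⟩
    · rw [x.2 i (not_lt.mp hi), y.2 i (not_lt.mp hi)]
  have hf : Finite (AN N) := Finite.of_injective _ this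
  exact Set.toFinite _

/-- The subgroup of elements whose discrete part is supported below `N`. -/
def HN (N : ℕ) : Subgroup GG where
  carrier := pr ⁻¹' (AN N)
  mul_mem' := by
    intro a b ha hb i hi
    rw [pr_mul, co_add, ha i hi, hb i hi, add_zero]
  one_mem' := by
    intro i _
    rw [pr_one, co_zero]
  inv_mem' := by
    intro a ha i hi
    rw [pr_inv, co_neg, ha i hi, neg_zero]

/-- A bound for the support. -/
def bd (x : E0) : ℕ := (show (ℕ →₀ ZMod 2) from x).support.sup id + 1

theorem bd_spec (x : E0) (i : ℕ) (hi : bd x ≤ i) : co x i = 0 := by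
  by_contra hne
  have hmem : i ∈ (show (ℕ →₀ ZMod 2) from x).support := Finsupp.mem_support_iff.mpr hne
  have h1 : id i ≤ (show (ℕ →₀ ZMod 2) from x).support.sup id := Finset.le_sup hmem
  have h2 : i ≤ (show (ℕ →₀ ZMod 2) from x).support.sup id := h1
  unfold bd at hi
  omega

theorem infinite_E0 : Infinite E0 := by
  apply Infinite.of_injective (fun n : ℕ => (show E0 from Finsupp.single n (1 : ZMod 2)))
  intro m n h
  have h' : Finsupp.single m (1 : ZMod 2) = Finsupp.single n (1 : ZMod 2) := h
  exact Finsupp.single_left_injective one_ne_zero h'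

theorem pr_surj : Function.Surjective pr := fun x => ⟨(1, ⟨x, 0⟩), rfl⟩

theorem sin_GG : ∀ U ∈ nhds (1 : GG), ∃ V ∈ nhds (1 : GG), V ⊆ U ∧
    ∀ g x : GG, x ∈ V → g * x * g⁻¹ ∈ V := by
  intro U hU
  refine ⟨U ∩ pr ⁻¹' {0}, Filter.inter_mem hU ?_, Set.inter_subset_left, ?_⟩
  · exact ((isOpen_discrete ({0} : Set E0)).preimage pr_cont).mem_nhds pr_one
  · intro g x hx
    rw [central_of_pr hx.2]
    exact hx

theorem abel_GG : ∀ H : Subgroup GG, (∀ a ∈ H, ∀ b ∈ H, a * b = b * a) →
    IsCompact (closure (H : Set GG)) := by
  intro H hH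
  by_cases hex : ∃ a ∈ H, pr a ≠ 0
  · obtain ⟨a, ha, ha0⟩ := hex
    apply compact_closure_of_sub (F := {0, pr a}) (Set.toFinite _)
    intro b hb
    exact be_comm (pr_comm (hH a ha b hb)) ha0
  · push Not at hex
    apply compact_closure_of_sub (F := {0}) (Set.toFinite _)
    intro b hb
    exact hex b hb

theorem tlf_GG : ∀ K : Set GG, IsCompact (closure K) →
    IsCompact (closure ((Subgroup.closure K : Subgroup GG) : Set GG)) := by
  intro K hK
  have h1 : (pr '' closure K).Finite := (hK.image pr_cont).finite_of_discrete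
  obtain ⟨N, hN⟩ : ∃ N, ∀ x ∈ pr '' closure K, bd x ≤ N := by
    have h2 := (h1.image bd).bddAbove
    obtain ⟨N, hN⟩ := h2
    exact ⟨N, fun x hx => hN ⟨x, hx, rfl⟩⟩
  have h3 : Subgroup.closure K ≤ HN N := by
    rw [Subgroup.closure_le]
    intro g hg i hi
    exact bd_spec (pr g) i (le_trans (hN _ ⟨g, subset_closure hg, rfl⟩) hi)
  exact compact_closure_of_sub (AN_finite N) h3

/-- The negation of the preceding statement: A Hausdorff locally compact group with small invariant neighbourhoods, whose abelian subgroups have compact closure and whose relatively compact subsets generate relatively compact subgroups, is totally disconnected or compact. -/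
theorem result :
    ¬ (∀ (G : Type) [Group G] [TopologicalSpace G] [IsTopologicalGroup G]
      [LocallyCompactSpace G] [T2Space G],
      (∀ U ∈ nhds (1 : G), ∃ V ∈ nhds (1 : G), V ⊆ U ∧
          ∀ g x : G, x ∈ V → g * x * g⁻¹ ∈ V) →
      (∀ H : Subgroup G, (∀ a ∈ H, ∀ b ∈ H, a * b = b * a) →
          IsCompact (closure (H : Set G))) →
      (∀ K : Set G, IsCompact (closure K) →
          IsCompact (closure ((Subgroup.closure K : Subgroup G) : Set G))) →
      TotallyDisconnectedSpace G ∨ CompactSpace G) := by
  intro hall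
  rcases hall GG sin_GG abel_GG tlf_GG with h | h
  · have hc : Continuous (fun z : Circle => ((z, 1) : GG)) :=
      continuous_id.prodMk continuous_const
    have h1 : IsPreconnected ((fun z : Circle => ((z, 1) : GG)) '' Set.univ) :=
      isPreconnected_univ.image _ hc.continuousOn
    have h2 := h1.subsingleton
    have h3 : ((-1 : Circle), (1 : TT)) = ((1 : Circle), (1 : TT)) :=
      h2 ⟨-1, trivial, rfl⟩ ⟨1, trivial, rfl⟩
    have h4 : (-1 : Circle) = 1 := congrArg Prod.fst h3
    have h5 : ((-1 : Circle) : ℂ) = ((1 : Circle) : ℂ) := by rw [h4]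
    rw [Circle.coe_neg, Circle.coe_one] at h5
    have h6 := congrArg Complex.re h5
    norm_num at h6
  · have h1 : IsCompact (Set.univ : Set E0) := by
      have := isCompact_univ.image pr_cont
      rwa [Set.image_univ, pr_surj.range_eq] at this
    have h2 : (Set.univ : Set E0).Finite := h1.finite_of_discrete
    have h3 := infinite_E0
    exact Set.infinite_univ h2

end Pool.Agent.S01554
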