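import Pool.Statements.S01563
-- import your own Pool.Agent.* helpers here
import Pool.Agent.TH109.M.Fin

set_option autoImplicit false
open Pool Pool.MP_59c382_al

namespace Pool.Agent.S01563

/-- Every group of derived length at most 2 that admits an automatic structure has a finite-index abelian subgroup. Automatic means: a regular language over finite generators maps onto the group with the fellow-traveller property. -/
theorem result :
  ∀ (G : Type) [Group G],
    derivedSeries G 2 = ⊥ →
    (∃ (n : ℕ) (s : Fin n → G) (σ : Type) (_ : Fintype σ) (M : DFA (Fin n) σ) (k : ℕ),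
      (∀ g : G, ∃ w ∈ M.accepts, (w.map s).prod = g) ∧
      ∀ u ∈ M.accepts, ∀ v ∈ M.accepts, ∀ a : G, (a = 1 ∨ a ∈ Set.range s) →
        (u.map s).prod * a = (v.map s).prod →
        ∀ t : ℕ, ∃ l : List G, l.length ≤ k ∧
          (∀ x ∈ l, x ∈ Set.range s ∨ x⁻¹ ∈ Set.range s) ∧
          ((u.take t).map s).prod * l.prod = ((v.take t).map s).prod) →
    ∃ H : Subgroup G, H.FiniteIndex ∧ ∀ x ∈ H, ∀ y ∈ H, x * y = y * x := by
  intro G _ h hA
  obtain ⟨U⟩ := Pool.Agent.TH109.M.ua_of_aut hA
  exact Pool.Agent.TH109.M.main h U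

end Pool.Agent.S01563
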