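import Pool.Statements.S01591
import Pool.Agent.TH18.NN.Final

set_option autoImplicit false
open Pool Pool.MP_5c61b4_al

namespace Pool.Agent.S01591

/-- For n ≥ 2, if π₁: Γ₁→Q and π₂: Γ₂→Q are surjective, ker π₁ is of type F_n, Γ₁ and Γ₂ are F_{n+1}, and Q is F_{n+2}, then the fibre product of Γ₁ and Γ₂ over Q is of type F_{n+1}. -/
theorem result :
  ∀ (IsF : ℕ → (G : Type) → Group G → Prop),
    (∀ (m : ℕ) (G : Type) (inst : Group G), IsF m G inst ↔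
      ((∃ (r : ℕ) (f : FreeGroup (Fin r) →* G) (S : Finset (FreeGroup (Fin r))),
          Function.Surjective f ∧ f.ker = Subgroup.normalClosure (↑S : Set (FreeGroup (Fin r)))) ∧
       (∃ (k : ℕ → ℕ) (ε : MonoidAlgebra ℤ G →+* ℤ)
          (d : ∀ i : ℕ, (Fin (k (i+1)) → MonoidAlgebra ℤ G) →ₗ[MonoidAlgebra ℤ G]
                (Fin (k i) → MonoidAlgebra ℤ G)),
          (∀ g : G, ε (MonoidAlgebra.of ℤ G g) = 1) ∧
          (∃ x : Fin (k 0) → MonoidAlgebra ℤ G, ∑ j, ε (x j) = 1) ∧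
          (0 < m → ∀ x : Fin (k 0) → MonoidAlgebra ℤ G,
              (∑ j, ε (x j) = 0 ↔ x ∈ LinearMap.range (d 0))) ∧
          (∀ j : ℕ, j + 2 ≤ m → LinearMap.range (d (j+1)) = LinearMap.ker (d j))))) →
    ∀ (n : ℕ), 2 ≤ n →
    ∀ (Γ₁ Γ₂ Q : Type) [Group Γ₁] [Group Γ₂] [Group Q] (π₁ : Γ₁ →* Q) (π₂ : Γ₂ →* Q),
      Function.Surjective π₁ → Function.Surjective π₂ →
      IsF n (↥π₁.ker) inferInstance →
      IsF (n+1) Γ₁ inferInstance →
      IsF (n+1) Γ₂ inferInstance →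
      IsF (n+2) Q inferInstance →
      IsF (n+1)
        (↥(MonoidHom.eqLocus (π₁.comp (MonoidHom.fst Γ₁ Γ₂)) (π₂.comp (MonoidHom.snd Γ₁ Γ₂))))
        inferInstance := by
  intro IsF hIsF n hn Γ₁ Γ₂ Q _ _ _ π₁ π₂ hπ₁ hπ₂ hN h1 h2 hQ
  obtain ⟨m, rfl⟩ : ∃ m, n = m + 1 := ⟨n - 1, by omega⟩
  -- conversions
  have hto : ∀ (l : ℕ) (G : Type) [inst : Group G], IsF l G inst →
      Pool.Agent.TH18.NN.FPres G ∧ Nonempty (Pool.Agent.TH18.NN.NRes G l) := by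
    intro l G inst h
    obtain ⟨hp, k, ε, d, he, hone, hex0, hex⟩ := (hIsF l G inst).1 h
    refine ⟨hp, ?_⟩
    have hε : ∀ x, ε x = Pool.Agent.TH18.augR G x := by
      intro x
      induction x using MonoidAlgebra.induction_on with
      | of g => rw [he, Pool.Agent.TH18.augR_of]
      | add a b ha hb => rw [map_add, map_add, ha, hb]
      | smul r a ha => rw [map_zsmul, map_zsmul, ha]
    have htot : ∀ x : Fin (k 0) → MonoidAlgebra ℤ G, ∑ j, ε (x j) = Pool.Agent.TH18.NN.tot x :=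
      fun x => Finset.sum_congr rfl fun i _ => hε _
    refine ⟨⟨k, d, ?_, ?_, ?_⟩⟩
    · obtain ⟨x, hx⟩ := hone
      exact ⟨x, by rw [← htot]; exact hx⟩
    · intro hl x
      rw [← htot]
      exact hex0 hl x
    · intro j hj x
      have h3 := hex j hj
      constructor
      · intro hx
        have : x ∈ LinearMap.ker (d j) := hx
        rw [← h3] at this
        exact this
      · intro hx
        have : x ∈ LinearMap.range (d (j + 1)) := hx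
        rw [h3] at this
        exact this
  obtain ⟨hpN, ⟨F⟩⟩ := hto _ _ hN
  obtain ⟨hp1, ⟨F1⟩⟩ := hto _ _ h1
  obtain ⟨hp2, ⟨F2⟩⟩ := hto _ _ h2
  obtain ⟨hpQ, ⟨FQ⟩⟩ := hto _ _ hQ
  have hmain := Pool.Agent.TH18.NN.main π₁ π₂ hπ₁ hπ₂ F F1.fpm F2.fpm FQ.fpm hp2 hpQ
  obtain ⟨FP⟩ := Pool.Agent.TH18.NN.fpm_res hmain
  have hpP := Pool.Agent.TH18.NN.FPres.ext (Pool.Agent.TH18.NN.iN π₁ π₂)
    (Pool.Agent.TH18.NN.iN_inj π₁ π₂) (Pool.Agent.TH18.NN.p2 π₁ π₂)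
    (Pool.Agent.TH18.NN.p2_surj π₁ π₂ hπ₁) (Pool.Agent.TH18.NN.p2_ker π₁ π₂) hpN hp2
  refine (hIsF _ _ _).2 ⟨hpP, FP.k, Pool.Agent.TH18.augR _, FP.d, Pool.Agent.TH18.augR_of _,
    FP.one, FP.ex0, ?_⟩
  intro j hj
  ext x
  exact (FP.ex j hj x).symm

end Pool.Agent.S01591
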