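import Pool.Statements.S01844
import Pool.Agent.TH95.DI.Final
import Pool.Agent.TH95.DI.Both
import Pool.Agent.TH95.DI.JobH1
import Pool.Agent.TH95.DI.JobH2
import Pool.Agent.TH95.DI.JobJ

set_option autoImplicit false
open Pool Pool.MP_6f2db1_al

namespace Pool.Agent.S01844

/-- The negation of the preceding statement: For every finite presentation there are a>1 and C≥1 such that, if all trivial words of length at most Cn are products of relator conjugates with conjugators of length at most m, then every trivial word of length at most n has area at most C·a^m+Cn+C. -/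
theorem result :
    ¬ (∀ (k : ℕ) (R : Finset (FreeGroup (Fin k))),
      ∃ a : ℝ, 1 < a ∧ ∃ C : ℕ, 1 ≤ C ∧
        ∀ n m : ℕ,
          (∀ w : List (Fin k × Bool), w.length ≤ C * n →
            FreeGroup.mk w ∈ Subgroup.normalClosure (R : Set (FreeGroup (Fin k))) →
            ∃ l : List (List (Fin k × Bool) × FreeGroup (Fin k)),
              (∀ p ∈ l, (p.2 ∈ R ∨ p.2⁻¹ ∈ R) ∧ p.1.length ≤ m) ∧
              FreeGroup.mk w =
                (l.map (fun p => FreeGroup.mk p.1 * p.2 * (FreeGroup.mk p.1)⁻¹)).prod) →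
          ∀ w : List (Fin k × Bool), w.length ≤ n →
            FreeGroup.mk w ∈ Subgroup.normalClosure (R : Set (FreeGroup (Fin k))) →
            ∃ l : List (List (Fin k × Bool) × FreeGroup (Fin k)),
              (∀ p ∈ l, p.2 ∈ R ∨ p.2⁻¹ ∈ R) ∧
              (l.length : ℝ) ≤ (C : ℝ) * a ^ m + (C : ℝ) * (n : ℝ) + (C : ℝ) ∧
              FreeGroup.mk w =
                (l.map (fun p => FreeGroup.mk p.1 * p.2 * (FreeGroup.mk p.1)⁻¹)).prod) := by
  obtain ⟨D, hb, hm⟩ := Pool.Agent.TH95.DI.exists_both
  exact Pool.Agent.TH95.DI.main_of hb Pool.Agent.TH95.DI.fill1 (Pool.Agent.TH95.DI.fill2 hb hm)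
    Pool.Agent.TH95.DI.RR_finite Pool.Agent.TH95.DI.low_area

end Pool.Agent.S01844
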