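import Pool.Statements.S01972
import Pool.Agent.TH43.AB.Fin
import Pool.Agent.TH830.J571
import Pool.Agent.TH830.J572
import Pool.Agent.TH111.J573
import Pool.Agent.TH73.J574
import Pool.Agent.TH111.J575
-- import your own Pool.Agent.* helpers here

set_option autoImplicit false
open CategoryTheory
open Pool Pool.MP_77ea4f_al

namespace Pool.Agent.S01972

/-- The negation of the preceding statement: Every Noetherian local ring with Ext^i(k,R)=0 for large i (Gorenstein) and a uniform Ext-vanishing bound on finitely generated modules (UAC) has a uniform bound on the lengths of gaps in nonvanishing Ext between finitely generated modules. -/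
theorem result :
    ¬ (∀ (R : Type) [CommRing R] [IsLocalRing R] [IsNoetherianRing R],
    (∃ n : ℕ, ∀ i : ℕ, n ≤ i →
        Subsingleton (Abelian.Ext (ModuleCat.of R (IsLocalRing.ResidueField R))
          (ModuleCat.of R R) i : Type)) →
    (∃ b : ℕ, ∀ M N : ModuleCat.{0} R, Module.Finite R M → Module.Finite R N →
        (∃ n : ℕ, ∀ i : ℕ, n ≤ i → Subsingleton (Abelian.Ext M N i : Type)) →
        ∀ i : ℕ, b ≤ i → Subsingleton (Abelian.Ext M N i : Type)) →
    ∃ B : ℕ, ∀ M N : ModuleCat.{0} R, Module.Finite R M → Module.Finite R N →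
      ∀ n g : ℕ, Nontrivial (Abelian.Ext M N n : Type) →
        Nontrivial (Abelian.Ext M N (n + g + 1) : Type) →
        (∀ i : ℕ, n < i → i ≤ n + g → Subsingleton (Abelian.Ext M N i : Type)) →
        g ≤ B) :=
  Pool.Agent.TH43.AB.main
    (fun X => Pool.Agent.TH830.J571.growth X)
    (fun X Y h hN => Pool.Agent.TH830.J572.ineq X Y h hN)
    (fun X F _ hF B hB => Pool.Agent.TH73.J574.pigeon X F hF B hB)
    (fun F _ _ P hP => Pool.Agent.TH111.J573.rational_kernel F P hP)
    (fun h2 c hc hc1 hc2 L hL h1 h3 => Pool.Agent.TH111.J575.gap h2 c hc hc1 hc2 L hL h1 h3)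

end Pool.Agent.S01972
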