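import Pool.Statements.S01981
import Pool.Agent.TH77.Final

set_option autoImplicit false
open Pool Pool.MP_7895ba_al

namespace Pool.Agent.S01981

/-- For every closed subgroup G of a product of finite-dimensional real Lie groups, every nonempty left-Cauchy filter on the quotient of G by its identity component converges, i.e. G/G₀ is complete. -/
theorem result :
    ∀ (ι : Type) (E : ι → Type) (H : ι → Type)
      [∀ i, NormedAddCommGroup (E i)] [∀ i, NormedSpace ℝ (E i)]
      [∀ i, FiniteDimensional ℝ (E i)]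
      [∀ i, TopologicalSpace (H i)] [∀ i, ChartedSpace (E i) (H i)] [∀ i, Group (H i)]
      [∀ i, LieGroup (modelWithCornersSelf ℝ (E i)) ((⊤ : ℕ∞) : WithTop ℕ∞) (H i)]
      [∀ i, IsTopologicalGroup (H i)]
      (G : Subgroup (∀ i, H i)) [(Subgroup.connectedComponentOfOne G).Normal],
      IsClosed (G : Set (∀ i, H i)) →
      ∀ F : Filter (G ⧸ Subgroup.connectedComponentOfOne G),
        F.NeBot →
        (∀ U ∈ nhds (1 : G ⧸ Subgroup.connectedComponentOfOne G),
          ∃ A ∈ F, ∀ x ∈ A, ∀ y ∈ A, x⁻¹ * y ∈ U) →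
        ∃ q : G ⧸ Subgroup.connectedComponentOfOne G, F ≤ nhds q := by
  intro ι E H _ _ _ _ _ _ _ _ G _ hG F hF hcau
  have hT2 : ∀ i, T2Space (H i) := fun i => by
    have h1 : T1Space (H i) := ChartedSpace.t1Space (E i) (H i)
    infer_instance
  have hL : ∀ i, Nonempty (Pool.Agent.TH77.LG (H i) (E i)) := fun i => by
    have hc : CompleteSpace (E i) := FiniteDimensional.complete ℝ (E i)
    exact Pool.Agent.TH77.exists_LG
  exact Pool.Agent.TH77.PL.complete_quot (fun i => (hL i).some) G hG F hF hcau

end Pool.Agent.S01981
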