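import Pool.Statements.S02012
import Pool.Agent.TH636.Branch

set_option autoImplicit false
open Pool Pool.MP_79f901_al

namespace Pool.Agent.S02012

open Pool.Agent.TH636.Branch

/-- the vertices of the binary tree, as in the statement -/
abbrev V : Type := {l : List ℕ // ∀ i (h : i < l.length), l.get ⟨i, h⟩ < 2}

lemma lt_two (v : V) (x : ℕ) (hx : x ∈ v.1) : x < 2 := by
  obtain ⟨i, rfl⟩ := List.mem_iff_get.1 hx
  exact v.2 i.1 i.2

/-- vertices as Boolean words -/
def e : V ≃ List Bool where
  toFun v := v.1.map (fun x => x == 1)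
  invFun l := ⟨l.map (fun b => cond b 1 0), by
    intro i h
    rw [List.get_eq_getElem, List.getElem_map]
    cases l[i]'(by simpa using h) <;> simp⟩
  left_inv v := by
    apply Subtype.ext
    show (v.1.map (fun x => x == 1)).map (fun b => cond b 1 0) = v.1
    rw [List.map_map]
    conv_rhs => rw [← List.map_id v.1]
    apply List.map_congr_left
    intro x hx
    have := lt_two v x hx
    interval_cases x <;> rfl
  right_inv l := by
    show (l.map (fun b => cond b 1 0)).map (fun x => x == 1) = l
    rw [List.map_map]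
    conv_rhs => rw [← List.map_id l]
    apply List.map_congr_left
    intro x _
    cases x <;> rfl

lemma e_length (v : V) : (e v).length = v.1.length := List.length_map _

lemma e_prefix (v w : V) : v.1 <+: w.1 ↔ e v <+: e w := by
  constructor
  · intro h
    exact h.map _
  · intro h
    have h2 : (e.symm (e v)).1 <+: (e.symm (e w)).1 := h.map _
    rwa [e.symm_apply_apply, e.symm_apply_apply] at h2

/-- the action on the vertices -/
def A : Port →* Equiv.Perm V where
  toFun p :=
    { toFun := fun v => e.symm (act p.f (e v))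
      invFun := fun v => e.symm (act (p⁻¹).f (e v))
      left_inv := fun v => by
        show e.symm (act (p⁻¹).f (e (e.symm (act p.f (e v))))) = v
        rw [e.apply_symm_apply, ← act_mul, inv_mul_cancel, act_one, e.symm_apply_apply]
      right_inv := fun v => by
        show e.symm (act p.f (e (e.symm (act (p⁻¹).f (e v))))) = v
        rw [e.apply_symm_apply, ← act_mul, mul_inv_cancel, act_one, e.symm_apply_apply] }
  map_one' := by
    ext1 v
    show e.symm (act (1 : Port).f (e v)) = v
    rw [act_one, e.symm_apply_apply]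
  map_mul' p q := by
    ext1 v
    show e.symm (act (p * q).f (e v)) = e.symm (act p.f (e (e.symm (act q.f (e v)))))
    rw [e.apply_symm_apply, act_mul]

lemma A_apply (p : Port) (v : V) : A p v = e.symm (act p.f (e v)) := rfl

lemma e_A (p : Port) (v : V) : e (A p v) = act p.f (e v) := by
  rw [A_apply, e.apply_symm_apply]

lemma A_injective : Function.Injective A := by
  intro p q h
  apply act_injective
  intro l
  have h1 := congrArg (fun σ => e (σ (e.symm l))) h
  simp only [e_A, e.apply_symm_apply] at h1
  exact h1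

lemma A_prefix (p : Port) (v w : V) : v.1 <+: w.1 ↔ (A p v).1 <+: (A p w).1 := by
  rw [e_prefix, e_prefix, e_A, e_A]
  exact prefix_iff p _ _

/-- the embedding of `Q` -/
def AQ : Q →* Equiv.Perm V := A.comp Q.subtype

lemma AQ_injective : Function.Injective AQ := A_injective.comp Subtype.val_injective

lemma AQ_apply (p : Q) : AQ p = A p.1 := rfl

/-- the branch group -/
def L : Subgroup (Equiv.Perm V) := AQ.range

/-- its isomorphism with `Q` -/
noncomputable def iso : Q ≃* L := AQ.ofInjective AQ_injective

lemma iso_coe (p : Q) : ((iso p : L) : Equiv.Perm V) = A p.1 := rfl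

/-- the automorphism -/
noncomputable def phi : L ≃* L := iso.symm.trans (phiQ.trans iso)

lemma phi_iso (p : Q) : phi (iso p) = iso (phiQ p) := by
  show iso (phiQ (iso.symm (iso p))) = _
  rw [MulEquiv.symm_apply_apply]

/-- the generating set of the level rigid stabilizer -/
def Rist (n : ℕ) : Set (Equiv.Perm V) :=
  {g | g ∈ L ∧ ∃ u : V, u.1.length = n ∧ ∀ v : V, ¬ List.IsPrefix u.1 v.1 → g v = v}

lemma rist_anti (n N : ℕ) (h : n ≤ N) : Rist N ⊆ Rist n := by
  rintro g ⟨hg, u, hu, hv⟩
  refine ⟨hg, ⟨u.1.take n, ?_⟩, ?_, ?_⟩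
  · intro i hi
    rw [List.get_eq_getElem, List.getElem_take]
    exact u.2 i _
  · show (u.1.take n).length = n
    rw [List.length_take, hu]
    exact min_eq_left h
  · intro v hv'
    apply hv
    intro h2
    exact hv' ((List.take_prefix n u.1).trans h2)

lemma index_ne_zero (n : ℕ) : ((Subgroup.closure (Rist n)).subgroupOf L).index ≠ 0 := by
  obtain ⟨N, hnN, h2N⟩ : ∃ N, n ≤ N ∧ 2 ≤ N := ⟨max n 2, le_max_left _ _, le_max_right _ _⟩
  let f : L →* Equiv.Perm (List.Vector Bool N) :=
    ((levelHom N).comp Q.subtype).comp iso.symm.toMonoidHom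
  have hle : f.ker ≤ (Subgroup.closure (Rist n)).subgroupOf L := by
    intro g hg
    obtain ⟨p, rfl⟩ := iso.surjective g
    have hp : p.1 ∈ (levelHom N).ker := by
      rw [MonoidHom.mem_ker] at hg ⊢
      have : f (iso p) = levelHom N (iso.symm (iso p)).1 := rfl
      rw [this, MulEquiv.symm_apply_apply] at hg
      exact hg
    rw [Subgroup.mem_subgroupOf, iso_coe]
    have hz := zero_of_mem_ker N p.1 hp
    have key := mem_of_zero N ((Subgroup.closure (Rist n)).comap A).toSubmonoid ?_ p.1 hz
    · exact key
    intro u hu q hq1 hq2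
    show A q ∈ Subgroup.closure (Rist n)
    apply Subgroup.subset_closure
    apply rist_anti n N hnN
    have hqQ : q ∈ Q := by
      rw [mem_Q, hq1 [false] (lt_of_lt_of_le (by simp) h2N), hq1 [true] (lt_of_lt_of_le (by simp) h2N)]
    refine ⟨⟨⟨q, hqQ⟩, rfl⟩, e.symm u, ?_, ?_⟩
    · rw [← e_length, e.apply_symm_apply, hu]
    · intro v hv
      rw [e_prefix, e.apply_symm_apply] at hv
      rw [A_apply, act_zero, e.symm_apply_apply]
      intro w hw _
      by_contra hne
      have h1 : q.f w = true := by simpa using hne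
      have h3 := hq2 w h1
      apply hv
      rw [← h3]
      exact (List.take_prefix N w).trans hw
  have : f.ker.FiniteIndex := Subgroup.finiteIndex_ker f
  have h3 : ((Subgroup.closure (Rist n)).subgroupOf L).FiniteIndex := Subgroup.finiteIndex_of_le hle
  exact h3.index_ne_zero

lemma L_prefix (g : Equiv.Perm V) (hg : g ∈ L) (v w : V) :
    v.1 <+: w.1 ↔ (g v).1 <+: (g w).1 := by
  obtain ⟨p, rfl⟩ := hg
  exact A_prefix p.1 v w

lemma L_transitive (v w : V) (h : v.1.length = w.1.length) : ∃ g ∈ L, g v = w := by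
  obtain ⟨c, hc⟩ := transitive (e v) (e w) (by rw [e_length, e_length, h])
  refine ⟨A ⟨fun w => c w.length⟩, ⟨⟨⟨fun w => c w.length⟩, rfl⟩, rfl⟩, ?_⟩
  rw [A_apply, hc, e.symm_apply_apply]

/-- a prefix preserving permutation preserves the first level -/
lemma length_one (σ : Equiv.Perm V)
    (hσ : ∀ v w : V, v.1 <+: w.1 ↔ (σ v).1 <+: (σ w).1) (v : V) (hv : (σ v).1.length = 1) :
    v.1.length = 1 := by
  let o : V := ⟨[], by intro i h; simp at h⟩
  have ho : σ o = o := by
    obtain ⟨x, hx⟩ := σ.surjective o
    have h1 : o.1 <+: x.1 := List.nil_prefix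
    have h2 := (hσ o x).1 h1
    rw [hx] at h2
    apply Subtype.ext
    exact List.prefix_nil.1 h2
  rcases Nat.lt_or_ge v.1.length 2 with h | h
  · -- length 0 or 1
    have h0 : v.1.length ≠ 0 := by
      intro h0
      have : v = o := Subtype.ext (List.length_eq_zero_iff.1 h0)
      rw [this, ho] at hv
      simp [o] at hv
    omega
  · exfalso
    let u : V := ⟨v.1.take 1, by
      intro i hi
      rw [List.get_eq_getElem, List.getElem_take]
      exact v.2 i _⟩
    have hu1 : u.1.length = 1 := by
      show (v.1.take 1).length = 1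
      rw [List.length_take]
      omega
    have huv : (σ u).1 <+: (σ v).1 := (hσ u v).1 (List.take_prefix 1 v.1)
    have hl := huv.length_le
    rw [hv] at hl
    have hne : (σ u).1.length ≠ 0 := by
      intro h0
      have : σ u = o := Subtype.ext (List.length_eq_zero_iff.1 h0)
      rw [← ho] at this
      have := σ.injective this
      rw [this] at hu1
      simp [o] at hu1
    have h3 : (σ u).1.length = (σ v).1.length := by omega
    have h4 : σ u = σ v := Subtype.ext (huv.eq_of_length h3)
    have h5 := σ.injective h4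
    rw [h5] at hu1
    omega

/-- an element of the stabilizer of the first level -/
def q0 : Q := ⟨⟨fun w => decide (w.length = 1)⟩, rfl⟩

lemma q0_fix (v : V) (hv : v.1.length = 1) : A q0.1 v = v := by
  rw [A_apply, act_zero, e.symm_apply_apply]
  intro w _ hl
  rw [e_length, hv] at hl
  show decide (w.length = 1) = false
  simp
  omega


/-- The negation of the preceding statement: For every branch group L acting on a spherically homogeneous rooted tree, every automorphism of L is conjugation by a unique tree automorphism, so Aut L equals the normalizer of L in Aut T. -/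
theorem result :
    ¬ (∀ (m : ℕ → ℕ), (∀ n, 2 ≤ m n) →
    ∀ L : Subgroup (Equiv.Perm {l : List ℕ // ∀ i (h : i < l.length), l.get ⟨i, h⟩ < m i}),
    (∀ g ∈ L, ∀ v w : {l : List ℕ // ∀ i (h : i < l.length), l.get ⟨i, h⟩ < m i},
        (List.IsPrefix v.1 w.1 ↔ List.IsPrefix (g v).1 (g w).1)) →
    (∀ v w : {l : List ℕ // ∀ i (h : i < l.length), l.get ⟨i, h⟩ < m i},
        v.1.length = w.1.length → ∃ g ∈ L, g v = w) →
    (∀ n : ℕ, ((Subgroup.closure
        {g : Equiv.Perm {l : List ℕ // ∀ i (h : i < l.length), l.get ⟨i, h⟩ < m i} |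
          g ∈ L ∧ ∃ u : {l : List ℕ // ∀ i (h : i < l.length), l.get ⟨i, h⟩ < m i},
            u.1.length = n ∧
            ∀ v : {l : List ℕ // ∀ i (h : i < l.length), l.get ⟨i, h⟩ < m i},
              ¬ List.IsPrefix u.1 v.1 → g v = v}).subgroupOf L).index ≠ 0) →
    ∀ φ : L ≃* L,
      ∃! σ : Equiv.Perm {l : List ℕ // ∀ i (h : i < l.length), l.get ⟨i, h⟩ < m i},
        (∀ v w : {l : List ℕ // ∀ i (h : i < l.length), l.get ⟨i, h⟩ < m i},
          (List.IsPrefix v.1 w.1 ↔ List.IsPrefix (σ v).1 (σ w).1)) ∧
        ∀ g : L, ((φ g : L) : Equiv.Perm {l : List ℕ // ∀ i (h : i < l.length), l.get ⟨i, h⟩ < m i})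
          = σ * (g : Equiv.Perm {l : List ℕ // ∀ i (h : i < l.length), l.get ⟨i, h⟩ < m i}) * σ⁻¹) := by
  intro H
  obtain ⟨σ, ⟨hσ, hconj⟩, _⟩ := H (fun _ => 2) (fun _ => le_refl 2) L L_prefix L_transitive
    index_ne_zero phi
  have h1 := hconj (iso q0)
  rw [phi_iso, iso_coe, iso_coe] at h1
  let a : V := e.symm [false]
  have ha : a.1.length = 1 := by
    rw [← e_length, e.apply_symm_apply]
    rfl
  have h2 : (σ⁻¹ a).1.length = 1 := by
    apply length_one σ hσ
    have h : σ (σ⁻¹ a) = a := σ.apply_symm_apply a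
    rw [h]
    exact ha
  have h3 : A (phiQ q0).1 a = a := by
    rw [h1]
    show σ (A q0.1 (σ⁻¹ a)) = a
    rw [q0_fix _ h2]
    exact σ.apply_symm_apply a
  have h4 : act (phiQ q0).1.f [false] = [true] := rfl
  have h5 := congrArg e h3
  rw [e_A, e.apply_symm_apply, h4] at h5
  exact absurd h5 (by decide)

end Pool.Agent.S02012
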