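import Pool.Statements.S02070
import Pool.Agent.TH3.Padic

set_option autoImplicit false
open Pool Pool.MP_7ed69f_al

namespace Pool.Agent.S02070

/-- The negation of the preceding statement: For all N,r ≥ 2 there is a finite set of integer polynomials of degree ≤ C(N,2)·r whose values at q are exactly the dimensions of irreducible complex reps of GL_N(o/p^r) nontrivial on the level-(r−1) kernel, for every compact DVR o. -/
theorem result :
    ¬ (∀ N r : ℕ, 2 ≤ N → 2 ≤ r →
    ∃ P : Finset (Polynomial ℤ), (∀ d ∈ P, d.natDegree ≤ N.choose 2 * r) ∧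
    ∀ (R : Type) [CommRing R] [IsDomain R] [IsDiscreteValuationRing R]
      [Finite (IsLocalRing.ResidueField R)]
      [IsAdicComplete (IsLocalRing.maximalIdeal R) R],
    {z : ℤ | ∃ (V : Type) (_ : AddCommGroup V) (_ : Module ℂ V)
        (ρ : Representation ℂ
          (Matrix.GeneralLinearGroup (Fin N) (R ⧸ IsLocalRing.maximalIdeal R ^ r)) V),
        FiniteDimensional ℂ V ∧ Nontrivial V ∧
        (∀ W : Submodule ℂ V, (∀ g v, v ∈ W → ρ g v ∈ W) → W = ⊥ ∨ W = ⊤) ∧
        (∃ g : Matrix.GeneralLinearGroup (Fin N) (R ⧸ IsLocalRing.maximalIdeal R ^ r),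
          (∀ i j, ∃ a ∈ IsLocalRing.maximalIdeal R ^ (r - 1),
            g.val i j
              - (1 : Matrix (Fin N) (Fin N) (R ⧸ IsLocalRing.maximalIdeal R ^ r)) i j
              = Ideal.Quotient.mk (IsLocalRing.maximalIdeal R ^ r) a) ∧ ρ g ≠ 1) ∧
        (Module.finrank ℂ V : ℤ) = z}
    = (fun d : Polynomial ℤ => d.eval (Nat.card (IsLocalRing.ResidueField R) : ℤ)) ''
        (P : Set (Polynomial ℤ))) := by
  intro H
  obtain ⟨P, -, hP⟩ := H 3 2 (by norm_num) (by norm_num)
  -- the split regular polynomial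
  let F : Polynomial ℤ := Polynomial.X ^ 3 * (Polynomial.X + 1) *
    (Polynomial.X ^ 2 + Polynomial.X + 1)
  have hF : ∀ x : ℤ, F.eval x = x ^ 3 * (x + 1) * (x ^ 2 + x + 1) := by
    intro x
    simp [F]
  have hD : ∀ (p : ℕ) [Fact p.Prime], Pool.Agent.TH3.Padic.Dset ℤ_[p] =
      (fun d : Polynomial ℤ => d.eval (p : ℤ)) '' (P : Set (Polynomial ℤ)) := by
    intro p _
    have h1 := hP ℤ_[p]
    rw [Pool.Agent.TH3.Padic.card_residue p] at h1
    exact h1
  -- some member of `P` agrees with `F` at infinitely many primes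
  have hinf : ∃ d ∈ P, Set.Infinite {n : ℕ | d.eval (n : ℤ) = F.eval (n : ℤ)} := by
    by_contra hcon
    push Not at hcon
    have hfin : Set.Finite (⋃ d ∈ P, {n : ℕ | d.eval (n : ℤ) = F.eval (n : ℤ)}) := by
      refine Set.Finite.biUnion (Finset.finite_toSet P) ?_
      intro d hd
      exact hcon d hd
    obtain ⟨b, hb⟩ := hfin.bddAbove
    obtain ⟨p, hpb, hp⟩ := Nat.exists_infinite_primes (b + 5)
    have : Fact p.Prime := ⟨hp⟩
    have h1 := Pool.Agent.TH3.Padic.mem_Dset p (by omega)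
    rw [hD p] at h1
    obtain ⟨d, hdP, hd⟩ := h1
    have h2 : p ∈ (⋃ d ∈ P, {n : ℕ | d.eval (n : ℤ) = F.eval (n : ℤ)}) := by
      refine Set.mem_biUnion hdP ?_
      show d.eval (p : ℤ) = F.eval (p : ℤ)
      rw [hF]
      exact hd
    have h3 := hb h2
    omega
  obtain ⟨d, hdP, hdinf⟩ := hinf
  have hdF : d = F := by
    apply Polynomial.eq_of_infinite_eval_eq
    refine Set.Infinite.mono ?_ (hdinf.image (f := fun n : ℕ => (n : ℤ)) ?_)
    · rintro _ ⟨n, hn, rfl⟩
      exact hn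
    · intro a _ b _ hab
      exact Int.ofNat.inj hab
  have h2 : (168 : ℤ) ∈ Pool.Agent.TH3.Padic.Dset ℤ_[2] := by
    rw [hD 2]
    refine ⟨d, hdP, ?_⟩
    show d.eval ((2 : ℕ) : ℤ) = 168
    rw [hdF, hF]
    norm_num
  exact Pool.Agent.TH3.Padic.not_mem_Dset h2

end Pool.Agent.S02070
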