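import Pool.Statements.S02071
import Pool.Agent.TH54.BU.Iter
import Pool.Agent.TH54.BU.AppHM

set_option autoImplicit false
open Pool Pool.MP_7f190d_al

namespace Pool.Agent.S02071

/-- There is a Hausdorff, locally compact, non-discrete group whose center is neither trivial nor everything, in which every subgroup is minimal: no Hausdorff group topology on it is strictly coarser than its subspace topology. -/
theorem result :
    ∃ (G : Type) (_ : Group G) (tG : TopologicalSpace G),
      IsTopologicalGroup G ∧ T2Space G ∧ LocallyCompactSpace G ∧
      ¬ DiscreteTopology G ∧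
      Subgroup.center G ≠ ⊥ ∧ Subgroup.center G ≠ ⊤ ∧
      ∀ H : Subgroup G, ∀ τ : TopologicalSpace H,
        @IsTopologicalGroup H τ _ → @T2Space H τ →
        TopologicalSpace.induced (Subtype.val : H → G) tG ≤ τ →
        τ = TopologicalSpace.induced (Subtype.val : H → G) tG := by
  obtain ⟨p0, h⟩ := Pool.Agent.TH54.BU.burnside
  obtain ⟨p, hle, hp⟩ := Nat.exists_infinite_primes p0
  exact Pool.Agent.TH54.BU.app_S02071 hp (h p hp hle)

end Pool.Agent.S02071
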