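import Pool.Statements.S02215
-- import your own Pool.Agent.* helpers here
import Pool.Agent.TH109.Q.Fin

set_option autoImplicit false
open Pool Pool.MP_8b8116_al

namespace Pool.Agent.S02215

/-- Every solvable group with an automatic structure (a regular language of words over finitely many generators, onto the group, with the fellow-traveller property) has an abelian subgroup of finite index. -/
theorem result :
    ∀ (G : Type) [Group G], IsSolvable G →
      (∃ (A : Type) (_ : Fintype A) (μ : A → G) (L : Language A),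
        (∃ (σ : Type) (_ : Fintype σ) (M : DFA A σ), M.accepts = L) ∧
        (∀ g : G, ∃ w ∈ L, (w.map μ).prod = g) ∧
        (∃ S : Finset G, ∀ u ∈ L, ∀ v ∈ L, ∀ x : G, (x = 1 ∨ ∃ a, μ a = x) →
          (u.map μ).prod * x = (v.map μ).prod →
          ∀ t : ℕ, (((u.take t).map μ).prod)⁻¹ * ((v.take t).map μ).prod ∈ S)) →
      ∃ H : Subgroup G, H.index ≠ 0 ∧ ∀ a ∈ H, ∀ b ∈ H, a * b = b * a := by
  intro G _ hG hA
  obtain ⟨U⟩ := Pool.Agent.TH109.Q.ua_of_aut hA
  obtain ⟨H, h1, h2⟩ := Pool.Agent.TH109.Q.va_of_fol U (Pool.Agent.TH109.Q.fol_solvable hG)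
  exact ⟨H, h1.index_ne_zero, h2⟩

end Pool.Agent.S02215
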