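import Pool.Statements.S02286
import Pool.Agent.TH960.ZarCompact

set_option autoImplicit false
open Pool Pool.MP_91b10e_al

namespace Pool.Agent.S02286

/-- The negation of the preceding statement: For every group G, if the Zariski topology (closed subbasis: solution sets of one-variable equations with constants from G) is compact, then it is Noetherian. -/
theorem result :
    ¬ (∀ (G : Type) [Group G],
      @IsCompact G
        (TopologicalSpace.generateFrom
          {U : Set G | ∃ w : Monoid.Coprod G (Multiplicative ℤ),
            U = {x : G | Monoid.Coprod.lift (MonoidHom.id G) (zpowersHom G x) w ≠ 1}})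
        Set.univ →
      @TopologicalSpace.NoetherianSpace G
        (TopologicalSpace.generateFrom
          {U : Set G | ∃ w : Monoid.Coprod G (Multiplicative ℤ),
            U = {x : G | Monoid.Coprod.lift (MonoidHom.id G) (zpowersHom G x) w ≠ 1}})) := by
  intro h
  have h1 := h Pool.Agent.TH960.ZarCompact.G
  have h2 : Pool.Agent.TH960.ZarCompact.T = TopologicalSpace.generateFrom
      {U : Set Pool.Agent.TH960.ZarCompact.G |
        ∃ w : Monoid.Coprod Pool.Agent.TH960.ZarCompact.G (Multiplicative ℤ),
        U = {x | Monoid.Coprod.lift (MonoidHom.id _) (zpowersHom _ x) w ≠ 1}} :=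
    Pool.Agent.TH960.ZarCompact.T_eq
  rw [← h2] at h1
  exact Pool.Agent.TH960.ZarCompact.not_noetherian (h1 Pool.Agent.TH960.ZarCompact.compact_T)

end Pool.Agent.S02286
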