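import Pool.Statements.S02523
import Pool.Agent.TH60.LR.Final
import Pool.Agent.TH75.LR.Tight
import Pool.Agent.TH75.LR.Nested
import Pool.Agent.TH635.J553
import Pool.Agent.TH635.J554
import Pool.Agent.TH796.LR5
import Pool.Agent.TH386.J556
import Pool.Agent.TH304.LR78
import Pool.Agent.TH553.LR_Easy
import Pool.Agent.TH553.LR_Split
import Pool.Agent.TH897.J560
import Pool.Agent.TH350.J561
import Pool.Agent.TH73.J563
import Pool.Agent.TH247.LR14

set_option autoImplicit false
open Pool Pool.MP_a112e0_al

namespace Pool.Agent.S02523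

/-- In every group having a free subgroup of finite index, each finitely generated subgroup H lies in some finite-index subgroup K that admits a homomorphism onto H fixing H pointwise (a retraction). -/
theorem result :
    ∀ (G : Type) [Group G],
      (∃ F : Subgroup G, F.FiniteIndex ∧ IsFreeGroup F) →
      ∀ H : Subgroup G, H.FG →
        ∃ K : Subgroup G, K.FiniteIndex ∧ H ≤ K ∧
          ∃ ρ : K →* G, (∀ k : K, ρ k ∈ H) ∧
            ∀ h : G, ∀ hk : h ∈ K, h ∈ H → ρ ⟨h, hk⟩ = h := by
  intro G _ hG H hH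
  have h2 := Pool.Agent.TH75.LR.nestedCuts Pool.Agent.TH75.LR.tightFinite
  have hC := Pool.Agent.TH796.LR5.cutsOfSplit h2 Pool.Agent.TH635.J553.adjConnected
    Pool.Agent.TH635.J553.levelBound Pool.Agent.TH635.J554.endsSeparated
  have h9 := Pool.Agent.TH553.LR.pathHom Pool.Agent.TH304.LR78.treeConnected
    Pool.Agent.TH304.LR78.treePotential Pool.Agent.TH304.LR78.treeFixedPoint
  exact Pool.Agent.TH60.LR.lr_of hC Pool.Agent.TH386.J556.treeOfCuts
    (Pool.Agent.TH897.J560.extendHom h9) Pool.Agent.TH553.LR.finSplitOfFG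
    (Pool.Agent.TH247.LR14.splitRes Pool.Agent.TH73.J563.splitSelf)
    Pool.Agent.TH553.LR.splitProd Pool.Agent.TH73.J563.splitOfBasis
    Pool.Agent.TH73.J563.splitSelf Pool.Agent.TH553.LR.splitOfFreeAction
    (Pool.Agent.TH350.J561.baseHom Pool.Agent.TH304.LR78.treeConnected h9)
    Pool.Agent.TH553.LR.retractOfAction G hG H hH

end Pool.Agent.S02523
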