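import Pool.Statements.S02538

set_option autoImplicit false
open Pool Pool.MP_a19302_al

namespace Pool.Agent.S02538

/-- the big vector space with basis `e (n, p)` -/
abbrev M := (ℕ × ℕ) →₀ ℚ

/-- basis vectors -/
noncomputable abbrev e (n p : ℕ) : M := Finsupp.single (n, p) 1

/-- length of the `n`-th word -/
def len (n : ℕ) : ℕ := (n + 1) * (n + 1)

/-- the operators: letter `b` moves `e n p` to `e n (p+1)` if the letter number `p` of the word
number `n` is `b` (`true` at the positions `p` with `n + 1 ∣ p + 1`) -/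
noncomputable def op (b : Bool) : Module.End ℚ M :=
  Finsupp.lift M ℚ (ℕ × ℕ) (fun a =>
    if a.2 < len a.1 ∧ decide ((a.1 + 1) ∣ (a.2 + 1)) = b then e a.1 (a.2 + 1) else 0)

lemma op_e (b : Bool) (n p : ℕ) : op b (e n p) =
    if p < len n ∧ decide ((n + 1) ∣ (p + 1)) = b then e n (p + 1) else 0 := by
  simp [op, e]

/-- the operator of a word -/
noncomputable def opw (w : List Bool) : Module.End ℚ M := (w.map op).prod

/-- the word number `n` read from position `p`, of length `l` -/
def cw (n p : ℕ) : ℕ → List Bool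
  | 0 => []
  | l + 1 => decide ((n + 1) ∣ (p + l + 1)) :: cw n p l

lemma length_cw (n p l : ℕ) : (cw n p l).length = l := by
  induction l with
  | zero => rfl
  | succ l ih => simp [cw, ih]

lemma opw_e (w : List Bool) (n p : ℕ) :
    opw w (e n p) = 0 ∨ (opw w (e n p) = e n (p + w.length) ∧ w = cw n p w.length) := by
  induction w with
  | nil => right; simp [opw, cw]
  | cons b w ih =>
    have h : opw (b :: w) (e n p) = op b (opw w (e n p)) := by
      simp [opw, Module.End.mul_apply]
    rw [h]
    rcases ih with ih | ⟨ih, hw⟩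
    · left; rw [ih, map_zero]
    · rw [ih, op_e]
      split_ifs with hc
      · right
        refine ⟨by simp [add_assoc], ?_⟩
        rw [List.length_cons, cw, ← hw, hc.2]
      · left; rfl

lemma cw_congr {n p n' p' l : ℕ}
    (h : ∀ j < l, ((n + 1) ∣ (p + j + 1) ↔ (n' + 1) ∣ (p' + j + 1))) : cw n p l = cw n' p' l := by
  induction l with
  | zero => rfl
  | succ l ih =>
    rw [cw, cw, ih (fun j hj => h j (by omega)), decide_eq_decide.mpr (h l (by omega))]

lemma cw_small (n p l L : ℕ) (hl : l ≤ L) :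
    ∃ n' ≤ L, ∃ p' ≤ L, cw n p l = cw n' p' l := by
  by_cases hn : n ≤ L
  · refine ⟨n, hn, p % (n + 1), ?_, ?_⟩
    · have := Nat.mod_lt p (show n + 1 > 0 by omega)
      omega
    · apply cw_congr
      intro j _
      have h1 : p + j + 1 = (p % (n + 1) + j + 1) + (n + 1) * (p / (n + 1)) := by
        have := Nat.mod_add_div p (n + 1)
        omega
      rw [h1]
      exact (Nat.dvd_add_iff_left (Dvd.intro _ rfl)).symm
  · push Not at hn
    by_cases hex : ∃ j < l, (n + 1) ∣ (p + j + 1)
    · obtain ⟨j, hj, hd⟩ := hex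
      refine ⟨L, le_rfl, L - j, by omega, ?_⟩
      apply cw_congr
      intro i hi
      constructor
      · intro hd'
        have : i = j := by
          rcases Nat.lt_trichotomy i j with h | h | h
          · have : (n + 1) ∣ (p + j + 1) - (p + i + 1) := Nat.dvd_sub hd hd'
            have h2 := Nat.le_of_dvd (by omega) this
            omega
          · exact h
          · have : (n + 1) ∣ (p + i + 1) - (p + j + 1) := Nat.dvd_sub hd' hd
            have h2 := Nat.le_of_dvd (by omega) this
            omega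
        subst this
        have : L - i + i + 1 = L + 1 := by omega
        rw [this]
      · rintro ⟨c, hc⟩
        have hc1 : c = 1 := by
          rcases c with _ | _ | c
          · omega
          · rfl
          · exfalso
            have : (L + 1) * (c + 1 + 1) = (L + 1) * c + 2 * (L + 1) := by ring
            rw [this] at hc
            have : 0 ≤ (L + 1) * c := Nat.zero_le _
            omega
        subst hc1
        have : i = j := by omega
        subst this
        exact hd
    · push Not at hex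
      refine ⟨L, le_rfl, 0, by omega, ?_⟩
      apply cw_congr
      intro i hi
      constructor
      · intro h; exact absurd h (hex i hi)
      · intro h
        have := Nat.le_of_dvd (by omega) h
        omega

open Classical in
/-- the finite spanning sets -/
noncomputable def SS (L : ℕ) : Finset (Module.End ℚ M) :=
  ((Finset.range (L + 1) ×ˢ (Finset.range (L + 1) ×ˢ Finset.range (L + 1))).image
    (fun t => opw (cw t.2.1 t.2.2 t.1)))

lemma card_SS (L : ℕ) : (SS L).card ≤ (L + 1) ^ 3 := by
  classical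
  refine le_trans Finset.card_image_le ?_
  simp only [Finset.card_product, Finset.card_range]
  exact le_of_eq (by ring)

lemma opw_mem (w : List Bool) (L : ℕ) (hw : w.length ≤ L) :
    opw w ∈ Submodule.span ℚ (SS L : Set (Module.End ℚ M)) := by
  classical
  by_cases h : opw w = 0
  · rw [h]; exact Submodule.zero_mem _
  · have : ∃ n p, opw w (e n p) ≠ 0 := by
      by_contra hcon
      push Not at hcon
      apply h
      apply Finsupp.lhom_ext'
      rintro ⟨n, p⟩
      apply LinearMap.ext_ring
      simpa using hcon n p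
    obtain ⟨n, p, hnp⟩ := this
    rcases opw_e w n p with h0 | ⟨_, h1⟩
    · exact absurd h0 hnp
    · obtain ⟨n', hn', p', hp', heq⟩ := cw_small n p w.length L hw
      apply Submodule.subset_span
      unfold SS
      rw [Finset.coe_image]
      refine ⟨(w.length, n', p'), ?_, ?_⟩
      · simp only [Finset.coe_product, Set.mem_prod, Finset.mem_coe, Finset.mem_range]
        omega
      · simp only
        rw [← heq, ← h1]

/-- the generating space in the endomorphism ring -/
noncomputable def T : Submodule ℚ (Module.End ℚ M) :=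
  Submodule.span ℚ {1, op true, op false}

lemma gen_pow {R : Type} [Ring R] [Algebra ℚ R] (f : Bool → R) (L : ℕ) :
    (Submodule.span ℚ {1, f true, f false}) ^ L ≤
      Submodule.span ℚ {a | ∃ w : List Bool, w.length ≤ L ∧ a = (w.map f).prod} := by
  induction L with
  | zero =>
    rw [pow_zero, Submodule.one_eq_span]
    apply Submodule.span_mono
    rintro x rfl
    exact ⟨[], le_rfl, by simp⟩
  | succ L ih =>
    rw [pow_succ']
    refine le_trans (mul_le_mul' le_rfl ih) ?_
    rw [Submodule.span_mul_span]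
    apply Submodule.span_mono
    rintro x ⟨a, ha, b, ⟨w, hw, rfl⟩, rfl⟩
    rcases ha with rfl | rfl | rfl
    · exact ⟨w, by omega, by simp⟩
    · exact ⟨true :: w, by simpa using hw, by simp⟩
    · exact ⟨false :: w, by simpa using hw, by simp⟩

lemma T_pow (L : ℕ) : T ^ L ≤ Submodule.span ℚ {a | ∃ w : List Bool, w.length ≤ L ∧ a = opw w} :=
  gen_pow op L

lemma T_pow_le (L : ℕ) : T ^ L ≤ Submodule.span ℚ (SS L : Set (Module.End ℚ M)) := by
  refine le_trans (T_pow L) (Submodule.span_le.mpr ?_)
  rintro x ⟨w, hw, rfl⟩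
  exact opw_mem w L hw

lemma finrank_T_pow (L : ℕ) : Module.finrank ℚ ↥(T ^ L) ≤ (L + 1) ^ 3 :=
  le_trans (Submodule.finrank_mono (T_pow_le L)) (le_trans (finrank_span_finset_le_card _) (card_SS L))

/-- the algebra -/
noncomputable abbrev A : Subalgebra ℚ (Module.End ℚ M) := Algebra.adjoin ℚ {op true, op false}

/-- generators -/
noncomputable def gen (b : Bool) : A := ⟨op b, Algebra.subset_adjoin (by cases b <;> simp)⟩

/-- the generating space -/
noncomputable def V : Submodule ℚ A := Submodule.span ℚ {1, gen true, gen false}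

lemma map_V : V.map A.val.toLinearMap = T := by
  rw [V, Submodule.map_span, T]
  congr 1
  simp [Set.image_insert_eq, gen]

lemma finrank_V_pow (L : ℕ) : Module.finrank ℚ ↥(V ^ L) ≤ (L + 1) ^ 3 := by
  have h : (V ^ L).map A.val.toLinearMap = T ^ L := by
    rw [Submodule.map_pow, map_V]
  have h2 : Module.finrank ℚ ↥((V ^ L).map A.val.toLinearMap) = Module.finrank ℚ ↥(V ^ L) :=
    (LinearEquiv.finrank_eq (Submodule.equivMapOfInjective A.val.toLinearMap
      Subtype.val_injective (V ^ L))).symm
  rw [← h2, h]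
  exact finrank_T_pow L

lemma adjoin_gens : Algebra.adjoin ℚ ({gen true, gen false} : Set A) = ⊤ := by
  have h := Algebra.adjoin_adjoin_coe_preimage (R := ℚ) (s := {op true, op false})
  rw [← h]
  congr 1
  ext ⟨x, hx⟩
  simp [gen]

lemma adjoin_V : Algebra.adjoin ℚ (V : Set A) = ⊤ := by
  rw [V, Algebra.adjoin_span, eq_top_iff, ← adjoin_gens]
  apply Algebra.adjoin_mono
  intro x hx
  exact Or.inr hx

/-- span of `e m j` with `p ≤ j` -/
noncomputable def G (m p : ℕ) : Submodule ℚ M :=
  Finsupp.supported ℚ ℚ {a : ℕ × ℕ | a.1 = m ∧ p ≤ a.2}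

/-- span of `e m j` with `p ≤ j ≤ len m` -/
noncomputable def F (m p : ℕ) : Submodule ℚ M :=
  Finsupp.supported ℚ ℚ {a : ℕ × ℕ | a.1 = m ∧ p ≤ a.2 ∧ a.2 ≤ len m}

lemma F_le_G (m p : ℕ) : F m p ≤ G m p :=
  Finsupp.supported_mono (fun _ h => ⟨h.1, h.2.1⟩)

lemma G_anti {m p q : ℕ} (h : p ≤ q) : G m q ≤ G m p :=
  Finsupp.supported_mono (fun _ h' => ⟨h'.1, h.trans h'.2⟩)

lemma F_anti {m p q : ℕ} (h : p ≤ q) : F m q ≤ F m p :=
  Finsupp.supported_mono (fun _ h' => ⟨h'.1, h.trans h'.2.1, h'.2.2⟩)

lemma F_eq_bot {m p : ℕ} (h : len m < p) : F m p = ⊥ := by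
  have : {a : ℕ × ℕ | a.1 = m ∧ p ≤ a.2 ∧ a.2 ≤ len m} = ∅ := by
    ext a
    simp only [Set.mem_ofPred_eq, Set.mem_empty_iff_false, iff_false]
    omega
  rw [F, this, Finsupp.supported_empty]

lemma mem_sup_ind {S : Set (ℕ × ℕ)} (f : Module.End ℚ M) (N : Submodule ℚ M)
    (h : ∀ a ∈ S, f (e a.1 a.2) ∈ N) : ∀ v ∈ Finsupp.supported ℚ ℚ S, f v ∈ N := by
  intro v hv
  rw [Finsupp.supported_eq_span_single] at hv
  induction hv using Submodule.span_induction with
  | mem x hx => obtain ⟨a, ha, rfl⟩ := hx; exact h a ha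
  | zero => rw [map_zero]; exact N.zero_mem
  | add x y _ _ hx hy => rw [map_add]; exact N.add_mem hx hy
  | smul c x _ hx => rw [map_smul]; exact N.smul_mem c hx

lemma e_mem_G {m p q : ℕ} (h : p ≤ q) : e m q ∈ G m p :=
  Finsupp.single_mem_supported ℚ _ ⟨rfl, h⟩

lemma e_mem_F {m p q : ℕ} (h : p ≤ q) (h2 : q ≤ len m) : e m q ∈ F m p :=
  Finsupp.single_mem_supported ℚ _ ⟨rfl, h, h2⟩

lemma op_G (b : Bool) (m p : ℕ) : ∀ v ∈ G m p, op b v ∈ F m (p + 1) := by
  apply mem_sup_ind
  rintro ⟨m', q⟩ ⟨h1, h2⟩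
  simp only at h1 h2
  subst h1
  rw [op_e]
  split_ifs with hc
  · exact e_mem_F (by omega) hc.1
  · exact Submodule.zero_mem _

lemma A_pres (a : Module.End ℚ M) (ha : a ∈ A) :
    (∀ m p, ∀ v ∈ G m p, a v ∈ G m p) ∧ (∀ m p, ∀ v ∈ F m p, a v ∈ F m p) := by
  induction ha using Algebra.adjoin_induction with
  | mem x hx =>
    have : ∃ b, x = op b := by
      rcases hx with rfl | rfl
      · exact ⟨_, rfl⟩
      · exact ⟨_, rfl⟩
    obtain ⟨b, rfl⟩ := this
    exact ⟨fun m p v hv => F_le_G m p (F_anti (Nat.le_succ p) (op_G b m p v hv)),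
      fun m p v hv => F_anti (Nat.le_succ p) (op_G b m p v (F_le_G m p hv))⟩
  | algebraMap r =>
    refine ⟨fun m p v hv => ?_, fun m p v hv => ?_⟩
    · rw [Module.algebraMap_end_apply]; exact Submodule.smul_mem _ _ hv
    · rw [Module.algebraMap_end_apply]; exact Submodule.smul_mem _ _ hv
  | add x y _ _ hx hy =>
    exact ⟨fun m p v hv => by rw [LinearMap.add_apply]; exact Submodule.add_mem _ (hx.1 m p v hv) (hy.1 m p v hv),
      fun m p v hv => by rw [LinearMap.add_apply]; exact Submodule.add_mem _ (hx.2 m p v hv) (hy.2 m p v hv)⟩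
  | mul x y _ _ hx hy =>
    exact ⟨fun m p v hv => hx.1 m p _ (hy.1 m p v hv), fun m p v hv => hx.2 m p _ (hy.2 m p v hv)⟩

/-- the nilpotent ideals -/
noncomputable def I (n : ℕ) : TwoSidedIdeal A :=
  TwoSidedIdeal.mk' {a : A | (∀ m, m ≠ n → ∀ v ∈ G m 0, a.1 v = 0) ∧
      (∀ p, ∀ v ∈ G n p, a.1 v ∈ F n (p + 1))}
    (by
      refine ⟨fun m _ v _ => by simp, fun p v _ => by simp⟩)
    (by
      rintro x y ⟨hx1, hx2⟩ ⟨hy1, hy2⟩
      refine ⟨fun m hm v hv => ?_, fun p v hv => ?_⟩
      · rw [Subalgebra.coe_add, LinearMap.add_apply, hx1 m hm v hv, hy1 m hm v hv, add_zero]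
      · rw [Subalgebra.coe_add, LinearMap.add_apply]
        exact Submodule.add_mem _ (hx2 p v hv) (hy2 p v hv))
    (by
      rintro x ⟨hx1, hx2⟩
      refine ⟨fun m hm v hv => ?_, fun p v hv => ?_⟩
      · rw [Subalgebra.coe_neg, LinearMap.neg_apply, hx1 m hm v hv, neg_zero]
      · rw [Subalgebra.coe_neg, LinearMap.neg_apply]
        exact Submodule.neg_mem _ (hx2 p v hv))
    (by
      rintro x y ⟨hx1, hx2⟩
      refine ⟨fun m hm v hv => ?_, fun p v hv => ?_⟩
      · rw [Subalgebra.coe_mul, Module.End.mul_apply, hx1 m hm v hv, map_zero]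
      · rw [Subalgebra.coe_mul, Module.End.mul_apply]
        exact (A_pres x.1 x.2).2 _ _ _ (hx2 p v hv))
    (by
      rintro x y ⟨hx1, hx2⟩
      refine ⟨fun m hm v hv => ?_, fun p v hv => ?_⟩
      · rw [Subalgebra.coe_mul, Module.End.mul_apply]
        exact hx1 m hm _ ((A_pres y.1 y.2).1 _ _ _ hv)
      · rw [Subalgebra.coe_mul, Module.End.mul_apply]
        exact hx2 p _ ((A_pres y.1 y.2).1 _ _ _ hv))

lemma mem_I (n : ℕ) (a : A) : a ∈ I n ↔ (∀ m, m ≠ n → ∀ v ∈ G m 0, a.1 v = 0) ∧
      (∀ p, ∀ v ∈ G n p, a.1 v ∈ F n (p + 1)) := by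
  rw [I, TwoSidedIdeal.mem_mk']
  rfl

lemma prod_I (n : ℕ) (l : List A) (hl : ∀ a ∈ l, a ∈ I n) (hne : l ≠ []) :
    (∀ m, m ≠ n → ∀ v ∈ G m 0, l.prod.1 v = 0) ∧
      (∀ p, ∀ v ∈ G n p, l.prod.1 v ∈ F n (p + l.length)) := by
  induction l with
  | nil => exact absurd rfl hne
  | cons a l ih =>
    have ha := (mem_I n a).mp (hl a (by simp))
    by_cases hl0 : l = []
    · subst hl0
      simpa using ha
    · obtain ⟨h1, h2⟩ := ih (fun b hb => hl b (by simp [hb])) hl0
      refine ⟨fun m hm v hv => ?_, fun p v hv => ?_⟩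
      · rw [List.prod_cons, Subalgebra.coe_mul, Module.End.mul_apply, h1 m hm v hv, map_zero]
      · rw [List.prod_cons, Subalgebra.coe_mul, Module.End.mul_apply, List.length_cons,
          ← add_assoc]
        exact ha.2 _ _ (F_le_G _ _ (h2 p v hv))

lemma I_nilp (n : ℕ) :
    ∃ m : ℕ, ∀ f : Fin m → A, (∀ i, f i ∈ I n) → (List.ofFn f).prod = 0 := by
  refine ⟨len n + 1, fun f hf => ?_⟩
  have h := prod_I n (List.ofFn f) (by
    intro a ha
    rw [List.mem_ofFn] at ha
    obtain ⟨i, rfl⟩ := ha
    exact hf i) (by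
      intro h
      have := congrArg List.length h
      simp at this)
  apply Subtype.ext
  apply Finsupp.lhom_ext'
  rintro ⟨m, p⟩
  apply LinearMap.ext_ring
  show (List.ofFn f).prod.1 (e m p) = 0
  by_cases hm : m = n
  · subst hm
    have h2 := h.2 0 (e m p) (e_mem_G (Nat.zero_le _))
    rw [List.length_ofFn, F_eq_bot (by omega)] at h2
    simpa using h2
  · exact h.1 m hm _ (e_mem_G (Nat.zero_le _))

lemma opX_pow (m p k : ℕ) : (op false ^ k) (e m p) = 0 ∨
    ((op false ^ k) (e m p) = e m (p + k) ∧ ∀ i < k, ¬ (m + 1) ∣ (p + i + 1)) := by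
  induction k with
  | zero => right; simp
  | succ k ih =>
    rw [pow_succ', Module.End.mul_apply]
    rcases ih with ih | ⟨ih, h2⟩
    · left; rw [ih, map_zero]
    · rw [ih, op_e]
      split_ifs with hc
      · right
        refine ⟨by rw [add_assoc], fun i hi => ?_⟩
        rcases Nat.lt_succ_iff_lt_or_eq.mp hi with h | h
        · exact h2 i h
        · subst h
          have := hc.2
          simpa using this
      · left; rfl

/-- the element `y x^n y` -/
noncomputable def w (n : ℕ) : A := gen true * gen false ^ n * gen true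

lemma w_mem (n : ℕ) : w n ∈ I n := by
  rw [mem_I]
  refine ⟨fun m hm => ?_, fun p => ?_⟩
  · intro v hv
    have h := mem_sup_ind (S := {a : ℕ × ℕ | a.1 = m ∧ 0 ≤ a.2}) (w n).1 ⊥ (by
      rintro ⟨m', q⟩ ⟨h1, _⟩
      simp only at h1
      subst h1
      show (op true * op false ^ n * op true) (e m' q) ∈ (⊥ : Submodule ℚ M)
      rw [Submodule.mem_bot, Module.End.mul_apply, Module.End.mul_apply, op_e]
      split_ifs with hc
      · rcases opX_pow m' (q + 1) n with h0 | ⟨h0, h1⟩
        · rw [h0, map_zero]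
        · rw [h0, op_e, if_neg]
          rintro ⟨_, hd⟩
          have hd1 : (m' + 1) ∣ (q + 1) := by simpa using hc.2
          have hd2 : (m' + 1) ∣ (q + 1 + n + 1) := by simpa using hd
          have hd3 : (m' + 1) ∣ (n + 1) := by
            have : q + 1 + n + 1 = (q + 1) + (n + 1) := by ring
            rw [this] at hd2
            exact (Nat.dvd_add_iff_right hd1).mpr hd2
          have hle : m' + 1 ≤ n + 1 := Nat.le_of_dvd (by omega) hd3
          have hlt : m' < n := lt_of_le_of_ne (by omega) hm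
          exact h1 m' hlt (by
            have : q + 1 + m' + 1 = (q + 1) + (m' + 1) := by ring
            rw [this]
            exact Dvd.dvd.add hd1 (dvd_refl _))
      · rw [map_zero, map_zero]) v hv
    simpa using h
  · intro v hv
    show op true ((op false ^ n) (op true v)) ∈ F n (p + 1)
    apply F_anti (Nat.le_succ (p + 1))
    apply op_G
    apply F_le_G
    have h1 : op true v ∈ F n (p + 1) := op_G true n p v hv
    have hX : (op false ^ n) ∈ A := by
      apply Subalgebra.pow_mem
      exact Algebra.subset_adjoin (by simp)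
    exact (A_pres _ hX).2 _ _ _ h1

/-- the block `y x^n` -/
noncomputable def blk (n : ℕ) : Module.End ℚ M := op true * op false ^ n

lemma opX_pow_e (n k : ℕ) (hk : k ≤ n) (j : ℕ) (hj : j < n + 1) :
    (op false ^ k) (e n (j * (n + 1))) = e n (j * (n + 1) + k) := by
  induction k with
  | zero => simp
  | succ k ih =>
    rw [pow_succ', Module.End.mul_apply, ih (by omega), op_e, if_pos]
    · rw [add_assoc]
    · refine ⟨?_, ?_⟩
      · have : j * (n + 1) + (n + 1) ≤ (n + 1) * (n + 1) := by nlinarith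
        unfold len
        omega
      · rw [decide_eq_false_iff_not]
        rw [add_assoc, Nat.dvd_add_right (Dvd.intro_left j rfl)]
        intro h
        have := Nat.le_of_dvd (by omega) h
        omega

lemma blk_e (n j : ℕ) (hj : j < n + 1) : blk n (e n (j * (n + 1))) = e n ((j + 1) * (n + 1)) := by
  rw [blk, Module.End.mul_apply, opX_pow_e n n le_rfl j hj, op_e, if_pos]
  · have h1 : j * (n + 1) + n + 1 = (j + 1) * (n + 1) := by ring
    rw [h1]
  · refine ⟨?_, ?_⟩
    · have : j * (n + 1) + (n + 1) ≤ (n + 1) * (n + 1) := by nlinarith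
      unfold len
      omega
    · rw [decide_eq_true_iff]
      exact ⟨j + 1, by ring⟩

lemma blk_pow_e (n j : ℕ) (hj : j ≤ n + 1) : (blk n ^ j) (e n 0) = e n (j * (n + 1)) := by
  induction j with
  | zero => simp
  | succ j ih =>
    rw [pow_succ', Module.End.mul_apply, ih (by omega), blk_e n j (by omega)]

lemma e_ne (n p : ℕ) : e n p ≠ 0 := by
  simp [e]

/-- The negation of the preceding statement: Every finitely generated associative algebra over a field with polynomially bounded growth (finite GK dimension) has a nilpotent two-sided ideal containing every nilpotent two-sided ideal. -/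
theorem result :
    ¬ (∀ (k : Type) [Field k] (A : Type) [Ring A] [Algebra k A],
      Algebra.FiniteType k A →
      (∃ V : Submodule k A, FiniteDimensional k V ∧ (1 : A) ∈ V ∧
          Algebra.adjoin k (V : Set A) = ⊤ ∧
          ∃ C d : ℕ, ∀ n : ℕ, Module.finrank k ↥(V ^ n) ≤ C * (n + 1) ^ d) →
      ∃ N : TwoSidedIdeal A,
        (∃ m : ℕ, ∀ f : Fin m → A, (∀ i, f i ∈ N) → (List.ofFn f).prod = 0) ∧
        ∀ I : TwoSidedIdeal A,
          (∃ m : ℕ, ∀ f : Fin m → A, (∀ i, f i ∈ I) → (List.ofFn f).prod = 0) → I ≤ N) := by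
  intro H
  have hft : Algebra.FiniteType ℚ A := by
    classical
    exact ⟨⟨{gen true, gen false}, by
      rw [Finset.coe_insert, Finset.coe_singleton]; exact adjoin_gens⟩⟩
  obtain ⟨N, ⟨m, hm⟩, hN⟩ := H ℚ A hft ⟨V, by
      unfold V
      exact FiniteDimensional.span_of_finite ℚ (Set.toFinite ({1, gen true, gen false} : Set A)), Submodule.subset_span (by simp), adjoin_V, 1, 3, fun n => by
      rw [one_mul]; exact finrank_V_pow n⟩
  have hI : w (2 * m) ∈ N := hN (I (2 * m)) (I_nilp _) (w_mem _)
  have hf : w (2 * m) * gen false ^ (2 * m) ∈ N := N.mul_mem_right _ _ hI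
  have h := hm (fun _ => w (2 * m) * gen false ^ (2 * m)) (fun _ => hf)
  rw [List.ofFn_const, List.prod_replicate] at h
  have h2 : (w (2 * m) * gen false ^ (2 * m) : A).1 = blk (2 * m) ^ 2 := by
    rw [pow_two]
    show (op true * op false ^ (2 * m) * op true) * op false ^ (2 * m) = _
    simp only [blk, mul_assoc]
  have h3 : (blk (2 * m) ^ (2 * m)) (e (2 * m) 0) = 0 := by
    rw [pow_mul, ← h2, ← SubmonoidClass.coe_pow, h]
    simp
  rw [blk_pow_e _ _ (by omega)] at h3
  exact e_ne _ _ h3

end Pool.Agent.S02538
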