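import Pool.Statements.S02558
import Pool.Agent.TH555.TwoGen

set_option autoImplicit false
open Pool Pool.MP_a2d0bb_al

namespace Pool.Agent.S02558

/-- The negation of the preceding statement: There is a countable set of increasing homeomorphisms of the real line that is not contained in the subgroup generated by any two increasing homeomorphisms of the real line. -/
theorem result :
    ¬ (∃ S : Set (Equiv.Perm ℝ), S.Countable ∧ (∀ σ ∈ S, StrictMono ⇑σ) ∧
      ∀ f g : Equiv.Perm ℝ, StrictMono ⇑f → StrictMono ⇑g →
        ¬ S ⊆ (Subgroup.closure ({f, g} : Set (Equiv.Perm ℝ)) : Set (Equiv.Perm ℝ))) := by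
  rintro ⟨S, hS, hm, h⟩
  obtain ⟨f, g, hf, hg, hfg⟩ := Pool.Agent.TH555.TwoGen.perm_two_gen S hS hm
  exact h f g hf hg hfg

end Pool.Agent.S02558
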