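import Pool.Statements.S02679
import Pool.Agent.TH72.CF.Tower2
import Pool.Agent.TH72.CF.PrimMain

set_option autoImplicit false
open Pool Pool.MP_acf1dc_al

namespace Pool.Agent.S02679

/-- There is g₀ such that every permutation group G on n points has a 2-coloring whose color-preserving subgroup has a normal series to 1 in which every factor is an alternating group or has order below g₀. -/
theorem result :
    ∃ g₀ : ℕ, ∀ (n : ℕ) (G : Subgroup (Equiv.Perm (Fin n))),
      ∃ c : Fin n → Bool, ∃ k : ℕ, ∃ f : ℕ → Subgroup (Equiv.Perm (Fin n)),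
        (∀ g : Equiv.Perm (Fin n), g ∈ f 0 ↔ (g ∈ G ∧ ∀ x : Fin n, c (g x) = c x)) ∧
        f k = ⊥ ∧
        ∀ i < k, f (i + 1) ≤ f i ∧ ((f (i + 1)).subgroupOf (f i)).Normal ∧
          (((f (i + 1)).subgroupOf (f i)).index < g₀ ∨
            ∃ m : ℕ, ∃ φ : ↥(f i) →* ↥(alternatingGroup (Fin m)),
              Function.Surjective φ ∧ φ.ker = (f (i + 1)).subgroupOf (f i)) := by
  obtain ⟨m₀, hm, hP⟩ := Pool.Agent.TH72.CF.prim_dist
  refine ⟨m₀.factorial + 3, fun n G => ?_⟩
  obtain ⟨c, hc⟩ := Pool.Agent.TH72.CF.tower (g₀ := m₀.factorial + 3) (m₀ := m₀) (by omega) (by omega)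
    (by omega) hP n (Fin n) (Fintype.card_fin n) G
  obtain ⟨k, f, h0, hk, hstep⟩ := Pool.Agent.TH72.CF.good_chain hc
  refine ⟨c, k, f, fun g => ?_, hk, fun i hi => hstep i hi⟩
  rw [h0]
  exact Iff.rfl

end Pool.Agent.S02679
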