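import Pool.Statements.S02695
import Pool.Agent.TH42.MC.Growth
import Pool.Agent.TH42.MC.Asym

set_option autoImplicit false
open Pool Pool.MP_aed2d0_al

namespace Pool.Agent.S02695

open Pool.Agent.TH42.MC

theorem aN_le_pow (F : Type) [Field F] (k n : ℕ) : aN F k n ≤ (k * k) ^ n := by
  have h1 := Submodule.finrank_le (II k F (Fin n))
  rw [Module.finrank_fintype_fun_eq_card, card_wd, Fintype.card_fin] at h1
  exact h1

theorem limit (F : Type) [Field F] [CharZero F] (k : ℕ) (hk : 1 ≤ k) :
    Filter.Tendsto (fun n : ℕ => (Module.finrank F ((Mon F k n).map (post F k n)) : ℝ) /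
      (Module.finrank F (Mon F k n) : ℝ)) Filter.atTop (nhds (1 - 1 / ((k : ℝ) * k))) := by
  have hk' : (1 : ℝ) ≤ k := by exact_mod_cast hk
  have hm : (1 : ℝ) ≤ (k : ℝ) * k := by nlinarith
  have hcast : (((k * k) ^ qB k - 1 : ℕ) : ℝ) = ((k : ℝ) * k) ^ qB k - 1 := by
    have h1 : 1 ≤ (k * k) ^ qB k := Nat.one_le_pow _ _ (by nlinarith)
    rw [Nat.cast_sub h1]
    push_cast
    ring
  have heq : ∀ n, aN ℝ k n = aN F k n := fun n => aN_eq k n ℝ F
  have hgrN : ∀ n : ℕ, ((k : ℝ) * k) ^ n ≤ ((n : ℝ) + 1) ^ (k * k + 2 * k) * (aN F k n : ℝ) := by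
    intro n
    have h1 := aN_growth k n hk
    rw [heq] at h1
    exact_mod_cast h1
  refine final_limit hm (k * k + 2 * k) (qB k) (qB_pos hk) (a := fun n => (aN F k n : ℝ))
    (D := fun n => (Module.finrank F (Kr F k n) : ℝ)) ?_ ?_ ?_ hgrN ?_ ?_ ?_ ?_ ?_
  · intro n
    have h1 := hgrN n
    have h2 : (0 : ℝ) < ((k : ℝ) * k) ^ n := by positivity
    by_contra h3
    push Not at h3
    have h4 : ((n : ℝ) + 1) ^ (k * k + 2 * k) * (aN F k n : ℝ) ≤ 0 :=
      mul_nonpos_of_nonneg_of_nonpos (by positivity) h3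
    linarith
  · intro n
    have h1 := aN_logconv k n
    rw [heq, heq, heq] at h1
    exact_mod_cast h1
  · intro n
    have h1 := aN_le_pow F k n
    exact_mod_cast h1
  · intro n
    exact_mod_cast Mon_finrank_le (F := F) (k := k) n
  · intro n
    have h1 := bound_one' (F := F) hk n
    have h2 := le_Mon_finrank (F := F) (k := k) n
    have h3 : aN F k (n + 1) ≤ Module.finrank F (Mon F k n) +
      ((k * k) ^ qB k - 1) ^ (n / qB k) * (k * k) ^ (n % qB k + 1) := by omega
    have h4 : (aN F k (n + 1) : ℝ) ≤ (Module.finrank F (Mon F k n) : ℝ) +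
      (((k * k) ^ qB k - 1 : ℕ) : ℝ) ^ (n / qB k) * ((k : ℝ) * k) ^ (n % qB k + 1) := by
      exact_mod_cast h3
    rw [hcast] at h4
    exact h4
  · intro n
    exact_mod_cast Kr_finrank_le (F := F) hk n
  · intro n
    have h1 := bound_two' (F := F) hk n
    have h2 := le_Kr_finrank (F := F) hk n
    have h3 : aN F k n ≤ Module.finrank F (Kr F k n) +
      ((k * k) ^ qB k - 1) ^ (n / qB k) * (k * k) ^ (n % qB k) := by omega
    have h4 : (aN F k n : ℝ) ≤ (Module.finrank F (Kr F k n) : ℝ) +
      (((k * k) ^ qB k - 1 : ℕ) : ℝ) ^ (n / qB k) * ((k : ℝ) * k) ^ (n % qB k) := by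
      exact_mod_cast h3
    rw [hcast] at h4
    exact h4
  · intro n
    exact_mod_cast finrank_add (F := F) (k := k) n

/-- For every characteristic-zero field F and k ≥ 1, the ratio of central codimensions to ordinary codimensions of k×k matrices over F converges to some real limit between 0 and 1 as n goes to infinity. -/
theorem result :
    ∀ (F : Type) [Field F] [CharZero F] (k : ℕ), 1 ≤ k →
      ∃ α : ℝ, 0 ≤ α ∧ α ≤ 1 ∧
        Filter.Tendsto (fun n : ℕ =>
          (Module.finrank F (Submodule.span F (Set.range (fun σ : Equiv.Perm (Fin n) =>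
              fun x : Fin n → Matrix (Fin k) (Fin k) F =>
                Submodule.mkQ (Subalgebra.toSubmodule (Subalgebra.center F (Matrix (Fin k) (Fin k) F)))
                  (List.ofFn (fun i => x (σ i))).prod))) : ℝ) /
          (Module.finrank F (Submodule.span F (Set.range (fun σ : Equiv.Perm (Fin n) =>
              fun x : Fin n → Matrix (Fin k) (Fin k) F =>
                (List.ofFn (fun i => x (σ i))).prod))) : ℝ))
          Filter.atTop (nhds α) := by
  intro F _ _ k hk
  have hk' : (1 : ℝ) ≤ k := by exact_mod_cast hk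
  have hm : (1 : ℝ) ≤ (k : ℝ) * k := by nlinarith
  have hm0 : (0 : ℝ) < (k : ℝ) * k := by linarith
  refine ⟨1 - 1 / ((k : ℝ) * k), ?_, ?_, ?_⟩
  · rw [sub_nonneg, div_le_one hm0]
    exact hm
  · have : 0 ≤ 1 / ((k : ℝ) * k) := by positivity
    linarith
  · have h1 := limit F k hk
    refine h1.congr fun n => ?_
    rw [map_post]
    rfl

end Pool.Agent.S02695
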