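import Pool.Statements.S02870
import Pool.Agent.TH64.AppA3

set_option autoImplicit false
open scoped Pointwise
open Pool Pool.MP_ba2ef4_al

namespace Pool.Agent.S02870

open Pool.Agent.TH64 Pool.Agent.TH64.AppA

/-- The negation of the preceding statement: For a prime p, a finitely generated group G and a core-free p-subgroup H with HK = KH for every subgroup K, every element of G has a p-power lying in the centralizer of the normal closure of H. -/
theorem result :
    ¬ (∀ (p : ℕ), p.Prime → ∀ (G : Type) [Group G], Group.FG G →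
      ∀ H : Subgroup G, IsPGroup p H → H.normalCore = ⊥ →
        (∀ K : Subgroup G, (H : Set G) * (K : Set G) = (K : Set G) * (H : Set G)) →
          ∀ g : G, ∃ k : ℕ,
            g ^ (p ^ k) ∈ Subgroup.centralizer (Subgroup.normalClosure (H : Set G) : Set G)) := by
  intro hall
  obtain ⟨R, hRn, hRV, hR⟩ := limit hyps inv_bot
  set π := QuotientGroup.mk' R with hπ
  have hπs : Function.Surjective π := QuotientGroup.mk'_surjective R
  have hπ1 : ∀ g, π g = 1 ↔ g ∈ R := fun g => QuotientGroup.eq_one_iff g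
  -- the module element with coordinates `v`
  let ι : E → GG := fun v => SemidirectProduct.inl (Multiplicative.ofAdd v)
  have hιV : ∀ v, ι v ∈ VV := fun v => (mem_VV _).2 ⟨v, rfl⟩
  have hιadd : ∀ v w, ι (v + w) = ι v * ι w := by
    intro v w
    show SemidirectProduct.inl (Multiplicative.ofAdd (v + w)) = _
    rw [ofAdd_add, map_mul]
  have hιinj : ∀ v w, ι v = ι w → v = w := by
    intro v w h
    exact Multiplicative.ofAdd.injective (SemidirectProduct.inl_injective h)
  have hι0 : ι 0 = 1 := by
    show SemidirectProduct.inl (Multiplicative.ofAdd 0) = 1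
    rw [ofAdd_zero, map_one]
  have hιneg : ∀ v, ι (-v) = (ι v)⁻¹ := by
    intro v
    apply eq_inv_of_mul_eq_one_left
    rw [← hιadd, neg_add_cancel, hι0]
  have hinjV : ∀ v w, π (ι v) = π (ι w) → v = w := by
    intro v w h
    apply hιinj
    have h1 : π ((ι v)⁻¹ * ι w) = 1 := by rw [map_mul, map_inv, h, inv_mul_cancel]
    have h2 := hRV _ ((hπ1 _).1 h1) (VV.mul_mem (VV.inv_mem (hιV v)) (hιV w))
    exact inv_mul_eq_one.1 h2
  -- the action
  have hconj : ∀ (g : GG), ∃ s : ZMod 3 → ZMod 3, s 0 * s 1 * s 2 = 1 ∧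
      ∀ v : E, g * ι v = ι (fun i => s i * v (i - (cc g.right).toAdd)) * g := by
    intro g
    obtain ⟨s, hs, hact⟩ := mono_act g.right
    refine ⟨s, hs, fun v => ?_⟩
    show g * SemidirectProduct.inl (Multiplicative.ofAdd v) = _
    rw [conj_inl]
    congr 2
    apply Multiplicative.toAdd.injective
    funext i
    exact hact v i
  -- the subgroup `H`
  let H0 : Subgroup GG :=
    { carrier := {g | ∃ v : E, v 0 = 0 ∧ g = ι v}
      mul_mem' := by
        rintro _ _ ⟨v, hv, rfl⟩ ⟨w, hw, rfl⟩
        exact ⟨v + w, by simp [hv, hw], (hιadd v w).symm⟩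
      one_mem' := ⟨0, rfl, hι0.symm⟩
      inv_mem' := by
        rintro _ ⟨v, hv, rfl⟩
        exact ⟨-v, by simp [hv], (hιneg v).symm⟩ }
  set H := H0.map π with hH
  have memH : ∀ v : E, v 0 = 0 → π (ι v) ∈ H := fun v hv => ⟨ι v, ⟨v, hv, rfl⟩, rfl⟩
  have hpg : IsPGroup 3 H := by
    intro x
    refine ⟨1, ?_⟩
    obtain ⟨_, ⟨v, hv, rfl⟩, hx⟩ := x.2
    apply Subtype.ext
    rw [Subgroup.coe_pow, ← hx, ← map_pow, pow_one, hyps.exp _ (hιV v), map_one]
    rfl
  have hprime : Nat.Prime 3 := by norm_num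
  have hfg : Group.FG (GG ⧸ R) := by
    have := fg_GG
    exact QuotientGroup.fg R
  -- core-free
  have hcore : H.normalCore = ⊥ := by
    rw [eq_bot_iff]
    intro x hx
    have hx1 : ∀ g : GG ⧸ R, g * x * g⁻¹ ∈ H := by
      intro g
      exact hx g
    obtain ⟨_, ⟨v, hv, rfl⟩, hxv⟩ := Subgroup.normalCore_le H hx
    -- use the generator of the free group
    have key : ∀ (g : GG), v (0 - (cc g.right).toAdd) = 0 := by
      intro g
      obtain ⟨s, hs, hact⟩ := hconj g
      obtain ⟨_, ⟨w, hw, rfl⟩, hgw⟩ := hx1 (π g)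
      rw [← hxv, ← map_mul, hact v, ← map_inv, ← map_mul, mul_inv_cancel_right] at hgw
      have h1 := hinjV _ _ hgw
      have h2 := congrFun h1 0
      rw [hw] at h2
      have h3 : ∀ a b c : ZMod 3, a * b * c = 1 → a ≠ 0 := by decide
      have h4 : ∀ a b : ZMod 3, 0 = a * b → a ≠ 0 → b = 0 := by decide
      exact h4 _ _ h2 (h3 _ _ _ hs)
    have ka : v (0 - 1) = 0 := by
      have := key (SemidirectProduct.inr (FreeGroup.of 0))
      simpa [cc] using this
    have kaa : v (0 - 2) = 0 := by
      have := key (SemidirectProduct.inr (FreeGroup.of 0 * FreeGroup.of 0))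
      have e : (cc (FreeGroup.of 0 * FreeGroup.of 0 : FreeGroup (Fin 2))).toAdd = (2 : ZMod 3) := by
        rw [map_mul]
        simp only [cc, FreeGroup.lift_apply_of, if_true]
        decide
      rw [SemidirectProduct.right_inr, e] at this
      exact this
    have hv0 : v = 0 := by
      funext i
      rw [show (0 : ZMod 3) - 1 = 2 by decide] at ka
      rw [show (0 : ZMod 3) - 2 = 1 by decide] at kaa
      rcases E_all i with h | h | h <;> rw [h]
      · exact hv
      · exact kaa
      · exact ka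
    rw [Subgroup.mem_bot, ← hxv, hv0, hι0, map_one]
  -- permutability
  have hcyc : ∀ g h : GG ⧸ R, h ∈ H → ∃ h' ∈ H, ∃ i : ℤ, g * h = h' * g ^ i := by
    intro g h hh
    obtain ⟨g, rfl⟩ := hπs g
    obtain ⟨_, ⟨v, hv, rfl⟩, rfl⟩ := hh
    obtain ⟨s, hs, hact⟩ := hconj g
    by_cases hg : g ∈ KK
    · have hc := (mem_KK g).1 hg
      refine ⟨π (ι fun i => s i * v (i - (cc g.right).toAdd)), memH _ ?_, 1, ?_⟩
      · show s 0 * v (0 - (cc g.right).toAdd) = 0
        rw [hc, sub_zero, hv, mul_zero]
      · rw [← map_mul, hact v, map_mul, zpow_one]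
    · obtain ⟨k, u, huV, hu1, huk⟩ := hR g hg
      obtain ⟨u, rfl⟩ := (mem_VV _).1 huV
      set c := (cc g.right).toAdd with hcdef
      have hc0 : c ≠ 0 := fun h => hg ((mem_KK g).2 h)
      have hgk : π g ^ k = π (ι u) := by
        rw [← map_pow]
        have h1 : π ((ι u)⁻¹ * g ^ k) = 1 := (hπ1 _).2 huk
        rw [map_mul, map_inv] at h1
        exact (inv_mul_eq_one.1 h1).symm
      -- `u` is fixed by `g`
      have hfix : ∀ i, s i * u (i - c) = u i := by
        intro i
        have h1 : π (g * ι u) = π (ι u * g) := by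
          rw [map_mul, map_mul, ← hgk, ← pow_succ, ← pow_succ']
        rw [hact u, map_mul, map_mul] at h1
        exact congrFun (hinjV _ _ (mul_right_cancel h1)) i
      have hu0 : u 0 ≠ 0 := by
        intro h0
        apply hu1
        have h1 : u c = 0 := by
          rw [← hfix c, sub_self, h0, mul_zero]
        have h2 : u (c + c) = 0 := by
          rw [← hfix (c + c), add_sub_cancel_right, h1, mul_zero]
        have hc2 : ∀ c : ZMod 3, c ≠ 0 → ∀ i : ZMod 3, i = 0 ∨ i = c ∨ i = c + c := by decide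
        have h3 : u = 0 := by
          funext i
          rcases hc2 c hc0 i with h | h | h <;> rw [h] <;> assumption
        rw [h3]
        exact hι0
      -- decompose
      obtain ⟨l, hl⟩ : ∃ l : ℕ, s 0 * v (0 - c) - (l : ZMod 3) * u 0 = 0 := by
        have h1 : ∀ a b : ZMod 3, b ≠ 0 → ∃ l : ZMod 3, a - l * b = 0 := by decide
        obtain ⟨l, hl⟩ := h1 (s 0 * v (0 - c)) (u 0) hu0
        exact ⟨l.val, by rw [ZMod.natCast_zmod_val]; exact hl⟩
      refine ⟨π (ι (fun i => s i * v (i - c) - (l : ZMod 3) * u i)), memH _ hl, (k * l + 1 : ℕ), ?_⟩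
      have h2 : (ι fun i => s i * v (i - c)) =
          (ι fun i => s i * v (i - c) - (l : ZMod 3) * u i) * (ι u) ^ l := by
        have h3 : (ι u) ^ l = ι (fun i => (l : ZMod 3) * u i) := by
          show (SemidirectProduct.inl (Multiplicative.ofAdd u)) ^ l = _
          rw [← map_pow, ← ofAdd_nsmul]
          congr 2
          funext i
          show l • u i = _
          rw [nsmul_eq_mul]
        rw [h3, ← hιadd]
        congr 1
        funext i
        simp
      rw [← map_mul, hact v, h2, zpow_natCast, pow_succ, pow_mul, hgk, map_mul, map_mul, map_pow,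
        mul_assoc]
  have hperm : ∀ K : Subgroup (GG ⧸ R),
      (H : Set (GG ⧸ R)) * (K : Set (GG ⧸ R)) = (K : Set (GG ⧸ R)) * (H : Set (GG ⧸ R)) := by
    intro K
    have h1 : ∀ k ∈ K, ∀ h ∈ H, k * h ∈ (H : Set (GG ⧸ R)) * (K : Set (GG ⧸ R)) := by
      intro k hk h hh
      obtain ⟨h', hh', i, hi⟩ := hcyc k h hh
      rw [hi]
      exact Set.mul_mem_mul hh' (K.zpow_mem hk i)
    apply Set.Subset.antisymm
    · rintro _ ⟨h, hh, k, hk, rfl⟩
      have h2 := h1 k⁻¹ (K.inv_mem hk) h⁻¹ (H.inv_mem hh)
      obtain ⟨h', hh', k', hk', he⟩ := h2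
      have h3 : h * k = k'⁻¹ * h'⁻¹ := by
        have he' : h' * k' = k⁻¹ * h⁻¹ := he
        rw [← mul_inv_rev, he']
        group
      show h * k ∈ _
      rw [h3]
      exact Set.mul_mem_mul (K.inv_mem hk') (H.inv_mem hh')
    · rintro _ ⟨k, hk, h, hh, rfl⟩
      exact h1 k hk h hh
  -- the contradiction
  obtain ⟨k, hk⟩ := hall 3 hprime (GG ⧸ R) hfg H hpg hcore hperm
    (π (SemidirectProduct.inr (FreeGroup.of 1)))
  set b : GG := SemidirectProduct.inr (FreeGroup.of 1) with hb
  have hv1 : π (ι (Pi.single 1 1)) ∈ Subgroup.normalClosure (H : Set (GG ⧸ R)) :=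
    Subgroup.subset_normalClosure (memH _ (Pi.single_eq_of_ne (by decide) _))
  have h1 := Subgroup.mem_centralizer_iff.1 hk _ hv1
  rw [← map_pow, ← map_mul, ← map_mul] at h1
  have h2 : ∀ n : ℕ, Odd n → b ^ n * ι (Pi.single 1 1) = ι (-(Pi.single 1 1)) * b ^ n := by
    have h3 : ∀ v : E, b * ι v = ι (fun i => sgn i * v i) * b := by
      intro v
      show b * SemidirectProduct.inl (Multiplicative.ofAdd v) = _
      rw [conj_inl]
      congr 2
    have h4 : b * ι (Pi.single 1 1) = ι (-(Pi.single 1 1)) * b := by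
      rw [h3]
      congr 2
      decide
    have h5 : b * ι (-(Pi.single 1 1)) = ι (Pi.single 1 1) * b := by
      rw [h3]
      congr 2
      decide
    rintro n ⟨m, rfl⟩
    induction m with
    | zero => simpa using h4
    | succ m ih =>
      have e : b ^ (2 * (m + 1) + 1) = b * (b * b ^ (2 * m + 1)) := by
        rw [← pow_succ', ← pow_succ']
        congr 1
      rw [e]
      calc b * (b * b ^ (2 * m + 1)) * ι (Pi.single 1 1)
          = b * (b * (b ^ (2 * m + 1) * ι (Pi.single 1 1))) := by simp only [mul_assoc]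
        _ = b * ((b * ι (-(Pi.single 1 1))) * b ^ (2 * m + 1)) := by
          rw [ih]
          simp only [mul_assoc]
        _ = (b * ι (Pi.single 1 1)) * (b * b ^ (2 * m + 1)) := by
          rw [h5]
          simp only [mul_assoc]
        _ = _ := by
          rw [h4]
          simp only [mul_assoc]
  rw [h2 (3 ^ k) (Odd.pow (by decide)), map_mul, map_mul] at h1
  have h3 := hinjV _ _ (mul_right_cancel h1)
  have h4 := congrFun h3 1
  exact absurd h4 (by decide)

end Pool.Agent.S02870
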