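import Pool.Statements.S02882
import Pool.Agent.Results.MP_738270_al.SomeGenSet
import Pool.Agent.TH106.FreeCW

set_option autoImplicit false
open Pool Pool.MP_bb0bfc_al

namespace Pool.Agent.S02882

open Pool.Agent.Results.MP_738270_al.SomeGenSet
open scoped Pointwise

/-- palindromic words in the list form of the statement -/
lemma exists_list {G : Type} [Group G] {X : Set G} {g : G} (h : IsPalindrome X g) :
    ∃ w : List G, (w.reverse = w ∧ ∀ x ∈ w, x ∈ X ∨ x⁻¹ ∈ X) ∧ w.prod = g := by
  obtain ⟨w, hw, rfl⟩ := h
  refine ⟨w.map fun a => cond a.2 (a.1 : G) (a.1 : G)⁻¹, ⟨?_, ?_⟩, rfl⟩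
  · rw [← List.map_reverse, hw]
  · intro x hx
    rw [List.mem_map] at hx
    obtain ⟨⟨⟨a, ha⟩, b⟩, _, rfl⟩ := hx
    cases b
    · right; simpa using ha
    · left; simpa using ha

lemma width {G : Type} [Group G] [DecidableEq G] (B : Finset G)
    (hgen : Subgroup.closure (B : Set G) = ⊤) :
    ∃ S : Finset G, Subgroup.closure (S : Set G) = ⊤ ∧
        ∃ n : ℕ, ∀ g : G, ∃ L : List (List G), L.length ≤ n ∧
          (∀ w ∈ L, w.reverse = w ∧ ∀ x ∈ w, x ∈ S ∨ x⁻¹ ∈ S) ∧
          (L.map List.prod).prod = g := by
  refine ⟨B ∪ B * B, ?_, B.card + 1, fun g => ?_⟩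
  · rw [Finset.coe_union, Finset.coe_mul, eq_top_iff, ← hgen]
    exact Subgroup.closure_mono Set.subset_union_left
  · obtain ⟨f, hf⟩ := exists_powers B hgen g
    have hp := isPalindrome_of_mem _ (commutator_le (B : Set G) hgen hf)
    obtain ⟨w0, h0, h0'⟩ := exists_list hp
    have hpow : ∀ a ∈ B, ∃ w : List G, (w.reverse = w ∧
        ∀ x ∈ w, x ∈ ((B : Set G) ∪ (B : Set G) * (B : Set G)) ∨
          x⁻¹ ∈ ((B : Set G) ∪ (B : Set G) * (B : Set G))) ∧ w.prod = a ^ f a := by
      intro a ha
      have ha' : a ∈ ((B : Set G) ∪ (B : Set G) * (B : Set G)) :=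
        Set.mem_union_left _ (Finset.mem_coe.2 ha)
      exact exists_list (isPalindrome_zpow _ ha' _)
    choose! W hW1 hW2 using hpow
    refine ⟨B.toList.map W ++ [w0], by simp, ?_, ?_⟩
    · intro w hw
      have key : w.reverse = w ∧ ∀ x ∈ w, x ∈ ((B : Set G) ∪ (B : Set G) * (B : Set G)) ∨
          x⁻¹ ∈ ((B : Set G) ∪ (B : Set G) * (B : Set G)) := by
        rw [List.mem_append, List.mem_map, List.mem_singleton] at hw
        rcases hw with ⟨a, ha, rfl⟩ | rfl
        · exact hW1 a (Finset.mem_toList.1 ha)
        · exact h0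
      refine ⟨key.1, fun x hx => ?_⟩
      have := key.2 x hx
      rw [← Finset.coe_mul, ← Finset.coe_union, Finset.mem_coe, Finset.mem_coe] at this
      exact this
    · rw [List.map_append, List.prod_append, List.map_map]
      have e : B.toList.map (List.prod ∘ W) = B.toList.map fun a => a ^ f a := by
        apply List.map_congr_left
        intro a ha
        exact hW2 a (Finset.mem_toList.1 ha)
      rw [e]
      simp [h0']

/-- The negation of the preceding statement: For every finitely generated group G: some finite generating set gives a uniform bound on the number of palindromic words needed to write any element iff there is a uniform bound on the number of commutators needed to write any element of the derived subgroup. -/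
theorem result :
    ¬ (∀ (G : Type) [Group G] [Group.FG G],
      (∃ S : Finset G, Subgroup.closure (S : Set G) = ⊤ ∧
        ∃ n : ℕ, ∀ g : G, ∃ L : List (List G), L.length ≤ n ∧
          (∀ w ∈ L, w.reverse = w ∧ ∀ x ∈ w, x ∈ S ∨ x⁻¹ ∈ S) ∧
          (L.map List.prod).prod = g) ↔
      (∃ n : ℕ, ∀ g ∈ commutator G, ∃ l : List G, l.length ≤ n ∧
          (∀ c ∈ l, c ∈ commutatorSet G) ∧ l.prod = g)) := by
  intro h
  classical
  have h1 := (h (FreeGroup Bool)).1 (width (Finset.univ.image (FreeGroup.of : Bool → _)) (by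
    rw [Finset.coe_image, Finset.coe_univ, Set.image_univ]
    exact FreeGroup.closure_range_of Bool))
  exact Pool.Agent.TH106.FreeCW.infinite_width h1

end Pool.Agent.S02882
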