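import Pool.Statements.S02896
import Pool.Agent.TH93.BccC

set_option autoImplicit false
open Pool Pool.MP_bcc336_al

namespace Pool.Agent.S02896

open Pool.Agent.W387 Pool.Agent.W387.SqSys Pool.Agent.TH93.Bcc

/-- The negation of the preceding statement: Every CAT(0) cube complex (as a median graph) with a proper cocompact cubical group action embeds as a convex subcomplex of the universal cover of the Salvetti complex of some RAAG on a finite graph, i.e. convexly into the RAAG's standard Cayley graph. -/
theorem result :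
    ¬ (∀ (V : Type) (G : SimpleGraph V) (H : Type) [Group H] [MulAction H V],
    G.Connected →
    (∀ x y z : V, ∃! m : V,
        G.dist x m + G.dist m y = G.dist x y ∧
        G.dist y m + G.dist m z = G.dist y z ∧
        G.dist x m + G.dist m z = G.dist x z) →
    (∀ v : V, (G.neighborSet v).Finite) →
    (∀ (h : H) (x y : V), G.Adj (h • x) (h • y) ↔ G.Adj x y) →
    (∀ v : V, (MulAction.stabilizer H v : Set H).Finite) →
    Finite (MulAction.orbitRel.Quotient H V) →
    ∃ (n : ℕ) (Γ : SimpleGraph (Fin n)) (R : Set (FreeGroup (Fin n))),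
      R = {r | ∃ i j : Fin n, Γ.Adj i j ∧
        r = FreeGroup.of i * FreeGroup.of j * (FreeGroup.of i)⁻¹ * (FreeGroup.of j)⁻¹} ∧
      ∃ (C : SimpleGraph (PresentedGroup R)),
        (∀ g h : PresentedGroup R, C.Adj g h ↔
          (g ≠ h ∧ ∃ i : Fin n, h = g * PresentedGroup.of i ∨ g = h * PresentedGroup.of i)) ∧
        ∃ f : G ↪g C,
          ∀ a b c : PresentedGroup R, a ∈ Set.range f → b ∈ Set.range f →
            C.dist a c + C.dist c b = C.dist a b → c ∈ Set.range f) := by
  intro hall
  have h1 : ∀ x y z : SS.Vx, ∃! m : SS.Vx,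
        SS.Cay.dist x m + SS.Cay.dist m y = SS.Cay.dist x y ∧
        SS.Cay.dist y m + SS.Cay.dist m z = SS.Cay.dist y z ∧
        SS.Cay.dist x m + SS.Cay.dist m z = SS.Cay.dist x z := by
    intro x y z
    simp only [cay_dist]
    obtain ⟨m, hm, hm2⟩ := medD.existsUnique x.g y.g z.g
    exact ⟨⟨m⟩, hm, fun m' hm' => Vx.ext (hm2 m'.g hm')⟩
  have h2 : ∀ v : SS.Vx, (SS.Cay.neighborSet v).Finite := by
    intro v
    apply Set.Finite.subset (Set.finite_range (fun a => (⟨SS.gn a * v.g⟩ : SS.Vx)))
    rintro w ⟨a, h⟩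
    exact ⟨a, Vx.ext h.symm⟩
  have h3 : ∀ (h : SS.Grp) (x y : SS.Vx), SS.Cay.Adj (h • x) (h • y) ↔ SS.Cay.Adj x y := by
    intro g x y
    constructor
    · rintro ⟨a, h⟩
      refine ⟨a, ?_⟩
      rw [smul_def, smul_def] at h
      have h4 : y.g * g⁻¹ = SS.gn a * (x.g * g⁻¹) := h
      rw [← mul_assoc] at h4
      exact mul_right_cancel h4
    · rintro ⟨a, h⟩
      refine ⟨a, ?_⟩
      rw [smul_def, smul_def, h, mul_assoc]
  have h4 : ∀ v : SS.Vx, (MulAction.stabilizer SS.Grp v : Set SS.Grp).Finite := by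
    intro v
    apply Set.Finite.subset (Set.finite_singleton (1 : SS.Grp))
    intro g hg
    have h1 : g • v = v := hg
    rw [smul_def] at h1
    have h2 : v.g * g⁻¹ = v.g := congrArg Vx.g h1
    have h3 : g = 1 := by simpa using h2
    exact h3
  have h5 : Finite (MulAction.orbitRel.Quotient SS.Grp SS.Vx) := by
    have hs : Subsingleton (MulAction.orbitRel.Quotient SS.Grp SS.Vx) := by
      refine ⟨fun p q => ?_⟩
      induction p using Quotient.inductionOn' with
      | h v =>
      induction q using Quotient.inductionOn' with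
      | h w =>
      apply Quotient.sound'
      show v ∈ MulAction.orbit SS.Grp w
      refine ⟨v.g⁻¹ * w.g, ?_⟩
      show (v.g⁻¹ * w.g) • w = v
      rw [smul_def]
      apply Vx.ext
      simp
    infer_instance
  obtain ⟨n, Γ, R, rfl, C, hC, f, hf⟩ := hall SS.Vx SS.Cay SS.Grp cay_connected h1 h2 h3 h4 h5
  exact no_embed (Γ := Γ) (C := C) hC f hf

end Pool.Agent.S02896
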