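import Pool.Statements.S02970
import Pool.Agent.TH65.Sharp

set_option autoImplicit false
open Pool Pool.MP_c1ff13_al

namespace Pool.Agent.S02970

/-- The negation of the preceding statement: Every sharply 2-transitive permutation group on a set of at least two points whose point stabilizer is locally finite contains a subgroup, normal in it, acting regularly (exactly one element maps any point to any point). -/
theorem result :
    ¬ (∀ (Ω : Type) [Nontrivial Ω] (G : Subgroup (Equiv.Perm Ω)),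
      (∀ a b c d : Ω, a ≠ b → c ≠ d →
        ∃! g : Equiv.Perm Ω, g ∈ G ∧ g a = c ∧ g b = d) →
      (∃ ω : Ω, ∀ s : Finset (Equiv.Perm Ω), (∀ g ∈ s, g ∈ G ∧ g ω = ω) →
        ((Subgroup.closure (s : Set (Equiv.Perm Ω)) : Subgroup (Equiv.Perm Ω)) :
          Set (Equiv.Perm Ω)).Finite) →
      ∃ N : Subgroup (Equiv.Perm Ω), N ≤ G ∧
        (∀ g ∈ G, ∀ n ∈ N, g * n * g⁻¹ ∈ N) ∧
        ∀ a b : Ω, ∃! n : Equiv.Perm Ω, n ∈ N ∧ n a = b) := by
  intro h
  obtain ⟨Ω, hΩ, G, h1, h2, h3⟩ := Pool.Agent.TH65.sharp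
  exact h3 (@h Ω hΩ G h1 h2)

end Pool.Agent.S02970
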