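import Pool.Statements.S03029
import Pool.Agent.TH112.FL.Final

set_option autoImplicit false
open Pool Pool.MP_c94587_al

namespace Pool.Agent.S03029

/-- SL(3,Z) has a finite presentation and a constant C such that every word trivial in the group can be reduced to the empty word by inserting or deleting cancelling letter pairs or relators, with every intermediate word of length at most C·(length)+C. -/
theorem result :
  ∃ (k : ℕ) (R : Finset (FreeGroup (Fin k))),
    Nonempty (PresentedGroup (R : Set (FreeGroup (Fin k))) ≃* Matrix.SpecialLinearGroup (Fin 3) ℤ) ∧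
    ∃ C : ℕ, ∀ w : List (Fin k × Bool),
      FreeGroup.mk w ∈ Subgroup.normalClosure (R : Set (FreeGroup (Fin k))) →
      ∃ (m : ℕ) (s : ℕ → List (Fin k × Bool)), s 0 = w ∧ s m = [] ∧
        (∀ i ≤ m, (s i).length ≤ C * w.length + C) ∧
        ∀ i < m, ∃ (a b c : List (Fin k × Bool)),
          ((∃ x : Fin k × Bool, c = [x, (x.1, !x.2)]) ∨
            ∃ r ∈ R, (c = r.toWord ∨ c = r⁻¹.toWord)) ∧
          ((s i = a ++ b ∧ s (i + 1) = a ++ c ++ b) ∨
            (s i = a ++ c ++ b ∧ s (i + 1) = a ++ b)) :=
  Pool.Agent.TH112.FL.final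

end Pool.Agent.S03029
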