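import Pool.Statements.S03052
import Pool.Agent.TH37.RE

set_option autoImplicit false
open Pool Pool.MP_cacfbf_al

namespace Pool.Agent.S03052

open Pool.Agent.TH37.RE

attribute [local instance 100] LieRing.ofAssociativeRing

/-- `gl_3` over the field with three elements -/
abbrev L := Matrix (Fin 3) (Fin 3) F3

/-- the third power map -/
def cube (x : L) : L := x ^ 3

/-- the restricted enveloping algebra of `gl_3` -/
abbrev Q := RingQuot (fun a b : UniversalEnvelopingAlgebra F3 L =>
  ∃ x : L, a = UniversalEnvelopingAlgebra.ι F3 x ^ 3 ∧ b = UniversalEnvelopingAlgebra.ι F3 (cube x))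

/-- the canonical map from `gl_3` to its restricted enveloping algebra -/
noncomputable def π (x : L) : Q := RingQuot.mkAlgHom F3 _ (UniversalEnvelopingAlgebra.ι F3 x)

theorem π_cube (x : L) : π x ^ 3 = π (x ^ 3) := by
  rw [π, ← map_pow]
  exact RingQuot.mkAlgHom_rel F3 ⟨x, rfl, rfl⟩

theorem π_lie (x y : L) : π (x * y - y * x) = π x * π y - π y * π x := by
  have h : (x * y - y * x) = ⁅x, y⁆ := rfl
  rw [π, h, LieHom.map_lie, LieRing.of_associative_ring_bracket, map_sub, map_mul, map_mul]
  rfl

/-- the natural representation -/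
noncomputable def ρ : Q →ₐ[F3] L :=
  RingQuot.liftAlgHom F3 ⟨UniversalEnvelopingAlgebra.lift F3 (LieHom.id : L →ₗ⁅F3⁆ L), by
    rintro _ _ ⟨x, rfl, rfl⟩
    rw [map_pow, UniversalEnvelopingAlgebra.lift_ι_apply, UniversalEnvelopingAlgebra.lift_ι_apply]
    rfl⟩

theorem ρ_π (x : L) : ρ (π x) = x := by
  rw [ρ, π, RingQuot.liftAlgHom_mkAlgHom_apply, UniversalEnvelopingAlgebra.lift_ι_apply]
  rfl

def H : L := !![0,0,0;0,1,0;0,0,2]
def Y : L := !![0,0,1;1,0,0;0,1,0]

theorem exists_ab : ∃ a b : Q, a * a = 0 ∧ b * b = 0 ∧ a * b * a = a ∧ b * a * b = b ∧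
    ρ (a * b - b * a) = !![1,0,0;0,2,0;0,0,0] := by
  obtain ⟨a, b, ha, hb, h1, h2, h4, h5⟩ := exists_units (three_eq_zero Q) (π H) (π Y) (π 1)
    (by
      have h := π_lie H Y
      have h' : H * Y - Y * H = Y := by decide
      rw [h'] at h
      have h2 : π H * π Y = π Y * π H + (π H * π Y - π Y * π H) := by abel
      rw [h2, ← h])
    (by rw [π_cube]; congr 1; decide) (by rw [π_cube]; congr 1; decide)
    (by rw [π_cube]; congr 1; decide)
  refine ⟨a, b, h1, h2, h4, h5, ?_⟩
  rw [ha, hb]
  simp only [map_sub, map_mul, map_pow, map_neg, map_add, map_one, ρ_π]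
  decide

/-- The negation of the preceding statement: For every prime p, field F of char p, Lie p-algebra L and PI non-unital subalgebra R of u(L): if n is the least positive integer such that some power of the standard polynomial S_2n vanishes on R, then n is a power of p. -/
theorem result :
    ¬ (∀ (p : ℕ), p.Prime → ∀ (F : Type) [Field F] [CharP F p] (L : Type) [LieRing L] [LieAlgebra F L]
    (f : L → L),
    (∀ (a : F) (x : L), f (a • x) = a ^ p • f x) →
    (∀ x y : L, (LieAlgebra.ad F L x ^ p) y = ⁅f x, y⁆) →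
    (∀ x y : L,
      UniversalEnvelopingAlgebra.ι F (f (x + y)) - UniversalEnvelopingAlgebra.ι F (f x)
        - UniversalEnvelopingAlgebra.ι F (f y)
      = (UniversalEnvelopingAlgebra.ι F x + UniversalEnvelopingAlgebra.ι F y) ^ p
        - UniversalEnvelopingAlgebra.ι F x ^ p - UniversalEnvelopingAlgebra.ι F y ^ p) →
    ∀ R : NonUnitalSubalgebra F (RingQuot (fun a b : UniversalEnvelopingAlgebra F L =>
        ∃ x : L, a = UniversalEnvelopingAlgebra.ι F x ^ p ∧ b = UniversalEnvelopingAlgebra.ι F (f x))),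
    (∃ m : ℕ, ∃ φ : FreeAlgebra F (Fin m), φ ≠ 0 ∧
      ∀ r : Fin m → RingQuot (fun a b : UniversalEnvelopingAlgebra F L =>
        ∃ x : L, a = UniversalEnvelopingAlgebra.ι F x ^ p ∧ b = UniversalEnvelopingAlgebra.ι F (f x)),
        (∀ i, r i ∈ R) → FreeAlgebra.lift F r φ = 0) →
    ∀ n : ℕ, 1 ≤ n →
      (∃ t : ℕ, 1 ≤ t ∧
        ∀ r : Fin (2 * n) → RingQuot (fun a b : UniversalEnvelopingAlgebra F L =>
          ∃ x : L, a = UniversalEnvelopingAlgebra.ι F x ^ p ∧ b = UniversalEnvelopingAlgebra.ι F (f x)),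
          (∀ i, r i ∈ R) →
          (∑ σ : Equiv.Perm (Fin (2 * n)),
            ((Equiv.Perm.sign σ : ℤˣ) : ℤ) • (List.ofFn fun i => r (σ i)).prod) ^ t = 0) →
      (∀ m : ℕ, 1 ≤ m → m < n →
        ¬ ∃ t : ℕ, 1 ≤ t ∧
          ∀ r : Fin (2 * m) → RingQuot (fun a b : UniversalEnvelopingAlgebra F L =>
            ∃ x : L, a = UniversalEnvelopingAlgebra.ι F x ^ p ∧ b = UniversalEnvelopingAlgebra.ι F (f x)),
            (∀ i, r i ∈ R) →
            (∑ σ : Equiv.Perm (Fin (2 * m)),
              ((Equiv.Perm.sign σ : ℤˣ) : ℤ) • (List.ofFn fun i => r (σ i)).prod) ^ t = 0) →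
      ∃ k : ℕ, n = p ^ k) := by
  intro h
  obtain ⟨a, b, haa, hbb, haba, hbab, hρ⟩ := exists_ab
  let φ : M2 →ₙₐ[F3] Q := phi a b haa hbb haba hbab
  have hφ : ∀ X : M2, φ X = X 0 0 • (a * b) + X 0 1 • a + X 1 0 • b + X 1 1 • (b * a) :=
    fun X => rfl
  have hlie : ∀ x y : L, UniversalEnvelopingAlgebra.ι F3 (x * y - y * x) =
      UniversalEnvelopingAlgebra.ι F3 x * UniversalEnvelopingAlgebra.ι F3 y -
      UniversalEnvelopingAlgebra.ι F3 y * UniversalEnvelopingAlgebra.ι F3 x := by
    intro x y
    have h : (x * y - y * x) = ⁅x, y⁆ := rfl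
    rw [h, LieHom.map_lie, LieRing.of_associative_ring_bracket]
  obtain ⟨k, hk⟩ := h 3 Nat.prime_three F3 L cube (fun c x => smul_pow c x 3)
    (by
      intro x y
      have h3 := three_eq_zero L
      have e1 : (LieAlgebra.ad F3 L x ^ 3) y = ⁅x, ⁅x, ⁅x, y⁆⁆⁆ := rfl
      rw [e1]
      simp only [LieRing.of_associative_ring_bracket, cube]
      have e2 : x * (x * (x * y - y * x) - (x * y - y * x) * x) -
          (x * (x * y - y * x) - (x * y - y * x) * x) * x =
          x ^ 3 * y - y * x ^ 3 - 3 * (x * x * y * x - x * y * x * x) := by noncomm_ring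
      rw [e2, h3, zero_mul, sub_zero])
    (by
      intro x y
      rw [cube_add (three_eq_zero _), ← map_sub, ← map_sub]
      have e1 : cube (x + y) - cube x - cube y = _ := cube_add (three_eq_zero L) x y
      rw [e1, map_add]
      simp only [hlie])
    (NonUnitalAlgHom.range φ)
    ⟨1, FreeAlgebra.ι F3 0 ^ 26 - FreeAlgebra.ι F3 0 ^ 2, by
      intro h0
      have h1 := congrArg (FreeAlgebra.lift F3 (fun _ : Fin 1 => (Polynomial.X : Polynomial F3))) h0
      simp only [map_sub, map_pow, FreeAlgebra.lift_ι_apply, map_zero] at h1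
      have h2 := congrArg (fun q => Polynomial.coeff q 2) h1
      simp [Polynomial.coeff_X_pow] at h2, by
      intro r hr
      obtain ⟨X, hX⟩ := hr 0
      simp only [map_sub, map_pow, FreeAlgebra.lift_ι_apply]
      have hX' : φ X = r 0 := hX
      have hpow : ∀ n : ℕ, φ (X ^ (n + 1)) = (φ X) ^ (n + 1) := by
        intro n
        induction n with
        | zero => rw [zero_add, pow_one, pow_one]
        | succ n ih => rw [pow_succ X, map_mul, ih, ← pow_succ (φ X)]
      rw [← hX', ← hpow 25, ← hpow 1, pow26, sub_self]⟩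
    2 (by norm_num)
    ⟨1, le_rfl, by
      intro r hr
      choose X hX using hr
      have hX' : ∀ i, φ (X i) = r i := hX
      have hs := s4 X
      rw [pow_one]
      have hs2 := congrArg φ hs
      rw [map_sum, map_zero] at hs2
      rw [← hs2]
      apply Finset.sum_congr rfl
      intro σ _
      rw [map_zsmul]
      congr 1
      simp only [← hX', List.ofFn_succ, List.ofFn_zero, List.prod_cons, List.prod_nil, mul_one,
        map_mul]⟩
    (by
      intro m hm1 hm2
      obtain rfl : m = 1 := by omega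
      rintro ⟨t, ht1, ht⟩
      have h1 := ht ![a, b] (by
        intro i
        fin_cases i
        · refine ⟨!![0,1;0,0], ?_⟩
          change φ _ = a
          simp [hφ]
        · refine ⟨!![0,0;1,0], ?_⟩
          change φ _ = b
          simp [hφ])
      have h2 : (∑ σ : Equiv.Perm (Fin (2 * 1)),
            ((Equiv.Perm.sign σ : ℤˣ) : ℤ) • (List.ofFn fun i => (![a, b] : Fin 2 → Q) (σ i)).prod)
            = a * b - b * a := by
        have hu : (Finset.univ : Finset (Equiv.Perm (Fin 2))) = {1, Equiv.swap 0 1} := by decide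
        change (∑ σ : Equiv.Perm (Fin 2),
            ((Equiv.Perm.sign σ : ℤˣ) : ℤ) • (List.ofFn fun i => (![a, b] : Fin 2 → Q) (σ i)).prod)
            = a * b - b * a
        rw [hu, Finset.sum_pair (by decide)]
        simp [List.ofFn_succ]
        abel
      rw [h2] at h1
      have h3 := congrArg ρ h1
      rw [map_pow, hρ, map_zero] at h3
      have h4 : ∀ n : ℕ, (!![1,0,0;0,2,0;0,0,0] : L) ^ (2 * n + 1) = !![1,0,0;0,2,0;0,0,0] := by
        intro n
        induction n with
        | zero => simp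
        | succ n ih =>
          rw [show 2 * (n + 1) + 1 = 2 * n + 1 + 2 by ring, pow_add, ih]
          decide
      have h5 := h4 t
      rw [show 2 * t + 1 = t + (t + 1) by ring, pow_add, h3, zero_mul] at h5
      revert h5
      decide)
  rcases k with _ | k
  · simp at hk
  · rw [pow_succ] at hk
    omega

end Pool.Agent.S03052
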