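import Pool.Statements.S03148
import Pool.Agent.TH8.Recur
import Pool.Agent.TH8.GenFun

set_option autoImplicit false
open CategoryTheory CategoryTheory.MonoidalCategory CategoryTheory.Limits
open Pool Pool.MP_d25222_al

namespace Pool.Agent.S03148

/-- The negation of the preceding statement: Take a finite group G, a field k of prime characteristic, and a finite-dimensional kG-module M. Let c_n be the dimension of the non-projective part of the n-th tensor power of M. Then the series sum c_n t^n is a rational function: a nonzero polynomial times it is a polynomial. -/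
theorem result :
    ¬ (∀ (p : ℕ) (k : Type) [Field k] [CharP k p], p.Prime →
      ∀ (G : Type) [Group G] [Finite G] (M : Rep k G), FiniteDimensional k M.V →
        ∃ P Q : Polynomial ℚ, Q ≠ 0 ∧
          (Q : PowerSeries ℚ) *
              PowerSeries.mk (fun n : ℕ =>
                ((sInf {d : ℕ | ∃ N P' : Rep k G, Projective P' ∧
                    Nonempty ((fun X : Rep k G => X ⊗ M)^[n] (𝟙_ (Rep k G)) ≅ N ⊞ P') ∧
                    Module.finrank k N.V = d} : ℕ) : ℚ)) =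
            (P : PowerSeries ℚ)) := by
  intro H
  obtain ⟨P, Q, hQ, h⟩ := H 2 Pool.Agent.TH8.F2 Nat.prime_two Pool.Agent.TH8.G4
    Pool.Agent.TH8.Mo Pool.Agent.TH8.fd_Mo
  refine Pool.Agent.TH8.not_rational
    (fun n j => Pool.Agent.TH8.cZ (Pool.Agent.TH8.Tn n (Pool.Agent.TH8.LL j)))
    (fun j => Pool.Agent.TH8.cZ_LL j) (fun n j => Pool.Agent.TH8.recursion n j) P Q hQ ?_
  rw [← h]
  congr 1
  ext n
  rw [PowerSeries.coeff_mk, PowerSeries.coeff_mk]
  have hfd1 : FiniteDimensional Pool.Agent.TH8.F2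
      (𝟙_ (Rep.{0} Pool.Agent.TH8.F2 Pool.Agent.TH8.G4)).V :=
    inferInstanceAs (FiniteDimensional Pool.Agent.TH8.F2 Pool.Agent.TH8.F2)
  have hfd : FiniteDimensional Pool.Agent.TH8.F2
      (Pool.Agent.TH8.Tn n (𝟙_ (Rep.{0} Pool.Agent.TH8.F2 Pool.Agent.TH8.G4))).V :=
    Pool.Agent.TH8.Tn_fd n _ hfd1
  have h1 := Pool.Agent.TH8.sInf_eq_cZ
    (Pool.Agent.TH8.Tn n (𝟙_ (Rep.{0} Pool.Agent.TH8.F2 Pool.Agent.TH8.G4)))
  have h2 : Pool.Agent.TH8.cZ (Pool.Agent.TH8.Tn n (Pool.Agent.TH8.LL 0)) =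
      Pool.Agent.TH8.cZ
        (Pool.Agent.TH8.Tn n (𝟙_ (Rep.{0} Pool.Agent.TH8.F2 Pool.Agent.TH8.G4))) :=
    Pool.Agent.TH8.eqv_of_iso Pool.Agent.TH8.Am0Iso n
  rw [← h2] at h1
  have h3 := congrArg (fun z : ℤ => (z : ℚ)) h1
  simp only [Int.cast_natCast] at h3
  exact h3.symm

end Pool.Agent.S03148
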