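import Pool.Statements.S03191
import Pool.Agent.TH107.Final

set_option autoImplicit false
open Pool Pool.MP_d5a4a4_al

namespace Pool.Agent.S03191

/-- For every finite-rank Coxeter group and every Coxeter element w, the interval group on [1,w] (reflection-length order, relations [a][a⁻¹c]=[c] for a≤c≤w) is isomorphic to the Artin group of the same Coxeter matrix. -/
theorem result :
    ∀ (n : ℕ) (M : CoxeterMatrix (Fin n)) (σ : Equiv.Perm (Fin n)) (w : M.Group)
      (leT : M.Group → M.Group → Prop),
      w = ((List.finRange n).map (fun k => M.simple (σ k))).prod →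
      (∀ a c : M.Group, leT a c ↔
        ∃ l₁ l₂ : List M.Group,
          (∀ t ∈ l₁ ++ l₂, M.toCoxeterSystem.IsReflection t) ∧
          l₁.prod = a ∧ (l₁ ++ l₂).prod = c ∧
          ∀ l : List M.Group, (∀ t ∈ l, M.toCoxeterSystem.IsReflection t) →
            l.prod = c → (l₁ ++ l₂).length ≤ l.length) →
      Nonempty
        (PresentedGroup
            (Set.range (fun p : Fin n × Fin n =>
              ((List.range (M p.1 p.2)).map
                  (fun k => FreeGroup.of (if Even k then p.1 else p.2))).prod *
              (((List.range (M p.1 p.2)).map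
                  (fun k => FreeGroup.of (if Even k then p.2 else p.1))).prod)⁻¹))
          ≃*
         PresentedGroup
            ({r : FreeGroup M.Group | ∃ a c : M.Group, leT a c ∧ leT c w ∧
                r = FreeGroup.of a * FreeGroup.of (a⁻¹ * c) * (FreeGroup.of c)⁻¹} ∪
             {r : FreeGroup M.Group | ∃ u : M.Group, ¬ leT u w ∧ r = FreeGroup.of u})) := by
  classical
  intro n M σ w leT hw hle
  have hl : ((List.finRange n).map σ).Nodup := (List.nodup_finRange n).map σ.injective
  have hall : ∀ i, i ∈ (List.finRange n).map σ := by
    intro i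
    exact List.mem_map.mpr ⟨σ.symm i, List.mem_finRange _, by simp⟩
  have hw' : w = M.toCoxeterSystem.wordProd ((List.finRange n).map σ) := by
    rw [hw]
    unfold CoxeterSystem.wordProd
    rw [List.map_map]
    rfl
  have hlo : ((List.finRange n).map σ).Pairwise
      (fun i j => ((σ.symm i : Fin n) : ℕ) < ((σ.symm j : Fin n) : ℕ)) := by
    rw [List.pairwise_map]
    refine (List.pairwise_lt_finRange n).imp ?_
    intro a b hab
    simpa using hab
  obtain ⟨L, hL⟩ := Pool.Agent.TH107.exists_adapted (M := M) _ hl
    (fun i => ((σ.symm i : Fin n) : ℕ))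
    (fun a b h => σ.symm.injective (Fin.ext h)) hlo
  have key := Pool.Agent.TH107.iso_exists (cs := M.toCoxeterSystem) (leT := leT) hle hl hall hL
  have hset : (Set.range (fun p : Fin n × Fin n =>
              ((List.range (M p.1 p.2)).map
                  (fun k => FreeGroup.of (if Even k then p.1 else p.2))).prod *
              (((List.range (M p.1 p.2)).map
                  (fun k => FreeGroup.of (if Even k then p.2 else p.1))).prod)⁻¹)) =
      (Set.range (fun p : Fin n × Fin n =>
      ((List.range (M p.1 p.2)).map
          (fun t => if Even t then FreeGroup.of p.1 else FreeGroup.of p.2)).prod *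
      (((List.range (M p.1 p.2)).map
          (fun t => if Even t then FreeGroup.of p.2 else FreeGroup.of p.1)).prod)⁻¹)) := by
    congr 1
    funext p
    simp only [apply_ite (FreeGroup.of (α := Fin n))]
  rw [hset, hw']
  exact key

end Pool.Agent.S03191
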