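import Pool.Statements.S03506
import Pool.Agent.TH862.Mean
import Pool.Agent.TH862.Trans
import Pool.Agent.TH862.Act

set_option autoImplicit false
open Classical
open Pool Pool.MP_f09f42_al

namespace Pool.Agent.S03506

open Pool.Agent.TH862.EA

/-- the six permutations of the set of finite subsets -/
noncomputable def perms : Fin 6 → Equiv.Perm (Finset XX) :=
  ![del, fm pU, fm pL, fm pT1, fm pT2, fm tau]

/-- There is no invariant mean on the finite subsets of `XX`. -/
theorem no_mean (m : Set (Finset XX) → ℝ) (h0 : ∀ A, 0 ≤ m A) (h1 : m Set.univ = 1)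
    (hadd : ∀ A B, Disjoint A B → m (A ∪ B) = m A + m B)
    (hinv : ∀ i A, m ((perms i) ⁻¹' A) = m A) : False := by
  have hr : 0 < 1 - rho := by have := rho_lt_one; linarith
  obtain ⟨f, s, hs, hf1, hf⟩ := exists_almost_inv_l2 perms m h0 h1 hadd hinv
    ((1 - rho) ^ 2 / 1000) (by positivity)
  -- the finite set of blocks
  set B : Finset Blk := insert rootB (s.biUnion (fun A => A.image Sigma.fst)) with hB
  have hsB : ∀ A ∈ s, A ∈ OB B := by
    intro A hA
    rw [mem_OB]
    intro x hx
    rw [hB, Finset.mem_insert, Finset.mem_biUnion]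
    right
    exact ⟨A, hA, Finset.mem_image_of_mem _ hx⟩
  have hsupp : ∀ A, A ∉ OB B → f A = 0 := by
    intro A hA
    exact hs A (fun h => hA (hsB A h))
  have hf1' : ∑ A ∈ OB B, f A ^ 2 = 1 := by
    rw [← hf1]
    symm
    apply Finset.sum_subset (fun A hA => hsB A hA)
    intro A _ hA
    rw [hs A hA]
    norm_num
  exact no_almost_inv (Finset.mem_insert_self _ _) f hsupp hf1' _ (by positivity) (le_refl _)
    (hf 3 (OB B)) (hf 4 (OB B)) (hf 1 (OB B)) (hf 2 (OB B)) (hf 5 (OB B)) (hf 0 (OB B))

/-- The negation of the preceding statement: For every transitive action of a finitely generated group whose Schreier graph has polynomial growth, there is a mean on the finite subsets of X invariant under symmetric-difference translations and under the group action, i.e. the action is extensively amenable. -/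
theorem result :
    ¬ (∀ (G X : Type) [Group G] [MulAction G X],
      MulAction.IsPretransitive G X →
      (∃ S : Finset G, Subgroup.closure (S : Set G) = ⊤ ∧
        ∃ x₀ : X, ∃ C d : ℕ, ∀ n : ℕ,
          Set.ncard {y : X | ∃ l : List G, l.length ≤ n ∧
            (∀ s ∈ l, s ∈ S ∨ s⁻¹ ∈ S) ∧ l.prod • x₀ = y} ≤ C * (n + 1) ^ d) →
      ∃ m : Set (Finset X) → ℝ,
        (∀ A, 0 ≤ m A) ∧ m Set.univ = 1 ∧
        (∀ A B, Disjoint A B → m (A ∪ B) = m A + m B) ∧
        (∀ F : Finset X, ∀ A, m ((fun E : Finset X => symmDiff E F) ⁻¹' A) = m A) ∧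
        (∀ g : G, ∀ A, m ((fun E : Finset X => E.image (fun x => g • x)) ⁻¹' A) = m A)) := by
  intro h
  let act : MulAction (FreeGroup (Fin 5)) XX := MulAction.compHom XX hom
  have hsm : ∀ (g : FreeGroup (Fin 5)) (x : XX), g • x = hom g x := fun _ _ => rfl
  have hpre : MulAction.IsPretransitive (FreeGroup (Fin 5)) XX := by
    constructor
    intro x y
    obtain ⟨g, hg⟩ := reach x
    obtain ⟨g', hg'⟩ := reach y
    refine ⟨g' * g⁻¹, ?_⟩
    rw [hsm, map_mul, map_inv, Equiv.Perm.mul_apply, ← hg', ← hg, Equiv.Perm.inv_def, Equiv.symm_apply_apply]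
  obtain ⟨m, h0, h1, hadd, hsymm, hg⟩ := h (FreeGroup (Fin 5)) XX hpre (by
    refine ⟨(Set.finite_range (FreeGroup.of : Fin 5 → FreeGroup (Fin 5))).toFinset, ?_, x0, 38416, 19, ?_⟩
    · rw [Set.Finite.coe_toFinset]
      exact FreeGroup.closure_range_of _
    · intro n
      exact growth n _ (by rw [Set.Finite.coe_toFinset]))
  refine no_mean m h0 h1 hadd ?_
  have hgen : ∀ (i : Fin 5) (A : Set (Finset XX)), m ((fm (gens i)) ⁻¹' A) = m A := by
    intro i A
    rw [← hg (FreeGroup.of i) A]
    refine congrArg m ?_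
    ext E
    rw [Set.mem_preimage, Set.mem_preimage]
    have e : ∀ (d : DecidableEq XX),
        @Finset.image XX XX d (fun x => (FreeGroup.of i) • x) E = fm (gens i) E := by
      intro d
      ext x
      rw [Finset.mem_image, mem_fm]
      constructor
      · rintro ⟨y, hy, rfl⟩
        rw [hsm, hom_of, Equiv.symm_apply_apply]
        exact hy
      · intro hx
        refine ⟨_, hx, ?_⟩
        rw [hsm, hom_of, Equiv.apply_symm_apply]
    rw [e]
  intro i A
  fin_cases i
  · have h2 := hsymm {x0} A
    rw [← h2]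
    refine congrArg m ?_
    ext E
    rw [Set.mem_preimage, Set.mem_preimage]
    apply iff_of_eq
    congr 1
    show del E = _
    ext x
    have key : ∀ (d : DecidableEq XX) (s t : Finset XX), x ∈ (s \ t) ∪ (t \ s) ↔ x ∈ s ∧ x ∉ t ∨ x ∈ t ∧ x ∉ s := by
      intro d s t
      rw [Finset.mem_union, Finset.mem_sdiff, Finset.mem_sdiff]
    refine Iff.trans ?_ (key (fun a b => propDecidable (a = b)) E {x0}).symm
    rw [mem_del, Finset.mem_singleton]
  · exact hgen 0 A
  · exact hgen 1 A
  · exact hgen 2 A
  · exact hgen 3 A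
  · exact hgen 4 A

end Pool.Agent.S03506
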