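import Pool.Statements.S03514
import Pool.Agent.TH68.C.Final

set_option autoImplicit false
open Pool Pool.MP_f1646b_al

namespace Pool.Agent.S03514

/-- The negation of the preceding statement: Every infinite simple group in which all elements have finite order, with some Sylow 2-subgroup finite dihedral (order at least 4), is isomorphic to PSL(2,P) for a field P of odd prime characteristic that is algebraic over its prime field. -/
theorem result :
    ¬ (∀ (G : Type) [Group G], Infinite G → IsSimpleGroup G → Monoid.IsTorsion G →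
      (∃ (S : Sylow 2 G) (n : ℕ), 2 ≤ n ∧
        Nonempty (↥(S : Subgroup G) ≃* DihedralGroup n)) →
      ∃ (P : Type) (_ : Field P) (p : ℕ), p.Prime ∧ p ≠ 2 ∧ CharP P p ∧
        (∀ x : P, IsIntegral ℤ x) ∧
        Nonempty (G ≃* (Matrix.SpecialLinearGroup (Fin 2) P ⧸
          Subgroup.center (Matrix.SpecialLinearGroup (Fin 2) P)))) := by
  intro h
  obtain ⟨G, hG, h1, h2, h3, h4, h5⟩ := Pool.Agent.TH68.C.main
  obtain ⟨P, hP, p, hp, -, hc, hint, he⟩ := h G h1 h2 h3 h5
  exact Pool.Agent.TH68.C.not_psl h4 hp hint he

end Pool.Agent.S03514
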