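import Pool.Statements.S03643
-- import your own Pool.Agent.* helpers here
import Pool.Agent.TH62.PL.Main

set_option autoImplicit false
open Pool Pool.MP_fe96bf_al

namespace Pool.Agent.S03643
/-- For every nonempty set of primes π and finite π-soluble group G, if a Hall π-subgroup has derived length ≤ d, then G has a normal series with factors alternating π′,π,…,π′ using only d π-factors, i.e. the π-length of G is at most d. -/
theorem result :
    ∀ (π : Set ℕ), π.Nonempty → (∀ p ∈ π, p.Prime) →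
    ∀ (G : Type) [Group G] [Finite G],
      (∃ m : ℕ, ∃ S : ℕ → Subgroup G, S 0 = ⊥ ∧ S m = ⊤ ∧ (∀ i, S i ≤ S (i + 1)) ∧
        (∀ i, (S i).Normal) ∧
        ∀ i < m,
          (∀ p : ℕ, p.Prime → p ∣ Nat.card ↥(S (i + 1)) / Nat.card ↥(S i) → p ∉ π) ∨
          (∃ q ∈ π, ∀ p : ℕ, p.Prime →
            p ∣ Nat.card ↥(S (i + 1)) / Nat.card ↥(S i) → p = q)) →
      ∀ H : Subgroup G,
        (∀ p : ℕ, p.Prime → p ∣ Nat.card ↥H → p ∈ π) →
        (∀ p : ℕ, p.Prime → p ∣ H.index → p ∉ π) →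
        ∀ d : ℕ, derivedSeries (↥H) d = ⊥ →
          ∃ T : ℕ → Subgroup G, T 0 = ⊥ ∧ T (2 * d + 1) = ⊤ ∧
            (∀ i, T i ≤ T (i + 1)) ∧ (∀ i, (T i).Normal) ∧
            (∀ i ≤ d, ∀ p : ℕ, p.Prime →
              p ∣ Nat.card ↥(T (2 * i + 1)) / Nat.card ↥(T (2 * i)) → p ∉ π) ∧
            (∀ i < d, ∀ p : ℕ, p.Prime →
              p ∣ Nat.card ↥(T (2 * i + 2)) / Nat.card ↥(T (2 * i + 1)) → p ∈ π) := by
  exact TH62.PL.final_of TH62.PL.t_all_main

end Pool.Agent.S03643
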