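import Pool.Statements.S03690
import Pool.Agent.TH636.Percep
import Pool.Agent.TH636.Edel

set_option autoImplicit false
open Filter
open Pool Pool.MP_0396c7_an

namespace Pool.Agent.S03690

open Topology Pool.Agent.TH636.Percep
open Pool.Agent.TH636

/-! ### the ambient shift space -/

/-- the fibre -/
abbrev I11 : Type := Set.Icc (-1 : ℝ) 1

/-- the ambient compact metric space -/
def Y : Type := ℕ → I11

noncomputable instance : MetricSpace Y := PiCountable.metricSpace (F := fun _ : ℕ => I11)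

instance : CompactSpace Y := inferInstanceAs (CompactSpace (ℕ → I11))

lemma dist_eq (x y : Y) : dist x y = ∑' i : ℕ, min (2⁻¹ ^ i) (dist (x i) (y i)) := rfl

lemma min_le_dist (x y : Y) : min 1 (dist (x 0) (y 0)) ≤ dist x y := by
  have h := PiCountable.min_dist_le_dist_pi (F := fun _ : ℕ => I11) x y 0
  rw [Encodable.encode_nat, pow_zero] at h
  exact h

lemma summ (x y : Y) : Summable fun i : ℕ => min ((2⁻¹ : ℝ) ^ i) (dist (x i) (y i)) :=
  PiCountable.dist_summable (F := fun _ : ℕ => I11) x y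

/-- closeness in finitely many coordinates -/
lemma dist_lt_of (ε : ℝ) (hε : 0 < ε) : ∃ L : ℕ, ∃ γ : ℝ, 0 < γ ∧ 0 < L ∧
    ∀ x y : Y, (∀ m < L, dist (x m) (y m) < γ) → dist x y < ε := by
  obtain ⟨L, hL⟩ := exists_pow_lt_of_lt_one (show 0 < ε / 4 by positivity)
    (show (2⁻¹ : ℝ) < 1 by norm_num)
  refine ⟨L + 1, ε / (4 * (L + 1)), by positivity, by omega, ?_⟩
  intro x y h
  rw [dist_eq, ← (summ x y).sum_add_tsum_nat_add (L + 1)]
  have h1 : ∑ i ∈ Finset.range (L + 1), min ((2⁻¹ : ℝ) ^ i) (dist (x i) (y i)) ≤ ε / 4 := by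
    calc _ ≤ ∑ i ∈ Finset.range (L + 1), ε / (4 * (L + 1)) := by
          apply Finset.sum_le_sum
          intro i hi
          exact (min_le_right _ _).trans (h i (Finset.mem_range.1 hi)).le
      _ = ε / 4 := by
          rw [Finset.sum_const, Finset.card_range, nsmul_eq_mul]
          push_cast
          field_simp
  have h2 : ∑' i : ℕ, min ((2⁻¹ : ℝ) ^ (i + (L + 1))) (dist (x (i + (L + 1))) (y (i + (L + 1)))) ≤
      ε / 4 := by
    have h3 : HasSum (fun i : ℕ => (2⁻¹ : ℝ) ^ (i + (L + 1))) (2 * 2⁻¹ ^ (L + 1)) := by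
      have := (hasSum_geometric_of_lt_one (show (0 : ℝ) ≤ 2⁻¹ by norm_num) (by norm_num)).mul_right
        ((2⁻¹ : ℝ) ^ (L + 1))
      have e : (1 - (2⁻¹ : ℝ))⁻¹ = 2 := by norm_num
      rw [e] at this
      refine this.congr_fun ?_ |> id
      intro i
      rw [pow_add]
    have h4 := ((summable_nat_add_iff (L + 1)).2 (summ x y)).tsum_le_tsum
      (fun i => min_le_left ((2⁻¹ : ℝ) ^ (i + (L + 1))) (dist (x (i + (L + 1))) (y (i + (L + 1)))))
      h3.summable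
    refine h4.trans ?_
    rw [h3.tsum_eq, pow_succ]
    linarith
  linarith

/-! ### the function -/

/-- the value -/
noncomputable def fv (n : ℤ) : ℝ := Phi (‖Edel.x n‖ ^ 2)

lemma fv_mem (n : ℤ) : fv n ∈ Set.Icc (-1 : ℝ) 1 := by
  have := Phi_abs (‖Edel.x n‖ ^ 2)
  rw [abs_le] at this
  exact this

/-- the orbit -/
noncomputable def orb (j : ℕ) : Y := fun n => ⟨fv ((j + n : ℕ) : ℤ), fv_mem _⟩

lemma dist_orb (j n : ℕ) (z : I11) : dist (orb j n) z = |fv ((j + n : ℕ) : ℤ) - z| := rfl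

/-- the subshift -/
abbrev X : Type := {y : Y // y ∈ closure (Set.range orb)}

/-- shift -/
def sh (y : Y) : Y := fun n => y (n + 1)

lemma sh_cont : Continuous sh := by
  have : Continuous (fun (y : ℕ → I11) (n : ℕ) => y (n + 1)) := by fun_prop
  exact this

lemma sh_orb (j : ℕ) : sh (orb j) = orb (j + 1) := by
  funext n
  apply Subtype.ext
  show fv _ = fv _
  congr 2
  omega

lemma sh_mem (y : Y) (hy : y ∈ closure (Set.range orb)) : sh y ∈ closure (Set.range orb) := by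
  have h := image_closure_subset_closure_image (s := Set.range orb) sh_cont
  have h1 := h ⟨y, hy, rfl⟩
  refine closure_mono ?_ h1
  rintro _ ⟨_, ⟨j, rfl⟩, rfl⟩
  exact ⟨j + 1, (sh_orb j).symm⟩

/-- the map -/
def T (y : X) : X := ⟨sh y.1, sh_mem y.1 y.2⟩

lemma T_cont : Continuous T := by
  unfold T
  exact (sh_cont.comp continuous_subtype_val).subtype_mk _

lemma T_iter (i : ℕ) : ∀ (y : X) (n : ℕ), (T^[i] y).1 n = y.1 (n + i) := by
  induction i with
  | zero => intro y n; rfl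
  | succ i ih =>
    intro y n
    rw [Function.iterate_succ_apply']
    show (T^[i] y).1 (n + 1) = _
    rw [ih, show n + 1 + i = n + (i + 1) by omega]

/-- orbit points -/
noncomputable def orbX (j : ℕ) : X := ⟨orb j, subset_closure ⟨j, rfl⟩⟩

lemma T_orbX (i j : ℕ) : T^[i] (orbX j) = orbX (j + i) := by
  apply Subtype.ext
  funext n
  rw [T_iter]
  apply Subtype.ext
  show fv ((j + (n + i) : ℕ) : ℤ) = fv ((j + i + n : ℕ) : ℤ)
  have : j + (n + i) = j + i + n := by omega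
  rw [this]

/-! ### transitivity -/

lemma dense_orbX (U : Set X) (hU : IsOpen U) (hne : U.Nonempty) : ∃ j, orbX j ∈ U := by
  obtain ⟨⟨y, hy⟩, hyU⟩ := hne
  obtain ⟨V, hV, rfl⟩ := isOpen_induced_iff.1 hU
  obtain ⟨z, hzV, j, rfl⟩ := mem_closure_iff.1 hy V hV hyU
  exact ⟨j, hzV⟩

lemma fv_cont (m : ℤ) : Tendsto (fun K : ℕ => fv (m + (Edel.h K : ℤ))) atTop (𝓝 (fv m)) := by
  have h1 : Tendsto (fun K : ℕ => ‖Edel.x (m + (Edel.h K : ℤ))‖) atTop (𝓝 ‖Edel.x m‖) := by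
    rw [tendsto_iff_dist_tendsto_zero]
    refine squeeze_zero (fun _ => dist_nonneg) (fun K => ?_) Edel.recurrent
    rw [Real.dist_eq]
    refine (abs_norm_sub_norm_le _ _).trans ?_
    rw [Edel.x_sub]
    simp
  unfold fv Phi
  have h2 : Continuous (fun t : ℝ => Real.sin (Real.log (1 + t ^ 2))) := by
    refine Real.continuous_sin.comp (Continuous.log (by fun_prop) ?_)
    intro t
    positivity
  exact (h2.tendsto _).comp h1

lemma recur (b : ℕ) : Tendsto (fun K : ℕ => orbX (b + Edel.h K)) atTop (𝓝 (orbX b)) := by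
  rw [tendsto_subtype_rng]
  have : Tendsto (fun (K : ℕ) (n : ℕ) => orb (b + Edel.h K) n) atTop (𝓝 (fun n => orb b n)) := by
    rw [tendsto_pi_nhds]
    intro n
    rw [tendsto_subtype_rng]
    have h1 := fv_cont ((b + n : ℕ) : ℤ)
    refine h1.congr ?_
    intro K
    show _ = fv ((b + Edel.h K + n : ℕ) : ℤ)
    congr 1
    push_cast
    ring
  exact this

lemma transitive (U V : Set X) (hU : IsOpen U) (hV : IsOpen V) (hUne : U.Nonempty)
    (hVne : V.Nonempty) : ∃ n : ℕ, 1 ≤ n ∧ (V ∩ T^[n] ⁻¹' U).Nonempty := by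
  obtain ⟨b, hb⟩ := dense_orbX U hU hUne
  obtain ⟨a, ha⟩ := dense_orbX V hV hVne
  have h1 := (recur b).eventually (hU.mem_nhds hb)
  obtain ⟨K, hK, hK2⟩ := (h1.and (eventually_ge_atTop (a + 1))).exists
  have h3 := Edel.h_ge K
  refine ⟨b + Edel.h K - a, by omega, orbX a, ha, ?_⟩
  show T^[b + Edel.h K - a] (orbX a) ∈ U
  rw [T_orbX]
  have : a + (b + Edel.h K - a) = b + Edel.h K := by omega
  rw [this]
  exact hK

/-! ### null -/

lemma approx (y : X) (S : Finset ℕ) (γ : ℝ) (hγ : 0 < γ) :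
    ∃ j, ∀ e ∈ S, |fv ((j + e : ℕ) : ℤ) - (y.1 e : ℝ)| < γ := by
  obtain ⟨y, hy⟩ := y
  have h1 : IsOpen {z : Y | ∀ e ∈ S, dist (z e) (y e) < γ} := by
    have e1 : {z : Y | ∀ e ∈ S, dist (z e) (y e) < γ} =
        ⋂ e ∈ S, {z : Y | dist (z e) (y e) < γ} := by
      ext z
      simp
    rw [e1]
    apply isOpen_biInter_finset
    intro e _
    apply isOpen_lt _ continuous_const
    have : Continuous (fun z : ℕ → I11 => dist (z e) (y e)) := by fun_prop
    exact this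
  obtain ⟨z, hz, j, rfl⟩ := mem_closure_iff.1 hy _ h1 (by intro e _; simpa using hγ)
  exact ⟨j, fun e he => by
    have := hz e he
    rwa [dist_orb] at this⟩

lemma fv_eq (j e : ℕ) : fv ((j + e : ℕ) : ℤ) = Phi (‖Edel.x j - Edel.x (-(e : ℤ))‖ ^ 2) := by
  rw [Edel.x_sub]
  unfold fv
  congr 4
  push_cast
  ring

lemma card_bound (ε : ℝ) (hε : 0 < ε) : ∃ C D : ℕ, ∀ (a : ℕ → ℕ) (n : ℕ) (F : Finset X), 0 < n →
    (∀ x ∈ F, ∀ y ∈ F, x ≠ y → ∃ i < n, ε ≤ dist (T^[a i] x) (T^[a i] y)) →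
    F.card ≤ C * (C * n + 1) ^ D := by
  obtain ⟨L, γ, hγ, hL, hdist⟩ := dist_lt_of ε hε
  obtain ⟨C, D, hCD⟩ := count (γ / 2) (by positivity)
  refine ⟨max C (2 * L), D, ?_⟩
  intro a n F hn hF
  have hcl : ∀ x : X, ∃ j : ℕ, ∀ e ∈ (Finset.univ : Finset (Fin n × Fin L)).image
      (fun q => (q.2 : ℕ) + a q.1), |fv ((j + e : ℕ) : ℤ) - (x.1 e : ℝ)| < γ / 4 :=
    fun x => approx x _ _ (by positivity)
  choose j hj using hcl
  have : Nonempty (Fin n × Fin L) := ⟨(⟨0, hn⟩, ⟨0, hL⟩)⟩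
  have h1 := hCD Edel.Hs (Fin n × Fin L)
    (fun q => Edel.x (-(((q.2 : ℕ) + a q.1 : ℕ) : ℤ))) X F (fun x => Edel.x (j x)) ?_
  · refine h1.trans ?_
    rw [Fintype.card_prod, Fintype.card_fin, Fintype.card_fin]
    apply Nat.mul_le_mul (le_max_left _ _)
    apply Nat.pow_le_pow_left
    have : 2 * (n * L) ≤ max C (2 * L) * n := by
      calc 2 * (n * L) = (2 * L) * n := by ring
        _ ≤ _ := Nat.mul_le_mul_right _ (le_max_right _ _)
    omega
  · intro x hx y hy hxy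
    obtain ⟨i, hi, hd⟩ := hF x hx y hy hxy
    have h2 : ∃ m < L, γ ≤ dist ((T^[a i] x).1 m) ((T^[a i] y).1 m) := by
      by_contra hcon
      push Not at hcon
      exact absurd hd (not_le.2 (hdist _ _ hcon))
    obtain ⟨m, hm, h3⟩ := h2
    refine ⟨(⟨i, hi⟩, ⟨m, hm⟩), ?_⟩
    rw [T_iter, T_iter] at h3
    have hmem : m + a i ∈ (Finset.univ : Finset (Fin n × Fin L)).image
      (fun q => (q.2 : ℕ) + a q.1) :=
      Finset.mem_image.2 ⟨(⟨i, hi⟩, ⟨m, hm⟩), Finset.mem_univ _, rfl⟩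
    have h4 := hj x _ hmem
    have h5 := hj y _ hmem
    rw [fv_eq] at h4 h5
    rw [Subtype.dist_eq, Real.dist_eq] at h3
    show γ / 2 ≤ |Phi (‖Edel.x (j x) - Edel.x (-((m + a i : ℕ) : ℤ))‖ ^ 2) -
      Phi (‖Edel.x (j y) - Edel.x (-((m + a i : ℕ) : ℤ))‖ ^ 2)|
    generalize Phi (‖Edel.x (j x) - Edel.x (-((m + a i : ℕ) : ℤ))‖ ^ 2) = A at *
    generalize Phi (‖Edel.x (j y) - Edel.x (-((m + a i : ℕ) : ℤ))‖ ^ 2) = B at *
    generalize ((x.1 (m + a i) : I11) : ℝ) = A' at *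
    generalize ((y.1 (m + a i) : I11) : ℝ) = B' at *
    rw [abs_lt] at h4 h5
    rcases le_abs.1 h3 with h | h
    · refine le_trans ?_ (le_abs_self _)
      linarith [h4.1, h4.2, h5.1, h5.2]
    · refine le_trans ?_ (neg_le_abs _)
      linarith [h4.1, h4.2, h5.1, h5.2]

lemma null (a : ℕ → ℕ) (ε : ℝ) (hε : 0 < ε) (δ : ℝ) (hδ : 0 < δ) :
    ∀ᶠ n in atTop, ∀ F : Finset X,
      (∀ x ∈ F, ∀ y ∈ F, x ≠ y → ∃ i < n, ε ≤ dist (T^[a i] x) (T^[a i] y)) →
      (F.card : ℝ) ≤ Real.exp (δ * n) := by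
  obtain ⟨C, D, hCD⟩ := card_bound ε hε
  have h1 := isLittleO_pow_exp_pos_mul_atTop D hδ
  have h2 := h1.comp_tendsto tendsto_natCast_atTop_atTop
  have h3 := h2.def (show (0 : ℝ) < 1 / (C * (C + 1) ^ D + 1) by positivity)
  filter_upwards [h3, eventually_gt_atTop 0] with n hn hn0 F hF
  have h4 := hCD a n F hn0 hF
  simp only [Function.comp] at hn
  rw [Real.norm_of_nonneg (by positivity), Real.norm_of_nonneg (by positivity)] at hn
  have h5 : (F.card : ℝ) ≤ (C : ℝ) * (C * n + 1) ^ D := by exact_mod_cast h4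
  refine h5.trans ?_
  have h6 : (1 : ℝ) ≤ n := by exact_mod_cast hn0
  calc (C : ℝ) * (C * n + 1) ^ D ≤ C * ((C + 1) * n) ^ D := by
        gcongr
        linarith
    _ = (C * (C + 1) ^ D) * (n : ℝ) ^ D := by rw [mul_pow]; ring
    _ ≤ (C * (C + 1) ^ D + 1) * (n : ℝ) ^ D := by gcongr; linarith
    _ ≤ (C * (C + 1) ^ D + 1) * (1 / (C * (C + 1) ^ D + 1) * Real.exp (δ * n)) := by
        gcongr
    _ = Real.exp (δ * n) := by
        field_simp

/-! ### long stretches of almost constant values -/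

lemma exp_big (c : ℝ) (A : ℝ) : ∃ k : ℕ, A ≤ Real.exp (c + k * (2 * Real.pi)) := by
  obtain ⟨k, hk⟩ := exists_nat_ge (|A| + |c|)
  refine ⟨k, ?_⟩
  have h1 := Real.add_one_le_exp (c + k * (2 * Real.pi))
  refine le_trans ?_ h1
  have h2 : (1 : ℝ) ≤ 2 * Real.pi := by linarith [Real.pi_gt_three]
  have h3 : (k : ℝ) * 1 ≤ k * (2 * Real.pi) := by gcongr
  have h4 := le_abs_self A
  have h5 := neg_abs_le c
  linarith

lemma stretch (c : ℝ) (L : ℕ) (γ : ℝ) (hγ : 0 < γ) :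
    ∃ n : ℕ, ∀ m < L, |fv ((n + m : ℕ) : ℤ) - Real.sin c| < γ := by
  obtain ⟨B, hB1, hB⟩ : ∃ B : ℝ, 1 ≤ B ∧ ∀ m < L + 2, ‖Edel.x (m : ℤ)‖ ≤ B := by
    refine ⟨1 + ∑ m ∈ Finset.range (L + 2), ‖Edel.x (m : ℤ)‖, ?_, ?_⟩
    · have : 0 ≤ ∑ m ∈ Finset.range (L + 2), ‖Edel.x (m : ℤ)‖ :=
        Finset.sum_nonneg fun _ _ => norm_nonneg _
      linarith
    · intro m hm
      have := Finset.single_le_sum (f := fun m : ℕ => ‖Edel.x (m : ℤ)‖)
        (fun _ _ => norm_nonneg _) (Finset.mem_range.2 hm)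
      linarith
  -- choose the target
  set γ' := γ / 2 with hγ'
  have hγ'0 : 0 < γ' := by positivity
  obtain ⟨k, hk⟩ := exp_big c ((32 * B / γ' + 2 * B + 2) ^ 2 + 2)
  set t := Real.exp (c + k * (2 * Real.pi)) - 1 with ht
  set r := Real.sqrt t with hr
  have ht0 : (32 * B / γ' + 2 * B + 2) ^ 2 ≤ t := by linarith
  have hpos : 0 < 32 * B / γ' := by positivity
  have htpos : 0 < t := by nlinarith [sq_nonneg (32 * B / γ' + 2 * B + 2)]
  have hrt : r ^ 2 = t := Real.sq_sqrt htpos.le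
  have hr0 : 32 * B / γ' + 2 * B + 2 ≤ r := Real.le_sqrt_of_sq_le ht0
  have hex : ∃ n : ℕ, r ≤ ‖Edel.x n‖ := Edel.unbounded r
  classical
  set n := Nat.find hex with hn
  have hn1 : r ≤ ‖Edel.x n‖ := Nat.find_spec hex
  have hn0 : n ≠ 0 := by
    intro h
    rw [h] at hn1
    have : ‖Edel.x ((0 : ℕ) : ℤ)‖ = 0 := by
      rw [Nat.cast_zero, Edel.x_zero, norm_zero]
    linarith
  have hn2 : ‖Edel.x ((n - 1 : ℕ) : ℤ)‖ < r := by
    have := Nat.find_min hex (show n - 1 < n by omega)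
    exact not_le.1 this
  have hn3 : ‖Edel.x n‖ ≤ r + B := by
    have h1 : ‖Edel.x n - Edel.x ((n - 1 : ℕ) : ℤ)‖ ≤ B := by
      rw [Edel.x_sub]
      have : ((n : ℤ) - ((n - 1 : ℕ) : ℤ)) = ((1 : ℕ) : ℤ) := by omega
      rw [this]
      exact hB 1 (by omega)
    have h2 := norm_sub_norm_le (Edel.x n) (Edel.x ((n - 1 : ℕ) : ℤ))
    linarith
  refine ⟨n, ?_⟩
  intro m hm
  have h1 : |‖Edel.x ((n + m : ℕ) : ℤ)‖ - ‖Edel.x n‖| ≤ B := by
    refine (abs_norm_sub_norm_le _ _).trans ?_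
    rw [Edel.x_sub]
    have : (((n + m : ℕ) : ℤ) - (n : ℤ)) = (m : ℤ) := by omega
    rw [this]
    exact hB m (by omega)
  rw [abs_le] at h1
  set w := ‖Edel.x ((n + m : ℕ) : ℤ)‖ with hw
  have hw1 : r - B ≤ w := by linarith
  have hw2 : w ≤ r + 2 * B := by linarith
  have hdiff : |t - w ^ 2| ≤ 4 * B * r + 4 * B ^ 2 := by
    rw [← hrt, abs_le]
    have hw0 : 0 ≤ w := norm_nonneg _
    constructor <;> nlinarith
  have hsin : Phi t = Real.sin c := by
    unfold Phi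
    have : 1 + t = Real.exp (c + k * (2 * Real.pi)) := by rw [ht]; ring
    rw [this, Real.log_exp, Real.sin_add_nat_mul_two_pi]
  have hγB : 32 * B ≤ γ' * r := by
    have h5 : 32 * B / γ' ≤ r := by linarith
    rw [div_le_iff₀ hγ'0] at h5
    linarith
  have hbound : ∀ v : ℝ, r - B ≤ v → 4 * B * r + 4 * B ^ 2 ≤ γ' * (1 + v ^ 2) := by
    intro v hv
    have h2 : r ≤ 2 * v := by linarith
    have h3 : r ^ 2 ≤ 4 * v ^ 2 := by nlinarith
    have h4 : 4 * B * r + 4 * B ^ 2 ≤ 8 * B * r := by nlinarith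
    have hrpos : 0 < r := by linarith
    have h5 : 32 * B * r ≤ γ' * r * r := by gcongr
    have h6 : γ' * r ^ 2 ≤ γ' * (4 * v ^ 2) := by gcongr
    nlinarith
  have := log_close t (w ^ 2) γ' htpos.le (sq_nonneg _) (hdiff.trans (by rw [← hrt]; exact hbound r (by linarith)))
    (hdiff.trans (hbound w hw1))
  rw [hsin] at this
  unfold fv
  rw [abs_sub_comm]
  refine this.trans_lt ?_
  rw [hγ']
  linarith

/-- constant points -/
def cst (z : I11) : Y := fun _ => z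

lemma cst_mem (z : I11) (c : ℝ) (hc : Real.sin c = z) : cst z ∈ closure (Set.range orb) := by
  rw [Metric.mem_closure_iff]
  intro ε hε
  obtain ⟨L, γ, hγ, hL, hdist⟩ := dist_lt_of ε hε
  obtain ⟨n, hn⟩ := stretch c L γ hγ
  refine ⟨orb n, ⟨n, rfl⟩, ?_⟩
  rw [dist_comm]
  apply hdist
  intro m hm
  rw [dist_orb]
  show |fv ((n + m : ℕ) : ℤ) - (z : ℝ)| < γ
  rw [← hc]
  exact hn m hm

/-- the constant one -/
def pP : X := ⟨cst ⟨1, by norm_num⟩, cst_mem _ (Real.pi / 2) Real.sin_pi_div_two⟩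

/-- the constant minus one -/
def pM : X := ⟨cst ⟨-1, by norm_num⟩, cst_mem _ (-(Real.pi / 2)) (by
  rw [Real.sin_neg, Real.sin_pi_div_two])⟩

lemma T_cst (i : ℕ) : T^[i] pP = pP ∧ T^[i] pM = pM := by
  constructor
  · apply Subtype.ext
    funext n
    rw [T_iter]
    rfl
  · apply Subtype.ext
    funext n
    rw [T_iter]
    rfl

lemma dist_pm : 1 ≤ dist pP pM := by
  refine le_trans ?_ (min_le_dist pP.1 pM.1)
  have : dist (pP.1 0) (pM.1 0) = 2 := by
    show |(1 : ℝ) - (-1)| = 2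
    norm_num
  rw [this]
  norm_num

lemma near_orb (p : X) (δ : ℝ) (hδ : 0 < δ) : ∃ j, dist (orbX j) p < δ := by
  obtain ⟨j, hj⟩ := dense_orbX (Metric.ball p δ) Metric.isOpen_ball ⟨p, Metric.mem_ball_self hδ⟩
  exact ⟨j, hj⟩

lemma sum_ge (g : ℕ → ℝ) (hg : ∀ i, 0 ≤ g i) (n m N : ℕ) :
    ∑ j ∈ Finset.Ico (n + m) N, g j ≤ ∑ i ∈ Finset.range N, g (n + i) := by
  have h1 : ∑ i ∈ Finset.range N, g (n + i) = ∑ j ∈ Finset.Ico n (n + N), g j := by
    rw [Finset.sum_Ico_eq_sum_range]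
    simp
  rw [h1]
  apply Finset.sum_le_sum_of_subset_of_nonneg
  · intro j hj
    rw [Finset.mem_Ico] at *
    omega
  · intro j _ _
    exact hg j

lemma not_mean : ¬ (∀ ε : ℝ, 0 < ε → ∃ δ : ℝ, 0 < δ ∧ ∀ x y : X, dist x y < δ →
        ∀ᶠ n in atTop,
          (∑ i ∈ Finset.range n, dist (T^[i] x) (T^[i] y)) / (n : ℝ) < ε) := by
  intro h
  obtain ⟨δ, hδ, h⟩ := h (1 / 4) (by norm_num)
  obtain ⟨n, hn⟩ := near_orb pP δ hδ
  obtain ⟨m, hm⟩ := near_orb pM δ hδ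
  obtain ⟨N, ⟨h1, h2⟩, h3⟩ := (((h _ _ hn).and (h _ _ hm)).and
    (eventually_ge_atTop (2 * (n + m) + 1))).exists
  have hN : (0 : ℝ) < N := by
    have : 0 < N := by omega
    exact_mod_cast this
  rw [div_lt_iff₀ hN] at h1 h2
  have e1 : ∑ i ∈ Finset.range N, dist (T^[i] (orbX n)) (T^[i] pP) =
      ∑ i ∈ Finset.range N, dist (orbX (n + i)) pP :=
    Finset.sum_congr rfl (fun i _ => by rw [T_orbX, (T_cst i).1])
  have e2 : ∑ i ∈ Finset.range N, dist (T^[i] (orbX m)) (T^[i] pM) =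
      ∑ i ∈ Finset.range N, dist (orbX (m + i)) pM :=
    Finset.sum_congr rfl (fun i _ => by rw [T_orbX, (T_cst i).2])
  rw [e1] at h1
  rw [e2] at h2
  have g1 := sum_ge (fun j => dist (orbX j) pP) (fun _ => dist_nonneg) n m N
  have g2 := sum_ge (fun j => dist (orbX j) pM) (fun _ => dist_nonneg) m n N
  rw [add_comm m n] at g2
  have g3 : (((Finset.Ico (n + m) N).card : ℕ) : ℝ) ≤
      ∑ j ∈ Finset.Ico (n + m) N, dist (orbX j) pP + ∑ j ∈ Finset.Ico (n + m) N, dist (orbX j) pM := by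
    rw [← Finset.sum_add_distrib, Finset.card_eq_sum_ones, Nat.cast_sum]
    apply Finset.sum_le_sum
    intro j _
    have t1 := dist_triangle_left pP pM (orbX j)
    have t2 := dist_pm
    push_cast
    linarith
  rw [Nat.card_Ico, Nat.cast_sub (by omega)] at g3
  have g4 : (2 * ((n + m : ℕ) : ℝ) + 1) ≤ N := by exact_mod_cast h3
  linarith

theorem result :
    ¬ (∀ (X : Type) [MetricSpace X] [CompactSpace X] (T : X → X), Continuous T →
      (∀ U V : Set X, IsOpen U → IsOpen V → U.Nonempty → V.Nonempty →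
        ∃ n : ℕ, 1 ≤ n ∧ (V ∩ T^[n] ⁻¹' U).Nonempty) →
      (∀ a : ℕ → ℕ, StrictMono a → ∀ ε : ℝ, 0 < ε → ∀ δ : ℝ, 0 < δ →
        ∀ᶠ n in atTop, ∀ F : Finset X,
          (∀ x ∈ F, ∀ y ∈ F, x ≠ y → ∃ i < n, ε ≤ dist (T^[a i] x) (T^[a i] y)) →
          (F.card : ℝ) ≤ Real.exp (δ * n)) →
      ∀ ε : ℝ, 0 < ε → ∃ δ : ℝ, 0 < δ ∧ ∀ x y : X, dist x y < δ →
        ∀ᶠ n in atTop,
          (∑ i ∈ Finset.range n, dist (T^[i] x) (T^[i] y)) / (n : ℝ) < ε) := by
  intro H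
  have : CompactSpace X := isCompact_iff_compactSpace.1 isClosed_closure.isCompact
  exact not_mean (H X T T_cont transitive (fun a _ => null a))

end Pool.Agent.S03690
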