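import Pool.Statements.S03770
import Pool.Agent.TH274.Wig.Final

set_option autoImplicit false
open Pool Pool.MP_0a9cf0_an

namespace Pool.Agent.S03770

/-- The negation of the preceding statement: For each dimension d there is a constant C such that, for every Schwartz function u on R^d and every convex set K in R^d×R^d, the integral over K of the Wigner distribution of u is at most C times the squared L2 norm of u. -/
theorem result :
    ¬ (∀ d : ℕ, ∃ C : ℝ,
      ∀ (u : SchwartzMap (EuclideanSpace ℝ (Fin d)) ℂ)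
        (K : Set (EuclideanSpace ℝ (Fin d) × EuclideanSpace ℝ (Fin d))),
        Convex ℝ K →
          (∫ p in K, ∫ y : EuclideanSpace ℝ (Fin d),
              Complex.exp (-(2 * (Real.pi : ℂ) * Complex.I * ((inner ℝ y p.2 : ℝ) : ℂ)))
                * u (p.1 + (1/2 : ℝ) • y)
                * starRingEnd ℂ (u (p.1 - (1/2 : ℝ) • y))).re
            ≤ C * ∫ x : EuclideanSpace ℝ (Fin d), ‖u x‖ ^ 2) := by
  intro h
  obtain ⟨C, hC⟩ := h 5
  obtain ⟨c, hc, R₀, hR⟩ := Pool.Agent.TH274.Wig.main 5 le_rfl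
  set R : ℝ := max R₀ ((|C| + 1) / c) with hRdef
  obtain ⟨u, hu, hW⟩ := hR R (le_max_left _ _)
  have h1 := hC u (Pool.Agent.TH274.Wig.KK 5 R) (Pool.Agent.TH274.Wig.convex_KK 5 R)
  have h2 : c * R ^ (5 - 4) * ∫ x : EuclideanSpace ℝ (Fin 5), ‖u x‖ ^ 2 ≤
      C * ∫ x : EuclideanSpace ℝ (Fin 5), ‖u x‖ ^ 2 := hW.trans h1
  have h3 : c * R ^ (5 - 4) ≤ C := le_of_mul_le_mul_right h2 hu
  have h4 : (|C| + 1) / c ≤ R := le_max_right _ _
  rw [div_le_iff₀ hc] at h4
  have h5 : c * R ^ (5 - 4) = R * c := by norm_num; ring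
  rw [h5] at h3
  have h6 := le_abs_self C
  linarith

end Pool.Agent.S03770
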