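import Pool.Statements.S03851
import Pool.Agent.TH193.FHC.Main

set_option autoImplicit false
open Pool Pool.MP_115f17_an

namespace Pool.Agent.S03851

/-- Some bounded operator on a real or complex Banach space has a frequently hypercyclic vector x and a nonempty open U such that no subset of the visit set of x in U has a natural density that exists and is positive. -/
theorem result :
    ∃ (𝕜 : Type) (_ : RCLike 𝕜) (X : Type) (_ : NormedAddCommGroup X)
      (_ : NormedSpace 𝕜 X) (_ : CompleteSpace X) (T : X →L[𝕜] X) (x : X),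
      (∀ U : Set X, IsOpen U → U.Nonempty →
        ∃ δ : ℝ, 0 < δ ∧ ∀ᶠ n : ℕ in Filter.atTop,
          δ * (n : ℝ) ≤ (({k : ℕ | k < n ∧ (⇑T)^[k] x ∈ U}.ncard : ℕ) : ℝ)) ∧
      ∃ U : Set X, IsOpen U ∧ U.Nonempty ∧
        ∀ A : Set ℕ, A ⊆ {k : ℕ | (⇑T)^[k] x ∈ U} →
          ¬ ∃ d : ℝ, 0 < d ∧
            Filter.Tendsto
              (fun n : ℕ => (({k : ℕ | k < n ∧ k ∈ A}.ncard : ℕ) : ℝ) / (n : ℝ))
              Filter.atTop (nhds d) := by
  refine ⟨ℝ, inferInstance, ZeroAtInftyContinuousMap ℕ ℝ, inferInstance, inferInstance,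
    inferInstance, Pool.Agent.TH193.FHC.T, Pool.Agent.TH193.FHC.x,
    fun U hU hne => Pool.Agent.TH193.FHC.freq U hU hne,
    {f : ZeroAtInftyContinuousMap ℕ ℝ | f 0 ≠ 0}, ?_, ?_, ?_⟩
  · have hc : Continuous (fun f : ZeroAtInftyContinuousMap ℕ ℝ => f 0) := by
      have h1 : LipschitzWith 1 (fun f : ZeroAtInftyContinuousMap ℕ ℝ => f 0) := by
        apply LipschitzWith.of_dist_le_mul
        intro f g
        rw [NNReal.coe_one, one_mul, dist_eq_norm, dist_eq_norm]
        have := Pool.Agent.TH193.FHC.abs_apply_le (f - g) 0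
        simpa using this
      exact h1.continuous
    exact isOpen_ne_fun hc continuous_const
  · refine ⟨⟨⟨fun n => if n = 0 then 1 else 0, continuous_of_discreteTopology⟩, ?_⟩, ?_⟩
    · rw [_root_.cocompact_eq_atTop]
      apply tendsto_const_nhds.congr'
      filter_upwards [Filter.eventually_ge_atTop 1] with n hn
      change (0 : ℝ) = if n = 0 then 1 else 0
      rw [if_neg (by omega)]
    · change (if (0 : ℕ) = 0 then (1 : ℝ) else 0) ≠ 0
      simp
  · intro A hA
    exact Pool.Agent.TH193.FHC.no_density A hA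

end Pool.Agent.S03851
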