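import Pool.Statements.S04109
import Pool.Agent.TH231.Dio

set_option autoImplicit false
open Pool Pool.MP_27cd7e_an

namespace Pool.Agent.S04109

/-- For every rational map of degree at least 2 with a Cremer fixed point at 0 (multiplier e^{2πiθ}, θ irrational, not linearizable), every ball around 0 contains infinitely many periodic points whose whole orbits stay in the ball. -/
theorem result :
    ∀ (P Q : Polynomial ℂ), IsCoprime P Q → 2 ≤ max P.natDegree Q.natDegree →
      P.eval 0 = 0 → Q.eval 0 ≠ 0 →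
      (∃ θ : ℝ, Irrational θ ∧
        deriv (fun z : ℂ => P.eval z / Q.eval z) 0
          = Complex.exp (2 * (Real.pi : ℂ) * Complex.I * (θ : ℂ))) →
      (¬ ∃ h : ℂ → ℂ, ∃ r : ℝ, 0 < r ∧ AnalyticAt ℂ h 0 ∧ h 0 = 0 ∧ deriv h 0 ≠ 0 ∧
          ∀ z ∈ Metric.ball (0 : ℂ) r,
            P.eval (h z) / Q.eval (h z)
              = h (deriv (fun w : ℂ => P.eval w / Q.eval w) 0 * z)) →
      ∀ ε : ℝ, 0 < ε →
        {z : ℂ | z ∈ Function.periodicPts (fun w : ℂ => P.eval w / Q.eval w) ∧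
          ∀ n : ℕ, (fun w : ℂ => P.eval w / Q.eval w)^[n] z ∈ Metric.ball (0 : ℂ) ε}.Infinite := by
  intro P Q hPQ hd hP0 hQ0 hθ hnl ε hε
  obtain ⟨θ, hirr, hder⟩ := hθ
  exact Pool.Agent.TH231.small_cycles P Q hPQ hd hP0 hQ0 hirr hder hnl ε hε

end Pool.Agent.S04109
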