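import Pool.Statements.S04245
import Pool.Agent.H939R3.NumIdxGeom
import Pool.Agent.TH296.NumIdx.Main

set_option autoImplicit false
open Pool Pool.MP_30533e_an

namespace Pool.Agent.S04245

open scoped RealInnerProductSpace in
open Pool.Agent in
/-- the inequality for a single space -/
theorem key (m : ℕ) (hm : 1 ≤ m) (X : Type) [NormedAddCommGroup X] [NormedSpace ℝ X]
    [FiniteDimensional ℝ X] (hX : Module.finrank ℝ X = m)
    (hn : ∀ T : X →L[ℝ] X, ∀ r : ℝ, r < ‖T‖ →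
      ∃ u : X, ∃ f : X →L[ℝ] ℝ, ‖u‖ = 1 ∧ ‖f‖ = 1 ∧ f u = 1 ∧ r < |f (T u)|)
    (T : X ≃L[ℝ] EuclideanSpace ℝ (Fin m)) :
    2 / (Real.pi * Real.exp 1) * m ≤
      (‖(T : X →L[ℝ] EuclideanSpace ℝ (Fin m))‖ *
        ‖(T.symm : EuclideanSpace ℝ (Fin m) →L[ℝ] X)‖) ^ 2 := by
  have hntr : Nontrivial X := Module.nontrivial_of_finrank_pos (R := ℝ) (by rw [hX]; omega)
  have hntrE : Nontrivial (EuclideanSpace ℝ (Fin m)) := T.symm.toEquiv.nontrivial
  set α := ‖(T : X →L[ℝ] EuclideanSpace ℝ (Fin m))‖ with hα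
  set β := ‖(T.symm : EuclideanSpace ℝ (Fin m) →L[ℝ] X)‖ with hβ
  have hα0 : 0 < α := T.norm_pos
  have hβ0 : 0 < β := T.symm.norm_pos
  -- pairing on closures
  have hpair : ∀ u ∈ closure (H939NI.Vset X), ∀ f ∈ closure (H939NI.Wset X), |f u| = 1 := by
    intro u hu f hf
    have hcl : IsClosed {p : X × (X →L[ℝ] ℝ) | |p.2 p.1| = 1} :=
      isClosed_eq ((continuous_snd.clm_apply continuous_fst).abs) continuous_const
    have hsub : closure (H939NI.Vset X ×ˢ H939NI.Wset X) ⊆ {p : X × (X →L[ℝ] ℝ) | |p.2 p.1| = 1} := by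
      refine closure_minimal ?_ hcl
      rintro ⟨a, b⟩ ⟨ha, hb⟩
      exact H939NI.pairing hn ha hb
    have : (u, f) ∈ closure (H939NI.Vset X ×ˢ H939NI.Wset X) := by
      rw [closure_prod_eq]
      exact ⟨hu, hf⟩
    exact hsub this
  have hVn : ∀ u ∈ closure (H939NI.Vset X), ‖u‖ ≤ 1 := by
    have hsub : closure (H939NI.Vset X) ⊆ Metric.closedBall 0 1 := by
      refine closure_minimal ?_ Metric.isClosed_closedBall
      intro f hf
      simpa using hf.1
    intro u hu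
    simpa using hsub hu
  have hWn : ∀ f ∈ closure (H939NI.Wset X), ‖f‖ ≤ 1 := by
    have hsub : closure (H939NI.Wset X) ⊆ Metric.closedBall 0 1 := by
      refine closure_minimal ?_ Metric.isClosed_closedBall
      intro f hf
      simpa using hf.1
    intro u hu
    simpa using hsub hu
  -- transport to the Euclidean space
  let ρ : (X →L[ℝ] ℝ) → EuclideanSpace ℝ (Fin m) := fun f =>
    (InnerProductSpace.toDual ℝ (EuclideanSpace ℝ (Fin m))).symm
      (f.comp (T.symm : EuclideanSpace ℝ (Fin m) →L[ℝ] X))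
  have hρ : ∀ f g, ⟪ρ f, g⟫ = f (T.symm g) := by
    intro f g
    simp only [ρ, InnerProductSpace.toDual_symm_apply]
    rfl
  refine TH296.NumIdx.core hm (T '' closure (H939NI.Vset X)) (ρ '' closure (H939NI.Wset X)) α β hα0
    hβ0 ?_ ?_ ?_ ?_
  · rintro _ ⟨u, hu, rfl⟩
    calc ‖T u‖ ≤ α * ‖u‖ := (T : X →L[ℝ] EuclideanSpace ℝ (Fin m)).le_opNorm u
      _ ≤ α * 1 := mul_le_mul_of_nonneg_left (hVn u hu) hα0.le
      _ = α := mul_one _
  · rintro _ ⟨f, hf, rfl⟩
    calc ‖ρ f‖ = ‖f.comp (T.symm : EuclideanSpace ℝ (Fin m) →L[ℝ] X)‖ := by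
          simp only [ρ, LinearIsometryEquiv.norm_map]
      _ ≤ ‖f‖ * β := f.opNorm_comp_le _
      _ ≤ 1 * β := mul_le_mul_of_nonneg_right (hWn f hf) hβ0.le
      _ = β := one_mul _
  · rintro _ ⟨u, hu, rfl⟩ _ ⟨f, hf, rfl⟩
    rw [real_inner_comm, hρ, T.symm_apply_apply]
    exact hpair u hu f hf
  · intro x hx y hy
    -- `x` lies in the image of the unit ball
    have hx1 : ‖T.symm x‖ ≤ 1 := by
      obtain ⟨f, hf, hfx⟩ := H939NI.norming_W (T.symm x)
      have h1 := hx (ρ f) ⟨f, hf, rfl⟩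
      rw [real_inner_comm, hρ] at h1
      exact hfx.trans ((le_abs_self _).trans h1)
    -- `y` lies in the dual ball
    set h := (innerSL ℝ y).comp (T : X →L[ℝ] EuclideanSpace ℝ (Fin m)) with hh
    have hval : ∀ z, h z = ⟪y, T z⟫ := fun z => rfl
    obtain ⟨u, hu, huh⟩ := H939NI.norming_V h
    have hy1 : ‖h‖ ≤ 1 := by
      have h1 := hy (T u) ⟨u, hu, rfl⟩
      rw [← hval] at h1
      exact huh.trans ((le_abs_self _).trans h1)
    calc ⟪x, y⟫ = h (T.symm x) := by rw [hval, T.apply_symm_apply, real_inner_comm]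
      _ ≤ ‖h (T.symm x)‖ := Real.le_norm_self _
      _ ≤ ‖h‖ * ‖T.symm x‖ := h.le_opNorm _
      _ ≤ 1 * 1 := mul_le_mul hy1 hx1 (norm_nonneg _) zero_le_one
      _ = 1 := one_mul 1

/-- There is c>0 such that for every m≥1 and every real m-dimensional normed space X with numerical index 1, every linear isomorphism T from X onto Euclidean R^m satisfies ‖T‖·‖T⁻¹‖ ≥ c·√m. -/
theorem result :
    ∃ c : ℝ, 0 < c ∧
      ∀ (m : ℕ), 1 ≤ m →
        ∀ (X : Type) [NormedAddCommGroup X] [NormedSpace ℝ X] [FiniteDimensional ℝ X],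
          Module.finrank ℝ X = m →
          (∀ T : X →L[ℝ] X, ∀ r : ℝ, r < ‖T‖ →
            ∃ u : X, ∃ f : X →L[ℝ] ℝ,
              ‖u‖ = 1 ∧ ‖f‖ = 1 ∧ f u = 1 ∧ r < |f (T u)|) →
          ∀ T : X ≃L[ℝ] EuclideanSpace ℝ (Fin m),
            c * Real.sqrt (m : ℝ) ≤
              ‖(T : X →L[ℝ] EuclideanSpace ℝ (Fin m))‖ *
                ‖(T.symm : EuclideanSpace ℝ (Fin m) →L[ℝ] X)‖ := by
  refine ⟨Real.sqrt (2 / (Real.pi * Real.exp 1)), Real.sqrt_pos.2 (by positivity), ?_⟩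
  intro m hm X _ _ _ hX hn T
  have h := key m hm X hX hn T
  rw [← Real.sqrt_mul (by positivity)]
  refine Real.sqrt_le_iff.2 ⟨by positivity, h⟩

end Pool.Agent.S04245
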