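import Pool.Statements.S04252
-- import your own Pool.Agent.* helpers here

set_option autoImplicit false
open Filter Topology
open Pool Pool.MP_309e42_an

namespace Pool.Agent.S04252

/-- coefficients of the entire function sin (sqrt z) / sqrt z -/
noncomputable def cf (k : ℕ) : ℂ := (-1) ^ k / ((2 * k + 1).factorial : ℂ)

/-- the entire function sin (sqrt z) / sqrt z -/
noncomputable def sf (z : ℂ) : ℂ := ∑' k, cf k * z ^ k

theorem cf_ne (k : ℕ) : cf k ≠ 0 := by
  unfold cf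
  apply div_ne_zero
  · exact pow_ne_zero _ (by norm_num)
  · exact_mod_cast (Nat.factorial_pos _).ne'

theorem norm_cf (k : ℕ) : ‖cf k‖ = 1 / ((2 * k + 1).factorial : ℝ) := by
  unfold cf
  rw [norm_div, norm_pow, norm_neg, norm_one, one_pow, Complex.norm_natCast]

theorem norm_term_le {r : ℝ} (hr : 0 ≤ r) {z : ℂ} (hz : ‖z‖ = r) (k : ℕ) :
    ‖cf k * z ^ k‖ ≤ Real.sqrt r ^ (2 * k) / ((2 * k).factorial : ℝ) := by
  rw [norm_mul, norm_cf, norm_pow, hz, pow_mul, Real.sq_sqrt hr, one_div, inv_mul_eq_div]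
  apply div_le_div_of_nonneg_left (by positivity) (by positivity)
  exact_mod_cast Nat.factorial_le (Nat.le_succ _)

theorem summable_even (x : ℝ) : Summable fun k : ℕ => x ^ (2 * k) / ((2 * k).factorial : ℝ) :=
  (Real.summable_pow_div_factorial x).comp_injective
    (i := fun k : ℕ => 2 * k) (fun a b h => by simpa using h)

theorem summable_term (z : ℂ) : Summable fun k => cf k * z ^ k :=
  Summable.of_norm_bounded (summable_even (Real.sqrt ‖z‖))
    (fun k => norm_term_le (norm_nonneg z) rfl k)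

theorem norm_sf_le (z : ℂ) : ‖sf z‖ ≤ Real.exp (Real.sqrt ‖z‖) := by
  have h1 : ‖sf z‖ ≤ ∑' k : ℕ, Real.sqrt ‖z‖ ^ (2 * k) / ((2 * k).factorial : ℝ) :=
    tsum_of_norm_bounded (summable_even (Real.sqrt ‖z‖)).hasSum
      (fun k => norm_term_le (norm_nonneg z) rfl k)
  refine h1.trans ?_
  rw [Real.exp_eq_exp_ℝ, NormedSpace.exp_eq_tsum_div]
  have hs := Real.summable_pow_div_factorial (Real.sqrt ‖z‖)
  have h2 := tsum_comp_le_tsum_of_inj hs (fun n => by positivity)
    (i := fun k : ℕ => 2 * k) (fun a b h => by simpa using h)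
  exact h2

theorem sf_sq (w : ℂ) : sf (w ^ 2) * w = Complex.sin w := by
  have h : HasSum (fun k => cf k * (w ^ 2) ^ k * w) (Complex.sin w) := by
    have h := Complex.hasSum_sin w
    have e : (fun k => cf k * (w ^ 2) ^ k * w) =
        fun n : ℕ => (-1) ^ n * w ^ (2 * n + 1) / ((2 * n + 1).factorial : ℂ) := by
      funext k
      unfold cf
      ring
    rw [e]; exact h
  have h2 : HasSum (fun k => cf k * (w ^ 2) ^ k * w) (sf (w ^ 2) * w) :=
    (summable_term (w ^ 2)).hasSum.mul_right w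
  exact h2.unique h

theorem hasFPS : HasFPowerSeriesOnBall sf (FormalMultilinearSeries.ofScalars ℂ cf) 0 ⊤ := by
  have hr : (FormalMultilinearSeries.ofScalars ℂ cf).radius = ⊤ := by
    apply FormalMultilinearSeries.radius_eq_top_of_summable_norm
    intro r
    have h := summable_even (Real.sqrt r)
    refine Summable.of_nonneg_of_le (fun n => by positivity) (fun n => ?_) h
    have h1 : ‖FormalMultilinearSeries.ofScalars ℂ cf n‖ ≤ ‖cf n‖ := by
      have := FormalMultilinearSeries.ofScalars_norm (E := ℂ) cf n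
      exact this.le
    have h2 := norm_term_le (r := (r : ℝ)) (NNReal.coe_nonneg r) (z := ((r : ℝ) : ℂ)) (by simp) n
    rw [norm_mul, norm_pow, Complex.norm_real, Real.norm_of_nonneg (NNReal.coe_nonneg r)] at h2
    exact (mul_le_mul_of_nonneg_right h1 (by positivity)).trans h2
  have h := (FormalMultilinearSeries.ofScalars ℂ cf).hasFPowerSeriesOnBall (by rw [hr]; simp)
  rw [hr] at h
  have e : sf = (FormalMultilinearSeries.ofScalars ℂ cf).sum := by
    funext z
    unfold sf FormalMultilinearSeries.sum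
    congr 1
    funext k
    simp [mul_comm]
  rw [e]
  exact h

theorem sf_diff : Differentiable ℂ sf := by
  have h := hasFPS.differentiableOn
  rw [Metric.eball_top] at h
  exact differentiableOn_univ.mp h

theorem sf_deriv (n : ℕ) : iteratedDeriv n sf 0 ≠ 0 := by
  have h := hasFPS.factorial_smul (1 : ℂ) n
  rw [iteratedDeriv_eq_iteratedFDeriv, ← h]
  simp only [FormalMultilinearSeries.ofScalars_apply_eq, one_pow, smul_eq_mul, mul_one]
  rw [nsmul_eq_mul]
  exact mul_ne_zero (by exact_mod_cast (Nat.factorial_pos _).ne') (cf_ne n)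

theorem card_eq {x : ℝ} (hx : 0 ≤ x) :
    Nat.card {n : ℕ // iteratedDeriv n sf 0 ≠ 0 ∧ (n : ℝ) ≤ x} = ⌊x⌋₊ + 1 := by
  have e : {n : ℕ | iteratedDeriv n sf 0 ≠ 0 ∧ (n : ℝ) ≤ x} = Set.Iio (⌊x⌋₊ + 1) := by
    ext n
    simp only [Set.mem_ofPred_eq, Set.mem_Iio]
    constructor
    · rintro ⟨_, h⟩
      exact Nat.lt_succ_of_le (Nat.le_floor h)
    · intro h
      exact ⟨sf_deriv n, (Nat.le_floor_iff hx).mp (Nat.lt_succ_iff.mp h)⟩
  have h2 : Nat.card {n : ℕ // iteratedDeriv n sf 0 ≠ 0 ∧ (n : ℝ) ≤ x} =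
      Nat.card (Set.Iio (⌊x⌋₊ + 1) : Set ℕ) := by
    rw [← e]; rfl
  rw [h2]
  simp

theorem dens_tendsto {ξ : ℝ} (h0 : 0 < ξ) (h1 : ξ < 1) :
    Tendsto (fun t : ℝ =>
      (((Nat.card {n : ℕ // iteratedDeriv n sf 0 ≠ 0 ∧ (n : ℝ) ≤ t} : ℕ) : ℝ) -
        ((Nat.card {n : ℕ // iteratedDeriv n sf 0 ≠ 0 ∧ (n : ℝ) ≤ ξ * t} : ℕ) : ℝ)) /
        ((1 - ξ) * t)) atTop (𝓝 1) := by
  have hc : 0 < 1 - ξ := by linarith
  have hlow : Tendsto (fun t : ℝ => 1 - (1 / (1 - ξ)) * t⁻¹) atTop (𝓝 1) := by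
    have := (tendsto_inv_atTop_zero (𝕜 := ℝ)).const_mul (1 / (1 - ξ))
    simpa using this.const_sub 1
  have hhigh : Tendsto (fun t : ℝ => 1 + (1 / (1 - ξ)) * t⁻¹) atTop (𝓝 1) := by
    have := (tendsto_inv_atTop_zero (𝕜 := ℝ)).const_mul (1 / (1 - ξ))
    simpa using this.const_add 1
  refine tendsto_of_tendsto_of_tendsto_of_le_of_le' hlow hhigh ?_ ?_
  · filter_upwards [eventually_gt_atTop 0] with t ht
    rw [card_eq ht.le, card_eq (by positivity)]
    have a1 := Nat.lt_floor_add_one t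
    have a2 := Nat.floor_le (show 0 ≤ ξ * t by positivity)
    push_cast
    rw [le_div_iff₀ (by positivity)]
    have : (1 - 1 / (1 - ξ) * t⁻¹) * ((1 - ξ) * t) = (1 - ξ) * t - 1 := by
      field_simp
    rw [this]
    linarith
  · filter_upwards [eventually_gt_atTop 0] with t ht
    rw [card_eq ht.le, card_eq (by positivity)]
    have a1 := Nat.lt_floor_add_one (ξ * t)
    have a2 := Nat.floor_le ht.le
    push_cast
    rw [div_le_iff₀ (by positivity)]
    have : (1 + 1 / (1 - ξ) * t⁻¹) * ((1 - ξ) * t) = (1 - ξ) * t + 1 := by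
      field_simp
    rw [this]
    linarith

/-- The negation of the preceding statement: Every non-constant entire f of finite order ρ whose exponent set (nonzero Taylor coefficients) has maximal Pólya density Δ with ρΔ<1 has no finite asymptotic value along any curve tending to infinity. -/
theorem result :
    ¬ (∀ f : ℂ → ℂ, Differentiable ℂ f → (∃ z w : ℂ, f z ≠ f w) →
    ∀ ρ Δ : ℝ,
      (∀ ε : ℝ, 0 < ε → ∀ᶠ r : ℝ in atTop, ∀ z : ℂ, ‖z‖ = r →
          ‖f z‖ ≤ Real.exp (r ^ (ρ + ε))) →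
      Tendsto (fun ξ : ℝ => Filter.limsup (fun t : ℝ =>
          (((Nat.card {n : ℕ // iteratedDeriv n f 0 ≠ 0 ∧ (n : ℝ) ≤ t} : ℕ) : ℝ) -
            ((Nat.card {n : ℕ // iteratedDeriv n f 0 ≠ 0 ∧ (n : ℝ) ≤ ξ * t} : ℕ) : ℝ)) /
            ((1 - ξ) * t)) atTop)
        (𝓝[<] (1 : ℝ)) (𝓝 Δ) →
      ρ * Δ < 1 →
      ¬ ∃ a : ℂ, ∃ γ : ℝ → ℂ, Continuous γ ∧
          Tendsto (fun t : ℝ => ‖γ t‖) atTop atTop ∧
          Tendsto (fun t : ℝ => f (γ t)) atTop (𝓝 a)) := by
  intro H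
  refine H sf sf_diff ?_ (1 / 2) 1 ?_ ?_ (by norm_num) ?_
  · -- non-constant
    refine ⟨0, ((Real.pi : ℂ)) ^ 2, ?_⟩
    have h1 := sf_sq (Real.pi : ℂ)
    rw [Complex.sin_pi] at h1
    have hpi : (Real.pi : ℂ) ≠ 0 := by exact_mod_cast Real.pi_ne_zero
    have h2 : sf ((Real.pi : ℂ) ^ 2) = 0 := (mul_eq_zero.mp h1).resolve_right hpi
    rw [h2]
    have h3 := sf_deriv 0
    rwa [iteratedDeriv_zero] at h3
  · -- growth
    intro ε hε
    filter_upwards [eventually_ge_atTop 1] with r hr z hz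
    refine (norm_sf_le z).trans ?_
    rw [hz, Real.exp_le_exp, Real.sqrt_eq_rpow]
    exact Real.rpow_le_rpow_of_exponent_le hr (by linarith)
  · -- density
    apply tendsto_const_nhds.congr'
    have hnb : Set.Ioo (0 : ℝ) 1 ∈ 𝓝[<] (1 : ℝ) := Ioo_mem_nhdsLT one_pos
    filter_upwards [hnb] with ξ hξ
    exact ((dens_tendsto hξ.1 hξ.2).limsup_eq).symm
  · -- asymptotic value
    refine ⟨0, fun t => (t : ℂ), Complex.continuous_ofReal, ?_, ?_⟩
    · simp only [Complex.norm_real]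
      exact tendsto_norm_atTop_atTop
    · rw [tendsto_zero_iff_norm_tendsto_zero]
      have hb : Tendsto (fun t : ℝ => (Real.sqrt t)⁻¹) atTop (𝓝 0) :=
        tendsto_inv_atTop_zero.comp Real.tendsto_sqrt_atTop
      refine squeeze_zero' (Eventually.of_forall fun t => norm_nonneg _) ?_ hb
      filter_upwards [eventually_gt_atTop 0] with t ht
      have hs : 0 < Real.sqrt t := Real.sqrt_pos.mpr ht
      have h1 := sf_sq ((Real.sqrt t : ℝ) : ℂ)
      have h2 : (((Real.sqrt t : ℝ) : ℂ)) ^ 2 = (t : ℂ) := by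
        rw [← Complex.ofReal_pow, Real.sq_sqrt ht.le]
      rw [h2, ← Complex.ofReal_sin] at h1
      have h3 : ‖sf (t : ℂ)‖ * Real.sqrt t = |Real.sin (Real.sqrt t)| := by
        have := congrArg norm h1
        rwa [norm_mul, Complex.norm_real, Complex.norm_real, Real.norm_of_nonneg hs.le,
          Real.norm_eq_abs] at this
      have h4 : ‖sf (t : ℂ)‖ * Real.sqrt t ≤ 1 := h3.le.trans (Real.abs_sin_le_one _)
      rw [← one_div, le_div_iff₀ hs]
      exact h4

end Pool.Agent.S04252
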