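import Pool.Statements.S04283
import Pool.Agent.TH332.BL.Lip

set_option autoImplicit false
open MeasureTheory
open Pool Pool.MP_32c791_an

namespace Pool.Agent.S04283

open Pool.Agent.TH332.BL in
theorem aux_sum {d : ℕ} (M : Matrix (Fin d ⊕ Fin d) (Fin d ⊕ Fin d) ℝ) {g : X d → ℂ}
    (hg : MemLp g 2 volume) (s : Finset (Fin d ⊕ Fin d → ℤ)) (c : (Fin d ⊕ Fin d → ℤ) → ℂ) :
    ‖∑ k ∈ s, c k • (SS M).π k (hg.toLp g)‖ ^ 2 =
      ∫ x, ‖∑ k ∈ s, c k * (ch (bM M k) x * g (x - aM M k))‖ ^ 2 := by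
  have h : ((∑ k ∈ s, c k • (SS M).π k (hg.toLp g) : HH d) : X d → ℂ) =ᵐ[volume]
      fun x => ∑ k ∈ s, c k * (ch (bM M k) x * g (x - aM M k)) := by
    classical
    induction s using Finset.induction_on with
    | empty =>
      simp only [Finset.sum_empty]
      exact Lp.coeFn_zero _ _ _
    | insert a s ha ih =>
      simp only [Finset.sum_insert ha]
      have hw : (SS M).π a (hg.toLp g) = (wf_memLp (aM M a) (bM M a) hg).toLp _ := W_toLp _ _ hg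
      filter_upwards [ih, Lp.coeFn_add (c a • (SS M).π a (hg.toLp g))
        (∑ k ∈ s, c k • (SS M).π k (hg.toLp g)), Lp.coeFn_smul (c a) ((SS M).π a (hg.toLp g)),
        (wf_memLp (aM M a) (bM M a) hg).coeFn_toLp] with x h1 h2 h3 h4
      rw [h2, Pi.add_apply, h1, h3, Pi.smul_apply, hw, h4]
      rfl
  rw [hh_norm_sq]
  refine integral_congr_ae ?_
  filter_upwards [h] with x hx
  rw [hx]

/-- For every dimension d and every lattice M·Z^{2d} in R^{2d}, if the Gabor system of g in L^2(R^d) over that lattice is a Riesz basis, then ∣x∣g is not in L^2 or g is not in H^1, i.e. ∣ξ∣ĝ is not in L^2. -/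
theorem result :
  ∀ (d : ℕ), 0 < d →
  ∀ (M : Matrix (Fin d ⊕ Fin d) (Fin d ⊕ Fin d) ℝ), M.det ≠ 0 →
  ∀ (g : (Fin d → ℝ) → ℂ), MemLp g 2 volume →
  ((∀ h : (Fin d → ℝ) → ℂ, MemLp h 2 volume →
      (∀ k : Fin d ⊕ Fin d → ℤ,
        ∫ x, (starRingEnd ℂ) (h x) *
          (Complex.exp (2 * (Real.pi : ℂ) * Complex.I *
              ((∑ j, Matrix.mulVec M (fun i => ((k i : ℤ) : ℝ)) (Sum.inr j) * x j : ℝ) : ℂ)) *
            g (x - fun j => Matrix.mulVec M (fun i => ((k i : ℤ) : ℝ)) (Sum.inl j))) = 0) →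
      h =ᵐ[volume] 0) ∧
    ∃ A B : ℝ, 0 < A ∧ 0 < B ∧
      ∀ (s : Finset (Fin d ⊕ Fin d → ℤ)) (c : (Fin d ⊕ Fin d → ℤ) → ℂ),
        A * ∑ k ∈ s, ‖c k‖ ^ 2 ≤
          ∫ x, ‖∑ k ∈ s, c k *
            (Complex.exp (2 * (Real.pi : ℂ) * Complex.I *
                ((∑ j, Matrix.mulVec M (fun i => ((k i : ℤ) : ℝ)) (Sum.inr j) * x j : ℝ) : ℂ)) *
              g (x - fun j => Matrix.mulVec M (fun i => ((k i : ℤ) : ℝ)) (Sum.inl j)))‖ ^ 2 ∧
        ∫ x, ‖∑ k ∈ s, c k *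
            (Complex.exp (2 * (Real.pi : ℂ) * Complex.I *
                ((∑ j, Matrix.mulVec M (fun i => ((k i : ℤ) : ℝ)) (Sum.inr j) * x j : ℝ) : ℂ)) *
              g (x - fun j => Matrix.mulVec M (fun i => ((k i : ℤ) : ℝ)) (Sum.inl j)))‖ ^ 2
          ≤ B * ∑ k ∈ s, ‖c k‖ ^ 2) →
  ¬ (Integrable (fun x : Fin d → ℝ => (∑ j, x j ^ 2) * ‖g x‖ ^ 2) volume ∧
     ∀ j : Fin d, ∃ h : (Fin d → ℝ) → ℂ, MemLp h 2 volume ∧
       ∀ φ : (Fin d → ℝ) → ℂ, ContDiff ℝ ((⊤ : ℕ∞) : WithTop ℕ∞) φ → HasCompactSupport φ →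
         ∫ x, g x * fderiv ℝ φ x (Pi.single j (1 : ℝ) : Fin d → ℝ) = - ∫ x, h x * φ x) := by
  intro d hd M _ g hg hRB
  obtain ⟨hcomp, A, B, hA, hB, hAB⟩ := hRB
  rintro ⟨hx, hder⟩
  choose h hh hwd using hder
  classical
  have hcomp' : ∀ f : Pool.Agent.TH332.BL.HH d,
      (∀ k, inner ℂ ((Pool.Agent.TH332.BL.SS M).π k (hg.toLp g)) f = 0) → f = 0 := by
    intro f hf
    rw [Lp.eq_zero_iff_ae_eq_zero]
    refine hcomp _ (Lp.memLp f) fun k => ?_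
    have h1 := hf k
    rw [← inner_conj_symm] at h1
    have h2 : inner ℂ f ((Pool.Agent.TH332.BL.SS M).π k (hg.toLp g)) = 0 := by
      have h3 := congrArg (starRingEnd ℂ) h1
      rwa [Complex.conj_conj, map_zero] at h3
    rw [L2.inner_def] at h2
    rw [← h2]
    have hw : (Pool.Agent.TH332.BL.SS M).π k (hg.toLp g) =
      (Pool.Agent.TH332.BL.wf_memLp (Pool.Agent.TH332.BL.aM M k)
        (Pool.Agent.TH332.BL.bM M k) hg).toLp _ := Pool.Agent.TH332.BL.W_toLp _ _ hg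
    rw [hw]
    refine integral_congr_ae ?_
    filter_upwards [(Pool.Agent.TH332.BL.wf_memLp (Pool.Agent.TH332.BL.aM M k)
        (Pool.Agent.TH332.BL.bM M k) hg).coeFn_toLp] with x h4
    rw [h4, RCLike.inner_apply, mul_comm]
    rfl
  obtain ⟨T, hT⟩ := Pool.Agent.TH332.BL.exists_T
    (fun k => (Pool.Agent.TH332.BL.SS M).π k (hg.toLp g)) hA hB.le
    (fun s c => by rw [aux_sum]; exact (hAB s c).1)
    (fun s c => by rw [aux_sum]; exact (hAB s c).2) hcomp'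
  obtain ⟨g', hg'⟩ := Pool.Agent.TH332.BL.quotU M ⟨0, hd⟩ hg hx
  have hπ : (2 * Real.pi : ℝ) ≠ 0 := by positivity
  exact Pool.Agent.TH332.BL.balian_low hT hcomp' (Pool.Agent.TH332.BL.CU M ⟨0, hd⟩)
    (Pool.Agent.TH332.BL.CV M ⟨0, hd⟩) hπ
    (Pool.Agent.TH332.BL.CUV M ⟨0, hd⟩) hg'
    (Pool.Agent.TH332.BL.lipV M ⟨0, hd⟩ hg hh (fun i => hwd i))

end Pool.Agent.S04283
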