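import Pool.Statements.S04319
-- import your own Pool.Agent.* helpers here
import Pool.Agent.TH142.PN.Core
import Pool.Agent.TH554.PN.W1
import Pool.Agent.TH416.PNW.W2a
import Pool.Agent.TH416.PNW.W2b
import Pool.Agent.TH416.PNW.W2c

set_option autoImplicit false
open Pool Pool.MP_35c333_an

namespace Pool.Agent.S04319

/-- For G/Γ with G a nilpotent Lie group, Γ discrete cocompact, and translation by g with every power minimal: for integer polynomials p_i with p_i(0)=0, k≥1, 0≤j<k, and nonempty open U, some n≥1 has x in U with g^{p_i(kn+j)}x in U for all i. -/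
theorem result :
  ∀ (E : Type) [NormedAddCommGroup E] [NormedSpace ℝ E] [FiniteDimensional ℝ E]
    (G : Type) [Group G] [TopologicalSpace G] [ChartedSpace E G]
    [LieGroup (modelWithCornersSelf ℝ E) ((⊤ : ℕ∞) : WithTop ℕ∞) G] [Group.IsNilpotent G]
    (Γ : Subgroup G), DiscreteTopology Γ → CompactSpace (G ⧸ Γ) →
    ∀ g : G, (∀ m : ℕ, 0 < m → ∀ x : G ⧸ Γ,
        Dense (Set.range (fun n : ℤ => (g ^ m) ^ n • x))) →
    ∀ (d : ℕ) (p : Fin d → Polynomial ℤ), (∀ i, (p i).eval 0 = 0) →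
    ∀ k : ℕ, 0 < k → ∀ j : ℕ, j < k →
    ∀ U : Set (G ⧸ Γ), IsOpen U → U.Nonempty →
    ∃ n : ℕ, 0 < n ∧ ∃ x ∈ U, ∀ i, g ^ ((p i).eval ((k : ℤ) * (n : ℤ) + (j : ℤ))) • x ∈ U := by
  intro E _ _ _ G _ _ _ _ _ Γ _ hcomp g hmin d p hp k hk j _ U hU hne
  have htop : IsTopologicalGroup G :=
    topologicalGroup_of_lieGroup (modelWithCornersSelf ℝ E) ((⊤ : ℕ∞) : WithTop ℕ∞)
  obtain ⟨x0, hx0⟩ := hne
  obtain ⟨N, ⟨m⟩⟩ := Pool.Agent.TH554.PN.exists_mdl (E := E) g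
  obtain ⟨hsurj, S, hS⟩ := Pool.Agent.TH416.PN.exists_fits hmin m x0
  have hirr := Pool.Agent.TH416.PN.irr_of_fits hmin m x0 hsurj hS
  obtain ⟨ε, hε, hnear⟩ := Pool.Agent.TH416.PN.near_of_fits m x0 hS (hU.mem_nhds hx0)
  obtain ⟨n, hn, l, h⟩ := Pool.Agent.TH142.PN.core (ι := Option (Fin d)) S hirr
    (fun i => i.elim 0 p) (fun i => by cases i with
      | none => simp
      | some i => exact hp i) hk j hε
  have h1 : g ^ (l : ℤ) • x0 ∈ U := by
    obtain ⟨x, hx, hxε⟩ := h none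
    refine hnear _ x hx ?_
    simpa using hxε
  refine ⟨n, hn, g ^ (l : ℤ) • x0, h1, fun i => ?_⟩
  obtain ⟨x, hx, hxε⟩ := h (some i)
  rw [smul_smul, ← zpow_add, add_comm]
  exact hnear _ x hx hxε

end Pool.Agent.S04319
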