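import Pool.Statements.S04363
import Pool.Agent.TH315.TWH.Main

set_option autoImplicit false
open Pool Pool.MP_38e422_an

namespace Pool.Agent.S04363

open Pool.Agent.TH315.TWH

/-- There is an infinite-dimensional real Banach space X with a closed subspace Y such that Y and X/Y are both isomorphic to Hilbert spaces, yet no bounded linear operator J on X satisfies J∘J = −Id. -/
theorem result :
    ∃ (X : Type) (_ : NormedAddCommGroup X) (_ : NormedSpace ℝ X) (_ : CompleteSpace X)
      (Y : Submodule ℝ X),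
      IsClosed (Y : Set X) ∧
      ¬ FiniteDimensional ℝ X ∧
      (∃ (H : Type) (_ : NormedAddCommGroup H) (_ : InnerProductSpace ℝ H) (_ : CompleteSpace H),
        Nonempty (Y ≃L[ℝ] H)) ∧
      (∃ (H' : Type) (_ : NormedAddCommGroup H') (_ : InnerProductSpace ℝ H') (_ : CompleteSpace H'),
        Nonempty ((X ⧸ Y) ≃L[ℝ] H')) ∧
      ¬ ∃ J : X →L[ℝ] X, J.comp J = -(ContinuousLinearMap.id ℝ X) := by
  refine ⟨XX P0, inferInstance, inferInstance, inferInstance, YY, YY_closed, infinite_dim,
    ⟨HS P0, inferInstance, inferInstance, inferInstance, ?_⟩,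
    ⟨HS P0, inferInstance, inferInstance, inferInstance, ?_⟩, ?_⟩
  · have hcl : IsClosed (Set.range (io P0)) := by
      have : Set.range (io P0) = (YY : Set (XX P0)) := by
        rw [← range_io]; rfl
      rw [this]; exact YY_closed
    have e1 : HS P0 ≃L[ℝ] (io P0).range := (io P0).equivRange (io_inj P0) hcl
    rw [range_io] at e1
    exact ⟨e1.symm⟩
  · have : IsClosed (YY : Set (XX P0)) := YY_closed
    let g : (XX P0 ⧸ YY) →L[ℝ] HS P0 := YY.liftQL (pr P0) le_rfl
    have hinj : g.ker = ⊥ := by
      show (YY.liftQ (pr P0).toLinearMap le_rfl).ker = ⊥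
      exact Submodule.ker_liftQ_eq_bot _ _ _ le_rfl
    have hsurj : g.range = ⊤ := by
      rw [LinearMap.range_eq_top]
      intro y
      obtain ⟨z, hz⟩ := pr_surj P0 y
      exact ⟨YY.mkQ z, hz⟩
    exact ⟨ContinuousLinearEquiv.ofBijective g hinj hsurj⟩
  · rintro ⟨J, hJ⟩
    exact no_complex J hJ

end Pool.Agent.S04363
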