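import Pool.Statements.S04502
import Pool.Agent.TH309.Tor.Fin

set_option autoImplicit false
open Pool Pool.MP_43750c_an

namespace Pool.Agent.S04502

/-- The negation of the preceding statement: For every smooth metric on the torus, given by a periodic positive-definite cometric, if its geodesic flow has a nonzero cubic-in-momenta smooth integral, then it has a nonzero linear-in-momenta integral, i.e. a nonzero Killing vector field. -/
theorem result :
    ¬ (∀ a b c : ℝ → ℝ → ℝ,
    ContDiff ℝ ((⊤ : ℕ∞) : WithTop ℕ∞) (Function.uncurry a) →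
    ContDiff ℝ ((⊤ : ℕ∞) : WithTop ℕ∞) (Function.uncurry b) →
    ContDiff ℝ ((⊤ : ℕ∞) : WithTop ℕ∞) (Function.uncurry c) →
    (∀ x y : ℝ, a (x + 1) y = a x y ∧ a x (y + 1) = a x y) →
    (∀ x y : ℝ, b (x + 1) y = b x y ∧ b x (y + 1) = b x y) →
    (∀ x y : ℝ, c (x + 1) y = c x y ∧ c x (y + 1) = c x y) →
    (∀ x y : ℝ, 0 < a x y ∧ 0 < a x y * c x y - b x y ^ 2) →
    (∃ A B C D : ℝ → ℝ → ℝ,
      ContDiff ℝ ((⊤ : ℕ∞) : WithTop ℕ∞) (Function.uncurry A) ∧
      ContDiff ℝ ((⊤ : ℕ∞) : WithTop ℕ∞) (Function.uncurry B) ∧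
      ContDiff ℝ ((⊤ : ℕ∞) : WithTop ℕ∞) (Function.uncurry C) ∧
      ContDiff ℝ ((⊤ : ℕ∞) : WithTop ℕ∞) (Function.uncurry D) ∧
      (∀ x y : ℝ, A (x + 1) y = A x y ∧ A x (y + 1) = A x y) ∧
      (∀ x y : ℝ, B (x + 1) y = B x y ∧ B x (y + 1) = B x y) ∧
      (∀ x y : ℝ, C (x + 1) y = C x y ∧ C x (y + 1) = C x y) ∧
      (∀ x y : ℝ, D (x + 1) y = D x y ∧ D x (y + 1) = D x y) ∧
      (∃ x y : ℝ, A x y ≠ 0 ∨ B x y ≠ 0 ∨ C x y ≠ 0 ∨ D x y ≠ 0) ∧
      ∀ x y p q : ℝ,
        (2 * a x y * p + 2 * b x y * q) *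
            deriv (fun t => A t y * p ^ 3 + B t y * p ^ 2 * q + C t y * p * q ^ 2 + D t y * q ^ 3) x
          + (2 * b x y * p + 2 * c x y * q) *
            deriv (fun t => A x t * p ^ 3 + B x t * p ^ 2 * q + C x t * p * q ^ 2 + D x t * q ^ 3) y
          - deriv (fun t => a t y * p ^ 2 + 2 * b t y * p * q + c t y * q ^ 2) x *
            (3 * A x y * p ^ 2 + 2 * B x y * p * q + C x y * q ^ 2)
          - deriv (fun t => a x t * p ^ 2 + 2 * b x t * p * q + c x t * q ^ 2) y *
            (B x y * p ^ 2 + 2 * C x y * p * q + 3 * D x y * q ^ 2) = 0) →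
    ∃ X Y : ℝ → ℝ → ℝ,
      ContDiff ℝ ((⊤ : ℕ∞) : WithTop ℕ∞) (Function.uncurry X) ∧
      ContDiff ℝ ((⊤ : ℕ∞) : WithTop ℕ∞) (Function.uncurry Y) ∧
      (∀ x y : ℝ, X (x + 1) y = X x y ∧ X x (y + 1) = X x y) ∧
      (∀ x y : ℝ, Y (x + 1) y = Y x y ∧ Y x (y + 1) = Y x y) ∧
      (∃ x y : ℝ, X x y ≠ 0 ∨ Y x y ≠ 0) ∧
      ∀ x y p q : ℝ,
        (2 * a x y * p + 2 * b x y * q) * deriv (fun t => X t y * p + Y t y * q) x
          + (2 * b x y * p + 2 * c x y * q) * deriv (fun t => X x t * p + Y x t * q) y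
          - deriv (fun t => a t y * p ^ 2 + 2 * b t y * p * q + c t y * q ^ 2) x * X x y
          - deriv (fun t => a x t * p ^ 2 + 2 * b x t * p * q + c x t * q ^ 2) y * Y x y = 0) := by
  intro h
  obtain ⟨P⟩ := Pool.Agent.TH309.Tor.exists_pack
  have hS := P.contDiff_S
  have hA := P.contDiff_A
  have hB := P.contDiff_B
  have dS : Differentiable ℝ P.S := hS.differentiable (by simp)
  have dA : Differentiable ℝ P.A := hA.differentiable (by simp)
  have dB : Differentiable ℝ P.B := hB.differentiable (by simp)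
  have pS1 : ∀ x y, Pool.Agent.TH309.Tor.sc P.S (x + 1) y = Pool.Agent.TH309.Tor.sc P.S x y :=
    fun x y => Pool.Agent.TH309.Tor.sc_per1 (P := P) (f := fun w => 1 + w.1) x y
  have pS2 : ∀ x y, Pool.Agent.TH309.Tor.sc P.S x (y + 1) = Pool.Agent.TH309.Tor.sc P.S x y :=
    fun x y => Pool.Agent.TH309.Tor.sc_per2 (P := P) (f := fun w => 1 + w.1) x y
  have pA1 : ∀ x y, Pool.Agent.TH309.Tor.sc P.A (x + 1) y = Pool.Agent.TH309.Tor.sc P.A x y :=
    fun x y => Pool.Agent.TH309.Tor.sc_per1 (P := P) (f := fun w => w.2.1) x y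
  have pA2 : ∀ x y, Pool.Agent.TH309.Tor.sc P.A x (y + 1) = Pool.Agent.TH309.Tor.sc P.A x y :=
    fun x y => Pool.Agent.TH309.Tor.sc_per2 (P := P) (f := fun w => w.2.1) x y
  have pB1 : ∀ x y, Pool.Agent.TH309.Tor.sc P.B (x + 1) y = Pool.Agent.TH309.Tor.sc P.B x y :=
    fun x y => Pool.Agent.TH309.Tor.sc_per1 (P := P) (f := fun w => w.2.2) x y
  have pB2 : ∀ x y, Pool.Agent.TH309.Tor.sc P.B x (y + 1) = Pool.Agent.TH309.Tor.sc P.B x y :=
    fun x y => Pool.Agent.TH309.Tor.sc_per2 (P := P) (f := fun w => w.2.2) x y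
  have cS := Pool.Agent.TH309.Tor.sc_contDiff hS
  have cA := Pool.Agent.TH309.Tor.sc_contDiff hA
  have cB := Pool.Agent.TH309.Tor.sc_contDiff hB
  set s := Pool.Agent.TH309.Tor.sc P.S with hs
  set a := Pool.Agent.TH309.Tor.sc P.A with ha
  set b := Pool.Agent.TH309.Tor.sc P.B with hb
  obtain ⟨X, Y, hX, hY, hXp, hYp, ⟨x0, y0, hne⟩, hK⟩ := h s (fun x y => -(s x y) / 2) s cS
    (by
      have : Function.uncurry (fun x y => -(s x y) / 2) = fun p => -(Function.uncurry s p) / 2 := rfl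
      rw [this]
      exact cS.neg.div_const 2) cS
    (fun x y => ⟨pS1 x y, pS2 x y⟩)
    (fun x y => ⟨by rw [pS1], by rw [pS2]⟩)
    (fun x y => ⟨pS1 x y, pS2 x y⟩)
    (fun x y => by
      have : 0 < s x y := P.S_pos _
      refine ⟨this, ?_⟩
      nlinarith)
    ⟨a, fun x y => 1 + b x y - a x y, fun x y => -(1 + b x y - a x y), b, cA,
      by
        have : Function.uncurry (fun x y => 1 + b x y - a x y) =
          fun p => 1 + Function.uncurry b p - Function.uncurry a p := rfl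
        rw [this]
        exact (contDiff_const.add cB).sub cA,
      by
        have : Function.uncurry (fun x y => -(1 + b x y - a x y)) =
          fun p => -(1 + Function.uncurry b p - Function.uncurry a p) := rfl
        rw [this]
        exact ((contDiff_const.add cB).sub cA).neg, cB,
      fun x y => ⟨pA1 x y, pA2 x y⟩,
      fun x y => ⟨by simp only; rw [pA1, pB1], by simp only; rw [pA2, pB2]⟩,
      fun x y => ⟨by simp only; rw [pA1, pB1], by simp only; rw [pA2, pB2]⟩,
      fun x y => ⟨pB1 x y, pB2 x y⟩,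
      ⟨0, 0, by
        right; left
        have e : P.Psi (60 * 0, 60 * 0) = 0 := by
          rw [mul_zero]; exact P.Psi_zero
        have e1 : a 0 0 = 0 := by
          show (P.Psi (60 * 0, 60 * 0)).2.1 = 0
          rw [e]; rfl
        have e2 : b 0 0 = 0 := by
          show (P.Psi (60 * 0, 60 * 0)).2.2 = 0
          rw [e]; rfl
        show (1 + b 0 0 - a 0 0 : ℝ) ≠ 0
        rw [e1, e2]; norm_num⟩,
      by
        intro x y p q
        have s1 := Pool.Agent.TH309.Tor.sc_d1 dS x y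
        have s2 := Pool.Agent.TH309.Tor.sc_d2 dS x y
        have a1 := Pool.Agent.TH309.Tor.sc_d1 dA x y
        have a2 := Pool.Agent.TH309.Tor.sc_d2 dA x y
        have b1 := Pool.Agent.TH309.Tor.sc_d1 dB x y
        have b2 := Pool.Agent.TH309.Tor.sc_d2 dB x y
        have hp := P.pde (60 * x, 60 * y)
        rw [← hs] at s1 s2
        rw [← ha] at a1 a2
        rw [← hb] at b1 b2
        have D1 := ((((a1.mul_const (p ^ 3)).fun_add
          (((((b1.const_add 1).fun_sub a1).mul_const (p ^ 2))).mul_const q)).fun_add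
          ((((b1.const_add 1).fun_sub a1).fun_neg.mul_const p).mul_const (q ^ 2))).fun_add
          (b1.mul_const (q ^ 3))).deriv
        have D2 := ((((a2.mul_const (p ^ 3)).fun_add
          (((((b2.const_add 1).fun_sub a2).mul_const (p ^ 2))).mul_const q)).fun_add
          ((((b2.const_add 1).fun_sub a2).fun_neg.mul_const p).mul_const (q ^ 2))).fun_add
          (b2.mul_const (q ^ 3))).deriv
        have D3 := (((s1.mul_const (p ^ 2)).fun_add
          ((((s1.fun_neg.div_const 2).const_mul 2).mul_const p).mul_const q)).fun_add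
          (s1.mul_const (q ^ 2))).deriv
        have D4 := (((s2.mul_const (p ^ 2)).fun_add
          ((((s2.fun_neg.div_const 2).const_mul 2).mul_const p).mul_const q)).fun_add
          (s2.mul_const (q ^ 2))).deriv
        rw [D1, D2, D3, D4]
        obtain ⟨h1, h2, h3⟩ := hp
        have es : s x y = P.S (60 * x, 60 * y) := rfl
        have ea : a x y = P.A (60 * x, 60 * y) := rfl
        have eb : b x y = P.B (60 * x, 60 * y) := rfl
        simp only
        rw [es, ea, eb]
        linear_combination (60 * (p ^ 2 - p * q + q ^ 2)) *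
          (p ^ 2 * h1 + p * q * h3 + q ^ 2 * h2)⟩
  -- the linear integral is constant
  set X' : ℝ × ℝ → ℝ := Function.uncurry X with hX'
  set Y' : ℝ × ℝ → ℝ := Function.uncurry Y with hY'
  have dX : Differentiable ℝ X' := hX.differentiable (by simp)
  have dY : Differentiable ℝ Y' := hY.differentiable (by simp)
  have part1 : ∀ (f : ℝ → ℝ → ℝ), Differentiable ℝ (Function.uncurry f) → ∀ x y,
      HasDerivAt (fun t => f t y) (fderiv ℝ (Function.uncurry f) (x, y) (1, 0)) x := by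
    intro f hf x y
    have h1 : HasDerivAt (fun t : ℝ => ((t, y) : ℝ × ℝ)) (1, 0) x :=
      (hasDerivAt_id x).prodMk (hasDerivAt_const x y)
    exact HasFDerivAt.comp_hasDerivAt (l := Function.uncurry f)
      (f := fun t : ℝ => ((t, y) : ℝ × ℝ)) x (hf (x, y)).hasFDerivAt h1
  have part2 : ∀ (f : ℝ → ℝ → ℝ), Differentiable ℝ (Function.uncurry f) → ∀ x y,
      HasDerivAt (fun t => f x t) (fderiv ℝ (Function.uncurry f) (x, y) (0, 1)) y := by
    intro f hf x y
    have h1 : HasDerivAt (fun t : ℝ => ((x, t) : ℝ × ℝ)) (0, 1) y :=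
      (hasDerivAt_const y x).prodMk (hasDerivAt_id y)
    exact HasFDerivAt.comp_hasDerivAt (l := Function.uncurry f)
      (f := fun t : ℝ => ((x, t) : ℝ × ℝ)) y (hf (x, y)).hasFDerivAt h1
  have eqs : ∀ x y : ℝ, ∀ p q : ℝ,
      s x y * (2 * p - q) * (fderiv ℝ X' (x, y) (1, 0) * p + fderiv ℝ Y' (x, y) (1, 0) * q) +
      s x y * (2 * q - p) * (fderiv ℝ X' (x, y) (0, 1) * p + fderiv ℝ Y' (x, y) (0, 1) * q) -
      60 * (p ^ 2 - p * q + q ^ 2) * (fderiv ℝ P.S (60 * x, 60 * y) (1, 0) * X x y +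
        fderiv ℝ P.S (60 * x, 60 * y) (0, 1) * Y x y) = 0 := by
    intro x y p q
    have hk := hK x y p q
    have s1 := Pool.Agent.TH309.Tor.sc_d1 dS x y
    have s2 := Pool.Agent.TH309.Tor.sc_d2 dS x y
    rw [← hs] at s1 s2
    have D1 := ((((part1 X dX x y).mul_const p)).fun_add ((part1 Y dY x y).mul_const q)).deriv
    have D2 := ((((part2 X dX x y).mul_const p)).fun_add ((part2 Y dY x y).mul_const q)).deriv
    have D3 := (((s1.mul_const (p ^ 2)).fun_add
      ((((s1.fun_neg.div_const 2).const_mul 2).mul_const p).mul_const q)).fun_add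
      (s1.mul_const (q ^ 2))).deriv
    have D4 := (((s2.mul_const (p ^ 2)).fun_add
      ((((s2.fun_neg.div_const 2).const_mul 2).mul_const p).mul_const q)).fun_add
      (s2.mul_const (q ^ 2))).deriv
    rw [D1, D2, D3, D4] at hk
    linear_combination hk
  have cr : ∀ u : ℝ × ℝ, fderiv ℝ Y' u (1, 0) = -fderiv ℝ X' u (0, 1) ∧
      fderiv ℝ Y' u (0, 1) = fderiv ℝ X' u (1, 0) - fderiv ℝ X' u (0, 1) := by
    rintro ⟨x, y⟩
    have h1 := eqs x y 1 0
    have h2 := eqs x y 0 1
    have h3 := eqs x y 1 1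
    have hsp : s x y ≠ 0 := (P.S_pos _).ne'
    constructor
    · have : s x y * (3 * (fderiv ℝ Y' (x, y) (1, 0) + fderiv ℝ X' (x, y) (0, 1))) = 0 := by
        linear_combination 2 * h3 - h1 - h2
      have := (mul_eq_zero.1 this).resolve_left hsp
      linarith
    · have : s x y * (3 * (fderiv ℝ Y' (x, y) (0, 1) - fderiv ℝ X' (x, y) (1, 0) +
          fderiv ℝ X' (x, y) (0, 1))) = 0 := by
        linear_combination h2 - 2 * h1 + h3
      have := (mul_eq_zero.1 this).resolve_left hsp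
      linarith
  have hc := Pool.Agent.TH309.Tor.const_of_cr dX dY (fun u => (hXp u.1 u.2).1)
    (fun u => (hXp u.1 u.2).2) (fun u => (hYp u.1 u.2).1) (fun u => (hYp u.1 u.2).2)
    (fun u => (cr u).1) (fun u => (cr u).2)
  have hX0 : ∀ x y, X x y = X x0 y0 := fun x y => (hc (x, y) (x0, y0)).1
  have hY0 : ∀ x y, Y x y = Y x0 y0 := fun x y => (hc (x, y) (x0, y0)).2
  have fX : ∀ u v, fderiv ℝ X' u v = 0 := by
    intro u v
    have : X' = fun _ => X x0 y0 := by funext u; exact hX0 u.1 u.2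
    rw [this]; simp
  have fY : ∀ u v, fderiv ℝ Y' u v = 0 := by
    intro u v
    have : Y' = fun _ => Y x0 y0 := by funext u; exact hY0 u.1 u.2
    rw [this]; simp
  have hkill : ∀ u, fderiv ℝ P.S u (X x0 y0, Y x0 y0) = 0 := by
    intro u
    have h1 := eqs (u.1 / 60) (u.2 / 60) 1 0
    rw [fX, fY, fX, fY, hX0, hY0] at h1
    have e : ((60 * (u.1 / 60), 60 * (u.2 / 60)) : ℝ × ℝ) = u := by
      ext
      · simp only; ring
      · simp only; ring
    rw [e] at h1
    rw [Pool.Agent.TH309.Tor.fderiv_dir]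
    simp only
    linarith
  have := P.no_killing hkill
  rcases hne with h1 | h1
  · exact h1 this.1
  · exact h1 this.2

end Pool.Agent.S04502
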