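import Pool.Statements.S04503
import Pool.Agent.H352R4.CA.End

set_option autoImplicit false
open Filter Topology
open scoped ENNReal NNReal
open Pool Pool.MP_437602_an

namespace Pool.Agent.S04503

open Pool.Agent.H352R4.CA in
/-- the supremum of the frozen statement over a fixed compact set -/
theorem sup_fixed {F : Set ℂ} (hF : IsCompact F) :
    (⨆ (f : ℂ → ℂ) (c : ℂ)
          (_ : Continuous f ∧ DifferentiableOn ℂ f Fᶜ ∧ (∀ z, ‖f z‖ ≤ 1) ∧
                Tendsto f (cocompact ℂ) (𝓝 0) ∧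
                Tendsto (fun z => z * f z) (cocompact ℂ) (𝓝 c)),
          ((‖c‖₊ : ℝ≥0) : ℝ≥0∞)) = ENNReal.ofReal (alpha F) := by
  apply le_antisymm
  · refine iSup_le fun f => iSup_le fun c => iSup_le fun h => ?_
    have h1 : Ac F f c := ⟨h.1, h.2.1, h.2.2.2.2⟩
    have h2 := le_alpha hF h1 h.2.2.1
    rw [← ENNReal.ofReal_coe_nnreal, coe_nnnorm]
    exact ENNReal.ofReal_le_ofReal h2
  · refine le_of_forall_lt fun b hb => ?_
    have hb' : b ≠ ⊤ := ne_top_of_lt hb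
    have h1 : b.toReal < alpha F := by
      rw [← ENNReal.ofReal_toReal hb'] at hb
      exact (ENNReal.ofReal_lt_ofReal_iff_of_nonneg ENNReal.toReal_nonneg).1 hb
    have hne : {c | ∃ h l, Ac F h l ∧ (∀ z, ‖h z‖ ≤ 1) ∧ c = ‖l‖}.Nonempty := by
      refine ⟨0, fun _ => 0, 0, ⟨continuous_const, differentiableOn_const 0, ?_⟩, by simp, by simp⟩
      simp
    obtain ⟨_, ⟨h, l, H, hh, rfl⟩, hc⟩ := exists_lt_of_lt_csSup hne h1
    have h0 : Tendsto h (cocompact ℂ) (𝓝 0) := by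
      have h3 : Tendsto (fun z : ℂ => z⁻¹ * (z * h z)) (cocompact ℂ) (𝓝 (0 * l)) :=
        (tendsto_inv₀_cobounded.mono_left (by rw [Metric.cobounded_eq_cocompact])).mul H.lim
      rw [zero_mul] at h3
      refine h3.congr' ?_
      have h4 : ∀ᶠ z : ℂ in cocompact ℂ, z ≠ 0 := by
        have := (isCompact_singleton (x := (0 : ℂ))).compl_mem_cocompact
        filter_upwards [this] with z hz
        simpa using hz
      filter_upwards [h4] with z hz
      field_simp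
    refine lt_of_lt_of_le ?_ (le_iSup_of_le h (le_iSup_of_le l (le_iSup_of_le
      ⟨H.cont, H.hol, hh, h0, H.lim⟩ le_rfl)))
    rw [← ENNReal.ofReal_toReal hb', ← ENNReal.ofReal_coe_nnreal, coe_nnnorm]
    exact (ENNReal.ofReal_lt_ofReal_iff_of_nonneg ENNReal.toReal_nonneg).2 hc

open Pool.Agent.H352R4.CA in
theorem alpha_compact (α : Set ℂ → ℝ≥0∞)
    (hα : ∀ S : Set ℂ, α S =
        ⨆ (F : Set ℂ) (_ : IsCompact F) (_ : F ⊆ S) (f : ℂ → ℂ) (c : ℂ)
          (_ : Continuous f ∧ DifferentiableOn ℂ f Fᶜ ∧ (∀ z, ‖f z‖ ≤ 1) ∧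
                Tendsto f (cocompact ℂ) (𝓝 0) ∧
                Tendsto (fun z => z * f z) (cocompact ℂ) (𝓝 c)),
          ((‖c‖₊ : ℝ≥0) : ℝ≥0∞)) (S : Set ℂ) :
    α S = ⨆ (F : Set ℂ) (_ : IsCompact F) (_ : F ⊆ S), ENNReal.ofReal (alpha F) := by
  rw [hα S]
  refine iSup_congr fun F => iSup_congr fun hF => iSup_congr fun _ => ?_
  exact sup_fixed hF

open Pool.Agent.H352R4.CA in
theorem alpha_eq_of_compact (α : Set ℂ → ℝ≥0∞)
    (hα : ∀ S : Set ℂ, α S =
        ⨆ (F : Set ℂ) (_ : IsCompact F) (_ : F ⊆ S) (f : ℂ → ℂ) (c : ℂ)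
          (_ : Continuous f ∧ DifferentiableOn ℂ f Fᶜ ∧ (∀ z, ‖f z‖ ≤ 1) ∧
                Tendsto f (cocompact ℂ) (𝓝 0) ∧
                Tendsto (fun z => z * f z) (cocompact ℂ) (𝓝 c)),
          ((‖c‖₊ : ℝ≥0) : ℝ≥0∞)) {S : Set ℂ} (hS : IsCompact S) :
    α S = ENNReal.ofReal (alpha S) := by
  rw [alpha_compact α hα S]
  apply le_antisymm
  · exact iSup_le fun F => iSup_le fun hF => iSup_le fun hFS =>
      ENNReal.ofReal_le_ofReal (alpha_mono hS hFS)
  · exact le_iSup_of_le S (le_iSup_of_le hS (le_iSup_of_le subset_rfl le_rfl))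

/-- For the (uniquely determined) continuous analytic capacity α(S)=sup over compact F⊆S and continuous f on ℂ, holomorphic off F, ∣f∣≤1, f(∞)=0, of ∣lim z f(z)∣: for compact K,E with α(K)=0, α(E\K)=α(E). -/
theorem result :
    ∀ α : Set ℂ → ℝ≥0∞,
      (∀ S : Set ℂ, α S =
        ⨆ (F : Set ℂ) (_ : IsCompact F) (_ : F ⊆ S) (f : ℂ → ℂ) (c : ℂ)
          (_ : Continuous f ∧ DifferentiableOn ℂ f Fᶜ ∧ (∀ z, ‖f z‖ ≤ 1) ∧
                Tendsto f (cocompact ℂ) (𝓝 0) ∧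
                Tendsto (fun z => z * f z) (cocompact ℂ) (𝓝 c)),
          ((‖c‖₊ : ℝ≥0) : ℝ≥0∞)) →
      ∀ K E : Set ℂ, IsCompact K → IsCompact E → α K = 0 → α (E \ K) = α E := by
  intro α hα K E hK hE h0
  have hK0 : Pool.Agent.H352R4.CA.alpha K = 0 := by
    rw [alpha_eq_of_compact α hα hK, ENNReal.ofReal_eq_zero] at h0
    exact le_antisymm h0 (Pool.Agent.H352R4.CA.alpha_nonneg K)
  have h1 := Pool.Agent.H352R4.CA.alpha_remove hE hK hK0
  rw [alpha_eq_of_compact α hα hE, alpha_compact α hα (E \ K), ← h1]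
  apply le_antisymm
  · refine iSup_le fun F => iSup_le fun hF => iSup_le fun hFS => ?_
    apply ENNReal.ofReal_le_ofReal
    refine le_csSup ⟨Pool.Agent.H352R4.CA.alpha E, ?_⟩ ⟨F, hF, hFS, rfl⟩
    rintro c ⟨L, hL, hLE, rfl⟩
    exact Pool.Agent.H352R4.CA.alpha_mono hE (hLE.trans Set.sdiff_subset)
  · refine le_of_forall_lt fun b hb => ?_
    have hb' : b ≠ ⊤ := ne_top_of_lt hb
    have h2 : b.toReal < sSup {c : ℝ | ∃ L : Set ℂ, IsCompact L ∧ L ⊆ E \ K ∧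
        c = Pool.Agent.H352R4.CA.alpha L} := by
      rw [← ENNReal.ofReal_toReal hb'] at hb
      exact (ENNReal.ofReal_lt_ofReal_iff_of_nonneg ENNReal.toReal_nonneg).1 hb
    have hne : {c : ℝ | ∃ L : Set ℂ, IsCompact L ∧ L ⊆ E \ K ∧
        c = Pool.Agent.H352R4.CA.alpha L}.Nonempty :=
      ⟨Pool.Agent.H352R4.CA.alpha ∅, ∅, isCompact_empty, Set.empty_subset _, rfl⟩
    obtain ⟨_, ⟨L, hL, hLE, rfl⟩, hc⟩ := exists_lt_of_lt_csSup hne h2
    refine lt_of_lt_of_le ?_ (le_iSup_of_le L (le_iSup_of_le hL (le_iSup_of_le hLE le_rfl)))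
    rw [← ENNReal.ofReal_toReal hb']
    exact (ENNReal.ofReal_lt_ofReal_iff_of_nonneg ENNReal.toReal_nonneg).2 hc

end Pool.Agent.S04503
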