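import Pool.Statements.S04575
import Pool.Agent.TH318.BiExtE

set_option autoImplicit false
open Pool Pool.MP_49bdf6_an

namespace Pool.Agent.S04575

/-- Over ℝ or ℂ, in every separable Banach space, every strictly bounded minimal sequence extends, by adding countably many vectors, to a minimal, strictly bounded sequence whose closed linear span is the whole space. -/
theorem result :
    ∀ (𝕜 : Type) [RCLike 𝕜] (E : Type) [NormedAddCommGroup E] [NormedSpace 𝕜 E]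
      [CompleteSpace E] [TopologicalSpace.SeparableSpace E] (x : ℕ → E),
      (∃ (C D : ℝ) (f : ℕ → (E →L[𝕜] 𝕜)),
        (∀ i j : ℕ, (i = j → f i (x j) = 1) ∧ (i ≠ j → f i (x j) = 0)) ∧
        (∀ n : ℕ, ‖x n‖ ≤ C ∧ ‖f n‖ ≤ D)) →
      ∃ (ι : Type) (_ : Countable ι) (y : ι → E) (C D : ℝ) (g : ℕ ⊕ ι → (E →L[𝕜] 𝕜)),
        (∀ i j : ℕ ⊕ ι, (i = j → g i (Sum.elim x y j) = 1) ∧
            (i ≠ j → g i (Sum.elim x y j) = 0)) ∧
        (∀ i : ℕ ⊕ ι, ‖Sum.elim x y i‖ ≤ C ∧ ‖g i‖ ≤ D) ∧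
        (Submodule.span 𝕜 (Set.range (Sum.elim x y))).topologicalClosure = ⊤ := by
  intro 𝕜 _ E _ _ _ _ x hx
  obtain ⟨C, D, f, hf1, hf2⟩ := hx
  obtain ⟨α, T, K, hT, h1, h2, h3, h4, h5, h6, h7, h8⟩ :=
    Pool.Agent.TH318.BiExt.completed (𝕜 := 𝕜) x D f (fun n => (hf2 n).2) (by
      intro i j
      split_ifs with h
      · exact (hf1 i j).1 h
      · exact (hf1 i j).2 h)
  refine ⟨T, hT.to_subtype, fun t => t.1.1, max C K, K, Sum.elim α (fun t => t.1.2),
    ?_, ?_, ?_⟩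
  · rintro (i | t) (j | r)
    · refine ⟨fun h => ?_, fun h => ?_⟩
      · change α i (x j) = 1
        rw [h1, if_pos (Sum.inl.inj h)]
      · change α i (x j) = 0
        rw [h1, if_neg (fun h' => h (by rw [h']))]
    · exact ⟨fun h => by simp at h, fun _ => h2 i _ r.2⟩
    · exact ⟨fun h => by simp at h, fun _ => h3 _ t.2 j⟩
    · refine ⟨fun h => ?_, fun h => ?_⟩
      · have := Sum.inr.inj h
        subst this
        exact h4 _ t.2
      · exact h5 _ t.2 _ r.2 (fun h' => h (by rw [Subtype.ext h']))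
  · rintro (i | t)
    · exact ⟨(hf2 i).1.trans (le_max_left _ _), h6 i⟩
    · exact ⟨(h7 _ t.2).1.trans (le_max_right _ _), (h7 _ t.2).2⟩
  · rw [← h8]
    congr 2
    ext z
    constructor
    · rintro ⟨i | t, rfl⟩
      · exact Or.inl ⟨i, rfl⟩
      · exact Or.inr ⟨_, t.2, rfl⟩
    · rintro (⟨i, rfl⟩ | ⟨t, ht, rfl⟩)
      · exact ⟨Sum.inl i, rfl⟩
      · exact ⟨Sum.inr ⟨t, ht⟩, rfl⟩

end Pool.Agent.S04575
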