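import Mathlib
import Pool.Statements.S04624

set_option autoImplicit false
open MeasureTheory
open Pool Pool.MP_4d58d7_an

namespace Pool.Agent.S04624

/-- the sketch with rows `(a, 0, b)` and `(0, a, s b)` -/
noncomputable def Om (a b s : ℝ) : Fin 2 → Fin 3 → ℝ := ![![a, 0, b], ![0, a, s * b]]

/-- the law: `0` with probability `1/100`, and `Om a b (±1)` with probability `99/200` each -/
noncomputable def law (a b : ℝ) : Measure (Fin 2 → Fin 3 → ℝ) :=
  ENNReal.ofReal (1 / 100) • Measure.dirac 0 +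
    (ENNReal.ofReal (99 / 200) • Measure.dirac (Om a b 1) +
      ENNReal.ofReal (99 / 200) • Measure.dirac (Om a b (-1)))

lemma law_apply (a b : ℝ) (S : Set (Fin 2 → Fin 3 → ℝ)) :
    law a b S = ENNReal.ofReal (1 / 100) * S.indicator 1 0 +
      (ENNReal.ofReal (99 / 200) * S.indicator 1 (Om a b 1) +
        ENNReal.ofReal (99 / 200) * S.indicator 1 (Om a b (-1))) := by
  unfold law
  simp only [Measure.add_apply, Measure.smul_apply, Measure.dirac_apply, smul_eq_mul]

instance law_prob (a b : ℝ) : IsProbabilityMeasure (law a b) := by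
  constructor
  rw [law_apply]
  simp only [Set.indicator_univ, Pi.one_apply, mul_one]
  rw [← ENNReal.ofReal_add (by norm_num) (by norm_num), ← ENNReal.ofReal_add (by norm_num)
    (by norm_num)]
  norm_num

lemma sq_Om (a b s : ℝ) (_hs : s ^ 2 = 1) (x : Fin 2 → ℝ) :
    (∑ j, (∑ i, Om a b s i j * x i) ^ 2) =
      a ^ 2 * (x 0 ^ 2 + x 1 ^ 2) + b ^ 2 * (x 0 + s * x 1) ^ 2 := by
  simp [Om, Fin.sum_univ_three, Fin.sum_univ_two]
  ring

lemma integral_law (a b : ℝ) (f : (Fin 2 → Fin 3 → ℝ) → ℝ) :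
    ∫ ω, f ω ∂(law a b) = 1 / 100 * f 0 + (99 / 200 * f (Om a b 1) + 99 / 200 * f (Om a b (-1))) := by
  unfold law
  have hi : ∀ (c : ℝ) (w : Fin 2 → Fin 3 → ℝ),
      Integrable f (ENNReal.ofReal c • Measure.dirac w) := fun c w =>
    (integrable_dirac (by simp [enorm_lt_top])).smul_measure ENNReal.ofReal_ne_top
  rw [integral_add_measure (hi _ _) ((hi _ _).add_measure (hi _ _)),
    integral_add_measure (hi _ _) (hi _ _)]
  simp only [integral_smul_measure, integral_dirac, smul_eq_mul]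
  rw [ENNReal.toReal_ofReal (by norm_num), ENNReal.toReal_ofReal (by norm_num)]

/-- The negation of the preceding statement: There are constants C and c₀>0 such that, for any isotropic n×k random matrix Ω that is a dimension-d OSI with injectivity 1−ε and failure 0.01, sketch-and-solve has error at most (1+Cε)·OPT with probability at least c₀. -/
theorem result :
    ¬ (∃ C : ℝ, ∃ c₀ : ℝ, 0 < c₀ ∧
    ∀ (n d p k : ℕ), 0 < n → 0 < d → 0 < p → 0 < k →
    ∀ ε : ℝ, 0 < ε → ε < 1 →
    ∀ (A : Matrix (Fin n) (Fin d) ℝ), A.rank = d →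
    ∀ (B : Matrix (Fin n) (Fin p) ℝ),
    ∀ (μ : Measure (Fin n → Fin k → ℝ)) [IsProbabilityMeasure μ],
      (∀ x : Fin n → ℝ, ∫ ω, (∑ j, (∑ i, ω i j * x i) ^ 2) ∂μ = ∑ i, x i ^ 2) →
      (∀ V : Submodule ℝ (Fin n → ℝ), Module.finrank ℝ V = d →
         ENNReal.ofReal (99 / 100) ≤
           μ {ω | ∀ x ∈ V, (1 - ε) * ∑ i, x i ^ 2 ≤ ∑ j, (∑ i, ω i j * x i) ^ 2}) →
      ENNReal.ofReal c₀ ≤ μ {ω | ∀ G : Matrix (Fin d) (Fin k) ℝ,
          (Matrix.transpose (Matrix.of ω) * A) * G * (Matrix.transpose (Matrix.of ω) * A)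
              = Matrix.transpose (Matrix.of ω) * A →
          G * (Matrix.transpose (Matrix.of ω) * A) * G = G →
          Matrix.transpose ((Matrix.transpose (Matrix.of ω) * A) * G)
              = (Matrix.transpose (Matrix.of ω) * A) * G →
          Matrix.transpose (G * (Matrix.transpose (Matrix.of ω) * A))
              = G * (Matrix.transpose (Matrix.of ω) * A) →
          ∀ X : Matrix (Fin d) (Fin p) ℝ,
            Real.sqrt (∑ i, ∑ j, ((A * (G * Matrix.transpose (Matrix.of ω) * B) - B) i j) ^ 2) ≤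
              (1 + C * ε) * Real.sqrt (∑ i, ∑ j, ((A * X - B) i j) ^ 2)}) := by
  rintro ⟨C, c₀, hc₀, h⟩
  -- choice of the parameter
  set ε : ℝ := 1 / (100000 * (|C| + 1)) with hε
  have hC0 : 0 ≤ |C| := abs_nonneg C
  have hε0 : 0 < ε := by positivity
  have hε1 : ε < 1 / 1000 := by
    rw [hε, div_lt_div_iff₀ (by positivity) (by norm_num)]
    nlinarith
  have hCε : C * ε ≤ 1 / 100000 := by
    have h1 : C ≤ |C| + 1 := by linarith [le_abs_self C]
    calc C * ε ≤ (|C| + 1) * ε := mul_le_mul_of_nonneg_right h1 hε0.le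
      _ = 1 / 100000 := by rw [hε]; field_simp
  set a : ℝ := Real.sqrt (1 - ε) with ha
  set b : ℝ := Real.sqrt (1 / 99 + ε) with hb
  have ha2 : a ^ 2 = 1 - ε := Real.sq_sqrt (by linarith)
  have hb2 : b ^ 2 = 1 / 99 + ε := Real.sq_sqrt (by linarith)
  set A : Matrix (Fin 2) (Fin 1) ℝ := !![1; 0] with hA
  set B : Matrix (Fin 2) (Fin 1) ℝ := !![1; 1] with hB
  have hrank : A.rank = 1 := by
    apply le_antisymm
    · simpa using Matrix.rank_le_width A
    · rw [Nat.one_le_iff_ne_zero]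
      intro h0
      have h1 : A.mulVec ![1] = 0 := by
        have h2 : Module.finrank ℝ (LinearMap.range A.mulVecLin) = 0 := h0
        rw [Submodule.finrank_eq_zero] at h2
        have h3 : A.mulVecLin ![1] ∈ LinearMap.range A.mulVecLin := ⟨_, rfl⟩
        rw [h2, Submodule.mem_bot] at h3
        exact h3
      have := congrFun h1 0
      simp [hA] at this
  have hiso : ∀ x : Fin 2 → ℝ, ∫ ω, (∑ j, (∑ i, ω i j * x i) ^ 2) ∂(law a b) = ∑ i, x i ^ 2 := by
    intro x
    rw [integral_law, sq_Om a b 1 (by norm_num), sq_Om a b (-1) (by norm_num), ha2, hb2]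
    simp [Fin.sum_univ_two]
    ring
  have hinj : ∀ V : Submodule ℝ (Fin 2 → ℝ), Module.finrank ℝ V = 1 →
         ENNReal.ofReal (99 / 100) ≤
           law a b {ω | ∀ x ∈ V, (1 - ε) * ∑ i, x i ^ 2 ≤ ∑ j, (∑ i, ω i j * x i) ^ 2} := by
    intro V _
    have hm : ∀ s : ℝ, s ^ 2 = 1 → Om a b s ∈
        {ω : Fin 2 → Fin 3 → ℝ | ∀ x ∈ V, (1 - ε) * ∑ i, x i ^ 2 ≤ ∑ j, (∑ i, ω i j * x i) ^ 2} := by
      intro s hs x _
      rw [sq_Om a b s hs, ha2]
      simp only [Fin.sum_univ_two]
      nlinarith [mul_nonneg (sq_nonneg b) (sq_nonneg (x 0 + s * x 1))]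
    rw [law_apply, Set.indicator_of_mem (hm 1 (by norm_num)),
      Set.indicator_of_mem (hm (-1) (by norm_num))]
    simp only [Pi.one_apply, mul_one]
    rw [← ENNReal.ofReal_add (by norm_num) (by norm_num)]
    refine le_trans ?_ le_add_self
    apply ENNReal.ofReal_le_ofReal
    norm_num
  have hfin := h 2 1 1 3 (by norm_num) (by norm_num) (by norm_num) (by norm_num) ε hε0
    (by linarith) A hrank B (law a b) hiso hinj
  -- the three atoms are bad
  have hopt : ∀ {x : ℝ}, (1 / 100) ^ 2 ≤ (x - 1) ^ 2 → ¬ Real.sqrt ((x - 1) ^ 2 + 1) ≤ (1 + C * ε) := by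
    intro x hx hle
    have h1 : Real.sqrt (1 + (1 / 100) ^ 2) ≤ 1 + 1 / 100000 :=
      (Real.sqrt_le_sqrt (by linarith)).trans (hle.trans (by linarith))
    rw [Real.sqrt_le_left (by norm_num)] at h1
    norm_num at h1
  set Gd : Set (Fin 2 → Fin 3 → ℝ) := {ω : Fin 2 → Fin 3 → ℝ | ∀ G : Matrix (Fin 1) (Fin 3) ℝ,
          (Matrix.transpose (Matrix.of ω) * A) * G * (Matrix.transpose (Matrix.of ω) * A)
              = Matrix.transpose (Matrix.of ω) * A →
          G * (Matrix.transpose (Matrix.of ω) * A) * G = G →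
          Matrix.transpose ((Matrix.transpose (Matrix.of ω) * A) * G)
              = (Matrix.transpose (Matrix.of ω) * A) * G →
          Matrix.transpose (G * (Matrix.transpose (Matrix.of ω) * A))
              = G * (Matrix.transpose (Matrix.of ω) * A) →
          ∀ X : Matrix (Fin 1) (Fin 1) ℝ,
            Real.sqrt (∑ i, ∑ j, ((A * (G * Matrix.transpose (Matrix.of ω) * B) - B) i j) ^ 2) ≤
              (1 + C * ε) * Real.sqrt (∑ i, ∑ j, ((A * X - B) i j) ^ 2)} with hGd
  have hmain : ∀ (ω : Fin 2 → Fin 3 → ℝ) (G : Matrix (Fin 1) (Fin 3) ℝ),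
      (Matrix.transpose (Matrix.of ω) * A) * G * (Matrix.transpose (Matrix.of ω) * A)
              = Matrix.transpose (Matrix.of ω) * A →
      G * (Matrix.transpose (Matrix.of ω) * A) * G = G →
      Matrix.transpose ((Matrix.transpose (Matrix.of ω) * A) * G)
              = (Matrix.transpose (Matrix.of ω) * A) * G →
      (1 / 100) ^ 2 ≤ ((G * Matrix.transpose (Matrix.of ω) * B) 0 0 - 1) ^ 2 →
      ω ∉ Gd := by
    intro ω G g1 g2 g3 g5 hmem
    have h4 : Matrix.transpose (G * (Matrix.transpose (Matrix.of ω) * A))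
              = G * (Matrix.transpose (Matrix.of ω) * A) := by
      ext i j
      rw [Subsingleton.elim i 0, Subsingleton.elim j 0]
      rfl
    have h5 := hmem G g1 g2 g3 h4 1
    have e1 : ∑ i, ∑ j, ((A * (1 : Matrix (Fin 1) (Fin 1) ℝ) - B) i j) ^ 2 = 1 := by
      simp [hA, hB, Fin.sum_univ_two]
    have e2 : ∑ i, ∑ j, ((A * (G * Matrix.transpose (Matrix.of ω) * B) - B) i j) ^ 2 =
        ((G * Matrix.transpose (Matrix.of ω) * B) 0 0 - 1) ^ 2 + 1 := by
      generalize (G * Matrix.transpose (Matrix.of ω) * B) = Y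
      rw [Fin.sum_univ_two]
      simp only [Finset.univ_unique, Finset.sum_singleton, Matrix.sub_apply, Matrix.mul_apply,
        Fin.default_eq_zero]
      simp [hA, hB]
    rw [e1, e2, Real.sqrt_one, mul_one] at h5
    exact hopt g5 h5
  -- zero sketch
  have hz := hmain 0 0 (by ext i j; simp) (by simp) (by simp) (by norm_num)
  -- the two nonzero sketches
  have hnz : ∀ s : ℝ, s ^ 2 = 1 → Om a b s ∉ Gd := by
    intro s hs
    have hq : (a ^ 2 + b ^ 2) ≠ 0 := by rw [ha2, hb2]; linarith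
    have hq' : a ^ 2 + b ^ 2 = 100 / 99 := by rw [ha2, hb2]; ring
    have hT : Matrix.transpose (Matrix.of (Om a b s)) * A = !![a; 0; b] := by
      ext i j
      rw [Subsingleton.elim j 0, Matrix.mul_apply, Fin.sum_univ_two]
      fin_cases i <;> simp [Om, hA]
    have hTB : Matrix.transpose (Matrix.of (Om a b s)) * B = !![a; a; b + s * b] := by
      ext i j
      rw [Subsingleton.elim j 0, Matrix.mul_apply, Fin.sum_univ_two]
      fin_cases i <;> simp [Om, hB]
    have hGT : !![a / (a ^ 2 + b ^ 2), 0, b / (a ^ 2 + b ^ 2)] * !![a; 0; b] =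
        (1 : Matrix (Fin 1) (Fin 1) ℝ) := by
      ext i j
      rw [Subsingleton.elim i 0, Subsingleton.elim j 0, Matrix.mul_apply, Fin.sum_univ_three]
      simp
      field_simp
    refine hmain (Om a b s) !![a / (a ^ 2 + b ^ 2), 0, b / (a ^ 2 + b ^ 2)] ?_ ?_ ?_ ?_
    · rw [hT, Matrix.mul_assoc, hGT, Matrix.mul_one]
    · rw [hT, hGT, Matrix.one_mul]
    · rw [hT]
      ext i j
      rw [Matrix.transpose_apply, Matrix.mul_apply, Matrix.mul_apply]
      fin_cases i <;> fin_cases j <;> simp <;> ring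
    · have e : ((!![a / (a ^ 2 + b ^ 2), 0, b / (a ^ 2 + b ^ 2)] *
          Matrix.transpose (Matrix.of (Om a b s)) * B) 0 0 - 1) = s * (99 / 100 * b ^ 2) := by
        rw [Matrix.mul_assoc, hTB, Matrix.mul_apply, Fin.sum_univ_three, hq']
        simp
        linear_combination (99 / 100) * hq'
      rw [e, mul_pow, hs, one_mul, hb2]
      apply pow_le_pow_left₀ (by norm_num)
      linarith
  rw [law_apply, Set.indicator_of_notMem hz, Set.indicator_of_notMem (hnz 1 (by norm_num)),
    Set.indicator_of_notMem (hnz (-1) (by norm_num))] at hfin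
  simp only [mul_zero, add_zero] at hfin
  have := ENNReal.ofReal_pos.mpr hc₀
  exact absurd hfin (not_le.mpr this)

end Pool.Agent.S04624
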