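import Pool.Statements.S04649
import Pool.Agent.TH218.Lac3

set_option autoImplicit false
open Pool Pool.MP_5053af_an

namespace Pool.Agent.S04649

/-- For every sequence of positive integers with n_{k+1} ≥ q n_k for some q>1, the set of x in [0,2π) at which the partial sums of cos(n_k x) come arbitrarily close to every real number infinitely often has Lebesgue measure 2π. -/
theorem result :
    ∀ (n : ℕ → ℕ) (q : ℝ), 1 < q → (∀ k, 0 < n k) →
      (∀ k, q * (n k : ℝ) ≤ (n (k + 1) : ℝ)) →
      MeasureTheory.volume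
        {x : ℝ | x ∈ Set.Ico 0 (2 * Real.pi) ∧
          ∀ ξ : ℝ, ∀ ε : ℝ, 0 < ε →
            ∃ᶠ m in Filter.atTop,
              |(∑ k ∈ Finset.range m, Real.cos ((n k : ℝ) * x)) - ξ| < ε}
        = ENNReal.ofReal (2 * Real.pi) := by
  intro n q hq hpos hgap
  exact Pool.Agent.TH218.Lac.measure_eq ⟨hq, hpos, hgap⟩

end Pool.Agent.S04649
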