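import Pool.Statements.S04693

set_option autoImplicit false
open Pool Pool.MP_53fbd4_an

namespace Pool.Agent.S04693

open Filter Topology Finset

theorem exists_small {α : Type*} (I : Finset α) (ρ : α → ℝ) (h : ∀ i ∈ I, 0 < ρ i) :
    ∃ r : ℝ, 0 < r ∧ ∀ i ∈ I, r ≤ ρ i := by
  classical
  induction I using Finset.induction_on with
  | empty => exact ⟨1, one_pos, by simp⟩
  | insert a s ha ih =>
    obtain ⟨r, hr, hr2⟩ := ih (fun i hi => h i (Finset.mem_insert_of_mem hi))
    refine ⟨min r (ρ a), lt_min hr (h a (Finset.mem_insert_self _ _)), fun i hi => ?_⟩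
    rcases Finset.mem_insert.1 hi with rfl | hi
    · exact min_le_right _ _
    · exact (min_le_left _ _).trans (hr2 i hi)

/-- The elementary inequality behind the maximality argument. -/
theorem small_gain {A η G : ℝ} (hA : 0 < A) (hη : η < 1 / (8 * A)) (hG : 0 ≤ G)
    (h : ∀ t : ℝ, 0 ≤ t → t ≤ 1 → t * G - A * t ^ 2 * G ^ 2 ≤ 2 * η) : G ≤ 4 * η := by
  by_cases hc : 1 / (2 * A) ≤ G
  · exfalso
    have hG0 : 0 < G := lt_of_lt_of_le (by positivity) hc
    have h1 : 1 / (2 * A * G) ≤ 1 := by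
      rw [div_le_one (by positivity)]
      rw [div_le_iff₀ (by positivity)] at hc
      linarith
    have h2 := h (1 / (2 * A * G)) (by positivity) h1
    have h3 : 1 / (2 * A * G) * G - A * (1 / (2 * A * G)) ^ 2 * G ^ 2 = 1 / (4 * A) := by
      field_simp
      ring
    rw [h3] at h2
    have h4 : 2 * (1 / (8 * A)) = 1 / (4 * A) := by
      field_simp
      ring
    linarith
  · push Not at hc
    have h2 := h 1 zero_le_one le_rfl
    have h3 : A * G ≤ 1 / 2 := by
      have := mul_lt_mul_of_pos_left hc hA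
      have h4 : A * (1 / (2 * A)) = 1 / 2 := by field_simp
      linarith
    nlinarith

section
variable {X : Type} [NormedAddCommGroup X] [NormedSpace ℝ X]

/-- Basic weak neighbourhoods. -/
theorem exists_nhds_data (V : Set (WeakSpace ℝ X)) (hV : IsOpen V) (x0 : X)
    (hx : toWeakSpace ℝ X x0 ∈ V) :
    ∃ (I : Finset (StrongDual ℝ X)) (r : ℝ), 0 < r ∧
      ∀ y : X, (∀ f ∈ I, |f (y - x0)| < r) → toWeakSpace ℝ X y ∈ V := by
  obtain ⟨W, hW, hWV⟩ := isOpen_induced_iff.1 hV
  have hiff : ∀ y : X, toWeakSpace ℝ X y ∈ V ↔ (fun f : StrongDual ℝ X => f y) ∈ W := by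
    intro y
    constructor
    · intro hy
      exact (Set.ext_iff.1 hWV (toWeakSpace ℝ X y)).2 hy
    · intro hy
      exact (Set.ext_iff.1 hWV (toWeakSpace ℝ X y)).1 hy
  have hmem := (hiff x0).1 hx
  obtain ⟨I, u, hu1, hu2⟩ := isOpen_pi_iff.1 hW _ hmem
  have h3 : ∀ f : StrongDual ℝ X, ∃ ρ : ℝ, f ∈ I → 0 < ρ ∧ Metric.ball (f x0) ρ ⊆ u f := by
    intro f
    by_cases hf : f ∈ I
    · obtain ⟨ρ, h1, h2⟩ := Metric.isOpen_iff.1 (hu1 f hf).1 _ (hu1 f hf).2
      exact ⟨ρ, fun _ => ⟨h1, h2⟩⟩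
    · exact ⟨1, fun h => absurd h hf⟩
  choose ρ hρ using h3
  obtain ⟨r, hr, hr2⟩ := exists_small I ρ (fun f hf => (hρ f hf).1)
  refine ⟨I, r, hr, fun y hy => ?_⟩
  rw [hiff]
  apply hu2
  intro f hf
  apply (hρ f hf).2
  rw [Metric.mem_ball, Real.dist_eq]
  have := hy f hf
  rw [map_sub] at this
  exact this.trans_le (hr2 f hf)

/-- One-unconditionality on finite sums. -/
def Unc (e : ℕ → X) : Prop := ∀ (s : Finset ℕ) (a ε : ℕ → ℝ), (∀ n, ε n = 1 ∨ ε n = -1) →
          ‖∑ n ∈ s, (ε n * a n) • e n‖ ≤ ‖∑ n ∈ s, a n • e n‖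

variable {e : ℕ → X}

/-- Flipping and damping the part outside a subset. -/
theorem damp_le (hu : Unc e) (a : ℕ → ℝ) {s t : Finset ℕ} (hst : s ⊆ t) {θ : ℝ}
    (h0 : -1 ≤ θ) (h1 : θ ≤ 1) :
    ‖∑ n ∈ s, a n • e n + θ • ∑ n ∈ t \ s, a n • e n‖ ≤ ‖∑ n ∈ t, a n • e n‖ := by
  classical
  set P := ∑ n ∈ s, a n • e n with hP
  set Q := ∑ n ∈ t \ s, a n • e n with hQ
  have hsum : ∑ n ∈ t, a n • e n = P + Q := by
    rw [hP, hQ, add_comm, Finset.sum_sdiff hst]
  have hflip : ‖P - Q‖ ≤ ‖P + Q‖ := by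
    have h := hu t a (fun n => if n ∈ s then 1 else -1) (fun n => by
      by_cases h : n ∈ s <;> simp [h])
    rw [hsum] at h
    have h2 : ∑ n ∈ t, ((if n ∈ s then (1:ℝ) else -1) * a n) • e n = P - Q := by
      rw [← Finset.sum_sdiff hst, add_comm, sub_eq_add_neg, hP, hQ, ← Finset.sum_neg_distrib]
      congr 1
      · apply Finset.sum_congr rfl
        intro n hn
        rw [if_pos hn, one_mul]
      · apply Finset.sum_congr rfl
        intro n hn
        rw [if_neg (Finset.mem_sdiff.1 hn).2, neg_one_mul, neg_smul]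
    rw [h2] at h
    exact h
  have hconv : P + θ • Q = ((1 + θ) / 2) • (P + Q) + ((1 - θ) / 2) • (P - Q) := by
    module
  rw [hsum, hconv]
  calc ‖((1 + θ) / 2) • (P + Q) + ((1 - θ) / 2) • (P - Q)‖
      ≤ ‖((1 + θ) / 2) • (P + Q)‖ + ‖((1 - θ) / 2) • (P - Q)‖ := norm_add_le _ _
    _ = ((1 + θ) / 2) * ‖P + Q‖ + ((1 - θ) / 2) * ‖P - Q‖ := by
        rw [norm_smul, norm_smul, Real.norm_of_nonneg (by linarith),
          Real.norm_of_nonneg (by linarith)]
    _ ≤ ((1 + θ) / 2) * ‖P + Q‖ + ((1 - θ) / 2) * ‖P + Q‖ := by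
        have : 0 ≤ (1 - θ) / 2 := by linarith
        nlinarith
    _ = ‖P + Q‖ := by ring

theorem mono_le (hu : Unc e) (a : ℕ → ℝ) {s t : Finset ℕ} (hst : s ⊆ t) :
    ‖∑ n ∈ s, a n • e n‖ ≤ ‖∑ n ∈ t, a n • e n‖ := by
  have := damp_le hu a hst (θ := 0) (by norm_num) (by norm_num)
  simpa using this

theorem partial_le (hu : Unc e) {a : ℕ → ℝ} {x : X} (hx : HasSum (fun n => a n • e n) x)
    (s : Finset ℕ) : ‖∑ n ∈ s, a n • e n‖ ≤ ‖x‖ := by
  refine ge_of_tendsto (Filter.Tendsto.norm hx) ?_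
  simp only [SummationFilter.unconditional_filter]
  exact eventually_atTop.2 ⟨s, fun t ht => mono_le hu a ht⟩

/-- Absolute sums of the values of a functional are controlled by the norm. -/
theorem abs_sum_le (hu : Unc e) (f : StrongDual ℝ X) (a : ℕ → ℝ) (s : Finset ℕ) :
    ∑ n ∈ s, |a n| * |f (e n)| ≤ ‖f‖ * ‖∑ n ∈ s, a n • e n‖ := by
  classical
  have h := hu s a (fun n => if 0 ≤ a n * f (e n) then 1 else -1) (fun n => by
      by_cases h : 0 ≤ a n * f (e n) <;> simp [h])
  have h2 : ∑ n ∈ s, |a n| * |f (e n)| =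
      f (∑ n ∈ s, ((if 0 ≤ a n * f (e n) then (1:ℝ) else -1) * a n) • e n) := by
    rw [map_sum]
    apply Finset.sum_congr rfl
    intro n _
    rw [map_smul, smul_eq_mul, ← abs_mul]
    split_ifs with hn
    · rw [abs_of_nonneg hn, one_mul]
    · rw [abs_of_neg (not_le.1 hn)]
      ring
  rw [h2]
  calc f (∑ n ∈ s, ((if 0 ≤ a n * f (e n) then (1:ℝ) else -1) * a n) • e n)
      ≤ ‖f (∑ n ∈ s, ((if 0 ≤ a n * f (e n) then (1:ℝ) else -1) * a n) • e n)‖ :=
        Real.le_norm_self _
    _ ≤ ‖f‖ * ‖∑ n ∈ s, ((if 0 ≤ a n * f (e n) then (1:ℝ) else -1) * a n) • e n‖ :=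
        f.le_opNorm _
    _ ≤ _ := mul_le_mul_of_nonneg_left h (norm_nonneg _)

/-- The main step: a weak neighbourhood of a finitely supported point of the ball contains
a set determined by finitely many coordinates. -/
theorem main_step (hu : Unc e) (I : Finset (StrongDual ℝ X)) {r : ℝ} (hr : 0 < r)
    (b : ℕ → ℝ) (N0 : ℕ) (hb0 : ‖∑ n ∈ range N0, b n • e n‖ ≤ 1) :
    ∃ (N : ℕ) (a : ℕ → ℝ) (δ : ℝ), 0 < δ ∧ ‖∑ n ∈ range N, a n • e n‖ ≤ 1 ∧
      ∀ (c : ℕ → ℝ) (y : X), HasSum (fun n => c n • e n) y → ‖y‖ ≤ 1 →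
        (∀ n < N, |c n - a n| < δ) →
        ∀ f ∈ I, |f (y - ∑ n ∈ range N0, b n • e n)| < r := by
  classical
  set x0 : X := ∑ n ∈ range N0, b n • e n with hx0
  set M : ℝ := ∑ f ∈ I, ‖f‖ with hM
  have hM0 : 0 ≤ M := Finset.sum_nonneg fun _ _ => norm_nonneg _
  set A : ℝ := 4 * (M + 1) / r ^ 2 with hAdef
  have hA : 0 < A := by positivity
  set η : ℝ := min (min 1 (1 / (16 * A))) (r / 32) with hηdef
  have hη0 : 0 < η := by
    rw [hηdef]
    exact lt_min (lt_min one_pos (by positivity)) (by positivity)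
  have hη1 : η ≤ 1 := (min_le_left _ _).trans (min_le_left _ _)
  have hη2 : η ≤ 1 / (16 * A) := (min_le_left _ _).trans (min_le_right _ _)
  have hη3 : η ≤ r / 32 := min_le_right _ _
  let h : ℕ → ℝ := fun n => ∑ f ∈ I, |f (e n)|
  have hh0 : ∀ n, 0 ≤ h n := fun n => Finset.sum_nonneg fun _ _ => abs_nonneg _
  let g : (ℕ → ℝ) → ℕ → ℝ := fun a N => ∑ n ∈ range N, |a n| * h n
  let v : (ℕ → ℝ) → ℕ → X := fun a N => ∑ n ∈ range N, a n • e n
  let Φ : (ℕ → ℝ) → ℕ → ℝ := fun a N => g a N - A * ∑ f ∈ I, (f (v a N) - f x0) ^ 2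
  have hgM : ∀ a N, ‖v a N‖ ≤ 1 → g a N ≤ M := by
    intro a N hv
    have h1 : g a N = ∑ f ∈ I, ∑ n ∈ range N, |a n| * |f (e n)| := by
      simp only [g, h, Finset.mul_sum]
      rw [Finset.sum_comm]
    rw [h1, hM]
    apply Finset.sum_le_sum
    intro f _
    calc ∑ n ∈ range N, |a n| * |f (e n)| ≤ ‖f‖ * ‖v a N‖ := abs_sum_le hu f a (range N)
      _ ≤ ‖f‖ * 1 := mul_le_mul_of_nonneg_left hv (norm_nonneg _)
      _ = ‖f‖ := mul_one _
  have hΦM : ∀ a N, ‖v a N‖ ≤ 1 → Φ a N ≤ M := by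
    intro a N hv
    have h1 := hgM a N hv
    have h2 : 0 ≤ A * ∑ f ∈ I, (f (v a N) - f x0) ^ 2 :=
      mul_nonneg hA.le (Finset.sum_nonneg fun _ _ => sq_nonneg _)
    simp only [Φ]
    linarith
  let T : Set ℝ := {z | ∃ a N, ‖v a N‖ ≤ 1 ∧ z = Φ a N}
  have hTne : T.Nonempty := ⟨Φ b N0, b, N0, hb0, rfl⟩
  have hTbd : BddAbove T := ⟨M, by
    rintro z ⟨a, N, hv, rfl⟩
    exact hΦM a N hv⟩
  have hS0 : 0 ≤ sSup T := by
    have h1 : Φ b N0 ≤ sSup T := le_csSup hTbd ⟨b, N0, hb0, rfl⟩
    have h2 : Φ b N0 = g b N0 := by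
      simp only [Φ, v, ← hx0, sub_self]
      simp
    have h3 : 0 ≤ g b N0 := Finset.sum_nonneg fun n _ => mul_nonneg (abs_nonneg _) (hh0 n)
    linarith
  obtain ⟨z, ⟨a, N, hv, rfl⟩, hz⟩ := exists_lt_of_lt_csSup hTne (sub_lt_self (sSup T) hη0)
  -- the point `x = v a N` is close to `x0` in the directions of `I`
  have hclose : ∀ f ∈ I, |f (v a N) - f x0| ≤ r / 2 := by
    intro f hf
    have h1 : A * ∑ f ∈ I, (f (v a N) - f x0) ^ 2 ≤ M + 1 := by
      have h2 := hgM a N hv
      have h3 : -1 ≤ Φ a N := by linarith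
      simp only [Φ] at h3
      linarith
    have h2 : (f (v a N) - f x0) ^ 2 ≤ ∑ f ∈ I, (f (v a N) - f x0) ^ 2 :=
      Finset.single_le_sum (f := fun f : StrongDual ℝ X => (f (v a N) - f x0) ^ 2)
        (fun _ _ => sq_nonneg _) hf
    have h3 : A * (f (v a N) - f x0) ^ 2 ≤ M + 1 :=
      (mul_le_mul_of_nonneg_left h2 hA.le).trans h1
    have h4 : (f (v a N) - f x0) ^ 2 ≤ (r / 2) ^ 2 := by
      have h5 : A * (r / 2) ^ 2 = M + 1 := by
        rw [hAdef]
        field_simp
        ring
      rw [← h5] at h3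
      exact le_of_mul_le_mul_left h3 hA
    exact abs_le_of_sq_le_sq h4 (by positivity)
  set H : ℝ := ∑ n ∈ range N, h n with hH
  have hH0 : 0 ≤ H := Finset.sum_nonneg fun n _ => hh0 n
  set δ : ℝ := min (η / (H + 4 * A * M * H + 1)) (r / (4 * (H + 1))) with hδ
  have hδ0 : 0 < δ := lt_min (by positivity) (by positivity)
  have hδ1 : δ * (H + 4 * A * M * H) ≤ η := by
    have h1 : δ ≤ η / (H + 4 * A * M * H + 1) := min_le_left _ _
    have hpos : 0 < H + 4 * A * M * H + 1 := by positivity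
    rw [le_div_iff₀ hpos] at h1
    nlinarith
  have hδ2 : δ * H ≤ r / 4 := by
    have h1 : δ ≤ r / (4 * (H + 1)) := min_le_right _ _
    have hpos : 0 < 4 * (H + 1) := by positivity
    rw [le_div_iff₀ hpos] at h1
    nlinarith
  refine ⟨N, a, δ, hδ0, hv, fun c y hy hy1 hca f hf => ?_⟩
  -- finite part
  have hfe : ∀ f ∈ I, ∑ n ∈ range N, |f (e n)| ≤ H := by
    intro f hf
    rw [hH]
    apply Finset.sum_le_sum
    intro n _
    exact Finset.single_le_sum (f := fun f : StrongDual ℝ X => |f (e n)|)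
      (fun _ _ => abs_nonneg _) hf
  have hdiff : ∀ f : StrongDual ℝ X, |f (v c N) - f (v a N)| ≤
      δ * ∑ n ∈ range N, |f (e n)| := by
    intro f
    have h1 : f (v c N) - f (v a N) = ∑ n ∈ range N, (c n - a n) * f (e n) := by
      simp only [v, map_sum, map_smul, smul_eq_mul]
      rw [← Finset.sum_sub_distrib]
      apply Finset.sum_congr rfl
      intro n _
      ring
    rw [h1, Finset.mul_sum]
    refine (Finset.abs_sum_le_sum_abs _ _).trans (Finset.sum_le_sum fun n hn => ?_)
    rw [abs_mul]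
    exact mul_le_mul_of_nonneg_right (hca n (mem_range.1 hn)).le (abs_nonneg _)
  have hvc1 : ‖v c N‖ ≤ 1 := (partial_le hu hy (range N)).trans hy1
  have hx01 : ‖x0‖ ≤ 1 := hb0
  have hΦdiff : Φ a N - η ≤ Φ c N := by
    have h1 : |g a N - g c N| ≤ δ * H := by
      have h2 : g a N - g c N = ∑ n ∈ range N, (|a n| - |c n|) * h n := by
        simp only [g]
        rw [← Finset.sum_sub_distrib]
        apply Finset.sum_congr rfl
        intro n _
        ring
      rw [h2, hH, Finset.mul_sum]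
      refine (Finset.abs_sum_le_sum_abs _ _).trans (Finset.sum_le_sum fun n hn => ?_)
      rw [abs_mul, abs_of_nonneg (hh0 n)]
      apply mul_le_mul_of_nonneg_right _ (hh0 n)
      have h3 := abs_abs_sub_abs_le_abs_sub (a n) (c n)
      have h4 := hca n (mem_range.1 hn)
      rw [abs_sub_comm] at h4
      linarith
    have h2 : ∑ f ∈ I, (f (v c N) - f x0) ^ 2 ≤
        ∑ f ∈ I, (f (v a N) - f x0) ^ 2 + δ * (4 * M * H) := by
      have h3 : ∀ f ∈ I, (f (v c N) - f x0) ^ 2 ≤
          (f (v a N) - f x0) ^ 2 + (δ * H) * (4 * ‖f‖) := by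
        intro f hf
        have h4 := hdiff f
        have h5 := hfe f hf
        have h6 : |f (v c N) - f (v a N)| ≤ δ * H :=
          h4.trans (mul_le_mul_of_nonneg_left h5 hδ0.le)
        have hb1 : |f (v c N)| ≤ ‖f‖ := by
          have := f.le_opNorm (v c N)
          rw [Real.norm_eq_abs] at this
          nlinarith [norm_nonneg f]
        have hb2 : |f (v a N)| ≤ ‖f‖ := by
          have := f.le_opNorm (v a N)
          rw [Real.norm_eq_abs] at this
          nlinarith [norm_nonneg f]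
        have hb3 : |f x0| ≤ ‖f‖ := by
          have := f.le_opNorm x0
          rw [Real.norm_eq_abs] at this
          nlinarith [norm_nonneg f]
        have h7 : |f (v c N) + f (v a N) - 2 * f x0| ≤ 4 * ‖f‖ := by
          have h71 := abs_le.1 hb1
          have h72 := abs_le.1 hb2
          have h73 := abs_le.1 hb3
          rw [abs_le]
          constructor <;> linarith
        have h8 : (f (v c N) - f x0) ^ 2 - (f (v a N) - f x0) ^ 2 =
            (f (v c N) - f (v a N)) * (f (v c N) + f (v a N) - 2 * f x0) := by ring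
        have h9 : (f (v c N) - f (v a N)) * (f (v c N) + f (v a N) - 2 * f x0) ≤
            (δ * H) * (4 * ‖f‖) := by
          refine (le_abs_self _).trans ?_
          rw [abs_mul]
          exact mul_le_mul h6 h7 (abs_nonneg _) (by positivity)
        linarith
      calc ∑ f ∈ I, (f (v c N) - f x0) ^ 2
          ≤ ∑ f ∈ I, ((f (v a N) - f x0) ^ 2 + (δ * H) * (4 * ‖f‖)) := Finset.sum_le_sum h3
        _ = ∑ f ∈ I, (f (v a N) - f x0) ^ 2 + δ * (4 * M * H) := by
            rw [Finset.sum_add_distrib, ← Finset.mul_sum, ← Finset.mul_sum, ← hM]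
            ring
    have h3 := mul_le_mul_of_nonneg_left h2 hA.le
    have h4 := (abs_le.1 h1).2
    simp only [Φ]
    nlinarith
  -- the tail is small
  have htail : ∀ K, N ≤ K → ∑ n ∈ range K \ range N, |c n| * h n ≤ 4 * η := by
    intro K hK
    have hsub : range N ⊆ range K := Finset.range_subset_range.2 hK
    set G : ℝ := ∑ n ∈ range K \ range N, |c n| * h n with hG
    have hG0 : 0 ≤ G := Finset.sum_nonneg fun n _ => mul_nonneg (abs_nonneg _) (hh0 n)
    set z : X := ∑ n ∈ range K \ range N, c n • e n with hzdef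
    have hzf : ∑ f ∈ I, |f z| ≤ G := by
      have h1 : G = ∑ f ∈ I, ∑ n ∈ range K \ range N, |c n| * |f (e n)| := by
        rw [hG]
        simp only [h, Finset.mul_sum]
        rw [Finset.sum_comm]
      rw [h1]
      apply Finset.sum_le_sum
      intro f _
      rw [hzdef, map_sum]
      refine (Finset.abs_sum_le_sum_abs _ _).trans (le_of_eq ?_)
      apply Finset.sum_congr rfl
      intro n _
      rw [map_smul, smul_eq_mul, abs_mul]
    have hzf2 : ∑ f ∈ I, (f z) ^ 2 ≤ G ^ 2 := by
      have h1 : ∀ f ∈ I, (f z) ^ 2 ≤ |f z| * G := by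
        intro f hf
        have h2 : |f z| ≤ G := (Finset.single_le_sum (f := fun f : StrongDual ℝ X => |f z|)
          (fun _ _ => abs_nonneg _) hf).trans hzf
        rw [← sq_abs, sq]
        exact mul_le_mul_of_nonneg_left h2 (abs_nonneg _)
      calc ∑ f ∈ I, (f z) ^ 2 ≤ ∑ f ∈ I, |f z| * G := Finset.sum_le_sum h1
        _ = (∑ f ∈ I, |f z|) * G := by rw [Finset.sum_mul]
        _ ≤ G * G := mul_le_mul_of_nonneg_right hzf hG0
        _ = G ^ 2 := by ring
    apply small_gain hA _ hG0 _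
    · refine hη2.trans_lt ?_
      apply one_div_lt_one_div_of_lt (by positivity)
      linarith
    · intro t ht0 ht1
      -- the two competitors
      have key : ∀ θ : ℝ, -1 ≤ θ → θ ≤ 1 →
          g c N + |θ| * G - A * ∑ f ∈ I, (f (v c N) - f x0 + θ * f z) ^ 2 ≤ sSup T := by
        intro θ h1 h2
        set c' : ℕ → ℝ := fun n => if n < N then c n else θ * c n with hc'
        have hv' : v c' K = v c N + θ • z := by
          simp only [v]
          rw [← Finset.sum_sdiff hsub, add_comm, hzdef, Finset.smul_sum]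
          congr 1
          · apply Finset.sum_congr rfl
            intro n hn
            rw [hc']
            simp only
            rw [if_pos (mem_range.1 hn)]
          · apply Finset.sum_congr rfl
            intro n hn
            rw [hc']
            simp only
            rw [if_neg (fun hlt => (Finset.mem_sdiff.1 hn).2 (mem_range.2 hlt)), mul_smul]
        have hg' : g c' K = g c N + |θ| * G := by
          simp only [g]
          rw [← Finset.sum_sdiff hsub, add_comm, hG, Finset.mul_sum]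
          congr 1
          · apply Finset.sum_congr rfl
            intro n hn
            rw [hc']
            simp only
            rw [if_pos (mem_range.1 hn)]
          · apply Finset.sum_congr rfl
            intro n hn
            rw [hc']
            simp only
            rw [if_neg (fun hlt => (Finset.mem_sdiff.1 hn).2 (mem_range.2 hlt)), abs_mul,
              mul_assoc]
        have hn' : ‖v c' K‖ ≤ 1 := by
          rw [hv']
          exact ((damp_le hu c hsub h1 h2).trans (partial_le hu hy (range K))).trans hy1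
        have h3 : Φ c' K ≤ sSup T := le_csSup hTbd ⟨c', K, hn', rfl⟩
        have h4 : Φ c' K =
            g c N + |θ| * G - A * ∑ f ∈ I, (f (v c N) - f x0 + θ * f z) ^ 2 := by
          simp only [Φ]
          rw [hg', hv']
          congr 2
          apply Finset.sum_congr rfl
          intro f _
          rw [map_add, map_smul, smul_eq_mul]
          ring
        rw [h4] at h3
        exact h3
      have k1 := key t (by linarith) ht1
      have k2 := key (-t) (by linarith) (by linarith)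
      rw [abs_of_nonneg ht0] at k1
      rw [abs_neg, abs_of_nonneg ht0] at k2
      have k3 : ∑ f ∈ I, (f (v c N) - f x0 + t * f z) ^ 2 +
          ∑ f ∈ I, (f (v c N) - f x0 + -t * f z) ^ 2 =
          2 * ∑ f ∈ I, (f (v c N) - f x0) ^ 2 + 2 * t ^ 2 * ∑ f ∈ I, (f z) ^ 2 := by
        rw [← Finset.sum_add_distrib, Finset.mul_sum, Finset.mul_sum, ← Finset.sum_add_distrib]
        apply Finset.sum_congr rfl
        intro f _
        ring
      have k4 : g c N - A * ∑ f ∈ I, (f (v c N) - f x0) ^ 2 + t * G -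
          A * t ^ 2 * ∑ f ∈ I, (f z) ^ 2 ≤ sSup T := by
        nlinarith
      have k5 : A * t ^ 2 * ∑ f ∈ I, (f z) ^ 2 ≤ A * t ^ 2 * G ^ 2 :=
        mul_le_mul_of_nonneg_left hzf2 (by positivity)
      have k6 : Φ c N = g c N - A * ∑ f ∈ I, (f (v c N) - f x0) ^ 2 := rfl
      linarith
  -- conclusion for the partial sums
  have hpart : ∀ K, N ≤ K → |f (v c K) - f x0| ≤ 7 / 8 * r := by
    intro K hK
    have hsub : range N ⊆ range K := Finset.range_subset_range.2 hK
    have h1 : v c K = v c N + ∑ n ∈ range K \ range N, c n • e n := by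
      simp only [v]
      rw [← Finset.sum_sdiff hsub, add_comm]
    have h2 : |f (∑ n ∈ range K \ range N, c n • e n)| ≤ 4 * η := by
      refine le_trans ?_ (htail K hK)
      rw [map_sum]
      refine (Finset.abs_sum_le_sum_abs _ _).trans (Finset.sum_le_sum fun n _ => ?_)
      rw [map_smul, smul_eq_mul, abs_mul]
      apply mul_le_mul_of_nonneg_left _ (abs_nonneg _)
      exact Finset.single_le_sum (f := fun f : StrongDual ℝ X => |f (e n)|)
        (fun _ _ => abs_nonneg _) hf
    have h3 : |f (v c N) - f (v a N)| ≤ r / 4 :=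
      ((hdiff f).trans (mul_le_mul_of_nonneg_left (hfe f hf) hδ0.le)).trans hδ2
    have h4 := hclose f hf
    rw [h1, map_add]
    have e1 := abs_le.1 h2
    have e2 := abs_le.1 h3
    have e3 := abs_le.1 h4
    rw [abs_le]
    constructor <;> linarith
  have hlim : Tendsto (fun K => |f (v c K) - f x0|) atTop (𝓝 |f y - f x0|) := by
    have h1 : Tendsto (fun K => v c K) atTop (𝓝 y) := hy.tendsto_sum_nat
    exact (((f.continuous.tendsto _).comp h1).sub_const _).abs
  have h5 : |f y - f x0| ≤ 7 / 8 * r :=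
    le_of_tendsto hlim (eventually_atTop.2 ⟨N, fun K hK => hpart K hK⟩)
  rw [map_sub]
  linarith

end

/-- For every real Banach space with a 1-unconditional basis, the closed unit ball in the relative weak topology has a countable family of nonempty relatively open sets such that every nonempty relatively open subset of the ball contains one of them. -/
theorem result :
    ∀ (X : Type) [NormedAddCommGroup X] [NormedSpace ℝ X] [CompleteSpace X] (e : ℕ → X),
      (∀ x : X, ∃! a : ℕ → ℝ, HasSum (fun n => a n • e n) x) →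
      (∀ (s : Finset ℕ) (a ε : ℕ → ℝ), (∀ n, ε n = 1 ∨ ε n = -1) →
          ‖∑ n ∈ s, (ε n * a n) • e n‖ ≤ ‖∑ n ∈ s, a n • e n‖) →
      ∃ U : ℕ → Set (WeakSpace ℝ X),
        (∀ n, IsOpen (U n) ∧
            (U n ∩ (toWeakSpace ℝ X) '' Metric.closedBall (0 : X) 1).Nonempty) ∧
        ∀ V : Set (WeakSpace ℝ X), IsOpen V →
          (V ∩ (toWeakSpace ℝ X) '' Metric.closedBall (0 : X) 1).Nonempty →
            ∃ n, U n ∩ (toWeakSpace ℝ X) '' Metric.closedBall (0 : X) 1 ⊆ V := by
  intro X _ _ _ e hb hu'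
  classical
  have hu : Unc e := hu'
  choose ca hca huniq using hb
  replace hca : ∀ x, HasSum (fun n => ca x n • e n) x := hca
  replace huniq : ∀ x (a : ℕ → ℝ), HasSum (fun n => a n • e n) x → a = ca x := huniq
  have he : ∀ n, e n ≠ 0 := by
    intro n hn
    have h1 := huniq 0 0 (by simp)
    have h2 := huniq 0 (Pi.single n 1) (by
      have : (fun m => (Pi.single n (1:ℝ) : ℕ → ℝ) m • e m) = fun _ => (0:X) := by
        funext m
        by_cases hm : m = n
        · subst hm
          rw [hn, smul_zero]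
        · rw [Pi.single_eq_of_ne hm, zero_smul]
      rw [this]
      exact hasSum_zero)
    have h3 := congrFun (h1.trans h2.symm) n
    simp at h3
  -- coordinate functionals
  let L : ℕ → (X →ₗ[ℝ] ℝ) := fun n =>
    { toFun := fun x => ca x n
      map_add' := by
        intro x y
        have h1 := huniq (x + y) (fun n => ca x n + ca y n) (by
          have := (hca x).add (hca y)
          simpa only [add_smul] using this)
        exact (congrFun h1 n).symm
      map_smul' := by
        intro t x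
        have h1 := huniq (t • x) (fun n => t * ca x n) (by
          have := (hca x).const_smul t
          simpa only [mul_smul] using this)
        exact (congrFun h1 n).symm }
  let Lc : ℕ → StrongDual ℝ X := fun n => (L n).mkContinuous (1 / ‖e n‖) (by
    intro x
    have h1 := partial_le hu (hca x) {n}
    rw [Finset.sum_singleton, norm_smul] at h1
    have h2 : 0 < ‖e n‖ := norm_pos_iff.2 (he n)
    change ‖ca x n‖ ≤ _
    rw [div_mul_eq_mul_div, one_mul, le_div_iff₀ h2]
    exact h1)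
  have hLc : ∀ n x, Lc n x = ca x n := fun n x => rfl
  -- the countable family
  let ι := (Σ N : ℕ, Fin N → ℚ) × ℕ
  let U0 : ι → Set (WeakSpace ℝ X) := fun i =>
    ⋂ k : Fin i.1.1, (fun y : WeakSpace ℝ X => |Lc k ((toWeakSpace ℝ X).symm y) - i.1.2 k|) ⁻¹'
      (Set.Iio (1 / ((i.2 : ℝ) + 1)))
  have hU0 : ∀ i, IsOpen (U0 i) := by
    intro i
    apply isOpen_iInter_of_finite
    intro k
    apply isOpen_Iio.preimage
    have h1 : Continuous (fun y : WeakSpace ℝ X => Lc k ((toWeakSpace ℝ X).symm y)) :=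
      WeakBilin.eval_continuous (topDualPairing ℝ X).flip (Lc k)
    exact (h1.sub continuous_const).abs
  set B := (toWeakSpace ℝ X) '' Metric.closedBall (0 : X) 1 with hB
  let κ := {i : ι // (U0 i ∩ B).Nonempty}
  have hκ : Nonempty κ := by
    refine ⟨⟨(⟨0, fun k => k.elim0⟩, 0), ?_⟩⟩
    refine ⟨toWeakSpace ℝ X 0, ?_, ⟨0, by simp, rfl⟩⟩
    simp only [U0, Set.mem_iInter]
    intro k
    exact k.elim0
  obtain ⟨φ, hφ⟩ := exists_surjective_nat κ
  refine ⟨fun n => U0 (φ n).1, fun n => ⟨hU0 _, (φ n).2⟩, fun V hV hne => ?_⟩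
  obtain ⟨w, hwV, ⟨x1, hx1, rfl⟩⟩ := hne
  rw [mem_closedBall_zero_iff] at hx1
  -- replace the point by a finitely supported one
  have hVn : IsOpen ((toWeakSpace ℝ X) ⁻¹' V) := hV.preimage (toWeakSpaceCLM ℝ X).continuous
  have hev := (hca x1).tendsto_sum_nat.eventually (hVn.mem_nhds hwV)
  obtain ⟨N0, hN0⟩ := hev.exists
  obtain ⟨I, r, hr, hI⟩ := exists_nhds_data V hV _ hN0
  obtain ⟨N, a, δ, hδ, hv, hmain⟩ := main_step hu I hr (ca x1) N0
    ((partial_le hu (hca x1) (range N0)).trans hx1)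
  -- rational approximation
  obtain ⟨m, hm⟩ := exists_nat_one_div_lt (half_pos hδ)
  have hq : ∀ k : ℕ, ∃ q : ℚ, |a k - q| < 1 / ((m : ℝ) + 1) := by
    intro k
    obtain ⟨q, hq⟩ := Rat.denseRange_cast.exists_dist_lt (a k)
      (show 0 < 1 / ((m : ℝ) + 1) by positivity)
    exact ⟨q, by rwa [Real.dist_eq] at hq⟩
  choose q hq using hq
  let i : ι := (⟨N, fun k => q k⟩, m)
  have hcav : ∀ n, ca (∑ n ∈ range N, a n • e n) n = if n < N then a n else 0 := by
    intro n
    have h1 := huniq (∑ n ∈ range N, a n • e n) (fun n => if n < N then a n else 0) (by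
      have h2 : ∑ n ∈ range N, a n • e n =
          ∑ n ∈ range N, (if n < N then a n else 0) • e n := by
        apply Finset.sum_congr rfl
        intro n hn
        rw [if_pos (mem_range.1 hn)]
      rw [h2]
      apply hasSum_sum_of_ne_finset_zero
      intro n hn
      rw [if_neg (fun h => hn (mem_range.2 h)), zero_smul])
    exact (congrFun h1 n).symm
  have hi : (U0 i ∩ B).Nonempty := by
    refine ⟨toWeakSpace ℝ X (∑ n ∈ range N, a n • e n), ?_, ⟨_, by
      rw [mem_closedBall_zero_iff]; exact hv, rfl⟩⟩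
    simp only [U0, Set.mem_iInter, Set.mem_preimage, Set.mem_Iio]
    intro k
    rw [LinearEquiv.symm_apply_apply, hLc, hcav, if_pos k.2]
    exact hq k
  obtain ⟨n, hn⟩ := hφ ⟨i, hi⟩
  refine ⟨n, ?_⟩
  rintro w ⟨hw, ⟨y, hy, rfl⟩⟩
  rw [mem_closedBall_zero_iff] at hy
  apply hI
  apply hmain (ca y) y (hca y) hy
  intro k hk
  have h1 : toWeakSpace ℝ X y ∈ U0 i := by
    have : U0 (φ n).1 = U0 i := by rw [hn]
    rw [← this]
    exact hw
  simp only [U0, Set.mem_iInter, Set.mem_preimage, Set.mem_Iio] at h1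
  have h2 := h1 ⟨k, hk⟩
  rw [LinearEquiv.symm_apply_apply, hLc] at h2
  have h2' : |ca y k - q k| < 1 / ((m : ℝ) + 1) := h2
  have h3 := hq k
  rw [abs_sub_comm] at h3
  have h4 : |ca y k - a k| ≤ |ca y k - q k| + |q k - a k| := abs_sub_le _ _ _
  linarith

end Pool.Agent.S04693
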