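import Pool.Statements.S04781
import Pool.Agent.TH276.Torsion.Final

set_option autoImplicit false
open Pool Pool.MP_5ce378_an

namespace Pool.Agent.S04781

/-- For d≥2, 0<α<1 and D a nonempty bounded open convex set in R^d, any continuous φ vanishing off D with ∫(φ(x)-φ(y))/∣x-y∣^(d+α)dy = 1 (absolutely convergent) at every x in D is concave on D. -/
theorem result :
    ∀ d : ℕ, 2 ≤ d → ∀ α : ℝ, 0 < α → α < 1 →
    ∀ D : Set (EuclideanSpace ℝ (Fin d)), IsOpen D → Convex ℝ D →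
      Bornology.IsBounded D → D.Nonempty →
    ∀ φ : EuclideanSpace ℝ (Fin d) → ℝ, Continuous φ →
      (∀ x, x ∉ D → φ x = 0) →
      (∀ x ∈ D,
        MeasureTheory.Integrable (fun y => (φ x - φ y) / ‖x - y‖ ^ ((d : ℝ) + α)) ∧
        ∫ y, (φ x - φ y) / ‖x - y‖ ^ ((d : ℝ) + α) = 1) →
      ConcaveOn ℝ D φ := by
  intro d hd α hα0 hα1 D hDo hDc hDb _ φ hφ hφ0 hint
  have hfin : Module.finrank ℝ (EuclideanSpace ℝ (Fin d)) = d := finrank_euclideanSpace_fin
  have : Nontrivial (EuclideanSpace ℝ (Fin d)) :=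
    Module.nontrivial_of_finrank_pos (R := ℝ) (by rw [hfin]; omega)
  have H : Pool.Agent.TH276.Torsion.TorsionData
      (MeasureTheory.volume : MeasureTheory.Measure (EuclideanSpace ℝ (Fin d))) α D φ := by
    refine ⟨hDo, hDc, hDb, hφ, hφ0, fun x hx => ?_⟩
    obtain ⟨h1, h2⟩ := hint x hx
    rw [hfin]
    have h3 := Pool.Agent.TH276.Torsion.tendsto_pv_of_integrable (x := x) h1 (by simp)
    rw [h2] at h3
    exact h3
  exact H.concaveOn hα0 hα1.le
    (fun ξ R _ => Pool.Agent.TH276.Torsion.majorant_tendsto_lt _ hα0 hα1 ξ R)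

end Pool.Agent.S04781
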