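import Pool.Statements.S04849
import Pool.Agent.Results.MP_61c8ab_an.CotypeTwo

set_option autoImplicit false
open MeasureTheory ProbabilityTheory
open Pool Pool.MP_61c8ab_an

namespace Pool.Agent.S04849

/-- There are q≥2 and C such that, for all N≥n with n large, with probability →1 uniformly in N, the norm whose unit ball is a random Gaussian image of the N-dim cross-polytope in ℝ^n has cotype-q constant at most C. -/
theorem result :
    ∃ q : ℝ, 2 ≤ q ∧ ∃ C : ℝ, 0 < C ∧ ∀ ε : ℝ, 0 < ε → ∃ n₀ : ℕ, ∀ n N : ℕ, n₀ ≤ n → n ≤ N →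
      1 - ε ≤ ((Measure.pi (fun _ : Fin N => Measure.pi (fun _ : Fin n => gaussianReal 0 1)))
        {g : Fin N → Fin n → ℝ |
          (∀ y : Fin n → ℝ, ∃ t : Fin N → ℝ, ∑ j, t j • g j = y) ∧
          ∀ nrm : (Fin n → ℝ) → ℝ,
            (∀ y : Fin n → ℝ, nrm y =
              sInf {s : ℝ | ∃ t : Fin N → ℝ, ∑ j, t j • g j = y ∧ ∑ j, |t j| = s}) →
            ∀ (m : ℕ) (x : Fin m → Fin n → ℝ),
              (∑ i, nrm (x i) ^ q) ^ (1 / q) ≤
                C * ((1 / (2 : ℝ) ^ m) *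
                  ∑ σ : Fin m → Bool, nrm (∑ i, (if σ i then (1 : ℝ) else -1) • x i))}).toReal := by
  obtain ⟨C, hC, h⟩ := Pool.Agent.Results.MP_61c8ab_an.CotypeTwo.result
  refine ⟨2, le_rfl, C, hC, fun ε hε => ?_⟩
  obtain ⟨n₀, hn₀⟩ : ∃ n₀ : ℕ, 0 < n₀ ∧ 4 * Real.exp (-(n₀ : ℝ)) ≤ ε := by
    have ht : Filter.Tendsto (fun n : ℕ => 4 * Real.exp (-(n : ℝ))) Filter.atTop (nhds (4 * 0)) := by
      apply Filter.Tendsto.const_mul
      exact Real.tendsto_exp_neg_atTop_nhds_zero.comp tendsto_natCast_atTop_atTop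
    rw [mul_zero] at ht
    have h1 := (ht.eventually_lt_const hε).and (Filter.eventually_gt_atTop 0)
    obtain ⟨n, hn⟩ := h1.exists
    exact ⟨n, hn.2, hn.1.le⟩
  refine ⟨n₀, fun n N hn hnN => ?_⟩
  set μ : Measure (Fin N → Fin n → ℝ) :=
    Measure.pi (fun _ : Fin N => Measure.pi (fun _ : Fin n => gaussianReal 0 1)) with hμ
  set G : Set (Fin N → Fin n → ℝ) := {g : Fin N → Fin n → ℝ |
          (∀ y : Fin n → ℝ, ∃ t : Fin N → ℝ, ∑ j, t j • g j = y) ∧
          ∀ nrm : (Fin n → ℝ) → ℝ,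
            (∀ y : Fin n → ℝ, nrm y =
              sInf {s : ℝ | ∃ t : Fin N → ℝ, ∑ j, t j • g j = y ∧ ∑ j, |t j| = s}) →
            ∀ (m : ℕ) (x : Fin m → Fin n → ℝ),
              (∑ i, nrm (x i) ^ (2 : ℝ)) ^ (1 / (2 : ℝ)) ≤
                C * ((1 / (2 : ℝ) ^ m) *
                  ∑ σ : Fin m → Bool, nrm (∑ i, (if σ i then (1 : ℝ) else -1) • x i))} with hG
  have hbad : μ Gᶜ ≤ ENNReal.ofReal (4 * Real.exp (-(n : ℝ))) := by
    refine le_trans (measure_mono ?_) (h n N (by omega) hnN)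
    intro g hg hgood
    apply hg
    obtain ⟨h1, -, h3⟩ := hgood
    refine ⟨h1, fun nrm hnrm m x => ?_⟩
    have e : nrm = Pool.Agent.Results.MP_61c8ab_an.CotypeTwo.qnorm g := by
      funext y
      exact hnrm y
    rw [e]
    exact h3 2 le_rfl m x
  have hexp : 4 * Real.exp (-(n : ℝ)) ≤ ε := by
    refine le_trans ?_ hn₀.2
    have : Real.exp (-(n : ℝ)) ≤ Real.exp (-(n₀ : ℝ)) := by
      apply Real.exp_le_exp.2
      have : (n₀ : ℝ) ≤ n := by exact_mod_cast hn
      linarith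
    linarith
  have hμ1 : μ Set.univ = 1 := by
    rw [hμ]
    exact measure_univ
  have hsum : (1 : ENNReal) ≤ μ G + ENNReal.ofReal ε := by
    rw [← hμ1, ← Set.union_compl_self G]
    refine (measure_union_le _ _).trans ?_
    gcongr
    exact hbad.trans (ENNReal.ofReal_le_ofReal hexp)
  have hfin : μ G ≠ ⊤ := by
    apply ne_top_of_le_ne_top _ (measure_mono (Set.subset_univ G))
    rw [hμ1]; exact ENNReal.one_ne_top
  have h2 := ENNReal.toReal_mono (by finiteness) hsum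
  rw [ENNReal.toReal_add hfin (by finiteness), ENNReal.toReal_ofReal hε.le, ENNReal.toReal_one] at h2
  linarith

end Pool.Agent.S04849
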