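import Pool.Statements.S04908
import Pool.Agent.TH293.RectEx

set_option autoImplicit false
open Pool Pool.MP_68b5a7_an

namespace Pool.Agent.S04908

/-- The negation of the preceding statement: For every partition of [0,1)² into finitely many half-open rectangles whose translates also partition it, the piecewise-translation map returns every point to within ε of itself, in Euclidean torus distance, at some time N ≥ 1. -/
theorem result :
    ¬ (∀ (m : ℕ) (a1 b1 a2 b2 v1 v2 : Fin m → ℝ) (φ : ℝ × ℝ → ℝ × ℝ),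
      Pairwise (fun r s : Fin m =>
        Disjoint (Set.Ico (a1 r) (b1 r) ×ˢ Set.Ico (a2 r) (b2 r))
          (Set.Ico (a1 s) (b1 s) ×ˢ Set.Ico (a2 s) (b2 s))) →
      (⋃ r : Fin m, Set.Ico (a1 r) (b1 r) ×ˢ Set.Ico (a2 r) (b2 r))
          = Set.Ico (0:ℝ) 1 ×ˢ Set.Ico (0:ℝ) 1 →
      Pairwise (fun r s : Fin m =>
        Disjoint
          (Set.Ico (a1 r + v1 r) (b1 r + v1 r) ×ˢ Set.Ico (a2 r + v2 r) (b2 r + v2 r))
          (Set.Ico (a1 s + v1 s) (b1 s + v1 s) ×ˢ Set.Ico (a2 s + v2 s) (b2 s + v2 s))) →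
      (⋃ r : Fin m,
          Set.Ico (a1 r + v1 r) (b1 r + v1 r) ×ˢ Set.Ico (a2 r + v2 r) (b2 r + v2 r))
          = Set.Ico (0:ℝ) 1 ×ˢ Set.Ico (0:ℝ) 1 →
      (∀ r : Fin m, ∀ x ∈ Set.Ico (a1 r) (b1 r) ×ˢ Set.Ico (a2 r) (b2 r),
          φ x = (x.1 + v1 r, x.2 + v2 r)) →
      ∀ x ∈ Set.Ico (0:ℝ) 1 ×ˢ Set.Ico (0:ℝ) 1, ∀ ε : ℝ, 0 < ε →
        ∃ N : ℕ, 1 ≤ N ∧ ∃ k1 k2 : ℤ,
          ((φ^[N] x).1 - x.1 + (k1 : ℝ)) ^ 2 + ((φ^[N] x).2 - x.2 + (k2 : ℝ)) ^ 2 ≤ ε ^ 2) := by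
  intro H
  have hirr : Irrational (Real.sqrt 2 / 4) := by
    have := irrational_sqrt_two.div_natCast (m := 4) (by norm_num)
    exact_mod_cast this
  have h2 : Real.sqrt 2 ^ 2 = 2 := Real.sq_sqrt (by norm_num)
  have h0 : 0 < Real.sqrt 2 / 4 := by positivity
  have h1 : Real.sqrt 2 / 4 < 1 / 2 := by nlinarith [Real.sqrt_nonneg 2]
  let e : Fin 4 × Fin 4 ≃ Fin (4 * 4) := finProdFinEquiv
  let α := Real.sqrt 2 / 4
  have hdA := TH293.RectEx.partA h0 h1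
  have hdA' := TH293.RectEx.partA' h0 h1
  have hdC := TH293.RectEx.partC h0 h1
  have hdC' := TH293.RectEx.partC' h0 h1
  obtain ⟨N, hN, k1, k2, hk⟩ := H (4 * 4)
    (fun r => TH293.RectEx.A α (e.symm r).1) (fun r => TH293.RectEx.B α (e.symm r).1)
    (fun r => TH293.RectEx.C α (e.symm r).2) (fun r => TH293.RectEx.D α (e.symm r).2)
    (fun r => TH293.RectEx.VA α (e.symm r).1) (fun r => TH293.RectEx.VC α (e.symm r).2)
    (TH293.RectEx.φ α)
    (fun r s hrs => TH293.RectEx.prod_disjoint hdA hdC (e.symm r) (e.symm s)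
      (fun h => hrs (e.symm.injective h)))
    (by
      have := TH293.RectEx.prod_cover hdA hdC
      rw [← e.symm.surjective.iUnion_comp] at this
      exact this)
    (fun r s hrs => TH293.RectEx.prod_disjoint hdA' hdC' (e.symm r) (e.symm s)
      (fun h => hrs (e.symm.injective h)))
    (by
      have := TH293.RectEx.prod_cover hdA' hdC'
      rw [← e.symm.surjective.iUnion_comp] at this
      exact this)
    (by
      rintro r ⟨x, y⟩ ⟨hx, hy⟩
      exact Prod.ext (TH293.RectEx.T_eq h0 h1 _ _ hx) (TH293.RectEx.S_eq h0 h1 _ _ hy))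
    (1 / 4, 1 / 4) ⟨⟨by norm_num, by norm_num⟩, ⟨by norm_num, by norm_num⟩⟩ (1 / 4) (by norm_num)
  obtain ⟨n, rfl⟩ : ∃ n, N = n + 1 := ⟨N - 1, by omega⟩
  obtain ⟨t, k, -, ht0, ht1, h⟩ := TH293.RectEx.orbit hirr h0 h1 n
  have h' : (TH293.RectEx.φ α)^[n + 1] (1 / 4, 1 / 4) = (1 / 4 + t, 3 / 4 - t) := h
  rw [h'] at hk
  simp only at hk
  -- `t ∈ (0, 1/2)`: the differences are `t` and `1/2 - t`, so both integers are zero
  have key : ∀ (s : ℝ) (j : ℤ), 0 ≤ s → s ≤ 1 / 2 → s ^ 2 ≤ (s + (j : ℝ)) ^ 2 := by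
    intro s j hs0 hs1
    rcases lt_trichotomy j 0 with hj | hj | hj
    · have : (j : ℝ) ≤ -1 := by exact_mod_cast Int.le_sub_one_of_lt hj
      nlinarith
    · simp [hj]
    · have : (1 : ℝ) ≤ j := by exact_mod_cast hj
      nlinarith
  have e1 := key t k1 ht0.le ht1.le
  have e2 := key (1 / 2 - t) k2 (by linarith) (by linarith)
  have e3 : (1 / 4 + t - 1 / 4 + (k1 : ℝ)) = t + k1 := by ring
  have e4 : (3 / 4 - t - 1 / 4 + (k2 : ℝ)) = (1 / 2 - t) + k2 := by ring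
  rw [e3, e4] at hk
  nlinarith [sq_nonneg (t - 1 / 4)]

end Pool.Agent.S04908
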