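import Pool.Statements.S05079
import Pool.Agent.TH220.BrannanC
-- import your own Pool.Agent.* helpers here

set_option autoImplicit false
open Pool Pool.MP_761a8f_an

namespace Pool.Agent.S05079

/-- For every real α>0, every odd m≥3 and every complex x with ∣x∣=1, the modulus of the sum over k from 0 to m of binom(α,k)·x^k is at most the same sum evaluated at x=1. -/
theorem result :
    ∀ α : ℝ, 0 < α → ∀ m : ℕ, Odd m → 3 ≤ m → ∀ x : ℂ, ‖x‖ = 1 →
      ‖∑ k ∈ Finset.range (m + 1),
          ((∏ j ∈ Finset.range k, ((α : ℂ) - (j : ℂ))) / (k.factorial : ℂ)) * x ^ k‖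
        ≤ ∑ k ∈ Finset.range (m + 1),
            (∏ j ∈ Finset.range k, (α - (j : ℝ))) / (k.factorial : ℝ) := by
  intro a ha m hm hm3 x hx
  have h1 : ∑ k ∈ Finset.range (m + 1),
      ((∏ j ∈ Finset.range k, ((a : ℂ) - (j : ℂ))) / (k.factorial : ℂ)) * x ^ k =
      Pool.Agent.TH220.Brannan.ps a m x := by
    unfold Pool.Agent.TH220.Brannan.ps Pool.Agent.TH220.Brannan.bn
    push_cast
    rfl
  have h2 : ∑ k ∈ Finset.range (m + 1),
      (∏ j ∈ Finset.range k, (a - (j : ℝ))) / (k.factorial : ℝ) =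
      Pool.Agent.TH220.Brannan.ps1 a m := rfl
  rw [h1, h2]
  rcases lt_or_ge a 1 with h | h
  · exact Pool.Agent.TH220.Brannan.lt_one ha h hm hm3 hx
  · have h0 : (0 : ℝ) ≤ a - 1 := by linarith
    refine Pool.Agent.TH220.Brannan.ge_one (⌊a - 1⌋₊) a ?_ ?_ m x hx
    · have := Nat.floor_le h0
      linarith
    · have := Nat.lt_floor_add_one (a - 1)
      linarith

end Pool.Agent.S05079
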