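import Pool.Statements.S05106
import Mathlib

/-!
# S05106: time-increasing solutions of the parabolic Allen-Cahn equation need not be stationary

The solution is the explicit invasion front from the unstable state `0` to the stable state `1`:
`u(x,t) = 1 / (1 + exp (-(x_n/√2 + 3t/2)))`.  It solves `Δu - u_t = u³ - u`, satisfies `0 < u < 1`,
`∂u/∂x_n > 0` and `u_t > 0`, and depends on time.
-/

set_option autoImplicit false
open Pool Pool.MP_7987d1_an

namespace Pool.Agent.S05106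

open Real

/-- The linear phase `x_n / √2`. -/
noncomputable def L (m : ℕ) : EuclideanSpace ℝ (Fin (m + 1)) →L[ℝ] ℝ :=
  (√2)⁻¹ • EuclideanSpace.proj (Fin.last m)

lemma L_apply (m : ℕ) (x : EuclideanSpace ℝ (Fin (m + 1))) : L m x = (√2)⁻¹ * x (Fin.last m) := rfl

/-- The front. -/
noncomputable def U (m : ℕ) (p : EuclideanSpace ℝ (Fin (m + 1)) × ℝ) : ℝ :=
  sigmoid (L m p.1 + 3 / 2 * p.2)

lemma space_deriv (m : ℕ) (t : ℝ) (x : EuclideanSpace ℝ (Fin (m + 1))) :
    HasFDerivAt (fun y => U m (y, t))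
      ((sigmoid (L m x + 3 / 2 * t) * (1 - sigmoid (L m x + 3 / 2 * t))) • L m) x := by
  have h1 : HasFDerivAt (fun y => L m y + 3 / 2 * t) (L m) x :=
    ((L m).hasFDerivAt).add_const _
  exact (hasDerivAt_sigmoid (L m x + 3 / 2 * t)).comp_hasFDerivAt x h1

lemma space_fderiv (m : ℕ) (t : ℝ) :
    fderiv ℝ (fun y => U m (y, t)) = fun x =>
      ((sigmoid (L m x + 3 / 2 * t) * (1 - sigmoid (L m x + 3 / 2 * t))) • L m) :=
  funext fun x => (space_deriv m t x).fderiv

lemma second_deriv (m : ℕ) (t : ℝ) (x v : EuclideanSpace ℝ (Fin (m + 1))) :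
    iteratedFDeriv ℝ 2 (fun y => U m (y, t)) x (fun _ => v) =
      sigmoid (L m x + 3 / 2 * t) * (1 - sigmoid (L m x + 3 / 2 * t)) *
        (1 - 2 * sigmoid (L m x + 3 / 2 * t)) * (L m v) ^ 2 := by
  rw [iteratedFDeriv_two_apply, space_fderiv]
  have h1 : HasFDerivAt (fun y => L m y + 3 / 2 * t) (L m) x :=
    ((L m).hasFDerivAt).add_const _
  set s := sigmoid (L m x + 3 / 2 * t) with hs
  have h2 : HasDerivAt (fun z : ℝ => sigmoid z * (1 - sigmoid z))
      (s * (1 - s) * (1 - 2 * s)) (L m x + 3 / 2 * t) := by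
    have h := hasDerivAt_sigmoid (L m x + 3 / 2 * t)
    refine (h.mul (h.const_sub 1)).congr_deriv ?_
    rw [← hs]; ring
  have h3 : HasFDerivAt (fun y => sigmoid (L m y + 3 / 2 * t) * (1 - sigmoid (L m y + 3 / 2 * t)))
      ((s * (1 - s) * (1 - 2 * s)) • L m) x :=
    HasDerivAt.comp_hasFDerivAt (f := fun y => L m y + 3 / 2 * t) x h2 h1
  have h4 := h3.smul_const (L m)
  rw [h4.fderiv]
  simp only [ContinuousLinearMap.smulRight_apply, smul_apply, smul_eq_mul]
  ring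

lemma time_deriv (m : ℕ) (t : ℝ) (x : EuclideanSpace ℝ (Fin (m + 1))) :
    deriv (fun s => U m (x, s)) t =
      3 / 2 * (sigmoid (L m x + 3 / 2 * t) * (1 - sigmoid (L m x + 3 / 2 * t))) := by
  have h1 : HasDerivAt (fun s : ℝ => L m x + 3 / 2 * s) (3 / 2) t := by
    simpa using ((hasDerivAt_id t).const_mul (3 / 2 : ℝ)).const_add (L m x)
  have h2 := (hasDerivAt_sigmoid (L m x + 3 / 2 * t)).comp t h1
  have h3 : deriv (fun s => U m (x, s)) t = _ := h2.deriv
  rw [h3]; ring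

/-- The negation of the preceding statement: For 1≤n≤8, every C² solution of Δu−u_t=u³−u for t<0 with ∣u∣≤1, ∂u/∂x_n>0 and u_t≥0 has the form u(x,t)=g(ν·x) for a unit vector ν, i.e. is one-dimensional and time-independent. -/
theorem result :
    ¬ (∀ m : ℕ, m + 1 ≤ 8 → ∀ u : EuclideanSpace ℝ (Fin (m + 1)) × ℝ → ℝ,
    ContDiffOn ℝ 2 u {p | p.2 < 0} →
    (∀ x : EuclideanSpace ℝ (Fin (m + 1)), ∀ t : ℝ, t < 0 →
      |u (x, t)| ≤ 1 ∧
      (∑ i : Fin (m + 1), iteratedFDeriv ℝ 2 (fun y => u (y, t)) x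
          (fun _ => EuclideanSpace.single i (1 : ℝ)))
        - deriv (fun s => u (x, s)) t = u (x, t) ^ 3 - u (x, t) ∧
      0 < fderiv ℝ (fun y => u (y, t)) x (EuclideanSpace.single (Fin.last m) (1 : ℝ)) ∧
      0 ≤ deriv (fun s => u (x, s)) t) →
    ∃ ν : EuclideanSpace ℝ (Fin (m + 1)), ‖ν‖ = 1 ∧
      ∃ g : ℝ → ℝ, ∀ x : EuclideanSpace ℝ (Fin (m + 1)), ∀ t : ℝ, t < 0 →
        u (x, t) = g (inner ℝ ν x)) := by
  intro H
  have hsq : (√2)⁻¹ ^ 2 = (1 / 2 : ℝ) := by
    rw [inv_pow, Real.sq_sqrt (by norm_num)]; norm_num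
  have hpos : 0 < (√2)⁻¹ := by positivity
  have hC : ContDiffOn ℝ 2 (U 0) {p | p.2 < 0} := by
    refine ContDiff.contDiffOn ?_
    have h1 : ContDiff ℝ 2 (fun p : EuclideanSpace ℝ (Fin (0 + 1)) × ℝ => L 0 p.1 + 3 / 2 * p.2) :=
      ((L 0).contDiff.comp contDiff_fst).add (contDiff_const.mul contDiff_snd)
    exact (contDiff_sigmoid.of_le le_top).comp h1
  obtain ⟨ν, -, g, hg⟩ := H 0 (by norm_num) (U 0) hC fun x t _ => by
    have s0 := sigmoid_pos (L 0 x + 3 / 2 * t)
    have s1 := sigmoid_lt_one (L 0 x + 3 / 2 * t)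
    have hU : U 0 (x, t) = sigmoid (L 0 x + 3 / 2 * t) := rfl
    have hL : L 0 (EuclideanSpace.single (Fin.last 0) (1 : ℝ)) = (√2)⁻¹ := by
      simp [L_apply]
    have hprod : 0 < sigmoid (L 0 x + 3 / 2 * t) * (1 - sigmoid (L 0 x + 3 / 2 * t)) :=
      mul_pos s0 (by linarith)
    refine ⟨?_, ?_, ?_, ?_⟩
    · rw [hU, abs_of_pos s0]; exact s1.le
    · have e : ∀ i : Fin (0 + 1), (EuclideanSpace.single i (1 : ℝ) : EuclideanSpace ℝ (Fin (0 + 1)))
          = EuclideanSpace.single (Fin.last 0) (1 : ℝ) := fun i => by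
        have hi : i = Fin.last 0 := by
          apply Fin.ext; have := i.isLt; simp only [Fin.val_last]; omega
        rw [hi]
      rw [Fin.sum_univ_one, e 0, second_deriv, time_deriv, hL, hsq, hU]
      ring
    · rw [(space_deriv 0 t x).fderiv]
      simp only [smul_apply, smul_eq_mul, hL]
      positivity
    · rw [time_deriv]
      positivity
  have h1 := hg 0 (-1) (by norm_num)
  have h2 := hg 0 (-2) (by norm_num)
  rw [← h2] at h1
  have h3 := sigmoid_injective h1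
  norm_num at h3

end Pool.Agent.S05106
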