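import Pool.Statements.S05148
import Pool.Agent.TH320.Lift
import Pool.Agent.H534R3.NonBorel

/-!
The isomorphism relation between closed subspaces of `ℓ₁` is not Borel.

To a tree `T` we attach a closed subspace `DD (tr T)` of `ℓ₁`, the closed span of the vectors
`e_w - (e_{w(m,0)} + e_{w(m,1)}) / 2` along `T`. If `T` has an infinite branch then `DD (tr T)` is
isomorphic to the subspace of the full tree (Pełczyński's decomposition method). If `T` is
well-founded, then `ℓ₁ / DD (tr T)` has the Schur property, and an isomorphism of `DD (tr T)` with the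
subspace of the full tree is excluded by lifting `L₁` (Lindenstrauss) to the push-out of the two
exact sequences.
-/

set_option autoImplicit false
open scoped ENNReal
open Pool Pool.MP_7ca887_an

namespace Pool.Agent.S05148

open Pool.Agent.TH320 Filter Topology

theorem isOpen_mem_tr (t : List (ℕ × ℕ)) : IsOpen {T : List ℕ → Bool | t ∈ tr T} := by
  have h0 : ∀ s : List ℕ, IsOpen {T : List ℕ → Bool | T s = true} := fun s => by
    have hc : Continuous fun T : List ℕ → Bool => T s := continuous_apply s
    exact (isOpen_discrete ({true} : Set Bool)).preimage hc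
  induction t with
  | nil =>
    have : {T : List ℕ → Bool | ([] : List (ℕ × ℕ)) ∈ tr T} = {T : List ℕ → Bool | T [] = true} := by
      ext T
      constructor
      · intro h
        exact h [] (List.suffix_refl _)
      · intro h t' ht'
        rw [List.suffix_nil.mp ht']
        exact h
    rw [this]
    exact h0 _
  | cons m t ih =>
    have : {T : List ℕ → Bool | (m :: t) ∈ tr T} =
        {T : List ℕ → Bool | T ((m :: t).map Prod.fst).reverse = true} ∩ {T | t ∈ tr T} := by
      ext T
      exact mem_tr_cons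
    rw [this]
    exact (h0 _).inter ih

theorem isOpen_hit {U : Set L1} (hU : IsOpen U) :
    IsOpen {T : List ℕ → Bool | ((DD (tr T) : Set L1) ∩ U).Nonempty} := by
  have h1 : ∀ T : List ℕ → Bool, ((DD (tr T) : Set L1) ∩ U).Nonempty ↔
      ∃ x ∈ U, x ∈ Submodule.span ℝ {x | ∃ m w, (m :: pr w) ∈ tr T ∧ x = dv m w} := by
    intro T
    rw [DD, Submodule.topologicalClosure_coe, closure_inter_open_nonempty_iff hU]
    constructor
    · rintro ⟨x, hx, hxU⟩
      exact ⟨x, hxU, hx⟩
    · rintro ⟨x, hxU, hx⟩
      exact ⟨x, hx, hxU⟩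
  rw [isOpen_iff_eventually]
  intro T hT
  obtain ⟨x, hxU, hx⟩ := (h1 T).mp hT
  have h2 : ∀ᶠ T' in 𝓝 T,
      x ∈ Submodule.span ℝ {x | ∃ m w, (m :: pr w) ∈ tr T' ∧ x = dv m w} := by
    refine Submodule.span_induction (p := fun x _ => ∀ᶠ T' in 𝓝 T,
      x ∈ Submodule.span ℝ {x | ∃ m w, (m :: pr w) ∈ tr T' ∧ x = dv m w}) ?_ ?_ ?_ ?_ hx
    · rintro y ⟨m, w, hw, rfl⟩
      filter_upwards [(isOpen_mem_tr (m :: pr w)).mem_nhds hw] with T' hT'
      exact Submodule.subset_span ⟨m, w, hT', rfl⟩
    · exact Filter.Eventually.of_forall fun T' => Submodule.zero_mem _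
    · intro y z _ _ hy hz
      filter_upwards [hy, hz] with T' h3 h4
      exact Submodule.add_mem _ h3 h4
    · intro c y _ hy
      filter_upwards [hy] with T' h3
      exact Submodule.smul_mem _ _ h3
  filter_upwards [h2] with T' hT'
  exact (h1 T').mpr ⟨x, hxU, hT'⟩

/-- The negation of the preceding statement: For every p with 1 ≤ p < ∞ and p ≠ 2, the relation of linear isomorphism between closed subspaces of real ℓ_p is Borel in the square of the Effros Borel structure on the closed subspaces. -/
theorem result :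
    ¬ (∀ (p : ℝ≥0∞) [Fact (1 ≤ p)], p ≠ ⊤ → p ≠ 2 →
      ∀ M : MeasurableSpace
          {S : Submodule ℝ (lp (fun _ : ℕ => ℝ) p) //
            IsClosed (S : Set (lp (fun _ : ℕ => ℝ) p))},
        M = MeasurableSpace.generateFrom
          {A | ∃ U : Set (lp (fun _ : ℕ => ℝ) p), IsOpen U ∧
            A = {S | ((S.1 : Set (lp (fun _ : ℕ => ℝ) p)) ∩ U).Nonempty}} →
        @MeasurableSet _ (M.prod M)
          {x | Nonempty (↥x.1.1 ≃L[ℝ] ↥x.2.1)}) := by
  intro hall
  have hR := hall 1 (by simp) (by norm_num) _ rfl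
  refine Pool.Agent.H534R3.NonBorel.illFounded_not_measurable ?_
  let M : MeasurableSpace {S : Submodule ℝ L1 // IsClosed (S : Set L1)} :=
    MeasurableSpace.generateFrom
      {A | ∃ U : Set L1, IsOpen U ∧ A = {S | ((S.1 : Set L1) ∩ U).Nonempty}}
  let Φ : (List ℕ → Bool) → {S : Submodule ℝ L1 // IsClosed (S : Set L1)} := fun T =>
    ⟨DD (tr T), isClosed_DD _⟩
  have hΦ : Measurable Φ := by
    refine measurable_generateFrom ?_
    rintro A ⟨U, hU, rfl⟩
    exact (isOpen_hit hU).measurableSet
  let Ψ : (List ℕ → Bool) → {S : Submodule ℝ L1 // IsClosed (S : Set L1)} ×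
      {S : Submodule ℝ L1 // IsClosed (S : Set L1)} := fun T =>
    (⟨DD Set.univ, isClosed_DD _⟩, Φ T)
  have hΨ : Measurable Ψ := measurable_const.prodMk hΦ
  have h1 : Ψ ⁻¹' {x | Nonempty (↥x.1.1 ≃L[ℝ] ↥x.2.1)} =
      {t : List ℕ → Bool | ∃ f : ℕ → ℕ, ∀ n, t (Pool.Agent.H534R3.NonBorel.br f n) = true} := by
    ext T
    constructor
    · rintro ⟨e⟩
      by_contra hcon
      have hps : PS (DD (tr T)) := by
        by_contra hn
        exact hcon (exists_branch_of_not_ps hn)
      exact (not_iso_of_ps hps).false e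
    · rintro ⟨b, hb⟩
      exact iso_of_branch hb
  rw [← h1]
  exact hΨ hR

end Pool.Agent.S05148
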