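import Pool.Statements.S05156

set_option autoImplicit false
open Pool Pool.MP_7d5b5f_an

namespace Pool.Agent.S05156

theorem result :
    ¬ (∀ p : ℝ, 1 < p → ∃ C : ℝ, 0 < C ∧
      ∀ (d : ℕ) (k : Fin d) (S T : Finset (Fin d → ℤ)) (f : (Fin d → ℤ) → ℝ),
        ∑ n ∈ T, |∑ m ∈ S,
            ((Real.Gamma (((d : ℝ) + 1) / 2) / Real.pi ^ (((d : ℝ) + 1) / 2)) *
              (((n k - m k : ℤ) : ℝ) /
                (Real.sqrt (∑ i, (((n i - m i : ℤ) : ℝ)) ^ 2)) ^ (d + 1))) * f m| ^ p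
          ≤ C ^ p * ∑ m ∈ S, |f m| ^ p) := by
  intro h
  obtain ⟨C, hC, hb⟩ := h 2 (by norm_num)
  -- `j! / π^(j+1) → ∞`
  have hlim := FloorSemiring.tendsto_pow_div_factorial_atTop Real.pi
  have hpos : (0:ℝ) < 1 / (Real.pi * (C + 1)) := by have := Real.pi_pos; positivity
  obtain ⟨j, hj⟩ := (hlim.eventually (gt_mem_nhds hpos)).exists
  have hfac : (0:ℝ) < (j.factorial : ℝ) := by exact_mod_cast j.factorial_pos
  have hpi := Real.pi_pos
  have hbig : C + 1 < (j.factorial : ℝ) / Real.pi ^ (j + 1) := by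
    rw [div_lt_div_iff₀ hfac (by positivity)] at hj
    rw [lt_div_iff₀ (by positivity), pow_succ]
    nlinarith [hj]
  have hd := hb (2 * j + 1) 0 {0} {Pi.single 0 1} (fun _ => 1)
  have hG : Real.Gamma ((((2 * j + 1 : ℕ) : ℝ) + 1) / 2) = (j.factorial : ℝ) := by
    have : ((((2 * j + 1 : ℕ) : ℝ) + 1) / 2) = (j : ℝ) + 1 := by push_cast; ring
    rw [this, Real.Gamma_nat_eq_factorial]
  have hP : Real.pi ^ ((((2 * j + 1 : ℕ) : ℝ) + 1) / 2) = Real.pi ^ (j + 1) := by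
    have : ((((2 * j + 1 : ℕ) : ℝ) + 1) / 2) = ((j + 1 : ℕ) : ℝ) := by push_cast; ring
    rw [this, Real.rpow_natCast]
  have hsum : (∑ i : Fin (2 * j + 1), ((((Pi.single 0 1 : Fin (2 * j + 1) → ℤ) i -
      (0 : Fin (2 * j + 1) → ℤ) i : ℤ) : ℝ)) ^ 2) = 1 := by
    rw [Finset.sum_eq_single (0 : Fin (2 * j + 1))]
    · simp
    · intro b _ hb0
      simp [Pi.single_apply, hb0]
    · simp
  rw [Finset.sum_singleton, Finset.sum_singleton, Finset.sum_singleton, hsum, hG, hP] at hd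
  simp only [Pi.single_eq_same, Pi.zero_apply, sub_zero, Int.cast_one, Real.sqrt_one, one_pow,
    div_one, mul_one, abs_one, Real.one_rpow] at hd
  set D : ℝ := (j.factorial : ℝ) / Real.pi ^ (j + 1) with hDdef
  have hDpos : 0 < D := by linarith
  rw [abs_of_pos hDpos] at hd
  have h2 : D ≤ C := by
    rcases le_or_gt D C with h1 | h1
    · exact h1
    · exact absurd hd (not_le.mpr (Real.rpow_lt_rpow hC.le h1 (by norm_num)))
  linarith

end Pool.Agent.S05156
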