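import Pool.Statements.S05354
import Pool.Agent.TH288.FI.Neg

set_option autoImplicit false
open MeasureTheory
open Pool Pool.MP_8d5788_an

namespace Pool.Agent.S05354

/-- The negation of the preceding statement: For all finite alphabets A, B and every probability vector p on B, the set of shift-invariant measures on A^ℤ that are finitarily isomorphic to the i.i.d. process p^ℤ is Borel in the weak* topology. Finitary means inverse equivariant maps continuous on full-measure sets. -/
theorem result :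
    ¬ (∀ (a b : ℕ) (p : ProbabilityMeasure (Fin b)),
    MeasurableSet[borel (ProbabilityMeasure (ℤ → Fin a))]
      {μ : ProbabilityMeasure (ℤ → Fin a) |
        Measure.map (fun x : ℤ → Fin a => fun n => x (n + 1)) (μ : Measure (ℤ → Fin a))
            = (μ : Measure (ℤ → Fin a)) ∧
        ∃ (X₀ : Set (ℤ → Fin a)) (Y₀ : Set (ℤ → Fin b))
          (φ : (ℤ → Fin a) → (ℤ → Fin b)) (ψ : (ℤ → Fin b) → (ℤ → Fin a)),
          (μ : Measure (ℤ → Fin a)) X₀ᶜ = 0 ∧
          Measure.infinitePi (fun _ : ℤ => (p : Measure (Fin b))) Y₀ᶜ = 0 ∧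
          Set.MapsTo φ X₀ Y₀ ∧ Set.MapsTo ψ Y₀ X₀ ∧
          Set.LeftInvOn ψ φ X₀ ∧ Set.LeftInvOn φ ψ Y₀ ∧
          ContinuousOn φ X₀ ∧ ContinuousOn ψ Y₀ ∧
          (∀ x ∈ X₀, φ (fun n => x (n + 1)) = fun n => φ x (n + 1)) ∧
          (∀ y ∈ Y₀, ψ (fun n => y (n + 1)) = fun n => ψ y (n + 1)) ∧
          Measure.map φ (μ : Measure (ℤ → Fin a))
            = Measure.infinitePi (fun _ : ℤ => (p : Measure (Fin b))) ∧
          Measure.map ψ (Measure.infinitePi (fun _ : ℤ => (p : Measure (Fin b))))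
            = (μ : Measure (ℤ → Fin a))}) := by
  intro h
  have h1 := h 32 16 ⟨Pool.Agent.TH288.NB.unif (Fin 16), inferInstance⟩
  have h2 : @Measurable _ _ _ (borel (ProbabilityMeasure (ℤ → Fin 32)))
      Pool.Agent.TH288.FI.muP :=
    @Continuous.measurable _ _ _ _ _ _ (borel _) (@BorelSpace.mk _ _ (borel _) rfl) _
      Pool.Agent.TH288.FI.continuous_muP
  have h3 := h2 h1
  refine Pool.Agent.H534R3.NonBorel.illFounded_not_measurable ?_
  convert h3 using 1
  ext t
  constructor
  · rintro ⟨f, hf⟩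
    exact ⟨Pool.Agent.TH288.FI.mu_shn t 1, Pool.Agent.TH288.FI.iso_of_branch t f hf⟩
  · intro ht
    by_contra hcon
    obtain ⟨-, X₀, Y₀, φ, ψ, g1, g2, g3, g4, g5, g6, g7, g8, g9, g10, g11, g12⟩ := ht
    exact Pool.Agent.TH288.FI.not_iso t hcon X₀ φ g1 g7 g9 g11

end Pool.Agent.S05354
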