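import Pool.Statements.S05466
-- import your own Pool.Agent.* helpers here
import Pool.Agent.TH307.ShockTrain

set_option autoImplicit false
open MeasureTheory Filter Topology
open Pool Pool.MP_95eb0c_an

namespace Pool.Agent.S05466

/-- The negation of the preceding statement: For ideal gas γ>1, any sequence of bounded weak solutions of 1D Lagrangian gas dynamics on t>0 with uniform bounds τ,p bounded away from 0 and ∣v∣≤V, converging weak-* in L^∞, has velocity and pressure converging in L¹ on every compact subset. -/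
theorem result :
    ¬ (∀ (γ : ℝ), 1 < γ →
  ∀ (τe ve pe : ℕ → ℝ × ℝ → ℝ) (τ v p : ℝ × ℝ → ℝ) (τm τM pm pM V : ℝ),
  0 < τm → τm ≤ τM → 0 < pm → pm ≤ pM →
  (∀ n, AEStronglyMeasurable (τe n) (volume.restrict {z : ℝ × ℝ | 0 < z.2}) ∧
        AEStronglyMeasurable (ve n) (volume.restrict {z : ℝ × ℝ | 0 < z.2}) ∧
        AEStronglyMeasurable (pe n) (volume.restrict {z : ℝ × ℝ | 0 < z.2})) →
  (∀ n, ∀ᵐ z ∂(volume.restrict {z : ℝ × ℝ | 0 < z.2}),
        τm ≤ τe n z ∧ τe n z ≤ τM ∧ pm ≤ pe n z ∧ pe n z ≤ pM ∧ |ve n z| ≤ V) →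
  (∀ n, ∀ φ : ℝ × ℝ → ℝ, ContDiff ℝ ((⊤ : ℕ∞) : WithTop ℕ∞) φ → HasCompactSupport φ →
      tsupport φ ⊆ {z : ℝ × ℝ | 0 < z.2} →
      (∫ z in {z : ℝ × ℝ | 0 < z.2},
          (τe n z * fderiv ℝ φ z (0, 1) - ve n z * fderiv ℝ φ z (1, 0))) = 0 ∧
      (∫ z in {z : ℝ × ℝ | 0 < z.2},
          (ve n z * fderiv ℝ φ z (0, 1) + pe n z * fderiv ℝ φ z (1, 0))) = 0 ∧
      (∫ z in {z : ℝ × ℝ | 0 < z.2},
          ((ve n z ^ 2 / 2 + pe n z * τe n z / (γ - 1)) * fderiv ℝ φ z (0, 1)
            + pe n z * ve n z * fderiv ℝ φ z (1, 0))) = 0) →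
  AEStronglyMeasurable τ (volume.restrict {z : ℝ × ℝ | 0 < z.2}) →
  AEStronglyMeasurable v (volume.restrict {z : ℝ × ℝ | 0 < z.2}) →
  AEStronglyMeasurable p (volume.restrict {z : ℝ × ℝ | 0 < z.2}) →
  (∃ C : ℝ, ∀ᵐ z ∂(volume.restrict {z : ℝ × ℝ | 0 < z.2}),
      |τ z| ≤ C ∧ |v z| ≤ C ∧ |p z| ≤ C) →
  (∀ g : ℝ × ℝ → ℝ, Integrable g (volume.restrict {z : ℝ × ℝ | 0 < z.2}) →
      Tendsto (fun n => ∫ z in {z : ℝ × ℝ | 0 < z.2}, τe n z * g z) atTop
        (𝓝 (∫ z in {z : ℝ × ℝ | 0 < z.2}, τ z * g z)) ∧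
      Tendsto (fun n => ∫ z in {z : ℝ × ℝ | 0 < z.2}, ve n z * g z) atTop
        (𝓝 (∫ z in {z : ℝ × ℝ | 0 < z.2}, v z * g z)) ∧
      Tendsto (fun n => ∫ z in {z : ℝ × ℝ | 0 < z.2}, pe n z * g z) atTop
        (𝓝 (∫ z in {z : ℝ × ℝ | 0 < z.2}, p z * g z))) →
  ∀ K : Set (ℝ × ℝ), IsCompact K → K ⊆ {z : ℝ × ℝ | 0 < z.2} →
    Tendsto (fun n => ∫ z in K, |ve n z - v z|) atTop (𝓝 0) ∧
    Tendsto (fun n => ∫ z in K, |pe n z - p z|) atTop (𝓝 0)) := by
  intro hmain
  have hH : MeasurableSet {z : ℝ × ℝ | 0 < z.2} := measurableSet_lt measurable_const measurable_snd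
  have hχm := Pool.Agent.TH307.ShockTrain.chi_measurable
  have hχc := Pool.Agent.TH307.ShockTrain.chi_cases
  have hχa := Pool.Agent.TH307.ShockTrain.chi_abs
  set χ := Pool.Agent.TH307.ShockTrain.chi with hχdef
  -- weak forms
  have weak : ∀ (n : ℕ) (a b c d : ℝ), d = -b → ∀ φ : ℝ × ℝ → ℝ,
      ContDiff ℝ ((⊤ : ℕ∞) : WithTop ℕ∞) φ → HasCompactSupport φ →
      tsupport φ ⊆ {z : ℝ × ℝ | 0 < z.2} → ∀ F : ℝ × ℝ → ℝ,
      (∀ z, F z = (a + b * χ n z) * fderiv ℝ φ z (0, 1)
        - (c + d * χ n z) * fderiv ℝ φ z (1, 0)) →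
      (∫ z in {z : ℝ × ℝ | 0 < z.2}, F z) = 0 := by
    intro n a b c d hbd φ hφ hc hsupp F hF
    have hcont : ∀ w : ℝ × ℝ, Continuous (fun z => fderiv ℝ φ z w) := fun w =>
      (hφ.continuous_fderiv (by simp)).clm_apply continuous_const
    have hi : ∀ w : ℝ × ℝ, Integrable (fun z => fderiv ℝ φ z w) := fun w =>
      (hcont w).integrable_of_hasCompactSupport (hc.fderiv_apply (𝕜 := ℝ) w)
    rw [setIntegral_eq_integral_of_forall_compl_eq_zero (fun z hz => by
      have : fderiv ℝ φ z = 0 := by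
        by_contra hne
        exact hz (hsupp (support_fderiv_subset ℝ hne))
      rw [hF z, this]; simp)]
    have hχi : Integrable (fun z => χ n z * fderiv ℝ φ z (1, 1)) :=
      (hi (1, 1)).bdd_mul (c := 1) (hχm n).aestronglyMeasurable
        (Filter.Eventually.of_forall fun z => by simpa using hχa n z)
    have e : ∀ z, F z = (a * fderiv ℝ φ z (0, 1) - c * fderiv ℝ φ z (1, 0))
        + b * (χ n z * fderiv ℝ φ z (1, 1)) := by
      intro z
      have : fderiv ℝ φ z (1, 1) = fderiv ℝ φ z (1, 0) + fderiv ℝ φ z (0, 1) := by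
        rw [← map_add]; simp
      rw [hF z, this, hbd]
      ring
    simp_rw [e]
    have i3 : Integrable (fun z => a * fderiv ℝ φ z (0, 1) - c * fderiv ℝ φ z (1, 0)) :=
      ((hi (0, 1)).const_mul a).sub ((hi (1, 0)).const_mul c)
    rw [integral_add i3 (hχi.const_mul b),
      integral_sub ((hi (0, 1)).const_mul a) ((hi (1, 0)).const_mul c), integral_const_mul,
      integral_const_mul, integral_const_mul,
      Pool.Agent.TH307.ShockTrain.integral_dir_zero φ hφ hc,
      Pool.Agent.TH307.ShockTrain.integral_dir_zero φ hφ hc]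
    have t0 : ∫ z, χ n z * fderiv ℝ φ z (1, 1) = 0 :=
      Pool.Agent.TH307.ShockTrain.transport_zero
        (fun y => Pool.Agent.TH307.ShockTrain.sq (((n : ℝ) + 1) * y))
        (Pool.Agent.TH307.ShockTrain.sq_measurable.comp (measurable_const.mul measurable_id))
        (fun y => by
          rcases Pool.Agent.TH307.ShockTrain.sq_cases (((n : ℝ) + 1) * y) with h | h <;> simp [h])
        φ hφ hc
    rw [t0]
    simp
  -- weak-* convergence
  have wk : ∀ (a b : ℝ) (g : ℝ × ℝ → ℝ), Integrable g (volume.restrict {z : ℝ × ℝ | 0 < z.2}) →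
      Tendsto (fun n => ∫ z in {z : ℝ × ℝ | 0 < z.2}, (a + b * χ n z) * g z) atTop
        (𝓝 (∫ z in {z : ℝ × ℝ | 0 < z.2}, (a + b / 2) * g z)) := by
    intro a b g hg
    have hgi : Integrable ({z : ℝ × ℝ | 0 < z.2}.indicator g) := (integrable_indicator_iff hH).2 hg
    have h1 := Pool.Agent.TH307.ShockTrain.chi_weak _ hgi
    have hχg : ∀ n, Integrable (fun z => χ n z * g z) (volume.restrict {z : ℝ × ℝ | 0 < z.2}) :=
      fun n => hg.bdd_mul (c := 1) (hχm n).aestronglyMeasurable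
        (Filter.Eventually.of_forall fun z => by simpa using hχa n z)
    have e1 : ∀ n, ∫ z in {z : ℝ × ℝ | 0 < z.2}, (a + b * χ n z) * g z
        = a * (∫ z in {z : ℝ × ℝ | 0 < z.2}, g z)
          + b * ∫ z, χ n z * {z : ℝ × ℝ | 0 < z.2}.indicator g z := by
      intro n
      have e0 : ∫ z, χ n z * {z : ℝ × ℝ | 0 < z.2}.indicator g z
          = ∫ z in {z : ℝ × ℝ | 0 < z.2}, χ n z * g z := by
        rw [← integral_indicator hH]
        congr 1
        ext z
        by_cases hz : z ∈ {z : ℝ × ℝ | 0 < z.2}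
        · rw [Set.indicator_of_mem hz, Set.indicator_of_mem hz]
        · rw [Set.indicator_of_notMem hz, Set.indicator_of_notMem hz, mul_zero]
      rw [e0, ← integral_const_mul, ← integral_const_mul,
        ← integral_add (hg.const_mul a) ((hχg n).const_mul b)]
      congr 1
      ext z
      ring
    have e2 : ∫ z in {z : ℝ × ℝ | 0 < z.2}, (a + b / 2) * g z
        = a * (∫ z in {z : ℝ × ℝ | 0 < z.2}, g z)
          + b * ((1 / 2) * ∫ z, {z : ℝ × ℝ | 0 < z.2}.indicator g z) := by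
      rw [integral_indicator hH, integral_const_mul]
      ring
    rw [e2]
    simp_rw [e1]
    exact tendsto_const_nhds.add (h1.const_mul b)
  have hmeas : ∀ (n : ℕ) (a b : ℝ), AEStronglyMeasurable (fun z => a + b * χ n z)
      (volume.restrict {z : ℝ × ℝ | 0 < z.2}) := fun n a b =>
    (measurable_const.add (measurable_const.mul (hχm n))).aestronglyMeasurable
  have key := hmain 2 (by norm_num) (fun n z => 5 / 2 + 1 * χ n z) (fun n z => 1 / 2 + (-1) * χ n z)
    (fun n z => 2 + (-1) * χ n z) (fun _ => 3) (fun _ => 0) (fun _ => 3 / 2)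
    (5 / 2) (7 / 2) 1 2 (1 / 2) (by norm_num) (by norm_num) (by norm_num) (by norm_num)
    (fun n => ⟨hmeas n _ _, hmeas n _ _, hmeas n _ _⟩)
    (fun n => Filter.Eventually.of_forall fun z => by
      rcases hχc n z with h | h <;> rw [h] <;> norm_num)
    (fun n φ hφ hc hs => by
      refine ⟨?_, ?_, ?_⟩
      · exact weak n (5 / 2) 1 (1 / 2) (-1) rfl φ hφ hc hs _ (fun z => rfl)
      · refine weak n (1 / 2) (-1) (-2) 1 (by norm_num) φ hφ hc hs _ (fun z => ?_)
        ring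
      · refine weak n (41 / 8) (-3 / 2) (-1) (3 / 2) (by norm_num) φ hφ hc hs _ (fun z => ?_)
        rcases hχc n z with h | h <;> rw [h] <;> ring)
    aestronglyMeasurable_const aestronglyMeasurable_const aestronglyMeasurable_const
    ⟨3, Filter.Eventually.of_forall fun z => by norm_num⟩
    (fun g hg => by
      refine ⟨?_, ?_, ?_⟩
      · have := wk (5 / 2) 1 g hg
        norm_num at this ⊢
        exact this
      · have := wk (1 / 2) (-1) g hg
        norm_num at this ⊢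
        exact this
      · have := wk 2 (-1) g hg
        norm_num at this ⊢
        exact this)
    (Set.Icc (0, 1) (1, 2)) isCompact_Icc (fun z hz => by
      have : (1 : ℝ) ≤ z.2 := hz.1.2
      show 0 < z.2
      linarith)
  have h1 := key.1
  have h2 : ∀ n, ∫ z in Set.Icc ((0, 1) : ℝ × ℝ) (1, 2), |1 / 2 + (-1) * χ n z - 0| = 1 / 2 := by
    intro n
    have : ∀ z, |1 / 2 + (-1) * χ n z - 0| = 1 / 2 := by
      intro z
      rcases hχc n z with h | h <;> rw [h] <;> norm_num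
    simp_rw [this]
    rw [setIntegral_const, Set.Icc_prod_eq, Measure.volume_eq_prod, Measure.real,
      Measure.prod_prod]
    simp
    norm_num
  simp_rw [h2] at h1
  have := tendsto_nhds_unique h1 tendsto_const_nhds
  norm_num at this

end Pool.Agent.S05466
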