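import Pool.Statements.S05481
import Pool.Agent.TH239.FF.Main

set_option autoImplicit false
open Filter Topology
open Pool Pool.MP_974af6_an

namespace Pool.Agent.S05481

/-- Every nonnegative continuous solution of the critical forest fire equations (total mass 1) whose initial data is admissible converges, for each k, to v_k(∞) = C(2k,k)/((2k−1)4^k), the coefficients of 1 − √(1−z). -/
theorem result :
  ∀ v : ℕ → ℝ → ℝ,
    (∀ k : ℕ, 1 ≤ k → ∀ t : ℝ, 0 ≤ t → 0 ≤ v k t) →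
    (∀ t : ℝ, 0 ≤ t → HasSum (fun k : ℕ => v (k + 1) t) 1) →
    (∀ k : ℕ, 1 ≤ k → ContinuousOn (v k) (Set.Ici 0)) →
    (∀ k : ℕ, 2 ≤ k → ∀ t : ℝ, 0 < t →
      HasDerivAt (v k)
        (-(k : ℝ) * v k t + ((k : ℝ) / 2) * ∑ l ∈ Finset.Ico 1 k, v l t * v (k - l) t) t) →
    (∃ δ : ℝ, 0 < δ ∧ ∃ g : ℂ → ℂ,
      AnalyticOnNhd ℂ g (Metric.closedBall (1 : ℂ) δ) ∧
      (∀ x : ℝ, 1 - δ ≤ x → x ≤ 1 →
        HasSum (fun k : ℕ => ((v (k + 1) 0 : ℝ) : ℂ) * g (x : ℂ) ^ (k + 1)) (x : ℂ)) ∧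
      (((deriv g 1).im = 0 ∧ 0 < (deriv g 1).re) ∨
        (deriv g 1 = 0 ∧ (deriv (deriv g) 1).im = 0 ∧ (deriv (deriv g) 1).re < 0))) →
    ∀ k : ℕ, 1 ≤ k →
      Tendsto (fun t : ℝ => v k t) atTop
        (𝓝 ((Nat.centralBinom k : ℝ) / ((2 * (k : ℝ) - 1) * 4 ^ k))) := by
  intro v hnn hsum hcont hder _ k hk
  have h : TH239.FF.Sol (fun n t => v (n + 1) t) := by
    refine ⟨fun n t ht => hnn (n + 1) (by omega) t ht, fun t ht => hsum t ht,
      fun n => hcont (n + 1) (by omega), ?_⟩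
    intro n hn t ht
    have h1 := hder (n + 1) (by omega) t ht
    have h2 : TH239.FF.dr (fun n t => v (n + 1) t) n t
        = -((n + 1 : ℕ) : ℝ) * v (n + 1) t
          + (((n + 1 : ℕ) : ℝ) / 2) * ∑ l ∈ Finset.Ico 1 (n + 1), v l t * v (n + 1 - l) t := by
      unfold TH239.FF.dr
      have h3 : ∑ i ∈ Finset.range n, v (i + 1) t * v (n - 1 - i + 1) t
          = ∑ l ∈ Finset.Ico 1 (n + 1), v l t * v (n + 1 - l) t := by
        rw [Finset.sum_Ico_eq_sum_range]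
        apply Finset.sum_congr (by simp)
        intro i hi
        have hi' : i < n := Finset.mem_range.mp hi
        have e1 : i + 1 = 1 + i := by omega
        have e2 : n - 1 - i + 1 = n + 1 - (1 + i) := by omega
        rw [e1, e2]
      simp only [h3]
      push_cast
      ring
    rw [h2]
    exact h1
  obtain ⟨n, rfl⟩ : ∃ n, k = n + 1 := ⟨k - 1, by omega⟩
  exact TH239.FF.main_lim h n

end Pool.Agent.S05481
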