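import Pool.Statements.S05648
import Pool.Agent.TH297.HS.Final

set_option autoImplicit false
open MeasureTheory Filter Topology
open Pool Pool.MP_a271d0_an

namespace Pool.Agent.S05648

/-- The negation of the preceding statement: For every N≥3, smooth bounded domain Ω in R^N with 0 on its boundary, s in (0,2) and 2*(s)-1<p<(N+2)/(N-2), there is an H^1_0 function u>0 on Ω weakly solving Δu - u^p + u^(2*(s)-1)/∣x∣^s = 0. -/
theorem result :
    ¬ (∀ (N : ℕ), 3 ≤ N →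
  ∀ (Ω : Set (EuclideanSpace ℝ (Fin N))),
    IsOpen Ω → IsConnected Ω → Bornology.IsBounded Ω →
    (∃ ρ : EuclideanSpace ℝ (Fin N) → ℝ,
        ContDiff ℝ ((⊤ : ℕ∞) : WithTop ℕ∞) ρ ∧ Ω = {x | ρ x < 0} ∧
        ∀ x ∈ frontier Ω, fderiv ℝ ρ x ≠ 0) →
    (0 : EuclideanSpace ℝ (Fin N)) ∈ frontier Ω →
  ∀ s : ℝ, 0 < s → s < 2 →
  ∀ p : ℝ, 2 * ((N : ℝ) - s) / ((N : ℝ) - 2) - 1 < p →
    p < ((N : ℝ) + 2) / ((N : ℝ) - 2) →
  ∃ u : EuclideanSpace ℝ (Fin N) → ℝ,
  ∃ G : EuclideanSpace ℝ (Fin N) → EuclideanSpace ℝ (Fin N),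
    MemLp u 2 volume ∧ MemLp G 2 volume ∧
    (∃ φ : ℕ → EuclideanSpace ℝ (Fin N) → ℝ,
        (∀ n, ContDiff ℝ ((⊤ : ℕ∞) : WithTop ℕ∞) (φ n) ∧
              HasCompactSupport (φ n) ∧ tsupport (φ n) ⊆ Ω) ∧
        Tendsto (fun n => eLpNorm (fun x => φ n x - u x) 2 volume) atTop (𝓝 0) ∧
        Tendsto (fun n => eLpNorm (fun x => gradient (φ n) x - G x) 2 volume)
          atTop (𝓝 0)) ∧
    (∀ᵐ x ∂(volume : Measure (EuclideanSpace ℝ (Fin N))), x ∈ Ω → 0 < u x) ∧
    ∀ ψ : EuclideanSpace ℝ (Fin N) → ℝ,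
      ContDiff ℝ ((⊤ : ℕ∞) : WithTop ℕ∞) ψ → HasCompactSupport ψ → tsupport ψ ⊆ Ω →
        Integrable (fun x => inner ℝ (G x) (gradient ψ x)) volume ∧
        Integrable (fun x => u x ^ p * ψ x) volume ∧
        Integrable (fun x => u x ^ (2 * ((N : ℝ) - s) / ((N : ℝ) - 2) - 1) * ψ x / ‖x‖ ^ s)
          volume ∧
        ∫ x, (inner ℝ (G x) (gradient ψ x) + u x ^ p * ψ x
              - u x ^ (2 * ((N : ℝ) - s) / ((N : ℝ) - 2) - 1) * ψ x / ‖x‖ ^ s) = 0) := by
  intro H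
  set c : EuclideanSpace ℝ (Fin 3) := EuclideanSpace.single 0 1 with hc
  have hcn : ‖c‖ = 1 := by rw [hc, PiLp.norm_single]; simp
  set Ω : Set (EuclideanSpace ℝ (Fin 3)) := Metric.ball c 1 with hΩ
  have hfr : frontier Ω = Metric.sphere c 1 := frontier_ball c one_ne_zero
  obtain ⟨u, G, hu, hG, ⟨φ, hφ, hφ1, hφ2⟩, hpos, hweak⟩ := H 3 le_rfl Ω Metric.isOpen_ball
    ((convex_ball c 1).isConnected ⟨c, Metric.mem_ball_self one_pos⟩) Metric.isBounded_ball
    ⟨fun x => ‖x - c‖ ^ 2 - 1, by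
      exact ((contDiff_norm_sq ℝ).comp (contDiff_id.sub contDiff_const)).sub contDiff_const, by
      ext x
      rw [hΩ, Metric.mem_ball, dist_eq_norm]
      constructor
      · intro h
        have : ‖x - c‖ ^ 2 < 1 := by
          have h0 := norm_nonneg (x - c)
          nlinarith
        show ‖x - c‖ ^ 2 - 1 < 0
        linarith
      · intro h
        have h' : ‖x - c‖ ^ 2 - 1 < 0 := h
        have h0 := norm_nonneg (x - c)
        nlinarith, by
      intro x hx h0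
      rw [hfr, Metric.mem_sphere, dist_eq_norm] at hx
      have h1 : HasFDerivAt (fun x : EuclideanSpace ℝ (Fin 3) => ‖x - c‖ ^ 2 - 1)
          (2 • (innerSL ℝ (x - c)).comp (ContinuousLinearMap.id ℝ (EuclideanSpace ℝ (Fin 3)))) x :=
        (((hasFDerivAt_id x).sub_const c).norm_sq).sub_const 1
      rw [h1.fderiv] at h0
      rw [ContinuousLinearMap.comp_id] at h0
      have h3 : (2 • innerSL ℝ (x - c)) (x - c) = 0 := by rw [h0]; rfl
      rw [smul_apply, innerSL_apply_apply, real_inner_self_eq_norm_sq, hx] at h3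
      norm_num at h3⟩
    (by rw [hfr, Metric.mem_sphere, dist_eq_norm, zero_sub, norm_neg, hcn])
    1 one_pos (by norm_num) 4 (by norm_num) (by norm_num)
  have hexp : (2 * (((3 : ℕ) : ℝ) - 1) / (((3 : ℕ) : ℝ) - 2) - 1) = ((3 : ℕ) : ℝ) := by norm_num
  -- the function `u` vanishes almost everywhere outside `Ω`
  have hTest : ∀ n, Pool.Agent.TH297.HS.Test Ω (φ n) := fun n =>
    ⟨(hφ n).1, (hφ n).2.1, (hφ n).2.2⟩
  have hout : ∀ᵐ x ∂(volume : Measure (EuclideanSpace ℝ (Fin 3))), x ∉ Ω → u x = 0 := by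
    obtain ⟨ψ, b1, b2, -, -⟩ :=
      (Pool.Agent.TH297.HS.H10.mk hu hG ⟨φ, hTest, hφ1, hφ2⟩).ae_seq
    filter_upwards [b2] with x hx hxΩ
    have h0 : ∀ n, ψ n x = 0 := fun n =>
      image_eq_zero_of_notMem_tsupport fun h => hxΩ ((b1 n).supp h)
    simp only [h0] at hx
    exact (tendsto_nhds_unique hx tendsto_const_nhds)
  set w : EuclideanSpace ℝ (Fin 3) → ℝ := Ω.indicator (fun x => |u x|) with hw
  have hae : w =ᵐ[volume] u := by
    filter_upwards [hpos, hout] with x h1 h2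
    by_cases hx : x ∈ Ω
    · rw [hw, Set.indicator_of_mem hx, abs_of_pos (h1 hx)]
    · rw [hw, Set.indicator_of_notMem hx, h2 hx]
  have hH10 : Pool.Agent.TH297.HS.H10 Ω w G := by
    refine ⟨(memLp_congr_ae hae).mpr hu, hG, φ, hTest, ?_, hφ2⟩
    refine hφ1.congr fun n => ?_
    refine eLpNorm_congr_ae ?_
    filter_upwards [hae] with x hx
    rw [hx]
  have hw0 : ∀ x, 0 ≤ w x := fun x => Set.indicator_nonneg (fun _ _ => abs_nonneg _) x
  have hws : ∀ x, x ∉ Ω → w x = 0 := fun x hx => Set.indicator_of_notMem hx _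
  have hgood := hH10.good hws
  have hvol : volume Ω ≠ ⊤ := Metric.isBounded_ball.measure_lt_top.ne
  have hi5 : Integrable (fun x => w x ^ 5) volume := by
    refine (Pool.Agent.TH297.HS.int65 (hgood.m65a hvol) hgood.m6).congr
      (Eventually.of_forall fun x => ?_)
    simp only; ring
  refine Pool.Agent.TH297.HS.no_sol (Ω := Ω) (R := 2) (u := w) (G := G) ?_ hvol ?_ (by norm_num)
    hH10 hw0 hws ?_ ?_
  · -- star-shaped
    intro x hx s hs0 hs1
    rw [hΩ, Metric.mem_ball, dist_eq_norm] at hx ⊢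
    have e : s • x - c = s • (x - c) + (1 - s) • (-c) := by
      rw [smul_sub, smul_neg, sub_smul, one_smul]; abel
    rw [e]
    calc ‖s • (x - c) + (1 - s) • (-c)‖ ≤ ‖s • (x - c)‖ + ‖(1 - s) • (-c)‖ := norm_add_le _ _
      _ = s * ‖x - c‖ + (1 - s) * 1 := by
          rw [norm_smul, norm_smul, norm_neg, hcn, Real.norm_of_nonneg hs0.le,
            Real.norm_of_nonneg (by linarith)]
      _ < 1 := by nlinarith
  · intro x hx
    rw [hΩ, Metric.mem_ball, dist_eq_norm] at hx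
    have : ‖x‖ ≤ ‖x - c‖ + ‖c‖ := by
      have := norm_add_le (x - c) c
      rwa [sub_add_cancel] at this
    linarith
  · intro ψ hψ
    obtain ⟨-, -, -, h4⟩ := hweak ψ hψ.smooth hψ.cpt hψ.supp
    rw [← h4]
    refine integral_congr_ae ?_
    filter_upwards [hae] with x hx
    rw [hexp, Real.rpow_natCast, Real.rpow_one, ← hx]
    have h5 : w x ^ (4:ℝ) = w x ^ 4 := by
      have : (4:ℝ) = ((4:ℕ):ℝ) := by norm_num
      rw [this, Real.rpow_natCast]
    rw [h5]
    unfold Pool.Agent.TH297.HS.hh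
    rw [div_eq_mul_inv]
    ring
  · rw [integral_pos_iff_support_of_nonneg (fun x => pow_nonneg (hw0 x) 5) hi5]
    have h1 : 0 < volume Ω := Metric.measure_ball_pos volume c one_pos
    refine lt_of_lt_of_le h1 (measure_mono_ae ?_)
    filter_upwards [hpos, hae] with x h2 h3 hx
    have h4 := h2 hx
    rw [← h3] at h4
    exact (pow_pos h4 5).ne'

end Pool.Agent.S05648
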