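import Pool.Statements.S05680
import Pool.Agent.TH908.CatD

set_option autoImplicit false
open Pool Pool.MP_a50f86_an

namespace Pool.Agent.S05680

/-- The negation of the preceding statement: For every bounded convex smoothly bounded domain in R^n (n≥3), point p and nonzero conformal frame (u,v), there is a conformal harmonic disc with maximal scaling at p, unique on the disc, and it is an injective immersion proper into the domain. -/
theorem result :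
    ¬ (∀ n : ℕ, 3 ≤ n → ∀ Ω : Set (EuclideanSpace ℝ (Fin n)),
    IsOpen Ω → Bornology.IsBounded Ω → Convex ℝ Ω →
    (∃ U : Set (EuclideanSpace ℝ (Fin n)), ∃ ρ : EuclideanSpace ℝ (Fin n) → ℝ,
        IsOpen U ∧ closure Ω ⊆ U ∧ ContDiffOn ℝ ((⊤ : ℕ∞) : WithTop ℕ∞) ρ U ∧
        Ω = {x | x ∈ U ∧ ρ x < 0} ∧ ∀ x ∈ frontier Ω, fderiv ℝ ρ x ≠ 0) →
    ∀ p ∈ Ω, ∀ u v : EuclideanSpace ℝ (Fin n),
      ‖u‖ = ‖v‖ → inner ℝ u v = 0 → u ≠ 0 →
      ∃ f : ℂ → EuclideanSpace ℝ (Fin n),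
        (∃ r : ℝ, 0 < r ∧
          (ContDiffOn ℝ 2 f (Metric.ball (0 : ℂ) 1) ∧
            (∀ z ∈ Metric.ball (0 : ℂ) 1, f z ∈ Ω) ∧
            (∀ z ∈ Metric.ball (0 : ℂ) 1,
              ‖fderiv ℝ f z (1 : ℂ)‖ = ‖fderiv ℝ f z Complex.I‖ ∧
              inner ℝ (fderiv ℝ f z (1 : ℂ)) (fderiv ℝ f z Complex.I) = 0) ∧
            (∀ z ∈ Metric.ball (0 : ℂ) 1,
              fderiv ℝ (fun w => fderiv ℝ f w (1 : ℂ)) z (1 : ℂ) +
                fderiv ℝ (fun w => fderiv ℝ f w Complex.I) z Complex.I = 0)) ∧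
          f 0 = p ∧ fderiv ℝ f 0 (1 : ℂ) = r • u ∧ fderiv ℝ f 0 Complex.I = r • v ∧
          ∀ g : ℂ → EuclideanSpace ℝ (Fin n), ∀ s : ℝ, 0 < s →
            (ContDiffOn ℝ 2 g (Metric.ball (0 : ℂ) 1) ∧
              (∀ z ∈ Metric.ball (0 : ℂ) 1, g z ∈ Ω) ∧
              (∀ z ∈ Metric.ball (0 : ℂ) 1,
                ‖fderiv ℝ g z (1 : ℂ)‖ = ‖fderiv ℝ g z Complex.I‖ ∧
                inner ℝ (fderiv ℝ g z (1 : ℂ)) (fderiv ℝ g z Complex.I) = 0) ∧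
              (∀ z ∈ Metric.ball (0 : ℂ) 1,
                fderiv ℝ (fun w => fderiv ℝ g w (1 : ℂ)) z (1 : ℂ) +
                  fderiv ℝ (fun w => fderiv ℝ g w Complex.I) z Complex.I = 0)) →
            g 0 = p → fderiv ℝ g 0 (1 : ℂ) = s • u → fderiv ℝ g 0 Complex.I = s • v →
            s ≤ r) ∧
        (∀ h : ℂ → EuclideanSpace ℝ (Fin n),
          (∃ r : ℝ, 0 < r ∧
            (ContDiffOn ℝ 2 h (Metric.ball (0 : ℂ) 1) ∧
              (∀ z ∈ Metric.ball (0 : ℂ) 1, h z ∈ Ω) ∧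
              (∀ z ∈ Metric.ball (0 : ℂ) 1,
                ‖fderiv ℝ h z (1 : ℂ)‖ = ‖fderiv ℝ h z Complex.I‖ ∧
                inner ℝ (fderiv ℝ h z (1 : ℂ)) (fderiv ℝ h z Complex.I) = 0) ∧
              (∀ z ∈ Metric.ball (0 : ℂ) 1,
                fderiv ℝ (fun w => fderiv ℝ h w (1 : ℂ)) z (1 : ℂ) +
                  fderiv ℝ (fun w => fderiv ℝ h w Complex.I) z Complex.I = 0)) ∧
            h 0 = p ∧ fderiv ℝ h 0 (1 : ℂ) = r • u ∧ fderiv ℝ h 0 Complex.I = r • v ∧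
            ∀ g : ℂ → EuclideanSpace ℝ (Fin n), ∀ s : ℝ, 0 < s →
              (ContDiffOn ℝ 2 g (Metric.ball (0 : ℂ) 1) ∧
                (∀ z ∈ Metric.ball (0 : ℂ) 1, g z ∈ Ω) ∧
                (∀ z ∈ Metric.ball (0 : ℂ) 1,
                  ‖fderiv ℝ g z (1 : ℂ)‖ = ‖fderiv ℝ g z Complex.I‖ ∧
                  inner ℝ (fderiv ℝ g z (1 : ℂ)) (fderiv ℝ g z Complex.I) = 0) ∧
                (∀ z ∈ Metric.ball (0 : ℂ) 1,
                  fderiv ℝ (fun w => fderiv ℝ g w (1 : ℂ)) z (1 : ℂ) +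
                    fderiv ℝ (fun w => fderiv ℝ g w Complex.I) z Complex.I = 0)) →
              g 0 = p → fderiv ℝ g 0 (1 : ℂ) = s • u → fderiv ℝ g 0 Complex.I = s • v →
              s ≤ r) →
          Set.EqOn h f (Metric.ball (0 : ℂ) 1)) ∧
        Set.InjOn f (Metric.ball (0 : ℂ) 1) ∧
        (∀ z ∈ Metric.ball (0 : ℂ) 1, fderiv ℝ f z (1 : ℂ) ≠ 0) ∧
        (∀ K : Set (EuclideanSpace ℝ (Fin n)), IsCompact K → K ⊆ Ω →
          IsCompact (Metric.ball (0 : ℂ) 1 ∩ f ⁻¹' K))) := by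
  intro H
  have m0 : (0 : ℂ) ∈ Metric.ball (0 : ℂ) 1 := Metric.mem_ball_self one_pos
  have hpi := Real.pi_pos
  obtain ⟨f, -, huniq, hinj, -, -⟩ := H 3 le_rfl Pool.Agent.TH908.Cat.Om
    Pool.Agent.TH908.Cat.Om_open Pool.Agent.TH908.Cat.Om_bdd Pool.Agent.TH908.Cat.Om_convex
    ⟨Set.univ, Pool.Agent.TH908.Cat.rho, isOpen_univ, Set.subset_univ _,
      Pool.Agent.TH908.Cat.rho_contDiff.contDiffOn, by simp [Pool.Agent.TH908.Cat.Om],
      Pool.Agent.TH908.Cat.Om_boundary⟩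
    (Pool.Agent.TH908.Cat.f0 0) (Pool.Agent.TH908.Cat.f0_mem m0)
    Pool.Agent.TH908.Cat.uu Pool.Agent.TH908.Cat.vv
    (by rw [Pool.Agent.TH908.Cat.uu_norm, Pool.Agent.TH908.Cat.vv_norm])
    Pool.Agent.TH908.Cat.uv_inner
    (by
      intro h
      have := Pool.Agent.TH908.Cat.uu_norm
      rw [h] at this
      simp at this)
  have heq := huniq Pool.Agent.TH908.Cat.f0 ⟨4 / Real.pi, by positivity,
    ⟨Pool.Agent.TH908.Cat.f0_smooth, fun z hz => Pool.Agent.TH908.Cat.f0_mem hz,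
      fun z hz => Pool.Agent.TH908.Cat.f0_conf hz, fun z hz => Pool.Agent.TH908.Cat.f0_harm hz⟩,
    rfl, Pool.Agent.TH908.Cat.f0_one, Pool.Agent.TH908.Cat.f0_I, by
      intro g s _ hg h0 _ hI
      exact Pool.Agent.TH908.Cat.upper hg.1 hg.2.1 hg.2.2.2 h0 hI⟩
  have h1 : f Pool.Agent.TH908.Cat.z1 = f 0 := by
    rw [← heq Pool.Agent.TH908.Cat.z1_mem, ← heq m0, Pool.Agent.TH908.Cat.f0_z1]
  exact Pool.Agent.TH908.Cat.z1_ne (hinj Pool.Agent.TH908.Cat.z1_mem m0 h1)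

end Pool.Agent.S05680
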