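import Pool.Statements.S05718
import Pool.Agent.TH259.FS.Ideal
import Pool.Agent.TH259.FS.Four

set_option autoImplicit false
open MeasureTheory Filter Topology
open Pool Pool.MP_a70d84_an

namespace Pool.Agent.S05718

/-- The negation of the preceding statement: On ℓ²(ℕ), a finite-section sequence has the form P_nKP_n+W_nK'W_n+C_n (K,K' compact, ‖C_n‖→0) iff it lies in the closed algebra generated by P_nT(a)P_n, a∈L^∞, and both s-lim A_n and s-lim W_nA_nW_n are compact. -/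
theorem result :
    ¬ (∀ (P W : ℕ → (lp (fun _ : ℕ => ℂ) 2 →L[ℂ] lp (fun _ : ℕ => ℂ) 2)),
    (∀ (n : ℕ) (x : lp (fun _ : ℕ => ℂ) 2) (j : ℕ), (P n x) j = if j ≤ n then x j else 0) →
    (∀ (n : ℕ) (x : lp (fun _ : ℕ => ℂ) 2) (j : ℕ), (W n x) j = if j ≤ n then x (n - j) else 0) →
    ∀ A : ℕ → (lp (fun _ : ℕ => ℂ) 2 →L[ℂ] lp (fun _ : ℕ => ℂ) 2),
      (∃ K K' : lp (fun _ : ℕ => ℂ) 2 →L[ℂ] lp (fun _ : ℕ => ℂ) 2,
        IsCompactOperator K ∧ IsCompactOperator K' ∧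
        ∃ C : ℕ → (lp (fun _ : ℕ => ℂ) 2 →L[ℂ] lp (fun _ : ℕ => ℂ) 2),
          (∀ n, C n = P n * C n * P n) ∧
          Tendsto (fun n => ‖C n‖) atTop (𝓝 0) ∧
          ∀ n, A n = P n * K * P n + W n * K' * W n + C n)
      ↔
      ((∀ ε : ℝ, 0 < ε →
          ∃ B ∈ NonUnitalAlgebra.adjoin ℂ
            {G : ℕ → (lp (fun _ : ℕ => ℂ) 2 →L[ℂ] lp (fun _ : ℕ => ℂ) 2) |
              ∃ a : Lp ℂ ⊤ (volume : Measure (AddCircle (1 : ℝ))),
              ∃ T : lp (fun _ : ℕ => ℂ) 2 →L[ℂ] lp (fun _ : ℕ => ℂ) 2,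
                (∀ j k : ℕ, (T (lp.single 2 k (1 : ℂ) : lp (fun _ : ℕ => ℂ) 2)) j
                    = fourierCoeff (⇑a : AddCircle (1 : ℝ) → ℂ) ((j : ℤ) - (k : ℤ))) ∧
                ∀ n, G n = P n * T * P n},
            ∀ n, ‖A n - B n‖ ≤ ε) ∧
       (∃ K : lp (fun _ : ℕ => ℂ) 2 →L[ℂ] lp (fun _ : ℕ => ℂ) 2,
          IsCompactOperator K ∧ ∀ x, Tendsto (fun n => A n x) atTop (𝓝 (K x))) ∧
       (∃ K : lp (fun _ : ℕ => ℂ) 2 →L[ℂ] lp (fun _ : ℕ => ℂ) 2,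
          IsCompactOperator K ∧
          ∀ x, Tendsto (fun n => (W n * A n * W n) x) atTop (𝓝 (K x))))) := by
  intro hall
  have h := TH259.FS.cc_sym
  refine h.not_mem_ideal ?_ ?_
  · intro δ hδ
    obtain ⟨m, hm1, hm2⟩ := TH259.FS.zer_small δ hδ
    refine ⟨TH259.FS.zer m, hm1, hm2, ?_⟩
    have := TH259.FS.cc_zero hm1
    rwa [TH259.FS.H_zer] at this
  have key := (hall TH259.FS.PP TH259.FS.WW TH259.FS.PP_apply TH259.FS.WW_apply h.C).2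
  suffices hsuff : _ by
    obtain ⟨K, K', hK, hK', C, _, hC2, hC3⟩ := key hsuff
    exact ⟨K, K', hK, hK', C, hC2, hC3⟩
  refine ⟨?_, ⟨0, ?_, ?_⟩, ⟨0, ?_, ?_⟩⟩
  · intro ε hε
    refine ⟨h.C, ?_, fun n => by rw [sub_self, norm_zero]; exact hε.le⟩
    -- the generators
    have g1 : (TH259.FS.PP : ℕ → (lp (fun _ : ℕ => ℂ) 2 →L[ℂ] lp (fun _ : ℕ => ℂ) 2)) ∈
        NonUnitalAlgebra.adjoin ℂ
            {G : ℕ → (lp (fun _ : ℕ => ℂ) 2 →L[ℂ] lp (fun _ : ℕ => ℂ) 2) |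
              ∃ a : Lp ℂ ⊤ (volume : Measure (AddCircle (1 : ℝ))),
              ∃ T : lp (fun _ : ℕ => ℂ) 2 →L[ℂ] lp (fun _ : ℕ => ℂ) 2,
                (∀ j k : ℕ, (T (lp.single 2 k (1 : ℂ) : lp (fun _ : ℕ => ℂ) 2)) j
                    = fourierCoeff (⇑a : AddCircle (1 : ℝ) → ℂ) ((j : ℤ) - (k : ℤ))) ∧
                ∀ n, G n = TH259.FS.PP n * T * TH259.FS.PP n} := by
      apply NonUnitalAlgebra.subset_adjoin
      refine ⟨(memLp_const (1 : ℂ) :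
          MemLp (fun _ : TH259.FS.TT => (1 : ℂ)) ⊤ volume).toLp _, 1, fun j k => ?_, fun n => ?_⟩
      · rw [TH259.FS.coeff_one_Lp]
        change (TH259.FS.e k) j = _
        rw [TH259.FS.e_apply]
        have : ((j : ℤ) - (k : ℤ) = 0) ↔ j = k := by omega
        simp only [this]
      · rw [mul_one]
        apply ContinuousLinearMap.ext
        intro x
        exact (TH259.FS.PP_PP n x).symm
    have g2 : (h.Tn : ℕ → (lp (fun _ : ℕ => ℂ) 2 →L[ℂ] lp (fun _ : ℕ => ℂ) 2)) ∈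
        NonUnitalAlgebra.adjoin ℂ
            {G : ℕ → (lp (fun _ : ℕ => ℂ) 2 →L[ℂ] lp (fun _ : ℕ => ℂ) 2) |
              ∃ a : Lp ℂ ⊤ (volume : Measure (AddCircle (1 : ℝ))),
              ∃ T : lp (fun _ : ℕ => ℂ) 2 →L[ℂ] lp (fun _ : ℕ => ℂ) 2,
                (∀ j k : ℕ, (T (lp.single 2 k (1 : ℂ) : lp (fun _ : ℕ => ℂ) 2)) j
                    = fourierCoeff (⇑a : AddCircle (1 : ℝ) → ℂ) ((j : ℤ) - (k : ℤ))) ∧
                ∀ n, G n = TH259.FS.PP n * T * TH259.FS.PP n} := by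
      apply NonUnitalAlgebra.subset_adjoin
      refine ⟨TH259.FS.memLp_bet'.toLp _, h.T, fun j k => ?_, fun n => rfl⟩
      rw [TH259.FS.coeff_bet_Lp]
      exact h.T_e_apply k j
    have g3 : (h.Tan : ℕ → (lp (fun _ : ℕ => ℂ) 2 →L[ℂ] lp (fun _ : ℕ => ℂ) 2)) ∈
        NonUnitalAlgebra.adjoin ℂ
            {G : ℕ → (lp (fun _ : ℕ => ℂ) 2 →L[ℂ] lp (fun _ : ℕ => ℂ) 2) |
              ∃ a : Lp ℂ ⊤ (volume : Measure (AddCircle (1 : ℝ))),
              ∃ T : lp (fun _ : ℕ => ℂ) 2 →L[ℂ] lp (fun _ : ℕ => ℂ) 2,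
                (∀ j k : ℕ, (T (lp.single 2 k (1 : ℂ) : lp (fun _ : ℕ => ℂ) 2)) j
                    = fourierCoeff (⇑a : AddCircle (1 : ℝ) → ℂ) ((j : ℤ) - (k : ℤ))) ∧
                ∀ n, G n = TH259.FS.PP n * T * TH259.FS.PP n} := by
      apply NonUnitalAlgebra.subset_adjoin
      refine ⟨TH259.FS.memLp_betc.toLp _, h.Ta, fun j k => ?_, fun n => rfl⟩
      rw [TH259.FS.coeff_betc_Lp, neg_sub]
      exact h.Ta_e_apply k j
    exact mul_mem (sub_mem g1 (mul_mem g2 g3)) (sub_mem g1 (mul_mem g3 g2))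
  · exact isCompactOperator_zero
  · intro x
    exact h.tendsto_C x
  · exact isCompactOperator_zero
  · intro x
    exact h.tendsto_flipC x

end Pool.Agent.S05718
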