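import Pool.Statements.S05853
import Pool.Agent.TH220.BergH
import Pool.Agent.TH220.BergI

set_option autoImplicit false
open Polynomial MeasureTheory
open Pool Pool.MP_b1555f_an

namespace Pool.Agent.S05853

open Pool.Agent.TH220.Berg

lemma prim4 : IsPrimitiveRoot Complex.I 4 := by
  refine IsPrimitiveRoot.mk_of_lt _ (by norm_num) Complex.I_pow_four ?_
  intro l h0 h4 h
  interval_cases l
  · have := congrArg Complex.im h
    simp at this
  · have := congrArg Complex.re h
    simp at this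
    norm_num at this
  · have := congrArg Complex.re h
    simp [Complex.I_pow_three] at this

lemma prim3 : IsPrimitiveRoot om 3 := by
  refine IsPrimitiveRoot.mk_of_lt _ (by norm_num) om_cube ?_
  intro l h0 h4 h
  interval_cases l
  · have := congrArg Complex.im h
    rw [pow_one, Complex.one_im] at this
    exact om_im_ne this
  · have := congrArg Complex.im h
    rw [om_sq, Complex.one_im] at this
    have h2 : -(Real.sqrt 3 / 2) = 0 := this
    have h3 := sq3pos
    linarith

lemma main {ω : ℂ} {N : ℕ} (hgeo : Geo ω N (KN N)) (hG : Good ω N)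
    (hprim : IsPrimitiveRoot ω N) (k : ℕ) (hk : k < N) (j : ℕ) (p p' : Polynomial ℂ)
    (hp : p.Monic) (hd : p.natDegree = j * N + k)
    (horth : ∀ r : Polynomial ℂ, r.natDegree < j * N + k →
        ∫ z in interior (convexHull ℝ {w : ℂ | w ^ N = 1}),
          p.eval z * (starRingEnd ℂ) (r.eval z) = 0)
    (hp' : p'.Monic) (hd' : p'.natDegree = (j + 1) * N + k)
    (horth' : ∀ r : Polynomial ℂ, r.natDegree < (j + 1) * N + k →
        ∫ z in interior (convexHull ℝ {w : ℂ | w ^ N = 1}),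
          p'.eval z * (starRingEnd ℂ) (r.eval z) = 0) :
    ∃ t s : ℕ → ℝ,
        p = X ^ k * (∏ ν ∈ Finset.range j, (X - C ((t ν : ℝ) : ℂ))).comp (X ^ N) ∧
        p' = X ^ k * (∏ ν ∈ Finset.range (j + 1), (X - C ((s ν : ℝ) : ℂ))).comp (X ^ N) ∧
        0 < s 0 ∧ s j < 1 ∧ ∀ ν, ν < j → s ν < t ν ∧ t ν < s (ν + 1) := by
  obtain ⟨q, hqm, hqd, hqo, hpq⟩ := reduce hgeo hG hprim k j hk p hp hd horth
  obtain ⟨Q, hQm, hQd, hQo, hpQ⟩ := reduce hgeo hG hprim k (j + 1) hk p' hp' hd' horth'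
  obtain ⟨t, s, h1, h2, h3, h4, h5⟩ := interlace hG k hk j q Q hqm hqd hQm hQd hqo hQo
  refine ⟨t, s, ?_, ?_, h3, h4, h5⟩
  · rw [hpq, h1, Polynomial.map_prod]
    simp only [Polynomial.map_sub, Polynomial.map_X, Polynomial.map_C, Complex.ofRealHom_eq_coe]
  · rw [hpQ, h2, Polynomial.map_prod]
    simp only [Polynomial.map_sub, Polynomial.map_X, Polynomial.map_C, Complex.ofRealHom_eq_coe]

/-- For N=3,4, k<N, j≥1: the monic Bergman orthogonal polynomials of degrees jN+k and (j+1)N+k on the regular N-gon are z^k q(z^N), with q having real roots in (0,1), simple and strictly interlacing. -/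
theorem result :
    ∀ N : ℕ, (N = 3 ∨ N = 4) → ∀ k : ℕ, k < N → ∀ j : ℕ, 1 ≤ j →
    ∀ p p' : Polynomial ℂ,
      p.Monic → p.natDegree = j * N + k →
      (∀ r : Polynomial ℂ, r.natDegree < j * N + k →
        ∫ z in interior (convexHull ℝ {w : ℂ | w ^ N = 1}),
          p.eval z * (starRingEnd ℂ) (r.eval z) = 0) →
      p'.Monic → p'.natDegree = (j + 1) * N + k →
      (∀ r : Polynomial ℂ, r.natDegree < (j + 1) * N + k →
        ∫ z in interior (convexHull ℝ {w : ℂ | w ^ N = 1}),
          p'.eval z * (starRingEnd ℂ) (r.eval z) = 0) →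
      ∃ t s : ℕ → ℝ,
        p = X ^ k * (∏ ν ∈ Finset.range j, (X - C ((t ν : ℝ) : ℂ))).comp (X ^ N) ∧
        p' = X ^ k * (∏ ν ∈ Finset.range (j + 1), (X - C ((s ν : ℝ) : ℂ))).comp (X ^ N) ∧
        0 < s 0 ∧ s j < 1 ∧ ∀ ν, ν < j → s ν < t ν ∧ t ν < s (ν + 1) := by
  intro N hN k hk j _ p p' hp hd horth hp' hd' horth'
  rcases hN with rfl | rfl
  · exact main geo3 good3 prim3 k hk j p p' hp hd horth hp' hd' horth'
  · exact main geo4 good4 prim4 k hk j p p' hp hd horth hp' hd' horth'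

end Pool.Agent.S05853
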