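import Pool.Statements.S06190
import Pool.Agent.TH252.JCB.Fin

set_option autoImplicit false
open scoped CStarMatrix
open Pool Pool.MP_cdaa24_an

namespace Pool.Agent.S06190

/-- The negation of the preceding statement: For all C*-algebras A, B and Hilbert spaces H, every jointly completely bounded bilinear map A×B→B(H) splits as φ₁(a,b)+φ₂(b,a), with φ₁ multiplicatively (Haagerup) bounded on A×B and φ₂ multiplicatively bounded on B×A. -/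
theorem result :
    ¬ (∀ (A B H : Type) [NonUnitalCStarAlgebra A] [PartialOrder A] [StarOrderedRing A]
      [NonUnitalCStarAlgebra B] [PartialOrder B] [StarOrderedRing B]
      [NormedAddCommGroup H] [InnerProductSpace ℂ H] [CompleteSpace H]
      (φ : A →ₗ[ℂ] B →ₗ[ℂ] (H →L[ℂ] H)),
      (∃ C : ℝ, ∀ (n m : ℕ) (a : CStarMatrix (Fin n) (Fin n) A)
          (b : CStarMatrix (Fin m) (Fin m) B) (x : Fin n × Fin m → H),
          ∑ p : Fin n × Fin m, ‖∑ q : Fin n × Fin m, φ (a p.1 q.1) (b p.2 q.2) (x q)‖ ^ 2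
            ≤ (C * ‖a‖ * ‖b‖) ^ 2 * ∑ q : Fin n × Fin m, ‖x q‖ ^ 2) →
      ∃ (φ₁ : A →ₗ[ℂ] B →ₗ[ℂ] (H →L[ℂ] H)) (φ₂ : B →ₗ[ℂ] A →ₗ[ℂ] (H →L[ℂ] H)),
        (∃ C : ℝ, ∀ (n : ℕ) (a : CStarMatrix (Fin n) (Fin n) A)
            (b : CStarMatrix (Fin n) (Fin n) B) (x : Fin n → H),
            ∑ i : Fin n, ‖∑ j : Fin n, ∑ k : Fin n, φ₁ (a i k) (b k j) (x j)‖ ^ 2
              ≤ (C * ‖a‖ * ‖b‖) ^ 2 * ∑ j : Fin n, ‖x j‖ ^ 2) ∧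
        (∃ C : ℝ, ∀ (n : ℕ) (b : CStarMatrix (Fin n) (Fin n) B)
            (a : CStarMatrix (Fin n) (Fin n) A) (x : Fin n → H),
            ∑ i : Fin n, ‖∑ j : Fin n, ∑ k : Fin n, φ₂ (b i k) (a k j) (x j)‖ ^ 2
              ≤ (C * ‖b‖ * ‖a‖) ^ 2 * ∑ j : Fin n, ‖x j‖ ^ 2) ∧
        ∀ (a : A) (b : B), φ a b = φ₁ a b + φ₂ b a) := by
  intro h
  obtain ⟨φ₁, φ₂, ⟨C₁, h₁⟩, ⟨C₂, h₂⟩, h₃⟩ := h
    (lp (fun _ : Pool.Agent.TH252.JCB.IA => ℂ) 2 →L[ℂ] lp (fun _ : Pool.Agent.TH252.JCB.IA => ℂ) 2)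
    (lp (fun _ : Pool.Agent.TH252.JCB.IB => ℂ) 2 →L[ℂ] lp (fun _ : Pool.Agent.TH252.JCB.IB => ℂ) 2)
    (lp (fun _ : Pool.Agent.TH252.JCB.IH => ℂ) 2)
    Pool.Agent.TH252.JCB.fam.phi
    ⟨2, fun n m a b x => Pool.Agent.TH252.JCB.fam.jcb n m a b x⟩
  exact Pool.Agent.TH252.JCB.fam.no_decomp φ₁ φ₂ C₁ C₂
    (fun n a b x => h₁ n a b x) (fun n b a x => h₂ n b a x) h₃

end Pool.Agent.S06190
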