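import Pool.Statements.S06205
import Pool.Agent.TH276.Torsion.Final

set_option autoImplicit false
open Filter Topology MeasureTheory
open Pool Pool.MP_ced2fd_an

namespace Pool.Agent.S06205

/-- For d at least 3 and any bounded convex open D in R^d, every continuous function vanishing off D whose principal-value half-Laplacian (up to a positive constant) equals 1 at each point of D is concave on D. -/
theorem result :
    ∀ (d : ℕ), 3 ≤ d →
    ∀ (D : Set (EuclideanSpace ℝ (Fin d))),
      IsOpen D → Convex ℝ D → Bornology.IsBounded D →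
    ∀ (φ : EuclideanSpace ℝ (Fin d) → ℝ),
      Continuous φ →
      (∀ x, x ∉ D → φ x = 0) →
      (∀ x ∈ D, Tendsto
          (fun ε : ℝ => ∫ y in {y : EuclideanSpace ℝ (Fin d) | ε < ‖x - y‖},
              (φ x - φ y) / ‖x - y‖ ^ (d + 1))
          (𝓝[>] (0 : ℝ)) (𝓝 1)) →
      ConcaveOn ℝ D φ := by
  intro d hd D hDo hDc hDb φ hφ hφ0 hpv
  have hfin : Module.finrank ℝ (EuclideanSpace ℝ (Fin d)) = d := finrank_euclideanSpace_fin
  have : Nontrivial (EuclideanSpace ℝ (Fin d)) :=
    Module.nontrivial_of_finrank_pos (R := ℝ) (by rw [hfin]; omega)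
  have H : Pool.Agent.TH276.Torsion.TorsionData
      (MeasureTheory.volume : MeasureTheory.Measure (EuclideanSpace ℝ (Fin d))) 1 D φ := by
    refine ⟨hDo, hDc, hDb, hφ, hφ0, fun x hx => ?_⟩
    have h1 := hpv x hx
    rw [hfin]
    have h2 : ∀ y : EuclideanSpace ℝ (Fin d),
        (φ x - φ y) / ‖x - y‖ ^ ((d : ℝ) + 1) = (φ x - φ y) / ‖x - y‖ ^ (d + 1) := by
      intro y
      rw [← Real.rpow_natCast]
      push_cast
      rfl
    simp only [h2]
    exact h1
  exact H.concaveOn one_pos le_rfl
    (fun ξ R hR => Pool.Agent.TH276.Torsion.majorant_tendsto_one _ ξ hR)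

end Pool.Agent.S06205
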