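import Pool.Statements.S06241
import Pool.Agent.TH331.RZ.Fin4

set_option autoImplicit false
open Pool Pool.MP_d18e52_an

namespace Pool.Agent.S06241

/-- For all d≥2 and real s in (−2,d+2), s≠d, some C (for s>d the limit of scaled minimal N-point cube energies) gives optimal sphere Riesz s-energy = N²V_s + ω_d^(−s/d)·C·N^(1+s/d) + o(N^(1+s/d)). -/
theorem result :
  ∀ d : ℕ, 2 ≤ d → ∀ s : ℝ, -2 < s → s < (d:ℝ) + 2 → s ≠ (d:ℝ) →
  ∃ C : ℝ,
    ((d:ℝ) < s →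
      Filter.Tendsto
        (fun N : ℕ => (N:ℝ) ^ (-1 - s / (d:ℝ)) *
          ⨅ x : {x : Fin N → Fin d → ℝ //
              Function.Injective x ∧ ∀ i k, 0 ≤ x i k ∧ x i k ≤ 1},
            ∑ i : Fin N, ∑ j ∈ Finset.univ.erase i,
              (Real.sqrt (∑ k : Fin d, (x.1 i k - x.1 j k) ^ 2)) ^ (-s))
        Filter.atTop (nhds C)) ∧
    Asymptotics.IsLittleO Filter.atTop
      (fun N : ℕ =>
        (if 0 < s then
          ⨅ x : {x : Fin N → Fin (d+1) → ℝ //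
              Function.Injective x ∧ ∀ i, ∑ k : Fin (d+1), (x i k) ^ 2 = 1},
            ∑ i : Fin N, ∑ j ∈ Finset.univ.erase i,
              (Real.sqrt (∑ k : Fin (d+1), (x.1 i k - x.1 j k) ^ 2)) ^ (-s)
        else
          ⨆ x : {x : Fin N → Fin (d+1) → ℝ //
              Function.Injective x ∧ ∀ i, ∑ k : Fin (d+1), (x i k) ^ 2 = 1},
            ∑ i : Fin N, ∑ j ∈ Finset.univ.erase i,
              (Real.sqrt (∑ k : Fin (d+1), (x.1 i k - x.1 j k) ^ 2)) ^ (-s))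
        - (N:ℝ) ^ 2 *
            ((2:ℝ) ^ ((d:ℝ) - s - 1) * Real.Gamma (((d:ℝ) + 1) / 2)
              * Real.Gamma (((d:ℝ) - s) / 2)
              / (Real.sqrt Real.pi * Real.Gamma ((d:ℝ) - s / 2)))
        - (2 * Real.pi ^ (((d:ℝ) + 1) / 2) / Real.Gamma (((d:ℝ) + 1) / 2)) ^ (-s / (d:ℝ))
            * C * (N:ℝ) ^ (1 + s / (d:ℝ)))
      (fun N : ℕ => (N:ℝ) ^ (1 + s / (d:ℝ))) := by
  exact Pool.Agent.TH331.RZ.main_S06241

end Pool.Agent.S06241
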