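import Pool.Statements.S06280
import Pool.Agent.TH236.Germ

set_option autoImplicit false
open Pool Pool.MP_d4c9a2_an

namespace Pool.Agent.S06280

/-- The negation of the preceding statement: For every holomorphic germ f of ℂⁿ fixing 0 that is non-invertible and dominant, the orders of vanishing c(f^k) of its iterates at 0 eventually satisfy a linear recursion with integer coefficients. -/
theorem result :
    ¬ (∀ (n : ℕ) (f : (Fin n → ℂ) → (Fin n → ℂ)),
      AnalyticAt ℂ f 0 → f 0 = 0 →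
      (fderiv ℂ f 0).det = 0 →
      (∀ ε : ℝ, 0 < ε → ∃ z : Fin n → ℂ, ‖z‖ < ε ∧ (fderiv ℂ f z).det ≠ 0) →
      ∃ (d : ℕ) (a : Fin d → ℤ) (K : ℕ), ∀ k : ℕ, K ≤ k →
        ((sInf {m : ℕ | iteratedFDeriv ℂ m (f^[k + d]) 0 ≠ 0} : ℕ) : ℤ) =
          ∑ i : Fin d, a i *
            ((sInf {m : ℕ | iteratedFDeriv ℂ m (f^[k + (i : ℕ)]) 0 ≠ 0} : ℕ) : ℤ)) := by
  intro H
  have h0 : Pool.Agent.TH236.Germ.f 0 = 0 := by
    funext i
    fin_cases i <;> simp [Pool.Agent.TH236.Germ.f]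
  have hd : (fderiv ℂ Pool.Agent.TH236.Germ.f 0).det = 0 := by
    rw [Pool.Agent.TH236.Germ.det_f]
    simp
  have hd2 : ∀ ε : ℝ, 0 < ε → ∃ z : Fin 3 → ℂ, ‖z‖ < ε ∧
      (fderiv ℂ Pool.Agent.TH236.Germ.f z).det ≠ 0 := by
    intro ε hε
    have hp : (0 : ℝ) < ε / 2 := half_pos hε
    refine ⟨fun _ => ((ε / 2 : ℝ) : ℂ), ?_, ?_⟩
    · rw [pi_norm_const, Complex.norm_real, Real.norm_of_nonneg hp.le]
      exact half_lt_self hε
    · rw [Pool.Agent.TH236.Germ.det_f]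
      have : (((ε / 2 : ℝ) : ℂ)) ≠ 0 := by exact_mod_cast hp.ne'
      simp only [ne_eq, mul_eq_zero, this, or_false]
      norm_num
  obtain ⟨d, a, K, h⟩ := H 3 Pool.Agent.TH236.Germ.f Pool.Agent.TH236.Germ.analyticAt_f h0 hd hd2
  refine Pool.Agent.TH236.Germ.not_rec d a K fun k hk => ?_
  have h1 := h k hk
  simp only [Pool.Agent.TH236.Germ.order_eq] at h1
  exact h1

end Pool.Agent.S06280
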