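import Pool.Statements.S06290
import Pool.Agent.TH288.NB.Neg4

set_option autoImplicit false
open MeasureTheory TopologicalSpace
open Pool Pool.MP_d5621e_an

namespace Pool.Agent.S06290

/-- The negation of the preceding statement: For all finite alphabets A, B and every probability vector p on B, the set of shift-invariant measures on A^Z that finitarily factor onto the i.i.d. p-process is a Borel set in the weak* topology. -/
theorem result :
    ¬ (∀ (A B : Type) [Fintype A] [TopologicalSpace A] [DiscreteTopology A]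
    [SecondCountableTopology A] [MeasurableSpace A] [BorelSpace A]
    [Fintype B] [MeasurableSpace B] [MeasurableSingletonClass B]
    (p : ProbabilityMeasure B),
    MeasurableSet[borel (ProbabilityMeasure (ℤ → A))]
      {μ : ProbabilityMeasure (ℤ → A) |
        Measure.map (fun x : ℤ → A => fun i => x (i + 1)) (μ : Measure (ℤ → A))
            = (μ : Measure (ℤ → A)) ∧
        ∃ φ : (ℤ → A) → (ℤ → B), Measurable φ ∧
          (∀ (s : Finset ℤ) (w : ℤ → B),
            Measure.map φ (μ : Measure (ℤ → A)) {z | ∀ i ∈ s, z i = w i}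
              = ∏ i ∈ s, (p : Measure B) {w i}) ∧
          ∃ X₀ : Set (ℤ → A), (μ : Measure (ℤ → A)) X₀ᶜ = 0 ∧
            (∀ x ∈ X₀, φ (fun i => x (i + 1)) = fun i => φ x (i + 1)) ∧
            ∀ x ∈ X₀, ∃ n : ℕ, ∀ y ∈ X₀,
              (∀ i : ℤ, |i| ≤ (n : ℤ) → y i = x i) → φ y 0 = φ x 0}) := by
  intro h
  have h1 := h Pool.Agent.TH288.NB.A Pool.Agent.TH288.NB.Bt
    ⟨Pool.Agent.TH288.NB.unif Pool.Agent.TH288.NB.Bt, inferInstance⟩
  have h2 : @Measurable _ _ _ (borel (ProbabilityMeasure (ℤ → Pool.Agent.TH288.NB.A)))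
      Pool.Agent.TH288.NB.muP :=
    @Continuous.measurable _ _ _ _ _ _ (borel _) (@BorelSpace.mk _ _ (borel _) rfl) _
      Pool.Agent.TH288.NB.continuous_muP
  have h3 := h2 h1
  refine Pool.Agent.H534R3.NonBorel.illFounded_not_measurable ?_
  convert h3 using 1
  ext t
  constructor
  · rintro ⟨f, hf⟩
    exact Pool.Agent.TH288.NB.fac_of_branch t f hf
  · intro ht
    by_contra hcon
    exact Pool.Agent.TH288.NB.not_fac t hcon ht

end Pool.Agent.S06290
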