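import Pool.Statements.S06395
import Pool.Agent.TH336.KR.Main

set_option autoImplicit false
open MeasureTheory Polynomial
open Pool Pool.MP_dd438b_an

namespace Pool.Agent.S06395

/-- If real polynomials pₙ of degree n are orthogonal for both ∫fg dφ and ∫fg dφ+∫f'g' dψ+∫f''g'' dη (η≠0, φ infinite support, finite moments), then some pₙ(ax+b) is orthogonal for a classical or Krall-type measure. -/
theorem result :
  ∀ (φ ψ η : MeasureTheory.Measure ℝ) (p : ℕ → Polynomial ℝ),
    (∀ k : ℕ, MeasureTheory.Integrable (fun x : ℝ => x ^ k) φ) →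
    (∀ k : ℕ, MeasureTheory.Integrable (fun x : ℝ => x ^ k) ψ) →
    (∀ k : ℕ, MeasureTheory.Integrable (fun x : ℝ => x ^ k) η) →
    (∀ s : Finset ℝ, φ ((↑s : Set ℝ)ᶜ) ≠ 0) →
    η ≠ 0 →
    (∀ n : ℕ, (p n).degree = ((n : ℕ) : WithBot ℕ)) →
    (∀ n m : ℕ, n ≠ m → ∫ x, (p n).eval x * (p m).eval x ∂φ = 0) →
    (∀ n : ℕ, ∫ x, (p n).eval x * (p n).eval x ∂φ ≠ 0) →
    (∀ n m : ℕ, n ≠ m →
      (∫ x, (p n).eval x * (p m).eval x ∂φ)
        + (∫ x, (Polynomial.derivative (p n)).eval x
              * (Polynomial.derivative (p m)).eval x ∂ψ)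
        + (∫ x, (Polynomial.derivative (Polynomial.derivative (p n))).eval x
              * (Polynomial.derivative (Polynomial.derivative (p m))).eval x ∂η) = 0) →
    (∀ n : ℕ,
      (∫ x, (p n).eval x * (p n).eval x ∂φ)
        + (∫ x, (Polynomial.derivative (p n)).eval x
              * (Polynomial.derivative (p n)).eval x ∂ψ)
        + (∫ x, (Polynomial.derivative (Polynomial.derivative (p n))).eval x
              * (Polynomial.derivative (Polynomial.derivative (p n))).eval x ∂η) ≠ 0) →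
    ∃ μ : MeasureTheory.Measure ℝ,
      ((∃ α β : ℝ, -1 < α ∧ -1 < β ∧
          μ = MeasureTheory.volume.withDensity (fun x : ℝ => ENNReal.ofReal
            ((Set.Icc (-1 : ℝ) 1).indicator (fun y : ℝ => (1 - y) ^ α * (1 + y) ^ β) x)))
        ∨ (∃ α : ℝ, -1 < α ∧
          μ = MeasureTheory.volume.withDensity (fun x : ℝ => ENNReal.ofReal
            ((Set.Ioi (0 : ℝ)).indicator (fun y : ℝ => y ^ α * Real.exp (-y)) x)))
        ∨ (μ = MeasureTheory.volume.withDensity (fun x : ℝ => ENNReal.ofReal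
            (Real.exp (-(x ^ 2)))))
        ∨ (∃ A : ℝ, 0 < A ∧
          μ = MeasureTheory.volume.restrict (Set.Icc (-1 : ℝ) 1)
            + ENNReal.ofReal (1 / A) • (MeasureTheory.Measure.dirac (-1 : ℝ)
                + MeasureTheory.Measure.dirac (1 : ℝ)))
        ∨ (∃ R : ℝ, 0 < R ∧
          μ = MeasureTheory.volume.withDensity (fun x : ℝ => ENNReal.ofReal
            ((Set.Ioi (0 : ℝ)).indicator (fun y : ℝ => Real.exp (-y)) x))
            + ENNReal.ofReal (1 / R) • MeasureTheory.Measure.dirac (0 : ℝ))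
        ∨ (∃ α M : ℝ, -1 < α ∧ 0 < M ∧
          μ = MeasureTheory.volume.withDensity (fun x : ℝ => ENNReal.ofReal
            ((Set.Ico (0 : ℝ) 1).indicator (fun y : ℝ => (1 - y) ^ α) x))
            + ENNReal.ofReal (1 / M) • MeasureTheory.Measure.dirac (0 : ℝ)))
      ∧ ∃ a b : ℝ, a ≠ 0 ∧
        (∀ n : ℕ, ((p n).comp (Polynomial.C a * Polynomial.X + Polynomial.C b)).degree
            = ((n : ℕ) : WithBot ℕ)) ∧
        (∀ n m : ℕ, n ≠ m →
          ∫ x, ((p n).comp (Polynomial.C a * Polynomial.X + Polynomial.C b)).eval x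
            * ((p m).comp (Polynomial.C a * Polynomial.X + Polynomial.C b)).eval x ∂μ = 0) ∧
        (∀ n : ℕ,
          ∫ x, ((p n).comp (Polynomial.C a * Polynomial.X + Polynomial.C b)).eval x
            * ((p n).comp (Polynomial.C a * Polynomial.X + Polynomial.C b)).eval x ∂μ ≠ 0) := by
  intro φ ψ η p hφ hψ hη hinf hη0 hdeg ho hn hs hsn
  obtain ⟨Φ, A, B, K, E, hΦ, hsys⟩ :=
    Pool.Agent.TH635.J355.start φ ψ η p hφ hψ hη hinf hη0 hdeg ho hs
  obtain ⟨μ, hμ, a, b, c, ha, hc, hf⟩ := hsys.classify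
  refine ⟨μ, hμ, a, b, ha, fun n => ?_, fun n m hnm => ?_, fun n => ?_⟩
  · have hne : p n ≠ 0 := by
      intro h0
      have := hdeg n
      rw [h0, degree_zero] at this
      exact WithBot.bot_ne_coe this
    rw [← Pool.Agent.TH336.KR.aff_eq,
      degree_eq_natDegree (Pool.Agent.TH336.KR.aff_ne_zero ha b hne),
      Pool.Agent.TH336.KR.natDegree_aff ha, natDegree_eq_of_degree_eq_some (hdeg n)]
  · have h1 := hf (p n * p m)
    rw [mul_comp, hΦ] at h1
    simp only [eval_mul] at h1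
    rw [h1, ho n m hnm, mul_zero]
  · have h1 := hf (p n * p n)
    rw [mul_comp, hΦ] at h1
    simp only [eval_mul] at h1
    rw [h1]
    exact mul_ne_zero hc (hn n)

end Pool.Agent.S06395
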