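import Pool.Statements.S06450
import Pool.Agent.TH324.DP
import Pool.Agent.TH324.Tree

set_option autoImplicit false
open Pool Pool.MP_e11434_an

namespace Pool.Agent.S06450

open Filter Topology Metric Set Pool.Agent.TH324 Pool.Agent.TH324.Tree in
/-- The space `X` has an unconditional basis, so no space isomorphic to it has the Daugavet property,
but it is not slicely countably determined. -/
theorem no_renorming (Y : Type) [NormedAddCommGroup Y] [NormedSpace ℝ Y] (Φ : X ≃L[ℝ] Y) :
    ¬ DP.DProp Y := by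
  classical
  have hcomp : ∀ F, ∀ y, ((Φ : X →L[ℝ] Y).comp ((P F).comp (Φ.symm : Y →L[ℝ] X))) y
      = Φ (P F (Φ.symm y)) := fun F y => rfl
  refine DP.no_dp_of_unconditional
    (fun F => (Φ : X →L[ℝ] Y).comp ((P F).comp (Φ.symm : Y →L[ℝ] X))) ?_
    (‖(Φ : X →L[ℝ] Y)‖ * ‖(Φ.symm : Y →L[ℝ] X)‖) ?_ ?_ ?_
  · intro F
    have h1 : Bornology.IsBounded ((Φ.symm : Y →L[ℝ] X) '' closedBall (0 : Y) 1) :=
      (Φ.symm : Y →L[ℝ] X).lipschitz.isBounded_image isBounded_closedBall
    obtain ⟨r, hr⟩ := h1.subset_closedBall 0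
    have hr' : (Φ.symm : Y →L[ℝ] X) '' closedBall (0 : Y) 1 ⊆ closedBall (0 : X) (|r| + 1) :=
      hr.trans (closedBall_subset_closedBall (by have := le_abs_self r; linarith))
    have hpos : 0 < |r| + 1 := by positivity
    -- the image of the larger ball
    have h2 : TotallyBounded (P F '' closedBall (0 : X) (|r| + 1)) := by
      have h3 : P F '' closedBall (0 : X) (|r| + 1)
          = (fun x : X => (|r| + 1) • x) '' (P F '' closedBall (0 : X) 1) := by
        rw [image_image]
        have h4 : (fun x : X => (|r| + 1) • (P F x)) = (P F) ∘ fun x : X => (|r| + 1) • x := by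
          funext x
          simp
        rw [h4, image_comp]
        congr 1
        have := smul_closedBall (|r| + 1) (0 : X) (zero_le_one (α := ℝ))
        rw [smul_zero, Real.norm_of_nonneg hpos.le, mul_one] at this
        rw [← this]
        rfl
      rw [h3]
      refine (P_tb F).image ?_
      exact uniformContinuous_const_smul _
    have h5 := (h2.image (Φ : X →L[ℝ] Y).uniformContinuous)
    refine h5.subset ?_
    rintro _ ⟨y, hy, rfl⟩
    exact ⟨_, ⟨_, hr' ⟨y, hy, rfl⟩, rfl⟩, rfl⟩
  · intro F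
    refine (ContinuousLinearMap.opNorm_comp_le _ _).trans ?_
    refine mul_le_mul_of_nonneg_left ?_ (norm_nonneg _)
    refine (ContinuousLinearMap.opNorm_comp_le _ _).trans ?_
    exact mul_le_of_le_one_left (norm_nonneg _) (norm_P_le F)
  · intro F G h
    ext1 y
    rw [sub_apply, hcomp, hcomp, hcomp, ← P_sub F G h, ← map_sub]
    rfl
  · intro y
    have h1 := P_lim (Φ.symm y)
    have h2 := ((Φ : X →L[ℝ] Y).continuous.tendsto (Φ.symm y)).comp h1
    have h3 : (Φ : X →L[ℝ] Y) (Φ.symm y) = y := Φ.apply_symm_apply y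
    rw [h3] at h2
    exact h2

/-- The negation of the preceding statement: Every separable real Banach space that is not SCD (some nonempty bounded convex set has no sequence of slices whose every selection has closed convex hull containing it) is isomorphic to a space where ‖Id+T‖=1+‖T‖ for all rank-one T. -/
theorem result :
    ¬ (∀ (X : Type) [NormedAddCommGroup X] [NormedSpace ℝ X] [CompleteSpace X]
      [TopologicalSpace.SeparableSpace X],
      (¬ ∀ A : Set X, A.Nonempty → Convex ℝ A → Bornology.IsBounded A →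
          ∃ (f : ℕ → (X →L[ℝ] ℝ)) (c : ℕ → ℝ),
            (∀ n, ∃ x ∈ A, c n < f n x) ∧
            ∀ y : ℕ → X, (∀ n, y n ∈ A ∧ c n < f n (y n)) →
              A ⊆ closure (convexHull ℝ (Set.range y))) →
      ∃ (Y : Type) (_ : NormedAddCommGroup Y) (_ : NormedSpace ℝ Y),
        Nonempty (X ≃L[ℝ] Y) ∧
        ∀ (f : Y →L[ℝ] ℝ) (v : Y),
          ‖ContinuousLinearMap.id ℝ Y + f.smulRight v‖ = 1 + ‖f.smulRight v‖) := by
  intro H
  obtain ⟨Y, i1, i2, ⟨Φ⟩, hDP⟩ := H TH324.Tree.X (fun hall =>
    TH324.Tree.not_scd (hall TH324.Tree.A ⟨_, TH324.Tree.u_mem []⟩ (convex_convexHull ℝ _)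
      TH324.Tree.A_bounded))
  exact no_renorming Y Φ hDP

end Pool.Agent.S06450
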