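import Pool.Statements.S06502
import Pool.Agent.TH326.L1f

set_option autoImplicit false
open Pool Pool.MP_e5522a_an

namespace Pool.Agent.S06502

open Pool.Agent.TH326.L1

/-- The negation of the preceding statement: There is a sequence of finitely supported molecules on ℓ₁ that, with the Lipschitz-free norm (sup over 1-Lipschitz f with f(0)=0), is equivalent to the unit vector basis of c₀; that is, c₀ embeds isomorphically into F(ℓ₁). -/
theorem result :
    ¬ (∃ (μ : ℕ → (lp (fun _ : ℕ => ℝ) 1 →₀ ℝ)) (a b : ℝ), 0 < a ∧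
    ∀ t : ℕ →₀ ℝ,
      (∀ f : lp (fun _ : ℕ => ℝ) 1 → ℝ, LipschitzWith 1 f → f 0 = 0 →
        |t.sum (fun n s => s * (μ n).sum (fun x c => c * f x))| ≤ b * (⨆ n, |t n|)) ∧
      (∃ f : lp (fun _ : ℕ => ℝ) 1 → ℝ, LipschitzWith 1 f ∧ f 0 = 0 ∧
        a * (⨆ n, |t n|) ≤ |t.sum (fun n s => s * (μ n).sum (fun x c => c * f x))|)) := by
  rintro ⟨μ, a, b, ha, H⟩
  have hM : ∀ (ν : X1 →₀ ℝ) (f : X1 → ℝ), f 0 = 0 → ν.sum (fun x c => c * f x) = M ν f := by
    intro ν f hf
    unfold M
    refine Finsupp.sum_congr fun x _ => ?_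
    rw [hf, sub_zero]
  have hPhi : ∀ (t : ℕ →₀ ℝ) (f : X1 → ℝ), f 0 = 0 →
      t.sum (fun n s => s * (μ n).sum (fun x c => c * f x)) = Phi μ t f := by
    intro t f hf
    unfold Phi
    refine Finsupp.sum_congr fun n _ => ?_
    rw [hM _ _ hf]
  have hRL : ∀ f : X1 → ℝ, LipschitzWith 1 f ↔ RL 1 f := by
    intro f
    constructor
    · intro h x y
      have := h.dist_le_mul x y
      rwa [NNReal.coe_one, Real.dist_eq, dist_eq_norm] at this
    · intro h
      refine LipschitzWith.of_dist_le_mul fun x y => ?_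
      rw [NNReal.coe_one, Real.dist_eq, dist_eq_norm]
      exact h x y
  -- weak unconditional Cauchyness
  have hW : WUC μ |b| := by
    intro θ hθ g K hK hg
    have hsup : b * (⨆ n, |θ n|) ≤ |b| := by
      have h0 : 0 ≤ ⨆ n, |θ n| := Real.iSup_nonneg fun _ => abs_nonneg _
      have h1 : (⨆ n, |θ n|) ≤ 1 := ciSup_le hθ
      calc b * (⨆ n, |θ n|) ≤ |b| * (⨆ n, |θ n|) := mul_le_mul_of_nonneg_right (le_abs_self b) h0
        _ ≤ |b| * 1 := mul_le_mul_of_nonneg_left h1 (abs_nonneg b)
        _ = |b| := mul_one _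
    have hconst : ∀ h : X1 → ℝ, Phi μ θ h = Phi μ θ (fun x => h x - h 0) := by
      intro h
      unfold Phi M
      simp
    rcases hK.lt_or_eq with hKpos | hK0
    · have h1 : RL 1 (fun x => K⁻¹ * (g x - g 0)) := by
        intro x y
        rw [← mul_sub, sub_sub_sub_cancel_right, abs_mul, abs_of_pos (inv_pos.mpr hKpos)]
        calc K⁻¹ * |g x - g y| ≤ K⁻¹ * (K * ‖x - y‖) :=
              mul_le_mul_of_nonneg_left (hg x y) (inv_pos.mpr hKpos).le
          _ = 1 * ‖x - y‖ := by field_simp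
      have h2 := (H θ).1 _ ((hRL _).mpr h1) (by simp)
      rw [hPhi θ _ (by simp)] at h2
      have h3 : Phi μ θ (fun x => K⁻¹ * (g x - g 0)) = K⁻¹ * Phi μ θ g := by
        rw [hconst g, ← Phi_smul_right]
        rfl
      rw [h3] at h2
      have h4 := (le_abs_self _).trans (h2.trans hsup)
      rw [inv_mul_le_iff₀ hKpos] at h4
      linarith
    · subst hK0
      have hgc : ∀ x, g x = g 0 := by
        intro x
        have := hg x 0
        rw [zero_mul] at this
        have h2 := abs_nonneg (g x - g 0)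
        have h3 : |g x - g 0| = 0 := le_antisymm this h2
        linarith [abs_eq_zero.mp h3]
      have : Phi μ θ g = 0 := by
        unfold Phi M
        simp [hgc]
      rw [this, mul_zero]
  -- lower bounds
  have hlow : ∀ j : ℕ, ∃ f : X1 → ℝ, RL 1 f ∧ f 0 = 0 ∧ a ≤ M (μ j) f := by
    intro j
    obtain ⟨f, hf, hf0, hfa⟩ := (H (Finsupp.single j 1)).2
    have hs : (⨆ n, |(Finsupp.single j (1:ℝ)) n|) = 1 := by
      apply le_antisymm
      · refine ciSup_le fun n => ?_
        rw [Finsupp.single_apply]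
        split_ifs <;> simp
      · have hbdd : BddAbove (Set.range fun n => |(Finsupp.single j (1:ℝ)) n|) := by
          refine ⟨1, ?_⟩
          rintro _ ⟨n, rfl⟩
          simp only [Finsupp.single_apply]
          split_ifs <;> simp
        have := le_ciSup hbdd j
        simpa using this
    rw [hs, mul_one, hPhi _ _ hf0, Phi_single, one_mul] at hfa
    rcases le_total 0 (M (μ j) f) with h | h
    · rw [abs_of_nonneg h] at hfa
      exact ⟨f, (hRL f).mp hf, hf0, hfa⟩
    · rw [abs_of_nonpos h] at hfa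
      refine ⟨-f, ((hRL f).mp hf).neg, by simp [hf0], ?_⟩
      rw [M_neg]; exact hfa
  choose f hf hf0 hfM using hlow
  exact main D1 (abs_nonneg b) hW ha hf hf0 hfM

end Pool.Agent.S06502
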