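import Pool.Statements.S06521
import Pool.Agent.TH339.NU3

set_option autoImplicit false
open Pool Pool.MP_e7ec4f_an

namespace Pool.Agent.S06521

/-- There is a real or complex quasi-Banach space with a bounded biorthogonal basis that is nearly unconditional (coordinates at least a can be projected boundedly) but not truncation quasi-greedy. -/
theorem result :
    ∃ (𝕂 : Type) (_ : RCLike 𝕂) (X : Type) (_ : AddCommGroup X) (_ : Module 𝕂 X)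
      (q : X → ℝ) (κ : ℝ) (x : ℕ → X) (xs : ℕ → X →ₗ[𝕂] 𝕂),
      (∀ f : X, 0 ≤ q f) ∧
      (∀ f : X, q f = 0 → f = 0) ∧
      (∀ (c : 𝕂) (f : X), q (c • f) = ‖c‖ * q f) ∧
      (∀ f g : X, q (f + g) ≤ κ * (q f + q g)) ∧
      (∀ u : ℕ → X, (∀ ε : ℝ, 0 < ε → ∃ N : ℕ, ∀ m ≥ N, ∀ n ≥ N, q (u m - u n) < ε) →
        ∃ f : X, ∀ ε : ℝ, 0 < ε → ∃ N : ℕ, ∀ n ≥ N, q (u n - f) < ε) ∧
      (∃ B : ℝ, ∀ n : ℕ, q (x n) ≤ B) ∧
      (∃ M : ℝ, ∀ (n : ℕ) (f : X), ‖xs n f‖ ≤ M * q f) ∧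
      (∀ m n : ℕ, xs m (x n) = if m = n then 1 else 0) ∧
      (∀ f : X, ∀ ε : ℝ, 0 < ε → ∃ g ∈ Submodule.span 𝕂 (Set.range x), q (f - g) < ε) ∧
      (∀ a : ℝ, 0 < a → a ≤ 1 → ∃ C : ℝ, ∀ f : X, (∀ n : ℕ, ‖xs n f‖ ≤ 1) →
        ∀ A : Finset ℕ, (∀ n ∈ A, a ≤ ‖xs n f‖) →
          q (∑ n ∈ A, xs n f • x n) ≤ C * q f) ∧
      ¬ (∃ C : ℝ, ∀ f : X, ∀ A : Finset ℕ, A.Nonempty →
          (∀ n ∈ A, ∀ k : ℕ, k ∉ A → ‖xs k f‖ ≤ ‖xs n f‖) →
          ∀ t : ℝ, (∀ n ∈ A, t ≤ ‖xs n f‖) →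
            t * q (∑ n ∈ A, (xs n f / ((‖xs n f‖ : ℝ) : 𝕂)) • x n) ≤ C * q f) := by
  open Pool.Agent.TH339.NU in
  refine ⟨ℝ, inferInstance, X, inferInstance, inferInstance, fun f => ‖f‖, 1, bs, cf,
    fun f => norm_nonneg f, fun f hf => norm_eq_zero.1 hf, fun c f => norm_smul c f,
    fun f g => ?_, fun u hu => ?_, ⟨3, norm_bs_le⟩, ⟨1, fun n f => ?_⟩, cf_bs, dense_span,
    fun a ha ha1 => ⟨9 / a ^ 3, fun f hf A hA => ?_⟩, ?_⟩
  · rw [one_mul]; exact norm_add_le f g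
  · have hc : CauchySeq u := by
      rw [Metric.cauchySeq_iff]
      intro ε hε
      obtain ⟨N, hN⟩ := hu ε hε
      exact ⟨N, fun m hm n hn => by rw [dist_eq_norm]; exact hN m hm n hn⟩
    obtain ⟨f, hf⟩ := cauchySeq_tendsto_of_complete hc
    rw [Metric.tendsto_atTop] at hf
    refine ⟨f, fun ε hε => ?_⟩
    obtain ⟨N, hN⟩ := hf ε hε
    exact ⟨N, fun n hn => by
      have := hN n hn
      rw [dist_eq_norm] at this
      exact this⟩
  · rw [one_mul, Real.norm_eq_abs]; exact abs_cf_le n f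
  · exact near a ha ha1 f (fun m => by rw [← Real.norm_eq_abs]; exact hf m) A
      (fun m hm => by rw [← Real.norm_eq_abs]; exact hA m hm)
  · rintro ⟨C, hC⟩
    obtain ⟨f, A, hA0, hA1, t, ht, hlt⟩ := not_tqg C
    have := hC f A hA0 (fun n hn k hk => by simpa using hA1 n hn k hk) t
      (fun n hn => by simpa using ht n hn)
    simp only [Real.norm_eq_abs, RCLike.ofReal_real_eq_id, id_eq] at this
    exact absurd hlt (not_lt.2 this)

end Pool.Agent.S06521
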