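import Pool.Statements.S06571
import Pool.Agent.TH326.C0Free

set_option autoImplicit false
open Pool Pool.MP_ebafbb_an

namespace Pool.Agent.S06571

/-- For any Urysohn universal space U and any Banach spaces realizing the Lipschitz-free spaces over c₀ and over U (via their universal property), there is a continuous linear isomorphism between them. -/
theorem result :
  ∀ (U : Type) [MetricSpace U] [CompleteSpace U] [TopologicalSpace.SeparableSpace U],
    (∀ (X : Type) [MetricSpace X] [TopologicalSpace.SeparableSpace X],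
        ∃ f : X → U, Isometry f) →
    (∀ (s : Set U), s.Finite → ∀ g : s → U, Isometry g →
        ∃ h : U ≃ᵢ U, ∀ x : s, h (x : U) = g x) →
    ∀ (u₀ : U)
      (E : Type) [NormedAddCommGroup E] [NormedSpace ℝ E] [CompleteSpace E]
      (F : Type) [NormedAddCommGroup F] [NormedSpace ℝ F] [CompleteSpace F]
      (δ₁ : ZeroAtInftyContinuousMap ℕ ℝ → E) (δ₂ : U → F),
    δ₁ 0 = 0 → LipschitzWith 1 δ₁ →
    Dense ((Submodule.span ℝ (Set.range δ₁) : Submodule ℝ E) : Set E) →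
    (∀ (K : NNReal) (f : ZeroAtInftyContinuousMap ℕ ℝ → ℝ), LipschitzWith K f → f 0 = 0 →
        ∃ φ : E →L[ℝ] ℝ, ‖φ‖ ≤ (K : ℝ) ∧ ∀ x, φ (δ₁ x) = f x) →
    δ₂ u₀ = 0 → LipschitzWith 1 δ₂ →
    Dense ((Submodule.span ℝ (Set.range δ₂) : Submodule ℝ F) : Set F) →
    (∀ (K : NNReal) (f : U → ℝ), LipschitzWith K f → f u₀ = 0 →
        ∃ φ : F →L[ℝ] ℝ, ‖φ‖ ≤ (K : ℝ) ∧ ∀ x, φ (δ₂ x) = f x) →
    Nonempty (E ≃L[ℝ] F) := by
  intro U _ _ _ hU1 hU2 u₀ E _ _ _ F _ _ _ δ₁ δ₂ hb1 hl1 hd1 he1 hb2 hl2 hd2 he2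
  have h1 : Pool.Agent.TH326.Free.IsFree (0 : Pool.Agent.TH326.C0.c0) δ₁ := by
    refine ⟨hb1, fun x y => ?_, hd1, fun K f hK hf hf0 => ?_⟩
    · have := hl1.dist_le_mul x y
      rwa [NNReal.coe_one, one_mul, dist_eq_norm] at this
    · exact he1 ⟨K, hK⟩ f (LipschitzWith.of_dist_le_mul fun x y => by
        rw [Real.dist_eq]
        exact hf x y) hf0
  have h2 : Pool.Agent.TH326.Free.IsFree u₀ δ₂ := by
    refine ⟨hb2, fun x y => ?_, hd2, fun K f hK hf hf0 => ?_⟩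
    · have := hl2.dist_le_mul x y
      rwa [NNReal.coe_one, one_mul, dist_eq_norm] at this
    · exact he2 ⟨K, hK⟩ f (LipschitzWith.of_dist_le_mul fun x y => by
        rw [Real.dist_eq]
        exact hf x y) hf0
  exact Pool.Agent.TH326.Free.c0_iso_urysohn h1 ⟨hU1, hU2⟩ h2

end Pool.Agent.S06571
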