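import Pool.Statements.S06626
import Pool.Agent.TH234.Kc.Geo4
import Pool.Agent.Helper112.Kc.KA13
import Pool.Agent.Helper112.Kc.KA14

set_option autoImplicit false
open Pool Pool.MP_ef8879_an

namespace Pool.Agent.S06626

/-- The negation of the preceding statement: Every bounded connected domain in ℂⁿ given by a smooth defining function with nonzero gradient on the boundary and nonnegative Levi form is complete for its Kobayashi distance (chains of holomorphic discs): Cauchy sequences converge inside. -/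
theorem result :
    ¬ (∀ (n : ℕ) (Ω : Set (EuclideanSpace ℂ (Fin n))) (ρ : EuclideanSpace ℂ (Fin n) → ℝ),
    Bornology.IsBounded Ω → IsConnected Ω →
    ContDiff ℝ ((⊤ : ℕ∞) : WithTop ℕ∞) ρ → Ω = {z | ρ z < 0} →
    (∀ p, ρ p = 0 → fderiv ℝ ρ p ≠ 0) →
    (∀ (p w : EuclideanSpace ℂ (Fin n)), ρ p = 0 → fderiv ℝ ρ p w = 0 →
       fderiv ℝ ρ p (Complex.I • w) = 0 →
       0 ≤ fderiv ℝ (fderiv ℝ ρ) p w w
             + fderiv ℝ (fderiv ℝ ρ) p (Complex.I • w) (Complex.I • w)) →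
    ∀ k : EuclideanSpace ℂ (Fin n) → EuclideanSpace ℂ (Fin n) → ℝ,
    (∀ p q, k p q = sInf {s : ℝ | ∃ (m : ℕ) (z : Fin (m + 1) → EuclideanSpace ℂ (Fin n))
        (f : Fin m → ℂ → EuclideanSpace ℂ (Fin n)) (b : Fin m → ℂ),
        z 0 = p ∧ z (Fin.last m) = q ∧
        (∀ j, DifferentiableOn ℂ (f j) (Metric.ball (0 : ℂ) 1) ∧
              Set.MapsTo (f j) (Metric.ball (0 : ℂ) 1) Ω ∧
              ‖b j‖ < 1 ∧ f j 0 = z (Fin.castSucc j) ∧ f j (b j) = z (Fin.succ j)) ∧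
        s = ∑ j, Real.log ((1 + ‖b j‖) / (1 - ‖b j‖))}) →
    ∀ x : ℕ → EuclideanSpace ℂ (Fin n), (∀ i, x i ∈ Ω) →
      (∀ ε > 0, ∃ N : ℕ, ∀ i ≥ N, ∀ j ≥ N, k (x i) (x j) < ε) →
      ∃ y ∈ Ω, Filter.Tendsto (fun i => k (x i) y) Filter.atTop (nhds 0)) := by
  intro H
  obtain ⟨φ, hφ⟩ := Pool.Agent.TH234.Kc.exists_isPhi
  have hUs := Pool.Agent.TH234.Kc.UU_smooth φ hφ
  obtain ⟨hsum, ⟨S, hS0, hS⟩, _⟩ := Pool.Agent.TH234.Kc.UU_facts φ hφ
  have hUdiff : Differentiable ℝ (Pool.Agent.TH234.Kc.UU φ) := hUs.differentiable (by simp)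
  -- the scale
  obtain ⟨D, hD⟩ : ∃ D : ℝ, D = 20 * (1 + S + |Pool.Agent.TH234.Kc.UU φ 0|) := ⟨_, rfl⟩
  have habs := abs_nonneg (Pool.Agent.TH234.Kc.UU φ 0)
  have hD0 : 0 < D := by rw [hD]; positivity
  obtain ⟨ε, hε⟩ : ∃ ε : ℝ, ε = 1 / D := ⟨_, rfl⟩
  have hε0 : 0 < ε := by rw [hε]; positivity
  have hε2 : ε ≤ 1 / 2 := by
    rw [hε, div_le_div_iff₀ hD0 (by norm_num), hD]
    linarith
  have hεS : ε * S ≤ 1 / 20 := by
    rw [hε, div_mul_eq_mul_div, one_mul, div_le_div_iff₀ hD0 (by norm_num), hD]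
    linarith
  have hεU : ε * |Pool.Agent.TH234.Kc.UU φ 0| ≤ 1 / 20 := by
    rw [hε, div_mul_eq_mul_div, one_mul, div_le_div_iff₀ hD0 (by norm_num), hD]
    linarith
  -- the potential
  obtain ⟨u, hu⟩ : ∃ u : Pool.Agent.TH234.Kc.E4 → ℝ, u = fun p => ε * Pool.Agent.TH234.Kc.UU φ p :=
    ⟨_, rfl⟩
  have hus : ContDiff ℝ ((⊤ : ℕ∞) : WithTop ℕ∞) u := by
    rw [hu]; exact contDiff_const.mul hUs
  have hufd : ∀ p, fderiv ℝ u p = ε • fderiv ℝ (Pool.Agent.TH234.Kc.UU φ) p := by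
    intro p
    rw [hu]
    exact ((hUdiff p).hasFDerivAt.const_mul ε).fderiv
  have hu1 : ∀ p, ‖fderiv ℝ u p‖ ≤ 1 / 20 := by
    intro p
    rw [hufd, norm_smul, Real.norm_of_nonneg hε0.le]
    exact (mul_le_mul_of_nonneg_left (hS p) hε0.le).trans hεS
  have hu0 : |u 0| ≤ 1 / 20 := by
    rw [hu]
    show |ε * Pool.Agent.TH234.Kc.UU φ 0| ≤ 1 / 20
    rw [abs_mul, abs_of_pos hε0]
    exact hεU
  have huL : ∀ p w : Pool.Agent.TH234.Kc.E4, ‖p‖ ^ 2 < 399 → 0 ≤ fderiv ℝ (fderiv ℝ u) p w w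
        + fderiv ℝ (fderiv ℝ u) p (Complex.I • w) (Complex.I • w) := by
    intro p w hp
    have h2 : fderiv ℝ (fderiv ℝ u) p = ε • fderiv ℝ (fderiv ℝ (Pool.Agent.TH234.Kc.UU φ)) p := by
      have e : fderiv ℝ u = fun q => ε • fderiv ℝ (Pool.Agent.TH234.Kc.UU φ) q := by
        ext1 q; exact hufd q
      rw [e]
      have hs1 : ContDiff ℝ ((⊤ : ℕ∞) : WithTop ℕ∞) (fderiv ℝ (Pool.Agent.TH234.Kc.UU φ)) :=
        ContDiff.fderiv_right (m := ((⊤ : ℕ∞) : WithTop ℕ∞)) hUs (by simp)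
      exact ((((hs1.differentiable (by simp)) p).hasFDerivAt).const_smul ε).fderiv
    rw [h2]
    have := Pool.Agent.TH234.Kc.UU_levi φ hφ p w hp
    simp only [smul_apply, smul_eq_mul]
    nlinarith
  obtain ⟨hbd, hconn, hgrad, hzero⟩ := Pool.Agent.TH234.Kc.rho_geom u 4 (by norm_num) hus hu1 hu0
  have hrs := Pool.Agent.TH234.Kc.rho_smooth u 4 hus
  obtain ⟨Ω, hΩ⟩ : ∃ Ω : Set Pool.Agent.TH234.Kc.E4, Ω = {p | Pool.Agent.TH234.Kc.rho u 4 p < 0} :=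
    ⟨_, rfl⟩
  have hopen : IsOpen Ω := by
    rw [hΩ]; exact isOpen_lt hrs.continuous continuous_const
  rw [← hΩ] at hbd hconn
  have hmaps : ∀ j, Set.MapsTo (Pool.Agent.TH234.Kc.fd ε j) (Metric.ball (0 : ℂ) 1) Ω := by
    intro j lam hl
    have hl' : ‖lam‖ ≤ 1 := by
      have : ‖lam‖ < 1 := by simpa using hl
      exact this.le
    rw [hΩ]
    show Pool.Agent.TH234.Kc.rho u 4 _ < 0
    rw [hu]
    exact Pool.Agent.TH234.Kc.fd_neg φ hφ ε hε0 hε2 j lam hl'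
  have hxΩ : ∀ i, Pool.Agent.TH234.Kc.fd ε i 0 ∈ Ω := fun i =>
    hmaps i (show (0 : ℂ) ∈ Metric.ball (0 : ℂ) 1 by simp)
  have hcauchy := Helper112.Kc.kob_cauchy Ω (fun j => Pool.Agent.TH234.Kc.fd ε j 0)
    (Pool.Agent.TH234.Kc.fd ε) Pool.Agent.TH234.Kc.cc
    (fun j => ⟨(Pool.Agent.TH234.Kc.cc_pos j).le, (Pool.Agent.TH234.Kc.cc_le j).trans (by norm_num)⟩)
    Pool.Agent.TH234.Kc.summable_cc (fun j => Pool.Agent.TH234.Kc.fd_diff ε j) hmaps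
    (fun j => rfl) (fun j => Pool.Agent.TH234.Kc.fd_end ε j)
  obtain ⟨y, hyΩ, hy⟩ := H 4 Ω (Pool.Agent.TH234.Kc.rho u 4) hbd hconn hrs hΩ hgrad
    (fun p w hp _ _ => by
      have hp5 : ‖p‖ ≤ 5 := by
        have := hzero p hp.le
        linarith
      have hp0 := norm_nonneg p
      exact Pool.Agent.TH234.Kc.rho_levi u 4 hus p w (huL p w (by nlinarith)))
    (Helper112.Kc.kob Ω) (fun p q => rfl) (fun j => Pool.Agent.TH234.Kc.fd ε j 0) hxΩ hcauchy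
  obtain ⟨C, hC, hlow⟩ := Helper112.Kc.kob_lower Ω hbd hopen hconn
  have hlim : Filter.Tendsto (fun i => ‖Pool.Agent.TH234.Kc.fd ε i 0 - y‖) Filter.atTop (nhds 0) := by
    refine squeeze_zero (fun _ => norm_nonneg _) (fun i => hlow _ (hxΩ i) y hyΩ) ?_
    have := hy.const_mul C
    simpa using this
  have hy2 : Filter.Tendsto (fun i => Pool.Agent.TH234.Kc.fd ε i 0) Filter.atTop (nhds y) :=
    tendsto_iff_norm_sub_tendsto_zero.2 hlim
  have h1 : Filter.Tendsto (fun i => Pool.Agent.TH234.Kc.rho u 4 (Pool.Agent.TH234.Kc.fd ε i 0))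
      Filter.atTop (nhds (Pool.Agent.TH234.Kc.rho u 4 y)) := (hrs.continuous.tendsto y).comp hy2
  have h2 : Filter.Tendsto (fun i => Pool.Agent.TH234.Kc.rho u 4 (Pool.Agent.TH234.Kc.fd ε i 0))
      Filter.atTop (nhds 0) := by
    rw [hu]
    exact Pool.Agent.TH234.Kc.depth_tendsto φ hφ ε hε0 hε2
  have h3 := tendsto_nhds_unique h1 h2
  rw [hΩ] at hyΩ
  have h4 : Pool.Agent.TH234.Kc.rho u 4 y < 0 := hyΩ
  linarith

end Pool.Agent.S06626
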