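import Pool.Statements.S06901
import Pool.Agent.TH835.G5.Lower

set_option autoImplicit false
open Pool Pool.MP_022ed3_co

namespace Pool.Agent.S06901

/-- For every n ≥ 5, 2n−1 is the least N such that any N points in the plane with no three collinear contain n points whose convex hull has at least 5 vertices. -/
theorem result :
    ∀ n : ℕ, 5 ≤ n →
      IsLeast
        {N : ℕ | ∀ A : Finset (ℝ × ℝ), A.card = N →
            (∀ a ∈ A, ∀ b ∈ A, ∀ c ∈ A, a ≠ b → a ≠ c → b ≠ c →
              ¬ Collinear ℝ ({a, b, c} : Set (ℝ × ℝ))) →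
            ∃ S ⊆ A, S.card = n ∧
              5 ≤ (Set.extremePoints ℝ (convexHull ℝ (S : Set (ℝ × ℝ)))).ncard}
        (2 * n - 1) := by
  intro n hn
  refine ⟨?_, ?_⟩
  · intro A hA hcol
    exact Pool.Agent.TH835.G5.upper n hn A hA hcol
  · intro N hN
    exact Pool.Agent.TH835.G5.lower n hn N hN

end Pool.Agent.S06901
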