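import Pool.Statements.S07056

set_option autoImplicit false
open Pool Pool.MP_0959cd_co

namespace Pool.Agent.S07056

/-- parent of a leaf -/
def par (t : ℕ) : ℕ := if t < 8 then 1 else 2

/-- twenty times the weights of the tree with returns on 13 vertices:
root 0, middle vertices 1 and 2, leaves 3, ..., 7 below 1 and 8, ..., 12 below 2. -/
def NT (t u : ℕ) : ℕ :=
  if t = 0 then (if u = 1 ∨ u = 2 then 10 else 0)
  else if t < 3 then (if 3 ≤ u ∧ par u = t then 4 else 0)
  else if u = 0 then 5 else if u = par t then 15 else 0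

/-- the reversed tree on 0, ..., 12, the tree on 13, ..., 25, and arcs x -> x + 13. -/
def N (x y : ℕ) : ℕ :=
  if x < 13 then (if y < 13 then NT y x else if y = x + 13 then 20 else 0)
  else if y < 13 then 0 else NT (x - 13) (y - 13)

def side (x : ℕ) : ℕ := if x < 13 then 0 else 1

theorem out_ok : ∀ u : Fin 26, 20 ≤ ∑ v : Fin 26, N u v := by decide +kernel
theorem in_ok : ∀ u : Fin 26, 20 ≤ ∑ v : Fin 26, N v u := by decide +kernel
theorem le_ok : ∀ u v : Fin 26, N u v ≤ 20 := by decide +kernel
theorem diag : ∀ u : Fin 26, N u u = 0 := by decide +kernel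
theorem mono : ∀ u v : Fin 26, N u v ≠ 0 → side u ≤ side v := by decide +kernel

theorem step : ∀ a b : Fin 26, N a b ≠ 0 → side a = side b → a ≤ b → ∀ c : Fin 26, N b c ≠ 0 →
    side b = side c → a ≤ c → ∀ d : Fin 26, N c d ≠ 0 → side c = side d → a ≤ d →
    ∀ e : Fin 26, N d e ≠ 0 → side d = side e → a ≤ e →
    c = a ∨ d = a ∨ d = b ∨ e = a ∨ e = b ∨ e = c := by
  decide +kernel
theorem two : ∀ a b : Fin 26, N a b ≠ 0 → N b a ≠ 0 → N a b + N b a < 20 := by decide +kernel
theorem three : ∀ a b : Fin 26, N a b ≠ 0 → side a = side b → ∀ c : Fin 26, N b c ≠ 0 →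
    N c a ≠ 0 → N a b + N b c + N c a < 20 := by decide +kernel
theorem four : ∀ a b : Fin 26, N a b ≠ 0 → side a = side b → ∀ c : Fin 26, N b c ≠ 0 →
    c ≠ a → ∀ d : Fin 26, N c d ≠ 0 → d ≠ b → N d a ≠ 0 → False := by decide +kernel

theorem modn {k : ℕ} (a : Fin (k + 2)) (j : ℕ) (h : a + (Fin.ofNat (k+2) j) = a) : (k + 2) ∣ j := by
  have h1 : Fin.ofNat (k+2) j = 0 := by simpa using h
  have h2 := congrArg Fin.val h1
  simpa [Fin.ofNat, Nat.dvd_iff_mod_eq_zero] using h2

/-- The negation of the preceding statement: In every finite nonempty loopless digraph with arc weights in [0,1] where each vertex has total out-weight at least 1 and total in-weight at least 1, some directed cycle has total weight at least 1. -/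
theorem result :
    ¬ (∀ (V : Type) [Fintype V] [Nonempty V] (G : Digraph V) (p : V → V → ℝ),
      (∀ v, ¬ G.Adj v v) →
      (∀ u v, 0 ≤ p u v ∧ p u v ≤ 1) →
      (∀ u v, ¬ G.Adj u v → p u v = 0) →
      (∀ u, 1 ≤ ∑ v, p u v) →
      (∀ u, 1 ≤ ∑ v, p v u) →
      ∃ (k : ℕ) (c : Fin (k + 2) → V),
        Function.Injective c ∧
        (∀ i, G.Adj (c i) (c (i + 1))) ∧
        1 ≤ ∑ i, p (c i) (c (i + 1))) := by
  intro H
  obtain ⟨k, c, hinj, hadj, hsum⟩ := H (Fin 26) ⟨fun u v => N u v ≠ 0⟩
    (fun u v => (N u v : ℝ) / 20)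
    (by intro v; simp [diag v])
    (by
      intro u v
      have h := le_ok u v
      have h' : (N u v : ℝ) ≤ 20 := by exact_mod_cast h
      constructor
      · positivity
      · rw [div_le_one (by norm_num)]; exact h')
    (by intro u v h; simp at h; simp [h])
    (by
      intro u
      have h := out_ok u
      have h' : (20 : ℝ) ≤ ∑ v : Fin 26, (N u v : ℝ) := by exact_mod_cast h
      rw [← Finset.sum_div, le_div_iff₀ (by norm_num)]
      linarith)
    (by
      intro u
      have h := in_ok u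
      have h' : (20 : ℝ) ≤ ∑ v : Fin 26, (N v u : ℝ) := by exact_mod_cast h
      rw [← Finset.sum_div, le_div_iff₀ (by norm_num)]
      linarith)
  have hN : ∀ i, N (c i) (c (i + 1)) ≠ 0 := hadj
  have hsumN : 20 ≤ ∑ i, N (c i) (c (i + 1)) := by
    rw [← Finset.sum_div, le_div_iff₀ (by norm_num)] at hsum
    have : (20 : ℝ) ≤ ∑ i, (N (c i) (c (i + 1)) : ℝ) := by linarith
    exact_mod_cast this
  -- the side is constant
  have hside : ∀ i, side (c i) = side (c (i + 1)) := by
    have h1 : ∑ i, side (c i) = ∑ i, side (c (i + 1)) :=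
      (Equiv.sum_comp (Equiv.addRight (1 : Fin (k + 2))) (fun i => side (c i))).symm
    have h2 := (Finset.sum_eq_sum_iff_of_le (fun i _ => mono (c i) (c (i + 1)) (hN i))).1 h1
    intro i
    exact h2 i (Finset.mem_univ i)
  obtain ⟨z, -, hz⟩ := Finset.exists_min_image (Finset.univ : Finset (Fin (k + 2))) c
    ⟨0, Finset.mem_univ _⟩
  have hz' : ∀ i, c z ≤ c i := fun i => hz i (Finset.mem_univ i)
  have key := step (c z) (c (z + 1)) (hN _) (hside _) (hz' _) (c (z + 1 + 1)) (hN _) (hside _)
    (hz' _) (c (z + 1 + 1 + 1)) (hN _) (hside _) (hz' _) (c (z + 1 + 1 + 1 + 1)) (hN _) (hside _)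
    (hz' _)
  have aux : ∀ (i : Fin (k + 2)) (m : ℕ), i + Fin.ofNat (k + 2) m + 1 = i + Fin.ofNat (k + 2) (m + 1) := by
    intro i m
    rw [add_assoc]
    congr 1
    apply Fin.ext
    simp [Fin.ofNat, Fin.val_add]
  have e1 : ∀ i : Fin (k + 2), i + 1 = i + Fin.ofNat (k + 2) 1 := by
    intro i
    rfl
  have e2 : ∀ i : Fin (k + 2), i + 1 + 1 = i + Fin.ofNat (k + 2) 2 := by
    intro i; rw [← aux i 1, ← e1]
  have e3 : ∀ i : Fin (k + 2), i + 1 + 1 + 1 = i + Fin.ofNat (k + 2) 3 := by
    intro i; rw [← aux i 2, ← e2]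
  have e4 : ∀ i : Fin (k + 2), i + 1 + 1 + 1 + 1 = i + Fin.ofNat (k + 2) 4 := by
    intro i; rw [← aux i 3, ← e3]
  have hk : k ≤ 2 := by
    rcases key with h | h | h | h | h | h
    · have := hinj h
      rw [e2] at this
      have := Nat.le_of_dvd (by norm_num) (modn _ _ this)
      omega
    · have := hinj h
      rw [e3] at this
      have := Nat.le_of_dvd (by norm_num) (modn _ _ this)
      omega
    · have := hinj h
      rw [e2] at this
      have := Nat.le_of_dvd (by norm_num) (modn _ _ this)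
      omega
    · have := hinj h
      rw [e4] at this
      have := Nat.le_of_dvd (by norm_num) (modn _ _ this)
      omega
    · have := hinj h
      rw [e3] at this
      have := Nat.le_of_dvd (by norm_num) (modn _ _ this)
      omega
    · have := hinj h
      rw [e2] at this
      have := Nat.le_of_dvd (by norm_num) (modn _ _ this)
      omega
  interval_cases k
  · have h0 := hN 0
    have h1 := hN 1
    have h := two (c 0) (c 1) h0 h1
    rw [Fin.sum_univ_two] at hsumN
    have : N (c 0) (c (0 + 1)) + N (c 1) (c (1 + 1)) = N (c 0) (c 1) + N (c 1) (c 0) := rfl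
    omega
  · have h0 := hN 0
    have h1 := hN 1
    have h2 := hN 2
    have h := three (c 0) (c 1) h0 (hside 0) (c 2) h1 h2
    rw [Fin.sum_univ_three] at hsumN
    have : N (c 0) (c (0 + 1)) + N (c 1) (c (1 + 1)) + N (c 2) (c (2 + 1))
      = N (c 0) (c 1) + N (c 1) (c 2) + N (c 2) (c 0) := rfl
    omega
  · have h0 := hN 0
    have h1 := hN 1
    have h2 := hN 2
    have h3 := hN 3
    exact four (c 0) (c 1) h0 (hside 0) (c 2) h1 (fun h => absurd (hinj h) (by decide)) (c 3) h2
      (fun h => absurd (hinj h) (by decide)) h3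

end Pool.Agent.S07056
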