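import Pool.Statements.S07114

set_option autoImplicit false
open Filter Topology
open Pool Pool.MP_0b90e2_co

namespace Pool.Agent.S07114

/-- the colour of the pair `{a,b}`: pairs inside a half get colour `0`, cross pairs are free -/
def colFun (m : ℕ) (f : Fin m × Fin m → Fin 25) (a b : Fin (2 * m)) : Fin 25 :=
  if h : a.val < m ∧ m ≤ b.val then f (⟨a.val, h.1⟩, ⟨b.val - m, by omega⟩)
  else if h : b.val < m ∧ m ≤ a.val then f (⟨b.val, h.1⟩, ⟨a.val - m, by omega⟩)
  else 0

lemma colFun_comm (m : ℕ) (f : Fin m × Fin m → Fin 25) (a b : Fin (2 * m)) :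
    colFun m f a b = colFun m f b a := by
  unfold colFun
  by_cases h1 : a.val < m ∧ m ≤ b.val
  · have h2 : ¬ (b.val < m ∧ m ≤ a.val) := by omega
    rw [dif_pos h1, dif_neg h2, dif_pos h1]
  · by_cases h2 : b.val < m ∧ m ≤ a.val
    · rw [dif_neg h1, dif_pos h2, dif_pos h2]
    · rw [dif_neg h1, dif_neg h2, dif_neg h2, dif_neg h1]

def col (m : ℕ) (f : Fin m × Fin m → Fin 25) (e : {e : Sym2 (Fin (2 * m)) // ¬ e.IsDiag}) :
    Fin 25 :=
  Sym2.lift ⟨colFun m f, colFun_comm m f⟩ e.1

lemma col_mk (m : ℕ) (f : Fin m × Fin m → Fin 25) (a b : Fin (2 * m))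
    (h : ¬ (s(a, b) : Sym2 (Fin (2 * m))).IsDiag) :
    col m f ⟨s(a, b), h⟩ = colFun m f a b := rfl

lemma col_inside (m : ℕ) (f : Fin m × Fin m → Fin 25) (a b : Fin (2 * m))
    (h : ¬ (s(a, b) : Sym2 (Fin (2 * m))).IsDiag)
    (hab : (a.val < m) ↔ (b.val < m)) :
    col m f ⟨s(a, b), h⟩ = 0 := by
  rw [col_mk]
  unfold colFun
  rw [dif_neg (by omega), dif_neg (by omega)]

lemma exists_inside (m : ℕ) (T : Finset (Fin (2 * m))) (hT : 3 ≤ T.card) :
    ∃ x ∈ T, ∃ y ∈ T, x ≠ y ∧ ((x.val < m) ↔ (y.val < m)) := by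
  obtain ⟨x, hx, y, hy, hne, h⟩ := Finset.exists_ne_map_eq_of_card_lt_of_maps_to
    (s := T) (t := (Finset.univ : Finset Bool)) (f := fun x => decide (x.val < m))
    (by rw [Finset.card_univ, Fintype.card_bool]; omega) (fun _ _ => Finset.mem_univ _)
  refine ⟨x, hx, y, hy, hne, ?_⟩
  simpa using h

lemma col_inj (m : ℕ) : Function.Injective (col m) := by
  intro f g hfg
  funext p
  obtain ⟨a, b⟩ := p
  have ha := a.isLt
  have hb := b.isLt
  have hne : ¬ (s((⟨a.val, by omega⟩ : Fin (2 * m)), (⟨m + b.val, by omega⟩ : Fin (2 * m))) :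
      Sym2 (Fin (2 * m))).IsDiag := by
    rw [Sym2.mk_isDiag_iff]
    intro h
    have := congrArg Fin.val h
    simp at this
    omega
  have h := congrFun hfg ⟨_, hne⟩
  rw [col_mk, col_mk] at h
  unfold colFun at h
  have hc : (⟨a.val, by omega⟩ : Fin (2 * m)).val < m ∧ m ≤ (⟨m + b.val, by omega⟩ : Fin (2 * m)).val :=
    ⟨ha, Nat.le_add_right _ _⟩
  rw [dif_pos hc, dif_pos hc] at h
  simpa using h

lemma col_ok (m : ℕ) (f : Fin m × Fin m → Fin 25) (S : Finset (Fin (2 * m))) (hS : S.card = 4) :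
    ((Finset.univ.filter
      (fun e : {e : Sym2 (Fin (2 * m)) // ¬ e.IsDiag} => e.1 ∈ S.sym2)).image (col m f)).card < 6 := by
  classical
  set E := Finset.univ.filter
      (fun e : {e : Sym2 (Fin (2 * m)) // ¬ e.IsDiag} => e.1 ∈ S.sym2) with hE
  have hcard : E.card ≤ 6 := by
    have h1 : (E.image Subtype.val) ⊆ S.offDiag.image (fun p => s(p.1, p.2)) := by
      intro e he
      rw [Finset.mem_image] at he
      obtain ⟨⟨e', he'⟩, hmem, rfl⟩ := he
      rw [hE, Finset.mem_filter] at hmem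
      induction e' using Sym2.ind with
      | _ a b =>
        have h2 := hmem.2
        simp only [Finset.mk_mem_sym2_iff] at h2
        rw [Finset.mem_image]
        refine ⟨(a, b), ?_, rfl⟩
        rw [Finset.mem_offDiag]
        refine ⟨h2.1, h2.2, ?_⟩
        intro hab
        have hab' : a = b := hab
        exact he' (by rw [hab']; simp)
    have h2 := Finset.card_le_card h1
    rw [Finset.card_image_of_injective _ Subtype.val_injective] at h2
    refine h2.trans ?_
    have h3 := Sym2.card_image_offDiag S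
    rw [hS] at h3
    have h4 : Nat.choose 4 2 = 6 := by decide
    rw [h4] at h3
    exact h3.le
  obtain ⟨x, hx, y, hy, hxy, hin⟩ := exists_inside m S (by omega)
  obtain ⟨x', hx', y', hy', hxy', hin'⟩ := exists_inside m (S.erase x) (by
    rw [Finset.card_erase_of_mem hx]; omega)
  rw [Finset.mem_erase] at hx' hy'
  let e1 : {e : Sym2 (Fin (2 * m)) // ¬ e.IsDiag} := ⟨s(x, y), by rwa [Sym2.mk_isDiag_iff]⟩
  let e2 : {e : Sym2 (Fin (2 * m)) // ¬ e.IsDiag} := ⟨s(x', y'), by rwa [Sym2.mk_isDiag_iff]⟩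
  have he1 : e1 ∈ E := by
    rw [hE, Finset.mem_filter]
    exact ⟨Finset.mem_univ _, by simp only [e1, Finset.mk_mem_sym2_iff]; exact ⟨hx, hy⟩⟩
  have he2 : e2 ∈ E := by
    rw [hE, Finset.mem_filter]
    exact ⟨Finset.mem_univ _, by simp only [e2, Finset.mk_mem_sym2_iff]; exact ⟨hx'.2, hy'.2⟩⟩
  have hne : e2 ≠ e1 := by
    intro h
    have h1 : s(x', y') = s(x, y) := congrArg Subtype.val h
    have h2 : x ∈ s(x', y') := by rw [h1]; exact Sym2.mem_mk_left x y
    rw [Sym2.mem_iff] at h2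
    rcases h2 with h2 | h2
    · exact hx'.1 h2.symm
    · exact hy'.1 h2.symm
  have hc1 : col m f e1 = 0 := col_inside m f x y _ hin
  have hc2 : col m f e2 = 0 := col_inside m f x' y' _ hin'
  have himg : E.image (col m f) ⊆ (E.erase e1).image (col m f) := by
    intro c hc
    rw [Finset.mem_image] at hc ⊢
    obtain ⟨e, he, rfl⟩ := hc
    by_cases h : e = e1
    · subst h
      exact ⟨e2, Finset.mem_erase.2 ⟨hne, he2⟩, by rw [hc1, hc2]⟩
    · exact ⟨e, Finset.mem_erase.2 ⟨h, he⟩, rfl⟩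
  have h5 := Finset.card_le_card himg
  have h6 : ((E.erase e1).image (col m f)).card ≤ (E.erase e1).card := Finset.card_image_le
  have h7 : (E.erase e1).card = E.card - 1 := Finset.card_erase_of_mem he1
  omega

/-- The negation of the preceding statement: For all k≥3, 3≤s≤C(k,2), r≥s: the number of r-colorings of the edges of K_n in which every k-vertex set spans fewer than s colors, divided by C(r,s-1)·(s-1)^{C(n,2)}, tends to 1 as n→∞. -/
theorem result :
    ¬ (∀ k s r : ℕ, 3 ≤ k → 3 ≤ s → s ≤ k.choose 2 → s ≤ r →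
      Tendsto
        (fun n : ℕ =>
          (Nat.card {c : {e : Sym2 (Fin n) // ¬ e.IsDiag} → Fin r //
              ∀ S : Finset (Fin n), S.card = k →
                ((Finset.univ.filter
                    (fun e : {e : Sym2 (Fin n) // ¬ e.IsDiag} => e.1 ∈ S.sym2)).image c).card < s} : ℝ)
            / ((r.choose (s - 1) : ℝ) * ((s : ℝ) - 1) ^ (n.choose 2)))
        atTop (𝓝 1)) := by
  intro hall
  have h := hall 4 6 25 (by norm_num) (by norm_num) (by decide) (by norm_num)
  have hev := h.eventually (gt_mem_nhds (show (1 : ℝ) < 2 by norm_num))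
  rw [eventually_atTop] at hev
  obtain ⟨N, hN⟩ := hev
  set m := max N 8 with hm
  have hm8 : 8 ≤ m := le_max_right _ _
  have hmN : N ≤ 2 * m := by
    have : N ≤ m := le_max_left _ _
    omega
  have hlt := hN (2 * m) hmN
  have hcount : 25 ^ (m * m) ≤ Nat.card {c : {e : Sym2 (Fin (2 * m)) // ¬ e.IsDiag} → Fin 25 //
              ∀ S : Finset (Fin (2 * m)), S.card = 4 →
                ((Finset.univ.filter
                    (fun e : {e : Sym2 (Fin (2 * m)) // ¬ e.IsDiag} => e.1 ∈ S.sym2)).image c).card < 6} := by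
    have h1 : Nat.card (Fin m × Fin m → Fin 25) = 25 ^ (m * m) := by
      simp [Nat.card_eq_fintype_card]
    rw [← h1]
    refine Nat.card_le_card_of_injective
      (fun f => (⟨col m f, fun S hS => col_ok m f S hS⟩ :
        {c : {e : Sym2 (Fin (2 * m)) // ¬ e.IsDiag} → Fin 25 //
              ∀ S : Finset (Fin (2 * m)), S.card = 4 →
                ((Finset.univ.filter
                    (fun e : {e : Sym2 (Fin (2 * m)) // ¬ e.IsDiag} => e.1 ∈ S.sym2)).image c).card < 6})) ?_
    intro f g hfg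
    exact col_inj m (congrArg Subtype.val hfg)
  have hchoose : (2 * m).choose 2 + m = 2 * (m * m) := by
    rw [Nat.choose_two_right]
    clear_value m
    obtain ⟨k, rfl⟩ : ∃ k, m = k + 1 := ⟨m - 1, by omega⟩
    have h1 : 2 * (k + 1) * (2 * (k + 1) - 1) / 2 = (k + 1) * (2 * k + 1) := by
      have : 2 * (k + 1) - 1 = 2 * k + 1 := by omega
      rw [this]
      rw [show 2 * (k + 1) * (2 * k + 1) = 2 * ((k + 1) * (2 * k + 1)) by ring]
      exact Nat.mul_div_cancel_left _ (by norm_num)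
    rw [h1]
    ring
  have h25 : (25 : ℕ) ^ (m * m) = 5 ^ ((2 * m).choose 2) * 5 ^ m := by
    have h52 : (5 : ℕ) ^ 2 = 25 := by norm_num
    rw [← pow_add, hchoose, pow_mul (5 : ℕ) 2 (m * m), h52]
  have hC : (Nat.choose 25 (6 - 1)) = 53130 := by
    decide +kernel
  have hpos : (0 : ℝ) < (5 : ℝ) ^ ((2 * m).choose 2) := by positivity
  have hfive : (106260 : ℝ) ≤ 5 ^ m := by
    calc (106260 : ℝ) ≤ 5 ^ 8 := by norm_num
      _ ≤ 5 ^ m := pow_le_pow_right₀ (by norm_num) hm8
  have hcountR : (5 : ℝ) ^ ((2 * m).choose 2) * 5 ^ m ≤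
      (Nat.card {c : {e : Sym2 (Fin (2 * m)) // ¬ e.IsDiag} → Fin 25 //
              ∀ S : Finset (Fin (2 * m)), S.card = 4 →
                ((Finset.univ.filter
                    (fun e : {e : Sym2 (Fin (2 * m)) // ¬ e.IsDiag} => e.1 ∈ S.sym2)).image c).card < 6} : ℝ) := by
    have h2 := hcount
    rw [h25] at h2
    exact_mod_cast h2
  simp only [hC] at hlt
  have h6 : (((6 : ℕ) : ℝ) - 1) = 5 := by norm_num
  rw [h6, div_lt_iff₀ (by positivity)] at hlt
  push_cast at hlt
  nlinarith [mul_le_mul_of_nonneg_left hfive hpos.le]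

end Pool.Agent.S07114
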