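import Pool.Statements.S07160
import Mathlib

set_option autoImplicit false
open Pool Pool.MP_0cd801_co

namespace Pool.Agent.S07160

/-- Out-neighbourhoods of a 3-diregular oriented graph on 13 vertices. -/
def outL : Fin 13 → List (Fin 13) :=
  ![[1, 5, 8], [2, 6, 9], [3, 7, 8], [4, 6, 12], [1, 7, 11], [4, 8, 9], [0, 2, 4],
    [0, 6, 11], [1, 3, 10], [2, 10, 12], [3, 5, 11], [0, 9, 12], [5, 7, 10]]

/-- Is there a directed path extending the current one (at `v`, with visited list `vis`) by exactly
`k` new vertices whose last vertex has an arc to `0`? -/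
def srch : ℕ → Fin 13 → List (Fin 13) → Bool
  | 0, v, _ => (outL v).contains 0
  | k + 1, v, vis => (outL v).any (fun w => !(vis.contains w) && srch k w (w :: vis))

theorem srch_false : srch 12 0 [0] = false := by decide +kernel

theorem srch_true (p : ℕ → Fin 13) (hinj : ∀ i j, i ≤ 12 → j ≤ 12 → p i = p j → i = j)
    (harc : ∀ i, i < 12 → p (i + 1) ∈ outL (p i)) (hlast : 0 ∈ outL (p 12)) :
    ∀ k m : ℕ, m + k = 12 → ∀ vis : List (Fin 13),
      (∀ w ∈ vis, ∃ i, i ≤ m ∧ p i = w) → srch k (p m) vis = true := by
  intro k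
  induction k with
  | zero =>
    intro m hm vis _
    have : m = 12 := by omega
    subst this
    simpa [srch] using hlast
  | succ k ih =>
    intro m hm vis hvis
    rw [srch, List.any_eq_true]
    refine ⟨p (m + 1), harc m (by omega), ?_⟩
    rw [Bool.and_eq_true]
    constructor
    · rw [Bool.not_eq_true', List.contains_eq_mem, decide_eq_false_iff_not]
      intro hmem
      obtain ⟨i, hi, hpi⟩ := hvis _ hmem
      have := hinj i (m + 1) (by omega) (by omega) hpi
      omega
    · apply ih (m + 1) (by omega)
      intro w hw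
      rcases List.mem_cons.mp hw with rfl | hw
      · exact ⟨m + 1, le_refl _, rfl⟩
      · obtain ⟨i, hi, hpi⟩ := hvis w hw
        exact ⟨i, by omega, hpi⟩

/-- The negation of the preceding statement: For every d > 2 and n ≤ 4d+1, every oriented graph on n vertices in which each vertex has in-degree d and out-degree d has a directed Hamilton cycle, i.e. a cyclic ordering of all n vertices with an arc from each vertex to the next. -/
theorem result :
    ¬ (∀ (d n : ℕ), 2 < d → n ≤ 4 * d + 1 →
      ∀ G : Digraph (Fin n),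
        (∀ u v : Fin n, G.Adj u v → ¬ G.Adj v u) →
        (∀ v : Fin n, Set.ncard {u : Fin n | G.Adj v u} = d) →
        (∀ v : Fin n, Set.ncard {u : Fin n | G.Adj u v} = d) →
        ∃ f : Fin n → Fin n, Function.Bijective f ∧
          ∀ i j : Fin n, j.val = (i.val + 1) % n → G.Adj (f i) (f j)) := by
  intro h
  obtain ⟨f, hf, harc⟩ := h 3 13 (by norm_num) (by norm_num) ⟨fun u v => v ∈ outL u⟩
    (by
      show ∀ u v : Fin 13, v ∈ outL u → ¬ u ∈ outL v
      decide)
    (by
      intro v
      have h1 : {u : Fin 13 | u ∈ outL v} =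
          ((Finset.univ.filter (fun u => u ∈ outL v) : Finset (Fin 13)) : Set (Fin 13)) := by
        ext u; simp
      show Set.ncard {u : Fin 13 | u ∈ outL v} = 3
      rw [h1, Set.ncard_coe_finset]
      clear h1
      revert v
      decide)
    (by
      intro v
      have h1 : {u : Fin 13 | v ∈ outL u} =
          ((Finset.univ.filter (fun u => v ∈ outL u) : Finset (Fin 13)) : Set (Fin 13)) := by
        ext u; simp
      show Set.ncard {u : Fin 13 | v ∈ outL u} = 3
      rw [h1, Set.ncard_coe_finset]
      clear h1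
      revert v
      decide)
  obtain ⟨s, hs⟩ := hf.2 0
  let p : ℕ → Fin 13 := fun k => f ⟨(s.val + k) % 13, Nat.mod_lt _ (by norm_num)⟩
  have hp0 : p 0 = 0 := by
    have : (⟨(s.val + 0) % 13, Nat.mod_lt _ (by norm_num)⟩ : Fin 13) = s := by
      apply Fin.ext
      show (s.val + 0) % 13 = s.val
      have := s.isLt
      omega
    show f _ = 0
    rw [this, hs]
  have hstep : ∀ i, p (i + 1) ∈ outL (p i) := by
    intro i
    refine harc ⟨(s.val + i) % 13, Nat.mod_lt _ (by norm_num)⟩
      ⟨(s.val + (i + 1)) % 13, Nat.mod_lt _ (by norm_num)⟩ ?_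
    show (s.val + (i + 1)) % 13 = ((s.val + i) % 13 + 1) % 13
    omega
  have hp13 : p 13 = 0 := by
    rw [← hp0]
    show f _ = f _
    congr 1
    apply Fin.ext
    show (s.val + 13) % 13 = (s.val + 0) % 13
    omega
  have hinj : ∀ i j, i ≤ 12 → j ≤ 12 → p i = p j → i = j := by
    intro i j hi hj hij
    have h1 := hf.1 hij
    have h2 : (s.val + i) % 13 = (s.val + j) % 13 := congrArg Fin.val h1
    omega
  have ht := srch_true p hinj (fun i _ => hstep i) (by
    have := hstep 12
    rwa [show (12 + 1 : ℕ) = 13 from rfl, hp13] at this) 12 0 rfl [0] (by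
      intro w hw
      rw [List.mem_singleton] at hw
      exact ⟨0, le_refl _, by rw [hp0, hw]⟩)
  rw [hp0, srch_false] at ht
  exact Bool.false_ne_true ht

end Pool.Agent.S07160
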