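import Pool.Statements.S07181
import Mathlib
import Pool.Agent.TH657.LLL

set_option autoImplicit false
open Pool Pool.MP_0dd31c_co

/-!
# Proper halving 2-colourings

Pair up the vertices (at most one vertex remains, it is not red) and colour one vertex of each pair
red, independently at random.  Every outcome is halving.  An edge which contains a pair is never
monochromatic, and the other edges are monochromatic with probability at most `4 / 2 ^ n`.  The
local lemma gives a proper colouring if `64 n c ^ n` is at most `2 ^ n` (or so).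
-/

namespace Pool.Agent.S07181

open Finset Filter Topology

open Pool.Agent.TH657.LLL in
/-- the local lemma with arbitrary decidability instances -/
theorem lll_dec {T C ι : Type} [Fintype T] [Fintype C] [DecidableEq T] (I : Finset ι)
    (B : ι → (T → C) → Prop) (S : ι → Finset T)
    [DecidableRel fun i j => ¬ Disjoint (S i) (S j)]
    (hB : ∀ i ∈ I, Pool.Agent.TH657.LLL.DependsOn (B i) (S i)) (p : ℝ) (d : ℕ) (hp0 : 0 ≤ p)
    (hp : ∀ i ∈ I, (cnt (B i) : ℝ) ≤ p * Fintype.card (T → C))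
    (hd : ∀ i ∈ I, (I.filter (fun j => ¬ Disjoint (S i) (S j))).card ≤ d)
    (h4 : 4 * p * d ≤ 1) (hd1 : 1 ≤ d) (hne : 0 < Fintype.card (T → C)) :
    ∃ ω : T → C, ∀ i ∈ I, ¬ B i ω := by
  refine lll I B S hB p d hp0 ?_ ?_ h4 hd1 ?_
  · intro i hi
    convert hp i hi
  · intro i hi
    convert hd i hi
  · convert hne

open Pool.Agent.TH657.LLL in
theorem core (n k : ℕ) (D : ℕ) (hn : 1 ≤ n) (F : Finset (Finset ℕ)) (f : Fin k × Bool → ℕ)
    (hf : Function.Injective f) (hcard : ∀ A ∈ F, A.card = n)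
    (hmiss : ∀ A ∈ F, (A.filter (fun v => ∀ x, f x ≠ v)).card ≤ 1)
    (hD : ∀ v : ℕ, (F.filter (fun A => v ∈ A)).card ≤ D)
    (h4 : 4 * (4 / (2 : ℝ) ^ n) * ((2 * n * D + 1 : ℕ) : ℝ) ≤ 1) :
    ∃ R : Finset ℕ, (∀ v ∈ R, ∃ x, f x = v) ∧ R.card = k ∧
      ∀ A ∈ F, (A ∩ R).Nonempty ∧ ¬ A ⊆ R := by
  classical
  -- the positions of the vertices of an edge
  let P : Finset ℕ → Finset (Fin k × Bool) := fun A => univ.filter (fun x => f x ∈ A)
  have hPcard : ∀ A ∈ F, n - 1 ≤ (P A).card ∧ (P A).card ≤ n := by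
    intro A hA
    have h1 : (P A).card = (A.filter (fun v => ∃ x, f x = v)).card := by
      rw [← card_image_of_injective _ hf]
      congr 1
      ext v
      simp only [P, mem_image, mem_filter, mem_univ, true_and]
      constructor
      · rintro ⟨x, hx, rfl⟩
        exact ⟨hx, x, rfl⟩
      · rintro ⟨hv, x, rfl⟩
        exact ⟨x, hv, rfl⟩
    have h2 : (A.filter (fun v => ∃ x, f x = v)).card +
        (A.filter (fun v => ¬ ∃ x, f x = v)).card = A.card := card_filter_add_card_filter_not _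
    have h3 : (A.filter (fun v => ¬ ∃ x, f x = v)).card ≤ 1 := by
      refine le_trans (card_le_card ?_) (hmiss A hA)
      intro v hv
      rw [mem_filter] at hv ⊢
      exact ⟨hv.1, fun x hx => hv.2 ⟨x, hx⟩⟩
    have h4 := hcard A hA
    omega
  let Bad : Finset ℕ → (Fin k → Bool) → Prop := fun A ω =>
    (∀ x ∈ P A, ω x.1 = x.2) ∨ (∀ x ∈ P A, ω x.1 = !x.2)
  let S : Finset ℕ → Finset (Fin k) := fun A => (P A).image Prod.fst
  have hdep : ∀ A ∈ F, Pool.Agent.TH657.LLL.DependsOn (Bad A) (S A) := by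
    intro A _ ω ω' hω hb
    have hmem : ∀ x ∈ P A, ω x.1 = ω' x.1 := fun x hx => hω _ (mem_image_of_mem _ hx)
    rcases hb with hb | hb
    · exact Or.inl fun x hx => by rw [← hmem x hx]; exact hb x hx
    · exact Or.inr fun x hx => by rw [← hmem x hx]; exact hb x hx
  -- number of outcomes with prescribed values
  have hcount : ∀ (σ : Bool → Bool), (∀ a b, σ a = σ b → a = b) → ∀ A ∈ F,
      (univ.filter (fun ω : Fin k → Bool => ∀ x ∈ P A, ω x.1 = σ x.2)).card * 2 ^ (n - 1) ≤
        2 ^ k := by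
    intro σ hσ A hA
    by_cases hex : ∃ ω₀ : Fin k → Bool, ∀ x ∈ P A, ω₀ x.1 = σ x.2
    · obtain ⟨ω₀, h0⟩ := hex
      have hinj : Set.InjOn Prod.fst (P A : Set (Fin k × Bool)) := by
        rintro x hx y hy hxy
        refine Prod.ext hxy (hσ _ _ ?_)
        rw [← h0 x hx, ← h0 y hy, hxy]
      have hU : (S A).card = (P A).card := card_image_of_injOn hinj
      have hsub : (univ.filter (fun ω : Fin k → Bool => ∀ x ∈ P A, ω x.1 = σ x.2)) ⊆
          Fintype.piFinset (fun t => if t ∈ S A then {ω₀ t} else univ) := by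
        intro ω hω
        rw [mem_filter] at hω
        rw [Fintype.mem_piFinset]
        intro t
        by_cases ht : t ∈ S A
        · rw [if_pos ht, mem_singleton]
          obtain ⟨x, hx, rfl⟩ := mem_image.1 ht
          rw [hω.2 x hx, h0 x hx]
        · rw [if_neg ht]; exact mem_univ _
      have hcd : (Fintype.piFinset (fun t => if t ∈ S A then {ω₀ t} else (univ : Finset Bool))).card
          * 2 ^ (S A).card = 2 ^ k := by
        rw [Fintype.card_piFinset]
        have h1 : (2 : ℕ) ^ (S A).card = ∏ t : Fin k, (if t ∈ S A then 2 else 1) := by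
          rw [prod_ite_mem, univ_inter, prod_const]
        rw [h1, ← prod_mul_distrib]
        have h2 : ∀ t : Fin k, ((if t ∈ S A then {ω₀ t} else (univ : Finset Bool))).card *
            (if t ∈ S A then 2 else 1) = 2 := by
          intro t
          by_cases ht : t ∈ S A
          · rw [if_pos ht, if_pos ht]; simp
          · rw [if_neg ht, if_neg ht]; simp
        rw [prod_congr rfl (fun t _ => h2 t)]
        simp
      calc _ ≤ (Fintype.piFinset (fun t => if t ∈ S A then {ω₀ t} else univ)).card *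
            2 ^ (S A).card := by
              refine Nat.mul_le_mul (card_le_card hsub) (Nat.pow_le_pow_right (by norm_num) ?_)
              rw [hU]; exact (hPcard A hA).1
        _ = 2 ^ k := hcd
    · have : (univ.filter (fun ω : Fin k → Bool => ∀ x ∈ P A, ω x.1 = σ x.2)) = ∅ := by
        rw [filter_eq_empty_iff]
        intro ω _ h
        exact hex ⟨ω, h⟩
      rw [this]; simp
  have hprob : ∀ A ∈ F, (cnt (Bad A) : ℝ) ≤ (4 / (2 : ℝ) ^ n) * Fintype.card (Fin k → Bool) := by
    intro A hA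
    have h1 : cnt (Bad A) ≤ (univ.filter (fun ω : Fin k → Bool => ∀ x ∈ P A, ω x.1 = id x.2)).card +
        (univ.filter (fun ω : Fin k → Bool => ∀ x ∈ P A, ω x.1 = (!x.2))).card := by
      refine le_trans (card_le_card ?_) (card_union_le _ _)
      intro ω hω
      rw [mem_ev] at hω
      rw [mem_union, mem_filter, mem_filter]
      rcases hω with h | h
      · exact Or.inl ⟨mem_univ _, h⟩
      · exact Or.inr ⟨mem_univ _, h⟩
    have h2 := hcount id (fun a b h => h) A hA
    have h3 := hcount (fun b => !b) (fun a b h => by simpa using h) A hA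
    have h5 : cnt (Bad A) * 2 ^ (n - 1) ≤ 2 * 2 ^ k := by
      calc cnt (Bad A) * 2 ^ (n - 1) ≤ _ := Nat.mul_le_mul_right _ h1
        _ ≤ 2 * 2 ^ k := by rw [add_mul]; omega
    have h6 : (cnt (Bad A) : ℝ) * 2 ^ (n - 1) ≤ 2 * 2 ^ k := by exact_mod_cast h5
    have h7 : (Fintype.card (Fin k → Bool) : ℝ) = 2 ^ k := by simp
    rw [h7]
    have h8 : (2 : ℝ) ^ n = 2 * 2 ^ (n - 1) := by
      rw [← pow_succ']; congr 1; omega
    have hpos : (0 : ℝ) < 2 ^ (n - 1) := by positivity
    rw [h8, div_mul_eq_mul_div, le_div_iff₀ (by positivity)]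
    nlinarith
  have hdeg : ∀ A ∈ F, (F.filter (fun A' => ¬ Disjoint (S A) (S A'))).card ≤ 2 * n * D + 1 := by
    intro A hA
    have h1 : F.filter (fun A' => ¬ Disjoint (S A) (S A')) ⊆
        ((S A) ×ˢ (univ : Finset Bool)).biUnion (fun x => F.filter (fun A' => f x ∈ A')) := by
      intro A' hA'
      rw [mem_filter] at hA'
      obtain ⟨hA'F, hnd⟩ := hA'
      obtain ⟨t, ht, ht'⟩ := Finset.not_disjoint_iff.1 hnd
      obtain ⟨x, hx, rfl⟩ := mem_image.1 ht'
      rw [mem_biUnion]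
      refine ⟨x, mem_product.2 ⟨ht, mem_univ _⟩, mem_filter.2 ⟨hA'F, ?_⟩⟩
      exact (mem_filter.1 hx).2
    have h2 : (F.filter (fun A' => ¬ Disjoint (S A) (S A'))).card ≤
        ((S A) ×ˢ (univ : Finset Bool)).card * D :=
      (card_le_card h1).trans (card_biUnion_le_card_mul _ _ _ fun x _ => hD (f x))
    have h3 : ((S A) ×ˢ (univ : Finset Bool)).card ≤ 2 * n := by
      rw [card_product]
      have : (S A).card ≤ n := card_image_le.trans (hPcard A hA).2
      simp only [card_univ, Fintype.card_bool]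
      omega
    have := Nat.mul_le_mul_right D h3
    omega
  obtain ⟨ω, hω⟩ := lll_dec F Bad S hdep (4 / (2 : ℝ) ^ n) (2 * n * D + 1) (by positivity)
    hprob hdeg h4 (by omega) Fintype.card_pos
  refine ⟨univ.image (fun t => f (t, ω t)), ?_, ?_, ?_⟩
  · intro v hv
    obtain ⟨t, _, rfl⟩ := mem_image.1 hv
    exact ⟨_, rfl⟩
  · rw [card_image_of_injective, card_univ, Fintype.card_fin]
    intro s t hst
    exact congrArg Prod.fst (hf hst)
  · intro A hA
    have h1 := hω A hA
    simp only [Bad, not_or, not_forall] at h1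
    obtain ⟨⟨x, hx, hx2⟩, y, hy, hy2⟩ := h1
    constructor
    · refine ⟨f y, mem_inter.2 ⟨(mem_filter.1 hy).2, mem_image.2 ⟨y.1, mem_univ _, ?_⟩⟩⟩
      congr 1
      refine Prod.ext rfl ?_
      show ω y.1 = y.2
      revert hy2
      cases ω y.1 <;> cases y.2 <;> simp
    · intro hsub
      have h2 := hsub (mem_filter.1 hx).2
      obtain ⟨t, _, ht⟩ := mem_image.1 h2
      have h3 := hf ht
      apply hx2
      rw [← h3]

theorem eventually_small (c : ℝ) (hc1 : 1 < c) (hc2 : c < 2) :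
    ∀ᶠ n : ℕ in atTop, 4 * (4 / (2 : ℝ) ^ n) * ((2 * n * ⌊c ^ n⌋₊ + 1 : ℕ) : ℝ) ≤ 1 := by
  have h1 : Tendsto (fun n : ℕ => (n : ℝ) ^ 1 * (c / 2) ^ n) atTop (𝓝 0) := by
    apply tendsto_pow_const_mul_const_pow_of_abs_lt_one
    rw [abs_of_pos (by linarith)]
    linarith
  have h2 : Tendsto (fun n : ℕ => ((1 : ℝ) / 2) ^ n) atTop (𝓝 0) :=
    tendsto_pow_atTop_nhds_zero_of_lt_one (by norm_num) (by norm_num)
  have e1 := (h1.eventually (gt_mem_nhds (show (0 : ℝ) < 1 / 64 by norm_num)))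
  have e2 := (h2.eventually (gt_mem_nhds (show (0 : ℝ) < 1 / 64 by norm_num)))
  filter_upwards [e1, e2] with n hn1 hn2
  have h3 : (⌊c ^ n⌋₊ : ℝ) ≤ c ^ n := Nat.floor_le (by positivity)
  have h4 : (0 : ℝ) < 2 ^ n := by positivity
  push_cast
  rw [div_pow, pow_one] at hn1
  rw [one_div, inv_pow] at hn2
  have h5 : (n : ℝ) * ⌊c ^ n⌋₊ ≤ n * c ^ n := mul_le_mul_of_nonneg_left h3 (Nat.cast_nonneg _)
  have h6 : (n : ℝ) * c ^ n < 1 / 64 * 2 ^ n := by
    rw [← mul_div_assoc, div_lt_iff₀ h4] at hn1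
    exact hn1
  have h7 : 1 < 1 / 64 * (2 : ℝ) ^ n := by
    rw [inv_lt_iff_one_lt_mul₀ h4] at hn2
    linarith
  have h8 : 4 * (4 / (2 : ℝ) ^ n) * (2 * n * ⌊c ^ n⌋₊ + 1) =
      (16 * (2 * n * ⌊c ^ n⌋₊ + 1)) / 2 ^ n := by ring
  rw [h8, div_le_one h4]
  nlinarith

/-- For every c in (1,2) there is n0 such that for n ≥ n0 every n-uniform finite hypergraph with all degrees at most c^n has a red set of exactly half (floor) of its vertices such that no edge is all red or all blue. -/
theorem result :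
    ∀ c : ℝ, 1 < c → c < 2 →
      ∃ n₀ : ℕ, ∀ n : ℕ, n₀ ≤ n →
        ∀ F : Finset (Finset ℕ),
          (∀ A ∈ F, A.card = n) →
          (∀ v : ℕ, ((F.filter (fun A => v ∈ A)).card : ℝ) ≤ c ^ n) →
          ∃ R : Finset ℕ, R ⊆ F.biUnion id ∧
            R.card = (F.biUnion id).card / 2 ∧
            ∀ A ∈ F, (A ∩ R).Nonempty ∧ ¬ A ⊆ R := by
  intro c hc1 hc2
  obtain ⟨n₀, hn₀⟩ := eventually_atTop.1 (eventually_small c hc1 hc2)
  refine ⟨max n₀ 1, fun n hn F hcard hdeg => ?_⟩
  have hn1 : 1 ≤ n := le_trans (le_max_right _ _) hn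
  set V := F.biUnion id with hV
  set k := V.card / 2 with hk
  -- the pairing
  obtain ⟨V', hV'sub, hV'card⟩ := exists_subset_card_eq (show 2 * k ≤ V.card by omega)
  have hcardeq : Fintype.card (Fin k × Bool) = Fintype.card V' := by
    rw [Fintype.card_prod, Fintype.card_fin, Fintype.card_bool, Fintype.card_coe, hV'card, mul_comm]
  let φ := Fintype.equivOfCardEq hcardeq
  let f : Fin k × Bool → ℕ := fun x => (φ x : ℕ)
  have hf : Function.Injective f := fun x y h => φ.injective (Subtype.ext h)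
  have hfmem : ∀ x, f x ∈ V' := fun x => (φ x).2
  have hfsurj : ∀ v ∈ V', ∃ x, f x = v := fun v hv => ⟨φ.symm ⟨v, hv⟩, by simp [f]⟩
  obtain ⟨R, hR1, hR2, hR3⟩ := core n k ⌊c ^ n⌋₊ hn1 F f hf hcard (by
    intro A hA
    have h1 : A.filter (fun v => ∀ x, f x ≠ v) ⊆ V \ V' := by
      intro v hv
      rw [mem_filter] at hv
      refine Finset.mem_sdiff.2 ⟨mem_biUnion.2 ⟨A, hA, hv.1⟩, fun hv' => ?_⟩
      obtain ⟨x, hx⟩ := hfsurj v hv'
      exact hv.2 x hx
    have h2 := card_le_card h1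
    have h3 := card_sdiff_add_card_eq_card hV'sub
    omega) (fun v => Nat.le_floor (hdeg v)) (hn₀ n (le_trans (le_max_left _ _) hn))
  refine ⟨R, ?_, hR2, hR3⟩
  intro v hv
  obtain ⟨x, rfl⟩ := hR1 v hv
  exact hV'sub (hfmem x)

end Pool.Agent.S07181
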