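import Pool.Statements.S07201
import Pool.Agent.TH385.KK.Mono

set_option autoImplicit false
open Pool Pool.MP_0f2fd5_co

namespace Pool.Agent.S07201

/-- For every L>0 there are L',δ>0 such that any up-set A in the n-cube with density α≤1/2 and edge boundary ≤ L∣A∣log₂(2^n/∣A∣) has a subcube fixing some coordinates to 1, of measure ≥ α^L', in which A has density ≥ (1+δ)α. -/
theorem result :
    ∀ L : ℝ, 0 < L → ∃ L' δ : ℝ, 0 < L' ∧ 0 < δ ∧
      ∀ n : ℕ, ∀ A : Finset (Finset (Fin n)),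
        IsUpperSet (A : Set (Finset (Fin n))) →
        (A.card : ℝ) / 2 ^ n ≤ 1 / 2 →
        (((A ×ˢ (Finset.univ : Finset (Fin n))).filter
            (fun p => symmDiff p.1 {p.2} ∉ A)).card : ℝ)
          ≤ L * (A.card : ℝ) * Real.logb 2 ((2 : ℝ) ^ n / (A.card : ℝ)) →
        ∃ T : Finset (Fin n),
          ((A.card : ℝ) / 2 ^ n) ^ L' ≤ (1 / 2 : ℝ) ^ T.card ∧
          (1 + δ) * ((A.card : ℝ) / 2 ^ n)
            ≤ ((A.filter (fun S => T ⊆ S)).card : ℝ) / (2 : ℝ) ^ (n - T.card) := by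
  intro L hL
  have hlog2 : 0 < Real.log 2 := Real.log_pos (by norm_num)
  have hL0 : 1 ≤ 2 * (1 + L / Real.log 2) := by
    have : 0 < L / Real.log 2 := by positivity
    linarith
  have hL' : 0 < 2 * (1 + L / Real.log 2)
      / Pool.Agent.TH385.KK.epsL (2 * (1 + L / Real.log 2)) :=
    div_pos (by linarith) (Pool.Agent.TH385.KK.epsL_pos hL0)
  refine ⟨2 * (1 + L / Real.log 2) / Pool.Agent.TH385.KK.epsL (2 * (1 + L / Real.log 2)),
    2 / 5, hL', by norm_num, ?_⟩
  intro n A hup hhalf hbd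
  rcases A.eq_empty_or_nonempty with rfl | hne
  · refine ⟨∅, ?_, ?_⟩
    · simp [Real.zero_rpow hL'.ne']
    · simp
  · rw [Pool.Agent.TH385.KK.bd_tr] at hbd
    have hne' : (Pool.Agent.TH385.KK.tr A).Nonempty := by
      rw [← Finset.card_pos, Pool.Agent.TH385.KK.card_tr]
      exact Finset.card_pos.2 hne
    obtain ⟨F, c, h1, h2⟩ := Pool.Agent.TH385.KK.kk_main (ι := Fin n) hL hne'
      (by rw [Fintype.card_fin, Pool.Agent.TH385.KK.card_tr]; exact hhalf)
      (by rw [Fintype.card_fin, Pool.Agent.TH385.KK.card_tr]; exact hbd)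
    rw [Fintype.card_fin, Pool.Agent.TH385.KK.card_tr] at h1 h2
    refine ⟨Fᶜ, h1, h2.trans ?_⟩
    have hcard : n - (Fᶜ).card = F.card := by
      rw [Finset.card_compl, Fintype.card_fin]
      have := Finset.card_le_univ F
      rw [Fintype.card_fin] at this
      omega
    rw [hcard]
    apply div_le_div_of_nonneg_right _ (by positivity)
    exact_mod_cast Pool.Agent.TH385.KK.up_card hup F c

end Pool.Agent.S07201
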