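import Pool.Statements.S07316
import Pool.Agent.TH470.QuasiFinal

set_option autoImplicit false
open Pool Pool.MP_150b74_co

namespace Pool.Agent.S07316

/-- The negation of the preceding statement: For r≥3, q≥2, ε>0 there is D such that for every ρ in [0,1]^q with sum below q−ε, some C gives, for all k≥1, an n with ln n ≤ C·k^D where every q-colouring of r-sets of [n] has an S of size ≥k and colour j with min colour-j degree in S ≥ ρ_j·C(∣S∣−1,r−1). -/
theorem result :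
    ¬ (∀ r q : ℕ, 3 ≤ r → 2 ≤ q → ∀ ε : ℝ, 0 < ε →
      ∃ D : ℝ, ∀ ρ : Fin q → ℝ, (∀ i, 0 ≤ ρ i ∧ ρ i ≤ 1) → ∑ i, ρ i < (q : ℝ) - ε →
        ∃ C : ℝ, ∀ k : ℕ, 1 ≤ k → ∃ n : ℕ, Real.log (n : ℝ) ≤ C * (k : ℝ) ^ D ∧
          ∀ φ : Finset (Fin n) → Fin q, ∃ S : Finset (Fin n), k ≤ S.card ∧ ∃ j : Fin q,
            ∀ v ∈ S, ρ j * (((S.card - 1).choose (r - 1) : ℕ) : ℝ) ≤
              (((S.powersetCard r).filter (fun e => v ∈ e ∧ φ e = j)).card : ℝ)) := by
  intro h
  obtain ⟨D, hD⟩ := h 4 2 (by norm_num) (by norm_num) (1 / 100) (by norm_num)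
  obtain ⟨C, hC⟩ := hD ![(1 : ℝ), 69 / 70] (by
    intro i
    fin_cases i
    · simp
    · constructor
      · simp only [Fin.mk_one, Matrix.cons_val_one, Matrix.cons_val_fin_one]
        norm_num
      · simp only [Fin.mk_one, Matrix.cons_val_one, Matrix.cons_val_fin_one]
        norm_num) (by
    rw [Fin.sum_univ_two]
    simp only [Matrix.cons_val_zero, Matrix.cons_val_one, Matrix.cons_val_fin_one]
    norm_num)
  obtain ⟨j, hj⟩ := Pool.Agent.TH470.growth C D
  obtain ⟨n, hn, hφ⟩ := hC (8 * (2 * j + 2)) (by omega)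
  have hlt : n ≤ 2 ^ 2 ^ j := by
    by_contra hcon
    push Not at hcon
    have h1 : ((2 : ℝ) ^ 2 ^ j) ≤ (n : ℝ) := by exact_mod_cast hcon.le
    have h2 := Real.log_le_log (by positivity) h1
    linarith
  obtain ⟨χ, hχ⟩ := Pool.Agent.TH470.exists_chi j
  obtain ⟨S, hS, c, hc⟩ := hφ (Pool.Agent.TH470.col χ n)
  obtain ⟨v, hv, hlt'⟩ := Pool.Agent.TH470.main hχ hlt S hS c
  have := hc v hv
  simp only [show 4 - 1 = 3 by norm_num] at this
  linarith

end Pool.Agent.S07316
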