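import Pool.Statements.S07351

set_option autoImplicit false
open Pool Pool.MP_16ad2f_co

namespace Pool.Agent.S07351

open Finset

/-- The subset on which a function takes the value `-1`. -/
def neg {G : Type} [Fintype G] [DecidableEq G] (F : G → ℤ) : Finset G :=
  Finset.univ.filter (fun g => F g = -1)

lemma mem_neg {G : Type} [Fintype G] [DecidableEq G] (F : G → ℤ) (g : G) :
    g ∈ neg F ↔ F g = -1 := by
  simp [neg]

/-- Counting pairs through the indicator functions. -/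
lemma count_pairs {G : Type} [Group G] [Fintype G] [DecidableEq G] (F H : G → ℤ)
    (hF : ∀ g, F g = 1 ∨ F g = -1) (hH : ∀ g, H g = 1 ∨ H g = -1) (g : G) :
    4 * ((((neg F ×ˢ neg H).filter (fun p : G × G => p.1 * p.2⁻¹ = g)).card : ℕ) : ℤ)
      = (Fintype.card G : ℤ) - ∑ x, F x - ∑ x, H x + ∑ x, F (g * x) * H x := by
  have h1 : ((neg F ×ˢ neg H).filter (fun p : G × G => p.1 * p.2⁻¹ = g)).card
      = (Finset.univ.filter (fun x : G => F (g * x) = -1 ∧ H x = -1)).card := by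
    apply Finset.card_bij' (fun p _ => p.2) (fun x _ => (g * x, x))
    · intro p hp
      simp only [Finset.mem_filter, Finset.mem_product, mem_neg] at hp
      simp only [Finset.mem_filter, Finset.mem_univ, true_and]
      have : p.1 = g * p.2 := by rw [← hp.2]; group
      rw [← this]; exact hp.1
    · intro x hx
      simp only [Finset.mem_filter, Finset.mem_univ, true_and] at hx
      simp only [Finset.mem_filter, Finset.mem_product, mem_neg]
      exact ⟨hx, by group⟩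
    · intro p hp
      simp only [Finset.mem_filter, Finset.mem_product, mem_neg] at hp
      have : p.1 = g * p.2 := by rw [← hp.2]; group
      ext <;> simp [this]
    · intro x hx
      rfl
  rw [h1, Finset.card_filter]
  push_cast
  rw [Finset.mul_sum]
  have h2 : ∑ x, F x = ∑ x, F (g * x) := by
    symm
    exact Fintype.sum_equiv (Equiv.mulLeft g) _ _ (fun x => rfl)
  rw [h2]
  have h3 : (Fintype.card G : ℤ) = ∑ _x : G, (1 : ℤ) := by simp
  rw [h3, ← Finset.sum_sub_distrib, ← Finset.sum_sub_distrib, ← Finset.sum_add_distrib]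
  apply Finset.sum_congr rfl
  intro x _
  rcases hF (g * x) with h | h <;> rcases hH x with h' | h' <;> simp [h, h']

/-- Counting elements through the indicator function. -/
lemma count_neg {G : Type} [Fintype G] [DecidableEq G] (F : G → ℤ)
    (hF : ∀ g, F g = 1 ∨ F g = -1) :
    2 * ((neg F).card : ℤ) = (Fintype.card G : ℤ) - ∑ x, F x := by
  rw [neg, Finset.card_filter]
  push_cast
  rw [Finset.mul_sum]
  have h3 : (Fintype.card G : ℤ) = ∑ _x : G, (1 : ℤ) := by simp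
  rw [h3, ← Finset.sum_sub_distrib]
  apply Finset.sum_congr rfl
  intro x _
  rcases hF x with h | h <;> simp [h]

section main

set_option linter.unusedSectionVars false

variable {K : Type} [CommGroup K] [Fintype K] [DecidableEq K]

/-- first function: attached to the subgroups `K × 1` and `1 × K` -/
def fA (f : K → ℤ) (p : K × K) : ℤ := f (p.1⁻¹) * f p.2
/-- second function: attached to the diagonal and `1 × K` -/
def fB (f : K → ℤ) (p : K × K) : ℤ := f (p.1⁻¹) * f (p.1⁻¹ * p.2)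
/-- third function: attached to `K × 1` and the diagonal -/
def fC (f : K → ℤ) (p : K × K) : ℤ := f (p.1⁻¹ * p.2) * f p.2
/-- the third function composed with inversion -/
def fC' (f : K → ℤ) (p : K × K) : ℤ := f (p.2⁻¹) * f (p.2⁻¹ * p.1)

lemma pm_mul {a b : ℤ} (ha : a = 1 ∨ a = -1) (hb : b = 1 ∨ b = -1) :
    a * b = 1 ∨ a * b = -1 := by
  rcases ha with h | h <;> rcases hb with h' | h' <;> simp [h, h']

lemma sum_inv (F : K → ℤ) : ∑ x, F x⁻¹ = ∑ x, F x :=
  Fintype.sum_equiv (Equiv.inv K) _ _ (fun _ => rfl)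

lemma sum_shift (F : K → ℤ) (c : K) : ∑ x, F (c * x) = ∑ x, F x :=
  Fintype.sum_equiv (Equiv.mulLeft c) _ _ (fun _ => rfl)

variable (f : K → ℤ)

lemma sum_A : ∑ p, fA f p = (∑ x, f x) * (∑ x, f x) := by
  rw [Fintype.sum_prod_type]
  simp only [fA]
  rw [Finset.sum_mul_sum, sum_inv (fun x => ∑ y, f x * f y)]

lemma sum_B : ∑ p, fB f p = (∑ x, f x) * (∑ x, f x) := by
  rw [Fintype.sum_prod_type]
  simp only [fB]
  rw [Finset.sum_mul_sum, ← sum_inv (fun x => ∑ y, f x * f y)]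
  apply Finset.sum_congr rfl
  intro x _
  exact sum_shift (fun y => f x⁻¹ * f y) x⁻¹

lemma sum_C' : ∑ p, fC' f p = (∑ x, f x) * (∑ x, f x) := by
  rw [Fintype.sum_prod_type_right]
  simp only [fC']
  rw [Finset.sum_mul_sum, ← sum_inv (fun x => ∑ y, f x * f y)]
  apply Finset.sum_congr rfl
  intro x _
  exact sum_shift (fun y => f x⁻¹ * f y) x⁻¹

lemma sum_C : ∑ p, fC f p = (∑ x, f x) * (∑ x, f x) := by
  rw [Fintype.sum_prod_type_right]
  simp only [fC]
  rw [Finset.sum_mul_sum, Finset.sum_comm]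
  rw [Finset.sum_comm]
  apply Finset.sum_congr rfl
  intro y _
  calc ∑ x, f (x⁻¹ * y) * f y = ∑ x, f (x * y) * f y := sum_inv (fun x => f (x * y) * f y)
    _ = ∑ x, f (y * x) * f y := by simp only [mul_comm]
    _ = ∑ x, f x * f y := sum_shift (fun x => f x * f y) y
    _ = ∑ x, f y * f x := by simp only [mul_comm]

variable (hr : ∀ g : K, ∑ x, f (g * x) * f x = if g = 1 then 36 else 0)

include hr

lemma corr_inv (g : K) : ∑ x, f (g * x⁻¹) * f x⁻¹ = if g = 1 then 36 else 0 := by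
  rw [sum_inv (fun x => f (g * x) * f x)]
  exact hr g

lemma corr_A (g : K × K) : ∑ x, fA f (g * x) * fA f x =
    (if g.1⁻¹ = 1 then 36 else 0) * (if g.2 = 1 then 36 else 0) := by
  rw [Fintype.sum_prod_type]
  simp only [fA, Prod.fst_mul, Prod.snd_mul]
  rw [← corr_inv f hr g.1⁻¹, ← hr g.2, Finset.sum_mul_sum]
  apply Finset.sum_congr rfl
  intro x _
  apply Finset.sum_congr rfl
  intro y _
  rw [mul_inv]
  ring

lemma corr_B (g : K × K) : ∑ x, fB f (g * x) * fB f x =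
    (if g.1⁻¹ = 1 then 36 else 0) * (if g.1⁻¹ * g.2 = 1 then 36 else 0) := by
  rw [Fintype.sum_prod_type]
  simp only [fB, Prod.fst_mul, Prod.snd_mul]
  rw [← corr_inv f hr g.1⁻¹, ← hr (g.1⁻¹ * g.2), Finset.sum_mul_sum]
  apply Finset.sum_congr rfl
  intro x _
  rw [← sum_shift (fun y => f (g.1⁻¹ * x⁻¹) * f x⁻¹ * (f (g.1⁻¹ * g.2 * y) * f y)) x⁻¹]
  apply Finset.sum_congr rfl
  intro y _
  have h1 : (g.1 * x)⁻¹ = g.1⁻¹ * x⁻¹ := by rw [mul_inv]
  have h2 : g.1⁻¹ * x⁻¹ * (g.2 * y) = g.1⁻¹ * g.2 * (x⁻¹ * y) := by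
    rw [mul_assoc, mul_assoc, mul_left_comm x⁻¹ g.2 y]
  rw [h1, h2]
  ring

lemma corr_C (g : K × K) : ∑ x, fC f (g * x) * fC f x =
    (if g.1⁻¹ * g.2 = 1 then 36 else 0) * (if g.2 = 1 then 36 else 0) := by
  rw [Fintype.sum_prod_type_right]
  simp only [fC, Prod.fst_mul, Prod.snd_mul]
  rw [mul_comm, ← hr (g.1⁻¹ * g.2), ← hr g.2, Finset.sum_mul_sum]
  apply Finset.sum_congr rfl
  intro y _
  rw [← sum_shift (fun x => f (g.2 * y) * f y * (f (g.1⁻¹ * g.2 * x) * f x)) y]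
  rw [← sum_inv (fun x => f (g.2 * y) * f y * (f (g.1⁻¹ * g.2 * (y * x)) * f (y * x)))]
  apply Finset.sum_congr rfl
  intro x _
  have h2 : (g.1 * x)⁻¹ * (g.2 * y) = g.1⁻¹ * g.2 * (y * x⁻¹) := by
    rw [mul_inv, mul_assoc, mul_assoc, mul_left_comm x⁻¹ g.2 y, mul_comm x⁻¹ y]
  rw [h2, mul_comm x⁻¹ y]
  ring

lemma corr_C' (g : K × K) : ∑ x, fC' f (g * x) * fC' f x =
    (if g.2⁻¹ = 1 then 36 else 0) * (if g.2⁻¹ * g.1 = 1 then 36 else 0) := by
  rw [Fintype.sum_prod_type_right]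
  simp only [fC', Prod.fst_mul, Prod.snd_mul]
  rw [← corr_inv f hr g.2⁻¹, ← hr (g.2⁻¹ * g.1), Finset.sum_mul_sum]
  apply Finset.sum_congr rfl
  intro x _
  rw [← sum_shift (fun y => f (g.2⁻¹ * x⁻¹) * f x⁻¹ * (f (g.2⁻¹ * g.1 * y) * f y)) x⁻¹]
  apply Finset.sum_congr rfl
  intro y _
  have h1 : (g.2 * x)⁻¹ = g.2⁻¹ * x⁻¹ := by rw [mul_inv]
  have h2 : g.2⁻¹ * x⁻¹ * (g.1 * y) = g.2⁻¹ * g.1 * (x⁻¹ * y) := by
    rw [mul_assoc, mul_assoc, mul_left_comm x⁻¹ g.1 y]
  rw [h1, h2]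
  ring

/-- The linking identity. -/
lemma corr_AB (g : K × K) : ∑ x, fA f (g * x) * fB f x = 36 * fC f g := by
  rw [Fintype.sum_prod_type]
  simp only [fA, fB, fC, Prod.fst_mul, Prod.snd_mul]
  have h : ∀ x : K, ∑ y, f ((g.1 * x)⁻¹) * f (g.2 * y) * (f x⁻¹ * f (x⁻¹ * y))
      = (if x = g.2⁻¹ then 36 * (f (g.1⁻¹ * g.2) * f g.2) else 0) := by
    intro x
    have h1 : ∑ y, f ((g.1 * x)⁻¹) * f (g.2 * y) * (f x⁻¹ * f (x⁻¹ * y))
        = f ((g.1 * x)⁻¹) * f x⁻¹ * ∑ y, f ((g.2 * x) * y) * f y := by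
      rw [Finset.mul_sum, ← sum_shift
        (fun y => f ((g.1 * x)⁻¹) * f x⁻¹ * (f ((g.2 * x) * y) * f y)) x⁻¹]
      apply Finset.sum_congr rfl
      intro y _
      have : g.2 * x * (x⁻¹ * y) = g.2 * y := by rw [mul_assoc, mul_inv_cancel_left]
      rw [this]; ring
    rw [h1, hr]
    by_cases hx : x = g.2⁻¹
    · subst hx
      simp only [mul_inv_cancel, if_true, mul_inv, inv_inv]
      ring
    · have : ¬ g.2 * x = 1 := fun h => hx (eq_inv_of_mul_eq_one_right h)
      rw [if_neg this, if_neg hx, mul_zero]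
  rw [Finset.sum_congr rfl (fun x _ => h x), Finset.sum_ite_eq' Finset.univ g.2⁻¹]
  simp

lemma corr_BA (g : K × K) : ∑ x, fB f (g * x) * fA f x = 36 * fC' f g := by
  rw [Fintype.sum_prod_type]
  simp only [fA, fB, fC', Prod.fst_mul, Prod.snd_mul]
  have h : ∀ x : K, ∑ y, f ((g.1 * x)⁻¹) * f ((g.1 * x)⁻¹ * (g.2 * y)) * (f x⁻¹ * f y)
      = (if x = g.1⁻¹ * g.2 then 36 * (f g.2⁻¹ * f (g.2⁻¹ * g.1)) else 0) := by
    intro x
    have h1 : ∑ y, f ((g.1 * x)⁻¹) * f ((g.1 * x)⁻¹ * (g.2 * y)) * (f x⁻¹ * f y)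
        = f ((g.1 * x)⁻¹) * f x⁻¹ * ∑ y, f (((g.1 * x)⁻¹ * g.2) * y) * f y := by
      rw [Finset.mul_sum]
      apply Finset.sum_congr rfl
      intro y _
      rw [mul_assoc (g.1 * x)⁻¹ g.2 y]; ring
    rw [h1, hr]
    by_cases hx : x = g.1⁻¹ * g.2
    · subst hx
      have e1 : g.1 * (g.1⁻¹ * g.2) = g.2 := by rw [mul_inv_cancel_left]
      have e2 : (g.1⁻¹ * g.2)⁻¹ = g.2⁻¹ * g.1 := by rw [mul_inv_rev, inv_inv]
      rw [e1, e2, inv_mul_cancel, if_pos rfl, if_pos rfl]
      ring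
    · have : ¬ (g.1 * x)⁻¹ * g.2 = 1 := by
        intro h
        apply hx
        have := inv_mul_eq_one.mp h
        rw [← this, inv_mul_cancel_left]
      rw [if_neg this, if_neg hx, mul_zero]
  rw [Finset.sum_congr rfl (fun x _ => h x), Finset.sum_ite_eq' Finset.univ (g.1⁻¹ * g.2)]
  simp

end main

/-- The `36`-element group used as a building block. -/
abbrev KK : Type := Multiplicative ((ZMod 2 × ZMod 2) × (ZMod 3 × ZMod 3))

/-- The signed function of a Menon difference set in `KK`. -/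
def f0 (k : KK) : ℤ :=
  let e := (Multiplicative.toAdd k).1
  let x := (Multiplicative.toAdd k).2
  if e = (0, 0) then (if x.1 = 0 then -1 else 1)
  else if e = (0, 1) then (if x.2 = 0 then -1 else 1)
  else if e = (1, 0) then (if x.1 = x.2 then -1 else 1)
  else (if x.1 = - x.2 then 1 else -1)

lemma f0_pm (k : KK) : f0 k = 1 ∨ f0 k = -1 := by
  unfold f0
  simp only
  split_ifs <;> simp

set_option maxRecDepth 100000 in
lemma f0_sum : ∑ k, f0 k = 6 := by
  decide +kernel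

set_option maxRecDepth 100000 in
lemma f0_corr : ∀ g : KK, ∑ x, f0 (g * x) * f0 x = if g = 1 then 36 else 0 := by
  decide +kernel

/-- The difference-set property for the `-1`-set of a signed function with flat autocorrelation. -/
lemma ds_of_corr {G : Type} [Group G] [Fintype G] [DecidableEq G] (F : G → ℤ)
    (hF : ∀ g, F g = 1 ∨ F g = -1) (hc : Fintype.card G = 1296) (hs : ∑ x, F x = 36)
    (hcorr : ∀ g, g ≠ 1 → ∑ x, F (g * x) * F x = 0) :
    (neg F).card = 630 ∧ ∀ g : G, g ≠ 1 →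
      ((neg F ×ˢ neg F).filter (fun p : G × G => p.1 * p.2⁻¹ = g)).card = 306 := by
  constructor
  · have := count_neg F hF
    rw [hs, hc] at this
    push_cast at this
    omega
  · intro g hg
    have := count_pairs F F hF hF g
    rw [hs, hc, hcorr g hg] at this
    push_cast at this
    omega

lemma card_GG : Fintype.card (KK × KK) = 1296 := by
  simp [Fintype.card_prod, ZMod.card]

/-- Some finite group whose order is not a power of 2 contains ℓ≥2 distinct nontrivial (v,k,λ) difference sets D_i and integers μ,ν such that each D_i D_j^(-1) (i≠j) equals (μ−ν)E+νG for some (v,k,λ) difference set E. -/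
theorem result :
    ∃ (G : Type) (_ : Group G) (_ : Fintype G) (_ : DecidableEq G),
      (¬ ∃ m : ℕ, Fintype.card G = 2 ^ m) ∧
      ∃ (ℓ : ℕ) (k lam : ℕ) (μ ν : ℤ) (D : Fin ℓ → Finset G),
        2 ≤ ℓ ∧ 2 ≤ k ∧ k + 2 ≤ Fintype.card G ∧ Function.Injective D ∧
        (∀ i : Fin ℓ, (D i).card = k ∧
          ∀ g : G, g ≠ 1 →
            ((D i ×ˢ D i).filter (fun p : G × G => p.1 * p.2⁻¹ = g)).card = lam) ∧
        ∀ i j : Fin ℓ, i ≠ j →
          ∃ E : Finset G, E.card = k ∧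
            (∀ g : G, g ≠ 1 →
              ((E ×ˢ E).filter (fun p : G × G => p.1 * p.2⁻¹ = g)).card = lam) ∧
            ∀ g : G,
              ((((D i ×ˢ D j).filter (fun p : G × G => p.1 * p.2⁻¹ = g)).card : ℕ) : ℤ)
                = (μ - ν) * (if g ∈ E then (1 : ℤ) else 0) + ν := by
  have hc : Fintype.card (KK × KK) = 1296 := card_GG
  have pA : ∀ g, fA f0 g = 1 ∨ fA f0 g = -1 := fun g => pm_mul (f0_pm _) (f0_pm _)
  have pB : ∀ g, fB f0 g = 1 ∨ fB f0 g = -1 := fun g => pm_mul (f0_pm _) (f0_pm _)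
  have pC : ∀ g, fC f0 g = 1 ∨ fC f0 g = -1 := fun g => pm_mul (f0_pm _) (f0_pm _)
  have pC' : ∀ g, fC' f0 g = 1 ∨ fC' f0 g = -1 := fun g => pm_mul (f0_pm _) (f0_pm _)
  have sA : ∑ p, fA f0 p = 36 := by rw [sum_A, f0_sum]; norm_num
  have sB : ∑ p, fB f0 p = 36 := by rw [sum_B, f0_sum]; norm_num
  have sC : ∑ p, fC f0 p = 36 := by rw [sum_C, f0_sum]; norm_num
  have sC' : ∑ p, fC' f0 p = 36 := by rw [sum_C', f0_sum]; norm_num
  have cA : ∀ g : KK × KK, g ≠ 1 → ∑ x, fA f0 (g * x) * fA f0 x = 0 := by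
    intro g hg
    rw [corr_A f0 f0_corr]
    by_cases h1 : g.1⁻¹ = 1
    · by_cases h2 : g.2 = 1
      · exact absurd (Prod.ext (inv_eq_one.mp h1) h2) hg
      · rw [if_neg h2, mul_zero]
    · rw [if_neg h1, zero_mul]
  have cB : ∀ g : KK × KK, g ≠ 1 → ∑ x, fB f0 (g * x) * fB f0 x = 0 := by
    intro g hg
    rw [corr_B f0 f0_corr]
    by_cases h1 : g.1⁻¹ = 1
    · by_cases h2 : g.1⁻¹ * g.2 = 1
      · rw [h1, one_mul] at h2
        exact absurd (Prod.ext (inv_eq_one.mp h1) h2) hg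
      · rw [if_neg h2, mul_zero]
    · rw [if_neg h1, zero_mul]
  have cC : ∀ g : KK × KK, g ≠ 1 → ∑ x, fC f0 (g * x) * fC f0 x = 0 := by
    intro g hg
    rw [corr_C f0 f0_corr]
    by_cases h1 : g.2 = 1
    · by_cases h2 : g.1⁻¹ * g.2 = 1
      · rw [h1, mul_one] at h2
        exact absurd (Prod.ext (inv_eq_one.mp h2) h1) hg
      · rw [if_neg h2, zero_mul]
    · rw [if_neg h1, mul_zero]
  have cC' : ∀ g : KK × KK, g ≠ 1 → ∑ x, fC' f0 (g * x) * fC' f0 x = 0 := by
    intro g hg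
    rw [corr_C' f0 f0_corr]
    by_cases h1 : g.2⁻¹ = 1
    · by_cases h2 : g.2⁻¹ * g.1 = 1
      · rw [h1, one_mul] at h2
        exact absurd (Prod.ext h2 (inv_eq_one.mp h1)) hg
      · rw [if_neg h2, mul_zero]
    · rw [if_neg h1, zero_mul]
  have dA := ds_of_corr (fA f0) pA hc sA cA
  have dB := ds_of_corr (fB f0) pB hc sB cB
  have dC := ds_of_corr (fC f0) pC hc sC cC
  have dC' := ds_of_corr (fC' f0) pC' hc sC' cC'
  have lAB : ∀ g : KK × KK,
      ((((neg (fA f0) ×ˢ neg (fB f0)).filter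
        (fun p : (KK × KK) × (KK × KK) => p.1 * p.2⁻¹ = g)).card : ℕ) : ℤ)
        = (297 - 315) * (if g ∈ neg (fC f0) then (1 : ℤ) else 0) + 315 := by
    intro g
    have := count_pairs (fA f0) (fB f0) pA pB g
    rw [hc, sA, sB, corr_AB f0 f0_corr] at this
    push_cast at this
    rcases pC g with h | h
    · have hn : g ∉ neg (fC f0) := by rw [mem_neg, h]; norm_num
      rw [if_neg hn]; rw [h] at this; omega
    · have hn : g ∈ neg (fC f0) := by rw [mem_neg, h]
      rw [if_pos hn]; rw [h] at this; omega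
  have lBA : ∀ g : KK × KK,
      ((((neg (fB f0) ×ˢ neg (fA f0)).filter
        (fun p : (KK × KK) × (KK × KK) => p.1 * p.2⁻¹ = g)).card : ℕ) : ℤ)
        = (297 - 315) * (if g ∈ neg (fC' f0) then (1 : ℤ) else 0) + 315 := by
    intro g
    have := count_pairs (fB f0) (fA f0) pB pA g
    rw [hc, sA, sB, corr_BA f0 f0_corr] at this
    push_cast at this
    rcases pC' g with h | h
    · have hn : g ∉ neg (fC' f0) := by rw [mem_neg, h]; norm_num
      rw [if_neg hn]; rw [h] at this; omega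
    · have hn : g ∈ neg (fC' f0) := by rw [mem_neg, h]
      rw [if_pos hn]; rw [h] at this; omega
  have hne : neg (fA f0) ≠ neg (fB f0) := by
    intro h
    have h1 := count_pairs (fA f0) (fA f0) pA pA 1
    have h2 := lAB 1
    rw [← h] at h2
    rw [h2, hc, sA] at h1
    have h3 : ∑ x, fA f0 (1 * x) * fA f0 x = 1296 := by
      rw [corr_A f0 f0_corr]; simp
    rw [h3] at h1
    split_ifs at h1 <;> norm_num at h1
  refine ⟨KK × KK, inferInstance, inferInstance, inferInstance, ?_, 2, 630, 306, 297, 315,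
    ![neg (fA f0), neg (fB f0)], le_refl _, by norm_num, by rw [hc]; norm_num, ?_, ?_, ?_⟩
  · rintro ⟨m, hm⟩
    rw [hc] at hm
    have h3 : 3 ∣ 2 ^ m := by rw [← hm]; norm_num
    have := Nat.Prime.dvd_of_dvd_pow Nat.prime_three h3
    omega
  · intro i j hij
    fin_cases i <;> fin_cases j
    · rfl
    · exact absurd hij hne
    · exact absurd hij.symm hne
    · rfl
  · intro i
    fin_cases i
    · exact dA
    · exact dB
  · intro i j hij
    fin_cases i <;> fin_cases j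
    · exact absurd rfl hij
    · exact ⟨neg (fC f0), dC.1, dC.2, lAB⟩
    · exact ⟨neg (fC' f0), dC'.1, dC'.2, lBA⟩
    · exact absurd rfl hij

end Pool.Agent.S07351
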