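import Pool.Statements.S07360
import Pool.Agent.TH440.LTC

set_option autoImplicit false
open Pool Pool.MP_16dc44_co

namespace Pool.Agent.S07360

/-- The negation of the preceding statement: For every finite simple graph and every k: if its vertices and edges can be properly total-coloured with k colours, then for any lists of at least k colours on each vertex and edge, there is a proper total colouring taken from the lists. -/
theorem result :
    ¬ (∀ (V : Type) [Fintype V] (G : SimpleGraph V) (k : ℕ),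
    (∃ c : V ⊕ G.edgeSet → Fin k,
      (∀ u v : V, G.Adj u v → c (Sum.inl u) ≠ c (Sum.inl v)) ∧
      (∀ e f : G.edgeSet, e ≠ f →
        (∃ v : V, v ∈ (e : Sym2 V) ∧ v ∈ (f : Sym2 V)) →
          c (Sum.inr e) ≠ c (Sum.inr f)) ∧
      (∀ (v : V) (e : G.edgeSet), v ∈ (e : Sym2 V) →
          c (Sum.inl v) ≠ c (Sum.inr e))) →
    ∀ L : V ⊕ G.edgeSet → Finset ℕ, (∀ x, k ≤ (L x).card) →
      ∃ c : V ⊕ G.edgeSet → ℕ,
        (∀ x, c x ∈ L x) ∧
        (∀ u v : V, G.Adj u v → c (Sum.inl u) ≠ c (Sum.inl v)) ∧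
        (∀ e f : G.edgeSet, e ≠ f →
          (∃ v : V, v ∈ (e : Sym2 V) ∧ v ∈ (f : Sym2 V)) →
            c (Sum.inr e) ≠ c (Sum.inr f)) ∧
        (∀ (v : V) (e : G.edgeSet), v ∈ (e : Sym2 V) →
            c (Sum.inl v) ≠ c (Sum.inr e))) := by
  intro H
  obtain ⟨c, hL, hv, he, hve⟩ := H (Fin 20) Pool.Agent.TH440.LTC.G 4
    ⟨Pool.Agent.TH440.LTC.c0, Pool.Agent.TH440.LTC.c0_vertex, Pool.Agent.TH440.LTC.c0_edge,
      Pool.Agent.TH440.LTC.c0_inc⟩ Pool.Agent.TH440.LTC.L Pool.Agent.TH440.LTC.L_card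
  exact Pool.Agent.TH440.LTC.no_list_colouring c hL hv he hve

end Pool.Agent.S07360
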