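import Pool.Statements.S07502
-- import your own Pool.Agent.* helpers here
import Pool.Agent.TH451.BK.Final

set_option autoImplicit false
open Pool Pool.MP_1d59ee_co

namespace Pool.Agent.S07502

/-- The negation of the preceding statement: For d≥3 and every finite graph G of max degree ≤d that is non-bipartite, d-colourable and not admitting K_d, there is a finite graph of max degree ≤d with no homomorphism to or from G. -/
theorem result :
    ¬ (∀ d : ℕ, 3 ≤ d →
      ∀ (V : Type) [Finite V] (G : SimpleGraph V),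
        (∀ v : V, (G.neighborSet v).ncard ≤ d) →
        Nonempty ((⊤ : SimpleGraph (Fin 2)) →g G) →
        IsEmpty (G →g (⊤ : SimpleGraph (Fin 2))) →
        Nonempty (G →g (⊤ : SimpleGraph (Fin d))) →
        IsEmpty ((⊤ : SimpleGraph (Fin d)) →g G) →
        ∃ (W : Type) (_ : Finite W) (H : SimpleGraph W),
          (∀ w : W, (H.neighborSet w).ncard ≤ d) ∧
          IsEmpty (G →g H) ∧ IsEmpty (H →g G)) := by
  intro hall
  obtain ⟨k, hk, hbk⟩ := Pool.Agent.TH451.BK.weak_bk
  -- homomorphisms between complete graphs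
  have hom : ∀ a b : ℕ, a ≤ b →
      Nonempty ((⊤ : SimpleGraph (Fin a)) →g (⊤ : SimpleGraph (Fin b))) := by
    intro a b hab
    refine ⟨⟨Fin.castLE hab, ?_⟩⟩
    intro x y hxy
    rw [SimpleGraph.top_adj] at hxy ⊢
    intro h
    exact hxy (Fin.castLE_injective hab h)
  have inj : ∀ (a : ℕ) (W : Type) (H : SimpleGraph W)
      (f : (⊤ : SimpleGraph (Fin a)) →g H), Function.Injective f := by
    intro a W H f x y hxy
    by_contra hne
    have h1 : (⊤ : SimpleGraph (Fin a)).Adj x y := by rw [SimpleGraph.top_adj]; exact hne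
    have h2 := f.map_adj h1
    rw [hxy] at h2
    exact H.loopless.irrefl _ h2
  have nohom : ∀ a b : ℕ, b < a →
      IsEmpty ((⊤ : SimpleGraph (Fin a)) →g (⊤ : SimpleGraph (Fin b))) := by
    intro a b hab
    refine ⟨fun f => ?_⟩
    have h1 := Fintype.card_le_of_injective f (inj a _ _ f)
    rw [Fintype.card_fin, Fintype.card_fin] at h1
    omega
  obtain ⟨W, hW, H, hdeg, h1, h2⟩ := hall (k + 1) (by omega) (Fin k) ⊤ (by
    intro v
    calc ((⊤ : SimpleGraph (Fin k)).neighborSet v).ncard ≤ (Set.univ : Set (Fin k)).ncard :=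
          Set.ncard_le_ncard (Set.subset_univ _) (Set.toFinite _)
      _ = k := by rw [Set.ncard_univ, Nat.card_fin]
      _ ≤ k + 1 := Nat.le_succ k) (hom 2 k (by omega)) (nohom k 2 (by omega))
    (hom k (k + 1) (by omega)) (nohom (k + 1) k (by omega))
  have hfree : H.CliqueFree k := by
    rw [SimpleGraph.cliqueFree_iff]
    refine ⟨fun e => ?_⟩
    exact h1.false e.toHom
  obtain ⟨c⟩ := hbk W H hdeg hfree
  exact h2.false c

end Pool.Agent.S07502
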