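import Pool.Statements.S07549
import Pool.Agent.TH455.PlanarPack

set_option autoImplicit false
open Pool Pool.MP_1ed552_co

namespace Pool.Agent.S07549

/-- For every finite triangle-free graph with no K5 or K3,3 minor (i.e. planar) and every assignment of 4-element colour lists, some weighted mix of proper list colourings gives each vertex each of its colours with probability exactly 1/4. -/
theorem result :
  ∀ (V : Type) [Fintype V] (G : SimpleGraph V),
    G.CliqueFree 3 →
    (¬ ∃ f : Fin 5 → Set V,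
        (∀ i, (G.induce (f i)).Connected) ∧
        (∀ i j, i ≠ j → Disjoint (f i) (f j)) ∧
        (∀ i j, i ≠ j → ∃ a ∈ f i, ∃ b ∈ f j, G.Adj a b)) →
    (¬ ∃ f : Bool × Fin 3 → Set V,
        (∀ i, (G.induce (f i)).Connected) ∧
        (∀ i j, i ≠ j → Disjoint (f i) (f j)) ∧
        (∀ i j, i.1 ≠ j.1 → ∃ a ∈ f i, ∃ b ∈ f j, G.Adj a b)) →
    ∀ L : V → Finset ℕ, (∀ v, (L v).card = 4) →
      ∃ (n : ℕ) (c : Fin n → V → ℕ) (w : Fin n → ℝ),
        (∀ i, 0 ≤ w i) ∧
        (∀ i v, c i v ∈ L v) ∧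
        (∀ i u v, G.Adj u v → c i u ≠ c i v) ∧
        ∀ v, ∀ x ∈ L v,
          ∑ i ∈ Finset.univ.filter (fun i => c i v = x), w i = 1 / 4 := by
  intro V _ G hfree h5 h33 L hL
  classical
  obtain ⟨c, hc1, hc2, hc3, hc4⟩ := Pool.Agent.TH455.pack_list G
    (Pool.Agent.TH455.free_sparse hfree ⟨h5, h33⟩) L hL
  refine ⟨4, c, fun _ => 1 / 4, fun _ => by norm_num, hc1, hc2, ?_⟩
  intro v x hx
  obtain ⟨i, hi⟩ := hc4 v x hx
  have hfil : Finset.univ.filter (fun j => c j v = x) = {i} := by
    ext j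
    simp only [Finset.mem_filter, Finset.mem_univ, true_and, Finset.mem_singleton]
    constructor
    · intro hj
      by_contra hne
      exact hc3 v j i hne (hj.trans hi.symm)
    · rintro rfl
      exact hi
  rw [hfil, Finset.sum_singleton]

end Pool.Agent.S07549
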