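import Pool.Statements.S07559
-- import your own Pool.Agent.* helpers here
import Pool.Agent.TH993.KA.Odd
import Pool.Agent.W264.AV.Even
import Pool.Agent.S10033

set_option autoImplicit false
open Pool Pool.MP_1f0ce0_co

namespace Pool.Agent.S07559

open Pool.Agent.H598R3 Pool.Agent.S10033

/-- the vectors orthogonal to `w` -/
def hyp {F : Type} [Field F] (w : Fin 3 → F) : Submodule F (Fin 3 → F) where
  carrier := {v | ∑ i, v i * w i = 0}
  add_mem' := by
    intro a b ha hb
    have ha' : ∑ i, a i * w i = 0 := ha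
    have hb' : ∑ i, b i * w i = 0 := hb
    have : ∑ i, (a + b) i * w i = ∑ i, a i * w i + ∑ i, b i * w i := by
      rw [← Finset.sum_add_distrib]
      apply Finset.sum_congr rfl
      intro i _
      simp only [Pi.add_apply]; ring
    show ∑ i, (a + b) i * w i = 0
    rw [this, ha', hb', add_zero]
  zero_mem' := by
    show ∑ i, (0 : Fin 3 → F) i * w i = 0
    simp
  smul_mem' := by
    intro c a ha
    have ha' : ∑ i, a i * w i = 0 := ha
    have : ∑ i, (c • a) i * w i = c * ∑ i, a i * w i := by
      rw [Finset.mul_sum]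
      apply Finset.sum_congr rfl
      intro i _
      simp only [Pi.smul_apply, smul_eq_mul]; ring
    show ∑ i, (c • a) i * w i = 0
    rw [this, ha', mul_zero]

lemma finrank_hyp {F : Type} [Field F] (w : Fin 3 → F) (hw : w ≠ 0) :
    Module.finrank F (hyp w) = 2 := by
  set f : (Fin 3 → F) →ₗ[F] F := ∑ i, (w i) • LinearMap.proj i with hf
  have hfa : ∀ v, f v = ∑ i, v i * w i := by
    intro v
    rw [hf, LinearMap.sum_apply]
    apply Finset.sum_congr rfl
    intro i _
    simp only [LinearMap.smul_apply, LinearMap.proj_apply, smul_eq_mul]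
    ring
  have hf0 : f ≠ 0 := by
    intro h
    apply hw
    ext j
    have h1 : f (Pi.single j 1) = 0 := by rw [h]; rfl
    rw [hfa, Finset.sum_eq_single j] at h1
    · simpa using h1
    · intro i _ hij
      rw [Pi.single_eq_of_ne hij, zero_mul]
    · intro h2; exact absurd (Finset.mem_univ _) h2
  have hk : hyp w = LinearMap.ker f := by
    ext v
    rw [LinearMap.mem_ker, hfa]
    rfl
  rw [hk]
  have h1 := LinearMap.finrank_range_add_finrank_ker f
  rw [Module.finrank_fin_fun] at h1
  have h2 : Module.finrank F (LinearMap.range f) = 1 := by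
    have h3 : LinearMap.range f = ⊤ := LinearMap.range_eq_top.2 (LinearMap.surjective hf0)
    rw [h3, finrank_top, Module.finrank_self]
  omega

lemma all_sizes' {F : Type} [Field F] [Fintype F] [DecidableEq F] (k m : ℕ)
    (h1 : 10 ^ 51 * Real.log ((Fintype.card F : ℕ) : ℝ) ≤ (k : ℝ))
    (h2 : (k : ℝ) ≤ ((Fintype.card F : ℕ) : ℝ) + 1 -
      10 ^ 51 * Real.log ((Fintype.card F : ℕ) : ℝ))
    (hm : m ≤ Fintype.card F ^ 2 + Fintype.card F + 1) : Sz F k m := by
  have hq2 : 2 ≤ Fintype.card F := Fintype.one_lt_card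
  have hq2' : (2 : ℝ) ≤ (Fintype.card F : ℝ) := by exact_mod_cast hq2
  have hlog2 : (0.69 : ℝ) < Real.log 2 := by
    have := Real.log_two_gt_d9; linarith
  have hlog : (0.69 : ℝ) < Real.log ((Fintype.card F : ℕ) : ℝ) :=
    lt_of_lt_of_le hlog2 (Real.log_le_log (by norm_num) hq2')
  by_cases hc : ringChar F = 2
  · haveI : CharP F 2 := by
      have := ringChar.charP F
      rwa [hc] at this
    exact Pool.Agent.W264.AV.all_even k (by linarith) (by linarith) m hm
  · have hq : (10 : ℝ) ^ 50 ≤ Fintype.card F := by linarith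
    apply Pool.Agent.TH993.KA.all_odd hc hq k m _ _ hm
    · have : (70 : ℝ) ≤ k := by linarith
      exact_mod_cast this
    · have : (k : ℝ) + 70 ≤ Fintype.card F + 1 := by linarith
      exact_mod_cast this

/-- There is c>0 such that for every finite field of order q and every k with c log q ≤ k ≤ q+1−c log q, every size 0..q²+q+1 is the size of a point set in PG(2,q) that no line meets in exactly k points. -/
theorem result :
    ∃ c : ℝ, 0 < c ∧ ∀ (F : Type) [Field F] [Fintype F] (k : ℕ),
      c * Real.log ((Fintype.card F : ℕ) : ℝ) ≤ (k : ℝ) →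
      (k : ℝ) ≤ ((Fintype.card F : ℕ) : ℝ) + 1 - c * Real.log ((Fintype.card F : ℕ) : ℝ) →
      ∀ n : ℕ, n ≤ Fintype.card F ^ 2 + Fintype.card F + 1 →
        ∃ S : Set (Projectivization F (Fin 3 → F)), S.ncard = n ∧
          ∀ ℓ : Projectivization F (Fin 3 → F),
            {p : Projectivization F (Fin 3 → F) |
              p ∈ S ∧ ∑ i, p.rep i * ℓ.rep i = 0}.ncard ≠ k := by
  classical
  refine ⟨10 ^ 51, by norm_num, ?_⟩
  intro F _ _ k h1 h2 m hm
  obtain ⟨S, hS, hrow, hlin⟩ := all_sizes' (F := F) k m h1 h2 hm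
  refine ⟨phi '' (S : Set (Pt F)), ?_, ?_⟩
  · rw [Set.ncard_image_of_injective _ phi_injective, Set.ncard_coe_finset, hS]
  · intro ℓ
    have hW := finrank_hyp ℓ.rep ℓ.rep_nonzero
    have hmemW : ∀ p : Projectivization F (Fin 3 → F),
        p.submodule ≤ hyp ℓ.rep ↔ ∑ i, p.rep i * ℓ.rep i = 0 := by
      intro p
      rw [Projectivization.submodule_eq, Submodule.span_singleton_le_iff_mem]
      rfl
    have key : ∀ P : Pt F → Prop, (∀ p : Pt F, (phi p).submodule ≤ hyp ℓ.rep ↔ P p) →
        {p : Projectivization F (Fin 3 → F) |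
              p ∈ phi '' (S : Set (Pt F)) ∧ ∑ i, p.rep i * ℓ.rep i = 0}.ncard =
          (S.filter P).card := by
      intro P hP
      have h3 : {p : Projectivization F (Fin 3 → F) |
              p ∈ phi '' (S : Set (Pt F)) ∧ ∑ i, p.rep i * ℓ.rep i = 0} =
          phi '' ((S.filter P : Finset (Pt F)) : Set (Pt F)) := by
        ext x
        simp only [Set.mem_image, Finset.mem_coe, Set.mem_setOf_eq,
          Finset.mem_filter, ← hmemW]
        constructor
        · rintro ⟨⟨p, hp, rfl⟩, h⟩
          exact ⟨p, ⟨hp, (hP p).1 h⟩, rfl⟩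
        · rintro ⟨p, ⟨hp, h⟩, rfl⟩
          exact ⟨⟨p, hp, rfl⟩, (hP p).2 h⟩
      rw [h3, Set.ncard_image_of_injective _ phi_injective, Set.ncard_coe_finset]
    rcases line_cases (hyp ℓ.rep) hW with ⟨u, v, h⟩ | ⟨r, h⟩
    · rw [key _ h]
      exact hlin u v
    · rw [key _ h]
      exact hrow r

end Pool.Agent.S07559
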