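import Pool.Statements.S07574

set_option autoImplicit false
open Pool Pool.MP_1f8616_co

namespace Pool.Agent.S07574

/-- A chain of the disjoint union of the chains `Fin (n + 1)` is finite. -/
theorem chain_finite (C : Set (Σ n : ℕ, Fin (n + 1))) (hC : IsChain (· ≤ ·) C) : C.Finite := by
  rcases C.eq_empty_or_nonempty with rfl | ⟨⟨n, a⟩, ha⟩
  · exact Set.finite_empty
  · refine (Set.finite_range (fun b : Fin (n + 1) => (⟨n, b⟩ : Σ n : ℕ, Fin (n + 1)))).subset ?_
    intro x hx
    by_cases h : x = ⟨n, a⟩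
    · exact ⟨a, h.symm⟩
    · rcases hC hx ha h with h' | h'
      · cases h' with
        | fiber _ b _ _ => exact ⟨b, rfl⟩
      · cases h' with
        | fiber _ _ b _ => exact ⟨b, rfl⟩

/-- The negation of the preceding statement: Every countable poset with no saturated chain (or its reverse) that is an ω-indexed linear sum of infinite co-wellfounded chains has, for each k≥2, k disjoint chains and a partition into antichains where each antichain A meets at least min(∣A∣,k) chains. -/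
theorem result :
    ¬ (∀ (α : Type) [PartialOrder α] [Countable α],
    (¬ ∃ C : Set α, IsChain (· ≤ ·) C ∧
        (∀ x, x ∉ C → ∀ y ∈ C, ∀ z ∈ C, y < x → x < z → ¬ IsChain (· ≤ ·) (insert x C)) ∧
        ∃ f : α → ℕ,
          ((∀ x ∈ C, ∀ y ∈ C, x ≤ y → f x ≤ f y) ∧
            ∀ i : ℕ, Set.Infinite {x | x ∈ C ∧ f x = i} ∧
              ¬ ∃ s : ℕ → α, StrictMono s ∧ ∀ n, s n ∈ C ∧ f (s n) = i) ∨
          ((∀ x ∈ C, ∀ y ∈ C, x ≤ y → f y ≤ f x) ∧
            ∀ i : ℕ, Set.Infinite {x | x ∈ C ∧ f x = i} ∧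
              ¬ ∃ s : ℕ → α, StrictAnti s ∧ ∀ n, s n ∈ C ∧ f (s n) = i)) →
    ∀ k : ℕ, 2 ≤ k →
      ∃ C : Fin k → Set α, (∀ j, IsChain (· ≤ ·) (C j)) ∧
        Pairwise (fun i j => Disjoint (C i) (C j)) ∧
        ∃ g : α → ℕ, ∀ i : ℕ, IsAntichain (· ≤ ·) {x | g x = i} ∧
          min (Set.encard {x | g x = i}) (k : ℕ∞) ≤
            Set.encard {j : Fin k | (C j ∩ {x | g x = i}).Nonempty}) := by
  intro H
  obtain ⟨C, hC, -, g, hg⟩ := H (Σ n : ℕ, Fin (n + 1)) (by
    rintro ⟨C, hC, -, f, h | h⟩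
    · exact (h.2 0).1 ((chain_finite C hC).subset fun x hx => hx.1)
    · exact (h.2 0).1 ((chain_finite C hC).subset fun x hx => hx.1)) 2 le_rfl
  · -- only finitely many antichains can be met
    have hU : (⋃ j, C j).Finite := Set.finite_iUnion fun j => chain_finite _ (hC j)
    have hR : Set.range g ⊆ g '' (⋃ j, C j) := by
      rintro _ ⟨x, rfl⟩
      have h1 := (hg (g x)).2
      have h2 : (1 : ℕ∞) ≤ Set.encard {y | g y = g x} :=
        Set.one_le_encard_iff_nonempty.2 ⟨x, rfl⟩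
      have h3 : (1 : ℕ∞) ≤ Set.encard {j : Fin 2 | (C j ∩ {y | g y = g x}).Nonempty} :=
        le_trans (le_min h2 (by norm_num)) h1
      obtain ⟨j, y, hy1, hy2⟩ := Set.one_le_encard_iff_nonempty.1 h3
      exact ⟨y, Set.mem_iUnion.2 ⟨j, hy1⟩, hy2⟩
    have hF : (Set.range g).Finite := (hU.image g).subset hR
    -- the component with many points gives too many antichains
    have hinj : ∀ n : ℕ, Function.Injective
        (fun b : Fin (n + 1) => g (⟨n, b⟩ : Σ n : ℕ, Fin (n + 1))) := by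
      intro n a b hab
      by_contra hne
      have hne' : (⟨n, a⟩ : Σ n : ℕ, Fin (n + 1)) ≠ ⟨n, b⟩ := by
        intro h
        exact hne (eq_of_heq (Sigma.mk.inj h).2)
      have hanti := (hg (g ⟨n, b⟩)).1
      rcases le_total a b with h | h
      · exact hanti (show g ⟨n, a⟩ = g ⟨n, b⟩ from hab) (show g ⟨n, b⟩ = g ⟨n, b⟩ from rfl) hne'
          (Sigma.mk_le_mk_iff.2 h)
      · exact hanti (show g ⟨n, b⟩ = g ⟨n, b⟩ from rfl) (show g ⟨n, a⟩ = g ⟨n, b⟩ from hab)
          hne'.symm (Sigma.mk_le_mk_iff.2 h)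
    have hcard : ∀ n : ℕ, n + 1 ≤ hF.toFinset.card := by
      intro n
      have h := Finset.card_le_card_of_injOn (s := (Finset.univ : Finset (Fin (n + 1))))
        (t := hF.toFinset) (fun b => g (⟨n, b⟩ : Σ n : ℕ, Fin (n + 1)))
        (fun b _ => by simp) ((hinj n).injOn)
      simpa using h
    exact absurd (hcard hF.toFinset.card) (by omega)

end Pool.Agent.S07574
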