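import Pool.Statements.S07942
-- import your own Pool.Agent.* helpers here

set_option autoImplicit false
open Pool Pool.MP_30ed83_co

namespace Pool.Agent.S07942

/-- In a graph with an infinite sequence of consecutive adjacent vertices there are walks along it. -/
lemma exists_walk {V : Type*} (H : SimpleGraph V) (b : ℕ → V)
    (hb : ∀ i, H.Adj (b i) (b (i + 1))) :
    ∀ k i : ℕ, ∃ p : H.Walk (b i) (b (i + k)), p.length = k := by
  intro k
  induction k with
  | zero => intro i; exact ⟨SimpleGraph.Walk.nil, rfl⟩
  | succ k ih =>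
    intro i
    obtain ⟨p, hp⟩ := ih i
    exact ⟨p.concat (hb (i + k)), by simp [SimpleGraph.Walk.length_concat, hp]⟩

/-- The claw `K_{1,3}` with centre `0`. -/
def claw : SimpleGraph (Fin 4) where
  Adj i j := i ≠ j ∧ (i = 0 ∨ j = 0)
  symm := ⟨fun i j h => ⟨h.1.symm, h.2.symm⟩⟩
  loopless := ⟨fun i h => h.1 rfl⟩

instance : DecidableRel claw.Adj := fun i j => by unfold claw; infer_instance

lemma claw_adj (i : Fin 4) (hi : i ≠ 0) : claw.Adj 0 i := ⟨hi.symm, Or.inl rfl⟩

lemma claw_colorable : claw.Colorable 2 := by
  refine ⟨SimpleGraph.Coloring.mk (fun i => if i = 0 then (0 : Fin 2) else 1) ?_⟩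
  intro v w h
  fin_cases v <;> fin_cases w <;> simp_all [claw]

/-- The negation of the preceding statement: For every finite graph F with an edge and every r, some finite graph G has chromatic number above r and clique number equal to F's, and every induced subgraph of G with no induced copy of F has chromatic number at most that of F. -/
theorem result :
    ¬ (∀ (n : ℕ) (F : SimpleGraph (Fin n)), F ≠ ⊥ →
      ∀ r : ℕ, ∃ (m : ℕ) (G : SimpleGraph (Fin m)),
        (r : ℕ∞) < G.chromaticNumber ∧
        G.cliqueNum = F.cliqueNum ∧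
        ∀ s : Set (Fin m), ¬ F.IsIndContained (G.induce s) →
          (G.induce s).chromaticNumber ≤ F.chromaticNumber) := by
  intro h
  have hne : claw ≠ ⊥ := by
    intro h0
    have h1 := claw_adj 1 (by decide)
    rw [h0] at h1
    exact h1
  obtain ⟨m, G, hχ, -, hs⟩ := h 4 claw hne 2
  have hnot : ¬ G.Colorable 2 := fun hc => absurd hχ (not_lt.mpr hc.chromaticNumber_le)
  -- a shortest odd closed walk
  have hodd : ∃ n : ℕ, ∃ (u : Fin m) (w : G.Walk u u), w.length = n ∧ Odd n := by
    rw [SimpleGraph.two_colorable_iff_forall_loop_even] at hnot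
    push Not at hnot
    obtain ⟨u, w, hw⟩ := hnot
    exact ⟨w.length, u, w, rfl, by simpa using hw⟩
  classical
  obtain ⟨u, w, hwn, hnodd⟩ := Nat.find_spec hodd
  set n := Nat.find hodd with hn
  have hmin : ∀ (v : Fin m) (p : G.Walk v v), Odd p.length → n ≤ p.length :=
    fun v p hp => Nat.find_min' hodd ⟨v, p, rfl, hp⟩
  have hnpos : 0 < n := hnodd.pos
  let a : ℕ → Fin m := fun i => w.getVert (i % n)
  have ha : ∀ i, a i = w.getVert (i % n) := fun i => rfl
  have hper : ∀ i j : ℕ, i % n = j % n → a i = a j := by
    intro i j hij; simp only [ha, hij]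
  have hadj : ∀ i, G.Adj (a i) (a (i + 1)) := by
    intro i
    have hlt : i % n < w.length := by rw [hwn]; exact Nat.mod_lt _ hnpos
    have h1 := w.adj_getVert_succ hlt
    by_cases hlast : i % n + 1 = n
    · have h2 : (i + 1) % n = 0 := by
        rw [Nat.add_mod, ← Nat.mod_add_mod]
        rcases Nat.lt_or_ge 1 n with h1n | h1n
        · rw [Nat.mod_eq_of_lt h1n, Nat.mod_mod, hlast, Nat.mod_self]
        · have : n = 1 := by omega
          simp [this, Nat.mod_one]
      rw [ha, ha, h2, w.getVert_zero]
      have hend : w.getVert n = u := by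
        have h3 := w.getVert_length
        rwa [hwn] at h3
      rw [hlast, hend] at h1
      exact h1
    · have hlt2 : i % n + 1 < n := by
        have := Nat.mod_lt i hnpos
        omega
      have h2 : (i + 1) % n = i % n + 1 := by
        rw [Nat.add_mod, Nat.mod_eq_of_lt (show 1 < n by omega), Nat.mod_eq_of_lt hlt2]
      rw [ha, ha, h2]
      exact h1
  -- no chords
  have hchord : ∀ i d : ℕ, d < n → G.Adj (a i) (a (i + d)) → d = 1 ∨ d = n - 1 := by
    intro i d hd hadj'
    obtain ⟨p, hp⟩ := exists_walk G a hadj d i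
    obtain ⟨q, hq⟩ := exists_walk G a hadj (n - d) (i + d)
    have hback : a (i + d + (n - d)) = a i := by
      apply hper
      have : i + d + (n - d) = i + n := by omega
      rw [this, Nat.add_mod_right]
    rcases Nat.even_or_odd d with he | ho
    · have h1 := hmin _ (p.concat hadj'.symm) (by
        rw [SimpleGraph.Walk.length_concat, hp]; exact he.add_one)
      rw [SimpleGraph.Walk.length_concat, hp] at h1
      right; omega
    · have h1 := hmin _ ((q.copy rfl hback).concat hadj') (by
        rw [SimpleGraph.Walk.length_concat, SimpleGraph.Walk.length_copy, hq]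
        have : Even (n - d) := Nat.Odd.sub_odd hnodd ho
        exact this.add_one)
      rw [SimpleGraph.Walk.length_concat, SimpleGraph.Walk.length_copy, hq] at h1
      left
      have : 0 < d := ho.pos
      omega
  -- the vertex set of the shortest odd closed walk
  let s : Set (Fin m) := Set.range a
  have hclaw : ¬ claw.IsIndContained (G.induce s) := by
    rintro ⟨f⟩
    obtain ⟨i, hi⟩ := (f 0).2
    have hleaf : ∀ l : Fin 4, l ≠ 0 → ((f l : s) : Fin m) = a (i + 1) ∨
        ((f l : s) : Fin m) = a (i + (n - 1)) := by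
      intro l hl
      have h1 : (G.induce s).Adj (f 0) (f l) := f.map_rel_iff.mpr (claw_adj l hl)
      have h2 : G.Adj ((f 0 : s) : Fin m) ((f l : s) : Fin m) := h1
      obtain ⟨j, hj⟩ := (f l).2
      have hd : (j + (n - 1) * i) % n < n := Nat.mod_lt _ hnpos
      have h3 : a (i + (j + (n - 1) * i) % n) = a j := by
        apply hper
        rw [Nat.add_mod_mod]
        have : i + (j + (n - 1) * i) = j + n * i := by
          obtain ⟨k, hk⟩ : ∃ k, n = k + 1 := ⟨n - 1, by omega⟩
          rw [hk]; simp; ring
        rw [this, Nat.add_mul_mod_self_left]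
      rw [← hi, ← hj, ← h3] at h2
      rcases hchord i _ hd h2 with h4 | h4
      · left; rw [← hj, ← h3, h4]
      · right; rw [← hj, ← h3, h4]
    have hinj : ∀ x y : Fin 4, ((f x : s) : Fin m) = ((f y : s) : Fin m) → x = y :=
      fun x y hxy => f.injective (Subtype.ext hxy)
    rcases hleaf 1 (by decide) with h1 | h1 <;> rcases hleaf 2 (by decide) with h2 | h2 <;>
      rcases hleaf 3 (by decide) with h3 | h3
    all_goals first
      | exact absurd (hinj 1 2 (h1.trans h2.symm)) (by decide)
      | exact absurd (hinj 1 3 (h1.trans h3.symm)) (by decide)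
      | exact absurd (hinj 2 3 (h2.trans h3.symm)) (by decide)
  have h5 := hs s hclaw
  -- the induced subgraph has an odd closed walk
  let b : ℕ → s := fun i => ⟨a i, ⟨i, rfl⟩⟩
  have hb : ∀ i, (G.induce s).Adj (b i) (b (i + 1)) := fun i => hadj i
  obtain ⟨p, hp⟩ := exists_walk (G.induce s) b hb n 0
  have hclose : b (0 + n) = b 0 := by
    apply Subtype.ext
    exact hper _ _ (by simp)
  have h6 := SimpleGraph.two_colorable_iff_forall_loop_even.mp
    (SimpleGraph.chromaticNumber_le_iff_colorable.mp
      (h5.trans claw_colorable.chromaticNumber_le)) (b 0) (p.copy rfl hclose)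
  rw [SimpleGraph.Walk.length_copy, hp] at h6
  exact (Nat.not_even_iff_odd.mpr hnodd) h6

end Pool.Agent.S07942
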