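import Pool.Statements.S07963

set_option autoImplicit false
set_option linter.unusedSectionVars false
open Pool Pool.MP_31cced_co

namespace Pool.Agent.S07963

open Finset

/-! ### Set functions with the subset convolution -/

/-- Real functions on the finite subsets of `V`, multiplied by the subset convolution. -/
def SF (V : Type) : Type := Finset V → ℝ

namespace SF

variable {V : Type} [DecidableEq V]

instance : AddCommGroup (SF V) := inferInstanceAs (AddCommGroup (Finset V → ℝ))

instance : Mul (SF V) := ⟨fun f g S => ∑ I ∈ S.powerset, f I * g (S \ I)⟩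

instance : One (SF V) := ⟨fun S => if S = ∅ then 1 else 0⟩

lemma mul_apply (f g : SF V) (S : Finset V) :
    (f * g) S = ∑ I ∈ S.powerset, f I * g (S \ I) := rfl

lemma one_apply (S : Finset V) : (1 : SF V) S = if S = ∅ then 1 else 0 := rfl

lemma add_apply (f g : SF V) (S : Finset V) : (f + g) S = f S + g S := rfl

lemma zero_apply (S : Finset V) : (0 : SF V) S = 0 := rfl

lemma nsmul_apply (n : ℕ) (f : SF V) (S : Finset V) : (n • f) S = n * f S := by
  show n • (f S) = n * f S
  exact nsmul_eq_mul n (f S)

lemma ext {f g : SF V} (h : ∀ S, f S = g S) : f = g := funext h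

lemma mul_comm' (f g : SF V) : f * g = g * f := by
  apply ext
  intro S
  rw [mul_apply, mul_apply]
  apply Finset.sum_bij' (fun I _ => S \ I) (fun I _ => S \ I)
  · intro I _
    exact Finset.mem_powerset.2 Finset.sdiff_subset
  · intro I _
    exact Finset.mem_powerset.2 Finset.sdiff_subset
  · intro I hI
    rw [Finset.mem_powerset] at hI
    simp [Finset.inter_eq_right.2 hI]
  · intro I hI
    rw [Finset.mem_powerset] at hI
    simp [Finset.inter_eq_right.2 hI]
  · intro I hI
    rw [Finset.mem_powerset] at hI
    rw [Finset.sdiff_sdiff_eq_self hI, mul_comm]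

lemma mul_assoc' (f g h : SF V) : f * g * h = f * (g * h) := by
  apply ext
  intro S
  rw [mul_apply, mul_apply]
  simp only [mul_apply, Finset.sum_mul, Finset.mul_sum]
  rw [Finset.sum_sigma', Finset.sum_sigma']
  apply Finset.sum_bij' (fun (p : (_ : Finset V) × Finset V) _ => (⟨p.2, p.1 \ p.2⟩ :
      (_ : Finset V) × Finset V))
    (fun (p : (_ : Finset V) × Finset V) _ => (⟨p.1 ∪ p.2, p.1⟩ : (_ : Finset V) × Finset V))
  · rintro ⟨I, J⟩ h
    simp only [Finset.mem_sigma, Finset.mem_powerset] at h ⊢
    exact ⟨h.2.trans h.1, Finset.sdiff_subset_sdiff h.1 le_rfl⟩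
  · rintro ⟨I, J⟩ h
    simp only [Finset.mem_sigma, Finset.mem_powerset] at h ⊢
    exact ⟨Finset.union_subset h.1 (h.2.trans Finset.sdiff_subset), Finset.subset_union_left⟩
  · rintro ⟨I, J⟩ h
    simp only [Finset.mem_sigma, Finset.mem_powerset] at h
    simp only [Finset.union_sdiff_of_subset h.2]
  · rintro ⟨I, J⟩ h
    simp only [Finset.mem_sigma, Finset.mem_powerset] at h
    have hd : Disjoint I J := (Finset.disjoint_sdiff.mono_right h.2)
    have : (I ∪ J) \ I = J := by
      rw [Finset.union_sdiff_left]
      exact Finset.sdiff_eq_self_of_disjoint hd.symm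
    simp only [this]
  · rintro ⟨I, J⟩ h
    simp only [Finset.mem_sigma, Finset.mem_powerset] at h
    have h1 : S \ I = (S \ J) \ (I \ J) := by
      ext x
      simp only [Finset.mem_sdiff]
      constructor
      · rintro ⟨hs, hi⟩
        exact ⟨⟨hs, fun hj => hi (h.2 hj)⟩, fun hij => hi hij.1⟩
      · rintro ⟨⟨hs, hj⟩, hij⟩
        exact ⟨hs, fun hi => hij ⟨hi, hj⟩⟩
    simp only
    rw [h1, mul_assoc]

lemma one_mul' (f : SF V) : 1 * f = f := by
  apply ext
  intro S
  rw [mul_apply, Finset.sum_eq_single ∅]
  · simp [one_apply]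
  · intro I _ hI
    rw [one_apply, if_neg hI, zero_mul]
  · intro h
    exact absurd (Finset.empty_mem_powerset S) h

lemma add_mul' (f g h : SF V) : (f + g) * h = f * h + g * h := by
  apply ext
  intro S
  simp only [mul_apply, add_apply, add_mul, Finset.sum_add_distrib]

instance : CommRing (SF V) :=
  { (inferInstance : AddCommGroup (SF V)) with
    mul := (· * ·)
    one := 1
    mul_assoc := mul_assoc'
    one_mul := one_mul'
    mul_one := fun f => by rw [mul_comm', one_mul']
    mul_comm := mul_comm'
    left_distrib := fun f g h => by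
      rw [mul_comm' f, add_mul', mul_comm' g, mul_comm' h]
    right_distrib := add_mul'
    zero_mul := fun f => by
      apply ext
      intro S
      simp [mul_apply, zero_apply]
    mul_zero := fun f => by
      apply ext
      intro S
      simp [mul_apply, zero_apply] }

/-- Euler derivation. -/
def E (f : SF V) : SF V := fun S => (S.card : ℝ) * f S

/-- Pointing at `x`. -/
def P (x : V) (f : SF V) : SF V := fun S => if x ∈ S then f S else 0

lemma E_apply (f : SF V) (S : Finset V) : E f S = (S.card : ℝ) * f S := rfl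

lemma P_apply (x : V) (f : SF V) (S : Finset V) : P x f S = if x ∈ S then f S else 0 := rfl

lemma E_mul (f g : SF V) : E (f * g) = E f * g + f * E g := by
  apply ext
  intro S
  rw [E_apply, add_apply, mul_apply, mul_apply, mul_apply, Finset.mul_sum,
    ← Finset.sum_add_distrib]
  apply Finset.sum_congr rfl
  intro I hI
  rw [Finset.mem_powerset] at hI
  have h : (S.card : ℝ) = (I.card : ℝ) + ((S \ I).card : ℝ) := by
    rw [Finset.card_sdiff_of_subset hI, Nat.cast_sub (Finset.card_le_card hI)]
    ring
  rw [E_apply, E_apply, h]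
  ring

lemma P_mul (x : V) (f g : SF V) : P x (f * g) = P x f * g + f * P x g := by
  apply ext
  intro S
  rw [P_apply, add_apply, mul_apply, mul_apply, mul_apply, ← Finset.sum_add_distrib]
  split_ifs with hx
  · apply Finset.sum_congr rfl
    intro I _
    rw [P_apply, P_apply]
    by_cases hxI : x ∈ I
    · simp [hxI]
    · simp [hxI, hx]
  · symm
    apply Finset.sum_eq_zero
    intro I hI
    rw [Finset.mem_powerset] at hI
    rw [P_apply, P_apply, if_neg (fun h => hx (hI h)),
      if_neg (fun h => hx (Finset.sdiff_subset h))]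
    ring

lemma E_one : E (1 : SF V) = 0 := by
  apply ext
  intro S
  rw [E_apply, one_apply, zero_apply]
  split_ifs with h
  · simp [h]
  · simp

lemma P_one (x : V) : P x (1 : SF V) = 0 := by
  apply ext
  intro S
  rw [P_apply, one_apply, zero_apply]
  split_ifs with h h2
  · subst h2
    simp at h
  · rfl
  · rfl

/-- a map satisfying the Leibniz rule -/
structure IsDer (D : SF V → SF V) : Prop where
  mul : ∀ f g, D (f * g) = D f * g + f * D g
  one : D 1 = 0

lemma isDer_E : IsDer (E (V := V)) := ⟨E_mul, E_one⟩
lemma isDer_P (x : V) : IsDer (P (V := V) x) := ⟨P_mul x, P_one x⟩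

lemma IsDer.pow {D : SF V → SF V} (hD : IsDer D) (f : SF V) (n : ℕ) :
    D (f ^ (n + 1)) = (n + 1) • (f ^ n * D f) := by
  induction n with
  | zero => simp
  | succ n ih =>
    rw [pow_succ f (n + 1), hD.mul, ih]
    rw [succ_nsmul (f ^ (n + 1) * D f) (n + 1), smul_mul_assoc]
    congr 2
    ring

lemma IsDer.prod {D : SF V → SF V} (hD : IsDer D) (K : Finset ℕ) (f : ℕ → SF V) :
    D (∏ i ∈ K, f i) = ∑ i ∈ K, D (f i) * ∏ l ∈ K.erase i, f l := by
  induction K using Finset.induction_on with
  | empty => simpa using hD.one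
  | insert a K ha ih =>
    rw [Finset.prod_insert ha, hD.mul, ih, Finset.sum_insert ha, Finset.erase_insert ha,
      Finset.mul_sum]
    congr 1
    apply Finset.sum_congr rfl
    intro i hi
    have hia : i ≠ a := fun h => ha (h ▸ hi)
    rw [Finset.erase_insert_of_ne hia.symm, Finset.prod_insert (fun h => ha (Finset.mem_of_mem_erase h))]
    ring

/-- pointwise nonnegative -/
def NN (f : SF V) : Prop := ∀ S, 0 ≤ f S

lemma NN.mul {f g : SF V} (hf : NN f) (hg : NN g) : NN (f * g) := fun S => by
  rw [mul_apply]
  exact Finset.sum_nonneg fun I _ => mul_nonneg (hf _) (hg _)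

lemma NN.one : NN (1 : SF V) := fun S => by
  rw [one_apply]
  split_ifs <;> norm_num

lemma NN.pow {f : SF V} (hf : NN f) (n : ℕ) : NN (f ^ n) := by
  induction n with
  | zero => simpa using NN.one
  | succ n ih =>
    rw [pow_succ]
    exact ih.mul hf

lemma NN.prod {f : ℕ → SF V} (K : Finset ℕ) (hf : ∀ i, NN (f i)) : NN (∏ i ∈ K, f i) := by
  induction K using Finset.induction_on with
  | empty => simpa using NN.one
  | insert a K ha ih =>
    rw [Finset.prod_insert ha]
    exact (hf a).mul ih

lemma NN.E {f : SF V} (hf : NN f) : NN (E f) := fun S => by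
  rw [E_apply]
  exact mul_nonneg (Nat.cast_nonneg _) (hf _)

lemma NN.P {f : SF V} (hf : NN f) (x : V) : NN (P x f) := fun S => by
  rw [P_apply]
  split_ifs
  · exact hf _
  · exact le_rfl

lemma sum_apply {ι : Type} (K : Finset ι) (f : ι → SF V) (S : Finset V) :
    (∑ i ∈ K, f i) S = ∑ i ∈ K, f i S :=
  Finset.sum_apply S K f

/-- Value at a set containing `x`. -/
lemma P_self {x : V} {S : Finset V} (hx : x ∈ S) (f : SF V) : P x f S = f S := by
  rw [P_apply, if_pos hx]

lemma E_mul_apply (f g : SF V) (S : Finset V) :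
    (E f * g) S = ∑ v ∈ S, (P v f * g) S := by
  simp only [mul_apply]
  rw [Finset.sum_comm]
  apply Finset.sum_congr rfl
  intro I hI
  rw [Finset.mem_powerset] at hI
  rw [← Finset.sum_mul]
  congr 1
  rw [E_apply]
  simp only [P_apply]
  rw [Finset.sum_ite, Finset.sum_const_zero, add_zero, Finset.sum_const, nsmul_eq_mul,
    Finset.filter_mem_eq_inter, Finset.inter_eq_right.2 hI]

/-- Removing the point. -/
lemma P_mul_erase {f f' : SF V} {x : V} {S : Finset V} (hx : x ∈ S)
    (h : ∀ I, x ∉ I → f (insert x I) = f' I) (g : SF V) :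
    (P x f * g) S = (f' * g) (S.erase x) := by
  rw [mul_apply, mul_apply]
  have hS : S = insert x (S.erase x) := (Finset.insert_erase hx).symm
  have hx' : x ∉ S.erase x := Finset.notMem_erase x S
  conv_lhs => rw [hS]
  rw [Finset.sum_powerset_insert hx']
  have h0 : ∑ I ∈ (S.erase x).powerset, P x f I * g (insert x (S.erase x) \ I) = 0 := by
    apply Finset.sum_eq_zero
    intro I hI
    rw [Finset.mem_powerset] at hI
    rw [P_apply, if_neg (fun h => hx' (hI h)), zero_mul]
  rw [h0, zero_add]
  apply Finset.sum_congr rfl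
  intro I hI
  rw [Finset.mem_powerset] at hI
  have hxI : x ∉ I := fun h => hx' (hI h)
  rw [P_apply, if_pos (Finset.mem_insert_self _ _), h I hxI]
  congr 2
  rw [Finset.insert_sdiff_insert, Finset.sdiff_insert_of_notMem hx']

end SF

open SF

/-! ### The counting functions -/

section Count

variable {V : Type} [DecidableEq V] (G : SimpleGraph V)

/-- `I` is independent and avoids `F`. -/
def Good (F I : Finset V) : Prop := (∀ u ∈ I, ∀ v ∈ I, ¬ G.Adj u v) ∧ Disjoint I F

/-- The indicator function of the independent sets avoiding `F`. -/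
noncomputable def ind (F : Finset V) : SF V := fun I =>
  @ite ℝ (Good G F I) (Classical.propDecidable _) 1 0

lemma ind_pos {F I : Finset V} (h : Good G F I) : ind G F I = 1 := by
  unfold ind
  exact if_pos h

lemma ind_neg {F I : Finset V} (h : ¬ Good G F I) : ind G F I = 0 := by
  unfold ind
  exact if_neg h

lemma ind_iff {F I F' I' : Finset V} (h : Good G F I ↔ Good G F' I') :
    ind G F I = ind G F' I' := by
  by_cases h1 : Good G F I
  · rw [ind_pos G h1, ind_pos G (h.1 h1)]
  · rw [ind_neg G h1, ind_neg G (fun h2 => h1 (h.2 h2))]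

lemma ind_nn (F : Finset V) : NN (ind G F) := fun S => by
  by_cases h : Good G F S
  · rw [ind_pos G h]; norm_num
  · rw [ind_neg G h]

lemma ind_empty (F : Finset V) : ind G F ∅ = 1 :=
  ind_pos G ⟨fun u hu => absurd hu (Finset.notMem_empty u), Finset.disjoint_empty_left F⟩

/-- `ind F` agrees with `ind ∅` on the subsets of `S` if `F` does not meet `S`. -/
lemma ind_congr {F S I : Finset V} (hF : Disjoint F S) (hI : I ⊆ S) : ind G F I = ind G ∅ I :=
  ind_iff G ⟨fun h => ⟨h.1, Finset.disjoint_empty_right _⟩,
    fun h => ⟨h.1, (hF.mono_right hI).symm⟩⟩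

/-- `ind F` vanishes on the sets containing a point of `F`. -/
lemma P_ind_eq_zero {F : Finset V} {x : V} (hx : x ∈ F) : P x (ind G F) = 0 := by
  apply SF.ext
  intro I
  rw [P_apply, SF.zero_apply]
  split_ifs with h
  · exact ind_neg G fun h2 => Finset.disjoint_left.1 h2.2 h hx
  · rfl

lemma mul_congr_left {f f' g : SF V} {S : Finset V} (h : ∀ I, I ⊆ S → f I = f' I) :
    (f * g) S = (f' * g) S := by
  rw [mul_apply, mul_apply]
  apply Finset.sum_congr rfl
  intro I hI
  rw [h I (Finset.mem_powerset.1 hI)]

/-- One restricted colour. -/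
lemma key1 : ∀ (n : ℕ) (S : Finset V) (y : ℕ) (D : Finset V), S.card = n → n ≤ y + 1 →
    ((y : ℝ) + 1) * (E (ind G D) * ind G ∅ ^ y) S ≤ (n : ℝ) * (ind G D * ind G ∅ ^ y) S := by
  intro n
  induction n using Nat.strong_induction_on with
  | _ n ih =>
  intro S y D hn hny
  by_cases hD : Disjoint D S
  · have e1 : (E (ind G D) * ind G ∅ ^ y) S = (E (ind G ∅) * ind G ∅ ^ y) S := by
      apply mul_congr_left
      intro I hI
      rw [E_apply, E_apply, ind_congr G hD hI]
    have e2 : (ind G D * ind G ∅ ^ y) S = (ind G ∅ * ind G ∅ ^ y) S :=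
      mul_congr_left fun I hI => ind_congr G hD hI
    rw [e1, e2, ← pow_succ']
    have h := congrFun (isDer_E.pow (ind G ∅) y) S
    rw [E_apply, nsmul_apply, mul_comm (ind G ∅ ^ y), hn] at h
    rw [h]
    push_cast
    exact le_rfl
  · obtain ⟨x, hxD, hxS⟩ := Finset.not_disjoint_iff.1 hD
    have hP0 : P x (ind G D) = 0 := P_ind_eq_zero G hxD
    have hPE0 : P x (E (ind G D)) = 0 := by
      apply SF.ext
      intro I
      have := congrFun hP0 I
      rw [P_apply, SF.zero_apply] at this ⊢
      rw [E_apply]
      split_ifs with h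
      · rw [if_pos h] at this
        rw [this, mul_zero]
      · rfl
    have hnpos : 1 ≤ n := by
      rw [← hn]
      exact Finset.card_pos.2 ⟨x, hxS⟩
    have hWnn : 0 ≤ (E (ind G D) * ind G ∅ ^ y) S :=
      ((ind_nn G D).E.mul ((ind_nn G ∅).pow y)) S
    have hZnn : 0 ≤ (ind G D * ind G ∅ ^ y) S :=
      ((ind_nn G D).mul ((ind_nn G ∅).pow y)) S
    obtain _ | y := y
    · -- no free colour: `S = {x}`
      have h1 := P_self hxS (E (ind G D) * ind G ∅ ^ 0)
      rw [pow_zero, mul_one, hPE0, SF.zero_apply] at h1
      rw [pow_zero, mul_one] at hZnn ⊢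
      rw [mul_one, ← h1]
      have : (0 : ℝ) ≤ n := Nat.cast_nonneg n
      nlinarith [mul_nonneg this hZnn]
    · have hW : (E (ind G D) * ind G ∅ ^ (y + 1)) S =
          ((y : ℝ) + 1) * (P x (ind G ∅) * (E (ind G D) * ind G ∅ ^ y)) S := by
        rw [← P_self hxS (E (ind G D) * ind G ∅ ^ (y + 1)), P_mul, hPE0, zero_mul, zero_add,
          (isDer_P x).pow]
        rw [mul_smul_comm, nsmul_apply]
        push_cast
        have e : E (ind G D) * (ind G ∅ ^ y * P x (ind G ∅)) =
          P x (ind G ∅) * (E (ind G D) * ind G ∅ ^ y) := by ring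
        rw [e]
      have hZ : (ind G D * ind G ∅ ^ (y + 1)) S =
          ((y : ℝ) + 1) * (P x (ind G ∅) * (ind G D * ind G ∅ ^ y)) S := by
        rw [← P_self hxS (ind G D * ind G ∅ ^ (y + 1)), P_mul, hP0, zero_mul, zero_add,
          (isDer_P x).pow]
        rw [mul_smul_comm, nsmul_apply]
        push_cast
        have e : ind G D * (ind G ∅ ^ y * P x (ind G ∅)) =
          P x (ind G ∅) * (ind G D * ind G ∅ ^ y) := by ring
        rw [e]
      have hkey : ((y : ℝ) + 1) * (P x (ind G ∅) * (E (ind G D) * ind G ∅ ^ y)) S ≤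
          ((n : ℝ) - 1) * (P x (ind G ∅) * (ind G D * ind G ∅ ^ y)) S := by
        rw [mul_apply, mul_apply, Finset.mul_sum, Finset.mul_sum]
        apply Finset.sum_le_sum
        intro I hI
        rw [Finset.mem_powerset] at hI
        by_cases hxI : x ∈ I
        · have hc : (S \ I).card + I.card = n := by
            rw [← hn]
            exact Finset.card_sdiff_add_card_eq_card hI
          have hIpos : 1 ≤ I.card := Finset.card_pos.2 ⟨x, hxI⟩
          have h := ih (S \ I).card (by omega) (S \ I) y D rfl (by omega)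
          have hnn : 0 ≤ (ind G D * ind G ∅ ^ y) (S \ I) :=
            ((ind_nn G D).mul ((ind_nn G ∅).pow y)) _
          have hle : ((S \ I).card : ℝ) ≤ (n : ℝ) - 1 := by
            have : (S \ I).card + 1 ≤ n := by omega
            have : (((S \ I).card + 1 : ℕ) : ℝ) ≤ (n : ℝ) := by exact_mod_cast this
            push_cast at this
            linarith
          have hp : 0 ≤ P x (ind G ∅) I := ((ind_nn G ∅).P x) I
          calc ((y : ℝ) + 1) * (P x (ind G ∅) I * (E (ind G D) * ind G ∅ ^ y) (S \ I))
              = P x (ind G ∅) I * (((y : ℝ) + 1) * (E (ind G D) * ind G ∅ ^ y) (S \ I)) := by ring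
            _ ≤ P x (ind G ∅) I * (((n : ℝ) - 1) * (ind G D * ind G ∅ ^ y) (S \ I)) := by
                apply mul_le_mul_of_nonneg_left _ hp
                exact h.trans (mul_le_mul_of_nonneg_right hle hnn)
            _ = ((n : ℝ) - 1) * (P x (ind G ∅) I * (ind G D * ind G ∅ ^ y) (S \ I)) := by ring
        · rw [P_apply, if_neg hxI]
          simp
      set W := (E (ind G D) * ind G ∅ ^ (y + 1)) S with hWdef
      set Z := (ind G D * ind G ∅ ^ (y + 1)) S with hZdef
      have h3 : ((y : ℝ) + 1) * W ≤ ((n : ℝ) - 1) * Z := by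
        rw [hW, hZ]
        have hy0 : (0 : ℝ) ≤ (y : ℝ) + 1 := by positivity
        nlinarith [mul_le_mul_of_nonneg_left hkey hy0]
      have hny' : (n : ℝ) ≤ (y : ℝ) + 1 + 1 := by exact_mod_cast hny
      have hyn : (0 : ℝ) < (y : ℝ) + 1 := by positivity
      have hn1 : (1 : ℝ) ≤ n := by exact_mod_cast hnpos
      push_cast
      -- `(y+2) (y+1) W ≤ (y+2) (n-1) Z ≤ n (y+1) Z`
      have h4 : ((y : ℝ) + 1) * (((y : ℝ) + 1 + 1) * W) ≤ ((y : ℝ) + 1) * ((n : ℝ) * Z) := by
        have h5 : ((y : ℝ) + 1 + 1) * (((n : ℝ) - 1) * Z) ≤ ((y : ℝ) + 1) * ((n : ℝ) * Z) := by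
          have : 0 ≤ ((y : ℝ) + 1 + 1 - n) * Z := mul_nonneg (by linarith) hZnn
          nlinarith
        have h6 : ((y : ℝ) + 1 + 1) * (((y : ℝ) + 1) * W) ≤
            ((y : ℝ) + 1 + 1) * (((n : ℝ) - 1) * Z) :=
          mul_le_mul_of_nonneg_left h3 (by positivity)
        nlinarith
      exact le_of_mul_le_mul_left h4 hyn

/-- The product of the indicator functions of the restricted colours. -/
noncomputable def gK (K : Finset ℕ) (F : ℕ → Finset V) : SF V := ∏ i ∈ K, ind G (F i)

lemma gK_nn (K : Finset ℕ) (F : ℕ → Finset V) : NN (gK G K F) := NN.prod K fun i => ind_nn G (F i)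

/-- The expected number of vertices with a restricted colour. -/
lemma keyA : ∀ (k : ℕ) (K : Finset ℕ) (F : ℕ → Finset V) (S : Finset V) (y : ℕ), K.card = k →
    S.card ≤ y + 1 → ((k : ℝ) + y) * (E (gK G K F) * ind G ∅ ^ y) S ≤
      (S.card : ℝ) * k * (gK G K F * ind G ∅ ^ y) S := by
  intro k
  induction k with
  | zero =>
    intro K F S y hK hS
    rw [Finset.card_eq_zero] at hK
    subst hK
    unfold gK
    rw [Finset.prod_empty, E_one, zero_mul, SF.zero_apply]
    simp
  | succ k ih =>
    intro K F S y hK hS
    obtain _ | k := k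
    · obtain ⟨i, rfl⟩ := Finset.card_eq_one.1 hK
      unfold gK
      rw [Finset.prod_singleton]
      have := key1 G S.card S y (F i) rfl hS
      push_cast
      linarith
    · set τ := (E (gK G K F) * ind G ∅ ^ y) S with hτ
      set Z := (gK G K F * ind G ∅ ^ y) S with hZ
      let W : ℕ → ℝ := fun i => (E (ind G (F i)) * (gK G (K.erase i) F * ind G ∅ ^ y)) S
      have hsum : ∑ i ∈ K, W i = τ := by
        rw [hτ]
        unfold gK
        rw [isDer_E.prod, Finset.sum_mul, SF.sum_apply]
        apply Finset.sum_congr rfl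
        intro i _
        show (E (ind G (F i)) * (gK G (K.erase i) F * ind G ∅ ^ y)) S = _
        unfold gK
        rw [mul_assoc]
      have hstep : ∀ i ∈ K, ((k : ℝ) + 1 + y) * (τ - W i) ≤
          ((k : ℝ) + 1) * ((S.card : ℝ) * Z - W i) := by
        intro i hi
        have hprod : gK G K F = ind G (F i) * gK G (K.erase i) F := by
          unfold gK
          exact (Finset.mul_prod_erase K (fun i => ind G (F i)) hi).symm
        have hcard : (K.erase i).card = k + 1 := by
          rw [Finset.card_erase_of_mem hi, hK]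
          rfl
        have e1 : τ - W i = (ind G (F i) * (E (gK G (K.erase i) F) * ind G ∅ ^ y)) S := by
          have : E (gK G K F) * ind G ∅ ^ y = E (ind G (F i)) * (gK G (K.erase i) F * ind G ∅ ^ y)
              + ind G (F i) * (E (gK G (K.erase i) F) * ind G ∅ ^ y) := by
            rw [hprod, E_mul]
            ring
          rw [hτ, this, SF.add_apply]
          show _ - (E (ind G (F i)) * (gK G (K.erase i) F * ind G ∅ ^ y)) S = _
          ring
        have e2 : (S.card : ℝ) * Z - W i = ∑ I ∈ S.powerset, ind G (F i) I *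
            (((S \ I).card : ℝ) * (gK G (K.erase i) F * ind G ∅ ^ y) (S \ I)) := by
          have e3 : Z = (ind G (F i) * (gK G (K.erase i) F * ind G ∅ ^ y)) S := by
            rw [hZ, hprod, mul_assoc]
          rw [e3]
          show _ * _ - (E (ind G (F i)) * (gK G (K.erase i) F * ind G ∅ ^ y)) S = _
          rw [mul_apply, mul_apply, Finset.mul_sum, ← Finset.sum_sub_distrib]
          apply Finset.sum_congr rfl
          intro I hI
          rw [Finset.mem_powerset] at hI
          have h : ((S \ I).card : ℝ) = (S.card : ℝ) - (I.card : ℝ) := by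
            rw [Finset.card_sdiff_of_subset hI, Nat.cast_sub (Finset.card_le_card hI)]
          rw [E_apply, h]
          ring
        rw [e1, e2, mul_apply, Finset.mul_sum, Finset.mul_sum]
        apply Finset.sum_le_sum
        intro I hI
        rw [Finset.mem_powerset] at hI
        have hle : (S \ I).card ≤ y + 1 := le_trans (Finset.card_le_card Finset.sdiff_subset) hS
        have h := ih (K.erase i) F (S \ I) y hcard hle
        push_cast at h
        have hp : 0 ≤ ind G (F i) I := ind_nn G (F i) I
        calc ((k : ℝ) + 1 + y) * (ind G (F i) I * (E (gK G (K.erase i) F) * ind G ∅ ^ y) (S \ I))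
            = ind G (F i) I * (((k : ℝ) + 1 + y) *
                (E (gK G (K.erase i) F) * ind G ∅ ^ y) (S \ I)) := by ring
          _ ≤ ind G (F i) I * (((S \ I).card : ℝ) * ((k : ℝ) + 1) *
                (gK G (K.erase i) F * ind G ∅ ^ y) (S \ I)) :=
              mul_le_mul_of_nonneg_left h hp
          _ = ((k : ℝ) + 1) * (ind G (F i) I * (((S \ I).card : ℝ) *
                (gK G (K.erase i) F * ind G ∅ ^ y) (S \ I))) := by ring
      have htot := Finset.sum_le_sum hstep
      rw [← Finset.mul_sum, ← Finset.mul_sum, Finset.sum_sub_distrib, Finset.sum_sub_distrib,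
        hsum, Finset.sum_const, Finset.sum_const, hK, nsmul_eq_mul, nsmul_eq_mul] at htot
      push_cast at htot ⊢
      have hk : (0 : ℝ) < (k : ℝ) + 1 := by positivity
      have h4 : ((k : ℝ) + 1) * (((k : ℝ) + 1 + 1 + y) * τ) ≤
          ((k : ℝ) + 1) * ((S.card : ℝ) * ((k : ℝ) + 1 + 1) * Z) := by
        nlinarith
      exact le_of_mul_le_mul_left h4 hk

lemma value_empty (f g : SF V) : (f * g) ∅ = f ∅ * g ∅ := by
  rw [mul_apply]
  simp

lemma pow_empty (y : ℕ) : (ind G ∅ ^ y) ∅ = 1 := by
  induction y with
  | zero => rw [pow_zero, SF.one_apply, if_pos rfl]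
  | succ y ih => rw [pow_succ, value_empty, ih, ind_empty, one_mul]

lemma gK_empty (K : Finset ℕ) (F : ℕ → Finset V) : gK G K F ∅ = 1 := by
  unfold gK
  induction K using Finset.induction_on with
  | empty => rw [Finset.prod_empty, SF.one_apply, if_pos rfl]
  | insert a K ha ih => rw [Finset.prod_insert ha, value_empty, ih, ind_empty, one_mul]

section Fin

variable [Fintype V] [DecidableRel G.Adj]

lemma ind_insert_free (v : V) (I : Finset V) :
    ind G ∅ (insert v I) = ind G (G.neighborFinset v) I := by
  apply ind_iff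
  constructor
  · rintro ⟨h, -⟩
    refine ⟨fun a ha b hb => h a (Finset.mem_insert_of_mem ha) b (Finset.mem_insert_of_mem hb), ?_⟩
    rw [Finset.disjoint_left]
    intro a ha hav
    rw [SimpleGraph.mem_neighborFinset] at hav
    exact h v (Finset.mem_insert_self _ _) a (Finset.mem_insert_of_mem ha) hav
  · rintro ⟨h, hd⟩
    refine ⟨?_, Finset.disjoint_empty_right _⟩
    have hva : ∀ a ∈ I, ¬ G.Adj v a := fun a ha hav =>
      Finset.disjoint_left.1 hd ha ((G.mem_neighborFinset v a).2 hav)
    intro a ha b hb
    rcases Finset.mem_insert.1 ha with ha | ha <;> rcases Finset.mem_insert.1 hb with hb | hb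
    · rw [ha, hb]; exact G.loopless.irrefl _
    · rw [ha]; exact hva b hb
    · rw [hb]; exact fun hab => hva a ha hab.symm
    · exact h a ha b hb

lemma ind_insert_res (F : Finset V) (v : V) (I : Finset V) (hF : v ∉ F) :
    ind G F (insert v I) = ind G (F ∪ G.neighborFinset v) I := by
  apply ind_iff
  have h : Good G ∅ (insert v I) ↔ Good G (G.neighborFinset v) I := by
    have h1 := ind_insert_free G v I
    constructor
    · intro h2
      by_contra h3
      rw [ind_pos G h2, ind_neg G h3] at h1
      norm_num at h1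
    · intro h2
      by_contra h3
      rw [ind_neg G h3, ind_pos G h2] at h1
      norm_num at h1
  constructor
  · rintro ⟨h1, h2⟩
    obtain ⟨h3, h4⟩ := h.1 ⟨h1, Finset.disjoint_empty_right _⟩
    refine ⟨h3, Finset.disjoint_union_right.2 ⟨?_, h4⟩⟩
    exact h2.mono_left (Finset.subset_insert v I)
  · rintro ⟨h1, h2⟩
    rw [Finset.disjoint_union_right] at h2
    obtain ⟨h3, -⟩ := h.2 ⟨h1, h2.2⟩
    exact ⟨h3, Finset.disjoint_insert_left.2 ⟨hF, h2.1⟩⟩

/-- The main inequality: `lam ^ r * Z(lam - 1) ≤ (lam - 1) ^ r * Z(lam)`. -/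
lemma main (r : ℕ) : ∀ (S : Finset V) (K : Finset ℕ) (F : ℕ → Finset V) (y : ℕ), S.card = r →
    r ≤ y + 1 →
    ((K.card : ℝ) + y + 1) ^ r * (gK G K F * ind G ∅ ^ y) S ≤
      ((K.card : ℝ) + y) ^ r * (gK G K F * ind G ∅ ^ (y + 1)) S := by
  induction r with
  | zero =>
    intro S K F y hS hr
    rw [Finset.card_eq_zero] at hS
    subst hS
    rw [value_empty, value_empty, gK_empty, pow_empty, pow_empty, pow_zero, pow_zero]
  | succ r ih =>
    intro S K F y hS hr
    set lam : ℝ := (K.card : ℝ) + y + 1 with hlam
    have hlam1 : (K.card : ℝ) + y = lam - 1 := by rw [hlam]; ring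
    rw [hlam1]
    have hlam0 : 0 ≤ lam - 1 := by
      rw [← hlam1]
      exact add_nonneg (Nat.cast_nonneg _) (Nat.cast_nonneg _)
    have hlampos : 0 < lam := by linarith
    set g := gK G K F with hg
    have hgnn : NN g := gK_nn G K F
    have henn : ∀ y, NN (ind G (∅ : Finset V) ^ y) := fun y => (ind_nn G ∅).pow y
    -- choice of the vertex
    have hA := keyA G K.card K F S (y + 1) rfl (by omega)
    obtain ⟨v, hvS, hv⟩ : ∃ v ∈ S, lam * (P v g * ind G ∅ ^ (y + 1)) S ≤
        (K.card : ℝ) * (g * ind G ∅ ^ (y + 1)) S := by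
      by_contra hcon
      push Not at hcon
      have hlt : ∑ v ∈ S, (K.card : ℝ) * (g * ind G ∅ ^ (y + 1)) S <
          ∑ v ∈ S, lam * (P v g * ind G ∅ ^ (y + 1)) S := by
        apply Finset.sum_lt_sum_of_nonempty
        · rw [← Finset.card_pos]; omega
        · exact hcon
      rw [Finset.sum_const, nsmul_eq_mul, ← Finset.mul_sum, ← E_mul_apply] at hlt
      rw [← hg] at hA
      push_cast at hA
      have : lam = (K.card : ℝ) + ((y : ℝ) + 1) := by rw [hlam]; ring
      rw [this] at hlt
      linarith
    have hSc : (S.erase v).card = r := by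
      rw [Finset.card_erase_of_mem hvS, hS]
      rfl
    -- the part where `v` has a restricted colour
    have hR : ∀ z : ℕ, (P v g * ind G ∅ ^ z) S = ∑ i ∈ K, if v ∈ F i then 0 else
        (gK G K (Function.update F i (F i ∪ G.neighborFinset v)) * ind G ∅ ^ z) (S.erase v) := by
      intro z
      rw [hg]
      unfold gK
      rw [(isDer_P v).prod, Finset.sum_mul, SF.sum_apply]
      apply Finset.sum_congr rfl
      intro i hi
      rw [mul_assoc]
      split_ifs with hvi
      · rw [P_ind_eq_zero G hvi, zero_mul, SF.zero_apply]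
      · rw [P_mul_erase (f' := ind G (F i ∪ G.neighborFinset v)) hvS
          (fun I _ => ind_insert_res G (F i) v I hvi)]
        have hp : ∏ l ∈ K, ind G (Function.update F i (F i ∪ G.neighborFinset v) l) =
            ind G (F i ∪ G.neighborFinset v) * ∏ l ∈ K.erase i, ind G (F l) := by
          rw [← Finset.mul_prod_erase K _ hi]
          rw [Function.update_self]
          congr 1
          apply Finset.prod_congr rfl
          intro l hl
          rw [Function.update_of_ne (Finset.ne_of_mem_erase hl)]
        rw [hp, mul_assoc]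
    -- the part where `v` has a free colour
    obtain ⟨m, hm⟩ := Infinite.exists_notMem_finset K
    set F' := Function.update F m (G.neighborFinset v) with hF'
    have hgK' : gK G (insert m K) F' = ind G (G.neighborFinset v) * g := by
      rw [hg]
      unfold gK
      rw [Finset.prod_insert hm, hF', Function.update_self]
      congr 1
      apply Finset.prod_congr rfl
      intro l hl
      rw [Function.update_of_ne (fun h : l = m => hm (h ▸ hl))]
    have hfree : ∀ z : ℕ, (g * ind G ∅ ^ (z + 1)) S = (P v g * ind G ∅ ^ (z + 1)) S +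
        ((z : ℝ) + 1) * (gK G (insert m K) F' * ind G ∅ ^ z) (S.erase v) := by
      intro z
      rw [← P_self hvS (g * ind G ∅ ^ (z + 1)), P_mul, SF.add_apply, (isDer_P v).pow,
        mul_smul_comm, nsmul_apply]
      push_cast
      congr 2
      have e : g * (ind G ∅ ^ z * P v (ind G ∅)) = P v (ind G ∅) * (g * ind G ∅ ^ z) := by ring
      rw [e, P_mul_erase (f' := ind G (G.neighborFinset v)) hvS
          (fun I _ => ind_insert_free G v I), hgK', mul_assoc]
    set ZR := (P v g * ind G ∅ ^ (y + 1)) S with hZR
    set q := (gK G (insert m K) F' * ind G ∅ ^ y) (S.erase v) with hq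
    have hZRnn : 0 ≤ ZR := ((hgnn.P v).mul (henn _)) S
    have hqnn : 0 ≤ q := ((gK_nn G _ _).mul (henn _)) _
    have hIH1 : lam ^ r * (P v g * ind G ∅ ^ y) S ≤ (lam - 1) ^ r * ZR := by
      rw [hZR, hR, hR, Finset.mul_sum, Finset.mul_sum]
      apply Finset.sum_le_sum
      intro i _
      split_ifs with hvi
      · simp
      · have := ih (S.erase v) K (Function.update F i (F i ∪ G.neighborFinset v)) y hSc (by omega)
        rw [← hlam, hlam1] at this
        exact this
    have hIH2 : lam ^ r * ((g * ind G ∅ ^ y) S - (P v g * ind G ∅ ^ y) S) ≤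
        (lam - 1) ^ r * (y * q) := by
      obtain _ | z := y
      · have h0 : (g * ind G ∅ ^ 0) S - (P v g * ind G ∅ ^ 0) S = 0 := by
          rw [← P_self hvS (g * ind G ∅ ^ 0), pow_zero, mul_one, mul_one]
          ring
        rw [h0]
        simp
      · rw [hfree z]
        have h := ih (S.erase v) (insert m K) F' z hSc (by omega)
        rw [Finset.card_insert_of_notMem hm] at h
        push_cast at h hlam ⊢
        have e1 : (K.card : ℝ) + 1 + z + 1 = lam := by rw [hlam]; ring
        have e2 : (K.card : ℝ) + 1 + z = lam - 1 := by rw [hlam]; ring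
        rw [e1, e2] at h
        have hz : (0 : ℝ) ≤ (z : ℝ) + 1 := by positivity
        have := mul_le_mul_of_nonneg_left h hz
        calc lam ^ r * (((P v g * ind G ∅ ^ (z + 1)) S + ((z : ℝ) + 1) *
              (gK G (insert m K) F' * ind G ∅ ^ z) (S.erase v)) - (P v g * ind G ∅ ^ (z + 1)) S)
            = ((z : ℝ) + 1) * (lam ^ r * (gK G (insert m K) F' * ind G ∅ ^ z) (S.erase v)) := by
              ring
          _ ≤ ((z : ℝ) + 1) * ((lam - 1) ^ r *
              (gK G (insert m K) F' * ind G ∅ ^ (z + 1)) (S.erase v)) := this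
          _ = (lam - 1) ^ r * (((z : ℝ) + 1) * q) := by rw [hq]; ring
    have hZ1 := hfree y
    rw [← hZR, ← hq] at hZ1
    set Z1 := (g * ind G ∅ ^ (y + 1)) S with hZ1def
    set Z0 := (g * ind G ∅ ^ y) S with hZ0def
    have hsum : lam ^ r * Z0 ≤ (lam - 1) ^ r * (ZR + y * q) := by
      have : lam ^ r * Z0 = lam ^ r * (P v g * ind G ∅ ^ y) S +
          lam ^ r * (Z0 - (P v g * ind G ∅ ^ y) S) := by ring
      rw [this]
      have h := add_le_add hIH1 hIH2
      refine h.trans (le_of_eq ?_)
      ring
    have hlast : lam * (ZR + y * q) ≤ (lam - 1) * Z1 := by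
      rw [hZ1] at hv ⊢
      have hy : (0 : ℝ) < (y : ℝ) + 1 := by positivity
      have hZRq : ZR ≤ (K.card : ℝ) * q := by
        have h5 : ((y : ℝ) + 1) * ZR ≤ ((y : ℝ) + 1) * ((K.card : ℝ) * q) := by
          rw [hlam] at hv
          nlinarith
        exact le_of_mul_le_mul_left h5 hy
      have e : (lam - 1) * (ZR + ((y : ℝ) + 1) * q) - lam * (ZR + y * q) =
          (K.card : ℝ) * q - ZR := by
        rw [hlam]; ring
      linarith
    calc lam ^ (r + 1) * Z0 = lam * (lam ^ r * Z0) := by ring
      _ ≤ lam * ((lam - 1) ^ r * (ZR + y * q)) := mul_le_mul_of_nonneg_left hsum hlampos.le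
      _ = (lam - 1) ^ r * (lam * (ZR + y * q)) := by ring
      _ ≤ (lam - 1) ^ r * ((lam - 1) * Z1) :=
          mul_le_mul_of_nonneg_left hlast (pow_nonneg hlam0 r)
      _ = (lam - 1) ^ (r + 1) * Z1 := by ring

/-! ### Colourings -/

/-- Proper colourings of `S` by `0, ..., m - 1`; the vertices outside `S` have the value `m`. -/
noncomputable def colS (m : ℕ) (S : Finset V) : Finset (V → ℕ) :=
  (Fintype.piFinset (fun v => if v ∈ S then Finset.range m else {m})).filter
    (fun c => ∀ u ∈ S, ∀ v ∈ S, G.Adj u v → c u ≠ c v)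

lemma mem_colS {m : ℕ} {S : Finset V} {c : V → ℕ} : c ∈ colS G m S ↔
    (∀ v ∈ S, c v < m) ∧ (∀ v, v ∉ S → c v = m) ∧
      (∀ u ∈ S, ∀ v ∈ S, G.Adj u v → c u ≠ c v) := by
  unfold colS
  rw [Finset.mem_filter, Fintype.mem_piFinset]
  constructor
  · rintro ⟨h1, h2⟩
    refine ⟨fun v hv => ?_, fun v hv => ?_, h2⟩
    · have := h1 v
      rwa [if_pos hv, Finset.mem_range] at this
    · have := h1 v
      rwa [if_neg hv, Finset.mem_singleton] at this
  · rintro ⟨h1, h2, h3⟩
    refine ⟨fun v => ?_, h3⟩
    by_cases hv : v ∈ S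
    · rw [if_pos hv, Finset.mem_range]; exact h1 v hv
    · rw [if_neg hv, Finset.mem_singleton]; exact h2 v hv

lemma card_colS (m : ℕ) : ∀ S : Finset V, ((colS G m S).card : ℝ) = (ind G ∅ ^ m) S := by
  induction m with
  | zero =>
    intro S
    rw [pow_zero, SF.one_apply]
    split_ifs with h
    · subst h
      have : colS G 0 ∅ = {fun _ => 0} := by
        ext c
        rw [mem_colS, Finset.mem_singleton]
        constructor
        · rintro ⟨-, h, -⟩
          funext v
          exact h v (Finset.notMem_empty v)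
        · rintro rfl
          exact ⟨by simp, by simp, by simp⟩
      rw [this]
      simp
    · have : colS G 0 S = ∅ := by
        rw [Finset.eq_empty_iff_forall_notMem]
        intro c hc
        obtain ⟨v, hv⟩ := Finset.nonempty_iff_ne_empty.2 h
        exact absurd ((mem_colS G).1 hc |>.1 v hv) (Nat.not_lt_zero _)
      rw [this]
      simp
  | succ m ih =>
    intro S
    rw [pow_succ', SF.mul_apply]
    have hmap : ∀ c ∈ colS G (m + 1) S, S.filter (fun v => c v = m) ∈ S.powerset := by
      intro c _
      exact Finset.mem_powerset.2 (Finset.filter_subset _ _)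
    rw [Finset.card_eq_sum_card_fiberwise hmap]
    push_cast
    apply Finset.sum_congr rfl
    intro I hI
    rw [Finset.mem_powerset] at hI
    by_cases hg : Good G ∅ I
    · rw [ind_pos G hg, one_mul, ← ih]
      congr 1
      apply Finset.card_bij' (fun c _ => fun v => min (c v) m)
        (fun c _ => fun v => if v ∈ S then c v else m + 1)
      · intro c hc
        rw [Finset.mem_filter, mem_colS] at hc
        obtain ⟨⟨h1, h2, h3⟩, h4⟩ := hc
        rw [mem_colS]
        have hmem : ∀ v, v ∈ S \ I → c v < m := by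
          intro v hv
          rw [Finset.mem_sdiff] at hv
          have hlt := h1 v hv.1
          have hne : c v ≠ m := fun h => hv.2 (by rw [← h4]; simp [hv.1, h])
          omega
        refine ⟨fun v hv => ?_, fun v hv => ?_, fun u hu v hv huv => ?_⟩
        · have := hmem v hv
          try simp only
          omega
        · rw [Finset.mem_sdiff] at hv
          try simp only
          by_cases hvS : v ∈ S
          · have hvI : v ∈ I := by
              by_contra h
              exact hv ⟨hvS, h⟩
            rw [← h4, Finset.mem_filter] at hvI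
            rw [hvI.2, min_self]
          · rw [h2 v hvS]
            omega
        · have hu' := hmem u hu
          have hv' := hmem v hv
          have := h3 u (Finset.sdiff_subset hu) v (Finset.sdiff_subset hv) huv
          try simp only
          omega
      · intro c hc
        rw [mem_colS] at hc
        obtain ⟨h1, h2, h3⟩ := hc
        have hI' : ∀ v ∈ I, c v = m := fun v hv => h2 v (by simp [hv])
        rw [Finset.mem_filter, mem_colS]
        refine ⟨⟨fun v hv => ?_, fun v hv => ?_, fun u hu v hv huv => ?_⟩, ?_⟩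
        · simp only [hv, if_true]
          by_cases hvI : v ∈ I
          · rw [hI' v hvI]; omega
          · have := h1 v (Finset.mem_sdiff.2 ⟨hv, hvI⟩)
            omega
        · simp only [hv, if_false]
        · simp only [hu, hv, if_true]
          by_cases huI : u ∈ I <;> by_cases hvI : v ∈ I
          · exact absurd huv (hg.1 u huI v hvI)
          · have := h1 v (Finset.mem_sdiff.2 ⟨hv, hvI⟩)
            rw [hI' u huI]
            omega
          · have := h1 u (Finset.mem_sdiff.2 ⟨hu, huI⟩)
            rw [hI' v hvI]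
            omega
          · exact h3 u (Finset.mem_sdiff.2 ⟨hu, huI⟩) v (Finset.mem_sdiff.2 ⟨hv, hvI⟩) huv
        · ext v
          rw [Finset.mem_filter]
          constructor
          · rintro ⟨hv, h⟩
            simp only [hv, if_true] at h
            by_contra hvI
            have := h1 v (Finset.mem_sdiff.2 ⟨hv, hvI⟩)
            omega
          · intro hvI
            refine ⟨hI hvI, ?_⟩
            simp only [hI hvI, if_true]
            exact hI' v hvI
      · intro c hc
        rw [Finset.mem_filter, mem_colS] at hc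
        obtain ⟨⟨h1, h2, h3⟩, h4⟩ := hc
        funext v
        simp only
        by_cases hv : v ∈ S
        · simp only [hv, if_true]
          have := h1 v hv
          omega
        · simp only [hv, if_false]
          rw [h2 v hv]
      · intro c hc
        rw [mem_colS] at hc
        obtain ⟨h1, h2, h3⟩ := hc
        funext v
        simp only
        by_cases hv : v ∈ S
        · simp only [hv, if_true]
          by_cases hvI : v ∈ I
          · rw [h2 v (by simp [hvI]), min_self]
          · have := h1 v (Finset.mem_sdiff.2 ⟨hv, hvI⟩)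
            omega
        · simp only [hv, if_false]
          rw [h2 v (by simp [hv])]
          omega
    · rw [ind_neg G hg, zero_mul]
      have : (colS G (m + 1) S).filter (fun c => S.filter (fun v => c v = m) = I) = ∅ := by
        rw [Finset.eq_empty_iff_forall_notMem]
        intro c hc
        rw [Finset.mem_filter, mem_colS] at hc
        obtain ⟨⟨h1, h2, h3⟩, h4⟩ := hc
        apply hg
        refine ⟨fun u hu v hv huv => ?_, Finset.disjoint_empty_right _⟩
        rw [← h4, Finset.mem_filter] at hu hv
        exact h3 u hu.1 v hv.1 huv (hu.2.trans hv.2.symm)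
      rw [this]
      simp

lemma card_coloring (m : ℕ) :
    (Nat.card (G.Coloring (Fin m)) : ℝ) = (ind G ∅ ^ m) Finset.univ := by
  rw [← card_colS, ← Nat.card_eq_finsetCard]
  congr 1
  apply Nat.card_congr
  exact
    { toFun := fun c => ⟨fun v => (c v : ℕ), by
        rw [mem_colS]
        exact ⟨fun v _ => (c v).2, fun v hv => absurd (Finset.mem_univ v) hv,
          fun u _ v _ huv h => c.valid huv (Fin.ext h)⟩⟩
      invFun := fun c => SimpleGraph.Coloring.mk
        (fun v => (⟨c.1 v, ((mem_colS G).1 c.2).1 v (Finset.mem_univ v)⟩ : Fin m))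
        (fun {u v} huv h => ((mem_colS G).1 c.2).2.2 u (Finset.mem_univ u) v (Finset.mem_univ v)
          huv (by simpa using h))
      left_inv := fun c => by
        ext v
        rfl
      right_inv := fun c => by
        apply Subtype.ext
        funext v
        rfl }

/-- Colouring a clique first. -/
lemma clique_first (s : Finset V) : ∀ (K : Finset ℕ) (F : ℕ → Finset V) (S : Finset V), s ⊆ S →
    (∀ i ∈ K, s ⊆ F i) → (∀ u ∈ s, ∀ v ∈ s, u ≠ v → G.Adj u v) →
    ∃ (K' : Finset ℕ) (F' : ℕ → Finset V), K'.card = K.card + s.card ∧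
      ∀ y : ℕ, (gK G K F * ind G ∅ ^ (y + s.card)) S =
        ((y + s.card).descFactorial s.card : ℝ) * (gK G K' F' * ind G ∅ ^ y) (S \ s) := by
  induction s using Finset.induction_on with
  | empty =>
    intro K F S _ _ _
    refine ⟨K, F, by simp, fun y => ?_⟩
    simp
  | insert v s hvs ih =>
    intro K F S hS hF hcl
    obtain ⟨m, hm⟩ := Infinite.exists_notMem_finset K
    set F1 := Function.update F m (G.neighborFinset v) with hF1
    have hvS : v ∈ S := hS (Finset.mem_insert_self _ _)
    have hgK' : gK G (insert m K) F1 = ind G (G.neighborFinset v) * gK G K F := by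
      unfold gK
      rw [Finset.prod_insert hm, hF1, Function.update_self]
      congr 1
      apply Finset.prod_congr rfl
      intro l hl
      rw [Function.update_of_ne (fun h : l = m => hm (h ▸ hl))]
    have hP0 : P v (gK G K F) = 0 := by
      unfold gK
      rw [(isDer_P v).prod]
      apply Finset.sum_eq_zero
      intro i hi
      rw [P_ind_eq_zero G (hF i hi (Finset.mem_insert_self _ _)), zero_mul]
    have hstep : ∀ z : ℕ, (gK G K F * ind G ∅ ^ (z + 1)) S =
        ((z : ℝ) + 1) * (gK G (insert m K) F1 * ind G ∅ ^ z) (S.erase v) := by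
      intro z
      rw [← P_self hvS (gK G K F * ind G ∅ ^ (z + 1)), P_mul, hP0, zero_mul, zero_add,
        (isDer_P v).pow, mul_smul_comm, nsmul_apply]
      push_cast
      congr 1
      have e : gK G K F * (ind G ∅ ^ z * P v (ind G ∅)) =
        P v (ind G ∅) * (gK G K F * ind G ∅ ^ z) := by ring
      rw [e, P_mul_erase (f' := ind G (G.neighborFinset v)) hvS
          (fun I _ => ind_insert_free G v I), hgK', mul_assoc]
    obtain ⟨K', F', hK', h⟩ := ih (insert m K) F1 (S.erase v)
      (fun u hu => Finset.mem_erase.2 ⟨fun h => hvs (h ▸ hu), hS (Finset.mem_insert_of_mem hu)⟩)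
      (by
        intro i hi u hu
        rcases Finset.mem_insert.1 hi with rfl | hi
        · rw [hF1, Function.update_self, SimpleGraph.mem_neighborFinset]
          exact hcl v (Finset.mem_insert_self _ _) u (Finset.mem_insert_of_mem hu)
            (fun h => hvs (h ▸ hu))
        · rw [hF1, Function.update_of_ne (fun h : i = m => hm (h ▸ hi))]
          exact hF i hi (Finset.mem_insert_of_mem hu))
      (fun u hu w hw => hcl u (Finset.mem_insert_of_mem hu) w (Finset.mem_insert_of_mem hw))
    refine ⟨K', F', ?_, fun y => ?_⟩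
    · rw [hK', Finset.card_insert_of_notMem hm, Finset.card_insert_of_notMem hvs]
      ring
    · rw [Finset.card_insert_of_notMem hvs, ← add_assoc, hstep, h y,
        Nat.succ_descFactorial_succ]
      have hset : S.erase v \ s = S \ insert v s := by
        ext x
        simp only [Finset.mem_sdiff, Finset.mem_erase, Finset.mem_insert]
        tauto
      rw [hset]
      push_cast
      ring

end Fin

end Count

/-- For every finite simple graph G on n vertices with clique number ω and every integer λ ≥ n, the number of proper (λ−1)-colourings divided by the number of proper λ-colourings is at most (1−ω/λ)(1−1/λ)^(n−ω). -/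
theorem result :
    ∀ (V : Type) [Fintype V] (G : SimpleGraph V) (lam : ℕ),
      Fintype.card V ≤ lam →
      (Nat.card (G.Coloring (Fin (lam - 1))) : ℝ) / (Nat.card (G.Coloring (Fin lam)) : ℝ)
        ≤ (1 - ((sSup {k : ℕ | ∃ s : Finset V, G.IsNClique k s} : ℕ) : ℝ) / (lam : ℝ))
          * (1 - 1 / (lam : ℝ)) ^ (Fintype.card V - sSup {k : ℕ | ∃ s : Finset V, G.IsNClique k s}) := by
  intro V _ G lam hlam
  classical
  have hbdd : BddAbove {k : ℕ | ∃ s : Finset V, G.IsNClique k s} := by
    refine ⟨Fintype.card V, ?_⟩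
    rintro k ⟨s, hs⟩
    rw [← hs.card_eq]
    exact Finset.card_le_univ s
  have hne : {k : ℕ | ∃ s : Finset V, G.IsNClique k s}.Nonempty :=
    ⟨0, ∅, by simp⟩
  obtain ⟨s, hs⟩ := Nat.sSup_mem hne hbdd
  set om := sSup {k : ℕ | ∃ s : Finset V, G.IsNClique k s} with hom
  have hsc : s.card = om := hs.card_eq
  have hn : om ≤ Fintype.card V := by
    rw [← hsc]
    exact Finset.card_le_univ s
  obtain ⟨K, F, hK, hform⟩ := clique_first G s ∅ (fun _ => ∅) Finset.univ (Finset.subset_univ s)
    (by simp) (fun u hu v hv huv => hs.isClique hu hv huv)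
  have hg1 : gK G ∅ (fun _ => ∅) = 1 := by
    unfold gK
    simp
  rw [hg1] at hform
  simp only [one_mul] at hform
  rw [Finset.card_empty, zero_add, hsc] at hK
  rw [hsc] at hform
  rw [card_coloring, card_coloring]
  rcases Nat.eq_zero_or_pos lam with h0 | hpos
  · -- no vertices
    subst h0
    have hV : Fintype.card V = 0 := by omega
    have hom0 : om = 0 := by omega
    rw [hV, hom0]
    have : (ind G ∅ ^ (0 - 1)) Finset.univ = 1 ∧ (ind G ∅ ^ 0) Finset.univ = 1 := by
      have hu : (Finset.univ : Finset V) = ∅ := by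
        rw [← Finset.card_eq_zero, Finset.card_univ, hV]
      rw [hu]
      exact ⟨pow_empty G _, pow_empty G _⟩
    rw [this.1]
    simp
  · have hlamR : (0 : ℝ) < lam := by exact_mod_cast hpos
    have hlam1 : (0 : ℝ) ≤ 1 - 1 / (lam : ℝ) := by
      have h1 : (1 : ℝ) ≤ lam := by exact_mod_cast hpos
      rw [sub_nonneg, div_le_one hlamR]
      exact h1
    have homlam : om ≤ lam := hn.trans hlam
    have hfac : (0 : ℝ) ≤ 1 - (om : ℝ) / (lam : ℝ) := by
      rw [sub_nonneg, div_le_one hlamR]
      exact_mod_cast homlam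
    have hRHS : 0 ≤ (1 - (om : ℝ) / (lam : ℝ)) * (1 - 1 / (lam : ℝ)) ^ (Fintype.card V - om) :=
      mul_nonneg hfac (pow_nonneg hlam1 _)
    have hden : 0 ≤ (ind G ∅ ^ lam) Finset.univ := ((ind_nn G ∅).pow lam) _
    apply div_le_of_le_mul₀ hden hRHS
    rcases Nat.lt_or_ge om lam with hlt | hge
    · obtain ⟨y, hy⟩ : ∃ y, lam = om + (y + 1) := ⟨lam - om - 1, by omega⟩
      have e1 : lam - 1 = y + om := by omega
      have e2 : lam = (y + 1) + om := by omega
      have hZ0 := hform y
      have hZ1 := hform (y + 1)
      rw [← e1] at hZ0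
      rw [← e2] at hZ1
      rw [hZ0, hZ1]
      have hR : (Finset.univ \ s).card = Fintype.card V - om := by
        rw [Finset.card_sdiff_of_subset (Finset.subset_univ s), Finset.card_univ, hsc]
      have hm := main G (Fintype.card V - om) (Finset.univ \ s) K F y hR (by omega)
      rw [hK] at hm
      set A := (gK G K F * ind G ∅ ^ y) (Finset.univ \ s) with hA
      set B := (gK G K F * ind G ∅ ^ (y + 1)) (Finset.univ \ s) with hB
      set r := Fintype.card V - om with hr
      have hl1 : (om : ℝ) + y + 1 = lam := by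
        rw [hy]; push_cast; ring
      have hl2 : (om : ℝ) + y = lam - 1 := by linarith
      rw [hl1, hl2] at hm
      -- the falling factorials
      have hdf : (lam : ℝ) * ((lam - 1).descFactorial om : ℝ) =
          ((lam : ℝ) - om) * (lam.descFactorial om : ℝ) := by
        have h := Nat.succ_descFactorial (lam - 1) om
        have e3 : lam - 1 + 1 = lam := by omega
        rw [e3] at h
        have h2 : (((lam - om) * lam.descFactorial om : ℕ) : ℝ) =
            ((lam * (lam - 1).descFactorial om : ℕ) : ℝ) := by exact_mod_cast h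
        push_cast [Nat.cast_sub homlam] at h2
        linarith
      have hpow : (0 : ℝ) < (lam : ℝ) ^ r := pow_pos hlamR r
      have hkey : A ≤ (1 - 1 / (lam : ℝ)) ^ r * B := by
        have e4 : (1 - 1 / (lam : ℝ)) ^ r = ((lam : ℝ) - 1) ^ r / (lam : ℝ) ^ r := by
          rw [← div_pow]
          congr 1
          field_simp
        rw [e4, div_mul_eq_mul_div, le_div_iff₀ hpow]
        linarith
      have hdf' : ((lam - 1).descFactorial om : ℝ) =
          (1 - (om : ℝ) / (lam : ℝ)) * (lam.descFactorial om : ℝ) := by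
        field_simp
        linarith
      rw [hdf']
      have hnn : 0 ≤ (1 - (om : ℝ) / (lam : ℝ)) * (lam.descFactorial om : ℝ) :=
        mul_nonneg hfac (Nat.cast_nonneg _)
      calc (1 - (om : ℝ) / (lam : ℝ)) * (lam.descFactorial om : ℝ) * A
          ≤ (1 - (om : ℝ) / (lam : ℝ)) * (lam.descFactorial om : ℝ) *
            ((1 - 1 / (lam : ℝ)) ^ r * B) := mul_le_mul_of_nonneg_left hkey hnn
        _ = (1 - (om : ℝ) / (lam : ℝ)) * (1 - 1 / (lam : ℝ)) ^ r *
            ((lam.descFactorial om : ℝ) * B) := by ring
    · -- `om = lam`: there is no colouring with `lam - 1` colours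
      have hol : om = lam := le_antisymm homlam hge
      have hzero : (ind G ∅ ^ (lam - 1)) Finset.univ = 0 := by
        rw [← card_coloring]
        have : IsEmpty (G.Coloring (Fin (lam - 1))) := by
          refine ⟨fun c => ?_⟩
          have h1 : G.Colorable (lam - 1) := ⟨c⟩
          have h2 : G.CliqueFree om := h1.cliqueFree (by omega)
          exact h2 s hs
        rw [Nat.card_of_isEmpty]
        simp
      rw [hzero]
      exact mul_nonneg hRHS hden

end Pool.Agent.S07963
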