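import Pool.Statements.S07995

set_option autoImplicit false
open Pool Pool.MP_32c2cb_co

namespace Pool.Agent.S07995

open scoped Matrix

/-- The linear map `(u, w) ↦ P_π u + w`. -/
noncomputable def L {n : ℕ} (π : Equiv.Perm (Fin n)) :
    ((Fin n ⊕ Fin n → ℝ) →ₗ[ℝ] (Fin n → ℝ)) where
  toFun x := fun k => x (Sum.inl (π.symm k)) + x (Sum.inr k)
  map_add' x y := by funext k; simp; ring
  map_smul' c x := by funext k; simp; ring

/-- The columns of the matrix with blocks `1` and `P_σ`. -/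
noncomputable def b {n : ℕ} (σ : Equiv.Perm (Fin n)) (j : Fin n) : Fin n ⊕ Fin n → ℝ :=
  Sum.elim (Pi.single j 1) (Pi.single (σ j) 1)

theorem L_b {n : ℕ} (π σ : Equiv.Perm (Fin n)) (j : Fin n) :
    L π (b σ j) = Pi.single (π j) 1 + Pi.single (σ j) 1 := by
  funext k
  simp only [L, b, LinearMap.coe_mk, AddHom.coe_mk, Sum.elim_inl, Sum.elim_inr, Pi.add_apply,
    Pi.single_apply]
  congr 1
  simp [Equiv.symm_apply_eq]

/-- The functional attached to a permutation. -/
noncomputable def φ {n : ℕ} (π : Equiv.Perm (Fin n)) :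
    (⋀[ℝ]^n (Fin n ⊕ Fin n → ℝ)) →ₗ[ℝ] ℝ :=
  exteriorPower.alternatingMapLinearEquiv ((Matrix.detRowAlternating (n := Fin n) (R := ℝ)).compLinearMap (L π))

/-- The vector attached to a permutation. -/
noncomputable def v {n : ℕ} (σ : Equiv.Perm (Fin n)) : ⋀[ℝ]^n (Fin n ⊕ Fin n → ℝ) :=
  exteriorPower.ιMulti ℝ n (b σ)

theorem φ_v {n : ℕ} (π σ : Equiv.Perm (Fin n)) :
    φ π (v σ) = Matrix.detRowAlternating (fun j => (Pi.single (π j) 1 + Pi.single (σ j) 1 : Fin n → ℝ)) := by
  unfold φ v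
  rw [exteriorPower.alternatingMapLinearEquiv_apply_ιMulti]
  rw [AlternatingMap.compLinearMap_apply]
  congr 1
  funext j
  exact L_b π σ j

theorem φ_v_self {n : ℕ} (σ : Equiv.Perm (Fin n)) : φ σ (v σ) ≠ 0 := by
  rw [φ_v]
  have h : (fun j => (Pi.single (σ j) 1 + Pi.single (σ j) 1 : Fin n → ℝ)) =
      ((2 : ℝ) • (σ.permMatrix ℝ) : Matrix (Fin n) (Fin n) ℝ) := by
    funext j k
    simp [Equiv.Perm.permMatrix, PEquiv.toMatrix_apply, Pi.single_apply, eq_comm]
    split_ifs <;> norm_num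
  rw [h]
  show Matrix.det _ ≠ 0
  rw [Matrix.det_smul, Matrix.det_permutation]
  refine mul_ne_zero (pow_ne_zero _ two_ne_zero) ?_
  exact_mod_cast (Equiv.Perm.sign σ).ne_zero

theorem φ_v_zero {n : ℕ} (π σ : Equiv.Perm (Fin n)) {i j : Fin n} (hij : i ≠ j)
    (h1 : σ i = π j) (h2 : σ j = π i) : φ π (v σ) = 0 := by
  rw [φ_v]
  apply AlternatingMap.map_eq_zero_of_eq _ _ _ hij
  simp only [h1, h2]
  rw [add_comm]

/-- There is a real constant C such that for every n, any set of permutations of n points in which every two distinct members swap the images of some two distinct points has at most C^n elements. -/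
theorem result :
    ∃ C : ℝ, ∀ n : ℕ, ∀ A : Finset (Equiv.Perm (Fin n)),
      (∀ σ ∈ A, ∀ π ∈ A, σ ≠ π →
        ∃ i j : Fin n, i ≠ j ∧ σ i = π j ∧ σ j = π i) →
      (A.card : ℝ) ≤ C ^ n := by
  refine ⟨4, fun n A hA => ?_⟩
  have hli : LinearIndependent ℝ (fun σ : A => v σ.1) := by
    rw [linearIndependent_iff']
    intro s c hc π hπ
    have h1 := congrArg (φ π.1) hc
    rw [map_sum, map_zero, Finset.sum_eq_single π] at h1
    · rw [map_smul, smul_eq_mul] at h1
      exact (mul_eq_zero.1 h1).resolve_right (φ_v_self _)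
    · intro σ _ hσ
      obtain ⟨i, j, hij, h2, h3⟩ := hA σ.1 σ.2 π.1 π.2 (fun h => hσ (Subtype.ext h))
      rw [map_smul, φ_v_zero π.1 σ.1 hij h2 h3, smul_zero]
    · intro h; exact absurd hπ h
  have h1 := hli.fintype_card_le_finrank
  rw [Fintype.card_coe, exteriorPower.finrank_eq, Module.finrank_fintype_fun_eq_card,
    Fintype.card_sum, Fintype.card_fin] at h1
  have h2 : (n + n).choose n ≤ 2 ^ (n + n) := Nat.choose_le_two_pow _ _
  have h3 : A.card ≤ 4 ^ n := by
    calc A.card ≤ 2 ^ (n + n) := h1.trans h2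
      _ = 4 ^ n := by rw [← two_mul, pow_mul]; norm_num
  exact_mod_cast h3

end Pool.Agent.S07995
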