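import Pool.Statements.S08268
import Mathlib

set_option autoImplicit false
open Pool Pool.MP_3df3be_co

namespace Pool.Agent.S08268

/-!
A latin square of order 8 cannot have both a subsquare of order 4 and a subsquare of order 3.
A subsquare of order 4 (half of 8) splits the square into four quadrants, all of them subsquares.
A subsquare of order 3 would have to lie in one quadrant (impossible since 3 > 4 / 2) or to be
split evenly by the quadrants (impossible since 3 is odd).
-/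

open Finset Function

/-- a closed `m × m` subarray: every row of it is onto the symbol set -/
theorem row_image {L : Fin 8 → Fin 8 → Fin 8} (hr : ∀ i, Injective (L i)) {R C S : Finset (Fin 8)}
    (hcard : S.card = C.card) (h : ∀ r ∈ R, ∀ c ∈ C, L r c ∈ S) {r : Fin 8} (hrR : r ∈ R) :
    C.image (L r) = S := by
  refine eq_of_subset_of_card_le ?_ ?_
  · intro s hs
    obtain ⟨c, hc, rfl⟩ := mem_image.1 hs
    exact h r hrR c hc
  · rw [card_image_of_injective _ (hr r), hcard]

/-- the four quadrants -/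
theorem quadrants {L : Fin 8 → Fin 8 → Fin 8} (hr : ∀ i, Injective (L i))
    (hc : ∀ j, Injective (fun i => L i j)) {R C S : Finset (Fin 8)}
    (hR : R.card = 4) (hC : C.card = 4) (hS : S.card = 4)
    (h : ∀ r ∈ R, ∀ c ∈ C, L r c ∈ S) (r c : Fin 8) : L r c ∈ S ↔ (r ∈ R ↔ c ∈ C) := by
  have h1 : ∀ r ∈ R, ∀ c, c ∉ C → L r c ∉ S := by
    intro r hrR c hcC hs
    rw [← row_image hr (hS.trans hC.symm) h hrR] at hs
    obtain ⟨c', hc', he⟩ := mem_image.1 hs
    exact hcC (hr r he ▸ hc')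
  have h2 : ∀ r, r ∉ R → ∀ c ∈ C, L r c ∉ S := by
    intro r hrR c hcC hs
    have := row_image (L := fun i j => L j i) hc (hS.trans hR.symm)
      (fun c hc r hr => h r hr c hc) hcC
    rw [← this] at hs
    obtain ⟨r', hr', he⟩ := mem_image.1 hs
    exact hrR (hc c he ▸ hr')
  have h3 : ∀ r, r ∉ R → ∀ c, c ∉ C → L r c ∈ S := by
    intro r hrR c hcC
    by_contra hs
    have h4 : (Sᶜ).card = C.card := by
      rw [card_compl, hS, hC]; simp
    have h5 := row_image (R := Rᶜ) (S := Sᶜ) hr h4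
      (fun r hr c hc => mem_compl.2 (h2 r (mem_compl.1 hr) c hc)) (mem_compl.2 hrR)
    have h6 : L r c ∈ Sᶜ := mem_compl.2 hs
    rw [← h5] at h6
    obtain ⟨c', hc', he⟩ := mem_image.1 h6
    exact hcC (hr r he ▸ hc')
  by_cases hr : r ∈ R <;> by_cases hc : c ∈ C
  · simp [hr, hc, h r hr c hc]
  · simp [hr, hc, h1 r hr c hc]
  · simp [hr, hc, h2 r hr c hc]
  · simp [hr, hc, h3 r hr c hc]

/-- a subsquare of order 3 is not split by the rows -/
theorem no_split {L : Fin 8 → Fin 8 → Fin 8} (hr : ∀ i, Injective (L i))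
    {R₀ C₀ S₀ R C S : Finset (Fin 8)} (hq : ∀ r c, L r c ∈ S₀ ↔ (r ∈ R₀ ↔ c ∈ C₀))
    (hC : C.card = 3) (hS : S.card = 3) (h : ∀ r ∈ R, ∀ c ∈ C, L r c ∈ S) :
    ∃ p : Prop, ∀ r ∈ R, (r ∈ R₀ ↔ p) := by
  classical
  have h0 : ∀ r ∈ R, (S.filter (fun s => s ∈ S₀)).card =
      (C.filter (fun c => (r ∈ R₀ ↔ c ∈ C₀))).card := by
    intro r hrR
    rw [← row_image hr (hS.trans hC.symm) h hrR, filter_image, card_image_of_injective _ (hr r)]
    congr 1
    ext c
    simp [hq]
  by_cases h1 : ∃ r ∈ R, r ∈ R₀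
  · by_cases h2 : ∃ r ∈ R, r ∉ R₀
    · exfalso
      obtain ⟨r1, hr1, hr1'⟩ := h1
      obtain ⟨r2, hr2, hr2'⟩ := h2
      have e1 := h0 r1 hr1
      have e2 := h0 r2 hr2
      simp only [hr1', true_iff] at e1
      simp only [hr2', false_iff] at e2
      have e3 := card_filter_add_card_filter_not (s := C) (fun c => c ∈ C₀)
      omega
    · push Not at h2
      exact ⟨True, fun r hr => by simp [h2 r hr]⟩
  · push Not at h1
    exact ⟨False, fun r hr => by simp [h1 r hr]⟩

theorem card_iff {C₀ : Finset (Fin 8)} (h : C₀.card = 4) (q : Prop) [DecidablePred fun c => (c ∈ C₀ ↔ q)] :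
    (univ.filter (fun c : Fin 8 => (c ∈ C₀ ↔ q))).card = 4 := by
  classical
  by_cases hq : q
  · simp only [hq, iff_true]
    rw [filter_univ_mem]
    exact h
  · simp only [hq, iff_false]
    have : univ.filter (fun c : Fin 8 => c ∉ C₀) = C₀ᶜ := by
      ext c; simp
    rw [this, card_compl, h]
    simp

theorem no_square (L : Fin 8 → Fin 8 → Fin 8) (hr : ∀ i, Injective (L i))
    (hc : ∀ j, Injective (fun i => L i j)) (R₀ C₀ S₀ R C S : Finset (Fin 8))
    (hR₀ : R₀.card = 4) (hC₀ : C₀.card = 4) (hS₀ : S₀.card = 4)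
    (h₀ : ∀ r ∈ R₀, ∀ c ∈ C₀, L r c ∈ S₀)
    (hR : R.card = 3) (hC : C.card = 3) (hS : S.card = 3)
    (h : ∀ r ∈ R, ∀ c ∈ C, L r c ∈ S) : False := by
  classical
  have hq := quadrants hr hc hR₀ hC₀ hS₀ h₀
  obtain ⟨p, hp⟩ := no_split hr hq hC hS h
  obtain ⟨q, hq'⟩ := no_split (L := fun i j => L j i) hc (R₀ := C₀) (C₀ := R₀) (S₀ := S₀)
    (fun r c => by rw [hq c r]; exact Iff.comm) hR hS (fun c hc r hr => h r hr c hc)
  -- the quadrant of the subsquare
  set C' := univ.filter (fun c : Fin 8 => (c ∈ C₀ ↔ q)) with hC'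
  set S' := univ.filter (fun s : Fin 8 => (s ∈ S₀ ↔ (p ↔ q))) with hS'
  have hC'card : C'.card = 4 := card_iff hC₀ q
  have hS'card : S'.card = 4 := card_iff hS₀ (p ↔ q)
  have hCC' : C ⊆ C' := fun c hc => mem_filter.2 ⟨mem_univ _, hq' c hc⟩
  obtain ⟨c, hcC', hcC⟩ : ∃ c ∈ C', c ∉ C := by
    by_contra hcon
    push Not at hcon
    have := card_le_card (show C' ⊆ C from hcon)
    omega
  have hmem : ∀ r ∈ R, ∀ c ∈ C', L r c ∈ S' := by
    intro r hr c hc
    refine mem_filter.2 ⟨mem_univ _, ?_⟩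
    rw [hq r c, hp r hr, (mem_filter.1 hc).2]
  have hSS' : S ⊆ S' := by
    intro s hs
    obtain ⟨r, hrR⟩ : R.Nonempty := card_pos.1 (by omega)
    rw [← row_image hr (hS.trans hC.symm) h hrR] at hs
    obtain ⟨c, hc, rfl⟩ := mem_image.1 hs
    exact hmem r hrR c (hCC' hc)
  have hnot : ∀ r ∈ R, L r c ∉ S := by
    intro r hrR hs
    rw [← row_image hr (hS.trans hC.symm) h hrR] at hs
    obtain ⟨c', hc', he⟩ := mem_image.1 hs
    exact hcC (hr r he ▸ hc')
  have hone : (S' \ S).card = 1 := by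
    have := card_sdiff_add_card_eq_card hSS'
    omega
  obtain ⟨s, hs⟩ := card_eq_one.1 hone
  have hval : ∀ r ∈ R, L r c = s := by
    intro r hr
    have : L r c ∈ S' \ S := mem_sdiff.2 ⟨hmem r hr c hcC', hnot r hr⟩
    rw [hs] at this
    exact mem_singleton.1 this
  obtain ⟨r1, hr1, r2, hr2, hne⟩ := one_lt_card.1 (show 1 < R.card by omega)
  exact hne (hc c (show L r1 c = L r2 c by rw [hval r1 hr1, hval r2 hr2]))

/-- The negation of the preceding statement: For every n there is a latin square of order n such that, for each m with 1 ≤ m and 2m ≤ n, some m rows and m columns meet in an m×m subarray using only m symbols, i.e. a latin subsquare of order m. -/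
theorem result :
    ¬ (∀ n : ℕ, ∃ L : Fin n → Fin n → Fin n,
      (∀ i : Fin n, Function.Bijective (L i)) ∧
      (∀ j : Fin n, Function.Bijective (fun i : Fin n => L i j)) ∧
      ∀ m : ℕ, 1 ≤ m → 2 * m ≤ n →
        ∃ R C S : Finset (Fin n),
          R.card = m ∧ C.card = m ∧ S.card = m ∧
          ∀ r ∈ R, ∀ c ∈ C, L r c ∈ S) := by
  intro hall
  obtain ⟨L, hr, hc, hm⟩ := hall 8
  obtain ⟨R₀, C₀, S₀, h1, h2, h3, h4⟩ := hm 4 (by norm_num) (by norm_num)
  obtain ⟨R, C, S, h5, h6, h7, h8⟩ := hm 3 (by norm_num) (by norm_num)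
  exact no_square L (fun i => (hr i).1) (fun j => (hc j).1) R₀ C₀ S₀ R C S h1 h2 h3 h4 h5 h6 h7 h8

end Pool.Agent.S08268
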