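import Pool.Statements.S08686

set_option autoImplicit false
open Pool Pool.MP_4e7ec3_co

namespace Pool.Agent.S08686

/-- The finite set: two clusters, one near `0` and one near `1`. -/
noncomputable def F0 : Finset ℝ :=
  {0, 1/100, 2/100, 10/100, 11/100, 12/100, 88/100, 89/100, 90/100, 98/100, 99/100, 1}

/-- The displacing map: it swaps the two halves of each cluster, landing at interior points. -/
noncomputable def T0 (x : ℝ) : ℝ :=
  if x < 5/100 then 11/100 else if x < 1/2 then 1/100 else if x < 95/100 then 99/100 else 89/100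

lemma mem_F0 (x : ℝ) : x ∈ F0 ↔ x = 0 ∨ x = 1/100 ∨ x = 2/100 ∨ x = 10/100 ∨ x = 11/100 ∨
    x = 12/100 ∨ x = 88/100 ∨ x = 89/100 ∨ x = 90/100 ∨ x = 98/100 ∨ x = 99/100 ∨ x = 1 := by
  simp [F0]

lemma T0_low (x : ℝ) (hx : x < 1/2) : T0 x ≤ 11/100 ∧ 1/100 ≤ T0 x ∧ T0 x < 1/2 := by
  unfold T0; split_ifs <;> norm_num

lemma T0_high (x : ℝ) (hx : 1/2 ≤ x) : 89/100 ≤ T0 x ∧ T0 x ≤ 99/100 := by
  unfold T0
  have h1 : ¬ x < 5/100 := by linarith
  have h2 : ¬ x < 1/2 := by linarith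
  rw [if_neg h1, if_neg h2]
  split_ifs <;> norm_num

lemma T0_mem (x : ℝ) : T0 x ∈ F0 := by
  rw [mem_F0]; unfold T0; split_ifs <;> norm_num

lemma low_le (x : ℝ) (hx : x ∈ F0) (h : x < 1/2) : 0 ≤ x ∧ x ≤ 12/100 := by
  rw [mem_F0] at hx
  rcases hx with h | h | h | h | h | h | h | h | h | h | h | h <;> subst h <;> norm_num at *

lemma high_ge (x : ℝ) (hx : x ∈ F0) (h : 1/2 ≤ x) : 88/100 ≤ x ∧ x ≤ 1 := by
  rw [mem_F0] at hx
  rcases hx with h | h | h | h | h | h | h | h | h | h | h | h <;> subst h <;> norm_num at *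

lemma step_low (x x' : ℝ) (h : x < 1/2)
    (hs : x' = T0 x ∨ (x' ∈ F0 ∧ x' < T0 x ∧ ∀ r ∈ F0, r < T0 x → r ≤ x') ∨
      (x' ∈ F0 ∧ T0 x < x' ∧ ∀ r ∈ F0, T0 x < r → x' ≤ r)) :
    x' ∈ F0 ∧ x' < 1/2 := by
  obtain ⟨h1, h2, h3⟩ := T0_low x h
  rcases hs with hs | ⟨ha, hb, -⟩ | ⟨ha, hb, hc⟩
  · rw [hs]; exact ⟨T0_mem x, h3⟩
  · exact ⟨ha, by linarith⟩
  · have : x' ≤ 12/100 := hc (12/100) (by rw [mem_F0]; norm_num) (by linarith)
    exact ⟨ha, by linarith⟩

lemma step_high (x x' : ℝ) (h : 1/2 ≤ x)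
    (hs : x' = T0 x ∨ (x' ∈ F0 ∧ x' < T0 x ∧ ∀ r ∈ F0, r < T0 x → r ≤ x') ∨
      (x' ∈ F0 ∧ T0 x < x' ∧ ∀ r ∈ F0, T0 x < r → x' ≤ r)) :
    x' ∈ F0 ∧ 1/2 ≤ x' := by
  obtain ⟨h1, h2⟩ := T0_high x h
  rcases hs with hs | ⟨ha, hb, hc⟩ | ⟨ha, hb, -⟩
  · rw [hs]; exact ⟨T0_mem x, by linarith⟩
  · have : 88/100 ≤ x' := hc (88/100) (by rw [mem_F0]; norm_num) (by linarith)
    exact ⟨ha, by linarith⟩
  · exact ⟨ha, by linarith⟩

/-- The negation of the preceding statement: There is a constant k such that for every finite F in [0,1] containing 0 and 1, every ε>0, and every T:F→F moving each point by more than ε, some p₀ in F reaches a point at distance at least 1/3 in at most k/ε steps, each step going to T(p) or a neighbour of T(p) in F. -/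
theorem result :
    ¬ (∃ k : ℝ, ∀ (F : Finset ℝ) (ε : ℝ) (T : ℝ → ℝ),
      (∀ p ∈ F, 0 ≤ p ∧ p ≤ 1) → (0 : ℝ) ∈ F → (1 : ℝ) ∈ F → 0 < ε →
      (∀ p ∈ F, T p ∈ F ∧ ε < |p - T p|) →
      ∃ p₀ ∈ F, ∃ n : ℕ, (n : ℝ) ≤ k / ε ∧
        ∃ x : ℕ → ℝ, x 0 = p₀ ∧
          (∀ i < n,
            x (i + 1) = T (x i) ∨
            (x (i + 1) ∈ F ∧ x (i + 1) < T (x i) ∧
              ∀ r ∈ F, r < T (x i) → r ≤ x (i + 1)) ∨
            (x (i + 1) ∈ F ∧ T (x i) < x (i + 1) ∧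
              ∀ r ∈ F, T (x i) < r → x (i + 1) ≤ r)) ∧
          1 / 3 ≤ |x n - p₀|) := by
  rintro ⟨k, hk⟩
  obtain ⟨p₀, hp₀, n, -, x, hx0, hstep, hfar⟩ := hk F0 (1/20) T0
    (by
      intro p hp
      by_cases h : p < 1/2
      · have := low_le p hp h; constructor <;> linarith [this.1, this.2]
      · have := high_ge p hp (not_lt.mp h); constructor <;> linarith [this.1, this.2])
    (by rw [mem_F0]; norm_num) (by rw [mem_F0]; norm_num) (by norm_num)
    (by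
      intro p hp
      refine ⟨T0_mem p, ?_⟩
      rw [mem_F0] at hp
      rcases hp with h | h | h | h | h | h | h | h | h | h | h | h <;> subst h <;>
        norm_num [T0, abs_of_pos, abs_of_neg])
  by_cases h : p₀ < 1/2
  · have key : ∀ i, i ≤ n → x i ∈ F0 ∧ x i < 1/2 := by
      intro i
      induction i with
      | zero => intro _; rw [hx0]; exact ⟨hp₀, h⟩
      | succ i ih =>
        intro hi
        exact step_low (x i) (x (i+1)) (ih (by omega)).2 (hstep i (by omega))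
    obtain ⟨h1, h2⟩ := key n le_rfl
    have a := low_le _ h1 h2
    have b := low_le _ hp₀ h
    have : |x n - p₀| ≤ 12/100 := by rw [abs_le]; constructor <;> linarith [a.1, a.2, b.1, b.2]
    linarith
  · have h' : 1/2 ≤ p₀ := not_lt.mp h
    have key : ∀ i, i ≤ n → x i ∈ F0 ∧ 1/2 ≤ x i := by
      intro i
      induction i with
      | zero => intro _; rw [hx0]; exact ⟨hp₀, h'⟩
      | succ i ih =>
        intro hi
        exact step_high (x i) (x (i+1)) (ih (by omega)).2 (hstep i (by omega))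
    obtain ⟨h1, h2⟩ := key n le_rfl
    have a := high_ge _ h1 h2
    have b := high_ge _ hp₀ h'
    have : |x n - p₀| ≤ 12/100 := by rw [abs_le]; constructor <;> linarith [a.1, a.2, b.1, b.2]
    linarith

end Pool.Agent.S08686
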