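import Pool.Statements.S08704
import Pool.Agent.TH428.Stk.Bound

set_option autoImplicit false
open Filter Topology
open Pool Pool.MP_4f79e9_co

namespace Pool.Agent.S08704

open Pool.Agent.TH428.Stk

theorem card_le (n : ℕ) :
    ((((Finset.univ : Finset (Equiv.Perm (Fin n))).filter
      (fun σ => srt (srt (srt (List.ofFn (fun i : Fin n => ((σ i : Fin n) : ℕ))))) =
        List.range n)).card : ℕ) : ℕ∞) ≤
      {w : List ℕ | w.Perm (List.range n) ∧ srt (srt (srt w)) = List.range n}.encard := by
  classical
  set f : Equiv.Perm (Fin n) → List ℕ := fun σ => List.ofFn (fun i : Fin n => ((σ i : Fin n) : ℕ))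
    with hf
  have hinj : Function.Injective f := by
    intro σ τ h
    have := List.ofFn_injective h
    ext i
    exact congrFun this i
  rw [← Set.encard_coe_eq_coe_finsetCard, ← hinj.encard_image]
  apply Set.encard_le_encard
  rintro _ ⟨σ, hσ, rfl⟩
  have h1 := (Finset.mem_filter.1 (Finset.mem_coe.1 hσ)).2
  refine ⟨?_, h1⟩
  have h2 : (f σ).Perm (List.range n) := by
    have h3 : (srt (srt (srt (f σ)))).Perm (f σ) :=
      ((srt_perm (srt (srt (f σ)))).trans (srt_perm (srt (f σ)))).trans (srt_perm (f σ))
    rw [show srt (srt (srt (f σ))) = List.range n from h1] at h3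
    exact h3.symm
  exact h2

/-- The negation of the preceding statement: With s the stack-sorting map (s of L n R is s(L) s(R) n, n the maximum), let W(n) count permutations of length n sorted by three passes of s; then W(n)^(1/n) converges to a limit strictly between 9.702 and 9.704. -/
theorem result :
    ¬ (∀ s : List ℕ → List ℕ,
      s [] = [] →
      (∀ (L R : List ℕ) (m : ℕ), (L ++ m :: R).Nodup → (∀ x ∈ L, x < m) → (∀ x ∈ R, x < m) →
          s (L ++ m :: R) = s L ++ s R ++ [m]) →
      ∃ c : ℝ, 9.702 < c ∧ c < 9.704 ∧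
        Tendsto
          (fun n : ℕ =>
            (((Finset.univ : Finset (Equiv.Perm (Fin n))).filter
                (fun σ => s (s (s (List.ofFn (fun i : Fin n => ((σ i : Fin n) : ℕ))))) = List.range n)).card : ℝ)
              ^ ((1 : ℝ) / (n : ℝ)))
          atTop (𝓝 c)) := by
  intro H
  obtain ⟨c, hc1, -, hT⟩ := H srt srt_nil (fun L R m _ hL hR => srt_split hL hR)
  have hlim : Tendsto (fun n : ℕ => (5 : ℝ) ^ ((1 : ℝ) / (n : ℝ)) * (4851 / 500)) atTop
      (𝓝 ((5 : ℝ) ^ (0 : ℝ) * (4851 / 500))) := by
    apply Tendsto.mul_const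
    exact tendsto_const_nhds.rpow tendsto_one_div_atTop_nhds_zero_nat (Or.inl (by norm_num))
  have hle : c ≤ (5 : ℝ) ^ (0 : ℝ) * (4851 / 500) := by
    refine le_of_tendsto_of_tendsto hT hlim ?_
    filter_upwards [eventually_ne_atTop 0] with n hn
    have h1 := D1.bound n hn _ (card_le n)
    have hn' : (n : ℝ) ≠ 0 := by exact_mod_cast hn
    calc _ ≤ (5 * (4851 / 500 : ℝ) ^ n) ^ ((1 : ℝ) / (n : ℝ)) :=
          Real.rpow_le_rpow (by positivity) h1 (by positivity)
      _ = (5 : ℝ) ^ ((1 : ℝ) / (n : ℝ)) * (4851 / 500) := by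
          rw [Real.mul_rpow (by positivity) (by positivity)]
          congr 1
          rw [← Real.rpow_natCast, ← Real.rpow_mul (by positivity), mul_one_div_cancel hn',
            Real.rpow_one]
  rw [Real.rpow_zero] at hle
  norm_num at hle hc1
  linarith

end Pool.Agent.S08704
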