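import Pool.Statements.S08780
import Pool.Agent.TH412.EF.Table

set_option autoImplicit false
open Pool Pool.MP_53cd62_co

/-!
Disproof of the Erdos-Falconer distance conjecture over arbitrary finite fields (dimension 2).

Let `p = 1 mod 4` be a large prime, `q = p ^ (2n-1)`, `F` the field with `q` elements and `θ` a
generator of `F` over the prime field.  In isotropic coordinates `u = x + iy`, `v = x - iy` the form
`x^2 + y^2` becomes `u v`.  Let `W` be the set of values at `θ` of the polynomials of degree less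
than `n` and `E = W × W`.  Then `|E| = p^(2n) = p q`, but the distances are values at `θ` of
products of two polynomials of degree less than `n`; by the multiplication table theorem for
polynomials these are only `o(q)` many, as `n` tends to infinity.
-/

namespace Pool.Agent.S08780

open Polynomial Finset Pool.Agent.TH412.EF

theorem exists_bad (B c : ℝ) (hc : 0 < c) :
    ∃ (F : Type) (_ : Field F) (_ : Fintype F) (_ : DecidableEq F), ringChar F ≠ 2 ∧
      ∃ E : Finset (Fin 2 → F), B * (Fintype.card F : ℝ) ≤ (E.card : ℝ) ∧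
        (((E ×ˢ E).image (fun p => ∑ k, (p.1 k - p.2 k) ^ 2)).card : ℝ)
          < c * (Fintype.card F : ℝ) := by
  classical
  obtain ⟨N, hN⟩ := exists_nat_ge B
  obtain ⟨p, hp, hpN, hp4⟩ := Nat.exists_prime_gt_modEq_one (k := 4) (max N 3) (by norm_num)
  have : Fact p.Prime := ⟨hp⟩
  have hp3 : 3 ≤ p := (le_max_right N 3).trans hpN.le
  have hpB : B ≤ (p : ℝ) := by
    refine hN.trans ?_
    exact_mod_cast (le_max_left N 3).trans hpN.le
  have hcardK : Fintype.card (ZMod p) = p := ZMod.card p
  obtain ⟨D, hD⟩ := exists_LL_ge (F := ZMod p) (by rw [hcardK]; exact hp3) (160 / c)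
  have hL : 0 < LL (ZMod p) D := lt_of_lt_of_le (by positivity) hD
  set n := 2 * D + 1 with hn
  set m := 2 * n - 1 with hm
  have hm0 : m ≠ 0 := by omega
  have hfr : Module.finrank (ZMod p) (GaloisField p m) = m := GaloisField.finrank p hm0
  let _ : Fintype (GaloisField p m) := Fintype.ofFinite _
  have hcardF : Fintype.card (GaloisField p m) = p ^ m := by
    rw [← Nat.card_eq_fintype_card]
    exact GaloisField.card p m hm0
  have : FiniteDimensional (ZMod p) (GaloisField p m) := Module.Finite.of_finite
  have hchar : ringChar (GaloisField p m) ≠ 2 := by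
    have : ringChar (GaloisField p m) = p := ringChar.eq _ p
    rw [this]
    omega
  -- a square root of -1
  obtain ⟨i, hi⟩ : ∃ i : GaloisField p m, i ^ 2 = -1 := by
    have h1 : IsSquare (-1 : ZMod p) := by
      rw [ZMod.exists_sq_eq_neg_one_iff]
      have : p % 4 = 1 := hp4
      omega
    obtain ⟨r, hr⟩ := h1
    refine ⟨algebraMap (ZMod p) _ r, ?_⟩
    rw [← map_pow, sq, ← hr, map_neg, map_one]
  have h2 : (2 : GaloisField p m) ≠ 0 := Ring.two_ne_zero hchar
  have hi0 : i ≠ 0 := by
    intro h0
    rw [h0] at hi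
    norm_num at hi
  -- the generator
  obtain ⟨θ, hθ⟩ := Field.exists_primitive_element (ZMod p) (GaloisField p m)
  have hdeg : (minpoly (ZMod p) θ).natDegree = m :=
    ((Field.primitive_element_iff_minpoly_natDegree_eq (ZMod p) θ).1 hθ).trans hfr
  have hint : IsIntegral (ZMod p) θ := Algebra.IsIntegral.isIntegral θ
  have hinj : ∀ f g : (ZMod p)[X], f ∈ V (ZMod p) m → g ∈ V (ZMod p) m →
      aeval θ f = aeval θ g → f = g := by
    intro f g hf hg hfg
    rw [mem_V] at hf hg
    by_contra hne
    have h0 : f - g ≠ 0 := sub_ne_zero.2 hne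
    have h1 : aeval θ (f - g) = 0 := by rw [map_sub, hfg, sub_self]
    have h3 := minpoly.degree_le_of_ne_zero (ZMod p) θ h0 h1
    have h4 : (f - g).degree < m := (degree_sub_le f g).trans_lt (max_lt hf hg)
    rw [degree_eq_natDegree (minpoly.ne_zero hint), hdeg] at h3
    exact absurd (h3.trans_lt h4) (lt_irrefl _)
  have hVsub : ∀ f ∈ V (ZMod p) n, f ∈ V (ZMod p) m := by
    intro f hf
    rw [mem_V] at *
    refine hf.trans_le ?_
    have : n ≤ m := by omega
    exact_mod_cast this
  let vec : (ZMod p)[X] × (ZMod p)[X] → (Fin 2 → GaloisField p m) := fun w =>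
    ![(aeval θ w.1 + aeval θ w.2) / 2, (aeval θ w.1 - aeval θ w.2) / (2 * i)]
  set E : Finset (Fin 2 → GaloisField p m) := (V (ZMod p) n ×ˢ V (ZMod p) n).image vec with hE
  have hcardE : E.card = p ^ (2 * n) := by
    have hnn : p ^ n * p ^ n = p ^ (2 * n) := by rw [← pow_add, ← two_mul]
    rw [hE, Finset.card_image_of_injOn, Finset.card_product, card_V, hcardK, hnn]
    rintro ⟨f, g⟩ hw ⟨f', g'⟩ hw' hv
    rw [Finset.mem_coe, Finset.mem_product] at hw hw'
    have e0 : (aeval θ f + aeval θ g) / 2 = (aeval θ f' + aeval θ g') / 2 := congrFun hv 0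
    have e1 : (aeval θ f - aeval θ g) / (2 * i) = (aeval θ f' - aeval θ g') / (2 * i) :=
      congrFun hv 1
    have e0' := (div_left_inj' h2).1 e0
    have e1' := (div_left_inj' (mul_ne_zero h2 hi0)).1 e1
    have e2 : aeval θ f = aeval θ f' := by
      have : (2 : GaloisField p m) * aeval θ f = 2 * aeval θ f' := by linear_combination e0' + e1'
      exact mul_left_cancel₀ h2 this
    have e3 : aeval θ g = aeval θ g' := by
      have : (2 : GaloisField p m) * aeval θ g = 2 * aeval θ g' := by linear_combination e0' - e1'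
      exact mul_left_cancel₀ h2 this
    exact Prod.ext (hinj f f' (hVsub f hw.1) (hVsub f' hw'.1) e2)
      (hinj g g' (hVsub g hw.2) (hVsub g' hw'.2) e3)
  refine ⟨GaloisField p m, inferInstance, inferInstance, Classical.decEq _, hchar, E, ?_, ?_⟩
  · rw [hcardE, hcardF]
    push_cast
    have hpp : (p : ℝ) ^ (2 * n) = p * p ^ m := by
      have h2n : 2 * n = m + 1 := by omega
      rw [h2n, pow_succ']
    rw [hpp]
    exact mul_le_mul_of_nonneg_right hpB (by positivity)
  · have hsub : ((E ×ˢ E).image (fun p => ∑ k, (p.1 k - p.2 k) ^ 2))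
        ⊆ (PT (ZMod p) n).image (fun f => aeval θ f) := by
      intro z hz
      obtain ⟨⟨x, y⟩, hxy, rfl⟩ := Finset.mem_image.1 hz
      rw [Finset.mem_product] at hxy
      obtain ⟨⟨f, g⟩, hfg, hx⟩ := Finset.mem_image.1 hxy.1
      obtain ⟨⟨f', g'⟩, hfg', hy⟩ := Finset.mem_image.1 hxy.2
      rw [Finset.mem_product] at hfg hfg'
      rw [Finset.mem_image]
      refine ⟨(f - f') * (g - g'), ?_, ?_⟩
      · rw [PT, Finset.mem_image]
        refine ⟨(f - f', g - g'), ?_, rfl⟩
        rw [Finset.mem_product, mem_V, mem_V]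
        simp only [mem_V] at hfg hfg'
        exact ⟨(degree_sub_le _ _).trans_lt (max_lt hfg.1 hfg'.1),
          (degree_sub_le _ _).trans_lt (max_lt hfg.2 hfg'.2)⟩
      · simp only at hx hy ⊢
        rw [← hx, ← hy, Fin.sum_univ_two]
        simp only [vec, Matrix.cons_val_zero, Matrix.cons_val_one]
        rw [map_mul, map_sub, map_sub]
        field_simp
        linear_combination (-((aeval θ f - aeval θ f') + (aeval θ g - aeval θ g')) ^ 2
          + 4 * (aeval θ f - aeval θ f') * (aeval θ g - aeval θ g')) * hi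
    have hle : (((E ×ˢ E).image (fun p => ∑ k, (p.1 k - p.2 k) ^ 2)).card : ℝ)
        ≤ (PT (ZMod p) n).card := by
      exact_mod_cast (Finset.card_le_card hsub).trans Finset.card_image_le
    have ht := table (F := ZMod p) (by rw [hcardK]; exact hp3) D n (by omega) (by omega) hL
    rw [hcardK] at ht
    rw [hcardF]
    push_cast
    have hpm : (0 : ℝ) < (p : ℝ) ^ m := by
      have : (0 : ℝ) < p := by exact_mod_cast hp.pos
      positivity
    have hcL : 80 / LL (ZMod p) D < c := by
      rw [div_lt_iff₀ hL]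
      rw [div_le_iff₀ hc] at hD
      nlinarith
    calc _ ≤ ((PT (ZMod p) n).card : ℝ) := hle
      _ ≤ 80 / LL (ZMod p) D * (p : ℝ) ^ m := ht
      _ < c * (p : ℝ) ^ m := mul_lt_mul_of_pos_right hcL hpm

/-- The negation of the preceding statement: For each even d ≥ 2 there are constants C, c > 0 such that for every finite field F of odd characteristic with q elements, every E ⊆ F^d with ∣E∣ ≥ C q^{d/2} has at least c·q distinct values of ∑(x_k − y_k)² over x, y in E. -/
theorem result :
    ¬ (∀ d : ℕ, Even d → 2 ≤ d →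
      ∃ C c : ℝ, 0 < C ∧ 0 < c ∧
        ∀ (F : Type) [Field F] [Fintype F] [DecidableEq F], ringChar F ≠ 2 →
          ∀ E : Finset (Fin d → F),
            C * ((Fintype.card F : ℝ) ^ (d / 2)) ≤ (E.card : ℝ) →
              c * (Fintype.card F : ℝ) ≤
                (((E ×ˢ E).image (fun p => ∑ k, (p.1 k - p.2 k) ^ 2)).card : ℝ)) := by
  intro h
  obtain ⟨C, c, hC, hc, h⟩ := h 2 (by norm_num) le_rfl
  obtain ⟨F, i1, i2, i3, hchar, E, hE, hlt⟩ := exists_bad C c hc
  have := h F hchar E (by simpa using hE)
  exact absurd this (not_le.2 hlt)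

end Pool.Agent.S08780
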