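import Pool.Statements.S08782
import Pool.Agent.TH372.SNP.Final

set_option autoImplicit false
open Pool Pool.MP_5400b1_co

namespace Pool.Agent.S08782

/-- The negation of the preceding statement: For every finite graph G: if, for each k, its chromatic polynomial in k variables is a nonnegative integer combination of Schur polynomials, then for each k every lattice point in its Newton polytope is an exponent of that polynomial. -/
theorem result :
    ¬ (∀ (V : Type) [Fintype V] (G : SimpleGraph V),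
      (∀ k : ℕ, ∃ c : YoungDiagram →₀ ℕ,
        (∑ᶠ κ : {κ : V → Fin k // ∀ u v, G.Adj u v → κ u ≠ κ v},
            ∏ v, (MvPolynomial.X ((κ.1 v : ℕ)) : MvPolynomial ℕ ℤ)) =
          c.sum (fun μ a => a • ∑ᶠ T : {T : SemistandardYoungTableau μ //
              ∀ p ∈ μ.cells, T p.1 p.2 < k},
            ∏ p ∈ μ.cells, (MvPolynomial.X (T.1 p.1 p.2) : MvPolynomial ℕ ℤ))) →
      ∀ k : ℕ, ∀ α : ℕ →₀ ℕ,
        (fun i : ℕ => (α i : ℝ)) ∈ convexHull ℝ
          ((fun β : ℕ →₀ ℕ => (fun i : ℕ => (β i : ℝ))) ''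
            ((∑ᶠ κ : {κ : V → Fin k // ∀ u v, G.Adj u v → κ u ≠ κ v},
              ∏ v, (MvPolynomial.X ((κ.1 v : ℕ)) : MvPolynomial ℕ ℤ)).support : Set (ℕ →₀ ℕ))) →
        α ∈ (∑ᶠ κ : {κ : V → Fin k // ∀ u v, G.Adj u v → κ u ≠ κ v},
              ∏ v, (MvPolynomial.X ((κ.1 v : ℕ)) : MvPolynomial ℕ ℤ)).support) := by
  intro h
  have h1 := h (Fin 12) TH372.SNP.G12 TH372.SNP.schur_pos 4 (TH372.SNP.toF [1, 3, 3, 5]) ?_
  · rw [TH372.SNP.mem_four] at h1
    exact h1 TH372.SNP.cnt_5331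
  · have hA := (TH372.SNP.mem_four 6 2 2 2).2 TH372.SNP.cnt_6222
    have hB := (TH372.SNP.mem_four 4 4 4 0).2 TH372.SNP.cnt_444
    have hm := (convex_convexHull ℝ ((fun β : ℕ →₀ ℕ => (fun i : ℕ => (β i : ℝ))) ''
      ((∑ᶠ κ : {κ : Fin 12 → Fin 4 // ∀ u v, TH372.SNP.G12.Adj u v → κ u ≠ κ v},
        ∏ v, (MvPolynomial.X ((κ.1 v : ℕ)) : MvPolynomial ℕ ℤ)).support : Set (ℕ →₀ ℕ))))
      (subset_convexHull ℝ _ (Set.mem_image_of_mem _ hA))
      (subset_convexHull ℝ _ (Set.mem_image_of_mem _ hB))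
      (show (0 : ℝ) ≤ 1 / 2 by norm_num) (show (0 : ℝ) ≤ 1 / 2 by norm_num) (by norm_num)
    convert hm using 1
    funext i
    simp only [Pi.add_apply, Pi.smul_apply, smul_eq_mul, TH372.SNP.toF_four]
    split_ifs <;> norm_num

end Pool.Agent.S08782
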