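import Pool.Statements.S08825
import Pool.Agent.TH953.PathPair3

set_option autoImplicit false
open Pool Pool.MP_5651c1_co

namespace Pool.Agent.S08825

open Pool.Agent.TH953.PP Pool.Agent.Helper805.CHS in
/-- degree sum bound from Mader's theorem -/
theorem deg_sum {V : Type} [Fintype V] (G : SimpleGraph V) [DecidableRel G.Adj] (k : ℕ)
    (hmin : ¬ ∃ f : Fin (k + 2) → Set V,
            (∀ i, (G.induce (f i)).Connected) ∧
            (∀ i j, i ≠ j → Disjoint (f i) (f j)) ∧
            (∀ i j, i ≠ j → ∃ u ∈ f i, ∃ v ∈ f j, G.Adj u v)) :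
    ∑ w : V, G.degree w ≤ 2 * (2 ^ k - 1) * Fintype.card V := by
  classical
  by_contra hcon
  apply hmin
  let P : Finset (Set V) := Finset.univ.image (fun v : V => ({v} : Set V))
  have hinj : Function.Injective (fun v : V => ({v} : Set V)) := Set.singleton_injective
  have hPc : P.card = Fintype.card V := by
    rw [Finset.card_image_of_injective _ hinj, Finset.card_univ]
  have hF : Fam G P := by
    constructor
    · intro A hA
      obtain ⟨v, -, rfl⟩ := Finset.mem_image.1 hA
      exact single_conn G v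
    · intro A hA B hB hne
      obtain ⟨v, -, rfl⟩ := Finset.mem_image.1 hA
      obtain ⟨w, -, rfl⟩ := Finset.mem_image.1 hB
      rw [Set.disjoint_singleton]
      rintro rfl
      exact hne rfl
  have hcard : ∑ w : V, G.degree w ≤ (prs G P).card := by
    have h1 : ∑ w : V, G.degree w = (Finset.univ.sigma (fun w : V => G.neighborFinset w)).card := by
      rw [Finset.card_sigma]
      rfl
    rw [h1]
    apply Finset.card_le_card_of_injOn (fun x => (({x.1} : Set V), ({x.2} : Set V)))
    · intro x hx
      have hx2 := (Finset.mem_sigma.1 (Finset.mem_coe.1 hx)).2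
      rw [SimpleGraph.mem_neighborFinset] at hx2
      apply Finset.mem_coe.2
      rw [mem_prs]
      refine ⟨Finset.mem_image_of_mem _ (Finset.mem_univ _),
        Finset.mem_image_of_mem _ (Finset.mem_univ _), ?_, x.1, rfl, x.2, rfl, hx2⟩
      intro h
      exact hx2.ne (hinj h)
    · rintro ⟨a, b⟩ _ ⟨a', b'⟩ _ h
      obtain ⟨h1, h2⟩ := Prod.mk.inj h
      have e1 : a = a' := hinj h1
      have e2 : b = b' := hinj h2
      subst e1; subst e2
      rfl
  obtain ⟨f, f1, f2, f3, -, -⟩ := mader G k P hF (by rw [hPc]; omega)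
  exact ⟨f, f1, f2, f3⟩

/-- For every t there is c>0 such that every finite path-pairable graph on n≥2 vertices with no K_t minor has a vertex of degree at least c·n. -/
theorem result :
    ∀ t : ℕ, ∃ c : ℝ, 0 < c ∧
      ∀ (V : Type) [Fintype V] (G : SimpleGraph V) [DecidableRel G.Adj],
        2 ≤ Fintype.card V →
        (∀ (k : ℕ) (s r : Fin k → V), Function.Injective (Sum.elim s r) →
          ∃ p : (i : Fin k) → G.Walk (s i) (r i),
            (∀ i, (p i).IsPath) ∧
            ∀ i j, i ≠ j → ∀ e ∈ (p i).edges, e ∉ (p j).edges) →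
        (¬ ∃ f : Fin t → Set V,
            (∀ i, (G.induce (f i)).Connected) ∧
            (∀ i j, i ≠ j → Disjoint (f i) (f j)) ∧
            (∀ i j, i ≠ j → ∃ u ∈ f i, ∃ v ∈ f j, G.Adj u v)) →
        ∃ v : V, c * (Fintype.card V : ℝ) ≤ (G.degree v : ℝ) := by
  intro t
  rcases Nat.lt_or_ge t 2 with ht | ht
  · refine ⟨1, one_pos, ?_⟩
    intro V _ G _ hV _ hmin
    exfalso
    apply hmin
    have : Nonempty V := Fintype.card_pos_iff.1 (by omega)
    obtain ⟨v⟩ := this
    refine ⟨fun _ => {v}, fun _ => Pool.Agent.TH953.PP.single_conn G v, ?_, ?_⟩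
    · intro i j hij
      exact absurd (Fin.ext (by omega)) hij
    · intro i j hij
      exact absurd (Fin.ext (by omega)) hij
  · obtain ⟨k, rfl⟩ : ∃ k, t = k + 2 := ⟨t - 2, by omega⟩
    set D : ℕ := 8 * ((k + 2) * (k + 2)) ^ 4 * 2 ^ (k + 1) with hD
    have hDpos : 0 < D := by positivity
    have hDR : (0 : ℝ) < (D : ℝ) := by exact_mod_cast hDpos
    refine ⟨1 / (D : ℝ), by positivity, ?_⟩
    intro V _ G _ hV hpp hmin
    classical
    -- it suffices to find a vertex with `n ≤ D * deg`
    suffices h : ∃ v : V, Fintype.card V ≤ D * G.degree v by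
      obtain ⟨v, hv⟩ := h
      refine ⟨v, ?_⟩
      rw [one_div, inv_mul_le_iff₀ hDR]
      exact_mod_cast hv
    have hne : Nonempty V := Fintype.card_pos_iff.1 (by omega)
    obtain ⟨v, -, hv⟩ := Finset.exists_max_image (Finset.univ : Finset V) (fun v => G.degree v)
      (Finset.univ_nonempty)
    refine ⟨v, ?_⟩
    have hv' : ∀ w, G.degree w ≤ G.degree v := fun w => hv w (Finset.mem_univ w)
    -- the maximum degree is at least one
    have hdeg1 : 1 ≤ G.degree v := by
      obtain ⟨a, b, hab⟩ := Fintype.exists_pair_of_one_lt_card (by omega : 1 < Fintype.card V)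
      obtain ⟨p, -, -⟩ := hpp 1 (fun _ => a) (fun _ => b) (by
        rintro (i | i) (j | j) h
        · rw [Subsingleton.elim i j]
        · exact absurd h hab
        · exact absurd h.symm hab
        · rw [Subsingleton.elim i j])
      have hpa := p 0
      have : 0 < G.degree a := by
        rw [SimpleGraph.degree_pos_iff_exists_adj]
        cases hpa with
        | nil => exact absurd rfl hab
        | cons h q => exact ⟨_, h⟩
      exact le_trans this (hv' a)
    by_cases hn : 2 * ((k + 2) * (k + 2)) ^ 2 ≤ Fintype.card V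
    · have h1 := Pool.Agent.TH953.PP.key_ineq G (k + 2) (by omega) hpp hn hmin
      have h2 := deg_sum G k hmin
      have h3 : ∑ w : V, G.degree w ^ 2 ≤ G.degree v * ∑ w : V, G.degree w := by
        rw [Finset.mul_sum]
        apply Finset.sum_le_sum
        intro w _
        rw [sq]
        exact Nat.mul_le_mul_right _ (hv' w)
      have h4 : 2 * (2 ^ k - 1) ≤ 2 ^ (k + 1) := by
        rw [pow_succ]; omega
      have h5 : ∑ w : V, G.degree w ^ 2 ≤ G.degree v * (2 ^ (k + 1) * Fintype.card V) :=
        h3.trans (Nat.mul_le_mul_left _ (h2.trans (Nat.mul_le_mul_right _ h4)))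
      have h6 : Fintype.card V * Fintype.card V ≤ (D * G.degree v) * Fintype.card V := by
        calc Fintype.card V * Fintype.card V = Fintype.card V ^ 2 := by ring
          _ ≤ 8 * ((k + 2) * (k + 2)) ^ 4 * ∑ w : V, G.degree w ^ 2 := h1
          _ ≤ 8 * ((k + 2) * (k + 2)) ^ 4 * (G.degree v * (2 ^ (k + 1) * Fintype.card V)) :=
              Nat.mul_le_mul_left _ h5
          _ = (D * G.degree v) * Fintype.card V := by rw [hD]; ring
      exact Nat.le_of_mul_le_mul_right h6 (by omega)
    · have h1 : Fintype.card V ≤ 2 * ((k + 2) * (k + 2)) ^ 2 := by omega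
      have h2 : 2 * ((k + 2) * (k + 2)) ^ 2 ≤ D := by
        rw [hD]
        have h3 : ((k + 2) * (k + 2)) ^ 2 ≤ ((k + 2) * (k + 2)) ^ 4 :=
          Nat.pow_le_pow_right (by positivity) (by norm_num)
        have h4 : 1 ≤ 2 ^ (k + 1) := Nat.one_le_two_pow
        calc 2 * ((k + 2) * (k + 2)) ^ 2 ≤ 8 * ((k + 2) * (k + 2)) ^ 4 := by omega
          _ = 8 * ((k + 2) * (k + 2)) ^ 4 * 1 := by ring
          _ ≤ 8 * ((k + 2) * (k + 2)) ^ 4 * 2 ^ (k + 1) := Nat.mul_le_mul_left _ h4
      calc Fintype.card V ≤ D := h1.trans h2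
        _ = D * 1 := by ring
        _ ≤ D * G.degree v := Nat.mul_le_mul_left _ hdeg1

end Pool.Agent.S08825
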