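import Pool.Statements.S08907
import Pool.Agent.TH687.PM.Main

set_option autoImplicit false
open Pool Pool.MP_596cf1_co

namespace Pool.Agent.S08907

/-- There is a constant c > 1 such that, for all large n, the number of distinct values taken by the permanent of n×n matrices with entries ±1 is at least c^n. -/
theorem result :
    ∃ c : ℝ, 1 < c ∧ ∃ N : ℕ, ∀ n : ℕ, N ≤ n →
      c ^ n ≤ ((Set.ncard {p : ℤ | ∃ A : Matrix (Fin n) (Fin n) ℤ,
        (∀ i j, A i j = 1 ∨ A i j = -1) ∧ A.permanent = p} : ℕ) : ℝ) := by
  exact Pool.Agent.TH687.PM.main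

end Pool.Agent.S08907
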