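import Pool.Statements.S08939
import Pool.Agent.TH371.Apy.FinalA

set_option autoImplicit false
open Pool Pool.MP_5ad3e6_co

namespace Pool.Agent.S08939

lemma cast_iter (a : ℕ → ℤ) (k : ℕ) : ∀ m : ℕ,
    (Pool.Agent.TH371.Apy.L^[k]) (fun n => ((a n : ℤ) : ℝ)) m =
      (((Pool.Agent.TH371.Apy.L^[k]) a m : ℤ) : ℝ) := by
  induction k with
  | zero => intro m; rfl
  | succ k ih =>
    intro m
    rw [Function.iterate_succ_apply', Function.iterate_succ_apply']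
    show _ * _ - _ ^ 2 = ((_ * _ - _ ^ 2 : ℤ) : ℝ)
    rw [ih, ih, ih]
    push_cast
    rfl

lemma nonneg_iter (a : ℕ → ℤ)
    (h : ∀ k m : ℕ, 0 < (Pool.Agent.TH371.Apy.L^[k]) (fun n => ((a n : ℤ) : ℝ)) m) (k m : ℕ) :
    0 ≤ (Pool.Agent.TH371.Apy.L^[k]) a m := by
  have h1 := h k m
  rw [cast_iter] at h1
  exact_mod_cast h1.le

/-- With L(a)_n = a_n a_{n+2} − a_{n+1}^2, every iterate L^k (k ≥ 0) of A_n = Σ C(n,k)²C(n+k,k)² and of B_n = Σ C(n,k)²C(n+k,k) is a nonnegative sequence, i.e. both are infinitely log-convex. -/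
theorem result :
    (∀ k n : ℕ, 0 ≤ ((fun (a : ℕ → ℤ) (m : ℕ) => a m * a (m + 2) - a (m + 1) ^ 2)^[k]
        (fun m : ℕ => ∑ j ∈ Finset.range (m + 1),
          ((m.choose j : ℕ) : ℤ) ^ 2 * (((m + j).choose j : ℕ) : ℤ) ^ 2)) n) ∧
    (∀ k n : ℕ, 0 ≤ ((fun (a : ℕ → ℤ) (m : ℕ) => a m * a (m + 2) - a (m + 1) ^ 2)^[k]
        (fun m : ℕ => ∑ j ∈ Finset.range (m + 1),
          ((m.choose j : ℕ) : ℤ) ^ 2 * (((m + j).choose j : ℕ) : ℤ))) n) := by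
  exact ⟨fun k n => nonneg_iter Pool.Agent.TH371.Apy.apA Pool.Agent.TH371.Apy.infA k n,
    fun k n => nonneg_iter Pool.Agent.TH371.Apy.apB Pool.Agent.TH371.Apy.infB k n⟩

end Pool.Agent.S08939
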