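import Pool.Statements.S08951
import Pool.Agent.TH659.FF.Step

set_option autoImplicit false
open Pool Pool.MP_5b147e_co

namespace Pool.Agent.S08951

/-- There is a finite width-2 poset Q such that for every base C, for some w, some Q-free poset of width at most w has an element order on which First-Fit uses more than C^w chains. -/
theorem result :
    ∃ (Q : Type) (_ : Fintype Q) (_ : PartialOrder Q),
      (∃ s : Finset Q, IsAntichain (· ≤ ·) (s : Set Q) ∧ s.card = 2) ∧
      (∀ s : Finset Q, IsAntichain (· ≤ ·) (s : Set Q) → s.card ≤ 2) ∧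
      ∀ C : ℕ, ∃ w : ℕ, ∃ (P : Type) (_ : Fintype P) (_ : PartialOrder P),
        (∀ s : Finset P, IsAntichain (· ≤ ·) (s : Set P) → s.card ≤ w) ∧
        IsEmpty (Q ↪o P) ∧
        ∃ (ord : P → ℕ) (f : P → ℕ),
          Function.Injective ord ∧
          (∀ x y : P, ord y < ord x → f y = f x → (x ≤ y ∨ y ≤ x)) ∧
          (∀ x : P, ∀ c : ℕ, c < f x →
            ∃ y : P, ord y < ord x ∧ f y = c ∧ ¬ x ≤ y ∧ ¬ y ≤ x) ∧
          ∃ x : P, C ^ w ≤ f x := by
  refine ⟨Pool.Agent.TH659.FF.Pth, inferInstance, inferInstance, ?_, ?_, ?_⟩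
  · refine ⟨{⟨0⟩, ⟨1⟩}, ?_, ?_⟩
    · intro a ha b hb hab hle
      simp only [Finset.coe_insert, Finset.coe_singleton, Set.mem_insert_iff,
        Set.mem_singleton_iff] at ha hb
      rw [Pool.Agent.TH659.FF.Pth.le_iff] at hle
      rcases ha with rfl | rfl <;> rcases hb with rfl | rfl <;> simp at hab hle
    · rw [Finset.card_insert_of_notMem, Finset.card_singleton]
      simp
  · intro s hs
    by_contra hc
    obtain ⟨a, ha, b, hb, c, hcc, hab, hac, hbc⟩ := Finset.two_lt_card.1 (not_le.1 hc)
    have key : ∀ x y : Pool.Agent.TH659.FF.Pth, x ∈ s → y ∈ s → x ≠ y →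
        x.val.val < y.val.val + 2 ∧ y.val.val < x.val.val + 2 ∧ x.val.val ≠ y.val.val := by
      intro x y hx hy hxy
      have h1 := hs hx hy hxy
      have h2 := hs hy hx (Ne.symm hxy)
      refine ⟨?_, ?_, ?_⟩
      · by_contra h; exact h2 (Or.inr (by omega))
      · by_contra h; exact h1 (Or.inr (by omega))
      · intro h; exact h1 (Or.inl h)
    have h1 := key a b ha hb hab
    have h2 := key a c ha hcc hac
    have h3 := key b c hb hcc hbc
    omega
  · intro C
    -- choose w with C^w small against the factorial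
    obtain ⟨n, hn⟩ : ∃ n : ℕ, C ^ (n + 1) < (n + 1).factorial := by
      have h := FloorSemiring.tendsto_pow_div_factorial_atTop (C : ℝ)
      have h1 := (Filter.tendsto_add_atTop_iff_nat 1).2 h
      obtain ⟨n, hn⟩ := ((h1.eventually (gt_mem_nhds (show (0 : ℝ) < 1 by norm_num)))).exists
      refine ⟨n, ?_⟩
      rw [div_lt_one (by positivity)] at hn
      exact_mod_cast hn
    let A := Pool.Agent.TH659.FF.wall n
    let _ := A.po
    have _ := A.fin
    let _ : Fintype A.P := Fintype.ofFinite A.P
    refine ⟨n + 1, A.P, inferInstance, A.po, ?_, ?_, ?_⟩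
    · intro s hs
      have h1 : (s.image A.ch) ⊆ Finset.range (n + 1) := by
        intro c hc
        obtain ⟨x, _, rfl⟩ := Finset.mem_image.1 hc
        exact Finset.mem_range.2 (A.ch_lt x)
      have h2 : (s.image A.ch).card = s.card := by
        refine Finset.card_image_of_injOn ?_
        intro x hx y hy hxy
        by_contra hne
        rcases A.ch_chain x y hxy with h | h
        · exact hs hx hy hne h
        · exact hs hy hx (Ne.symm hne) h
      rw [← h2]
      simpa using Finset.card_le_card h1
    · refine ⟨fun φ => A.free (fun i => φ ⟨i⟩) ?_⟩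
      intro i j
      rw [φ.le_iff_le]
      exact Pool.Agent.TH659.FF.Pth.le_iff _ _
    · let N := Fintype.card A.P
      let e : A.P ≃ Fin N := Fintype.equivFin A.P
      refine ⟨fun x => A.col x * N + (e x).val, A.col, ?_, ?_, ?_, ?_⟩
      · intro x y h
        have h1 := Pool.Agent.TH659.FF.dm (e x).2 (e y).2 h
        exact e.injective (Fin.ext h1.2)
      · intro x y _ h
        exact (A.col_chain y x h).symm
      · intro x c hc
        obtain ⟨y, h1, h2, h3⟩ := A.wit x c hc
        refine ⟨y, ?_, h1, h2, h3⟩
        have h4 : A.col y < A.col x := by rw [h1]; exact hc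
        have h5 := Pool.Agent.TH659.FF.lt_of_q (e y).2 h4
        show A.col y * N + (e y).val < A.col x * N + (e x).val
        omega
      · obtain ⟨x, hx⟩ := A.surj (Pool.Agent.TH659.FF.M n - 1) (by
          have := Pool.Agent.TH659.FF.fact_le n
          have := Nat.factorial_pos (n + 1)
          omega)
        refine ⟨x, ?_⟩
        rw [hx]
        have := Pool.Agent.TH659.FF.fact_le n
        omega

end Pool.Agent.S08951
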