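import Pool.Statements.S08962
import Pool.Agent.TH374.Coin.Count

set_option autoImplicit false
open Pool Pool.MP_5bb92a_co

namespace Pool.Agent.S08962

/-- The negation of the preceding statement: For every h>0, the supremum over all packings of isometric copies of the solid cylinder x²+y²≤1, 0≤z≤h (disjoint interiors) of the limsup, as R→∞, of the covered fraction of the radius-R ball equals π/√12. -/
theorem result :
    ¬ (∀ h : ℝ, 0 < h →
      (⨆ (P : Set (Set (EuclideanSpace ℝ (Fin 3))))
         (_ : (∀ A ∈ P, ∃ f : EuclideanSpace ℝ (Fin 3) ≃ᵢ EuclideanSpace ℝ (Fin 3),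
                A = f '' {p : EuclideanSpace ℝ (Fin 3) |
                  p 0 ^ 2 + p 1 ^ 2 ≤ 1 ∧ 0 ≤ p 2 ∧ p 2 ≤ h}) ∧
              (∀ A ∈ P, ∀ B ∈ P, A ≠ B → Disjoint (interior A) (interior B))),
         Filter.limsup
           (fun R : ℝ =>
             MeasureTheory.volume ((⋃₀ P) ∩ Metric.ball (0 : EuclideanSpace ℝ (Fin 3)) R) /
               MeasureTheory.volume (Metric.ball (0 : EuclideanSpace ℝ (Fin 3)) R))
           Filter.atTop)
      = ENNReal.ofReal (Real.pi / Real.sqrt 12)) := by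
  intro H
  have h0 : 0 < Pool.Agent.TH374.Coin.hh := by
    unfold Pool.Agent.TH374.Coin.hh
    norm_num
  have h1 := H _ h0
  have h2 := Pool.Agent.TH374.Coin.dens
  rw [← h1] at h2
  refine absurd h2 (not_lt.mpr ?_)
  exact le_iSup₂_of_le Pool.Agent.TH374.Coin.PP
    ⟨fun A hA => Pool.Agent.TH374.Coin.PP_iso A hA,
      fun A hA B hB hAB => Pool.Agent.TH374.Coin.PP_disj A B hA hB hAB⟩ le_rfl

end Pool.Agent.S08962
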