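import Pool.Statements.S09022
import Pool.Agent.TH355.FS.Flag2
-- import your own Pool.Agent.* helpers here

set_option autoImplicit false
open Classical Polynomial
open Pool Pool.MP_5d910f_co

namespace Pool.Agent.S09022

open Pool.Agent.TH355.FS in
theorem faces_finite : (PD.complex hcov).faces.Finite := by
  apply (Set.finite_range (fun c : Finset (Fin 24) => c.image PD.p)).subset
  rintro s ⟨c, -, -, rfl⟩
  exact ⟨c, rfl⟩

open Pool.Agent.TH355.FS in
theorem mem_faces_image (c : Finset (Fin 24)) :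
    c.image PD.p ∈ (PD.complex hcov).faces ↔ c.Nonempty ∧ H24.IsClique (c : Set (Fin 24)) := by
  have hinj := PD.p_injective hcov
  constructor
  · rintro ⟨c', h1, ⟨i, h2⟩, h3⟩
    have : c = c' := Finset.image_injective hinj h3
    subst this
    exact ⟨h1, (clique_iff c).2 ⟨i, h2⟩⟩
  · rintro ⟨h1, h2⟩
    obtain ⟨i, hi⟩ := (clique_iff c).1 h2
    exact ⟨c, h1, ⟨i, hi⟩, rfl⟩

open Pool.Agent.TH355.FS in
theorem faces_flag : ∀ s : Finset (EuclideanSpace ℝ (Fin 6)), s.Nonempty →
        (∀ x ∈ s, ∀ y ∈ s, ({x, y} : Finset (EuclideanSpace ℝ (Fin 6))) ∈ (PD.complex hcov).faces) →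
        s ∈ (PD.complex hcov).faces := by
  intro s hs hpair
  have hinj := PD.p_injective hcov
  let c : Finset (Fin 24) := Finset.univ.filter fun k => PD.p k ∈ s
  have hsc : s = c.image PD.p := by
    ext x
    rw [Finset.mem_image]
    constructor
    · intro hx
      obtain ⟨c', h1, h2, h3⟩ := hpair x hx x hx
      have : x ∈ c'.image PD.p := by rw [← h3]; simp
      rw [Finset.mem_image] at this
      obtain ⟨k, hk, rfl⟩ := this
      exact ⟨k, by simp only [c, Finset.mem_filter, Finset.mem_univ, true_and]; exact hx, rfl⟩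
    · rintro ⟨k, hk, rfl⟩
      simp only [c, Finset.mem_filter, Finset.mem_univ, true_and] at hk
      exact hk
  rw [hsc, mem_faces_image]
  refine ⟨?_, ?_⟩
  · rw [← Finset.image_nonempty (f := PD.p), ← hsc]; exact hs
  · intro a ha b hb hab
    have ha' : a ∈ c := by exact_mod_cast ha
    have hb' : b ∈ c := by exact_mod_cast hb
    simp only [c, Finset.mem_filter, Finset.mem_univ, true_and] at ha' hb'
    have h1 := hpair _ ha' _ hb'
    have h2 : ({PD.p a, PD.p b} : Finset (EuclideanSpace ℝ (Fin 6))) = ({a, b} : Finset (Fin 24)).image PD.p := by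
      ext x
      simp only [Finset.mem_insert, Finset.mem_singleton, Finset.mem_image]
      constructor
      · rintro (rfl | rfl)
        · exact ⟨a, Or.inl rfl, rfl⟩
        · exact ⟨b, Or.inr rfl, rfl⟩
      · rintro ⟨k, (rfl | rfl), rfl⟩
        · exact Or.inl rfl
        · exact Or.inr rfl
    rw [h2, mem_faces_image] at h1
    exact h1.2 (by simp) (by simp) hab

open Pool.Agent.TH355.FS in
theorem finsum_faces :
    (1 - (X : ℤ[X])) ^ 6 +
            ∑ᶠ (σ : Finset (EuclideanSpace ℝ (Fin 6))) (_ : σ ∈ (PD.complex hcov).faces),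
              (X : ℤ[X]) ^ σ.card * (1 - (X : ℤ[X])) ^ (6 - σ.card) =
    ∑ F ∈ Finset.univ.filter (fun F : Finset (Fin 24) => H24.IsClique (F : Set (Fin 24))),
      (X : ℤ[X]) ^ F.card * (1 - X) ^ (6 - F.card) := by
  have hinj := PD.p_injective hcov
  let S : Finset (Finset (Fin 24)) := Finset.univ.filter
    (fun F : Finset (Fin 24) => F.Nonempty ∧ H24.IsClique (F : Set (Fin 24)))
  have hf : (PD.complex hcov).faces = (fun c : Finset (Fin 24) => c.image PD.p) '' (S : Set (Finset (Fin 24))) := by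
    ext s
    constructor
    · intro hs
      obtain ⟨c, h1, h2, h3⟩ := hs
      refine ⟨c, ?_, h3.symm⟩
      have : c ∈ S := by
        simp only [S, Finset.mem_filter, Finset.mem_univ, true_and]
        exact ⟨h1, (clique_iff c).2 h2⟩
      exact_mod_cast this
    · rintro ⟨c, hc, rfl⟩
      have hc' : c ∈ S := by exact_mod_cast hc
      simp only [S, Finset.mem_filter, Finset.mem_univ, true_and] at hc'
      exact (mem_faces_image c).2 hc'
  have e1 : ∑ᶠ (σ : Finset (EuclideanSpace ℝ (Fin 6))) (_ : σ ∈ (PD.complex hcov).faces),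
              (X : ℤ[X]) ^ σ.card * (1 - (X : ℤ[X])) ^ (6 - σ.card) =
      ∑ c ∈ S, (X : ℤ[X]) ^ c.card * (1 - X) ^ (6 - c.card) := by
    rw [hf, finsum_mem_image (Function.Injective.injOn (Finset.image_injective hinj)),
      finsum_mem_coe_finset]
    apply Finset.sum_congr rfl
    intro c _
    rw [Finset.card_image_of_injective _ hinj]
  rw [e1]
  have e2 : (Finset.univ.filter (fun F : Finset (Fin 24) => H24.IsClique (F : Set (Fin 24)))) =
      insert ∅ S := by
    ext F
    simp only [S, Finset.mem_filter, Finset.mem_univ, true_and, Finset.mem_insert]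
    constructor
    · intro h
      rcases F.eq_empty_or_nonempty with h' | h'
      · exact Or.inl h'
      · exact Or.inr ⟨h', h⟩
    · rintro (rfl | h)
      · simp
      · exact h.2
  rw [e2, Finset.sum_insert]
  · simp
  · simp [S]

open Pool.Agent.TH355.FS in
theorem final_flag (m : ℕ) (Γ : Finset (Finset (Fin m)))
    (hdown : ∀ σ ∈ Γ, ∀ τ : Finset (Fin m), τ ⊆ σ → τ ∈ Γ)
    (hflag : ∀ s : Finset (Fin m), (∀ x ∈ s, ∀ y ∈ s, ({x, y} : Finset (Fin m)) ∈ Γ) → s ∈ Γ)
    (hcard : ∀ σ ∈ Γ, 2 * σ.card ≤ 6)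
    (hp : ∑ F ∈ Finset.univ.filter (fun F : Finset (Fin 24) => H24.IsClique (F : Set (Fin 24))),
      (X : ℤ[X]) ^ F.card * (1 - X) ^ (6 - F.card) =
      ∑ σ ∈ Γ, (X : ℤ[X]) ^ σ.card * (1 + (X : ℤ[X])) ^ (6 - 2 * σ.card)) : False := by
  have hG : ∀ φ : ℕ → ℤ, ∑ σ ∈ Γ, φ σ.card = ((Γ.filter fun σ => σ.card = 0).card : ℤ) * φ 0 +
      ((Γ.filter fun σ => σ.card = 1).card : ℤ) * φ 1 +
      ((Γ.filter fun σ => σ.card = 2).card : ℤ) * φ 2 +
      ((Γ.filter fun σ => σ.card = 3).card : ℤ) * φ 3 := by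
    intro φ
    have hmaps : ∀ σ ∈ Γ, σ.card ∈ Finset.range 4 := by
      intro σ hσ
      have := hcard σ hσ
      rw [Finset.mem_range]; omega
    rw [← Finset.sum_fiberwise_of_maps_to hmaps]
    have h : ∀ k, ∑ σ ∈ Γ.filter (fun σ => σ.card = k), φ σ.card =
        ((Γ.filter fun σ => σ.card = k).card : ℤ) * φ k := by
      intro k
      rw [Finset.sum_congr rfl (g := fun _ => φ k), Finset.sum_const, nsmul_eq_mul]
      intro σ hσ
      rw [(Finset.mem_filter.1 hσ).2]
    simp only [Finset.sum_range_succ, Finset.sum_range_zero, h]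
    ring
  have key : ∀ x : ℤ, (1 - x) ^ 6 + 24 * (x * (1 - x) ^ 5) + 201 * (x ^ 2 * (1 - x) ^ 4) +
      743 * (x ^ 3 * (1 - x) ^ 3) + 1344 * (x ^ 4 * (1 - x) ^ 2) + 1167 * (x ^ 5 * (1 - x)) +
      389 * x ^ 6 = ((Γ.filter fun σ => σ.card = 0).card : ℤ) * (1 + x) ^ 6 +
        ((Γ.filter fun σ => σ.card = 1).card : ℤ) * (x * (1 + x) ^ 4) +
        ((Γ.filter fun σ => σ.card = 2).card : ℤ) * (x ^ 2 * (1 + x) ^ 2) +
        ((Γ.filter fun σ => σ.card = 3).card : ℤ) * x ^ 3 := by
    intro x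
    have h := congrArg (Polynomial.eval x) hp
    rw [Polynomial.eval_finsetSum, Polynomial.eval_finsetSum] at h
    have h1 : ∀ F : Finset (Fin 24), Polynomial.eval x
        ((X : ℤ[X]) ^ F.card * (1 - X) ^ (6 - F.card)) =
        (fun k => x ^ k * (1 - x) ^ (6 - k)) F.card := by
      intro F
      simp
    have h2 : ∀ F : Finset (Fin m), Polynomial.eval x
        ((X : ℤ[X]) ^ F.card * (1 + X) ^ (6 - 2 * F.card)) =
        (fun k => x ^ k * (1 + x) ^ (6 - 2 * k)) F.card := by
      intro F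
      simp
    rw [Finset.sum_congr rfl (fun F _ => h1 F), Finset.sum_congr rfl (fun F _ => h2 F)] at h
    rw [sum_cliques (fun k => x ^ k * (1 - x) ^ (6 - k)),
      hG (fun k => x ^ k * (1 + x) ^ (6 - 2 * k))] at h
    simp [-Finset.card_eq_zero] at h
    linarith
  have h0 : (Γ.filter fun σ => σ.card = 0).card = 1 := by
    have : (Γ.filter fun σ => σ.card = 0) = {∅} := by
      ext s
      simp only [Finset.mem_filter, Finset.mem_singleton, Finset.card_eq_zero]
      constructor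
      · rintro ⟨-, h⟩; exact h
      · rintro rfl
        exact ⟨hflag ∅ (by simp), rfl⟩
    rw [this]; simp
  have k1 := key (-1)
  have k2 := key 1
  have k3 := key 2
  rw [h0] at k1 k2 k3
  norm_num at k1 k2 k3
  exact no_flag_complex Γ hdown hflag (by omega) (by omega) (by omega)

/-- The negation of the preceding statement: For every finite flag simplicial complex triangulating the sphere S^(d-1), there is a flag complex whose f-polynomial equals the gamma-polynomial of the sphere's h-polynomial: h(t) = sum over faces s of that complex of t^∣s∣ (1+t)^(d-2∣s∣). -/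
theorem result :
    ¬ (∀ (n d : ℕ) (K : Geometry.SimplicialComplex ℝ (EuclideanSpace ℝ (Fin n))),
      K.faces.Finite →
      Nonempty (K.space ≃ₜ Metric.sphere (0 : EuclideanSpace ℝ (Fin d)) 1) →
      (∀ s : Finset (EuclideanSpace ℝ (Fin n)), s.Nonempty →
        (∀ x ∈ s, ∀ y ∈ s, ({x, y} : Finset (EuclideanSpace ℝ (Fin n))) ∈ K.faces) →
        s ∈ K.faces) →
      ∃ (m : ℕ) (Γ : Finset (Finset (Fin m))),
        (∀ σ ∈ Γ, ∀ τ : Finset (Fin m), τ ⊆ σ → τ ∈ Γ) ∧
        (∀ s : Finset (Fin m), (∀ x ∈ s, ∀ y ∈ s, ({x, y} : Finset (Fin m)) ∈ Γ) → s ∈ Γ) ∧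
        (∀ σ ∈ Γ, 2 * σ.card ≤ d) ∧
        ((1 - (X : ℤ[X])) ^ d +
            ∑ᶠ (σ : Finset (EuclideanSpace ℝ (Fin n))) (_ : σ ∈ K.faces),
              (X : ℤ[X]) ^ σ.card * (1 - (X : ℤ[X])) ^ (d - σ.card)
          = ∑ σ ∈ Γ, (X : ℤ[X]) ^ σ.card * (1 + (X : ℤ[X])) ^ (d - 2 * σ.card))) := by
  intro h
  obtain ⟨m, Γ, h1, h2, h3, h4⟩ := h 6 6 (Pool.Agent.TH355.FS.PD.complex Pool.Agent.TH355.FS.hcov)
    faces_finite (Pool.Agent.TH355.FS.PD.homeo Pool.Agent.TH355.FS.hcov (by norm_num)) faces_flag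
  rw [finsum_faces] at h4
  exact final_flag m Γ h1 h2 h3 h4
end Pool.Agent.S09022
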