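import Pool.Statements.S09102

set_option autoImplicit false
open Pool Pool.MP_602b76_co

namespace Pool.Agent.S09102

/-- The six positive roots of the lattice `A₃`, in coordinates in which the lattice is `ℤ³`. -/
def U : Finset (Fin 3 → ℤ) :=
  {![1, 0, 0], ![0, 1, 0], ![0, 0, 1], ![1, -1, 0], ![1, 0, -1], ![0, 1, -1]}

/-- All twelve roots. -/
def V : Finset (Fin 3 → ℤ) := U ∪ U.image (fun u => -u)

theorem V_card : V.card = 12 := by decide

theorem zero_not_mem_V : (0 : Fin 3 → ℤ) ∉ V := by decide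

theorem neg_mem_V (x : Fin 3 → ℤ) (h : x ∈ V) : -x ∈ V := by
  revert x
  decide

/-- A triangle `0, b, c` has at most one common neighbour. -/
theorem common : ∀ b ∈ V, ∀ c ∈ V, b - c ∈ V → ∀ r ∈ V, r - b ∈ V → r - c ∈ V →
    ∀ s ∈ V, s - b ∈ V → s - c ∈ V → r = s := by
  decide

theorem closure_top : AddSubgroup.closure (U : Set (Fin 3 → ℤ)) = ⊤ := by
  rw [eq_top_iff]
  intro x _
  have h1 : (![1, 0, 0] : Fin 3 → ℤ) ∈ AddSubgroup.closure (U : Set (Fin 3 → ℤ)) :=
    AddSubgroup.subset_closure (by simp [U])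
  have h2 : (![0, 1, 0] : Fin 3 → ℤ) ∈ AddSubgroup.closure (U : Set (Fin 3 → ℤ)) :=
    AddSubgroup.subset_closure (by simp [U])
  have h3 : (![0, 0, 1] : Fin 3 → ℤ) ∈ AddSubgroup.closure (U : Set (Fin 3 → ℤ)) :=
    AddSubgroup.subset_closure (by simp [U])
  have : x = x 0 • (![1, 0, 0] : Fin 3 → ℤ) + x 1 • (![0, 1, 0] : Fin 3 → ℤ)
      + x 2 • (![0, 0, 1] : Fin 3 → ℤ) := by
    ext i
    fin_cases i <;> simp
  rw [this]
  exact AddSubgroup.add_mem _ (AddSubgroup.add_mem _ (AddSubgroup.zsmul_mem _ h1 _)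
    (AddSubgroup.zsmul_mem _ h2 _)) (AddSubgroup.zsmul_mem _ h3 _)

/-- Ordered adjacent index pairs among the first `n` points of a sequence. -/
def N (e : ℕ → (Fin 3 → ℤ)) (n : ℕ) : ℕ :=
  ∑ i ∈ Finset.range n, ∑ j ∈ Finset.range n, if e j - e i ∈ V then 1 else 0

theorem boundary_add_N (e : ℕ → (Fin 3 → ℤ)) (he : Function.Injective e) (n : ℕ) :
    ((((Finset.range n).image e) ×ˢ V).filter
      (fun p => p.1 + p.2 ∉ (Finset.range n).image e)).card + N e n = 12 * n := by
  classical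
  have hN : N e n = ((((Finset.range n).image e) ×ˢ V).filter
      (fun p => p.1 + p.2 ∈ (Finset.range n).image e)).card := by
    unfold N
    rw [← Finset.sum_product', ← Finset.card_filter]
    apply Finset.card_bij (fun (ij : ℕ × ℕ) _ => ((e ij.1, e ij.2 - e ij.1) :
      (Fin 3 → ℤ) × (Fin 3 → ℤ)))
    · intro ij hij
      simp only [Finset.mem_filter, Finset.mem_product, Finset.mem_range] at hij
      simp only [Finset.mem_filter, Finset.mem_product]
      refine ⟨⟨Finset.mem_image_of_mem e (Finset.mem_range.2 hij.1.1), hij.2⟩, ?_⟩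
      rw [add_sub_cancel]
      exact Finset.mem_image_of_mem e (Finset.mem_range.2 hij.1.2)
    · intro a _ b _ hab
      simp only [Prod.mk.injEq] at hab
      obtain ⟨h1, h2⟩ := hab
      have h1' := he h1
      rw [h1'] at h2
      have h3 : e a.2 = e b.2 := by
        have := congrArg (fun z => z + e b.1) h2
        simpa using this
      exact Prod.ext h1' (he h3)
    · intro p hp
      simp only [Finset.mem_filter, Finset.mem_product, Finset.mem_image, Finset.mem_range] at hp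
      obtain ⟨⟨⟨i, hi, hi'⟩, hV⟩, ⟨j, hj, hj'⟩⟩ := hp
      refine ⟨(i, j), ?_, ?_⟩
      · simp only [Finset.mem_filter, Finset.mem_product, Finset.mem_range]
        refine ⟨⟨hi, hj⟩, ?_⟩
        rw [hj', hi', add_sub_cancel_left]
        exact hV
      · apply Prod.ext
        · exact hi'
        · simp only
          rw [hj', hi', add_sub_cancel_left]
  rw [hN, add_comm, Finset.card_filter_add_card_filter_not, Finset.card_product,
    Finset.card_image_of_injective _ he, Finset.card_range, V_card, mul_comm]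

/-- The four points of a regular tetrahedron. -/
def T4 : Finset (Fin 3 → ℤ) := {![0, 0, 0], ![1, 0, 0], ![0, 1, 0], ![0, 0, 1]}

/-- The six points of a regular octahedron. -/
def T6 : Finset (Fin 3 → ℤ) :=
  {![1, 0, 0], ![0, 1, 0], ![0, 0, 1], ![1, 1, 0], ![1, 0, 1], ![0, 1, 1]}

theorem T4_card : T4.card = 4 := by decide

theorem T6_card : T6.card = 6 := by decide

theorem T4_boundary : ((T4 ×ˢ V).filter (fun p => p.1 + p.2 ∉ T4)).card = 36 := by decide

theorem T6_boundary : ((T6 ×ˢ V).filter (fun p => p.1 + p.2 ∉ T6)).card = 48 := by decide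

theorem adj_symm (x y : Fin 3 → ℤ) (h : x - y ∈ V) : y - x ∈ V := by
  have := neg_mem_V _ h
  rwa [neg_sub] at this

/-- No point outside a four-clique is adjacent to three of its vertices. -/
theorem key (x0 x1 x2 x3 p : Fin 3 → ℤ) (h01 : x1 - x0 ∈ V) (h02 : x2 - x0 ∈ V)
    (h03 : x3 - x0 ∈ V) (h12 : x1 - x2 ∈ V) (h13 : x3 - x1 ∈ V) (h23 : x3 - x2 ∈ V)
    (hp0 : p - x0 ∈ V) (hp1 : p - x1 ∈ V) (hp2 : p - x2 ∈ V) : p = x3 := by
  have h := common (x1 - x0) h01 (x2 - x0) h02 (by rwa [sub_sub_sub_cancel_right])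
    (p - x0) hp0 (by rwa [sub_sub_sub_cancel_right]) (by rwa [sub_sub_sub_cancel_right])
    (x3 - x0) h03 (by rwa [sub_sub_sub_cancel_right]) (by rwa [sub_sub_sub_cancel_right])
  exact sub_left_injective h

/-- Adjacency indicator of the points number `i` and `j`. -/
def a (e : ℕ → (Fin 3 → ℤ)) (i j : ℕ) : ℕ := if e j - e i ∈ V then 1 else 0

theorem a_le (e : ℕ → (Fin 3 → ℤ)) (i j : ℕ) : a e i j ≤ 1 := by
  unfold a
  split_ifs <;> simp

theorem a_self (e : ℕ → (Fin 3 → ℤ)) (i : ℕ) : a e i i = 0 := by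
  unfold a
  rw [sub_self, if_neg zero_not_mem_V]

theorem a_symm (e : ℕ → (Fin 3 → ℤ)) (i j : ℕ) : a e i j = a e j i := by
  unfold a
  by_cases h : e j - e i ∈ V
  · rw [if_pos h, if_pos (adj_symm _ _ h)]
  · rw [if_neg h, if_neg (fun h' => h (adj_symm _ _ h'))]

theorem a_one (e : ℕ → (Fin 3 → ℤ)) (i j : ℕ) : a e i j = 1 ↔ e j - e i ∈ V := by
  unfold a
  split_ifs with h <;> simp [h]

theorem triple (e : ℕ → (Fin 3 → ℤ)) (he : Function.Injective e) (x0 x1 x2 x3 p : ℕ)
    (h01 : a e x0 x1 = 1) (h02 : a e x0 x2 = 1) (h03 : a e x0 x3 = 1) (h12 : a e x1 x2 = 1)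
    (h13 : a e x1 x3 = 1) (h23 : a e x2 x3 = 1) (hne : p ≠ x3) :
    a e x0 p + a e x1 p + a e x2 p ≤ 2 := by
  have l0 := a_le e x0 p
  have l1 := a_le e x1 p
  have l2 := a_le e x2 p
  by_contra hcon
  have q0 : a e x0 p = 1 := by omega
  have q1 : a e x1 p = 1 := by omega
  have q2 : a e x2 p = 1 := by omega
  rw [a_one] at *
  exact hne (he (key (e x0) (e x1) (e x2) (e x3) (e p) h01 h02 h03 (adj_symm _ _ h12) h13 h23
    q0 q1 q2))

theorem no_extension (e : ℕ → (Fin 3 → ℤ)) (he : Function.Injective e) (h4 : 12 ≤ N e 4)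
    (h6 : 24 ≤ N e 6) : False := by
  have e4 : N e 4 = ∑ i ∈ Finset.range 4, ∑ j ∈ Finset.range 4, a e i j := rfl
  have e6 : N e 6 = ∑ i ∈ Finset.range 6, ∑ j ∈ Finset.range 6, a e i j := rfl
  simp only [Finset.sum_range_succ, Finset.sum_range_zero, zero_add] at e4 e6
  have z := a_self e
  have s := a_symm e
  have l := a_le e
  rw [z 0, z 1, z 2, z 3, s 1 0, s 2 0, s 3 0, s 2 1, s 3 1, s 3 2] at e4
  rw [z 0, z 1, z 2, z 3, z 4, z 5, s 1 0, s 2 0, s 3 0, s 2 1, s 3 1, s 3 2,
    s 4 0, s 4 1, s 4 2, s 4 3, s 5 0, s 5 1, s 5 2, s 5 3, s 5 4] at e6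
  have l01 := l 0 1
  have l02 := l 0 2
  have l03 := l 0 3
  have l12 := l 1 2
  have l13 := l 1 3
  have l23 := l 2 3
  have l45 := l 4 5
  have g01 : a e 0 1 = 1 := by omega
  have g02 : a e 0 2 = 1 := by omega
  have g03 : a e 0 3 = 1 := by omega
  have g12 : a e 1 2 = 1 := by omega
  have g13 : a e 1 3 = 1 := by omega
  have g23 : a e 2 3 = 1 := by omega
  have deg : ∀ p : ℕ, 4 ≤ p → a e 0 p + a e 1 p + a e 2 p + a e 3 p ≤ 2 := by
    intro p hp
    have t1 := triple e he 0 1 2 3 p g01 g02 g03 g12 g13 g23 (by omega)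
    have t2 := triple e he 0 1 3 2 p g01 g03 g02 g13 g12 (by rw [s]; exact g23) (by omega)
    have t3 := triple e he 0 2 3 1 p g02 g03 g01 g23 (by rw [s]; exact g12)
      (by rw [s]; exact g13) (by omega)
    have t4 := triple e he 1 2 3 0 p g12 g13 (by rw [s]; exact g01) g23 (by rw [s]; exact g02)
      (by rw [s]; exact g03) (by omega)
    have m0 := l 0 p
    have m1 := l 1 p
    have m2 := l 2 p
    have m3 := l 3 p
    omega
  have d4 := deg 4 (by norm_num)
  have d5 := deg 5 (by norm_num)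
  omega

/-- The negation of the preceding statement: For every d ≥ 1 and finite generating set U of ℤ^d not containing 0, some enumeration of ℤ^d has every initial segment of size n with edge boundary in the Cayley graph at most that of any n-element set. -/
theorem result :
    ¬ (∀ d : ℕ, 1 ≤ d → ∀ U : Finset (Fin d → ℤ), (0 : Fin d → ℤ) ∉ U →
      AddSubgroup.closure (U : Set (Fin d → ℤ)) = ⊤ →
      ∃ e : ℕ ≃ (Fin d → ℤ), ∀ n : ℕ, 1 ≤ n → ∀ S : Finset (Fin d → ℤ), S.card = n →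
        ((((Finset.range n).image ⇑e) ×ˢ (U ∪ U.image (fun u => -u))).filter
            (fun p => p.1 + p.2 ∉ (Finset.range n).image ⇑e)).card ≤
        ((S ×ˢ (U ∪ U.image (fun u => -u))).filter (fun p => p.1 + p.2 ∉ S)).card) := by
  intro H
  obtain ⟨e, he⟩ := H 3 (by norm_num) U (by decide) closure_top
  have inj := e.injective
  have h4 : ((((Finset.range 4).image ⇑e) ×ˢ V).filter
      (fun p => p.1 + p.2 ∉ (Finset.range 4).image ⇑e)).card ≤
      ((T4 ×ˢ V).filter (fun p => p.1 + p.2 ∉ T4)).card := he 4 (by norm_num) T4 T4_card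
  have h6 : ((((Finset.range 6).image ⇑e) ×ˢ V).filter
      (fun p => p.1 + p.2 ∉ (Finset.range 6).image ⇑e)).card ≤
      ((T6 ×ˢ V).filter (fun p => p.1 + p.2 ∉ T6)).card := he 6 (by norm_num) T6 T6_card
  have b4 := boundary_add_N e inj 4
  have b6 := boundary_add_N e inj 6
  rw [T4_boundary] at h4
  rw [T6_boundary] at h6
  exact no_extension e inj (by omega) (by omega)

end Pool.Agent.S09102
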