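import Pool.Statements.S09131
import Pool.Agent.TH385.KK.Final

set_option autoImplicit false
open Pool Pool.MP_61873f_co

namespace Pool.Agent.S09131

/-- For every L>0 there are L'>0 and δ>0 such that any nonempty A in {0,1}^n with density α≤1/2 and edge boundary at most L∣A∣log₂(1/α) has a subcube of measure at least α^{L'} on which A has density at least (1+δ)α. -/
theorem result :
    ∀ L : ℝ, 0 < L → ∃ L' : ℝ, 0 < L' ∧ ∃ δ : ℝ, 0 < δ ∧
      ∀ n : ℕ, ∀ A : Finset (Fin n → Bool), A.Nonempty →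
        (A.card : ℝ) / 2 ^ n ≤ 1 / 2 →
        (((A ×ˢ (Finset.univ : Finset (Fin n))).filter
            (fun p => Function.update p.1 p.2 (!(p.1 p.2)) ∉ A)).card : ℝ)
          ≤ L * (A.card : ℝ) * Real.logb 2 ((2 : ℝ) ^ n / (A.card : ℝ)) →
        ∃ S : Finset (Fin n), ∃ c : Fin n → Bool,
          ((A.card : ℝ) / 2 ^ n) ^ L' ≤ (1 / 2 : ℝ) ^ S.card ∧
          (1 + δ) * ((A.card : ℝ) / 2 ^ n) ≤
            ((A.filter (fun x => ∀ i ∈ S, x i = c i)).card : ℝ) /
              ((Finset.univ.filter (fun x : Fin n → Bool => ∀ i ∈ S, x i = c i)).card : ℝ) := by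
  intro L hL
  have hlog2 : 0 < Real.log 2 := Real.log_pos (by norm_num)
  have hL0 : 1 ≤ 2 * (1 + L / Real.log 2) := by
    have : 0 < L / Real.log 2 := by positivity
    linarith
  refine ⟨2 * (1 + L / Real.log 2) / Pool.Agent.TH385.KK.epsL (2 * (1 + L / Real.log 2)),
    div_pos (by linarith) (Pool.Agent.TH385.KK.epsL_pos hL0), 2 / 5, by norm_num, ?_⟩
  intro n A hA hhalf hbd
  rw [Pool.Agent.TH385.KK.bd_eq] at hbd
  obtain ⟨F, c, h1, h2⟩ := Pool.Agent.TH385.KK.kk_main (ι := Fin n) hL hA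
    (by rw [Fintype.card_fin]; exact hhalf) (by rw [Fintype.card_fin]; exact hbd)
  rw [Fintype.card_fin] at h1 h2
  refine ⟨Fᶜ, c, h1, ?_⟩
  rw [Pool.Agent.TH385.KK.card_cube, compl_compl]
  refine h2.trans (le_of_eq ?_)
  have e : Pool.Agent.TH385.KK.supp A F c = A.filter (fun x => ∀ i ∈ Fᶜ, x i = c i) := by
    ext x
    simp only [Pool.Agent.TH385.KK.supp, Finset.mem_filter, Finset.mem_compl]
  rw [e]
  push_cast
  rfl

end Pool.Agent.S09131
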