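import Pool.Statements.S09181
-- import your own Pool.Agent.* helpers here
import Pool.Agent.TH944.Wreath

set_option autoImplicit false
open Classical
open Pool Pool.MP_632be6_co

namespace Pool.Agent.S09181

theorem maxDegree_le_of_colouring {X : Type} [Fintype X] (H : SimpleGraph X) (k : ℕ)
    (c : Sym2 X → Fin k) (hc : ∀ e ∈ H.edgeSet, ∀ f ∈ H.edgeSet,
      e ≠ f → (∃ v, v ∈ e ∧ v ∈ f) → c e ≠ c f) : H.maxDegree ≤ k := by
  refine SimpleGraph.maxDegree_le_of_forall_degree_le H k ?_
  intro v
  rw [← SimpleGraph.card_neighborFinset_eq_degree]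
  have h1 : (H.neighborFinset v).card ≤ (Finset.univ : Finset (Fin k)).card := by
    refine Finset.card_le_card_of_injOn (fun w => c s(v, w)) (fun _ _ => by simp) ?_
    intro w hw w' hw' heq
    have h1 : H.Adj v w := by
      have : w ∈ H.neighborFinset v := hw
      rwa [SimpleGraph.mem_neighborFinset] at this
    have h2 : H.Adj v w' := by
      have : w' ∈ H.neighborFinset v := hw'
      rwa [SimpleGraph.mem_neighborFinset] at this
    by_contra hne
    refine hc s(v, w) h1 s(v, w') h2 ?_ ⟨v, by simp, by simp⟩ heq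
    intro h
    rw [Sym2.eq_iff] at h
    rcases h with h | h
    · exact hne h.2
    · exact hne (h.2.trans h.1)
  simpa using h1

theorem colouring_set_nonempty {X : Type} [Fintype X] (H : SimpleGraph X) :
    {k : ℕ | ∃ c : Sym2 X → Fin k, ∀ e ∈ H.edgeSet, ∀ f ∈ H.edgeSet,
              e ≠ f → (∃ v, v ∈ e ∧ v ∈ f) → c e ≠ c f}.Nonempty := by
  refine ⟨Fintype.card (Sym2 X), Fintype.equivFin (Sym2 X), ?_⟩
  intro e _ f _ hef _ h
  exact hef ((Fintype.equivFin (Sym2 X)).injective h)

/-- For all finite simple graphs G (with an edge) and G', if the chromatic index of G equals its maximum degree, then the chromatic index of the wreath product G ρ G' equals its maximum degree. -/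
theorem result :
    ∀ (V W : Type) [Fintype V] [Fintype W] (G : SimpleGraph V) (G' : SimpleGraph W)
      (H : SimpleGraph (V × W)),
      H = SimpleGraph.fromRel (fun p q : V × W =>
            (p.1 = q.1 ∧ G'.Adj p.2 q.2) ∨
            (G.Adj p.1 q.1 ∧ ∃ φ : G' ≃g G', φ p.2 = q.2)) →
      G.edgeSet.Nonempty →
      sInf {k : ℕ | ∃ c : Sym2 V → Fin k, ∀ e ∈ G.edgeSet, ∀ f ∈ G.edgeSet,
              e ≠ f → (∃ v, v ∈ e ∧ v ∈ f) → c e ≠ c f} = G.maxDegree →
      sInf {k : ℕ | ∃ c : Sym2 (V × W) → Fin k, ∀ e ∈ H.edgeSet, ∀ f ∈ H.edgeSet,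
              e ≠ f → (∃ v, v ∈ e ∧ v ∈ f) → c e ≠ c f} = H.maxDegree := by
  intro V W _ _ G G' H hH hne hG
  -- the orbits of the automorphism group
  let r : Setoid W :=
    { r := fun x y => ∃ φ : G' ≃g G', φ x = y
      iseqv := by
        refine ⟨fun x => ⟨RelIso.refl _, rfl⟩, ?_, ?_⟩
        · rintro x y ⟨φ, rfl⟩
          exact ⟨φ.symm, φ.symm_apply_apply x⟩
        · rintro x y z ⟨φ, rfl⟩ ⟨ψ, rfl⟩
          exact ⟨φ.trans ψ, rfl⟩ }
  have hr : ∀ x y, r x y ↔ ∃ φ : G' ≃g G', φ x = y := fun _ _ => Iff.rfl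
  have hHadj : ∀ p q, H.Adj p q ↔ Pool.Agent.TH944.Wr.HA G G' r p q := by
    intro p q
    rw [hH, SimpleGraph.fromRel_adj, Pool.Agent.TH944.Wr.HA]
    constructor
    · rintro ⟨_, h | h⟩
      · rcases h with h | h
        · exact Or.inl h
        · exact Or.inr ⟨h.1, (hr _ _).2 h.2⟩
      · rcases h with h | h
        · exact Or.inl ⟨h.1.symm, h.2.symm⟩
        · exact Or.inr ⟨h.1.symm, r.symm ((hr _ _).2 h.2)⟩
    · rintro (h | h)
      · refine ⟨?_, Or.inl (Or.inl h)⟩
        rintro rfl
        exact h.2.ne rfl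
      · refine ⟨?_, Or.inl (Or.inr ⟨h.1, (hr _ _).1 h.2⟩)⟩
        rintro rfl
        exact h.1.ne rfl
  -- the colouring of `G`
  have hmem := Nat.sInf_mem (colouring_set_nonempty G)
  rw [hG] at hmem
  obtain ⟨c0, hc0⟩ := hmem
  obtain ⟨e0, he0⟩ := hne
  obtain ⟨a0, b0⟩ := e0
  have hab0 : G.Adj a0 b0 := he0
  have : Nonempty V := ⟨a0⟩
  have hdpos : 0 < G.maxDegree := by
    have h1 : 0 < G.degree a0 := by
      rw [SimpleGraph.degree_pos_iff_exists_adj]
      exact ⟨b0, hab0⟩
    exact h1.trans_le (G.degree_le_maxDegree a0)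
  obtain ⟨m, hm⟩ : ∃ m, G.maxDegree = m + 1 := ⟨G.maxDegree - 1, by omega⟩
  have hD : ∀ x, G'.degree x + (m + 1) * Pool.Agent.TH944.Wr.cs r x ≤ H.maxDegree := by
    intro x
    obtain ⟨v, hv⟩ := G.exists_maximal_degree_vertex
    refine le_trans ?_ (H.degree_le_maxDegree (v, x))
    rw [← SimpleGraph.card_neighborFinset_eq_degree, ← hm, hv,
      ← SimpleGraph.card_neighborFinset_eq_degree, ← SimpleGraph.card_neighborFinset_eq_degree,
      Pool.Agent.TH944.Wr.cs, ← Finset.card_product]
    have h1 : (G'.neighborFinset x).card =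
        ((G'.neighborFinset x).image (fun y => (v, y))).card := by
      rw [Finset.card_image_of_injective]
      intro y y' h
      exact (Prod.mk.inj h).2
    rw [h1, ← Finset.card_union_of_disjoint]
    · apply Finset.card_le_card
      intro p hp
      rw [SimpleGraph.mem_neighborFinset, hHadj]
      rw [Finset.mem_union] at hp
      rcases hp with hp | hp
      · obtain ⟨y, hy, rfl⟩ := Finset.mem_image.1 hp
        rw [SimpleGraph.mem_neighborFinset] at hy
        exact Or.inl ⟨rfl, hy⟩
      · rw [Finset.mem_product, SimpleGraph.mem_neighborFinset, Finset.mem_filter] at hp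
        exact Or.inr ⟨hp.1, hp.2.2⟩
    · rw [Finset.disjoint_left]
      intro p hp hp'
      obtain ⟨y, hy, rfl⟩ := Finset.mem_image.1 hp
      rw [Finset.mem_product, SimpleGraph.mem_neighborFinset] at hp'
      exact hp'.1.ne rfl
  obtain ⟨col, hcol1, hcol2⟩ := Pool.Agent.TH944.Wr.general_case m H.maxDegree G
    (fun a b => Fin.cast hm (c0 s(a, b)))
    (by
      intro a b
      simp only [Sym2.eq_swap])
    (by
      intro a b b' hab hab' hne h
      have h2 : c0 s(a, b) = c0 s(a, b') := by
        have := congrArg Fin.val h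
        simp only [Fin.val_cast] at this
        exact Fin.ext this
      refine hc0 s(a, b) hab s(a, b') hab' ?_ ⟨a, by simp, by simp⟩ h2
      intro h3
      rw [Sym2.eq_iff] at h3
      rcases h3 with h3 | h3
      · exact hne h3.2
      · exact hne (h3.2.trans h3.1))
    G' r
    (by
      rintro x x' y ⟨φ, rfl⟩ hxy
      exact ⟨φ y, ⟨φ, rfl⟩, φ.map_rel_iff.2 hxy⟩)
    hD
  apply le_antisymm
  · apply Nat.sInf_le
    rcases isEmpty_or_nonempty W with hW | hW
    · refine ⟨fun z => z.out.1.2 |> hW.elim, ?_⟩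
      intro e _ f _ _ _
      exact hW.elim e.out.1.2
    · have hDpos : 0 < H.maxDegree := by
        have x : W := Classical.choice hW
        have h1 := hD x
        have h2 := Pool.Agent.TH944.Wr.cs_pos r x
        have h3 : 0 < (m + 1) * Pool.Agent.TH944.Wr.cs r x := Nat.mul_pos (Nat.succ_pos m) h2
        omega
      have hout : ∀ (e : Sym2 (V × W)) (p q : V × W), e = s(p, q) → H.Adj p q →
          col e.out.1 e.out.2 = col p q ∧ col e.out.1 e.out.2 < H.maxDegree := by
        intro e p q he hpq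
        have h1 : s(e.out.1, e.out.2) = s(p, q) := by
          rw [← he]
          exact Quot.out_eq e
        have h2 := hcol1 p q ((hHadj p q).1 hpq)
        rw [Sym2.eq_iff] at h1
        rcases h1 with ⟨h3, h4⟩ | ⟨h3, h4⟩
        · rw [h3, h4]
          exact ⟨rfl, h2.2⟩
        · rw [h3, h4]
          exact ⟨h2.1.symm, h2.1 ▸ h2.2⟩
      refine ⟨fun e => if h : col e.out.1 e.out.2 < H.maxDegree then
        ⟨col e.out.1 e.out.2, h⟩ else ⟨0, hDpos⟩, ?_⟩
      rintro e he f hf hef ⟨p, hpe, hpf⟩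
      obtain ⟨q, hq⟩ := Sym2.mem_iff_exists.1 hpe
      obtain ⟨q', hq'⟩ := Sym2.mem_iff_exists.1 hpf
      have h1 : H.Adj p q := by
        rw [hq] at he
        exact he
      have h2 : H.Adj p q' := by
        rw [hq'] at hf
        exact hf
      have h3 := hout e p q hq h1
      have h4 := hout f p q' hq' h2
      beta_reduce
      rw [dif_pos h3.2, dif_pos h4.2]
      intro h5
      have h6 := congrArg Fin.val h5
      simp only at h6
      rw [h3.1, h4.1] at h6
      refine hcol2 p q q' ((hHadj p q).1 h1) ((hHadj p q').1 h2) ?_ h6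
      rintro rfl
      exact hef (hq.trans hq'.symm)
  · apply le_csInf (colouring_set_nonempty H)
    rintro k ⟨c, hc⟩
    exact maxDegree_le_of_colouring H k c hc

end Pool.Agent.S09181
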