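import Pool.Statements.S09267
import Pool.Agent.TH492.Final

set_option autoImplicit false
open Pool Pool.MP_67f173_co

namespace Pool.Agent.S09267

/-- For every subgraph-closed class of finite graphs whose r-shallow minors have edge density at most polynomial in r, there are d>0 and c such that every graph in the class has a vertex ordering with strong r-coloring number at most c·r^d for all r≥1. -/
theorem result :
  ∀ C : (n : ℕ) → SimpleGraph (Fin n) → Prop,
    (∀ (n m : ℕ) (G : SimpleGraph (Fin n)) (H : SimpleGraph (Fin m)) (f : H →g G),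
        Function.Injective f → C n G → C m H) →
    (∃ c k : ℕ, ∀ (r n : ℕ) (G : SimpleGraph (Fin n)), C n G →
      ∀ (m : ℕ) (H : SimpleGraph (Fin m)) (B : Fin m → Set (Fin n)),
        (∀ i j, i ≠ j → Disjoint (B i) (B j)) →
        (∀ i, ∃ x ∈ B i, ∀ y ∈ B i, ∃ p : G.Walk x y, p.length ≤ r ∧ ∀ w ∈ p.support, w ∈ B i) →
        (∀ i j, H.Adj i j → ∃ a ∈ B i, ∃ b ∈ B j, G.Adj a b) →
        H.edgeSet.ncard ≤ c * (r + 1) ^ k * m) →
    ∃ d : ℕ, 0 < d ∧ ∃ c : ℕ, ∀ r : ℕ, 1 ≤ r → ∀ (n : ℕ) (G : SimpleGraph (Fin n)), C n G →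
      ∃ σ : Equiv.Perm (Fin n), ∀ v : Fin n,
        {u : Fin n | σ u < σ v ∧ ∃ p : G.Walk u v, p.length ≤ r ∧
            ∀ w ∈ p.support, w ≠ u → w ≠ v → σ v < σ w}.ncard ≤ c * r ^ d := by
  intro C _ h
  exact Pool.Agent.TH492.main C h

end Pool.Agent.S09267
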