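import Pool.Statements.S09406
import Pool.Agent.TH510.K9.Draw

set_option autoImplicit false
open Pool Pool.MP_6f60ef_co

namespace Pool.Agent.S09406

/-- The negation of the preceding statement: If G is a complete graph or a complete bipartite graph with an even number of edges, then G has a drawing on two planes with minimum total crossings among all such drawings whose two plane subgraphs are isomorphic. -/
theorem result :
    ¬ (∀ (V : Type) [Finite V] (G : SimpleGraph V),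
      (G = ⊤ ∨ ∃ a b : ℕ, Nonempty (G ≃g completeBipartiteGraph (Fin a) (Fin b))) →
      Even (Set.ncard G.edgeSet) →
      ∃ (c : V → V → Fin 2) (p : Fin 2 → V → ℂ) (γ : Fin 2 → V → V → ℝ → ℂ),
        ((∀ u v : V, G.Adj u v → c u v = c v u) ∧
          (∀ i : Fin 2, Function.Injective (p i)) ∧
          (∀ i : Fin 2, ∀ u v : V, G.Adj u v → c u v = i →
            ContinuousOn (γ i u v) (Set.Icc (0:ℝ) 1) ∧
            Set.InjOn (γ i u v) (Set.Icc (0:ℝ) 1) ∧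
            γ i u v 0 = p i u ∧ γ i u v 1 = p i v ∧
            (∀ t : ℝ, 0 ≤ t → t ≤ 1 → γ i v u t = γ i u v (1 - t)) ∧
            ∀ t : ℝ, 0 < t → t < 1 → ∀ w : V, γ i u v t ≠ p i w) ∧
          Set.Finite {x : Fin 2 × V × V × V × V × ℂ |
            G.Adj x.2.1 x.2.2.1 ∧ G.Adj x.2.2.2.1 x.2.2.2.2.1 ∧
            c x.2.1 x.2.2.1 = x.1 ∧ c x.2.2.2.1 x.2.2.2.2.1 = x.1 ∧
            ¬ (x.2.1 = x.2.2.2.1 ∧ x.2.2.1 = x.2.2.2.2.1) ∧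
            ¬ (x.2.1 = x.2.2.2.2.1 ∧ x.2.2.1 = x.2.2.2.1) ∧
            (∃ t : ℝ, 0 < t ∧ t < 1 ∧ γ x.1 x.2.1 x.2.2.1 t = x.2.2.2.2.2) ∧
            (∃ t : ℝ, 0 < t ∧ t < 1 ∧ γ x.1 x.2.2.2.1 x.2.2.2.2.1 t = x.2.2.2.2.2)}) ∧
        Nonempty (SimpleGraph.fromRel (fun u v => G.Adj u v ∧ c u v = 0) ≃g
          SimpleGraph.fromRel (fun u v => G.Adj u v ∧ c u v = 1)) ∧
        ∀ (c' : V → V → Fin 2) (p' : Fin 2 → V → ℂ) (γ' : Fin 2 → V → V → ℝ → ℂ),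
          ((∀ u v : V, G.Adj u v → c' u v = c' v u) ∧
            (∀ i : Fin 2, Function.Injective (p' i)) ∧
            (∀ i : Fin 2, ∀ u v : V, G.Adj u v → c' u v = i →
              ContinuousOn (γ' i u v) (Set.Icc (0:ℝ) 1) ∧
              Set.InjOn (γ' i u v) (Set.Icc (0:ℝ) 1) ∧
              γ' i u v 0 = p' i u ∧ γ' i u v 1 = p' i v ∧
              (∀ t : ℝ, 0 ≤ t → t ≤ 1 → γ' i v u t = γ' i u v (1 - t)) ∧
              ∀ t : ℝ, 0 < t → t < 1 → ∀ w : V, γ' i u v t ≠ p' i w) ∧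
            Set.Finite {x : Fin 2 × V × V × V × V × ℂ |
              G.Adj x.2.1 x.2.2.1 ∧ G.Adj x.2.2.2.1 x.2.2.2.2.1 ∧
              c' x.2.1 x.2.2.1 = x.1 ∧ c' x.2.2.2.1 x.2.2.2.2.1 = x.1 ∧
              ¬ (x.2.1 = x.2.2.2.1 ∧ x.2.2.1 = x.2.2.2.2.1) ∧
              ¬ (x.2.1 = x.2.2.2.2.1 ∧ x.2.2.1 = x.2.2.2.1) ∧
              (∃ t : ℝ, 0 < t ∧ t < 1 ∧ γ' x.1 x.2.1 x.2.2.1 t = x.2.2.2.2.2) ∧
              (∃ t : ℝ, 0 < t ∧ t < 1 ∧ γ' x.1 x.2.2.2.1 x.2.2.2.2.1 t = x.2.2.2.2.2)}) →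
          Set.ncard {x : Fin 2 × V × V × V × V × ℂ |
              G.Adj x.2.1 x.2.2.1 ∧ G.Adj x.2.2.2.1 x.2.2.2.2.1 ∧
              c x.2.1 x.2.2.1 = x.1 ∧ c x.2.2.2.1 x.2.2.2.2.1 = x.1 ∧
              ¬ (x.2.1 = x.2.2.2.1 ∧ x.2.2.1 = x.2.2.2.2.1) ∧
              ¬ (x.2.1 = x.2.2.2.2.1 ∧ x.2.2.1 = x.2.2.2.1) ∧
              (∃ t : ℝ, 0 < t ∧ t < 1 ∧ γ x.1 x.2.1 x.2.2.1 t = x.2.2.2.2.2) ∧
              (∃ t : ℝ, 0 < t ∧ t < 1 ∧ γ x.1 x.2.2.2.1 x.2.2.2.2.1 t = x.2.2.2.2.2)} ≤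
            Set.ncard {x : Fin 2 × V × V × V × V × ℂ |
              G.Adj x.2.1 x.2.2.1 ∧ G.Adj x.2.2.2.1 x.2.2.2.2.1 ∧
              c' x.2.1 x.2.2.1 = x.1 ∧ c' x.2.2.2.1 x.2.2.2.2.1 = x.1 ∧
              ¬ (x.2.1 = x.2.2.2.1 ∧ x.2.2.1 = x.2.2.2.2.1) ∧
              ¬ (x.2.1 = x.2.2.2.2.1 ∧ x.2.2.1 = x.2.2.2.1) ∧
              (∃ t : ℝ, 0 < t ∧ t < 1 ∧ γ' x.1 x.2.1 x.2.2.1 t = x.2.2.2.2.2) ∧
              (∃ t : ℝ, 0 < t ∧ t < 1 ∧ γ' x.1 x.2.2.2.1 x.2.2.2.2.1 t = x.2.2.2.2.2)}) := by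
  intro H
  have heven : Even (Set.ncard (⊤ : SimpleGraph (Fin 9)).edgeSet) := by
    rw [← SimpleGraph.coe_edgeFinset, Set.ncard_coe_finset,
      SimpleGraph.card_edgeFinset_top_eq_card_choose_two, Fintype.card_fin]
    decide
  obtain ⟨c, p, γ, ⟨hcs, hpi, hγ, hfin⟩, ⟨e⟩, hopt⟩ := H (Fin 9) ⊤ (Or.inl rfl) heven
  have hle := hopt TH510.K9.C TH510.K9.pp TH510.K9.gg
    ⟨fun u v _ => TH510.K9.C_symm u v, TH510.K9.pp_inj, fun i u v huv hC =>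
      ⟨(TH510.K9.gg_continuous i u v).continuousOn,
        (TH510.K9.gg_injective i u v huv).injOn, TH510.K9.gg_zero i u v, TH510.K9.gg_one i u v,
        fun t _ _ => TH510.K9.gg_rev i u v t,
        fun t h0 h1 w => TH510.K9.gg_vertex i u v huv hC t h0 h1 w⟩, TH510.K9.XS_finite⟩
  have h8 : (TH510.K9.XS c γ).ncard ≤ 8 := le_trans hle TH510.K9.XS_ncard
  have hfin' : (TH510.K9.XS c γ).Finite := hfin
  -- one of the two planes has no crossing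
  have hfree : ∃ i : Fin 2, ∀ x ∈ TH510.K9.XS c γ, x.1 ≠ i := by
    by_contra hno
    push Not at hno
    obtain ⟨x, hx, hx0⟩ := hno 0
    obtain ⟨y, hy, hy0⟩ := hno 1
    have := TH510.K9.nine_le hcs (fun i u v huv hC => (hγ i u v huv hC).2.2.2.2.1) hfin' x y hx hy
      (by rw [hx0, hy0]; decide)
    omega
  obtain ⟨i, hi⟩ := hfree
  have hadj : ∀ j : Fin 2, ∀ u v : Fin 9,
      (SimpleGraph.fromRel (fun u v => (⊤ : SimpleGraph (Fin 9)).Adj u v ∧ c u v = j)).Adj u v ↔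
        u ≠ v ∧ c u v = j := by
    intro j u v
    rw [SimpleGraph.fromRel_adj]
    constructor
    · rintro ⟨h1, h2 | h2⟩
      · exact ⟨h1, h2.2⟩
      · exact ⟨h1, (hcs u v h1).trans h2.2⟩
    · rintro ⟨h1, h2⟩
      exact ⟨h1, Or.inl ⟨h1, h2⟩⟩
  have hcase : ∀ x : Fin 2, x = 0 ∨ x = 1 := by decide
  have h01 : ∀ x : Fin 2, x = 1 ↔ ¬ x = 0 := by decide
  have hσ : TH510.K9.Compl (fun u v => u ≠ v ∧ c u v = i) e.toEquiv := by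
    intro u v huv
    have huv' : e.toEquiv u ≠ e.toEquiv v := fun hh => huv (e.toEquiv.injective hh)
    have h1 : ((e.toEquiv u ≠ e.toEquiv v) ∧ c (e.toEquiv u) (e.toEquiv v) = 1) ↔
        (u ≠ v ∧ c u v = 0) := by
      rw [← hadj, ← hadj]
      exact e.map_adj_iff
    have h2 : c (e.toEquiv u) (e.toEquiv v) = 1 ↔ c u v = 0 := by
      constructor
      · intro h; exact (h1.mp ⟨huv', h⟩).2
      · intro h; exact (h1.mpr ⟨huv, h⟩).2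
    simp only [ne_eq, huv, huv', not_false_eq_true, true_and]
    rcases hcase i with rfl | rfl
    · rw [← h2, h01, not_not]
    · rw [h2, h01 (c u v), not_not]
  refine TH510.K9.plane_contra (fun u v => u ≠ v ∧ c u v = i) ?_ e.toEquiv hσ (p i) (hpi i) (γ i)
    ?_ ?_
  · rintro u v ⟨h1, h2⟩
    exact ⟨h1.symm, (hcs u v h1).symm.trans h2⟩
  · rintro u v ⟨h1, h2⟩
    obtain ⟨g1, g2, g3, g4, g5, g6⟩ := hγ i u v h1 h2
    exact ⟨g1, g3, g4, g6⟩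
  · rintro a b a' b' ⟨h1, h2⟩ ⟨h3, h4⟩ n1 n2 n3 n4 s t s0 s1 t0 t1 he
    exact hi (i, a, b, a', b', γ i a b s)
      ⟨h1, h3, h2, h4, fun hh => n1 hh.1, fun hh => n2 hh.1, ⟨s, s0, s1, rfl⟩,
        ⟨t, t0, t1, he.symm⟩⟩ rfl

end Pool.Agent.S09406
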