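import Pool.Statements.S09469
import Pool.Agent.TH414.CycA
import Pool.Agent.TH414.CycB
import Pool.Agent.TH414.CycC

set_option autoImplicit false
open Pool Pool.MP_72c5f4_co

namespace Pool.Agent.S09469

open Finset Pool.Agent.TH414.Cyc

theorem pow_bound (M s : ℕ) (hs : 2 * M + 20 ≤ s) : M * (36 * s + 100) < 2 ^ s := by
  induction s, hs using Nat.le_induction with
  | base =>
    have h1 : M < 2 ^ M := Nat.lt_two_pow_self
    have h2 : 2 ^ (2 * M + 20) = 1048576 * (2 ^ M * 2 ^ M) := by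
      rw [pow_add, two_mul, pow_add]; ring
    rw [h2]
    have h3 : (M + 1) * (M + 1) ≤ 2 ^ M * 2 ^ M := Nat.mul_le_mul h1 h1
    nlinarith
  | succ s hs ih =>
    have h1 : 2 ^ (s + 1) = 2 * 2 ^ s := by rw [pow_succ]; ring
    rw [h1]
    have h2 : M * 36 ≤ M * (36 * s + 100) := Nat.mul_le_mul_left M (by omega)
    have h3 : M * (36 * (s + 1) + 100) = M * (36 * s + 100) + M * 36 := by ring
    omega

open scoped Pointwise in
theorem main (M n : ℕ) (hn : 100 + 16 * M + 200 ≤ n) (h : n % 6 = 1 ∨ n % 6 = 3) :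
    ∃ B : Fin M → Finset (Finset (ZMod n)),
        (∀ i, (∀ b ∈ B i, b.card = 3) ∧
          (∀ x y : ZMod n, x ≠ y → ∃! b : Finset (ZMod n), b ∈ B i ∧ x ∈ b ∧ y ∈ b) ∧
          (∀ b ∈ B i, b.image (fun x => x + 1) ∈ B i)) ∧
        (∀ i j, i ≠ j → ¬ ∃ σ : Equiv.Perm (ZMod n),
          ∀ b : Finset (ZMod n), b ∈ B i ↔ b.map σ.toEmbedding ∈ B j) := by
  classical
  have : NeZero n := ⟨by omega⟩
  obtain ⟨D, hD⟩ := exists_base n (by omega) h
  let S : Finset (Finset (Finset (ZMod n))) := D.powerset.image (fun E => sys n D E)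
  have hScard : S.card = 2 ^ D.card := by
    rw [card_image_of_injOn, card_powerset]
    intro E hE F hF he
    exact sys_inj D hD h (by omega) E F (mem_powerset.1 hE) (mem_powerset.1 hF) he
  let r : Finset (Finset (ZMod n)) → Finset (Finset (ZMod n)) → Prop :=
    fun T T' => ∃ g : Equiv.Perm (ZMod n), g • T = T'
  have hsymm : ∀ a b, r a b → r b a := by
    rintro a b ⟨g, rfl⟩
    exact ⟨g⁻¹, by rw [inv_smul_smul]⟩
  have himg : ∀ (g : Equiv.Perm (ZMod n)) (b : Finset (ZMod n)), g • b = b.image g := fun _ _ => rfl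
  have hrot : ∀ T ∈ S, rot n • T = T := by
    intro T hT
    obtain ⟨E, _, rfl⟩ := mem_image.1 hT
    have hsub : rot n • sys n D E ⊆ sys n D E := by
      intro b hb
      obtain ⟨c, hc, rfl⟩ := mem_smul_finset.1 hb
      exact sys_cyclic D E c hc
    exact eq_of_subset_of_card_le hsub (by rw [card_smul_finset])
  have hclass : ∀ T ∈ S, (S.filter (fun T' => r T T')).card ≤ n := by
    intro T _
    apply iso_class_le n T
    · intro T' hT'
      exact hrot T' (mem_filter.1 hT').1
    · intro T' hT'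
      exact (mem_filter.1 hT').2
  have hbig : M * n < S.card := by
    rw [hScard]
    have h1 := base_card D hD (by omega)
    have h2 := pow_bound M D.card (by omega)
    have h3 : M * n ≤ M * (36 * D.card + 100) := Nat.mul_le_mul_left M (by omega)
    omega
  obtain ⟨f, hf, hr⟩ := exists_family S r hsymm n hclass M hbig
  refine ⟨f, ?_, ?_⟩
  · intro i
    obtain ⟨E, _, hE⟩ := mem_image.1 (hf i)
    rw [← hE]
    exact ⟨sys_card3 D E hD (by omega), sys_sts D E hD h (by omega), sys_cyclic D E⟩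
  · rintro i j hij ⟨σ, hσ⟩
    apply hr i j hij
    refine ⟨σ, ?_⟩
    ext b
    rw [← inv_smul_mem_iff, hσ]
    have : (σ⁻¹ • b).map σ.toEmbedding = b := by
      rw [map_eq_image]
      change σ • (σ⁻¹ • b) = b
      rw [smul_inv_smul]
    rw [this]

/-- For every M, all sufficiently large n with n ≡ 1 or 3 mod 6 admit at least M pairwise non-isomorphic cyclic Steiner triple systems on Z/nZ, i.e. the number of cyclic STS(n) up to isomorphism tends to infinity. -/
theorem result :
    ∀ M : ℕ, ∃ N : ℕ, ∀ n : ℕ, N ≤ n → (n % 6 = 1 ∨ n % 6 = 3) →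
      ∃ B : Fin M → Finset (Finset (ZMod n)),
        (∀ i, (∀ b ∈ B i, b.card = 3) ∧
          (∀ x y : ZMod n, x ≠ y → ∃! b : Finset (ZMod n), b ∈ B i ∧ x ∈ b ∧ y ∈ b) ∧
          (∀ b ∈ B i, b.image (fun x => x + 1) ∈ B i)) ∧
        (∀ i j, i ≠ j → ¬ ∃ σ : Equiv.Perm (ZMod n),
          ∀ b : Finset (ZMod n), b ∈ B i ↔ b.map σ.toEmbedding ∈ B j) := by
  intro M
  exact ⟨100 + 16 * M + 200, fun n hn h => main M n hn h⟩

end Pool.Agent.S09469
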