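import Pool.Statements.S09499
import Pool.Agent.TH512.Poly11

set_option autoImplicit false
open Pool Pool.MP_73fd2f_co

namespace Pool.Agent.S09499

open Pool.Agent.TH512.Poly11

lemma val_lin (φ : ℝ) (hφ : φ ≠ 0) (x : Fin 7 → ℝ) (i : Fin 11) :
    ∑ k, x k * pts φ i k = val φ x i := by
  have h := val_eq φ hφ (fun k => -x k) 0 i
  have h2 : (fun k => (0 : ℝ) - -x k) = x := by funext k; ring
  simp only [h2] at h
  rw [← h]
  simp

/-- Positivity / vanishing of the eleven values, from the eleven numerators. -/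
lemma val_cases (φ : ℝ) (hφ0 : 0 < φ) (x : Fin 7 → ℝ) (T : Finset (Fin 11))
    (h0 : if 0 ∈ T then 0 < x 0 else x 0 = 0)
    (h1 : if 1 ∈ T then 0 < x 1 else x 1 = 0)
    (h2 : if 2 ∈ T then 0 < x 2 else x 2 = 0)
    (h3 : if 3 ∈ T then 0 < x 3 else x 3 = 0)
    (h4 : if 4 ∈ T then 0 < x 4 else x 4 = 0)
    (h5 : if 5 ∈ T then 0 < x 5 else x 5 = 0)
    (h6 : if 6 ∈ T then 0 < x 6 else x 6 = 0)
    (h7 : if 7 ∈ T then 0 < φ * x 0 + x 1 - x 2 - x 4 + x 5
      else φ * x 0 + x 1 - x 2 - x 4 + x 5 = 0)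
    (h8 : if 8 ∈ T then 0 < x 0 + x 1 - x 3 - x 4 + 2 * x 6
      else x 0 + x 1 - x 3 - x 4 + 2 * x 6 = 0)
    (h9 : if 9 ∈ T then 0 < -x 1 + x 2 + x 3 + 2 * x 4 - x 6
      else -x 1 + x 2 + x 3 + 2 * x 4 - x 6 = 0)
    (h10 : if 10 ∈ T then 0 < -x 0 + φ * x 2 + x 3 + x 5 - x 6
      else -x 0 + φ * x 2 + x 3 + x 5 - x 6 = 0) :
    ∀ i, if i ∈ T then 0 < val φ x i else val φ x i = 0 := by
  have e7 : val φ x 7 = (φ * x 0 + x 1 - x 2 - x 4 + x 5) / φ := rfl
  have e8 : val φ x 8 = (x 0 + x 1 - x 3 - x 4 + 2 * x 6) / 2 := rfl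
  have e9 : val φ x 9 = (-x 1 + x 2 + x 3 + 2 * x 4 - x 6) / 2 := rfl
  have e10 : val φ x 10 = (-x 0 + φ * x 2 + x 3 + x 5 - x 6) / φ := rfl
  have dpos : ∀ (P : Prop) [Decidable P] (a b : ℝ), 0 < b → (if P then 0 < a else a = 0) →
      (if P then 0 < a / b else a / b = 0) := by
    intro P _ a b hb h
    split_ifs at h ⊢
    · exact div_pos h hb
    · rw [h, zero_div]
  intro i
  fin_cases i
  · exact h0
  · exact h1
  · exact h2
  · exact h3
  · exact h4
  · exact h5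
  · exact h6
  · exact dpos _ _ _ hφ0 h7
  · exact dpos _ _ _ two_pos h8
  · exact dpos _ _ _ two_pos h9
  · exact dpos _ _ _ hφ0 h10

/-- For every one of the eleven points there is a functional vanishing there and positive at all
the others. -/
lemma exists_sep (φ : ℝ) (hφ : φ ^ 2 = φ + 1) (h1 : 1.6 < φ) (h2 : φ < 1.7) (i : Fin 11) :
    ∃ x : Fin 7 → ℝ, ∀ j, if j ∈ Finset.univ.erase i then 0 < val φ x j else val φ x j = 0 := by
  have hφ0 : 0 < φ := by linarith
  have hq : φ * φ = φ + 1 := by rw [← hφ]; ring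
  fin_cases i
  · refine ⟨![0, 1, 1, 1, 1, 2, 1], ?_⟩
    apply val_cases φ hφ0 <;> simp <;> linarith
  · refine ⟨![1, 0, 1, 1, 1, 1, 1], ?_⟩
    apply val_cases φ hφ0 <;> simp <;> linarith
  · refine ⟨![1, 1, 0, 1, 1, 2, 1], ?_⟩
    apply val_cases φ hφ0 <;> simp <;> linarith
  · refine ⟨![1, 1, 1, 0, 1, 1, 1], ?_⟩
    apply val_cases φ hφ0 <;> simp <;> linarith
  · refine ⟨![1, 1, 2, 1, 0, 1, 1], ?_⟩
    apply val_cases φ hφ0 <;> simp <;> linarith
  · refine ⟨![1, 1, 1, 1, 1, 0, 1], ?_⟩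
    apply val_cases φ hφ0 <;> simp <;> linarith
  · refine ⟨![2, 1, 1, 1, 1, 1, 0], ?_⟩
    apply val_cases φ hφ0 <;> simp <;> linarith
  · refine ⟨![1, 1, φ, 1, 2, 1, 1], ?_⟩
    apply val_cases φ hφ0 <;> simp <;> linarith
  · refine ⟨![1, 1, 1, 2, 2, 1, 1], ?_⟩
    apply val_cases φ hφ0 <;> simp <;> linarith
  · refine ⟨![1, 2, 1, 1, 1, 1, 2], ?_⟩
    apply val_cases φ hφ0 <;> simp <;> linarith
  · refine ⟨![φ, 1, 1, 1, 1, 1, 2], ?_⟩
    apply val_cases φ hφ0 <;> simp <;> linarith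

/-- The rational affine functionals on the points `q`, as vectors of values. -/
def affQ {e : ℕ} (q : Fin 11 → Fin e → ℚ) : Submodule ℚ (Fin 11 → ℚ) where
  carrier := {g | ∃ a : Fin e → ℚ, ∃ c : ℚ, ∀ i, g i = c - ∑ k, a k * q i k}
  add_mem' := by
    rintro g h ⟨a, c, hg⟩ ⟨b, d, hh⟩
    refine ⟨fun k => a k + b k, c + d, fun i => ?_⟩
    simp only [Pi.add_apply, hg i, hh i, add_mul, Finset.sum_add_distrib]
    ring
  zero_mem' := ⟨fun _ => 0, 0, fun i => by simp⟩
  smul_mem' := by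
    rintro t g ⟨a, c, hg⟩
    refine ⟨fun k => t * a k, t * c, fun i => ?_⟩
    simp only [Pi.smul_apply, smul_eq_mul, hg i, mul_sub, Finset.mul_sum, mul_assoc]

/-- Supporting hyperplanes: `S` is the set of indices of a face. -/
def face {n m : ℕ} (r : Fin n → Fin m → ℝ) (S : Set (Fin n)) : Prop :=
  ∃ a : Fin m → ℝ, ∃ c : ℝ, ∀ i : Fin n, (∑ k, a k * r i k) ≤ c ∧ (i ∈ S ↔ (∑ k, a k * r i k) = c)

lemma golden_root (φ : ℝ) (hφ : φ ^ 2 = φ + 1) (h1 : 1.6 < φ) (h2 : φ < 1.7) (e : ℕ)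
    (q : Fin 11 → Fin e → ℚ)
    (H : ∀ S : Set (Fin 11), face (pts φ) S ↔ face (fun i k => ((q i k : ℚ) : ℝ)) S) :
    ∃ X : ℚ, X ^ 2 = X + 1 := by
  classical
  have hφ0 : 0 < φ := by linarith
  have hq : φ * φ = φ + 1 := by rw [← hφ]; ring
  -- nonnegative functionals on q give nonnegative functionals on the polytope
  have K : ∀ g ∈ affQ q, (∀ i, 0 ≤ g i) →
      ∃ x : Fin 7 → ℝ, ∀ i, 0 ≤ val φ x i ∧ (g i = 0 ↔ val φ x i = 0) := by
    rintro g ⟨a, c, hg⟩ hnn
    have hS : face (fun i k => ((q i k : ℚ) : ℝ)) {i | g i = 0} := by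
      refine ⟨fun k => ((a k : ℚ) : ℝ), (c : ℝ), fun i => ?_⟩
      have h0 := hnn i
      have e1 : (∑ k, ((a k : ℚ) : ℝ) * ((q i k : ℚ) : ℝ)) = (((c - g i : ℚ)) : ℝ) := by
        rw [hg i]
        push_cast
        ring
      rw [e1]
      constructor
      · exact_mod_cast (by linarith : c - g i ≤ c)
      · constructor
        · intro h
          have h' : g i = 0 := h
          rw [h', sub_zero]
        · intro h
          have h' : c - g i = c := by exact_mod_cast h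
          show g i = 0
          linarith
    obtain ⟨a', c', h⟩ := (H _).2 hS
    refine ⟨fun k => c' - a' k, fun i => ?_⟩
    rw [← val_eq φ hφ0.ne' a' c' i]
    refine ⟨by linarith [(h i).1], ?_⟩
    have h2 := (h i).2
    constructor
    · intro h0
      have := h2.1 h0
      linarith
    · intro h0
      apply h2.2
      linarith
  -- faces of the polytope give rational functionals
  have G : ∀ (T : Finset (Fin 11)) (x : Fin 7 → ℝ),
      (∀ i, if i ∈ T then 0 < val φ x i else val φ x i = 0) →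
      ∃ g ∈ affQ q, (∀ i ∈ T, 0 < g i) ∧ ∀ i ∉ T, g i = 0 := by
    intro T x hx
    have hS : face (pts φ) {i | i ∉ T} := by
      refine ⟨fun k => -x k, 0, fun i => ?_⟩
      have e1 : ∑ k, -x k * pts φ i k = -val φ x i := by
        rw [← val_lin φ hφ0.ne' x i, ← Finset.sum_neg_distrib]
        apply Finset.sum_congr rfl
        intro k _
        ring
      rw [e1]
      have hi := hx i
      by_cases hT : i ∈ T
      · rw [if_pos hT] at hi
        refine ⟨by linarith, fun h => absurd hT h, fun h => ?_⟩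
        exfalso
        linarith
      · rw [if_neg hT] at hi
        refine ⟨by linarith, fun _ => by linarith, fun _ => hT⟩
    obtain ⟨a, c, h⟩ := (H _).1 hS
    obtain ⟨a', c', h'⟩ := rationalize q _ a c h
    refine ⟨fun i => c' - ∑ k, a' k * q i k, ⟨a', c', fun i => rfl⟩, fun i hi => ?_, fun i hi => ?_⟩
    · have h1 := (h' i).1
      have h2 := (h' i).2
      have h3 : (∑ k, a' k * q i k) ≠ c' := fun hh => (h2.2 hh) hi
      have h4 := lt_of_le_of_ne h1 h3
      show 0 < c' - ∑ k, a' k * q i k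
      linarith
    · have h2 := (h' i).2.1 hi
      show c' - ∑ k, a' k * q i k = 0
      linarith
  obtain ⟨F, hF, Fp, Fz⟩ := G {0, 2, 8, 9, 10} ![1, 0, φ, 0, 0, 0, 0]
    (by apply val_cases φ hφ0 <;> simp <;> linarith)
  have L := indep φ hφ (by linarith) (affQ q) K F hF Fp Fz
  apply core_alg (affQ q) L
  intro T hT
  simp only [Finset.mem_insert, Finset.mem_singleton] at hT
  rcases hT with rfl | rfl | rfl | rfl | rfl | rfl | rfl | rfl | rfl | rfl | rfl | rfl
  · exact G _ ![0, 1, 0, 0, 1, 0, 0] (by apply val_cases φ hφ0 <;> simp <;> linarith)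
  · exact G _ ![0, 0, 0, 0, 0, 1, 0] (by apply val_cases φ hφ0 <;> simp <;> linarith)
  · exact G _ ![0, 0, 0, 1, 0, 0, 1] (by apply val_cases φ hφ0 <;> simp <;> linarith)
  · exact G _ ![1, 0, 0, 0, 0, 1, 0] (by apply val_cases φ hφ0 <;> simp <;> linarith)
  · exact G _ ![0, 0, 1, 0, 0, 1, 0] (by apply val_cases φ hφ0 <;> simp <;> linarith)
  · exact G _ ![1, 0, φ, 0, 0, 0, φ] (by apply val_cases φ hφ0 <;> simp <;> linarith)
  · exact G _ ![0, 0, 0, 2, 0, 0, 1] (by apply val_cases φ hφ0 <;> simp <;> linarith)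
  · exact G _ ![1, 0, φ - 1, 0, 1, 0, 0] (by apply val_cases φ hφ0 <;> simp <;> linarith)
  · exact G _ ![0, 2, 0, 0, 1, 0, 0] (by apply val_cases φ hφ0 <;> simp <;> linarith)
  · exact G _ ![1, 0, 0, 1, 0, 0, 0] (by apply val_cases φ hφ0 <;> simp <;> linarith)
  · exact G _ ![0, 1, 0, 1, 0, 0, 0] (by apply val_cases φ hφ0 <;> simp <;> linarith)
  · exact G _ ![0, 1, 1, 0, 0, 0, 0] (by apply val_cases φ hφ0 <;> simp <;> linarith)

lemma no_root (X : ℚ) (h : X ^ 2 = X + 1) : False := by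
  have h5 : (2 * X - 1) ^ 2 = 5 := by nlinarith
  have h6 : ((2 * X - 1 : ℚ) : ℝ) ^ 2 = 5 := by exact_mod_cast h5
  have hirr : Irrational (Real.sqrt 5) := by
    have := Nat.Prime.irrational_sqrt (p := 5) (by norm_num)
    exact_mod_cast this
  have h7 : Real.sqrt 5 = |((2 * X - 1 : ℚ) : ℝ)| := by
    rw [← h6, Real.sqrt_sq_eq_abs]
  apply hirr
  refine ⟨|2 * X - 1|, ?_⟩
  rw [h7]
  push_cast
  rfl

/-- There is a convex polytope with fewer than 12 vertices, given as points in convex position in some R^d, such that no family of rational points in any R^e has exactly the same vertex sets of faces. -/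
theorem result :
    ∃ d n : ℕ, n < 12 ∧ ∃ p : Fin n → (Fin d → ℝ),
      Function.Injective p ∧
      (∀ i : Fin n, p i ∉ convexHull ℝ (p '' {j | j ≠ i})) ∧
      ∀ e : ℕ, ∀ q : Fin n → (Fin e → ℚ),
        ¬ ∀ S : Set (Fin n),
          ((∃ a : Fin d → ℝ, ∃ c : ℝ, ∀ i : Fin n,
              (∑ k, a k * p i k) ≤ c ∧ (i ∈ S ↔ (∑ k, a k * p i k) = c)) ↔
           (∃ a : Fin e → ℝ, ∃ c : ℝ, ∀ i : Fin n,
              (∑ k, a k * ((q i k : ℚ) : ℝ)) ≤ c ∧
                (i ∈ S ↔ (∑ k, a k * ((q i k : ℚ) : ℝ)) = c))) := by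
  obtain ⟨φ, hφ, h1, h2⟩ : ∃ φ : ℝ, φ ^ 2 = φ + 1 ∧ 1.6 < φ ∧ φ < 1.7 := by
    refine ⟨(1 + Real.sqrt 5) / 2, ?_, ?_, ?_⟩
    · have := Real.sq_sqrt (show (0 : ℝ) ≤ 5 by norm_num)
      nlinarith
    · have : 2.2 < Real.sqrt 5 := Real.lt_sqrt_of_sq_lt (by norm_num)
      linarith
    · have : Real.sqrt 5 < 2.4 := by
        rw [Real.sqrt_lt' (by norm_num)]
        norm_num
      linarith
  have hφ0 : 0 < φ := by linarith
  have sep : ∀ i : Fin 11, ∃ x : Fin 7 → ℝ, (∑ k, x k * pts φ i k = 0) ∧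
      ∀ j, j ≠ i → 0 < ∑ k, x k * pts φ j k := by
    intro i
    obtain ⟨x, hx⟩ := exists_sep φ hφ h1 h2 i
    refine ⟨x, ?_, fun j hj => ?_⟩
    · have := hx i
      rw [if_neg (by simp)] at this
      rw [val_lin φ hφ0.ne', this]
    · have := hx j
      rw [if_pos (by simp [hj])] at this
      rw [val_lin φ hφ0.ne']
      exact this
  refine ⟨7, 11, by norm_num, pts φ, ?_, ?_, ?_⟩
  · intro i j hij
    by_contra hne
    obtain ⟨x, hx0, hx⟩ := sep i
    have := hx j (fun h => hne h.symm)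
    rw [← hij, hx0] at this
    exact lt_irrefl _ this
  · intro i hi
    obtain ⟨x, hx0, hx⟩ := sep i
    have hconv : Convex ℝ {z : Fin 7 → ℝ | 0 < ∑ k, x k * z k} := by
      apply convex_halfSpace_gt
      constructor
      · intro u v
        simp only [Pi.add_apply, mul_add, Finset.sum_add_distrib]
      · intro t u
        simp only [Pi.smul_apply, smul_eq_mul, Finset.mul_sum]
        apply Finset.sum_congr rfl
        intro k _
        ring
    have hsub : pts φ '' {j | j ≠ i} ⊆ {z : Fin 7 → ℝ | 0 < ∑ k, x k * z k} := by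
      rintro _ ⟨j, hj, rfl⟩
      exact hx j hj
    have := convexHull_min hsub hconv hi
    have h3 : 0 < ∑ k, x k * pts φ i k := this
    rw [hx0] at h3
    exact lt_irrefl _ h3
  · intro e q H
    obtain ⟨X, hX⟩ := golden_root φ hφ h1 h2 e q H
    exact no_root X hX

end Pool.Agent.S09499
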