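import Pool.Statements.S09613
import Pool.Agent.TH434.ESFIns

set_option autoImplicit false
open Pool Pool.MP_78b1ee_co

namespace Pool.Agent.S09613

open Pool.Agent.TH434.ESF

/-- For every N there is a list of distinct rationals of length at least N with no two adjacent order-isomorphic blocks of length at least 2, such that inserting any new value at any position creates such a pair. -/
theorem result :
    ∀ N : ℕ, ∃ w : List ℚ, N ≤ w.length ∧ w.Nodup ∧
      (¬ ∃ i ℓ : ℕ, 2 ≤ ℓ ∧ i + 2 * ℓ ≤ w.length ∧
          ∀ a < ℓ, ∀ b < ℓ,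
            (w.getD (i + a) 0 < w.getD (i + b) 0 ↔
              w.getD (i + ℓ + a) 0 < w.getD (i + ℓ + b) 0)) ∧
      ∀ p : ℕ, p ≤ w.length → ∀ x : ℚ, x ∉ w →
        ∃ i ℓ : ℕ, 2 ≤ ℓ ∧ i + 2 * ℓ ≤ w.length + 1 ∧
          ∀ a < ℓ, ∀ b < ℓ,
            ((w.take p ++ x :: w.drop p).getD (i + a) 0 <
                (w.take p ++ x :: w.drop p).getD (i + b) 0 ↔
              (w.take p ++ x :: w.drop p).getD (i + ℓ + a) 0 <
                (w.take p ++ x :: w.drop p).getD (i + ℓ + b) 0) := by
  intro N
  refine ⟨W N, ?_, ?_, ?_, ?_⟩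
  · rw [W_length]
    have : N < 2 ^ N := Nat.lt_two_pow_self
    unfold len
    omega
  · unfold W
    refine List.Nodup.map_on ?_ List.nodup_range
    intro i hi j hj e
    rw [List.mem_range] at hi hj
    unfold gq at e
    exact g_inj N i j hi hj (by exact_mod_cast e)
  · rintro ⟨i, ℓ, h2, hil, hs⟩
    rw [W_length] at hil
    refine nosq N i ℓ h2 hil ?_
    intro a ha b hb
    have := hs a ha b hb
    rw [W_getD N _ (by omega), W_getD N _ (by omega), W_getD N _ (by omega),
      W_getD N _ (by omega), gq_lt, gq_lt] at this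
    exact this
  · intro p hp x hx
    rw [W_length] at hp
    obtain ⟨i, ℓ, h2, hil, hs⟩ := ins_all N p hp x (by
      intro i hi e
      refine hx ?_
      unfold W
      rw [List.mem_map]
      exact ⟨i, List.mem_range.2 hi, e⟩)
    refine ⟨i, ℓ, h2, by rw [W_length]; exact hil, ?_⟩
    have key : ∀ j ≤ len N, (List.take p (W N) ++ x :: List.drop p (W N)).getD j 0 =
        ins (gq N) p x j := by
      intro j hj
      rw [ins_getD (W N) p (by rw [W_length]; exact hp) x j]
      unfold ins
      split_ifs with h1 h3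
      · exact W_getD N j (by omega)
      · rfl
      · exact W_getD N (j - 1) (by omega)
    intro a ha b hb
    rw [key _ (by omega), key _ (by omega), key _ (by omega), key _ (by omega)]
    exact hs a ha b hb

end Pool.Agent.S09613
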