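import Pool.Statements.S09627
import Pool.Agent.TH393.LkMain

set_option autoImplicit false
open Pool Pool.MP_79d03b_co

namespace Pool.Agent.S09627

/-- If a_k>…>a_r>r≥3 and F(t−1,k) ≤ Σ C(a_i,i−1) < s ≤ F(t−1,k)+r−2, where F is the minimum shadow size, then no family of t k-subsets of ℕ has shadow of size exactly s. -/
theorem result :
    ∀ t k r s : ℕ, ∀ a : ℕ → ℕ,
      1 ≤ t → 3 ≤ r → r ≤ k → r < a r →
      (∀ i : ℕ, r ≤ i → i < k → a i < a (i + 1)) →
      sInf {m : ℕ | ∃ 𝒜 : Finset (Finset ℕ), 𝒜.card = t - 1 ∧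
          (∀ A ∈ 𝒜, A.card = k) ∧ (Finset.shadow 𝒜).card = m}
        ≤ ∑ i ∈ Finset.Icc r k, Nat.choose (a i) (i - 1) →
      ∑ i ∈ Finset.Icc r k, Nat.choose (a i) (i - 1) < s →
      s ≤ sInf {m : ℕ | ∃ 𝒜 : Finset (Finset ℕ), 𝒜.card = t - 1 ∧
          (∀ A ∈ 𝒜, A.card = k) ∧ (Finset.shadow 𝒜).card = m} + r - 2 →
      ¬ ∃ 𝒜 : Finset (Finset ℕ), 𝒜.card = t ∧
          (∀ A ∈ 𝒜, A.card = k) ∧ (Finset.shadow 𝒜).card = s := by
  intro t k r s a _ hr hrk har ha hF hS hs
  rintro ⟨𝒜, hcard, hsz, hsh⟩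
  change Pool.Agent.TH393.Lk.Fm k (t - 1) ≤ _ at hF
  change s ≤ Pool.Agent.TH393.Lk.Fm k (t - 1) + r - 2 at hs
  have hge : ∀ j, j < k + 1 - r → r + j ≤ a (r + j) := by
    intro j
    induction j with
    | zero => intro _; simpa using har.le
    | succ j ih =>
      intro hj
      have h1 := ih (by omega)
      have h2 := ha (r + j) (by omega) (by omega)
      have h3 : r + (j + 1) = r + j + 1 := by ring
      rw [h3]
      omega
  let β : ℕ → ℕ := fun j => a (r + j) + 1 - (r + j)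
  have hβ : ∀ j, j + 1 < k + 1 - r → β j ≤ β (j + 1) := by
    intro j hj
    have h2 := ha (r + j) (by omega) (by omega)
    have h3 : r + (j + 1) = r + j + 1 := by ring
    simp only [β, h3]
    omega
  have hk : (r - 1) + (k + 1 - r) = k := by omega
  have hsum : Pool.Agent.TH393.Lk.SS (r - 1) (k + 1 - r) β =
      ∑ i ∈ Finset.Icc r k, Nat.choose (a i) (i - 1) := by
    have h1 : Finset.Icc r k = Finset.Ico r (k + 1) := by
      ext x; simp only [Finset.mem_Icc, Finset.mem_Ico]; omega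
    rw [h1, Finset.sum_Ico_eq_sum_range]
    unfold Pool.Agent.TH393.Lk.SS
    apply Finset.sum_congr rfl
    intro j hj
    have h2 := hge j (Finset.mem_range.1 hj)
    have h3 : r - 1 + j + β j = a (r + j) := by
      simp only [β]; omega
    have h4 : r - 1 + j = r + j - 1 := by omega
    rw [h3, h4]
  have := Pool.Agent.TH393.Lk.gap_fam (k + 1 - r) (r - 1) β hβ 𝒜
    (by rw [hk]; exact hsz) (by rw [hk, hsum, hcard]; exact hF) (by rw [hsum, hsh]; exact hS)
  rw [hk, hcard, hsh] at this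
  omega

end Pool.Agent.S09627
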