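import Pool.Statements.S09649
import Pool.Agent.TH501.Hemi.Geometry
import Pool.Agent.TH501.Hemi.Core

set_option autoImplicit false
open Pool Pool.MP_7aba51_co

namespace Pool.Agent.S09649

/-- For every field of order q^2 with q ≡ 1 mod 4 and q ≡ 0,2 mod 3, some hemisystem of the Hermitian surface H(3,q^2) is invariant under a collineation of the surface of projective order q^2-q+1. -/
theorem result :
  ∀ (F : Type) [Field F] [Fintype F] (q : ℕ), Fintype.card F = q ^ 2 → q % 4 = 1 →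
    (q % 3 = 0 ∨ q % 3 = 2) →
    ∃ (S : Set (Submodule F (Fin 4 → F))) (g : (Fin 4 → F) ≃+ (Fin 4 → F)) (τ : F ≃+* F),
      (∀ L ∈ S, Module.finrank F L = 2 ∧ ∀ x ∈ L, ∀ y ∈ L, ∑ i, x i * y i ^ q = 0) ∧
      (∀ P : Submodule F (Fin 4 → F), Module.finrank F P = 1 →
          (∀ x ∈ P, ∑ i, x i ^ (q + 1) = 0) →
          Set.ncard {L | L ∈ S ∧ P ≤ L} = (q + 1) / 2) ∧
      (∀ (c : F) (x : Fin 4 → F), g (c • x) = τ c • g x) ∧
      (∀ x : Fin 4 → F, (∑ i, g x i ^ (q + 1) = 0 ↔ ∑ i, x i ^ (q + 1) = 0)) ∧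
      (∀ L ∈ S, ∃ L' ∈ S, (L' : Set (Fin 4 → F)) = ⇑g '' (L : Set (Fin 4 → F))) ∧
      (∀ v : Fin 4 → F, ∃ c : F, (⇑g)^[q ^ 2 - q + 1] v = c • v) ∧
      (∀ k : ℕ, 0 < k → k < q ^ 2 - q + 1 → ∃ v : Fin 4 → F, ∀ c : F, (⇑g)^[k] v ≠ c • v) := by
  intro F _ _ q hF h4 h3
  exact Pool.Agent.TH501.Hemi.geometry F q hF h4 h3
    (fun K _ _ hK => Pool.Agent.TH501.Hemi.core hK)

end Pool.Agent.S09649
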