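import Pool.Statements.S09874

/-!
Let `X = {0, 1, ..., 3K}` with the point `2K` removed.  For every nonempty set `T` of shifts in
`{1, ..., K}` the set of all `x` in `X` with `x + t` in `X` for every `t` in `T` is a maximally
repeated pattern, its holes are exactly the points `2K - t`, and no two of these `2^K - 1`
patterns are translates of each other.
-/

set_option autoImplicit false
open Pool Pool.MP_85fffe_co

namespace Pool.Agent.S09874

/-- the set `{0, ..., 3K}` without `2K`, as a set of reals -/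
noncomputable def X (K : ℕ) : Finset ℝ := ((Finset.range (3 * K + 1)).erase (2 * K)).image (fun n : ℕ => (n : ℝ))

theorem mem_X {K n : ℕ} : (n : ℝ) ∈ X K ↔ n ≤ 3 * K ∧ n ≠ 2 * K := by
  unfold X
  simp only [Finset.mem_image, Finset.mem_erase, Finset.mem_range]
  constructor
  · rintro ⟨m, ⟨h1, h2⟩, h3⟩
    have : m = n := by exact_mod_cast h3
    subst this
    exact ⟨by omega, h1⟩
  · rintro ⟨h1, h2⟩
    exact ⟨n, ⟨h2, by omega⟩, rfl⟩

theorem nonneg_of_mem {K : ℕ} {x : ℝ} (hx : x ∈ X K) : 0 ≤ x := by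
  unfold X at hx
  simp only [Finset.mem_image] at hx
  obtain ⟨m, _, rfl⟩ := hx
  positivity

theorem card_X_le (K : ℕ) : (X K).card ≤ 3 * K + 1 := by
  unfold X
  refine le_trans Finset.card_image_le ?_
  refine le_trans (Finset.card_le_card (Finset.erase_subset _ _)) ?_
  simp

/-- the pattern attached to a set of shifts -/
noncomputable def f (K : ℕ) (T : Finset ℕ) : Finset ℝ := (X K).filter (fun x => ∀ t ∈ T, x + (t : ℝ) ∈ X K)

theorem mem_f {K n : ℕ} {T : Finset ℕ} :
    (n : ℝ) ∈ f K T ↔ (n ≤ 3 * K ∧ n ≠ 2 * K) ∧ ∀ t ∈ T, n + t ≤ 3 * K ∧ n + t ≠ 2 * K := by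
  unfold f
  rw [Finset.mem_filter, mem_X]
  refine and_congr_right fun _ => forall_congr' fun t => forall_congr' fun _ => ?_
  rw [← mem_X]
  push_cast
  rfl

theorem zero_mem_f {K : ℕ} (hK : 1 ≤ K) {T : Finset ℕ} (hT : T ⊆ Finset.Icc 1 K) : (0 : ℝ) ∈ f K T := by
  have : ((0 : ℕ) : ℝ) ∈ f K T := by
    rw [mem_f]
    refine ⟨⟨by omega, by omega⟩, fun t ht => ?_⟩
    have := Finset.mem_Icc.1 (hT ht)
    omega
  simpa using this

theorem f_inj {K : ℕ} {T T' : Finset ℕ} (hT : T ⊆ Finset.Icc 1 K) (hT' : T' ⊆ Finset.Icc 1 K)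
    (h : f K T = f K T') : T ⊆ T' := by
  intro t ht
  by_contra hc
  have h1 := Finset.mem_Icc.1 (hT ht)
  have h2 : ((2 * K - t : ℕ) : ℝ) ∉ f K T := by
    rw [mem_f]
    intro h3
    have := h3.2 t ht
    omega
  rw [h, mem_f] at h2
  apply h2
  refine ⟨⟨by omega, by omega⟩, fun s hs => ?_⟩
  have h4 := Finset.mem_Icc.1 (hT' hs)
  have h5 : s ≠ t := fun e => hc (e ▸ hs)
  omega

theorem big (C : ℕ) : ∃ K : ℕ, 1 ≤ K ∧ C * (3 * K + 1) + 1 < 2 ^ K := by
  refine ⟨2 * (6 * C + 10), by omega, ?_⟩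
  have h : 6 * C + 10 < 2 ^ (6 * C + 10) := Nat.lt_two_pow_self
  rw [pow_mul']
  nlinarith

/-- The negation of the preceding statement: There is a constant C such that for every finite set X of n reals, any family of maximally repeated patterns of X, no two of which are translates of each other, has at most C·n members. -/
theorem result :
    ¬ (∃ C : ℕ, ∀ X : Finset ℝ, ∀ S : Finset (Finset ℝ),
      (∀ A ∈ S,
        A.Nonempty ∧ A ⊆ X ∧
        (∃ t : ℝ, t ≠ 0 ∧ A.image (· + t) ⊆ X) ∧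
        (∀ B : Finset ℝ, A ⊂ B →
          ¬ (∀ t : ℝ, A.image (· + t) ⊆ X → B.image (· + t) ⊆ X))) →
      (∀ A ∈ S, ∀ B ∈ S, ∀ t : ℝ, B = A.image (· + t) → A = B) →
      S.card ≤ C * X.card) := by
  rintro ⟨C, hC⟩
  obtain ⟨K, hK, hb⟩ := big C
  have key := hC (X K) ((((Finset.Icc 1 K).powerset).erase ∅).image (f K)) ?_ ?_
  · rw [Finset.card_image_of_injOn] at key
    · rw [Finset.card_erase_of_mem (Finset.empty_mem_powerset _), Finset.card_powerset,
        Nat.card_Icc] at key
      have h1 := Nat.mul_le_mul_left C (card_X_le K)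
      have h2 : K + 1 - 1 = K := by omega
      rw [h2] at key
      omega
    · intro T hT T' hT' h
      simp only [Finset.coe_erase, Set.mem_sdiff, Finset.mem_coe, Finset.mem_powerset] at hT hT'
      exact Finset.Subset.antisymm (f_inj hT.1 hT'.1 h) (f_inj hT'.1 hT.1 h.symm)
  · intro A hA
    rw [Finset.mem_image] at hA
    obtain ⟨T, hT, rfl⟩ := hA
    rw [Finset.mem_erase, Finset.mem_powerset] at hT
    obtain ⟨t, ht⟩ := Finset.nonempty_iff_ne_empty.2 hT.1
    have h1 := Finset.mem_Icc.1 (hT.2 ht)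
    have hsh : ∀ t ∈ T, (f K T).image (· + (t : ℝ)) ⊆ X K := by
      intro t ht x hx
      rw [Finset.mem_image] at hx
      obtain ⟨y, hy, rfl⟩ := hx
      exact (Finset.mem_filter.1 hy).2 t ht
    refine ⟨⟨0, zero_mem_f hK hT.2⟩, Finset.filter_subset _ _, ⟨(t : ℝ), ?_, hsh t ht⟩, ?_⟩
    · have : (0 : ℝ) < t := by exact_mod_cast h1.1
      exact this.ne'
    · intro B hB hall
      apply hB.2
      intro b hb
      refine Finset.mem_filter.2 ⟨?_, fun s hs => ?_⟩
      · have h2 := hall 0 (by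
          intro x hx
          rw [Finset.mem_image] at hx
          obtain ⟨y, hy, rfl⟩ := hx
          simpa using (Finset.mem_filter.1 hy).1)
        simpa using h2 (Finset.mem_image_of_mem _ hb)
      · exact hall s (hsh s hs) (Finset.mem_image_of_mem _ hb)
  · intro A hA B hB t ht
    rw [Finset.mem_image] at hA hB
    obtain ⟨T, hT, rfl⟩ := hA
    obtain ⟨T', hT', rfl⟩ := hB
    rw [Finset.mem_erase, Finset.mem_powerset] at hT hT'
    have h0 := zero_mem_f hK hT.2
    have h0' := zero_mem_f hK hT'.2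
    have h1 : 0 ≤ t := by
      have : (0 : ℝ) + t ∈ f K T' := by
        rw [ht]; exact Finset.mem_image_of_mem _ h0
      simpa using nonneg_of_mem (Finset.mem_filter.1 this).1
    have h2 : t ≤ 0 := by
      rw [ht, Finset.mem_image] at h0'
      obtain ⟨y, hy, hy2⟩ := h0'
      have := nonneg_of_mem (Finset.mem_filter.1 hy).1
      linarith
    have h3 : t = 0 := le_antisymm h2 h1
    rw [ht, h3]
    simp

end Pool.Agent.S09874
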