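import Pool.Statements.S09889
import Pool.Agent.TH477.PA.All
import Pool.Agent.TH830.J809

set_option autoImplicit false
open Pool Pool.MP_86b484_co

namespace Pool.Agent.S09889

/-- For all k≥3 and 3≤s≤C(k,2) there is r* such that for each r≥2 and all large n, an n-vertex graph maximizes the number of r-edge-colorings with no k-clique seeing s or more colors iff it is K_n when r<r*, or the Turán graph T_{k-1}(n) when r≥r*. -/
theorem result :
    ∀ k s : ℕ, 3 ≤ k → 3 ≤ s → s ≤ k.choose 2 →
      ∃ rstar : ℕ, ∀ r : ℕ, 2 ≤ r → ∃ n0 : ℕ, ∀ n : ℕ, n0 ≤ n →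
        ∀ G : SimpleGraph (Fin n),
          ((∀ H : SimpleGraph (Fin n),
              Nat.card {c : H.edgeSet → Fin r //
                ∀ S : Finset (Fin n), H.IsNClique k S →
                  Set.ncard {i : Fin r | ∃ e : H.edgeSet,
                    (∀ v ∈ (e : Sym2 (Fin n)), v ∈ S) ∧ c e = i} < s}
              ≤ Nat.card {c : G.edgeSet → Fin r //
                ∀ S : Finset (Fin n), G.IsNClique k S →
                  Set.ncard {i : Fin r | ∃ e : G.edgeSet,
                    (∀ v ∈ (e : Sym2 (Fin n)), v ∈ S) ∧ c e = i} < s}) ↔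
            ((r < rstar ∧ Nonempty (G ≃g (⊤ : SimpleGraph (Fin n)))) ∨
              (rstar ≤ r ∧ Nonempty (G ≃g SimpleGraph.turanGraph n (k - 1))))) := by
  exact Pool.Agent.TH477.PA.all (fun k D r p ℓ hO hp =>
    Pool.Agent.TH830.J809.J20_bad_star k D r p ℓ hO hp)

end Pool.Agent.S09889
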