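-- Disproof of the frozen statement for MP_8888ff_co.  The family is the (infinite) family of all
-- graphs on `k` vertices of girth smaller than `log log k`.
import Pool.Statements.S09946
import Pool.Agent.TH477.HighGirth
import Pool.Agent.TH477.BlockGraph

set_option autoImplicit false
open Pool Pool.MP_8888ff_co

namespace Pool.Agent.S09946

open SimpleGraph Pool.Agent.TH477

/-- a slowly growing function -/
def f (n : ℕ) : ℕ := Nat.log 2 (Nat.log 2 n)

theorem f_mono {a b : ℕ} (h : a ≤ b) : f a ≤ f b :=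
  Nat.log_mono_right (Nat.log_mono_right h)

theorem f_pow (g : ℕ) : f (2 ^ (2 ^ g)) = g := by
  unfold f
  rw [Nat.log_pow (by norm_num), Nat.log_pow (by norm_num)]

/-- the graphs on `k` vertices of girth smaller than `f k` -/
def Fam : Set (Σ k : ℕ, SimpleGraph (Fin k)) := {p | p.2.egirth < (f p.1 : ℕ∞)}

theorem exists_bip (N : ℕ) (hN : 4 ≤ N) :
    ∃ G : SimpleGraph (Fin N), G.Colorable 2 ∧ G.egirth ≤ 4 := by
  let G : SimpleGraph (Fin N) :=
    { Adj := fun i j => (i.val + j.val) % 2 = 1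
      symm := ⟨fun i j h => by rw [Nat.add_comm]; exact h⟩
      loopless := ⟨fun i h => by have h' : (i.val + i.val) % 2 = 1 := h; omega⟩ }
  refine ⟨G, ?_, ?_⟩
  · have C : G.Coloring (Fin 2) := Coloring.mk (fun i => (⟨i.val % 2, Nat.mod_lt _ (by norm_num)⟩ : Fin 2))
      (by
        intro i j h heq
        have h' : (i.val + j.val) % 2 = 1 := h
        have := Fin.mk.inj_iff.mp heq
        omega)
    exact ⟨C⟩
  · have a01 : G.Adj ⟨0, by omega⟩ ⟨1, by omega⟩ := by show (0 + 1) % 2 = 1; norm_num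
    have a12 : G.Adj ⟨1, by omega⟩ ⟨2, by omega⟩ := by show (1 + 2) % 2 = 1; norm_num
    have a23 : G.Adj ⟨2, by omega⟩ ⟨3, by omega⟩ := by show (2 + 3) % 2 = 1; norm_num
    have a30 : G.Adj ⟨3, by omega⟩ ⟨0, by omega⟩ := by show (3 + 0) % 2 = 1; norm_num
    let w : G.Walk ⟨0, by omega⟩ ⟨0, by omega⟩ :=
      Walk.cons a01 (Walk.cons a12 (Walk.cons a23 (Walk.cons a30 Walk.nil)))
    have hw : w.IsCycle := by
      simp [w, Walk.cons_isCycle_iff]
    have := egirth_le_length hw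
    simpa [w] using this

theorem quad_le (d : ℕ) : (d + 1) * (d + 4) + 2 ≤ 2 ^ (d + 4) := by
  induction d with
  | zero => norm_num
  | succ d ih =>
    have : 2 ^ (d + 1 + 4) = 2 * 2 ^ (d + 4) := by ring
    rw [this]
    nlinarith

theorem exists_g (d : ℕ) : ∃ g : ℕ, 1 ≤ g ∧ 2 * (d + 1) ^ g ≤ 2 ^ (2 ^ g) := by
  refine ⟨d + 4, by omega, ?_⟩
  have h1 : (d + 1) < 2 ^ (d + 1) := Nat.lt_two_pow_self
  have h2 : (d + 1) ^ (d + 4) ≤ (2 ^ (d + 1)) ^ (d + 4) := Nat.pow_le_pow_left h1.le _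
  rw [← pow_mul] at h2
  have h3 := quad_le d
  calc 2 * (d + 1) ^ (d + 4) ≤ 2 * 2 ^ ((d + 1) * (d + 4)) := by omega
    _ = 2 ^ ((d + 1) * (d + 4) + 1) := by ring
    _ ≤ 2 ^ (2 ^ (d + 4)) := Nat.pow_le_pow_right (by norm_num) (by omega)

/-- The negation of the preceding statement: For every graph family whose members all contain a cycle and one is bipartite, some c>0 ensures every graph with min degree δ≥1 and max degree Δ has a spanning F-free subgraph of min degree at least c·ex(K_Δ,F)·δ/Δ². -/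
theorem result :
    ¬ (∀ F : Set (Σ k : ℕ, SimpleGraph (Fin k)),
      (∀ p ∈ F, ¬ p.2.IsAcyclic) →
      (∃ p ∈ F, p.2.Colorable 2) →
      ∃ c : ℝ, 0 < c ∧
        ∀ δ Δ : ℕ, 1 ≤ δ → δ ≤ Δ →
          ∀ n : ℕ, ∀ G : SimpleGraph (Fin n),
            (∀ v, δ ≤ (G.neighborSet v).ncard) →
            (∃ v, (G.neighborSet v).ncard = δ) →
            (∀ v, (G.neighborSet v).ncard ≤ Δ) →
            (∃ v, (G.neighborSet v).ncard = Δ) →
            ∀ T : SimpleGraph (Fin Δ),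
              (∀ p ∈ F, ¬ p.2.IsContained T) →
              ∃ H : SimpleGraph (Fin n), H ≤ G ∧
                (∀ p ∈ F, ¬ p.2.IsContained H) ∧
                ∀ v, c * (T.edgeSet.ncard : ℝ) * (δ : ℝ) / (Δ : ℝ) ^ 2
                  ≤ ((H.neighborSet v).ncard : ℝ)) := by
  intro hall
  have hcyc : ∀ p ∈ Fam, ¬ p.2.IsAcyclic := by
    intro p hp hac
    have h1 : p.2.egirth < (f p.1 : ℕ∞) := hp
    rw [egirth_eq_top.mpr hac] at h1
    exact absurd h1 (not_lt.mpr le_top)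
  have hbip : ∃ p ∈ Fam, p.2.Colorable 2 := by
    obtain ⟨G, hG, hg⟩ := exists_bip (2 ^ (2 ^ 5)) (by norm_num)
    refine ⟨⟨2 ^ (2 ^ 5), G⟩, ?_, hG⟩
    show G.egirth < (f (2 ^ (2 ^ 5)) : ℕ∞)
    rw [f_pow]
    refine lt_of_le_of_lt hg ?_
    norm_num
  obtain ⟨c, hc, hmain⟩ := hall Fam hcyc hbip
  obtain ⟨d, hd⟩ := exists_nat_gt (4 / c)
  obtain ⟨g, hg1, hg⟩ := exists_g d
  generalize hN : 2 ^ (2 ^ g) = N at hg
  have hfN : f N = g := by rw [← hN]; exact f_pow g
  have hNpos : 1 ≤ N := by rw [← hN]; exact Nat.one_le_two_pow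
  obtain ⟨T, hTg, hTe⟩ := exists_dense_large_girth d g N hg1
  have hTe' : d * N ≤ 4 * T.edgeSet.ncard := by
    have h1 : d * (2 * (d + 1) ^ g) ≤ d * N := Nat.mul_le_mul_left d hg
    have h2 : d * (2 * (d + 1) ^ g) = 2 * (d * (d + 1) ^ g) := by ring
    omega
  have hTfree : ∀ p ∈ Fam, ¬ p.2.IsContained T := by
    intro p hp hcon
    have h1 : p.2.egirth < (f p.1 : ℕ∞) := hp
    have h2 : p.1 ≤ N := by
      obtain ⟨φ⟩ := hcon
      simpa using Fintype.card_le_of_injective φ φ.injective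
    have h3 := hcon.egirth_le
    have h4 : (f p.1 : ℕ∞) ≤ (f N : ℕ∞) := by exact_mod_cast f_mono h2
    rw [hfN] at h4
    exact absurd (lt_of_lt_of_le h1 (h4.trans (hTg.trans h3))) (lt_irrefl _)
  generalize hM : 2 ^ (2 ^ (N + 2)) = M
  have hMpos : 1 ≤ M := by rw [← hM]; exact Nat.one_le_two_pow
  have hfn : N + 2 ≤ f (M * (N + 1)) := by
    have h1 : f M = N + 2 := by rw [← hM]; exact f_pow _
    rw [← h1]
    exact f_mono (Nat.le_mul_of_pos_right M (by omega))
  have hdeg : ∀ v, ((blockGraph M (N + 1)).neighborSet v).ncard = N := by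
    intro v
    rw [ncard_neighborSet_blockGraph]
    rfl
  have hnpos : 0 < M * (N + 1) := Nat.mul_pos (by omega) (by omega)
  obtain ⟨H, hHG, hHfree, hHdeg⟩ := hmain N N hNpos le_rfl (M * (N + 1)) (blockGraph M (N + 1))
    (fun v => (hdeg v).ge) ⟨⟨0, hnpos⟩, hdeg _⟩ (fun v => (hdeg v).le) ⟨⟨0, hnpos⟩, hdeg _⟩ T hTfree
  have hHg : (f (M * (N + 1)) : ℕ∞) ≤ H.egirth := by
    by_contra hcon
    rw [not_le] at hcon
    exact hHfree ⟨M * (N + 1), H⟩ hcon (IsContained.refl H)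
  have hHac : H.IsAcyclic := by
    intro a w hw
    have h1 := length_cycle_le hHG w hw
    have h2 := hHg.trans (egirth_le_length hw)
    have h3 : f (M * (N + 1)) ≤ w.length := by exact_mod_cast h2
    omega
  have : Nonempty (Fin (M * (N + 1))) := ⟨⟨0, hnpos⟩⟩
  obtain ⟨v, hv⟩ := exists_ncard_neighborSet_le_one H hHac
  have h1 := hHdeg v
  have h2 : ((H.neighborSet v).ncard : ℝ) ≤ 1 := by exact_mod_cast hv
  have hNr : (0 : ℝ) < N := by exact_mod_cast hNpos
  have h3 : (d : ℝ) * N ≤ 4 * (T.edgeSet.ncard : ℝ) := by exact_mod_cast hTe'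
  have h4 : 4 < c * d := by
    rw [div_lt_iff₀ hc] at hd
    linarith
  have h5 : c * (T.edgeSet.ncard : ℝ) * (N : ℝ) / (N : ℝ) ^ 2 ≤ 1 := h1.trans h2
  rw [div_le_iff₀ (by positivity)] at h5
  have h6 : c * (T.edgeSet.ncard : ℝ) ≤ N := by
    have h7 : c * (T.edgeSet.ncard : ℝ) * N ≤ N * N := by nlinarith
    exact le_of_mul_le_mul_right h7 hNr
  have h8 : c * ((d : ℝ) * N) ≤ c * (4 * (T.edgeSet.ncard : ℝ)) := by
    exact mul_le_mul_of_nonneg_left h3 hc.le
  nlinarith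

end Pool.Agent.S09946
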