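import Pool.Statements.S09970
-- import your own Pool.Agent.* helpers here
import Pool.Agent.TH368.GKFinal

set_option autoImplicit false
open Pool Pool.MP_8a30e7_co

namespace Pool.Agent.S09970

/-- The negation of the preceding statement: If a full-dimensional d-polytope and d''-polytope (d ≤ d'') have inclusion-isomorphic posets of nonempty faces of dimension ≤ k, then for each d' between them some full-dimensional d'-polytope has the same k-skeleton poset. -/
theorem result :
    ¬ (∀ (k d d' d'' : ℕ), d ≤ d' → d' ≤ d'' →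
    ∀ (P : Finset (EuclideanSpace ℝ (Fin d))) (Q : Finset (EuclideanSpace ℝ (Fin d''))),
      affineSpan ℝ (P : Set (EuclideanSpace ℝ (Fin d))) = ⊤ →
      affineSpan ℝ (Q : Set (EuclideanSpace ℝ (Fin d''))) = ⊤ →
      Nonempty ({F : Set (EuclideanSpace ℝ (Fin d)) // F.Nonempty ∧
          IsExposed ℝ (convexHull ℝ (P : Set (EuclideanSpace ℝ (Fin d)))) F ∧
          Module.finrank ℝ (vectorSpan ℝ F) ≤ k} ≃o
        {G : Set (EuclideanSpace ℝ (Fin d'')) // G.Nonempty ∧
          IsExposed ℝ (convexHull ℝ (Q : Set (EuclideanSpace ℝ (Fin d'')))) G ∧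
          Module.finrank ℝ (vectorSpan ℝ G) ≤ k}) →
      ∃ R : Finset (EuclideanSpace ℝ (Fin d')),
        affineSpan ℝ (R : Set (EuclideanSpace ℝ (Fin d'))) = ⊤ ∧
        Nonempty ({H : Set (EuclideanSpace ℝ (Fin d')) // H.Nonempty ∧
            IsExposed ℝ (convexHull ℝ (R : Set (EuclideanSpace ℝ (Fin d')))) H ∧
            Module.finrank ℝ (vectorSpan ℝ H) ≤ k} ≃o
          {F : Set (EuclideanSpace ℝ (Fin d)) // F.Nonempty ∧
            IsExposed ℝ (convexHull ℝ (P : Set (EuclideanSpace ℝ (Fin d)))) F ∧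
            Module.finrank ℝ (vectorSpan ℝ F) ≤ k})) := by
  intro hall
  obtain ⟨e8⟩ := Pool.Agent.TH368.GK.P8_iso
  obtain ⟨e10⟩ := Pool.Agent.TH368.GK.P10_iso
  obtain ⟨R, hR, ⟨eR⟩⟩ := hall 1 8 9 10 (by norm_num) (by norm_num) Pool.Agent.TH368.GK.P8
    Pool.Agent.TH368.GK.P10 Pool.Agent.TH368.GK.P8_span Pool.Agent.TH368.GK.P10_span ⟨e8.trans e10.symm⟩
  exact Pool.Agent.TH368.GK.no_R9 R hR ⟨eR.trans e8⟩

end Pool.Agent.S09970
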