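import Pool.Statements.S10147
-- import your own Pool.Agent.* helpers here
import Pool.Agent.TH416.CI.Main
import Pool.Agent.TH416.CI.Comb

set_option autoImplicit false
open Polynomial
open Pool Pool.MP_9172b5_co

namespace Pool.Agent.S10147

open Pool.Agent.TH416.CI

/-- the weights `1, …, 3n, 2n+1, …, 4n` -/
def wt (n : ℕ) : Fin (3 * n) ⊕ Fin (2 * n) → ℕ :=
  Sum.elim (fun i => i.1 + 1) (fun j => 2 * n + j.1 + 1)

theorem inSg_of_closure (n : ℕ) (I : Finset (Fin (3 * n) ⊕ Fin (2 * n))) (b : ℕ)
    (hb : b ∈ AddSubmonoid.closure ((I.image (wt n) : Finset ℕ) : Set ℕ)) : InSg (wt n) I b := by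
  induction hb using AddSubmonoid.closure_induction with
  | mem x hx =>
    obtain ⟨i, hi, rfl⟩ := Finset.mem_image.1 (by exact_mod_cast hx)
    refine ⟨Finsupp.single i 1, ?_, ?_⟩
    · refine Finsupp.support_single_subset.trans ?_
      simpa using hi
    · rw [Finsupp.weight_single, one_smul]
  | zero => exact ⟨0, by simp, by simp⟩
  | add x y _ _ hx hy =>
    classical
    obtain ⟨α, hα, rfl⟩ := hx
    obtain ⟨β, hβ, rfl⟩ := hy
    exact ⟨α + β, Finsupp.support_add.trans (Finset.union_subset hα hβ), by rw [map_add]⟩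

theorem card_le (n : ℕ) (I : Finset (Fin (3 * n) ⊕ Fin (2 * n))) :
    I.card ≤ (I.image (wt n)).card +
      ((I.image (wt n)).filter (fun a => 2 * n < a ∧ a ≤ 3 * n)).card := by
  classical
  rw [← Finset.card_toLeft_add_card_toRight (u := I)]
  set L := I.toLeft.image (fun i => i.1 + 1) with hL
  set R := I.toRight.image (fun j => 2 * n + j.1 + 1) with hR
  have h1 : L.card = I.toLeft.card := by
    apply Finset.card_image_of_injective
    intro i j hij
    ext
    simpa using hij
  have h2 : R.card = I.toRight.card := by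
    apply Finset.card_image_of_injective
    intro i j hij
    ext
    simpa using hij
  rw [← h1, ← h2, ← Finset.card_union_add_card_inter]
  have hLs : L ⊆ I.image (wt n) := by
    intro x hx
    obtain ⟨i, hi, rfl⟩ := Finset.mem_image.1 hx
    exact Finset.mem_image.2 ⟨Sum.inl i, by simpa using hi, rfl⟩
  have hRs : R ⊆ I.image (wt n) := by
    intro x hx
    obtain ⟨i, hi, rfl⟩ := Finset.mem_image.1 hx
    exact Finset.mem_image.2 ⟨Sum.inr i, by simpa using hi, rfl⟩
  refine add_le_add (Finset.card_le_card (Finset.union_subset hLs hRs)) (Finset.card_le_card ?_)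
  intro x hx
  rw [Finset.mem_inter] at hx
  rw [Finset.mem_filter]
  refine ⟨hLs hx.1, ?_⟩
  obtain ⟨i, hi, hi'⟩ := Finset.mem_image.1 hx.1
  obtain ⟨j, hj, hj'⟩ := Finset.mem_image.1 hx.2
  have := i.2
  omega

open Classical in
theorem cond (n : ℕ) (hn : 0 < n) (I : Finset (Fin (3 * n) ⊕ Fin (2 * n))) :
    I.card ≤ ((List.range (5 * n)).map (fun j => 10 * n + j + 1)).countP
      (fun b => @decide (InSg (wt n) I b) (Classical.dec _)) := by
  refine (card_le n I).trans ((win_card n hn (I.image (wt n)) ?_).trans ?_)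
  · intro a ha
    obtain ⟨i, _, rfl⟩ := Finset.mem_image.1 ha
    rcases i with i | i
    · have := i.2
      simp only [wt, Sum.elim_inl]
      omega
    · have := i.2
      simp only [wt, Sum.elim_inr]
      omega
  · have hnd : ((List.range (5 * n)).map (fun j => 10 * n + j + 1)).Nodup := by
      apply List.Nodup.map _ List.nodup_range
      intro a b hab
      simpa using hab
    rw [List.countP_eq_length_filter, ← List.toFinset_card_of_nodup (hnd.filter _)]
    apply Finset.card_le_card
    intro b hb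
    rw [win, Finset.mem_filter, Finset.mem_Ioc] at hb
    rw [List.mem_toFinset, List.mem_filter]
    refine ⟨List.mem_map.2 ⟨b - 10 * n - 1, List.mem_range.2 (by omega), by omega⟩, ?_⟩
    rw [decide_eq_true_eq]
    exact inSg_of_closure n I b hb.2

/-- For every positive integer n, the q-factorial ratio [15n]![2n]!/([10n]![4n]![3n]!) with [m]!=(1-q)...(1-q^m) equals an integer polynomial in q all of whose coefficients are non-negative. -/
theorem result :
    ∀ n : ℕ, 0 < n →
      ∃ P : Polynomial ℤ, (∀ k : ℕ, 0 ≤ P.coeff k) ∧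
        (∏ i ∈ Finset.range (15 * n), ((1 : Polynomial ℤ) - X ^ (i + 1))) *
          (∏ i ∈ Finset.range (2 * n), ((1 : Polynomial ℤ) - X ^ (i + 1))) =
        P * ((∏ i ∈ Finset.range (10 * n), ((1 : Polynomial ℤ) - X ^ (i + 1))) *
          (∏ i ∈ Finset.range (4 * n), ((1 : Polynomial ℤ) - X ^ (i + 1))) *
          (∏ i ∈ Finset.range (3 * n), ((1 : Polynomial ℤ) - X ^ (i + 1)))) := by
  intro n hn
  obtain ⟨P, hP, hPe⟩ := ci_main (wt n) (by rintro (i | i) <;> simp [wt])
    ((List.range (5 * n)).map (fun j => 10 * n + j + 1)) (by simp; ring)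
    (by
      intro b hb
      obtain ⟨j, _, rfl⟩ := List.mem_map.1 hb
      omega) (cond n hn)
  refine ⟨P, hP, ?_⟩
  have h15 : 15 * n = 10 * n + 5 * n := by ring
  have h4 : 4 * n = 2 * n + 2 * n := by ring
  have e1 : (((List.range (5 * n)).map (fun j => 10 * n + j + 1)).map
      (fun b => (1 : Polynomial ℤ) - X ^ b)).prod =
      ∏ j ∈ Finset.range (5 * n), ((1 : Polynomial ℤ) - X ^ (10 * n + j + 1)) := by
    rw [List.map_map]
    rw [← List.toFinset_range, List.prod_toFinset _ List.nodup_range]
    rfl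
  have e2 : ∏ i, ((1 : Polynomial ℤ) - X ^ (wt n i)) =
      (∏ i ∈ Finset.range (3 * n), ((1 : Polynomial ℤ) - X ^ (i + 1))) *
      ∏ j ∈ Finset.range (2 * n), ((1 : Polynomial ℤ) - X ^ (2 * n + j + 1)) := by
    rw [Fintype.prod_sum_type, Finset.prod_range, Finset.prod_range]
    rfl
  rw [e1, e2] at hPe
  rw [h15, h4, Finset.prod_range_add, Finset.prod_range_add, hPe]
  ring

end Pool.Agent.S10147
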