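import Pool.Statements.S10336
import Pool.Agent.TH465.Occ

set_option autoImplicit false
open Classical
open Pool Pool.MP_99d978_co

namespace Pool.Agent.S10336

open Pool.Agent.TH465 in
theorem egirthH : (5 : ℕ∞) ≤ Occ.H.egirth := by
  rw [SimpleGraph.le_egirth]
  intro a w hw
  have h3 := hw.three_le_length
  have hne : w.length ≠ 3 ∧ w.length ≠ 4 := by
    constructor
    · intro hl
      have h01 := w.adj_getVert_succ (i := 0) (by omega)
      have h12 := w.adj_getVert_succ (i := 1) (by omega)
      have h23 := w.adj_getVert_succ (i := 2) (by omega)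
      have e3 : w.getVert (2 + 1) = a := by
        have := w.getVert_length
        rw [hl] at this
        exact this
      have e0 : w.getVert 0 = a := w.getVert_zero
      rw [e3] at h23
      rw [e0] at h01
      exact Occ.triH _ _ _ h01 h12 h23.symm
    · intro hl
      have h01 := w.adj_getVert_succ (i := 0) (by omega)
      have h12 := w.adj_getVert_succ (i := 1) (by omega)
      have h23 := w.adj_getVert_succ (i := 2) (by omega)
      have h34 := w.adj_getVert_succ (i := 3) (by omega)
      have e4 : w.getVert (3 + 1) = a := by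
        have := w.getVert_length
        rw [hl] at this
        exact this
      have e0 : w.getVert 0 = a := w.getVert_zero
      have hinj := hw.getVert_injOn
      have hinj' := hw.getVert_injOn'
      rw [e4] at h34
      rw [e0] at h01
      have n02 : a ≠ w.getVert (1 + 1) := by
        intro h
        have := hinj' (x₁ := 0) (x₂ := 2) (by simp) (by simp [hl]) (by rw [e0]; exact h)
        omega
      have n13 : w.getVert (0 + 1) ≠ w.getVert (2 + 1) := by
        intro h
        have := hinj (x₁ := 1) (x₂ := 3) (by simp [hl]) (by simp [hl]) h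
        omega
      exact Occ.quadH _ _ _ h01 h12 n02 _ n13 h23 h34.symm
  have h5 : 5 ≤ w.length := by omega
  exact_mod_cast h5

theorem regG (inst : Pool.Agent.TH465.Occ.G.LocallyFinite) :
    Pool.Agent.TH465.Occ.G.IsRegularOfDegree 4 := by
  intro v
  have h := Pool.Agent.TH465.Occ.degG v
  rw [← SimpleGraph.card_neighborFinset_eq_degree, ← h]
  congr 1
  ext x
  simp

theorem regH (inst : Pool.Agent.TH465.Occ.H.LocallyFinite) :
    Pool.Agent.TH465.Occ.H.IsRegularOfDegree 4 := by
  intro v
  have h := Pool.Agent.TH465.Occ.degH v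
  rw [← SimpleGraph.card_neighborFinset_eq_degree, ← h]
  congr 1
  ext x
  simp

/-- The negation of the preceding statement: Let L be the largest real root of the sextic. For every finite 4-regular triangle-free G and λ>0: if λ≤L, G's occupancy fraction is at least the Robertson graph's (4-regular, girth 5, 19 vertices); if λ≥L, at least that of the circulant on Z13 with jumps ±1,±5. -/
theorem result :
    ¬ (∀ L : ℝ,
      90*L^6 + 729*L^5 - 188*L^4 - 1632*L^3 - 1247*L^2 - 363*L - 38 = 0 →
      (∀ x : ℝ, 90*x^6 + 729*x^5 - 188*x^4 - 1632*x^3 - 1247*x^2 - 363*x - 38 = 0 → x ≤ L) →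
      ∀ (V : Type) [Fintype V] [Nonempty V] (G : SimpleGraph V),
        G.IsRegularOfDegree 4 → G.CliqueFree 3 →
        ∀ H : SimpleGraph (Fin 19), H.IsRegularOfDegree 4 → (5 : ℕ∞) ≤ H.egirth →
        ∀ l : ℝ, 0 < l →
          (l ≤ L →
            (∑ I : Finset (Fin 19), if H.IsIndepSet (I : Set (Fin 19)) then (I.card : ℝ) * l ^ I.card else 0) /
              ((Fintype.card (Fin 19) : ℝ) *
                ∑ I : Finset (Fin 19), if H.IsIndepSet (I : Set (Fin 19)) then l ^ I.card else 0)
            ≤
            (∑ I : Finset V, if G.IsIndepSet (I : Set V) then (I.card : ℝ) * l ^ I.card else 0) /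
              ((Fintype.card V : ℝ) *
                ∑ I : Finset V, if G.IsIndepSet (I : Set V) then l ^ I.card else 0)) ∧
          (L ≤ l →
            (∑ I : Finset (ZMod 13),
                if (SimpleGraph.fromRel (fun x y : ZMod 13 => x - y = 1 ∨ x - y = 5)).IsIndepSet
                    (I : Set (ZMod 13))
                then (I.card : ℝ) * l ^ I.card else 0) /
              ((Fintype.card (ZMod 13) : ℝ) *
                ∑ I : Finset (ZMod 13),
                  if (SimpleGraph.fromRel (fun x y : ZMod 13 => x - y = 1 ∨ x - y = 5)).IsIndepSet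
                      (I : Set (ZMod 13))
                  then l ^ I.card else 0)
            ≤
            (∑ I : Finset V, if G.IsIndepSet (I : Set V) then (I.card : ℝ) * l ^ I.card else 0) /
              ((Fintype.card V : ℝ) *
                ∑ I : Finset V, if G.IsIndepSet (I : Set V) then l ^ I.card else 0))) := by
  intro hall
  -- the largest root
  obtain ⟨L, hL0, hLmax, hL32⟩ : ∃ L : ℝ,
      90*L^6 + 729*L^5 - 188*L^4 - 1632*L^3 - 1247*L^2 - 363*L - 38 = 0 ∧
      (∀ x : ℝ, 90*x^6 + 729*x^5 - 188*x^4 - 1632*x^3 - 1247*x^2 - 363*x - 38 = 0 → x ≤ L) ∧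
      3 / 2 ≤ L := by
    set f : ℝ → ℝ := fun x => 90*x^6 + 729*x^5 - 188*x^4 - 1632*x^3 - 1247*x^2 - 363*x - 38 with hf
    have hcont : Continuous f := by
      rw [hf]
      fun_prop
    have hclosed : IsClosed {x : ℝ | f x = 0} := isClosed_eq hcont continuous_const
    have hbdd : BddAbove {x : ℝ | f x = 0} := by
      refine ⟨2, ?_⟩
      intro x hx
      by_contra h2
      push Not at h2
      have hx' : f x = 0 := hx
      have hy : 0 < x - 2 := by linarith
      have key : f x = 90 * (x - 2)^6 + 1809 * (x - 2)^5 + 13902 * (x - 2)^4 + 51704 * (x - 2)^3 +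
          95617 * (x - 2)^2 + 77969 * (x - 2) + 7272 + (f x - (90 * (x - 2)^6 + 1809 * (x - 2)^5 +
          13902 * (x - 2)^4 + 51704 * (x - 2)^3 + 95617 * (x - 2)^2 + 77969 * (x - 2) + 7272)) := by
        ring
      have : 0 < f x := by
        have : f x = 0 := hx'
        nlinarith [pow_pos hy 2, pow_pos hy 3, pow_pos hy 4, pow_pos hy 5, pow_pos hy 6]
      linarith
    obtain ⟨r, hr1, hr2⟩ : ∃ r ∈ Set.Icc (3 / 2 : ℝ) 2, f r = 0 := by
      have h := intermediate_value_Icc (a := (3 / 2 : ℝ)) (b := 2) (by norm_num)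
        (hcont.continuousOn)
      apply h
      constructor
      · rw [hf]; norm_num
      · rw [hf]; norm_num
    have hne : {x : ℝ | f x = 0}.Nonempty := ⟨r, hr2⟩
    refine ⟨sSup {x : ℝ | f x = 0}, hclosed.csSup_mem hne hbdd, ?_, ?_⟩
    · intro x hx
      exact le_csSup hbdd hx
    · exact hr1.1.trans (le_csSup hbdd hr2)
  have htri : Pool.Agent.TH465.Occ.G.CliqueFree 3 := by
    intro s hs
    rw [SimpleGraph.is3Clique_iff] at hs
    obtain ⟨a, b, c, hab, hac, hbc, -⟩ := hs
    exact Pool.Agent.TH465.Occ.triG a b c hab hbc hac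
  have hmain := (hall L hL0 hLmax (Fin 20) Pool.Agent.TH465.Occ.G (regG _) htri
    Pool.Agent.TH465.Occ.H (regH _) egirthH (3 / 2) (by norm_num)).1 hL32
  obtain ⟨z1, a1⟩ := Pool.Agent.TH465.Occ.go_univ Pool.Agent.TH465.Occ.H
    Pool.Agent.TH465.Occ.nbH (fun i j => Iff.rfl) _ _ Pool.Agent.TH465.Occ.goH
  obtain ⟨z2, a2⟩ := Pool.Agent.TH465.Occ.go_univ Pool.Agent.TH465.Occ.G
    Pool.Agent.TH465.Occ.nbG (fun i j => Iff.rfl) _ _ Pool.Agent.TH465.Occ.goG
  have key : Pool.Agent.TH465.Occ.F Pool.Agent.TH465.Occ.H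
        (fun c => (c : ℝ) * (3 / 2 : ℝ) ^ c) Finset.univ /
      ((Fintype.card (Fin 19) : ℝ) *
        Pool.Agent.TH465.Occ.F Pool.Agent.TH465.Occ.H (fun c => (3 / 2 : ℝ) ^ c) Finset.univ) ≤
      Pool.Agent.TH465.Occ.F Pool.Agent.TH465.Occ.G
        (fun c => (c : ℝ) * (3 / 2 : ℝ) ^ c) Finset.univ /
      ((Fintype.card (Fin 20) : ℝ) *
        Pool.Agent.TH465.Occ.F Pool.Agent.TH465.Occ.G (fun c => (3 / 2 : ℝ) ^ c) Finset.univ) := by
    unfold Pool.Agent.TH465.Occ.F
    simp only [Finset.powerset_univ]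
    convert hmain
  have g1 : Pool.Agent.TH465.Occ.F Pool.Agent.TH465.Occ.H (fun c => (3 / 2 : ℝ) ^ c) Finset.univ
      = 5719875584 / 2 ^ 19 := by
    rw [eq_div_iff (by positivity), mul_comm, ← z1]
    norm_num
  have g2 : Pool.Agent.TH465.Occ.F Pool.Agent.TH465.Occ.H (fun c => (c : ℝ) * (3 / 2 : ℝ) ^ c)
      Finset.univ = 25543704576 / 2 ^ 19 := by
    rw [eq_div_iff (by positivity), mul_comm, ← a1]
    norm_num
  have g3 : Pool.Agent.TH465.Occ.F Pool.Agent.TH465.Occ.G (fun c => (3 / 2 : ℝ) ^ c) Finset.univ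
      = 18817220608 / 2 ^ 20 := by
    rw [eq_div_iff (by positivity), mul_comm, ← z2]
    norm_num
  have g4 : Pool.Agent.TH465.Occ.F Pool.Agent.TH465.Occ.G (fun c => (c : ℝ) * (3 / 2 : ℝ) ^ c)
      Finset.univ = 88317493248 / 2 ^ 20 := by
    rw [eq_div_iff (by positivity), mul_comm, ← a2]
    norm_num
  rw [g1, g2, g3, g4] at key
  simp only [Fintype.card_fin] at key
  norm_num at key

end Pool.Agent.S10336
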