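import Pool.Statements.S10463
import Pool.Agent.TH496.GG6

set_option autoImplicit false
open Pool Pool.MP_a05699_co

namespace Pool.Agent.S10463

/-- For every infinite virtually abelian group with a symmetric 3-element generating set not containing 1, the number of n-step self-avoiding walks from the identity in its Cayley graph is at least φ^n for all n, i.e. the connective constant is at least the golden mean. -/
theorem result :
    ∀ (Γ : Type) [Group Γ] [Infinite Γ] (S : Finset Γ),
      S.card = 3 → (1 : Γ) ∉ S → (∀ s ∈ S, s⁻¹ ∈ S) →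
      Subgroup.closure (S : Set Γ) = ⊤ →
      (∃ H : Subgroup Γ, H.FiniteIndex ∧ ∀ a ∈ H, ∀ b ∈ H, a * b = b * a) →
      ∀ n : ℕ, Real.goldenRatio ^ n ≤
        ((Set.ncard {w : Fin (n + 1) → Γ | w 0 = 1 ∧ Function.Injective w ∧
            ∀ i : Fin n, (w i.castSucc)⁻¹ * w i.succ ∈ S} : ℕ) : ℝ) := by
  intro Γ _ _ S hc h1 hinv hgen hH n
  obtain ⟨H, hfin, hcomm⟩ := hH
  exact Pool.Agent.TH496.golden_bound S hc h1 hinv hgen H hfin hcomm n

end Pool.Agent.S10463
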