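import Pool.Statements.S10518
import Pool.Agent.TH734.JG.Ring
import Pool.Agent.TH734.JG.Conn

set_option autoImplicit false
open Pool Pool.MP_a2b267_co

namespace Pool.Agent.S10518

/-- The negation of the preceding statement: Every finite multigraph in which each nonempty proper vertex set is left by at least 8 edges has a real flow whose value on every edge has absolute value between 1 and 3/2, i.e. a circular 5/2-flow. -/
theorem result :
    ¬ (∀ (V E : Type) [Fintype V] [DecidableEq V] [Fintype E] (s t : E → V),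
      (∀ S : Set V, S.Nonempty → Sᶜ.Nonempty →
        8 ≤ Nat.card {e : E // (s e ∈ S ∧ t e ∉ S) ∨ (s e ∉ S ∧ t e ∈ S)}) →
      ∃ f : E → ℝ, (∀ e, 1 ≤ |f e| ∧ |f e| ≤ 3 / 2) ∧
        ∀ v : V, (∑ e ∈ Finset.univ.filter (fun e => t e = v), f e)
                 = ∑ e ∈ Finset.univ.filter (fun e => s e = v), f e) := by
  intro h
  obtain ⟨f, hf, hc⟩ := h Pool.Agent.TH734.JG.VV Pool.Agent.TH734.JG.EE
    Pool.Agent.TH734.JG.src Pool.Agent.TH734.JG.tgt Pool.Agent.TH734.JG.conn
  exact Pool.Agent.TH734.JG.no_flow f hf hc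

end Pool.Agent.S10518
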