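import Pool.Statements.S10555
import Pool.Agent.TH524.Finish

set_option autoImplicit false
open Pool Pool.MP_a4aaa3_co

namespace Pool.Agent.S10555

/-- For n ≥ 6, in the metric polytope on n points, the graph on non-cut vertices, with two joined when their segment is a face of the polytope, is connected. -/
theorem result :
    ∀ n : ℕ, 6 ≤ n →
      ∀ P : Set (Fin n → Fin n → ℝ),
        P = {x : Fin n → Fin n → ℝ |
              (∀ i, x i i = 0) ∧ (∀ i j, x i j = x j i) ∧
              (∀ i j k, x i j ≤ x i k + x k j) ∧
              (∀ i j k, x i j + x i k + x j k ≤ 2)} →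
        (SimpleGraph.fromRel
          (fun u v : {x : Fin n → Fin n → ℝ //
                x ∈ Set.extremePoints ℝ P ∧
                ¬ ∃ S : Finset (Fin n),
                    x = (fun i j => if (i ∈ S ↔ j ∈ S) then (0 : ℝ) else 1)} =>
            IsExtreme ℝ P (segment ℝ u.1 v.1))).Connected := by
  intro n hn P hP
  subst hP
  refine TH524.main (V := Fin n) (by simpa using hn)
    (fun x => ∃ S : Finset (Fin n), x = (fun i j => if (i ∈ S ↔ j ∈ S) then (0 : ℝ) else 1)) ?_
  intro x
  constructor
  · rintro ⟨S, rfl⟩
    refine ⟨fun i => decide (i ∈ S), ?_⟩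
    funext i j
    simp only [TH524.cutv]
    by_cases hi : i ∈ S <;> by_cases hj : j ∈ S <;> simp [hi, hj]
  · rintro ⟨s, rfl⟩
    refine ⟨Finset.univ.filter (fun i => s i = true), ?_⟩
    funext i j
    simp only [TH524.cutv, Finset.mem_filter, Finset.mem_univ, true_and]
    cases s i <;> cases s j <;> simp

end Pool.Agent.S10555
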