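import Pool.Statements.S10718
import Pool.Agent.TH389.Spurs

set_option autoImplicit false
open Pool Pool.MP_ab53bf_co

namespace Pool.Agent.S10718

open Set Pool.Agent.Helper337.PolygonPattern Pool.Agent.TH389.Spurs

theorem rot (i : Fin 14) : finRotate 14 i = i + 1 := finRotate_apply i

theorem rot_symm (i : Fin 14) : (finRotate 14).symm i = i - 1 := by
  rw [Equiv.symm_apply_eq, rot]
  revert i; decide

/-- the first polygon -/
noncomputable def x0 : Fin 14 → ℝ × ℝ := xx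

/-- the second polygon -/
noncomputable def y0 : Fin 14 → ℝ × ℝ := yy

/-- the image of the reflection on the spur -/
theorem tau_sg (ε : ℝ) (i : ZMod 14) :
    tau (xx i + ε • uu i) = yy (i + 7) + ε • ((2 : ℝ) • yy (i + 7) - yy (i + 7 - 1) - yy (i + 7 + 1)) := by
  have h1 : i + 7 - 1 = (i - 1) + 7 := by ring
  have h2 : i + 7 + 1 = (i + 1) + 7 := by ring
  rw [h1, h2, ← tau_xx, ← tau_xx, ← tau_xx]
  simp only [tau_apply, uu]
  apply Prod.ext
  · simp
  · simp; ring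

theorem tau_sg_image (ε : ℝ) (i : ZMod 14) : tau '' sg ε i = segment ℝ (yy (i + 7))
    (yy (i + 7) + ε • ((2 : ℝ) • yy (i + 7) - yy (i + 7 - 1) - yy (i + 7 + 1))) := by
  unfold sg
  rw [tau_segment, tau_sg, tau_xx]

theorem range_shift {α : Type} (f : ZMod 14 → α) : Set.range (fun i => f (i + 7)) = Set.range f :=
  (Equiv.addRight (7 : ZMod 14)).surjective.range_comp f

/-- the homeomorphism of the plane carrying the first decorated polygon onto the second one -/
theorem pattern_homeo {ε₁ ε₂ : ℝ} (h1 : 0 < ε₁) (h1' : ε₁ < 1 / 1000) (h2 : 0 < ε₂)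
    (h2' : ε₂ < 1 / 1000) : ∃ h : Homeomorph (ℝ × ℝ) (ℝ × ℝ),
      (∀ i : ZMod 14, h '' edge xx i = edge yy (i + 7)) ∧ (∀ i : ZMod 14, h (xx i) = yy (i + 7)) ∧
      (∀ i : ZMod 14, h '' sg ε₁ i = segment ℝ (yy (i + 7))
        (yy (i + 7) + ε₂ • ((2 : ℝ) • yy (i + 7) - yy (i + 7 - 1) - yy (i + 7 + 1)))) ∧
      (∀ i : ZMod 14, h (xx i + ε₁ • uu i) =
        yy (i + 7) + ε₂ • ((2 : ℝ) • yy (i + 7) - yy (i + 7 - 1) - yy (i + 7 + 1))) := by
  obtain ⟨g, g1, g2, g3⟩ := resize h1 h1' h2 h2'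
  have hcomp : ∀ T : Set Plane, (g.trans tau) '' T = tau '' (g '' T) := fun T => by
    rw [image_image]; rfl
  refine ⟨g.trans tau, ?_, ?_, ?_, ?_⟩
  · intro i; rw [hcomp, g1, tau_edge]
  · intro i
    show tau (g (xx i)) = _
    rw [g2, tau_xx]
  · intro i; rw [hcomp, (g3 i).1, tau_sg_image]
  · intro i
    show tau (g (xx i + ε₁ • uu i)) = _
    rw [(g3 i).2, tau_sg]

theorem shift_of_comm {f : ZMod 14 → ZMod 14} (h : ∀ i, f (i + 1) = f i + 1) :
    ∀ i, f i = f 0 + i := by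
  have key : ∀ k : ℕ, f (k : ZMod 14) = f 0 + (k : ZMod 14) := by
    intro k
    induction k with
    | zero => simp
    | succ k ih => rw [Nat.cast_succ, h, ih, add_assoc]
  intro i
  have := key i.val
  rwa [ZMod.natCast_zmod_val] at this

theorem shift_of_anticomm {f : ZMod 14 → ZMod 14} (h : ∀ i, f (i + 1) = f i - 1) :
    ∀ i, f i = f 0 - i := by
  have key : ∀ k : ℕ, f (k : ZMod 14) = f 0 - (k : ZMod 14) := by
    intro k
    induction k with
    | zero => simp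
    | succ k ih => rw [Nat.cast_succ, h, ih, sub_sub]
  intro i
  have := key i.val
  rwa [ZMod.natCast_zmod_val] at this

/-- The negation of the preceding statement: If two ordinary proper n-gons have the same pattern and some dihedral relabelling of the second makes corresponding edges same-direction parallel, then some such relabelling admits a continuous deformation of the first into it keeping the pattern and all edge directions. -/
theorem result :
    ¬ (∀ (n : ℕ), 3 ≤ n →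
  ∀ (Edge : (Fin n → ℝ × ℝ) → Fin n → Set (ℝ × ℝ)),
    (∀ x i, Edge x i = segment ℝ (x i) (x (finRotate n i))) →
  ∀ (Pend : (Fin n → ℝ × ℝ) → ℝ → Fin n → ℝ × ℝ),
    (∀ x ε i, Pend x ε i = x i + ε • ((2:ℝ) • x i - x ((finRotate n).symm i) - x (finRotate n i))) →
  ∀ (Ordinary : (Fin n → ℝ × ℝ) → Prop),
    (∀ x, Ordinary x ↔ ∀ (p : ℝ × ℝ) (i j k : Fin n), p ∈ Edge x i → p ∈ Edge x j → p ∈ Edge x k →
      i = j ∨ j = k ∨ i = k) →
  ∀ (Proper : (Fin n → ℝ × ℝ) → Prop),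
    (∀ x, Proper x ↔ (∀ i, x i ≠ x (finRotate n i)) ∧
      ∀ i, ¬ Collinear ℝ ({x ((finRotate n).symm i), x i, x (finRotate n i)} : Set (ℝ × ℝ))) →
  ∀ (MapSet : (Fin n → ℝ × ℝ) → ℝ → Set (ℝ × ℝ)),
    (∀ x ε, MapSet x ε = (⋃ i, Edge x i) ∪ ⋃ i, segment ℝ (x i) (Pend x ε i)) →
  ∀ (Nodes : (Fin n → ℝ × ℝ) → ℝ → Set (ℝ × ℝ)),
    (∀ x ε, Nodes x ε = Set.range x ∪ {p : ℝ × ℝ | ∃ i j, i ≠ j ∧ p ∈ Edge x i ∧ p ∈ Edge x j}
      ∪ Set.range (Pend x ε)) →
  ∀ (SamePattern : (Fin n → ℝ × ℝ) → (Fin n → ℝ × ℝ) → Prop),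
    (∀ x y, SamePattern x y ↔ ∃ δ : ℝ, 0 < δ ∧ ∀ ε₁ ε₂ : ℝ, 0 < ε₁ → ε₁ < δ → 0 < ε₂ → ε₂ < δ →
      ∃ h : Homeomorph (ℝ × ℝ) (ℝ × ℝ), h '' MapSet x ε₁ = MapSet y ε₂ ∧ h '' Nodes x ε₁ = Nodes y ε₂) →
  ∀ (Dihedral : Equiv.Perm (Fin n) → Prop),
    (∀ σ, Dihedral σ ↔ (∀ i, σ (finRotate n i) = finRotate n (σ i)) ∨
      (∀ i, σ (finRotate n i) = (finRotate n).symm (σ i))) →
  ∀ (Parallel : (Fin n → ℝ × ℝ) → (Fin n → ℝ × ℝ) → Prop),
    (∀ x z, Parallel x z ↔ ∀ i, ∃ c : ℝ, 0 < c ∧ z (finRotate n i) - z i = c • (x (finRotate n i) - x i)) →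
  ∀ x y : Fin n → ℝ × ℝ,
    Ordinary x → Proper x → Ordinary y → Proper y → SamePattern x y →
    (∃ σ : Equiv.Perm (Fin n), Dihedral σ ∧ Parallel x (fun i => y (σ i))) →
    ∃ σ : Equiv.Perm (Fin n), Dihedral σ ∧ Parallel x (fun i => y (σ i)) ∧
      ∃ X : ℝ → Fin n → ℝ × ℝ,
        (∀ j, ContinuousOn (fun t => X t j) (Set.Icc (0:ℝ) 1)) ∧
        X 0 = x ∧ X 1 = (fun i => y (σ i)) ∧
        ∀ t ∈ Set.Icc (0:ℝ) 1,
          Ordinary (X t) ∧ Proper (X t) ∧ SamePattern x (X t) ∧ Parallel x (X t)) := by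
  intro H
  have Hx := H 14 (by norm_num) (fun x i => segment ℝ (x i) (x (finRotate 14 i))) (fun _ _ => rfl)
    (fun x ε i => x i + ε • ((2:ℝ) • x i - x ((finRotate 14).symm i) - x (finRotate 14 i)))
    (fun _ _ _ => rfl) _ (fun _ => Iff.rfl) _ (fun _ => Iff.rfl) _ (fun _ _ => rfl)
    _ (fun _ _ => rfl) _ (fun _ _ => Iff.rfl) _ (fun _ => Iff.rfl) _ (fun _ _ => Iff.rfl) x0 y0
  simp only [rot, rot_symm] at Hx
  obtain ⟨σ, hσ, hpar, X, hXc, hX0, hX1, hX⟩ := Hx
    (by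
      intro p i j k hi hj hk
      by_contra hcon
      push Not at hcon
      exact ordinaryX p i j k hcon.1 hcon.2.1 hcon.2.2 ⟨hi, hj, hk⟩)
    ⟨polyX, properX⟩
    (by
      intro p i j k hi hj hk
      by_contra hcon
      push Not at hcon
      exact ordinaryY p i j k hcon.1 hcon.2.1 hcon.2.2 ⟨hi, hj, hk⟩)
    ⟨polyY, properY⟩
    (by
      refine ⟨1 / 1000, by norm_num, fun ε₁ ε₂ h1 h1' h2 h2' => ?_⟩
      obtain ⟨h, a1, a2, a3, a4⟩ := pattern_homeo h1 h1' h2 h2'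
      refine ⟨h, ?_, ?_⟩
      · rw [image_union, image_iUnion, image_iUnion]
        refine congrArg₂ _ ?_ ?_
        · exact (iUnion_congr a1).trans (iUnion_shift (fun i => edge yy i))
        · exact (iUnion_congr a3).trans (iUnion_shift (fun i => segment ℝ (yy i)
            (yy i + ε₂ • ((2 : ℝ) • yy i - yy (i - 1) - yy (i + 1)))))
      · rw [image_union, image_union, ← range_comp, ← range_comp]
        refine congrArg₂ _ (congrArg₂ _ ?_ ?_) ?_
        · have e : (h ∘ x0) = fun i : ZMod 14 => yy (i + 7) := funext a2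
          rw [e]; exact range_shift yy
        · ext q
          constructor
          · rintro ⟨p, ⟨i, j, hij, hi, hj⟩, rfl⟩
            refine ⟨i + 7, j + 7, fun hh => hij (add_right_cancel hh), ?_, ?_⟩
            · exact (a1 i).subset ⟨p, hi, rfl⟩
            · exact (a1 j).subset ⟨p, hj, rfl⟩
          · rintro ⟨i, j, hij, hi, hj⟩
            have si : ∀ k : ZMod 14, (k - 7) + 7 = k := fun k => sub_add_cancel _ _
            have hk : ∀ k : ZMod 14, q ∈ edge yy k → q ∈ h '' edge xx (k - 7) := by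
              intro k hk; rw [a1, si]; exact hk
            have hi' := hk i hi
            have hj' := hk j hj
            obtain ⟨p, hp, rfl⟩ := hi'
            obtain ⟨p', hp', he⟩ := hj'
            have : p' = p := h.injective he
            subst this
            exact ⟨p', ⟨i - 7, j - 7, fun hh => hij (sub_left_injective hh), hp, hp'⟩, rfl⟩
        · have e : (h ∘ fun i : Fin 14 => x0 i + ε₁ • ((2:ℝ) • x0 i - x0 (i - 1) - x0 (i + 1))) =
              fun i : ZMod 14 => (fun k : ZMod 14 =>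
                yy k + ε₂ • ((2 : ℝ) • yy k - yy (k - 1) - yy (k + 1))) (i + 7) := funext a4
          rw [e]
          exact range_shift (fun k : ZMod 14 =>
                yy k + ε₂ • ((2 : ℝ) • yy k - yy (k - 1) - yy (k + 1))))
    ⟨1, Or.inl fun _ => rfl, parallel_xy⟩
  have hrel : IsRelabelling (fun i : ZMod 14 => (σ i : ZMod 14)) := by
    rcases hσ with hσ | hσ
    · exact ⟨σ 0, Or.inl (shift_of_comm hσ)⟩
    · exact ⟨σ 0, Or.inr (shift_of_anticomm hσ)⟩
  have hyy : (yy ∘ fun i : ZMod 14 => (σ i : ZMod 14)) = yy := relabelling_unique hrel hpar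
  refine no_path (P := X) hXc hX0 (hX1.trans hyy) ?_ ?_
  · intro t ht p i j k hij hjk hik hp
    rcases (hX t ht).1 p i j k hp.1 hp.2.1 hp.2.2 with h | h | h
    · exact hij h
    · exact hjk h
    · exact hik h
  · intro t ht
    exact (hX t ht).2.2.2


end Pool.Agent.S10718
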