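import Pool.Statements.S10821
import Pool.Agent.TH444.DC.Fin
import Pool.Agent.TH596.J35

set_option autoImplicit false
open Pool Pool.MP_aff989_co

namespace Pool.Agent.S10821

/-- For every odd t there is an odd L ≥ 3 such that, for each odd ℓ ≥ 3, the maximum over max-degree-d graphs with no ℓ-cycle of the chromatic number of the t-th power is Θ(d^t) in d when ℓ < L, and Θ(d^t/log d) when ℓ ≥ L. -/
theorem result :
  ∀ t : ℕ, Odd t →
    ∃ L : ℕ, Odd L ∧ 3 ≤ L ∧ ∀ ℓ : ℕ, Odd ℓ → 3 ≤ ℓ →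
      (ℓ < L →
        (∃ c : ℝ, 0 < c ∧ ∃ D : ℕ, ∀ d : ℕ, D ≤ d →
          ∃ n : ℕ, ∃ G : SimpleGraph (Fin n),
            (∀ v, (G.neighborSet v).ncard ≤ d) ∧
            (¬ ∃ v : Fin n, ∃ p : G.Walk v v, p.IsCycle ∧ p.length = ℓ) ∧
            ∀ k : ℕ, (k : ℝ) < c * (d : ℝ) ^ t →
              ¬ (SimpleGraph.fromRel (fun u v => ∃ p : G.Walk u v, p.length ≤ t)).Colorable k) ∧
        (∃ C : ℝ, 0 < C ∧ ∃ D : ℕ, ∀ d : ℕ, D ≤ d →
          ∀ n : ℕ, ∀ G : SimpleGraph (Fin n),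
            (∀ v, (G.neighborSet v).ncard ≤ d) →
            (¬ ∃ v : Fin n, ∃ p : G.Walk v v, p.IsCycle ∧ p.length = ℓ) →
            (SimpleGraph.fromRel (fun u v => ∃ p : G.Walk u v, p.length ≤ t)).Colorable
              ⌊C * (d : ℝ) ^ t⌋₊)) ∧
      (L ≤ ℓ →
        (∃ c : ℝ, 0 < c ∧ ∃ D : ℕ, ∀ d : ℕ, D ≤ d →
          ∃ n : ℕ, ∃ G : SimpleGraph (Fin n),
            (∀ v, (G.neighborSet v).ncard ≤ d) ∧
            (¬ ∃ v : Fin n, ∃ p : G.Walk v v, p.IsCycle ∧ p.length = ℓ) ∧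
            ∀ k : ℕ, (k : ℝ) < c * (d : ℝ) ^ t / Real.log (d : ℝ) →
              ¬ (SimpleGraph.fromRel (fun u v => ∃ p : G.Walk u v, p.length ≤ t)).Colorable k) ∧
        (∃ C : ℝ, 0 < C ∧ ∃ D : ℕ, ∀ d : ℕ, D ≤ d →
          ∀ n : ℕ, ∀ G : SimpleGraph (Fin n),
            (∀ v, (G.neighborSet v).ncard ≤ d) →
            (¬ ∃ v : Fin n, ∃ p : G.Walk v v, p.IsCycle ∧ p.length = ℓ) →
            (SimpleGraph.fromRel (fun u v => ∃ p : G.Walk u v, p.length ≤ t)).Colorable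
              ⌊C * (d : ℝ) ^ t / Real.log (d : ℝ)⌋₊)) := by
  exact Pool.Agent.TH444.DC.Final.final Pool.Agent.TH596.J35.t_D

end Pool.Agent.S10821
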