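import Pool.Statements.S10836
-- import your own Pool.Agent.* helpers here
import Pool.Agent.TH757.FSPlane

set_option autoImplicit false
open Pool Pool.MP_b06bf8_co

namespace Pool.Agent.S10836

open Pool.Agent.TH757.FSLol

/-- adjacency in the friends-and-strangers graph is one admissible swap -/
theorem adj_iff {n : ℕ} (X Y : SimpleGraph (Fin n)) (σ τ : Equiv.Perm (Fin n)) :
    (SimpleGraph.fromRel (fun σ τ : Equiv.Perm (Fin n) =>
      ∃ a b : Fin n, X.Adj a b ∧ Y.Adj (σ a) (σ b) ∧ τ = σ * Equiv.swap a b)).Adj σ τ ↔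
      Step X Y σ τ := by
  rw [SimpleGraph.fromRel_adj]
  constructor
  · rintro ⟨_, h | ⟨a, b, h1, h2, h3⟩⟩
    · exact h
    · refine ⟨a, b, h1, ?_, ?_⟩
      · rw [h3, Equiv.Perm.mul_apply, Equiv.Perm.mul_apply, Equiv.swap_apply_left,
          Equiv.swap_apply_right]
        exact h2.symm
      · rw [h3, mul_assoc, Equiv.swap_mul_self, mul_one]
  · rintro ⟨a, b, h1, h2, h3⟩
    refine ⟨?_, Or.inl ⟨a, b, h1, h2, h3⟩⟩
    intro h
    rw [h3] at h
    have h4 : σ a = (σ * Equiv.swap a b) a := by rw [← h]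
    rw [Equiv.Perm.mul_apply, Equiv.swap_apply_left] at h4
    exact h1.ne (σ.injective h4)

/-- the diameter is exponential in the side of the plane -/
theorem exists_large (p : ℕ) [Fact p.Prime] (hp : 2 < p) :
    ∃ X Y : SimpleGraph (Fin (2 * p ^ 2)),
      (SimpleGraph.fromRel (fun σ τ : Equiv.Perm (Fin (2 * p ^ 2)) =>
          ∃ a b : Fin (2 * p ^ 2), X.Adj a b ∧ Y.Adj (σ a) (σ b) ∧
            τ = σ * Equiv.swap a b)).Connected ∧
      2 ^ (p - 2) ≤ (SimpleGraph.fromRel (fun σ τ : Equiv.Perm (Fin (2 * p ^ 2)) =>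
          ∃ a b : Fin (2 * p ^ 2), X.Adj a b ∧ Y.Adj (σ a) (σ b) ∧
            τ = σ * Equiv.swap a b)).diam := by
  obtain ⟨X, hG, hR, x, w, hxw, hna⟩ := exists_graph p hp
  refine ⟨X, lol _ (p - 1), ?_⟩
  set FS := (SimpleGraph.fromRel (fun σ τ : Equiv.Perm (Fin (2 * p ^ 2)) =>
          ∃ a b : Fin (2 * p ^ 2), X.Adj a b ∧ (lol _ (p - 1)).Adj (σ a) (σ b) ∧
            τ = σ * Equiv.swap a b)) with hFS
  have hadj : ∀ σ τ, FS.Adj σ τ ↔ Step X (lol _ (p - 1)) σ τ := adj_iff X (lol _ (p - 1))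
  have hk : p - 1 < 2 * p ^ 2 := by nlinarith [Nat.sub_le p 1]
  have hconn : FS.Connected := by
    have : Nonempty (Equiv.Perm (Fin (2 * p ^ 2))) := ⟨1⟩
    refine SimpleGraph.Connected.mk ?_
    intro σ τ
    have h := reach_all X (p - 1) hk hR σ τ
    induction h with
    | refl => exact SimpleGraph.Reachable.refl _
    | tail _ hbc ih => exact ih.trans (SimpleGraph.Adj.reachable ((hadj _ _).2 hbc))
  refine ⟨hconn, ?_⟩
  have hne : FS.ediam ≠ ⊤ := SimpleGraph.connected_iff_ediam_ne_top.1 hconn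
  -- two states in which person `p - 1` sits at `x` and at `w`
  let P : Fin (2 * p ^ 2) := ⟨p - 1, hk⟩
  obtain ⟨W, hW⟩ := hconn.exists_walk_length_eq_dist (Equiv.swap x P) (Equiv.swap w P)
  refine le_trans ?_ (SimpleGraph.dist_le_diam hne (u := Equiv.swap x P) (v := Equiv.swap w P))
  rw [← hW]
  have hp1 : p - 1 = (p - 2) + 1 := by omega
  have hs : ∀ t, W.getVert (t + 1) = W.getVert t ∨
      Step X (lol _ ((p - 2) + 1)) (W.getVert t) (W.getVert (t + 1)) := by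
    intro t
    rcases Nat.lt_or_ge t W.length with h | h
    · right
      rw [← hp1]
      exact (hadj _ _).1 (W.adj_getVert_succ h)
    · left
      rw [W.getVert_of_length_le h, W.getVert_of_length_le (by omega)]
  refine top_cost hG (p - 2) (fun t => W.getVert t) hs W.length x w ?_ ?_ hxw hna
  · simp only [SimpleGraph.Walk.getVert_zero, Equiv.swap_apply_left]
    exact hp1
  · simp only [SimpleGraph.Walk.getVert_length, Equiv.swap_apply_left]
    exact hp1

/-- exponential beats polynomial along the primes -/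
theorem arith (C : ℕ) : ∃ p : ℕ, p.Prime ∧ 2 < p ∧ C * (2 * p ^ 2 + 1) ^ C < 2 ^ (p - 2) := by
  have h1 := isLittleO_pow_const_const_pow_of_one_lt (R := ℝ) (2 * C) (r := 2) (by norm_num)
  have hc : (0 : ℝ) < 1 / (8 * ((C : ℝ) + 1) * 3 ^ C) := by positivity
  have h2 := h1.def hc
  rw [Filter.eventually_atTop] at h2
  obtain ⟨N, hN⟩ := h2
  obtain ⟨p, hp1, hp2⟩ := Nat.exists_infinite_primes (N + 3)
  refine ⟨p, hp2, by omega, ?_⟩
  have h3 := hN p (by omega)
  rw [Real.norm_of_nonneg (by positivity), Real.norm_of_nonneg (by positivity)] at h3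
  -- `8 (C+1) 3^C p^(2C) ≤ 2^p`
  have h4 : 8 * ((C : ℝ) + 1) * 3 ^ C * (p : ℝ) ^ (2 * C) ≤ 2 ^ p := by
    have h5 : 8 * ((C : ℝ) + 1) * 3 ^ C * (p : ℝ) ^ (2 * C) ≤
        8 * ((C : ℝ) + 1) * 3 ^ C * (1 / (8 * ((C : ℝ) + 1) * 3 ^ C) * 2 ^ p) :=
      mul_le_mul_of_nonneg_left h3 (by positivity)
    have h6 : 8 * ((C : ℝ) + 1) * 3 ^ C * (1 / (8 * ((C : ℝ) + 1) * 3 ^ C) * 2 ^ p) = 2 ^ p := by
      field_simp
    rw [h6] at h5
    exact h5
  have h7 : 8 * (C + 1) * 3 ^ C * p ^ (2 * C) ≤ 2 ^ p := by exact_mod_cast h4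
  have h8 : (2 : ℕ) ^ p = 4 * 2 ^ (p - 2) := by
    have : p = (p - 2) + 2 := by omega
    conv_lhs => rw [this]
    rw [pow_add]
    ring
  have h9 : (2 * p ^ 2 + 1) ^ C ≤ 3 ^ C * p ^ (2 * C) := by
    rw [pow_mul, ← mul_pow]
    apply Nat.pow_le_pow_left
    have : 1 ≤ p ^ 2 := Nat.one_le_pow _ _ (by omega)
    omega
  have h10 : 1 ≤ 3 ^ C * p ^ (2 * C) :=
    Nat.one_le_iff_ne_zero.2 (Nat.mul_ne_zero (pow_ne_zero _ (by norm_num))
      (pow_ne_zero _ (by omega)))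
  have h11 : C * (2 * p ^ 2 + 1) ^ C ≤ C * (3 ^ C * p ^ (2 * C)) := Nat.mul_le_mul_left _ h9
  have h12 : 8 * (C + 1) * 3 ^ C * p ^ (2 * C) = 8 * (C * (3 ^ C * p ^ (2 * C)))
      + 8 * (3 ^ C * p ^ (2 * C)) := by ring
  omega

/-- The negation of the preceding statement: There is a constant C such that for all graphs X, Y on n vertices, if the friends-and-strangers graph of X and Y is connected then its diameter is at most C·(n+1)^C. -/
theorem result :
    ¬ (∃ C : ℕ, ∀ n : ℕ, ∀ X Y : SimpleGraph (Fin n),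
      (SimpleGraph.fromRel (fun σ τ : Equiv.Perm (Fin n) =>
          ∃ a b : Fin n, X.Adj a b ∧ Y.Adj (σ a) (σ b) ∧ τ = σ * Equiv.swap a b)).Connected →
      (SimpleGraph.fromRel (fun σ τ : Equiv.Perm (Fin n) =>
          ∃ a b : Fin n, X.Adj a b ∧ Y.Adj (σ a) (σ b) ∧ τ = σ * Equiv.swap a b)).diam
        ≤ C * (n + 1) ^ C) := by
  rintro ⟨C, hC⟩
  obtain ⟨p, hp, h2, hlt⟩ := arith C
  have : Fact p.Prime := ⟨hp⟩
  obtain ⟨X, Y, hconn, hdiam⟩ := exists_large p h2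
  have h := hC (2 * p ^ 2) X Y hconn
  omega

end Pool.Agent.S10836
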