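-- Disproof: C_d grows subexponentially (at most 2^(O(d^(2/3) log^2 d)) for d = 8^a): the labelled disjoint families
-- behind the starting file S08592 are blown up to k-piercing partitions with at most (M + 1) k boxes,
-- M = 2^(4^a (5a^2+24a+3)) in dimension d = 8^a.
import Pool.Statements.S10994
import Pool.Agent.TH364.Pierce

set_option autoImplicit false
open Pool Pool.MP_b75ab8_co

namespace Pool.Agent.S10994

open Pool.Agent.TH364.Pierce

/-- The concrete family in dimension `8^a`. -/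
theorem fam (a : ℕ) (ha : 1 ≤ a) : HasFam (Fin (8 ^ a)) (2 ^ (4 ^ a * (5 * a ^ 2 + 24 * a + 3))) := by
  classical
  obtain ⟨p, hpr, hp1, hp2⟩ := Nat.exists_prime_lt_and_le_two_mul (2 ^ (4 * a)) (by positivity)
  have : Fact p.Prime := ⟨hpr⟩
  obtain ⟨k, hk⟩ : ∃ k : ℕ, k + 1 = 2 ^ a := ⟨2 ^ a - 1, Nat.sub_add_cancel Nat.one_le_two_pow⟩
  have h2a : 2 ≤ 2 ^ a := by
    calc 2 = 2 ^ 1 := by norm_num
      _ ≤ 2 ^ a := Nat.pow_le_pow_right (by norm_num) ha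
  have hk1 : 1 ≤ k := by omega
  have e4 : (4 : ℕ) ^ a = 2 ^ a * 2 ^ a := by
    rw [← Nat.mul_pow]
  have e8 : (8 : ℕ) ^ a = 4 ^ a * 2 ^ a := by
    rw [← Nat.mul_pow]
  have e16 : (2 : ℕ) ^ (4 * a) = (2 ^ a * 2 ^ a) * (2 ^ a * 2 ^ a) := by
    rw [← pow_add, ← pow_add]
    congr 1
    ring
  have hp16 : (k + 1) * (k + 1) * ((k + 1) * (k + 1)) < p := by
    rw [hk, ← e16]
    exact hp1
  have hpk : ((k + 1) * (k + 1) * k) * k < p := by
    refine lt_of_le_of_lt ?_ hp16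
    nlinarith [Nat.zero_le k, Nat.zero_le ((k+1)*(k+1))]
  have hkp : k < p := by
    refine lt_of_le_of_lt ?_ hpk
    nlinarith [Nat.mul_le_mul hk1 hk1, Nat.mul_le_mul (Nat.le_add_left 1 k) (Nat.le_add_left 1 k)]
  have hp3 : p ≠ 2 := by
    intro h
    rw [h] at hp16
    nlinarith [Nat.mul_le_mul hk1 hk1]
  have hr : k + 1 < 2 ^ (a + 1) := by
    rw [hk]
    exact Nat.pow_lt_pow_right (by norm_num) (Nat.lt_succ_self a)
  have hd : 4 ^ a * (k + 1) = 8 ^ a := by rw [hk, e8]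
  have key := family_of_gadget (Base := Pool.Agent.S08592.Base p k)
    (Ev := Pool.Agent.S08592.Ev p (k + 1) (a + 1)) (k + 1) (4 ^ a) (8 ^ a) (by omega)
    (Nat.one_le_pow _ _ (by norm_num)) (le_of_eq hd)
    Pool.Agent.S08592.dom (Pool.Agent.S08592.dom_antisymm hp3) (Pool.Agent.S08592.dom_exists hp3 hkp)
    Pool.Agent.S08592.side (fun D => D.2.2) Pool.Agent.S08592.side_leader
    (Pool.Agent.S08592.side_exists hp3 (by omega) hr hpk)
  refine key.congr ((finProdFinEquiv).trans (finCongr hd)) ?_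
  simp only [Pool.Agent.S08592.Base, Pool.Agent.S08592.Ev, Fintype.card_prod, Fintype.card_fun,
    Fintype.card_fin, ZMod.card]
  have hp2' : p ≤ 2 ^ (4 * a + 1) := by
    rw [pow_succ]
    omega
  rw [hd, hk]
  have e8' : (8 : ℕ) ^ a = 2 ^ (3 * a) := by
    rw [pow_mul]
    norm_num
  calc 8 ^ a * (p ^ k * (p ^ k) ^ k * (8 ^ a * ((8 ^ a) ^ 4 ^ a *
        (p * ((2 ^ a * p) ^ (a + 1) * 2 ^ a)) ^ 4 ^ a)))
      ≤ 2 ^ (3 * a) * (((2 ^ (4 * a + 1)) ^ k * ((2 ^ (4 * a + 1)) ^ k) ^ k) * (2 ^ (3 * a) *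
        ((2 ^ (3 * a)) ^ 4 ^ a *
        (2 ^ (4 * a + 1) * ((2 ^ a * 2 ^ (4 * a + 1)) ^ (a + 1) * 2 ^ a)) ^ 4 ^ a))) := by
          rw [e8']
          gcongr
    _ = 2 ^ (3 * a + (((4 * a + 1) * k + (4 * a + 1) * k * k) + (3 * a + (3 * a * 4 ^ a +
        ((4 * a + 1) + ((a + (4 * a + 1)) * (a + 1) + a)) * 4 ^ a)))) := by
          simp only [← pow_mul, ← pow_add]
    _ ≤ 2 ^ (4 ^ a * (5 * a ^ 2 + 24 * a + 3)) := by
          apply Nat.pow_le_pow_right (by norm_num)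
          have h4 : 1 ≤ 4 ^ a := Nat.one_le_pow _ _ (by norm_num)
          have hkk : k + k * k ≤ 4 ^ a := by
            rw [e4, ← hk]
            nlinarith
          have h6 : 6 * a ≤ 6 * a * 4 ^ a := Nat.le_mul_of_pos_right _ h4
          have h7 : (4 * a + 1) * (k + k * k) ≤ (4 * a + 1) * 4 ^ a := Nat.mul_le_mul_left _ hkk
          nlinarith

theorem growth (c : ℝ) (hc : 1 < c) (D : ℕ) : ∃ a : ℕ, 1 ≤ a ∧ D ≤ 8 ^ a ∧
    ((2 : ℝ) ^ (4 ^ a * (5 * a ^ 2 + 24 * a + 3)) + 1) < c ^ (8 ^ a) := by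
  obtain ⟨m0, hm0⟩ := pow_unbounded_of_one_lt 2 hc
  have hm1 : 1 ≤ m0 := by
    rcases Nat.eq_zero_or_pos m0 with h | h
    · rw [h, pow_zero] at hm0
      norm_num at hm0
    · exact h
  have ht := tendsto_pow_const_div_const_pow_of_one_lt 2 (r := (2 : ℝ)) (by norm_num)
  have hev : ∀ᶠ n : ℕ in Filter.atTop, (n : ℝ) ^ 2 / 2 ^ n < 1 / (33 * m0) := by
    apply ht.eventually_lt_const
    have : (0 : ℝ) < m0 := by exact_mod_cast hm1
    positivity
  obtain ⟨a, ha⟩ := (hev.and (Filter.eventually_ge_atTop (max 1 D))).exists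
  obtain ⟨ha1, ha2⟩ := ha
  have ha3 : 1 ≤ a := (le_max_left _ _).trans ha2
  have ha4 : D ≤ a := (le_max_right _ _).trans ha2
  refine ⟨a, ha3, ha4.trans ?_, ?_⟩
  · exact (Nat.lt_pow_self (by norm_num)).le
  · have hm0pos : (0 : ℝ) < m0 := by exact_mod_cast hm1
    have h1 : (33 : ℝ) * m0 * a ^ 2 ≤ 2 ^ a := by
      rw [div_lt_div_iff₀ (by positivity) (by positivity)] at ha1
      linarith
    have h2 : 33 * m0 * a ^ 2 ≤ 2 ^ a := by exact_mod_cast h1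
    have h3 : m0 * (5 * a ^ 2 + 24 * a + 4) ≤ 2 ^ a := by
      refine le_trans ?_ h2
      have : 5 * a ^ 2 + 24 * a + 4 ≤ 33 * a ^ 2 := by nlinarith
      calc m0 * (5 * a ^ 2 + 24 * a + 4) ≤ m0 * (33 * a ^ 2) := Nat.mul_le_mul_left _ this
        _ = _ := by ring
    have e8 : (8 : ℕ) ^ a = 4 ^ a * 2 ^ a := by
      rw [← Nat.mul_pow]
    have h4 : 1 ≤ 4 ^ a := Nat.one_le_pow _ _ (by norm_num)
    have h5 : m0 * (4 ^ a * (5 * a ^ 2 + 24 * a + 4)) ≤ 8 ^ a := by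
      rw [e8]
      calc m0 * (4 ^ a * (5 * a ^ 2 + 24 * a + 4)) = 4 ^ a * (m0 * (5 * a ^ 2 + 24 * a + 4)) := by ring
        _ ≤ _ := Nat.mul_le_mul_left _ h3
    calc (2 : ℝ) ^ (4 ^ a * (5 * a ^ 2 + 24 * a + 3)) + 1
        < (2 : ℝ) ^ (4 ^ a * (5 * a ^ 2 + 24 * a + 3)) * 2 + 1 * 1 := by
          have : (0 : ℝ) < (2 : ℝ) ^ (4 ^ a * (5 * a ^ 2 + 24 * a + 3)) := by positivity
          linarith
      _ ≤ (2 : ℝ) ^ (4 ^ a * (5 * a ^ 2 + 24 * a + 3)) * 2 ^ (4 ^ a) := by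
          have h6 : (1 : ℝ) ≤ (2 : ℝ) ^ (4 ^ a * (5 * a ^ 2 + 24 * a + 3)) := one_le_pow₀ (by norm_num)
          have h7 : (4 : ℝ) ≤ 2 ^ (4 ^ a) := by
            have h8 : 2 ≤ 4 ^ a := by
              calc 2 ≤ 4 ^ 1 := by norm_num
                _ ≤ 4 ^ a := Nat.pow_le_pow_right (by norm_num) ha3
            calc (4 : ℝ) = 2 ^ 2 := by norm_num
              _ ≤ 2 ^ (4 ^ a) := pow_le_pow_right₀ (by norm_num) h8
          nlinarith
      _ = (2 : ℝ) ^ (4 ^ a * (5 * a ^ 2 + 24 * a + 4)) := by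
          rw [← pow_add]
          congr 1
      _ ≤ (c ^ m0) ^ (4 ^ a * (5 * a ^ 2 + 24 * a + 4)) := by
          gcongr
      _ = c ^ (m0 * (4 ^ a * (5 * a ^ 2 + 24 * a + 4))) := by rw [← pow_mul]
      _ ≤ c ^ (8 ^ a) := pow_le_pow_right₀ hc.le h5

/-- The negation of the preceding statement: There is c>1 such that for all large d and all large k, for all large n, every partition of [n]^d into nonempty boxes in which every axis-parallel line meets at least k boxes has at least c^d·k boxes. -/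
theorem result :
    ¬ (∃ c : ℝ, 1 < c ∧ ∃ D : ℕ, ∀ d : ℕ, D ≤ d → ∃ K : ℕ, ∀ k : ℕ, K ≤ k →
      ∃ N : ℕ, ∀ n : ℕ, N ≤ n →
        ∀ P : Finset (Fin d → Finset (Fin n)),
          (∀ B ∈ P, ∀ i : Fin d, (B i).Nonempty) →
          (∀ x : Fin d → Fin n, ∃! B, B ∈ P ∧ ∀ i : Fin d, x i ∈ B i) →
          (∀ i : Fin d, ∀ a : Fin d → Fin n,
              k ≤ (P.filter (fun B => ∃ t : Fin n, ∀ j : Fin d,
                    Function.update a i t j ∈ B j)).card) →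
          c ^ d * (k : ℝ) ≤ (P.card : ℝ)) := by
  rintro ⟨c, hc, D, H⟩
  obtain ⟨a, ha1, ha2, ha3⟩ := growth c hc D
  obtain ⟨K, hK⟩ := H _ ha2
  obtain ⟨K', hK'⟩ := partitions_of_fam (fam a ha1)
  obtain ⟨N, hN⟩ := hK (max K (max K' 1)) (le_max_left _ _)
  have hk1 : 1 ≤ max K (max K' 1) := (le_max_right _ _).trans (le_max_right _ _)
  obtain ⟨n, hn, P, hP1, hP2, hP3, hP4⟩ := hK' (max K (max K' 1))
    ((le_max_left _ _).trans (le_max_right _ _)) hk1 N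
  have h := hN n hn P hP1 hP2 (by intro i a; convert hP3 i a)
  have h1 : (P.card : ℝ) ≤ ((2 : ℝ) ^ (4 ^ a * (5 * a ^ 2 + 24 * a + 3)) + 1) *
      ((max K (max K' 1) : ℕ) : ℝ) := by
    exact_mod_cast hP4
  have h2 : (0 : ℝ) < ((max K (max K' 1) : ℕ) : ℝ) := by exact_mod_cast hk1
  have h3 := mul_lt_mul_of_pos_right ha3 h2
  linarith

end Pool.Agent.S10994
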