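import Pool.Statements.S11006
import Pool.Agent.TH373.Oct
import Pool.Agent.TH373.OctCount

set_option autoImplicit false
open Pool Pool.MP_b7cbb2_co
open scoped Pointwise

namespace Pool.Agent.S11006

open Pool.Agent.TH373.Oct

/-- cyclic permutation matrices -/
def M (a : ZMod 3) : Matrix (Fin 3) (Fin 3) ℤ :=
  if a = 0 then 1 else if a = 1 then !![0,0,1;1,0,0;0,1,0] else !![0,1,0;0,0,1;1,0,0]

theorem M_add : ∀ a b : ZMod 3, M (a + b) = M a * M b := by decide

/-- the group with three elements -/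
abbrev G3 := Multiplicative (ZMod 3)

/-- the action -/
def rhoM : G3 →* Matrix (Fin 3) (Fin 3) ℤ where
  toFun g := M g.toAdd
  map_one' := by decide
  map_mul' a b := M_add a.toAdd b.toAdd

/-- the action by invertible matrices -/
def rho : G3 →* Matrix.GeneralLinearGroup (Fin 3) ℤ := rhoM.toHomUnits

theorem rho_coe (g : G3) : ((rho g : Matrix.GeneralLinearGroup (Fin 3) ℤ) :
    Matrix (Fin 3) (Fin 3) ℤ) = M g.toAdd := rfl

theorem V_inv : ∀ a : ZMod 3, ∀ v ∈ V, Matrix.mulVec (M a) v ∈ V := by decide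

theorem M_zero : M 0 = 1 := by decide
theorem M_one : M 1 = !![0,0,1;1,0,0;0,1,0] := by decide
theorem M_two : M 2 = !![0,1,0;0,0,1;1,0,0] := by decide

theorem det_zero : Matrix.det (1 - (Polynomial.X : Polynomial ℤ) • (M 0).map Polynomial.C)
    = (1 - Polynomial.X) ^ 3 := by
  rw [M_zero, Matrix.det_fin_three]
  simp
  ring

theorem det_one : Matrix.det (1 - (Polynomial.X : Polynomial ℤ) • (M 1).map Polynomial.C)
    = 1 - Polynomial.X ^ 3 := by
  rw [M_one, Matrix.det_fin_three]
  simp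
  ring

theorem det_two : Matrix.det (1 - (Polynomial.X : Polynomial ℤ) • (M 2).map Polynomial.C)
    = 1 - Polynomial.X ^ 3 := by
  rw [M_two, Matrix.det_fin_three]
  simp
  ring

theorem fix_zero (x : Fin 3 → ℤ) : Matrix.mulVec (M 0) x = x := by
  rw [M_zero, Matrix.one_mulVec]

theorem fix_one (x : Fin 3 → ℤ) : Matrix.mulVec (M 1) x = x ↔ x 0 = x 1 ∧ x 1 = x 2 := by
  rw [M_one]
  constructor
  · intro h
    have h0 := congrFun h 0
    have h1 := congrFun h 1
    simp [Matrix.mulVec, dotProduct, Fin.sum_univ_succ] at h0 h1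
    omega
  · rintro ⟨h0, h1⟩
    funext i
    fin_cases i <;> simp [Matrix.mulVec, dotProduct, Fin.sum_univ_succ] <;> omega

theorem fix_two (x : Fin 3 → ℤ) : Matrix.mulVec (M 2) x = x ↔ x 0 = x 1 ∧ x 1 = x 2 := by
  rw [M_two]
  constructor
  · intro h
    have h0 := congrFun h 0
    have h1 := congrFun h 1
    simp [Matrix.mulVec, dotProduct, Fin.sum_univ_succ] at h0 h1
    omega
  · rintro ⟨h0, h1⟩
    funext i
    fin_cases i <;> simp [Matrix.mulVec, dotProduct, Fin.sum_univ_succ] <;> omega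

/-- the equivariant series -/
noncomputable def Phi (g : G3) : PowerSeries ℤ :=
  PowerSeries.mk (fun m : ℕ =>
          ((Set.ncard {x : Fin 3 → ℤ |
              (fun j => ((x j : ℤ) : ℝ)) ∈ (m : ℝ) • P ∧
              Matrix.mulVec (rho g : Matrix (Fin 3) (Fin 3) ℤ) x = x} : ℕ) : ℤ))
        * (1 - PowerSeries.X)
        * ((Matrix.det (1 - (Polynomial.X : Polynomial ℤ) •
              (M g.toAdd).map Polynomial.C) : Polynomial ℤ) : PowerSeries ℤ)

theorem set_one (m : ℕ) : {x : Fin 3 → ℤ |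
              (fun j => ((x j : ℤ) : ℝ)) ∈ (m : ℝ) • P ∧
              Matrix.mulVec (M 0) x = x} = L m := by
  ext x
  simp only [Set.mem_ofPred_eq, fix_zero, and_true]
  exact mem_smul_P m x

theorem Phi_one : Phi 1 =
    PowerSeries.mk (fun n => if n = 0 then 1 else if n = 1 then 2 else if n = 2 then 1 else 0) := by
  unfold Phi
  rw [toAdd_one, det_zero]
  rw [← series_one (fun m : ℕ => ((L m).ncard : ℤ)) (fun m => ncard_L m)]
  congr 1
  · congr 2
    funext m
    rw [rho_coe, toAdd_one, set_one]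
  · push_cast
    rfl

theorem Phi_of_fix (g : G3) (hd : Matrix.det (1 - (Polynomial.X : Polynomial ℤ) •
    (M g.toAdd).map Polynomial.C) = 1 - Polynomial.X ^ 3)
    (hf : ∀ x : Fin 3 → ℤ, Matrix.mulVec (M g.toAdd) x = x ↔ x 0 = x 1 ∧ x 1 = x 2) : Phi g =
    PowerSeries.mk (fun n => if n = 0 then 1 else if n = 1 then -1 else if n = 2 then 1 else 0) := by
  unfold Phi
  rw [hd]
  rw [← series_two (fun m : ℕ => ((L1 m).ncard : ℤ)) (fun m => by rw [ncard_L1])]
  congr 1
  · congr 2
    funext m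
    rw [rho_coe]
    congr 2
    ext x
    simp only [Set.mem_ofPred_eq, hf]
    exact and_congr_left' (mem_smul_P m x)
  · push_cast
    rfl

theorem span_top : vectorSpan ℝ P = ⊤ := by
  rw [P_eq_Q]
  have key : ∀ i : Fin 3, (Pi.single i (1 : ℝ) : Fin 3 → ℝ) ∈ vectorSpan ℝ Q := by
    intro i
    have h1 : (fun _ => (2 / 3 : ℝ) : Fin 3 → ℝ) - (fun j => if j = i then 0 else (2 / 3 : ℝ)) ∈
        vectorSpan ℝ Q := by
      apply vsub_mem_vectorSpan ℝ
      · refine ⟨fun _ => by norm_num, fun _ => by norm_num, by norm_num, by norm_num⟩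
      · refine ⟨fun j => ?_, fun j => ?_, ?_, ?_⟩
        · dsimp only; split_ifs <;> norm_num
        · dsimp only; split_ifs <;> norm_num
        · fin_cases i <;> simp [Fin.ext_iff] <;> norm_num
        · fin_cases i <;> simp [Fin.ext_iff] <;> norm_num
    have h2 : (Pi.single i (1 : ℝ) : Fin 3 → ℝ) =
        (3 / 2 : ℝ) • ((fun _ => (2 / 3 : ℝ) : Fin 3 → ℝ) -
          (fun j => if j = i then 0 else (2 / 3 : ℝ))) := by
      funext j
      by_cases hj : j = i
      · subst hj; simp
      · simp [hj]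
    rw [h2]
    exact Submodule.smul_mem _ _ h1
  rw [eq_top_iff]
  intro x _
  have : x = ∑ i, x i • (Pi.single i (1 : ℝ) : Fin 3 → ℝ) := by
    funext j
    simp [Finset.sum_apply, Pi.single_apply]
  rw [this]
  exact Submodule.sum_mem _ fun i _ => Submodule.smul_mem _ _ (key i)

/-- The negation of the preceding statement: For any finite group acting linearly on Z^n and invariant lattice polytope P whose equivariant h*-series is a polynomial, every coefficient with positive h*_i has nonzero sum over the group, i.e. contains the trivial representation. -/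
theorem result :
    ¬ (∀ (G : Type) [Group G] [Fintype G] (n : ℕ)
      (ρ : G →* Matrix.GeneralLinearGroup (Fin n) ℤ)
      (V : Finset (Fin n → ℤ)) (P : Set (Fin n → ℝ)),
      V.Nonempty →
      (∀ g : G, ∀ v ∈ V,
        Matrix.mulVec (ρ g : Matrix (Fin n) (Fin n) ℤ) v ∈ V) →
      P = convexHull ℝ
        ((fun v : Fin n → ℤ => fun j => ((v j : ℤ) : ℝ)) '' (V : Set (Fin n → ℤ))) →
      ∀ (d : ℕ) (ι : (Fin d → ℤ) →ₗ[ℤ] (Fin n → ℤ))
        (σ : G → Matrix (Fin d) (Fin d) ℤ) (Φ : G → PowerSeries ℤ),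
      Function.Injective ι →
      (∀ x : Fin n → ℤ,
        (∃ y : Fin d → ℤ, ι y = x) ↔
          (fun j => ((x j : ℤ) : ℝ)) ∈ vectorSpan ℝ P) →
      (∀ (g : G) (y : Fin d → ℤ),
        ι (Matrix.mulVec (σ g) y) =
          Matrix.mulVec (ρ g : Matrix (Fin n) (Fin n) ℤ) (ι y)) →
      (∀ g : G, Φ g =
        PowerSeries.mk (fun m : ℕ =>
          ((Set.ncard {x : Fin n → ℤ |
              (fun j => ((x j : ℤ) : ℝ)) ∈ (m : ℝ) • P ∧
              Matrix.mulVec (ρ g : Matrix (Fin n) (Fin n) ℤ) x = x} : ℕ) : ℤ))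
        * (1 - PowerSeries.X)
        * ((Matrix.det (1 - (Polynomial.X : Polynomial ℤ) •
              (σ g).map Polynomial.C) : Polynomial ℤ) : PowerSeries ℤ)) →
      (∃ N : ℕ, ∀ g : G, ∀ i : ℕ, N ≤ i →
        PowerSeries.coeff (R := ℤ) i (Φ g) = 0) →
      ∀ i : ℕ, 0 < PowerSeries.coeff (R := ℤ) i (Φ 1) →
        (∑ g : G, PowerSeries.coeff (R := ℤ) i (Φ g)) ≠ 0) := by
  intro H
  have hP1 : Phi (Multiplicative.ofAdd 1) = PowerSeries.mk
      (fun n => if n = 0 then 1 else if n = 1 then -1 else if n = 2 then 1 else 0) :=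
    Phi_of_fix _ det_one fix_one
  have hP2 : Phi (Multiplicative.ofAdd 2) = PowerSeries.mk
      (fun n => if n = 0 then 1 else if n = 1 then -1 else if n = 2 then 1 else 0) :=
    Phi_of_fix _ det_two fix_two
  have hcase : ∀ g : G3, g = 1 ∨ g = Multiplicative.ofAdd 1 ∨ g = Multiplicative.ofAdd 2 := by
    decide
  have h := H G3 3 rho V P ⟨_, vt_mem 0⟩ (fun g v hv => V_inv g.toAdd v hv) rfl 3 LinearMap.id
    (fun g => M g.toAdd) Phi (fun a b h => h)
    (fun x => ⟨fun _ => by rw [span_top]; trivial, fun _ => ⟨x, rfl⟩⟩)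
    (fun g y => rfl) (fun g => rfl)
    ⟨3, fun g i hi => by
      rcases hcase g with rfl | rfl | rfl
      · rw [Phi_one, PowerSeries.coeff_mk]
        rw [if_neg (by omega), if_neg (by omega), if_neg (by omega)]
      · rw [hP1, PowerSeries.coeff_mk]
        rw [if_neg (by omega), if_neg (by omega), if_neg (by omega)]
      · rw [hP2, PowerSeries.coeff_mk]
        rw [if_neg (by omega), if_neg (by omega), if_neg (by omega)]⟩
    1 (by rw [Phi_one]; simp)
  apply h
  have huniv : (Finset.univ : Finset G3) = {1, Multiplicative.ofAdd 1, Multiplicative.ofAdd 2} := by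
    decide
  rw [huniv, Finset.sum_insert (by decide), Finset.sum_insert (by decide), Finset.sum_singleton,
    Phi_one, hP1, hP2]
  simp

end Pool.Agent.S11006
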