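import Pool.Statements.S11222

/-!
# A perfect transitive tournament tiling threshold: the conjectured value fails for `k = 4`

`reg(4) = 7`.  Take the blow-up of the Paley tournament on seven vertices in which six classes are independent
sets of size `5 t`, the seventh class `Z` has size `11 t`, and add a set `Y` of `6 t` vertices, joined to the
six small classes so that in- and outdegrees are balanced.  Weight `0` on the six classes, `1` on `Z` and `2`
on `Y`: every transitive tournament on four vertices has weight at least `2`, but the total weight is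
`23 t < 2 * (47 t / 4)`.  The minimum semidegree is `21 t`, and `21 / 47 > 25 / 56`.
-/

set_option autoImplicit false
open Pool Pool.MP_c11f96_co

namespace Pool.Agent.S11222

/-- the Paley tournament on seven vertices, as a relation on naturals below 7 -/
def P7 (a b : ℕ) : Bool := (b + 7 - a) % 7 == 1 || (b + 7 - a) % 7 == 2 || (b + 7 - a) % 7 == 4

/-- class of a residue modulo 47 -/
def cls (x : ℕ) : ℕ := if x < 30 then x / 5 else if x < 41 then 6 else 7

/-- arcs between residues modulo 47 -/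
def R (x y : ℕ) : Bool :=
  if cls x ≤ 6 ∧ cls y ≤ 6 ∧ cls x ≠ cls y then P7 (cls x) (cls y)
  else if cls x = 6 ∧ cls y = 6 then
    decide (1 ≤ (y + 11 - x) % 11 ∧ (y + 11 - x) % 11 ≤ 5)
  else if cls x = 7 ∧ cls y = 7 then
    decide ((1 ≤ (y + 6 - x) % 6 ∧ (y + 6 - x) % 6 ≤ 2) ∨ ((y + 6 - x) % 6 = 3 ∧ x < y))
  else if cls x = 7 ∧ cls y ≤ 5 then P7 (cls y) 6
  else if cls x ≤ 5 ∧ cls y = 7 then P7 6 (cls x)
  else if cls x = 6 ∧ cls y = 7 then decide ((x + y) % 2 = 0)
  else if cls x = 7 ∧ cls y = 6 then decide ((x + y) % 2 = 1)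
  else false

/-- the weight of a residue -/
def wt (x : ℕ) : ℕ := if x < 30 then 0 else if x < 41 then 1 else 2

theorem R_asymm : ∀ x < 47, ∀ y < 47, R x y = true → R y x = false := by decide +kernel

theorem R_irrefl : ∀ x < 47, R x x = false := by decide +kernel

theorem R_out : ∀ x < 47, 21 ≤ ∑ y ∈ Finset.range 47, (if R x y = true then 1 else 0) := by
  decide +kernel

theorem R_in : ∀ x < 47, 21 ≤ ∑ y ∈ Finset.range 47, (if R y x = true then 1 else 0) := by
  decide +kernel

theorem R_cls : ∀ x < 47, ∀ y < 47, R x y = true → wt x + wt y ≤ 1 →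
    P7 (cls x) (cls y) = true := by decide +kernel

theorem cls_lt : ∀ x < 47, wt x ≤ 1 → cls x < 7 := by decide +kernel

theorem wt_sum : ∑ y ∈ Finset.range 47, wt y = 23 := by decide +kernel

theorem P7_free : ∀ a < 7, ∀ b < 7, ∀ c < 7, ∀ d < 7,
    (P7 a b && P7 a c && P7 a d && P7 b c && P7 b d && P7 c d) = false := by decide +kernel

theorem P7_free' (a b c d : ℕ) (ha : a < 7) (hb : b < 7) (hc : c < 7) (hd : d < 7)
    (h1 : P7 a b = true) (h2 : P7 a c = true) (h3 : P7 a d = true) (h4 : P7 b c = true)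
    (h5 : P7 b d = true) (h6 : P7 c d = true) : False := by
  have h := P7_free a ha b hb c hc d hd
  rw [h1, h2, h3, h4, h5, h6] at h
  exact absurd h (by decide)

theorem sum_mod_gen (g : ℕ → ℕ) (m t : ℕ) :
    ∑ v ∈ Finset.range (m * t), g (v % m) = t * ∑ r ∈ Finset.range m, g r := by
  induction t with
  | zero => simp
  | succ t ih =>
    have e : m * (t + 1) = m * t + m := by ring
    rw [e, Finset.sum_range_add, ih, add_mul, one_mul]
    congr 1
    apply Finset.sum_congr rfl
    intro x hx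
    rw [Finset.mem_range] at hx
    rw [Nat.mul_add_mod, Nat.mod_eq_of_lt hx]

theorem sum_mod (g : ℕ → ℕ) (t : ℕ) :
    ∑ v ∈ Finset.range (47 * t), g (v % 47) = t * ∑ r ∈ Finset.range 47, g r :=
  sum_mod_gen g 47 t

theorem ncard_eq (n : ℕ) (p : ℕ → Bool) :
    ({w : Fin n | p (w.1 % 47) = true} : Set (Fin n)).ncard =
      ∑ v ∈ Finset.range n, (if p (v % 47) = true then 1 else 0) := by
  have h : ({w : Fin n | p (w.1 % 47) = true} : Set (Fin n)) =
      ((Finset.univ.filter (fun w : Fin n => p (w.1 % 47) = true) : Finset (Fin n)) : Set (Fin n)) := by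
    ext w; simp
  rw [h, Set.ncard_coe_finset, Finset.card_filter,
    Fin.sum_univ_eq_sum_range (fun v => if p (v % 47) = true then 1 else 0) n]

/-- four vertices which form a transitive tournament give a map from `Fin 4` -/
theorem mk_map {m : ℕ} (T : Fin m → Fin m → Prop) (hirr : ∀ x, ¬ T x x)
    (a b c d : Fin m) (h1 : T a b) (h2 : T a c) (h3 : T a d) (h4 : T b c) (h5 : T b d)
    (h6 : T c d) :
    ∃ f : Fin 4 → Fin m, Function.Injective f ∧ ∀ i j : Fin 4, i < j → T (f i) (f j) := by
  have key : ∀ i j : Fin 4, i < j → T (![a, b, c, d] i) (![a, b, c, d] j) := by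
    intro i j hij
    fin_cases i <;> fin_cases j <;> first | (exact absurd hij (by decide)) | simpa
  refine ⟨![a, b, c, d], ?_, key⟩
  intro i j hij
  rcases lt_trichotomy i j with h | h | h
  · exact absurd (hij ▸ key i j h) (hirr _)
  · exact h
  · exact absurd (hij ▸ key j i h) (hirr _)

/-- a tournament on four points contains a transitive triple -/
theorem triple {m : ℕ} (T : Fin m → Fin m → Prop) (hT : ∀ x y, x ≠ y → (T x y ∨ T y x))
    (S : Finset (Fin m)) (hS : 4 ≤ S.card) :
    ∃ x ∈ S, ∃ y ∈ S, ∃ z ∈ S, T x y ∧ T x z ∧ T y z := by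
  classical
  obtain ⟨S', hS', hc⟩ := Finset.exists_subset_card_eq hS
  obtain ⟨a, b, c, d, hab, hac, had, hbc, hbd, hcd, rfl⟩ := Finset.card_eq_four.1 hc
  have ha : a ∈ S := hS' (by simp)
  have hb : b ∈ S := hS' (by simp)
  have hc : c ∈ S := hS' (by simp)
  have hd : d ∈ S := hS' (by simp)
  have out : ∀ x ∈ S, ∀ y ∈ S, ∀ z ∈ S, y ≠ z → T x y → T x z →
      ∃ x ∈ S, ∃ y ∈ S, ∃ z ∈ S, T x y ∧ T x z ∧ T y z := by
    intro x hx y hy z hz hyz h1 h2
    rcases hT y z hyz with h | h
    · exact ⟨x, hx, y, hy, z, hz, h1, h2, h⟩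
    · exact ⟨x, hx, z, hz, y, hy, h2, h1, h⟩
  have inn : ∀ x ∈ S, ∀ y ∈ S, ∀ z ∈ S, y ≠ z → T y x → T z x →
      ∃ x ∈ S, ∃ y ∈ S, ∃ z ∈ S, T x y ∧ T x z ∧ T y z := by
    intro x hx y hy z hz hyz h1 h2
    rcases hT y z hyz with h | h
    · exact ⟨y, hy, z, hz, x, hx, h, h1, h2⟩
    · exact ⟨z, hz, y, hy, x, hx, h, h2, h1⟩
  rcases hT a b hab with h1 | h1 <;> rcases hT a c hac with h2 | h2 <;>
    rcases hT a d had with h3 | h3
  · exact out a ha b hb c hc hbc h1 h2
  · exact out a ha b hb c hc hbc h1 h2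
  · exact out a ha b hb d hd hbd h1 h3
  · exact inn a ha c hc d hd hcd h2 h3
  · exact out a ha c hc d hd hcd h2 h3
  · exact inn a ha b hb d hd hbd h1 h3
  · exact inn a ha b hb c hc hbc h1 h2
  · exact inn a ha b hb c hc hbc h1 h2

theorem reg4 : IsGreatest {m : ℕ | ∃ T : Fin m → Fin m → Prop,
          (∀ x, ¬ T x x) ∧
          (∀ x y, x ≠ y → (T x y ↔ ¬ T y x)) ∧
          (∀ v, Set.ncard {w | T v w} = Set.ncard {w | T w v}) ∧
          ¬ ∃ f : Fin 4 → Fin m, Function.Injective f ∧
              ∀ i j : Fin 4, i < j → T (f i) (f j)} 7 := by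
  constructor
  · refine ⟨fun a b => P7 a.1 b.1 = true, by decide, by decide, ?_, ?_⟩
    · have e1 : ∀ v : Fin 7, ({w | P7 v.1 w.1 = true} : Set (Fin 7)) =
          ((Finset.univ.filter (fun w : Fin 7 => P7 v.1 w.1 = true) : Finset (Fin 7)) : Set (Fin 7)) := by
        intro v; ext w; simp
      have e2 : ∀ v : Fin 7, ({w | P7 w.1 v.1 = true} : Set (Fin 7)) =
          ((Finset.univ.filter (fun w : Fin 7 => P7 w.1 v.1 = true) : Finset (Fin 7)) : Set (Fin 7)) := by
        intro v; ext w; simp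
      intro v
      rw [e1, e2, Set.ncard_coe_finset, Set.ncard_coe_finset]
      clear e1 e2
      revert v
      decide
    · rintro ⟨f, -, hf⟩
      exact P7_free' _ _ _ _ (f 0).2 (f 1).2 (f 2).2 (f 3).2 (hf 0 1 (by decide))
        (hf 0 2 (by decide)) (hf 0 3 (by decide)) (hf 1 2 (by decide)) (hf 1 3 (by decide))
        (hf 2 3 (by decide))
  · rintro m ⟨T, hirr, htour, hreg, hfree⟩
    by_contra hm
    push Not at hm
    classical
    let v : Fin m := ⟨0, by omega⟩
    have e1 : ({w | T v w} : Set (Fin m)) = ((Finset.univ.filter (fun w => T v w) : Finset (Fin m)) : Set (Fin m)) := by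
      ext w; simp
    have e2 : ({w | T w v} : Set (Fin m)) = ((Finset.univ.filter (fun w => T w v) : Finset (Fin m)) : Set (Fin m)) := by
      ext w; simp
    have h1 := hreg v
    rw [e1, e2, Set.ncard_coe_finset, Set.ncard_coe_finset] at h1
    have h2 : (Finset.univ.erase v) ⊆ (Finset.univ.filter (fun w => T v w)) ∪
        (Finset.univ.filter (fun w => T w v)) := by
      intro w hw
      rw [Finset.mem_erase] at hw
      rw [Finset.mem_union, Finset.mem_filter, Finset.mem_filter]
      by_cases h : T v w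
      · exact Or.inl ⟨Finset.mem_univ _, h⟩
      · exact Or.inr ⟨Finset.mem_univ _, (htour w v hw.1).2 h⟩
    have h3 := (Finset.card_le_card h2).trans (Finset.card_union_le _ _)
    rw [Finset.card_erase_of_mem (Finset.mem_univ v), Finset.card_univ, Fintype.card_fin] at h3
    obtain ⟨x, hx, y, hy, z, hz, h4, h5, h6⟩ := triple T (by
      intro x y hxy
      by_cases h : T x y
      · exact Or.inl h
      · exact Or.inr ((htour y x hxy.symm).2 h)) (Finset.univ.filter (fun w => T v w)) (by omega)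
    exact hfree (mk_map T hirr v x y z (by simpa using hx) (by simpa using hy) (by simpa using hz)
      h4 h5 h6)

/-- The negation of the preceding statement: For k≥4 with reg(k) the largest order of a regular tournament with no transitive k-subtournament, and any ε>0: every large oriented graph on n vertices, k∣n, semidegree ≥ (1/2−(k−1)/(2k·reg(k))+ε)n, splits into disjoint transitive k-tournaments. -/
theorem result :
    ¬ (∀ k : ℕ, 4 ≤ k → ∀ r : ℕ,
      IsGreatest {m : ℕ | ∃ T : Fin m → Fin m → Prop,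
          (∀ x, ¬ T x x) ∧
          (∀ x y, x ≠ y → (T x y ↔ ¬ T y x)) ∧
          (∀ v, Set.ncard {w | T v w} = Set.ncard {w | T w v}) ∧
          ¬ ∃ f : Fin k → Fin m, Function.Injective f ∧
              ∀ i j : Fin k, i < j → T (f i) (f j)} r →
      ∀ ε : ℝ, 0 < ε → ∃ n0 : ℕ, ∀ n : ℕ, n0 ≤ n → k ∣ n →
        ∀ G : Fin n → Fin n → Prop,
          (∀ x, ¬ G x x) →
          (∀ x y, G x y → ¬ G y x) →
          (∀ v, ((1:ℝ)/2 - ((k:ℝ) - 1) / (2 * (k:ℝ) * (r:ℝ)) + ε) * (n:ℝ)
                  ≤ (Set.ncard {w | G v w} : ℝ) ∧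
                ((1:ℝ)/2 - ((k:ℝ) - 1) / (2 * (k:ℝ) * (r:ℝ)) + ε) * (n:ℝ)
                  ≤ (Set.ncard {w | G w v} : ℝ)) →
          ∃ f : Fin (n / k) → Fin k → Fin n,
            Function.Bijective (fun p : Fin (n / k) × Fin k => f p.1 p.2) ∧
            ∀ t : Fin (n / k), ∀ i j : Fin k, i < j → G (f t i) (f t j)) := by
  intro H
  obtain ⟨n0, H⟩ := H 4 le_rfl 7 reg4 (1 / 2632) (by norm_num)
  set s := n0 + 1 with hs
  have hmod : ∀ v : Fin (47 * (4 * s)), v.1 % 47 < 47 := fun v => Nat.mod_lt _ (by norm_num)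
  obtain ⟨f, hbij, hf⟩ := H (47 * (4 * s)) (by omega) ⟨47 * s, by ring⟩
    (fun u v => R (u.1 % 47) (v.1 % 47) = true)
    (by
      intro x hx
      rw [R_irrefl _ (hmod x)] at hx
      exact Bool.false_ne_true hx)
    (by
      intro x y h1 h2
      rw [R_asymm _ (hmod x) _ (hmod y) h1] at h2
      exact Bool.false_ne_true h2)
    (by
      intro v
      have e1 := ncard_eq (47 * (4 * s)) (fun w => R (v.1 % 47) w)
      have e2 := ncard_eq (47 * (4 * s)) (fun w => R w (v.1 % 47))
      rw [sum_mod (fun w => if R (v.1 % 47) w = true then 1 else 0)] at e1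
      rw [sum_mod (fun w => if R w (v.1 % 47) = true then 1 else 0)] at e2
      have f1 := Nat.mul_le_mul_left (4 * s) (R_out _ (hmod v))
      have f2 := Nat.mul_le_mul_left (4 * s) (R_in _ (hmod v))
      rw [← e1] at f1
      rw [← e2] at f2
      have g1 : ((4 * s * 21 : ℕ) : ℝ) ≤
          (Set.ncard {w : Fin (47 * (4 * s)) | R (v.1 % 47) (w.1 % 47) = true} : ℝ) := by
        exact_mod_cast f1
      have g2 : ((4 * s * 21 : ℕ) : ℝ) ≤
          (Set.ncard {w : Fin (47 * (4 * s)) | R (w.1 % 47) (v.1 % 47) = true} : ℝ) := by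
        exact_mod_cast f2
      have e : ((1:ℝ)/2 - (((4 : ℕ):ℝ) - 1) / (2 * ((4 : ℕ):ℝ) * ((7 : ℕ):ℝ)) + 1 / 2632) *
          ((47 * (4 * s) : ℕ):ℝ) = ((4 * s * 21 : ℕ) : ℝ) := by
        push_cast
        ring
      rw [e]
      exact ⟨g1, g2⟩)
  -- total weight
  have hsum : ∑ p : Fin (47 * (4 * s) / 4) × Fin 4, wt ((f p.1 p.2).1 % 47) = 4 * s * 23 := by
    rw [hbij.sum_comp (fun v : Fin (47 * (4 * s)) => wt (v.1 % 47)),
      Fin.sum_univ_eq_sum_range (fun v => wt (v % 47)) (47 * (4 * s)), sum_mod wt, wt_sum]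
  have hge : ∀ t : Fin (47 * (4 * s) / 4), 2 ≤ ∑ i : Fin 4, wt ((f t i).1 % 47) := by
    intro t
    by_contra hlt
    push Not at hlt
    rw [Fin.sum_univ_four] at hlt
    have h := fun i j hij => hf t i j hij
    have c := fun i j (hij : i < j) => R_cls _ (hmod (f t i)) _ (hmod (f t j)) (h i j hij)
    have w0 := cls_lt _ (hmod (f t 0)) (by omega)
    have w1 := cls_lt _ (hmod (f t 1)) (by omega)
    have w2 := cls_lt _ (hmod (f t 2)) (by omega)
    have w3 := cls_lt _ (hmod (f t 3)) (by omega)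
    exact P7_free' _ _ _ _ w0 w1 w2 w3 (c 0 1 (by decide) (by omega))
      (c 0 2 (by decide) (by omega)) (c 0 3 (by decide) (by omega)) (c 1 2 (by decide) (by omega))
      (c 1 3 (by decide) (by omega)) (c 2 3 (by decide) (by omega))
  rw [Fintype.sum_prod_type] at hsum
  have hle : ∑ _t : Fin (47 * (4 * s) / 4), 2 ≤
      ∑ t : Fin (47 * (4 * s) / 4), ∑ i : Fin 4, wt ((f t i).1 % 47) :=
    Finset.sum_le_sum (fun t _ => hge t)
  rw [Finset.sum_const, Finset.card_univ, Fintype.card_fin, smul_eq_mul] at hle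
  simp only at hsum
  rw [hsum] at hle
  omega

end Pool.Agent.S11222
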