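import Pool.Statements.S11238
import Pool.Agent.TH401.PermCount

set_option autoImplicit false
open Pool Pool.MP_c1e4cd_co

namespace Pool.Agent.S11238

open Finset Equiv Pool.Agent.TH401.PermCount

/-- The counterexample: `σ 0 ≤ t` or `σ 1 = 0`, in `S_{2t+1}`. -/
def fam (t : ℕ) (z o : Fin (2 * t + 1)) : Finset (Perm (Fin (2 * t + 1))) :=
  univ.filter fun σ => (σ z).val ≤ t ∨ σ o = z

lemma card_P (t : ℕ) (z : Fin (2 * t + 1)) :
    (univ.filter fun σ : Perm (Fin (2 * t + 1)) => (σ z).val ≤ t).card = (t + 1) * (2 * t).factorial := by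
  have h2 : (univ.filter fun σ : Perm (Fin (2 * t + 1)) => (σ z).val ≤ t).card
      = ∑ c ∈ univ.filter (fun c : Fin (2 * t + 1) => c.val ≤ t),
        ((univ.filter fun σ : Perm (Fin (2 * t + 1)) => (σ z).val ≤ t).filter
          fun σ => σ z = c).card := by
    apply Finset.card_eq_sum_card_fiberwise
    intro σ hσ
    simpa using hσ
  have h3 : ∀ c ∈ univ.filter (fun c : Fin (2 * t + 1) => c.val ≤ t),
      ((univ.filter fun σ : Perm (Fin (2 * t + 1)) => (σ z).val ≤ t).filter
          fun σ => σ z = c).card = (2 * t).factorial := by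
    intro c hc
    rw [Finset.filter_filter]
    have h4 : (univ.filter fun σ : Perm (Fin (2 * t + 1)) => (σ z).val ≤ t ∧ σ z = c)
        = univ.filter fun σ : Perm (Fin (2 * t + 1)) => σ z = c := by
      apply Finset.filter_congr
      intro σ _
      constructor
      · exact fun h => h.2
      · intro h
        refine ⟨?_, h⟩
        rw [h]
        simpa using hc
    rw [h4]
    have h5 := card_fix z c
    rw [Nat.factorial_succ] at h5
    exact Nat.eq_of_mul_eq_mul_left (Nat.succ_pos _) h5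
  rw [h2, Finset.sum_congr rfl h3, Finset.sum_const]
  have h6 : (univ.filter (fun c : Fin (2 * t + 1) => c.val ≤ t)).card = t + 1 := by
    have : (univ.filter (fun c : Fin (2 * t + 1) => c.val ≤ t))
        = Finset.Iic (⟨t, by omega⟩ : Fin (2 * t + 1)) := by
      ext c
      simp [Fin.le_def]
    rw [this, Fin.card_Iic]
  rw [h6, smul_eq_mul]

lemma card_PQ (t : ℕ) (ht : 1 ≤ t) (z o : Fin (2 * t + 1)) (hz : z.val = 0) (hzo : o ≠ z) :
    2 * (univ.filter fun σ : Perm (Fin (2 * t + 1)) => (σ z).val ≤ t ∧ σ o = z).card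
      = (2 * t).factorial := by
  set B := univ.filter fun σ : Perm (Fin (2 * t + 1)) => (σ z).val ≤ t ∧ σ o = z with hB
  have h2 : B.card = ∑ c ∈ univ.filter (fun c : Fin (2 * t + 1) => 1 ≤ c.val ∧ c.val ≤ t),
        (B.filter fun σ => σ z = c).card := by
    apply Finset.card_eq_sum_card_fiberwise
    intro σ hσ
    simp only [hB, coe_filter, mem_univ, true_and, Set.mem_ofPred_eq] at hσ ⊢
    refine ⟨?_, hσ.1⟩
    by_contra h
    have h0 : σ z = z := by
      apply Fin.ext
      rw [hz]; omega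
    exact hzo (σ.injective (hσ.2.trans h0.symm))
  have hfix : (univ.filter fun σ : Perm (Fin (2 * t + 1)) => σ o = z).card = (2 * t).factorial := by
    have h5 := card_fix o z
    rw [Nat.factorial_succ] at h5
    exact Nat.eq_of_mul_eq_mul_left (Nat.succ_pos _) h5
  obtain ⟨y, hy⟩ : ∃ y, 2 * t * y = (2 * t).factorial ∧
      ∀ c ∈ univ.filter (fun c : Fin (2 * t + 1) => 1 ≤ c.val ∧ c.val ≤ t),
        (B.filter fun σ => σ z = c).card = y := by
    refine ⟨(2 * t - 1).factorial, ?_, ?_⟩
    · obtain ⟨k, rfl⟩ : ∃ k, t = k + 1 := ⟨t - 1, by omega⟩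
      have : 2 * (k + 1) = (2 * k + 1) + 1 := by ring
      rw [this, Nat.factorial_succ]
      rfl
    · intro c hc
      simp only [mem_filter, mem_univ, true_and] at hc
      have hcz : c ≠ z := by
        intro h
        rw [h, hz] at hc
        omega
      have h4 : (B.filter fun σ => σ z = c)
          = univ.filter fun σ : Perm (Fin (2 * t + 1)) => σ o = z ∧ σ z = c := by
        ext σ
        simp only [hB, mem_filter, mem_univ, true_and]
        constructor
        · rintro ⟨⟨_, h2⟩, h3⟩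
          exact ⟨h2, h3⟩
        · rintro ⟨h2, h3⟩
          exact ⟨⟨by rw [h3]; exact hc.2, h2⟩, h3⟩
      rw [h4]
      have h6 := card_fix2 (n := 2 * t + 1) hzo hcz
      rw [hfix] at h6
      have h7 : 2 * t + 1 - 1 = 2 * t := by omega
      rw [h7] at h6
      obtain ⟨k, rfl⟩ : ∃ k, t = k + 1 := ⟨t - 1, by omega⟩
      have h8 : (2 * (k + 1)).factorial = (2 * (k + 1)) * (2 * (k + 1) - 1).factorial := by
        have : 2 * (k + 1) = (2 * k + 1) + 1 := by ring
        rw [this, Nat.factorial_succ]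
        rfl
      rw [h8] at h6
      exact Nat.eq_of_mul_eq_mul_left (by omega) h6
  rw [h2, Finset.sum_congr rfl hy.2, Finset.sum_const]
  have h9 : (univ.filter (fun c : Fin (2 * t + 1) => 1 ≤ c.val ∧ c.val ≤ t)).card = t := by
    have : (univ.filter (fun c : Fin (2 * t + 1) => 1 ≤ c.val ∧ c.val ≤ t))
        = Finset.Icc (⟨1, by omega⟩ : Fin (2 * t + 1)) (⟨t, by omega⟩ : Fin (2 * t + 1)) := by
      ext c
      simp [Fin.le_def]
    rw [this, Fin.card_Icc]
    simp
  rw [h9, smul_eq_mul, ← hy.1]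
  ring

lemma card_fam (t : ℕ) (ht : 1 ≤ t) (z o : Fin (2 * t + 1)) (hz : z.val = 0) (hzo : o ≠ z) :
    2 * (fam t z o).card = (2 * t + 3) * (2 * t).factorial := by
  have h1 : (fam t z o).card + (univ.filter fun σ : Perm (Fin (2 * t + 1)) => (σ z).val ≤ t ∧ σ o = z).card
      = (univ.filter fun σ : Perm (Fin (2 * t + 1)) => (σ z).val ≤ t).card
        + (univ.filter fun σ : Perm (Fin (2 * t + 1)) => σ o = z).card := by
    unfold fam
    rw [Finset.filter_or, Finset.filter_and]
    exact Finset.card_union_add_card_inter _ _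
  have hfix : (univ.filter fun σ : Perm (Fin (2 * t + 1)) => σ o = z).card = (2 * t).factorial := by
    have h5 := card_fix o z
    rw [Nat.factorial_succ] at h5
    exact Nat.eq_of_mul_eq_mul_left (Nat.succ_pos _) h5
  have h2 := card_PQ t ht z o hz hzo
  rw [card_P, hfix] at h1
  nlinarith

/-- The negation of the preceding statement: Some C₀>0 works for all n≥1: if A⊆S_n, c=∣A∣/(n-1)!, and 1_A is within mean-square εc/n of the span of 1-coset indicators, then 1_A is within C₀εc/n of a union of round(c) distinct 1-cosets, and ∣c−round(c)∣≤C₀ε. -/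
theorem result :
    ¬ (∃ C₀ : ℝ, 0 < C₀ ∧ ∀ n : ℕ, 1 ≤ n → ∀ A : Finset (Equiv.Perm (Fin n)), ∀ ε : ℝ, 0 ≤ ε →
    (∃ a : Fin n → Fin n → ℝ,
      (1 / (n.factorial : ℝ)) * ∑ σ : Equiv.Perm (Fin n),
          ((if σ ∈ A then (1:ℝ) else 0) - ∑ i : Fin n, a i (σ i)) ^ 2
        ≤ ε * ((A.card : ℝ) / ((n - 1).factorial : ℝ)) / n) →
    ∃ S : Finset (Fin n × Fin n),
      (S.card : ℤ) = round ((A.card : ℝ) / ((n - 1).factorial : ℝ)) ∧
      (1 / (n.factorial : ℝ)) * ∑ σ : Equiv.Perm (Fin n),
          ((if σ ∈ A then (1:ℝ) else 0) - (if ∃ p ∈ S, σ p.1 = p.2 then (1:ℝ) else 0)) ^ 2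
        ≤ C₀ * ε * ((A.card : ℝ) / ((n - 1).factorial : ℝ)) / n ∧
      |(A.card : ℝ) / ((n - 1).factorial : ℝ)
          - ((round ((A.card : ℝ) / ((n - 1).factorial : ℝ)) : ℤ) : ℝ)| ≤ C₀ * ε) := by
  rintro ⟨C₀, hC₀, h⟩
  obtain ⟨t, ht⟩ := exists_nat_ge (max C₀ 1)
  have htC : C₀ ≤ t := (le_max_left _ _).trans ht
  have ht1 : 1 ≤ t := by
    have : (1 : ℝ) ≤ t := (le_max_right _ _).trans ht
    exact_mod_cast this
  set z : Fin (2 * t + 1) := ⟨0, by omega⟩ with hzdef
  set o : Fin (2 * t + 1) := ⟨1, by omega⟩ with hodef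
  have hz : z.val = 0 := rfl
  have hzo : o ≠ z := by
    intro h
    have := congrArg Fin.val h
    simp [hzdef, hodef] at this
  have hcard := card_fam t ht1 z o hz hzo
  have hpq := card_PQ t ht1 z o hz hzo
  set A := fam t z o with hA
  have hf : (0 : ℝ) < ((2 * t).factorial : ℝ) := by positivity
  have hc : (A.card : ℝ) / ((2 * t + 1 - 1).factorial : ℝ) = (t : ℝ) + 1 + 1 / 2 := by
    have h1 : 2 * t + 1 - 1 = 2 * t := by omega
    rw [h1, div_eq_iff hf.ne']
    have h2 : (2 : ℝ) * A.card = (2 * t + 3) * ((2 * t).factorial : ℝ) := by exact_mod_cast hcard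
    linarith
  have key := h (2 * t + 1) (by omega) A (1 / (2 * t + 3)) (by positivity) ?_
  · obtain ⟨S, _, _, h3⟩ := key
    rw [hc] at h3
    have h4 : round ((t : ℝ) + 1 + 1 / 2) = (t : ℤ) + 2 := by
      rw [round_eq]
      have : ((t : ℝ) + 1 + 1 / 2 + 1 / 2) = (((t : ℤ) + 2 : ℤ) : ℝ) := by
        push_cast; ring
      rw [this, Int.floor_intCast]
    rw [h4] at h3
    have h5 : |(t : ℝ) + 1 + 1 / 2 - (((t : ℤ) + 2 : ℤ) : ℝ)| = 1 / 2 := by
      have : (t : ℝ) + 1 + 1 / 2 - (((t : ℤ) + 2 : ℤ) : ℝ) = -(1 / 2) := by push_cast; ring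
      rw [this, abs_neg, abs_of_pos (by norm_num)]
    rw [h5] at h3
    have h6 : (0 : ℝ) < 2 * t + 3 := by positivity
    rw [mul_one_div, le_div_iff₀ h6] at h3
    nlinarith
  · refine ⟨fun i j => if i = z then (if j.val ≤ t then 1 else 0) else
      (if i = o then (if j = z then 1 else 0) else 0), ?_⟩
    rw [hc]
    have hsum : ∀ σ : Perm (Fin (2 * t + 1)),
        ((if σ ∈ A then (1:ℝ) else 0) - ∑ i : Fin (2 * t + 1), (fun i j : Fin (2 * t + 1) =>
          if i = z then (if j.val ≤ t then (1:ℝ) else 0) else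
          (if i = o then (if j = z then 1 else 0) else 0)) i (σ i)) ^ 2
        = if ((σ z).val ≤ t ∧ σ o = z) then 1 else 0 := by
      intro σ
      have hs : ∑ i : Fin (2 * t + 1), (fun i j : Fin (2 * t + 1) =>
          if i = z then (if j.val ≤ t then (1:ℝ) else 0) else
          (if i = o then (if j = z then 1 else 0) else 0)) i (σ i)
          = (if (σ z).val ≤ t then (1:ℝ) else 0) + (if σ o = z then 1 else 0) := by
        rw [Finset.sum_eq_add z o hzo.symm]
        · simp [hzo]
        · intro c _ hcc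
          simp [hcc.1, hcc.2]
        · intro h; exact absurd (mem_univ _) h
        · intro h; exact absurd (mem_univ _) h
      rw [hs, hA]
      simp only [fam, mem_filter, mem_univ, true_and]
      by_cases h1 : (σ z).val ≤ t <;> by_cases h2 : σ o = z <;> simp [h1, h2]
    rw [Finset.sum_congr rfl (fun σ _ => hsum σ), Finset.sum_boole]
    have h7 : (2 : ℝ) * ((univ.filter fun σ : Perm (Fin (2 * t + 1)) => (σ z).val ≤ t ∧ σ o = z).card : ℝ)
        = ((2 * t).factorial : ℝ) := by exact_mod_cast hpq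
    have h8 : (((2 * t + 1).factorial : ℕ) : ℝ) = (2 * t + 1) * ((2 * t).factorial : ℝ) := by
      rw [Nat.factorial_succ]; push_cast; ring
    rw [h8]
    have h9 : ((univ.filter fun σ : Perm (Fin (2 * t + 1)) => (σ z).val ≤ t ∧ σ o = z).card : ℝ)
        = ((2 * t).factorial : ℝ) / 2 := by linarith
    rw [h9]
    apply le_of_eq
    push_cast
    field_simp
    ring

end Pool.Agent.S11238
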