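import Pool.Statements.S11313
import Pool.Agent.TH161.KS.Full

set_option autoImplicit false
open Pool Pool.MP_c534e4_co

namespace Pool.Agent.S11313

/-- For every ε>0 there is W such that every finite poset with an antichain of size at least W has elements x, y where the fraction of linear extensions putting x before y, and the fraction putting y before x, are both at least 1/2 − ε. -/
theorem result :
    ∀ ε : ℝ, 0 < ε → ∃ W : ℕ, ∀ (α : Type) [Fintype α] [PartialOrder α],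
      (∃ s : Finset α, IsAntichain (· ≤ ·) (↑s : Set α) ∧ W ≤ s.card) →
      ∃ x y : α,
        (1 / 2 - ε) * ((Nat.card {σ : α ≃ Fin (Fintype.card α) // StrictMono ⇑σ} : ℕ) : ℝ)
          ≤ ((Nat.card {σ : α ≃ Fin (Fintype.card α) // StrictMono ⇑σ ∧ σ x < σ y} : ℕ) : ℝ) ∧
        (1 / 2 - ε) * ((Nat.card {σ : α ≃ Fin (Fintype.card α) // StrictMono ⇑σ} : ℕ) : ℝ)
          ≤ ((Nat.card {σ : α ≃ Fin (Fintype.card α) // StrictMono ⇑σ ∧ σ y < σ x} : ℕ) : ℝ) := by
  intro ε hε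
  obtain ⟨W, hW⟩ := Pool.Agent.TH161.KS.kahn_saks (min ε (1 / 2)) (lt_min hε (by norm_num))
    (min_le_right _ _)
  refine ⟨W, fun α _ _ ⟨s, hs, hWs⟩ => ?_⟩
  obtain ⟨x, y, -, h1, h2⟩ := hW α s hs hWs
  have h3 : (1 / 2 - ε) * ((Nat.card {σ : α ≃ Fin (Fintype.card α) // StrictMono ⇑σ} : ℕ) : ℝ) ≤
      (1 / 2 - min ε (1 / 2)) *
        ((Nat.card {σ : α ≃ Fin (Fintype.card α) // StrictMono ⇑σ} : ℕ) : ℝ) :=
    mul_le_mul_of_nonneg_right (by have := min_le_left ε (1 / 2); linarith) (by positivity)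
  exact ⟨x, y, h3.trans h1, h3.trans h2⟩

end Pool.Agent.S11313
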