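import Pool.Statements.S11352
import Pool.Agent.TH350.Segre

set_option autoImplicit false
open Pool Pool.MP_c6b127_co

namespace Pool.Agent.S11352

/-- The negation of the preceding statement: If a group acts by incidence-preserving maps on a finite generalised quadrangle of order (s,t), s,t≥1, primitively on points, then it is transitive on lines or has exactly two line orbits of equal size. -/
theorem result :
    ¬ (∀ (P L : Type) [Finite P] [Finite L] (I : P → L → Prop) (s t : ℕ),
      1 ≤ s → 1 ≤ t →
      (∀ l : L, Set.ncard {p : P | I p l} = s + 1) →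
      (∀ p : P, Set.ncard {l : L | I p l} = t + 1) →
      (∀ (p q : P) (l m : L), I p l → I q l → I p m → I q m → p = q ∨ l = m) →
      (∀ (p : P) (l : L), ¬ I p l → ∃! x : P × L, I p x.2 ∧ I x.1 x.2 ∧ I x.1 l) →
      ∀ (G : Type) [Group G] [MulAction G P] [MulAction G L],
        (∀ (g : G) (p : P) (l : L), I (g • p) (g • l) ↔ I p l) →
        MulAction.IsPreprimitive G P →
        (MulAction.IsPretransitive G L ∨
          ∃ l₁ l₂ : L, l₂ ∉ MulAction.orbit G l₁ ∧
            (∀ l : L, l ∈ MulAction.orbit G l₁ ∨ l ∈ MulAction.orbit G l₂) ∧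
            Set.ncard (MulAction.orbit G l₁) = Set.ncard (MulAction.orbit G l₂))) := by
  intro H
  -- the field with 32 elements
  let F := GaloisField 2 5
  letI : Fintype F := Fintype.ofFinite F
  have hc : Fintype.card F = 32 := by
    rw [← Nat.card_eq_fintype_card]
    exact GaloisField.card 2 5 (by norm_num)
  haveI : CharP F 2 := inferInstanceAs (CharP (GaloisField 2 5) 2)
  -- the quadrangle of order (31, 33) built from the Segre hyperoval in PG(2, 32)
  have key := H (F × F × F) (TH350.Segre.Line F) TH350.Segre.Inc 31 33 (by norm_num) (by norm_num)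
    (fun l => TH350.Segre.ncard_line l hc) (fun p => TH350.Segre.ncard_point p hc)
    TH350.Segre.linear_space (TH350.Segre.antiflag hc)
    (TH350.Segre.Gam F) (fun g p l => g.2.1 p l) (TH350.Segre.primitive hc)
  -- lines of the two types
  have horb := fun (l l' : TH350.Segre.Line F)
    (h : l' ∈ MulAction.orbit (TH350.Segre.Gam F) l) => TH350.Segre.orbit_type h
  let a : TH350.Segre.Line F := (none, 0)
  let b : TH350.Segre.Line F := (some (some 1), 0)
  have ha : TH350.Segre.TA a.1 := trivial
  have hb : ¬ TH350.Segre.TA b.1 := by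
    change ¬ ((1 : F) = 0)
    exact one_ne_zero
  -- if the orbits are as claimed, each of them is the set of all lines of one type
  have hfin : ∀ l₁ l₂ : TH350.Segre.Line F,
      (∀ l, l ∈ MulAction.orbit (TH350.Segre.Gam F) l₁ ∨
        l ∈ MulAction.orbit (TH350.Segre.Gam F) l₂) →
      TH350.Segre.TA l₁.1 → ¬ TH350.Segre.TA l₂.1 →
      Set.ncard (MulAction.orbit (TH350.Segre.Gam F) l₁) ≠
        Set.ncard (MulAction.orbit (TH350.Segre.Gam F) l₂) := by
    intro l₁ l₂ hcov h1 h2
    have e1 : MulAction.orbit (TH350.Segre.Gam F) l₁ = {l | TH350.Segre.TA l.1} := by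
      ext l
      constructor
      · intro h
        exact (horb _ _ h).mpr h1
      · intro h
        rcases hcov l with h3 | h3
        · exact h3
        · exact absurd ((horb _ _ h3).mp h) h2
    have e2 : MulAction.orbit (TH350.Segre.Gam F) l₂ = {l | ¬ TH350.Segre.TA l.1} := by
      ext l
      constructor
      · intro h h3
        exact h2 ((horb _ _ h).mp h3)
      · intro h
        rcases hcov l with h3 | h3
        · exact absurd ((horb _ _ h3).mpr h1) h
        · exact h3
    rw [e1, e2, TH350.Segre.ncard_TA hc, TH350.Segre.ncard_not_TA hc]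
    norm_num
  rcases key with htr | ⟨l₁, l₂, -, hcov, hcard⟩
  · obtain ⟨g, hg⟩ := htr.exists_smul_eq a b
    exact hb ((horb a b ⟨g, hg⟩).mpr ha)
  · by_cases h1 : TH350.Segre.TA l₁.1
    · have h2 : ¬ TH350.Segre.TA l₂.1 := by
        rcases hcov b with h3 | h3
        · exact absurd ((horb _ _ h3).mpr h1) hb
        · exact fun h4 => hb ((horb _ _ h3).mpr h4)
      exact hfin l₁ l₂ hcov h1 h2 hcard
    · have h2 : TH350.Segre.TA l₂.1 := by
        rcases hcov a with h3 | h3
        · exact absurd ((horb _ _ h3).mp ha) h1
        · exact (horb _ _ h3).mp ha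
      exact hfin l₂ l₁ (fun l => (hcov l).symm) h2 h1 hcard.symm

end Pool.Agent.S11352
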