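import Pool.Statements.S11473
import Pool.Agent.TH497.LMDMain

set_option autoImplicit false
open Pool Pool.MP_cc29fe_co

namespace Pool.Agent.S11473

/-- Every finite connected graph with n vertices and clique number ω, where n ≥ ω+1 ≥ 4, has a set of at most (ω−2)/(ω−1)·n vertices distinguishing every adjacent pair by distance, i.e. local metric dimension ≤ (ω−2)n/(ω−1). -/
theorem result :
    ∀ (V : Type) [Fintype V] (G : SimpleGraph V), G.Connected →
      ∀ ω : ℕ, (∃ s : Finset V, G.IsNClique ω s) → G.CliqueFree (ω + 1) →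
        4 ≤ ω + 1 → ω + 1 ≤ Fintype.card V →
        ∃ W : Finset V,
          (∀ u v : V, G.Adj u v → ∃ w ∈ W, G.dist u w ≠ G.dist v w) ∧
          (W.card : ℝ) ≤ ((ω : ℝ) - 2) / ((ω : ℝ) - 1) * (Fintype.card V : ℝ) := by
  intro V _ G hconn ω _ hfree h4 hcard
  obtain ⟨k, rfl⟩ : ∃ k, ω = k + 1 := ⟨ω - 1, by omega⟩
  have hk : 2 ≤ k := by omega
  obtain ⟨W, hW, hWc⟩ := Pool.Agent.TH497.LMD.main_nat G hconn k hfree hk hcard
  refine ⟨W, hW, ?_⟩
  have hk1 : ((k - 1 : ℕ) : ℝ) = (k : ℝ) - 1 := by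
    rw [Nat.cast_sub (by omega)]; norm_num
  have h1 : (k : ℝ) * (W.card : ℝ) ≤ ((k : ℝ) - 1) * (Fintype.card V : ℝ) := by
    rw [← hk1]
    exact_mod_cast hWc
  have hkpos : (0 : ℝ) < (k : ℝ) := by
    have : (2 : ℝ) ≤ (k : ℝ) := by exact_mod_cast hk
    linarith
  have e1 : ((k + 1 : ℕ) : ℝ) - 2 = (k : ℝ) - 1 := by push_cast; ring
  have e2 : ((k + 1 : ℕ) : ℝ) - 1 = (k : ℝ) := by push_cast; ring
  rw [e1, e2, div_mul_eq_mul_div, le_div_iff₀ hkpos, mul_comm]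
  exact h1

end Pool.Agent.S11473
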