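import Pool.Statements.S11608

set_option autoImplicit false
open Pool Pool.MP_d1f9c8_co

namespace Pool.Agent.S11608

/-- A class of finite graphs, given on the vertex sets `Fin n`. -/
abbrev Cls := (n : ℕ) → SimpleGraph (Fin n) → Prop

/-- Closed under (isomorphism and) subgraphs. -/
def Cl (A : Cls) : Prop :=
  ∀ (a b : ℕ) (G : SimpleGraph (Fin a)) (H : SimpleGraph (Fin b)) (f : H →g G),
    Function.Injective f → A a G → A b H

/-- The part `S` of `G` lies in `A`. -/
def Part (A : Cls) {n : ℕ} (G : SimpleGraph (Fin n)) (S : Set (Fin n)) : Prop :=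
  ∃ (r : ℕ) (K : SimpleGraph (Fin r)), A r K ∧ Nonempty (G.induce S ≃g K)

/-- At most two vertices, or edgeless. -/
def P : Cls := fun n G => n ≤ 2 ∨ ∀ x y, ¬ G.Adj x y

/-- At most four vertices, or bipartite. -/
def R : Cls := fun n G => n ≤ 4 ∨ ∃ c : Fin n → Bool, ∀ x y, G.Adj x y → c x ≠ c y

lemma le_of_inj {a b : ℕ} {f : Fin b → Fin a} (hf : Function.Injective f) : b ≤ a := by
  simpa using Fintype.card_le_of_injective f hf

lemma clP : Cl P := by
  rintro a b G H f hf (h | h)
  · exact Or.inl ((le_of_inj hf).trans h)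
  · exact Or.inr fun x y hxy => h _ _ (f.map_adj hxy)

lemma clR : Cl R := by
  rintro a b G H f hf (h | ⟨c, hc⟩)
  · exact Or.inl ((le_of_inj hf).trans h)
  · exact Or.inr ⟨fun x => c (f x), fun x y hxy => hc _ _ (f.map_adj hxy)⟩

/-- Transport: a part belongs to a closed class as soon as it maps injectively into a member. -/
lemma Part.of_hom {A : Cls} (hA : Cl A) {n : ℕ} {G : SimpleGraph (Fin n)} {S : Set (Fin n)}
    {r : ℕ} {K : SimpleGraph (Fin r)} (hK : A r K) (f : G.induce S →g K)
    (hf : Function.Injective f) : Part A G S := by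
  classical
  let e : S ≃ Fin (Fintype.card S) := Fintype.equivFin S
  refine ⟨Fintype.card S, (G.induce S).map e.toEmbedding, ?_, ⟨SimpleGraph.Iso.map e _⟩⟩
  let g : ((G.induce S).map e.toEmbedding) →g K := f.comp (SimpleGraph.Iso.map e (G.induce S)).symm.toHom
  refine hA _ _ K _ g ?_ hK
  intro x y hxy
  exact (SimpleGraph.Iso.map e (G.induce S)).symm.injective (hf hxy)

lemma Part.mono {A : Cls} (hA : Cl A) {n : ℕ} {G : SimpleGraph (Fin n)} {S T : Set (Fin n)}
    (hST : S ⊆ T) (h : Part A G T) : Part A G S := by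
  obtain ⟨r, K, hK, ⟨e⟩⟩ := h
  refine Part.of_hom hA hK (e.toHom.comp (SimpleGraph.induceHomOfLE G hST).toHom) ?_
  intro x y hxy
  exact (SimpleGraph.induceHomOfLE G hST).injective (e.injective hxy)

lemma part_P {n : ℕ} (G : SimpleGraph (Fin n)) (S : Set (Fin n)) :
    Part P G S ↔ (S.ncard ≤ 2 ∨ ∀ x ∈ S, ∀ y ∈ S, ¬ G.Adj x y) := by
  classical
  constructor
  · rintro ⟨r, K, hK, ⟨e⟩⟩
    rcases hK with h | h
    · left
      have : Nat.card S = r := by
        rw [Nat.card_congr e.toEquiv]; simp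
      rw [← Nat.card_coe_set_eq]; omega
    · right
      intro x hx y hy hxy
      exact h (e ⟨x, hx⟩) (e ⟨y, hy⟩) (e.map_rel_iff.2 hxy)
  · intro h
    let e : S ≃ Fin (Fintype.card S) := Fintype.equivFin S
    refine ⟨Fintype.card S, (G.induce S).map e.toEmbedding, ?_, ⟨SimpleGraph.Iso.map e _⟩⟩
    rcases h with h | h
    · left
      rw [← Nat.card_coe_set_eq] at h
      rw [← Nat.card_eq_fintype_card]; exact h
    · right
      intro x y hxy
      rw [SimpleGraph.map_adj] at hxy
      obtain ⟨u, v, huv, -, -⟩ := hxy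
      exact h u u.2 v v.2 huv

lemma part_R {n : ℕ} (G : SimpleGraph (Fin n)) (S : Set (Fin n)) :
    Part R G S ↔ (S.ncard ≤ 4 ∨ ∃ c : Fin n → Bool, ∀ x ∈ S, ∀ y ∈ S, G.Adj x y → c x ≠ c y) := by
  classical
  constructor
  · rintro ⟨r, K, hK, ⟨e⟩⟩
    rcases hK with h | ⟨c, h⟩
    · left
      have : Nat.card S = r := by
        rw [Nat.card_congr e.toEquiv]; simp
      rw [← Nat.card_coe_set_eq]; omega
    · right
      refine ⟨fun x => if hx : x ∈ S then c (e ⟨x, hx⟩) else true, ?_⟩
      intro x hx y hy hxy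
      simp only [hx, hy, dite_true]
      exact h (e ⟨x, hx⟩) (e ⟨y, hy⟩) (e.map_rel_iff.2 hxy)
  · intro h
    let e : S ≃ Fin (Fintype.card S) := Fintype.equivFin S
    refine ⟨Fintype.card S, (G.induce S).map e.toEmbedding, ?_, ⟨SimpleGraph.Iso.map e _⟩⟩
    rcases h with h | ⟨c, h⟩
    · left
      rw [← Nat.card_coe_set_eq] at h
      rw [← Nat.card_eq_fintype_card]; exact h
    · right
      refine ⟨fun x => c (e.symm x), ?_⟩
      intro x y hxy
      rw [SimpleGraph.map_adj] at hxy
      obtain ⟨u, v, huv, rfl, rfl⟩ := hxy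
      simpa using h u u.2 v v.2 huv

/-- The join-type graph on `Fin (a + b)`: `K` on the first part, `L` on the second, everything
between. -/
def join {a b : ℕ} (K : SimpleGraph (Fin a)) (L : SimpleGraph (Fin b)) :
    SimpleGraph (Fin (a + b)) where
  Adj x y := match finSumFinEquiv.symm x, finSumFinEquiv.symm y with
    | Sum.inl u, Sum.inl v => K.Adj u v
    | Sum.inr u, Sum.inr v => L.Adj u v
    | Sum.inl _, Sum.inr _ => True
    | Sum.inr _, Sum.inl _ => True
  symm := ⟨by
    intro x y h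
    rcases hx : finSumFinEquiv.symm x with u | u <;> rcases hy : finSumFinEquiv.symm y with v | v <;>
      simp only [hx, hy] at h ⊢
    · exact h.symm
    · exact h.symm⟩
  loopless := ⟨by
    intro x h
    rcases hx : finSumFinEquiv.symm x with u | u <;> simp only [hx] at h
    · exact h.ne rfl
    · exact h.ne rfl⟩

/-- The product of two classes. -/
def Pr (A B : Cls) : Cls := fun _ G => ∃ S : Set (Fin _), Part A G S ∧ Part B G Sᶜ

lemma join_mem {A B : Cls} (hA : Cl A) (hB : Cl B) {a b : ℕ} {K : SimpleGraph (Fin a)}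
    {L : SimpleGraph (Fin b)} (hK : A a K) (hL : B b L) : Pr A B (a + b) (join K L) := by
  refine ⟨{x | (finSumFinEquiv.symm x).isLeft = true}, ?_, ?_⟩
  · let f : (join K L).induce {x | (finSumFinEquiv.symm x).isLeft = true} →g K :=
      { toFun := fun x => (finSumFinEquiv.symm x.1).getLeft x.2
        map_rel' := by
          rintro ⟨x, hx⟩ ⟨y, hy⟩ hxy
          change (join K L).Adj x y at hxy
          simp only [join] at hxy
          obtain ⟨u, hx'⟩ := Sum.isLeft_iff.1 hx
          obtain ⟨v, hy'⟩ := Sum.isLeft_iff.1 hy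
          simp only [hx', hy'] at hxy
          simpa only [hx', hy', Sum.getLeft_inl] using hxy }
    refine Part.of_hom hA hK f ?_
    rintro ⟨x, hx⟩ ⟨y, hy⟩ hxy
    change (finSumFinEquiv.symm x).getLeft hx = (finSumFinEquiv.symm y).getLeft hy at hxy
    have h1 := Sum.inl_getLeft (finSumFinEquiv.symm x) hx
    have h2 := Sum.inl_getLeft (finSumFinEquiv.symm y) hy
    apply Subtype.ext
    apply finSumFinEquiv.symm.injective
    rw [← h1, ← h2, hxy]
  · let f : (join K L).induce {x | (finSumFinEquiv.symm x).isLeft = true}ᶜ →g L :=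
      { toFun := fun x => (finSumFinEquiv.symm x.1).getRight (by
          have hx2 : ¬ (finSumFinEquiv.symm x.1).isLeft = true := x.2
          simpa using hx2)
        map_rel' := by
          rintro ⟨x, hx⟩ ⟨y, hy⟩ hxy
          change (join K L).Adj x y at hxy
          simp only [join] at hxy
          have hx2 : ¬ (finSumFinEquiv.symm x).isLeft = true := hx
          have hy2 : ¬ (finSumFinEquiv.symm y).isLeft = true := hy
          obtain ⟨u, hx'⟩ := Sum.isRight_iff.1 (by simpa using hx2)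
          obtain ⟨v, hy'⟩ := Sum.isRight_iff.1 (by simpa using hy2)
          simp only [hx', hy'] at hxy
          simpa only [hx', hy', Sum.getRight_inr] using hxy }
    refine Part.of_hom hB hL f ?_
    rintro ⟨x, hx⟩ ⟨y, hy⟩ hxy
    apply Subtype.ext
    apply finSumFinEquiv.symm.injective
    change (finSumFinEquiv.symm x).getRight _ = (finSumFinEquiv.symm y).getRight _ at hxy
    rcases hx' : finSumFinEquiv.symm x with u | u
    · simp [hx'] at hx
    · rcases hy' : finSumFinEquiv.symm y with v | v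
      · simp [hy'] at hy
      · simp only [hx', hy', Sum.getRight_inr] at hxy
        rw [hxy]

lemma Pr_comm {A B : Cls} {n : ℕ} {G : SimpleGraph (Fin n)} : Pr A B n G ↔ Pr B A n G := by
  constructor
  · rintro ⟨S, h1, h2⟩
    exact ⟨Sᶜ, h2, by rwa [compl_compl]⟩
  · rintro ⟨S, h1, h2⟩
    exact ⟨Sᶜ, h2, by rwa [compl_compl]⟩

lemma join_not_R {a b : ℕ} {K : SimpleGraph (Fin a)} {L : SimpleGraph (Fin b)} (hab : 5 ≤ a + b)
    (hb : 1 ≤ b) {u v : Fin a} (huv : K.Adj u v) : ¬ R (a + b) (join K L) := by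
  rintro (h | ⟨c, hc⟩)
  · omega
  · let w : Fin b := ⟨0, by omega⟩
    have h1 := hc (finSumFinEquiv (Sum.inl u)) (finSumFinEquiv (Sum.inl v)) (by simpa [join] using huv)
    have h2 := hc (finSumFinEquiv (Sum.inl u)) (finSumFinEquiv (Sum.inr w)) (by simp [join])
    have h3 := hc (finSumFinEquiv (Sum.inl v)) (finSumFinEquiv (Sum.inr w)) (by simp [join])
    revert h1 h2 h3
    generalize c (finSumFinEquiv (Sum.inl u)) = x
    generalize c (finSumFinEquiv (Sum.inl v)) = y
    generalize c (finSumFinEquiv (Sum.inr w)) = z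
    revert x y z; decide

lemma join_not_P {a b : ℕ} {K : SimpleGraph (Fin a)} {L : SimpleGraph (Fin b)} (hab : 3 ≤ a + b)
    (ha : 1 ≤ a) (hb : 1 ≤ b) : ¬ P (a + b) (join K L) := by
  rintro (h | h)
  · omega
  · refine h (finSumFinEquiv (Sum.inl ⟨0, by omega⟩)) (finSumFinEquiv (Sum.inr ⟨0, by omega⟩)) ?_
    simp only [join, Equiv.symm_apply_apply]

lemma part_card {A : Cls} {n : ℕ} {G : SimpleGraph (Fin n)} {S : Set (Fin n)} (h : Part A G S) :
    ∃ K : SimpleGraph (Fin S.ncard), A S.ncard K ∧ Nonempty (G.induce S ≃g K) := by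
  obtain ⟨r, K, hK, ⟨e⟩⟩ := h
  have : S.ncard = r := by
    rw [← Nat.card_coe_set_eq, Nat.card_congr e.toEquiv]; simp
  subst this
  exact ⟨K, hK, ⟨e⟩⟩

lemma irr_P {A B : Cls} (hA : Cl A) (hB : Cl B) (A1 : A 1 ⊥) (B1 : B 1 ⊥)
    (h : ∀ (n : ℕ) (G : SimpleGraph (Fin n)), P n G ↔ Pr A B n G) : False := by
  have h3 : P 3 ⊥ := Or.inr fun x y hxy => by simp at hxy
  rw [h] at h3
  obtain ⟨S, hS, hT⟩ := h3
  have hc : S.ncard + Sᶜ.ncard = 3 := by
    rw [Set.ncard_add_ncard_compl]; simp
  obtain ⟨K, hK, -⟩ := part_card hS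
  obtain ⟨L, hL, -⟩ := part_card hT
  by_cases h2 : 2 ≤ S.ncard
  · exact join_not_P (by omega) (by omega) (by omega) ((h _ _).2 (join_mem hA hB hK B1))
  · exact join_not_P (by omega) (by omega) (by omega) ((h _ _).2 (join_mem hA hB A1 hL))

lemma irr_R_aux {A B : Cls} (hA : Cl A) (hB : Cl B) (B1 : B 1 ⊥)
    (h : ∀ (n : ℕ) (G : SimpleGraph (Fin n)), R n G ↔ Pr A B n G) (h2 : A 2 ⊤) : False := by
  have hsmall : ∀ (b : ℕ) (L : SimpleGraph (Fin b)), B b L → b ≤ 2 := by
    intro b L hL
    by_contra hb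
    exact join_not_R (by omega) (by omega) (u := (0 : Fin 2)) (v := 1) (by simp)
      ((h _ _).2 (join_mem hA hB h2 hL))
  let G : SimpleGraph (Fin 8) :=
    { Adj := fun x y => ((x.val < 4) ↔ ¬ (y.val < 4))
      symm := ⟨fun x y hxy => by tauto⟩
      loopless := ⟨fun x hx => by tauto⟩ }
  have hG : R 8 G := by
    right
    refine ⟨fun x => decide (x.val < 4), fun x y hxy => ?_⟩
    change ((x.val < 4) ↔ ¬ (y.val < 4)) at hxy
    by_cases h1 : x.val < 4 <;> by_cases h2 : y.val < 4 <;> simp [h1, h2] at hxy ⊢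
  rw [h] at hG
  obtain ⟨S, hS, hT⟩ := hG
  obtain ⟨K, hK, ⟨e⟩⟩ := part_card hS
  obtain ⟨L, hL, -⟩ := part_card hT
  have hT2 := hsmall _ _ hL
  have hc : S.ncard + Sᶜ.ncard = 8 := by
    rw [Set.ncard_add_ncard_compl]; simp
  have key : ∀ U : Finset (Fin 8), U.card = 4 → ∃ x ∈ U, x ∈ S := by
    intro U hU
    by_contra hcon
    push Not at hcon
    have : (U : Set (Fin 8)) ⊆ Sᶜ := fun x hx => hcon x hx
    have h5 := Set.ncard_le_ncard this
    rw [Set.ncard_coe_finset] at h5
    omega
  obtain ⟨x, hx, hxS⟩ := key (Finset.univ.filter fun x : Fin 8 => x.val < 4) (by decide)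
  obtain ⟨y, hy, hyS⟩ := key (Finset.univ.filter fun x : Fin 8 => ¬ x.val < 4) (by decide)
  have hxy : G.Adj x y := by
    simp only [Finset.mem_filter, Finset.mem_univ, true_and] at hx hy
    change ((x.val < 4) ↔ ¬ (y.val < 4))
    tauto
  have hadj : K.Adj (e ⟨x, hxS⟩) (e ⟨y, hyS⟩) := e.map_rel_iff.2 hxy
  exact join_not_R (by omega) (by omega) hadj ((h _ _).2 (join_mem hA hB hK B1))

lemma two_of_part {A : Cls} (hA : Cl A) {S : Set (Fin 4)}
    (hS : Part A (⊤ : SimpleGraph (Fin 4)) S) (h2 : 2 ≤ S.ncard) : A 2 ⊤ := by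
  obtain ⟨K, hK, ⟨e⟩⟩ := part_card hS
  have hinj : Function.Injective (fun i : Fin 2 => (Fin.castLE h2 i : Fin S.ncard)) :=
    Fin.castLE_injective h2
  refine hA _ _ K ⊤ ⟨fun i => Fin.castLE h2 i, ?_⟩ hinj hK
  intro i j hij
  have hne : Fin.castLE h2 i ≠ Fin.castLE h2 j := fun hh => hij (hinj hh)
  have : (e.symm (Fin.castLE h2 i)) ≠ e.symm (Fin.castLE h2 j) := fun hh => hne (e.symm.injective hh)
  have h3 : ((⊤ : SimpleGraph (Fin 4)).induce S).Adj (e.symm (Fin.castLE h2 i))
      (e.symm (Fin.castLE h2 j)) := by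
    change (e.symm (Fin.castLE h2 i)).1 ≠ (e.symm (Fin.castLE h2 j)).1
    exact fun hh => this (Subtype.ext hh)
  exact e.symm.map_rel_iff.1 h3

lemma irr_R {A B : Cls} (hA : Cl A) (hB : Cl B) (A1 : A 1 ⊥) (B1 : B 1 ⊥)
    (h : ∀ (n : ℕ) (G : SimpleGraph (Fin n)), R n G ↔ Pr A B n G) : False := by
  have h4 : R 4 ⊤ := Or.inl le_rfl
  rw [h] at h4
  obtain ⟨S, hS, hT⟩ := h4
  have hc : S.ncard + Sᶜ.ncard = 4 := by
    rw [Set.ncard_add_ncard_compl]; simp
  by_cases h2 : 2 ≤ S.ncard
  · exact irr_R_aux hA hB B1 h (two_of_part hA hS h2)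
  · exact irr_R_aux hB hA A1 (fun n G => (h n G).trans Pr_comm) (two_of_part hB hT (by omega))

/-- The key identity: `P * P * P = P * R`. -/
lemma key {n : ℕ} (G : SimpleGraph (Fin n)) :
    (∃ c : Fin n → Fin 3, ∀ i : Fin 3, Part P G {v | c v = i}) ↔
    (∃ c : Fin n → Fin 2, Part P G {v | c v = 0} ∧ Part R G {v | c v = 1}) := by
  classical
  constructor
  · rintro ⟨c, hc⟩
    -- two of the three parts have the same type
    have hty : ∀ i, ({v | c v = i}.ncard ≤ 2 ∨ ∀ x ∈ {v | c v = i}, ∀ y ∈ {v | c v = i}, ¬ G.Adj x y) :=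
      fun i => (part_P G _).1 (hc i)
    -- combine parts `i`, `j`, keep `k`
    have comb : ∀ i j k : Fin 3, (∀ l, l = i ∨ l = j ∨ l = k) → i ≠ k → j ≠ k → i ≠ j →
        (({v | c v = i}.ncard ≤ 2 ∧ {v | c v = j}.ncard ≤ 2) ∨
          ((∀ x ∈ {v | c v = i}, ∀ y ∈ {v | c v = i}, ¬ G.Adj x y) ∧
            (∀ x ∈ {v | c v = j}, ∀ y ∈ {v | c v = j}, ¬ G.Adj x y))) →
        ∃ c : Fin n → Fin 2, Part P G {v | c v = 0} ∧ Part R G {v | c v = 1} := by
      intro i j k hall hik hjk hij h
      refine ⟨fun v => if c v = k then 0 else 1, ?_, ?_⟩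
      · have : {v | (if c v = k then (0 : Fin 2) else 1) = 0} = {v | c v = k} := by
          ext v; by_cases hv : c v = k <;> simp [hv]
        rw [this]; exact hc k
      · have hset : {v | (if c v = k then (0 : Fin 2) else 1) = 1} = {v | c v = i} ∪ {v | c v = j} := by
          ext v
          simp only [Set.mem_ofPred_eq, Set.mem_union]
          rcases hall (c v) with hv | hv | hv
          · simp [hv, hik]
          · simp [hv, hjk]
          · simp [hv, Ne.symm hik, Ne.symm hjk]
        rw [hset, part_R]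
        rcases h with ⟨h1, h2⟩ | ⟨h1, h2⟩
        · left
          exact (Set.ncard_union_le _ _).trans (by omega)
        · right
          refine ⟨fun v => decide (c v = i), ?_⟩
          rintro x hx y hy hxy
          rcases hx with hx | hx <;> rcases hy with hy | hy
          · exact absurd hxy (h1 x hx y hy)
          · have hx' : c x = i := hx
            have hy' : c y = j := hy
            simp [hx', hy', Ne.symm hij]
          · have hx' : c x = j := hx
            have hy' : c y = i := hy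
            simp [hx', hy', Ne.symm hij]
          · exact absurd hxy (h2 x hx y hy)
    rcases hty 0 with h0 | h0 <;> rcases hty 1 with h1 | h1 <;> rcases hty 2 with h2 | h2
    · exact comb 0 1 2 (by decide) (by decide) (by decide) (by decide) (Or.inl ⟨h0, h1⟩)
    · exact comb 0 1 2 (by decide) (by decide) (by decide) (by decide) (Or.inl ⟨h0, h1⟩)
    · exact comb 0 2 1 (by decide) (by decide) (by decide) (by decide) (Or.inl ⟨h0, h2⟩)
    · exact comb 1 2 0 (by decide) (by decide) (by decide) (by decide) (Or.inr ⟨h1, h2⟩)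
    · exact comb 1 2 0 (by decide) (by decide) (by decide) (by decide) (Or.inl ⟨h1, h2⟩)
    · exact comb 0 2 1 (by decide) (by decide) (by decide) (by decide) (Or.inr ⟨h0, h2⟩)
    · exact comb 0 1 2 (by decide) (by decide) (by decide) (by decide) (Or.inr ⟨h0, h1⟩)
    · exact comb 0 1 2 (by decide) (by decide) (by decide) (by decide) (Or.inr ⟨h0, h1⟩)
  · rintro ⟨c, hP, hR⟩
    rw [part_R] at hR
    -- split the `R` part in two
    have split : ∃ U : Set (Fin n), Part P G ({v | c v = 1} ∩ U) ∧ Part P G ({v | c v = 1} \ U) := by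
      rcases hR with h | ⟨b, hb⟩
      · obtain ⟨U, hU, hU2⟩ := Set.exists_subset_card_eq (s := {v | c v = 1})
          (n := min 2 ({v | c v = 1}.ncard)) (min_le_right _ _)
        refine ⟨U, ?_, ?_⟩
        · rw [part_P]; left
          rw [Set.inter_eq_self_of_subset_right hU, hU2]; exact min_le_left _ _
        · rw [part_P]; left
          have := Set.ncard_sdiff_add_ncard_of_subset hU
          omega
      · refine ⟨{v | b v = true}, ?_, ?_⟩
        · rw [part_P]; right
          rintro x ⟨hx, hx'⟩ y ⟨hy, hy'⟩ hxy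
          exact hb x hx y hy hxy (by rw [show b x = true from hx', show b y = true from hy'])
        · rw [part_P]; right
          rintro x ⟨hx, hx'⟩ y ⟨hy, hy'⟩ hxy
          have h1 : b x = false := by simpa using hx'
          have h2 : b y = false := by simpa using hy'
          exact hb x hx y hy hxy (by rw [h1, h2])
    obtain ⟨U, hU1, hU2⟩ := split
    refine ⟨fun v => if c v = 0 then 0 else if v ∈ U then 1 else 2, ?_⟩
    have hc01 : ∀ v, c v = 0 ∨ c v = 1 := fun v => by
      have : ∀ i : Fin 2, i = 0 ∨ i = 1 := by decide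
      exact this (c v)
    intro i
    fin_cases i
    · convert hP using 2
      ext v
      rcases hc01 v with hv | hv
      · simp [hv]
      · by_cases hvU : v ∈ U <;> simp [hv, hvU]
    · convert hU1 using 2
      ext v
      rcases hc01 v with hv | hv
      · simp [hv]
      · by_cases hvU : v ∈ U <;> simp [hv, hvU]
    · convert hU2 using 2
      ext v
      rcases hc01 v with hv | hv
      · simp [hv]
      · by_cases hvU : v ∈ U <;> simp [hv, hvU]

lemma P1 : P 1 ⊥ := Or.inl (by norm_num)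
lemma R1 : R 1 ⊥ := Or.inl (by norm_num)

/-- The negation of the preceding statement: Among subgraph-closed classes of finite graphs, with product = vertex partition into parts in the factors, any two factorizations of a class into irreducible factors (contain K1, not a product of two such classes) agree up to reordering. -/
theorem result :
    ¬ (∀ (m k : ℕ) (Ps : Fin m → (n : ℕ) → SimpleGraph (Fin n) → Prop)
      (Qs : Fin k → (n : ℕ) → SimpleGraph (Fin n) → Prop),
      (∀ i : Fin m,
        (∀ (a b : ℕ) (G : SimpleGraph (Fin a)) (H : SimpleGraph (Fin b)) (f : H →g G),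
          Function.Injective f → Ps i a G → Ps i b H) ∧
        Ps i 1 ⊥ ∧
        ∀ A B : (n : ℕ) → SimpleGraph (Fin n) → Prop,
          (∀ (a b : ℕ) (G : SimpleGraph (Fin a)) (H : SimpleGraph (Fin b)) (f : H →g G),
            Function.Injective f → A a G → A b H) →
          (∀ (a b : ℕ) (G : SimpleGraph (Fin a)) (H : SimpleGraph (Fin b)) (f : H →g G),
            Function.Injective f → B a G → B b H) →
          A 1 ⊥ → B 1 ⊥ →
          ¬ ∀ (n : ℕ) (G : SimpleGraph (Fin n)),
            (Ps i n G ↔ ∃ S : Set (Fin n),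
              (∃ (r : ℕ) (K : SimpleGraph (Fin r)), A r K ∧ Nonempty (G.induce S ≃g K)) ∧
              (∃ (r : ℕ) (K : SimpleGraph (Fin r)), B r K ∧ Nonempty (G.induce Sᶜ ≃g K)))) →
      (∀ j : Fin k,
        (∀ (a b : ℕ) (G : SimpleGraph (Fin a)) (H : SimpleGraph (Fin b)) (f : H →g G),
          Function.Injective f → Qs j a G → Qs j b H) ∧
        Qs j 1 ⊥ ∧
        ∀ A B : (n : ℕ) → SimpleGraph (Fin n) → Prop,
          (∀ (a b : ℕ) (G : SimpleGraph (Fin a)) (H : SimpleGraph (Fin b)) (f : H →g G),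
            Function.Injective f → A a G → A b H) →
          (∀ (a b : ℕ) (G : SimpleGraph (Fin a)) (H : SimpleGraph (Fin b)) (f : H →g G),
            Function.Injective f → B a G → B b H) →
          A 1 ⊥ → B 1 ⊥ →
          ¬ ∀ (n : ℕ) (G : SimpleGraph (Fin n)),
            (Qs j n G ↔ ∃ S : Set (Fin n),
              (∃ (r : ℕ) (K : SimpleGraph (Fin r)), A r K ∧ Nonempty (G.induce S ≃g K)) ∧
              (∃ (r : ℕ) (K : SimpleGraph (Fin r)), B r K ∧ Nonempty (G.induce Sᶜ ≃g K)))) →
      (∀ (n : ℕ) (G : SimpleGraph (Fin n)),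
        (∃ c : Fin n → Fin m, ∀ i : Fin m, ∃ (r : ℕ) (K : SimpleGraph (Fin r)),
            Ps i r K ∧ Nonempty (G.induce {v | c v = i} ≃g K)) ↔
        (∃ c : Fin n → Fin k, ∀ j : Fin k, ∃ (r : ℕ) (K : SimpleGraph (Fin r)),
            Qs j r K ∧ Nonempty (G.induce {v | c v = j} ≃g K))) →
      ∃ σ : Fin m ≃ Fin k, ∀ (i : Fin m) (n : ℕ) (G : SimpleGraph (Fin n)),
        (Ps i n G ↔ Qs (σ i) n G)) := by
  intro H
  have hPirr : (∀ (a b : ℕ) (G : SimpleGraph (Fin a)) (H : SimpleGraph (Fin b)) (f : H →g G),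
            Function.Injective f → P a G → P b H) ∧
        P 1 ⊥ ∧
        ∀ A B : (n : ℕ) → SimpleGraph (Fin n) → Prop,
          (∀ (a b : ℕ) (G : SimpleGraph (Fin a)) (H : SimpleGraph (Fin b)) (f : H →g G),
            Function.Injective f → A a G → A b H) →
          (∀ (a b : ℕ) (G : SimpleGraph (Fin a)) (H : SimpleGraph (Fin b)) (f : H →g G),
            Function.Injective f → B a G → B b H) →
          A 1 ⊥ → B 1 ⊥ →
          ¬ ∀ (n : ℕ) (G : SimpleGraph (Fin n)),
            (P n G ↔ ∃ S : Set (Fin n),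
              (∃ (r : ℕ) (K : SimpleGraph (Fin r)), A r K ∧ Nonempty (G.induce S ≃g K)) ∧
              (∃ (r : ℕ) (K : SimpleGraph (Fin r)), B r K ∧ Nonempty (G.induce Sᶜ ≃g K))) :=
    ⟨clP, P1, fun A B hA hB A1 B1 h => irr_P hA hB A1 B1 h⟩
  have hRirr : (∀ (a b : ℕ) (G : SimpleGraph (Fin a)) (H : SimpleGraph (Fin b)) (f : H →g G),
            Function.Injective f → R a G → R b H) ∧
        R 1 ⊥ ∧
        ∀ A B : (n : ℕ) → SimpleGraph (Fin n) → Prop,
          (∀ (a b : ℕ) (G : SimpleGraph (Fin a)) (H : SimpleGraph (Fin b)) (f : H →g G),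
            Function.Injective f → A a G → A b H) →
          (∀ (a b : ℕ) (G : SimpleGraph (Fin a)) (H : SimpleGraph (Fin b)) (f : H →g G),
            Function.Injective f → B a G → B b H) →
          A 1 ⊥ → B 1 ⊥ →
          ¬ ∀ (n : ℕ) (G : SimpleGraph (Fin n)),
            (R n G ↔ ∃ S : Set (Fin n),
              (∃ (r : ℕ) (K : SimpleGraph (Fin r)), A r K ∧ Nonempty (G.induce S ≃g K)) ∧
              (∃ (r : ℕ) (K : SimpleGraph (Fin r)), B r K ∧ Nonempty (G.induce Sᶜ ≃g K))) :=
    ⟨clR, R1, fun A B hA hB A1 B1 h => irr_R hA hB A1 B1 h⟩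
  obtain ⟨σ, -⟩ := H 3 2 (fun _ => P) (fun j => if j = 0 then P else R) (fun _ => hPirr)
    (fun j => by
      by_cases hj : j = 0
      · simpa only [if_pos hj] using hPirr
      · simpa only [if_neg hj] using hRirr)
    (fun n G => by
      refine (key G).trans ?_
      constructor
      · rintro ⟨c, h0, h1⟩
        refine ⟨c, fun j => ?_⟩
        fin_cases j
        · exact h0
        · exact h1
      · rintro ⟨c, h⟩
        exact ⟨c, h 0, h 1⟩)
  have := Fintype.card_congr σ
  simp at this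

end Pool.Agent.S11608
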