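import Pool.Statements.S11612
import Pool.Agent.H279R3.TreeHelly
import Pool.Agent.H46R3.TreeHelly

set_option autoImplicit false
open Pool Pool.MP_d20af1_co

namespace Pool.Agent.S11612

open SimpleGraph

/-- the band graph on `0, …, 15`: `i` and `j` are adjacent when they differ by `1` or `4` -/
def G : SimpleGraph (Fin 16) where
  Adj i j := i.val + 1 = j.val ∨ j.val + 1 = i.val ∨ i.val + 4 = j.val ∨ j.val + 4 = i.val
  symm := ⟨by intro _ _ h; omega⟩
  loopless := ⟨by intro _ h; omega⟩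

instance : DecidableRel G.Adj := fun i j => inferInstanceAs (Decidable (_ ∨ _))

/-- windows of five consecutive vertices: each induces a five-cycle -/
def W (i : Fin 12) : Finset (Fin 16) := Finset.univ.filter fun v => i.val ≤ v.val ∧ v.val ≤ i.val + 4

/-- three bags pulled back from the five-cycle -/
def Y (i : Fin 3) : Finset (Fin 16) := Finset.univ.filter fun v =>
  v.val % 5 = 0 ∨ v.val % 5 = i.val + 1 ∨ v.val % 5 = i.val + 2

lemma five_indep : ∀ T ∈ (Finset.range 5).powerset,
    (∀ x ∈ T, ∀ y ∈ T, ¬ (x + 1 = y ∨ x + 4 = y)) → T.card ≤ 2 := by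
  decide

lemma W_indep (i : Fin 12) (S : Finset (Fin 16)) (hS : S ⊆ W i)
    (h : ∀ x ∈ S, ∀ y ∈ S, ¬ G.Adj x y) : S.card ≤ 2 := by
  have hm : ∀ x ∈ S, i.val ≤ x.val ∧ x.val ≤ i.val + 4 := by
    intro x hx
    have := hS hx
    simpa only [W, Finset.mem_filter, Finset.mem_univ, true_and] using this
  have hc : (S.image fun x => x.val - i.val).card = S.card := by
    apply Finset.card_image_of_injOn
    intro x hx y hy hxy
    have h1 := hm x hx
    have h2 := hm y hy
    simp only at hxy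
    exact Fin.ext (by omega)
  rw [← hc]
  apply five_indep
  · rw [Finset.mem_powerset]
    intro z hz
    obtain ⟨x, hx, rfl⟩ := Finset.mem_image.1 hz
    have h1 := hm x hx
    rw [Finset.mem_range]
    omega
  · intro a ha b hb hab
    obtain ⟨x, hx, rfl⟩ := Finset.mem_image.1 ha
    obtain ⟨y, hy, rfl⟩ := Finset.mem_image.1 hb
    have h1 := hm x hx
    have h2 := hm y hy
    apply h x hx y hy
    show x.val + 1 = y.val ∨ y.val + 1 = x.val ∨ x.val + 4 = y.val ∨ y.val + 4 = x.val
    omega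

lemma W_edge : ∀ u v : Fin 16, G.Adj u v → ∃ i, u ∈ W i ∧ v ∈ W i := by
  decide +kernel

lemma Y_edge : ∀ u v : Fin 16, G.Adj u v → ∃ i, u ∈ Y i ∧ v ∈ Y i := by
  decide +kernel

lemma Y_colour : ∀ i : Fin 3, ∃ f : Fin 5 → Fin 2, ∀ u ∈ Y i, ∀ v ∈ Y i, G.Adj u v →
    f ⟨u.val % 5, Nat.mod_lt _ (by omega)⟩ ≠ f ⟨v.val % 5, Nat.mod_lt _ (by omega)⟩ := by
  decide +kernel

/-- a set in which every vertex has a neighbour closer to a fixed root is walk-connected -/
lemma wconn_of_root {V : Type} (H : SimpleGraph V) (S : Set V) (ρ : V) (d : V → ℕ)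
    (h : ∀ x ∈ S, x = ρ ∨ ∃ y ∈ S, H.Adj x y ∧ d y < d x) : H279R3.WConn H S := by
  have key : ∀ n, ∀ x ∈ S, d x = n → ∃ q : H.Walk x ρ, ∀ z ∈ q.support, z ∈ S := by
    intro n
    induction n using Nat.strong_induction_on with
    | _ n ih =>
      intro x hx hd
      rcases h x hx with rfl | ⟨y, hy, hxy, hlt⟩
      · exact ⟨Walk.nil, fun z hz => by
          rw [Walk.support_nil, List.mem_singleton] at hz
          rw [hz]; exact hx⟩
      · obtain ⟨q, hq⟩ := ih (d y) (by omega) y hy rfl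
        refine ⟨Walk.cons hxy q, fun z hz => ?_⟩
        rw [Walk.support_cons, List.mem_cons] at hz
        rcases hz with rfl | hz
        · exact hx
        · exact hq z hz
  intro i hi j hj
  obtain ⟨q, hq⟩ := key _ i hi rfl
  obtain ⟨q', hq'⟩ := key _ j hj rfl
  refine ⟨q.append q'.reverse, fun z hz => ?_⟩
  rw [Walk.mem_support_append_iff] at hz
  rcases hz with hz | hz
  · exact hq z hz
  · rw [Walk.support_reverse, List.mem_reverse] at hz
    exact hq' z hz

/-- row class inside the three by three block, the last row and the last column -/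
def clR (x : Fin 16) : ℕ :=
  if 12 ≤ x.val then 4 else x.val % 4

/-- column class -/
def clC (x : Fin 16) : ℕ :=
  if 12 ≤ x.val then 4 else if x.val % 4 = 3 then 3 else x.val / 4

/-- the bramble: nine crosses, the last row and the last column -/
def M (a : Fin 11) : Finset (Fin 16) :=
  if a.val < 9 then Finset.univ.filter fun x =>
      x.val < 12 ∧ x.val % 4 ≠ 3 ∧ (x.val % 4 = a.val % 3 ∨ x.val / 4 = a.val / 3)
  else if a.val = 9 then Finset.univ.filter fun x => x.val < 12 ∧ x.val % 4 = 3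
  else Finset.univ.filter fun x => 12 ≤ x.val

/-- root of each element of the bramble -/
def rt (a : Fin 11) : Fin 16 :=
  if h : a.val < 9 then ⟨4 * (a.val / 3) + a.val % 3, by omega⟩
  else if a.val = 9 then 3 else 12

/-- distance to the root along the natural order -/
def dd (a : Fin 11) (x : Fin 16) : ℕ := (x.val - (rt a).val) + ((rt a).val - x.val)

lemma M_root : ∀ a : Fin 11, ∀ x ∈ M a, x = rt a ∨ ∃ y ∈ M a, G.Adj x y ∧ dd a y < dd a x := by
  decide +kernel

lemma M_touch : ∀ a b : Fin 11, ∃ x ∈ M a, ∃ y ∈ M b, x = y ∨ G.Adj x y := by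
  decide +kernel

lemma M_hit : ∀ a : Fin 11, ∀ x ∈ M a, a.val < 9 → clR x = a.val % 3 ∨ clC x = a.val / 3 := by
  decide +kernel

lemma M_hit9 : ∀ x ∈ M 9, clR x = 3 ∧ clC x = 3 := by decide +kernel

lemma M_hit10 : ∀ x ∈ M 10, clR x = 4 ∧ clC x = 4 := by decide +kernel

lemma five_le {B : Finset (Fin 16)} (c : Fin 16 → ℕ) (h : ∀ n < 5, ∃ x ∈ B, c x = n) :
    5 ≤ B.card := by
  have h1 : Finset.range 5 ⊆ B.image c := by
    intro n hn
    obtain ⟨x, hx, hc⟩ := h n (Finset.mem_range.1 hn)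
    exact Finset.mem_image.2 ⟨x, hx, hc⟩
  have h2 := Finset.card_le_card h1
  have h3 : (B.image c).card ≤ B.card := Finset.card_image_le
  rw [Finset.card_range] at h2
  omega

lemma hit_card {B : Finset (Fin 16)} (h : ∀ a : Fin 11, ∃ x ∈ M a, x ∈ B) : 5 ≤ B.card := by
  have h9 : ∃ x ∈ B, clR x = 3 ∧ clC x = 3 := by
    obtain ⟨x, hx, hB⟩ := h 9
    exact ⟨x, hB, M_hit9 x hx⟩
  have h10 : ∃ x ∈ B, clR x = 4 ∧ clC x = 4 := by
    obtain ⟨x, hx, hB⟩ := h 10
    exact ⟨x, hB, M_hit10 x hx⟩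
  by_cases hr : ∀ r < 3, ∃ x ∈ B, clR x = r
  · apply five_le clR
    intro n hn
    by_cases h3 : n < 3
    · exact hr n h3
    · have : n = 3 ∨ n = 4 := by omega
      rcases this with rfl | rfl
      · obtain ⟨x, hx, h1, h2⟩ := h9; exact ⟨x, hx, h1⟩
      · obtain ⟨x, hx, h1, h2⟩ := h10; exact ⟨x, hx, h1⟩
  · push Not at hr
    obtain ⟨r, hr3, hr⟩ := hr
    apply five_le clC
    intro n hn
    by_cases h3 : n < 3
    · obtain ⟨x, hx, hB⟩ := h ⟨3 * n + r, by omega⟩
      have := M_hit _ x hx (by simp only; omega)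
      simp only at this
      rcases this with h1 | h1
      · exfalso
        apply hr x hB
        rw [h1]; omega
      · exact ⟨x, hB, by rw [h1]; omega⟩
    · have : n = 3 ∨ n = 4 := by omega
      rcases this with rfl | rfl
      · obtain ⟨x, hx, h1, h2⟩ := h9; exact ⟨x, hx, h2⟩
      · obtain ⟨x, hx, h1, h2⟩ := h10; exact ⟨x, hx, h2⟩

/-- The negation of the preceding statement: For every finite graph G and all a, k: if G has a tree decomposition whose bags all have independence number at most a, and one whose bags all induce k-colorable subgraphs, then G has a tree decomposition with all bags of size at most a·k. -/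
theorem result :
    ¬ (∀ (V : Type) [Fintype V] (G : SimpleGraph V) (a k : ℕ),
      (∃ (n : ℕ) (T : SimpleGraph (Fin n)) (B : Fin n → Finset V),
        T.IsTree ∧
        (∀ u v : V, G.Adj u v → ∃ i, u ∈ B i ∧ v ∈ B i) ∧
        (∀ v : V, (T.induce {i : Fin n | v ∈ B i}).Connected) ∧
        (∀ i : Fin n, ∀ S : Finset V, S ⊆ B i → G.IsIndepSet (S : Set V) → S.card ≤ a)) →
      (∃ (n : ℕ) (T : SimpleGraph (Fin n)) (B : Fin n → Finset V),
        T.IsTree ∧
        (∀ u v : V, G.Adj u v → ∃ i, u ∈ B i ∧ v ∈ B i) ∧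
        (∀ v : V, (T.induce {i : Fin n | v ∈ B i}).Connected) ∧
        (∀ i : Fin n, (G.induce (B i : Set V)).Colorable k)) →
      (∃ (n : ℕ) (T : SimpleGraph (Fin n)) (B : Fin n → Finset V),
        T.IsTree ∧
        (∀ u v : V, G.Adj u v → ∃ i, u ∈ B i ∧ v ∈ B i) ∧
        (∀ v : V, (T.induce {i : Fin n | v ∈ B i}).Connected) ∧
        (∀ i : Fin n, (B i).card ≤ a * k))) := by
  intro H
  have key := H (Fin 16) G 2 2 ?_ ?_
  · obtain ⟨n, T, B, hT, he, hc, hk⟩ := key
    have hv : ∀ v i j, v ∈ B i → v ∈ B j → ∃ q : T.Walk i j, ∀ x ∈ q.support, v ∈ B x := by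
      intro v i j hi hj
      exact Pool.Agent.H46R3.Exp.walk_in {i | v ∈ B i} (hc v).preconnected hi hj
    have hcov : ∀ v, ∃ i, v ∈ B i := by
      intro v
      obtain ⟨i⟩ := (hc v).nonempty
      exact ⟨i.1, i.2⟩
    obtain ⟨i, hi⟩ := H279R3.helly hT (fun a : Fin 11 => {i | ∃ v ∈ (M a : Set (Fin 16)), v ∈ B i})
      (fun a => H279R3.trace_conn he hv (wconn_of_root G _ (rt a) (dd a) (by
        intro x hx
        exact M_root a x hx)))
      (by
        intro a b
        obtain ⟨x, hx, y, hy, hxy⟩ := M_touch a b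
        rcases hxy with rfl | hxy
        · obtain ⟨i, hi⟩ := hcov x
          exact ⟨i, ⟨x, hx, hi⟩, ⟨x, hy, hi⟩⟩
        · obtain ⟨i, hi1, hi2⟩ := he x y hxy
          exact ⟨i, ⟨x, hx, hi1⟩, ⟨y, hy, hi2⟩⟩)
    have h5 := hit_card (B := B i) (fun a => hi a)
    have := hk i
    omega
  · refine ⟨12, pathGraph 12, W, Pool.Agent.H46R3.Exp.path_tree 11, W_edge, ?_, ?_⟩
    · intro v
      refine Pool.Agent.H46R3.Exp.interval_connected 12 _ (v.val - 4) (min v.val 11) ?_ ?_ ?_
      · intro i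
        simp only [Set.mem_ofPred_eq, W, Finset.mem_filter, Finset.mem_univ, true_and]
        omega
      · omega
      · omega
    · intro i S hS hI
      apply W_indep i S hS
      intro x hx y hy hxy
      exact hI hx hy hxy.ne hxy
  · refine ⟨3, pathGraph 3, Y, Pool.Agent.H46R3.Exp.path_tree 2, Y_edge, ?_, ?_⟩
    · intro v
      refine Pool.Agent.H46R3.Exp.interval_connected 3 _
        (if v.val % 5 ≤ 2 then 0 else v.val % 5 - 2)
        (if v.val % 5 = 0 then 2 else min 2 (v.val % 5 - 1)) ?_ ?_ ?_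
      · intro i
        simp only [Set.mem_ofPred_eq, Y, Finset.mem_filter, Finset.mem_univ, true_and]
        split_ifs <;> omega
      · split_ifs <;> omega
      · split_ifs <;> omega
    · intro i
      obtain ⟨f, hf⟩ := Y_colour i
      refine ⟨Coloring.mk (fun u => f ⟨u.1.val % 5, Nat.mod_lt _ (by omega)⟩) ?_⟩
      intro u v huv
      exact hf u.1 u.2 v.1 v.2 huv

end Pool.Agent.S11612
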