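import Pool.Statements.S11655
import Pool.Agent.TH405.Fin

set_option autoImplicit false
open Filter
open Pool Pool.MP_d33b86_co

namespace Pool.Agent.S11655

/-- For all integers g ≥ h ≥ 2 there is an infinite set A of positive integers containing no g distinct translates of any h-element set, such that for every ε>0, eventually ∣A ∩ [1,n]∣ ≥ n^(α(g,h)−ε). -/
theorem result :
    ∀ g h : ℕ, 2 ≤ h → h ≤ g →
      ∃ A : Set ℤ,
        A ⊆ {n : ℤ | 1 ≤ n} ∧ A.Infinite ∧
        (∀ X : Finset ℤ, X.card = h → ∀ k : Fin g → ℤ, Function.Injective k →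
          ¬ (∀ i : Fin g, ∀ x ∈ X, x + k i ∈ A)) ∧
        ∀ ε : ℝ, 0 < ε →
          ∀ᶠ n : ℕ in atTop,
            (n : ℝ) ^ ((1 - 1 / (h : ℝ)) * (1 - 1 / (g : ℝ)) *
                (1 + 1 / ((h : ℝ) * (g : ℝ) - 1)) - ε)
              ≤ ((A ∩ Set.Icc (1 : ℤ) (n : ℤ)).ncard : ℝ) := by
  classical
  intro g h hh hhg
  obtain ⟨q, rfl⟩ : ∃ q, g = q + 1 := ⟨g - 1, by omega⟩
  have hq : 1 ≤ q := by omega
  obtain ⟨A, k₀, hA1, hAc, hAk⟩ := Pool.Agent.TH405.exists_nat_set h q hh hq
  have hexp : (1 - 1 / (h : ℝ)) * (1 - 1 / ((q + 1 : ℕ) : ℝ)) *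
      (1 + 1 / ((h : ℝ) * ((q + 1 : ℕ) : ℝ) - 1)) = Pool.Agent.TH405.alp h q := by
    unfold Pool.Agent.TH405.alp
    have h1 : (2 : ℝ) ≤ h := by exact_mod_cast hh
    have h2 : (1 : ℝ) ≤ q := by exact_mod_cast hq
    have h3 : (0 : ℝ) < (h : ℝ) * (q + 1) - 1 := by nlinarith
    push_cast
    field_simp
    ring
  have hinj : Function.Injective (fun a : ℕ => (a : ℤ)) := fun a b hab => by simpa using hab
  have hcard : ∀ k n : ℕ, 4 ^ (k + 1) ≤ n →
      ((Pool.Agent.TH405.Bk k).filter (· ∈ A)).card ≤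
        (((fun a : ℕ => (a : ℤ)) '' A) ∩ Set.Icc (1 : ℤ) (n : ℤ)).ncard := by
    intro k n hkn
    rw [← Finset.card_image_of_injective _ hinj, ← Set.ncard_coe_finset]
    apply Set.ncard_le_ncard _ ((Set.finite_Icc _ _).inter_of_right _)
    intro c hc
    simp only [Finset.coe_image, Finset.coe_filter, Set.mem_image, Set.mem_ofPred_eq] at hc
    obtain ⟨a, ⟨ha1, ha2⟩, rfl⟩ := hc
    refine ⟨⟨a, ha2, rfl⟩, ?_, ?_⟩
    · exact_mod_cast hA1 a ha2
    · have := Pool.Agent.TH405.Bk_lt ha1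
      exact_mod_cast (this.le.trans hkn)
  refine ⟨(fun a : ℕ => (a : ℤ)) '' A, ?_, ?_, ?_, ?_⟩
  · rintro _ ⟨a, ha, rfl⟩
    simp only [Set.mem_ofPred_eq]
    exact_mod_cast hA1 a ha
  · apply Set.Infinite.image hinj.injOn
    rw [Set.infinite_iff_exists_gt]
    intro m
    obtain ⟨h1, h2⟩ := hAk (max k₀ m) (le_max_left _ _)
    have h3 : (0 : ℝ) < ((Pool.Agent.TH405.Bk (max k₀ m)).filter (· ∈ A)).card := by linarith
    have h4 : 0 < ((Pool.Agent.TH405.Bk (max k₀ m)).filter (· ∈ A)).card := by exact_mod_cast h3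
    obtain ⟨c, hc⟩ := Finset.card_pos.1 h4
    rw [Finset.mem_filter] at hc
    refine ⟨c, hc.2, ?_⟩
    have h5 := (Pool.Agent.TH405.Bk_mem hc.1).1
    have h6 : max k₀ m < 4 ^ (max k₀ m) := Nat.lt_pow_self (by norm_num)
    have h7 : m ≤ max k₀ m := le_max_right _ _
    omega
  · intro X hX k hk hall
    obtain ⟨i₀, hi₀⟩ := Finite.exists_min k
    let f : Fin h → ℤ := fun i => ((X.equivFinOfCardEq hX).symm i : ℤ)
    have hf : Function.Injective f := fun a b hab =>
      (X.equivFinOfCardEq hX).symm.injective (Subtype.ext hab)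
    have hfX : ∀ i, f i ∈ X := fun i => ((X.equivFinOfCardEq hX).symm i).2
    have hpos : ∀ i j, ∃ a ∈ A, (a : ℤ) = f i + k j := by
      intro i j
      obtain ⟨a, ha, hab⟩ := hall j (f i) (hfX i)
      exact ⟨a, ha, hab⟩
    have hx0 : ∀ i, (((f i + k i₀).toNat : ℕ) : ℤ) = f i + k i₀ := by
      intro i
      obtain ⟨a, ha, hab⟩ := hpos i i₀
      rw [← hab]
      simp
    have hlt : ∀ j : Fin q, k i₀ < k (i₀.succAbove j) := by
      intro j
      apply lt_of_le_of_ne (hi₀ _)
      intro hcon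
      exact Fin.succAbove_ne i₀ j (hk hcon.symm)
    have hy0 : ∀ j : Fin q, (((k (i₀.succAbove j) - k i₀).toNat : ℕ) : ℤ) =
        k (i₀.succAbove j) - k i₀ := by
      intro j
      have := hlt j
      omega
    apply hAc (fun i => (f i + k i₀).toNat) (fun j => (k (i₀.succAbove j) - k i₀).toNat)
    · intro a b hab
      simp only at hab
      have h1 := hx0 a
      have h2 := hx0 b
      rw [hab] at h1
      apply hf
      omega
    · intro a b hab
      simp only at hab
      have h1 := hy0 a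
      have h2 := hy0 b
      rw [hab] at h1
      have h3 : k (i₀.succAbove a) = k (i₀.succAbove b) := by omega
      exact Fin.succAbove_right_injective (hk h3)
    · intro j
      have h1 := hlt j
      have h2 := hy0 j
      omega
    · rintro (i | ⟨i, j⟩)
      · obtain ⟨a, ha, hab⟩ := hpos i i₀
        have h1 := hx0 i
        have h2 : (f i + k i₀).toNat = a := by omega
        simp only [Pool.Agent.TH405.cell]
        rw [h2]; exact ha
      · obtain ⟨a, ha, hab⟩ := hpos i (i₀.succAbove j)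
        have h1 := hx0 i
        have h2 := hy0 j
        have h3 : (f i + k i₀).toNat + (k (i₀.succAbove j) - k i₀).toNat = a := by omega
        simp only [Pool.Agent.TH405.cell]
        rw [h3]; exact ha
  · intro ε hε
    rw [hexp]
    have ha := Pool.Agent.TH405.alp_pos h q hh hq
    set δ : ℝ := min ε (Pool.Agent.TH405.alp h q / 2) with hδ
    have hδ0 : 0 < δ := lt_min hε (half_pos ha)
    have hδa : δ < Pool.Agent.TH405.alp h q := lt_of_le_of_lt (min_le_right _ _) (by linarith)
    have h1 := (Pool.Agent.TH405.Lk_ev h q hh hδ0 hδa).and (eventually_ge_atTop k₀)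
    have h2 : Tendsto (fun n : ℕ => Nat.log 4 n - 1) atTop atTop := by
      rw [tendsto_atTop]
      intro m
      filter_upwards [eventually_ge_atTop (4 ^ (m + 1))] with n hn
      have : m + 1 ≤ Nat.log 4 n := Nat.le_log_of_pow_le (by norm_num) hn
      omega
    filter_upwards [h2.eventually h1, eventually_ge_atTop 4] with n hn hn4
    obtain ⟨hL, hk⟩ := hn
    set k := Nat.log 4 n - 1 with hkdef
    have hlog : 1 ≤ Nat.log 4 n := Nat.le_log_of_pow_le (by norm_num) (by simpa using hn4)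
    have hk1 : k + 1 = Nat.log 4 n := by omega
    have hle : 4 ^ (k + 1) ≤ n := by
      rw [hk1]
      exact Nat.pow_log_le_self 4 (by omega)
    have hlt : n < 4 ^ (k + 2) := by
      rw [show k + 2 = Nat.log 4 n + 1 by omega]
      exact Nat.lt_pow_succ_log_self (by norm_num) n
    have hn1 : (1 : ℝ) ≤ n := by
      have : 1 ≤ n := by omega
      exact_mod_cast this
    have hn2 : (n : ℝ) ≤ (4 : ℝ) ^ ((k : ℝ) + 2) := by
      have : (n : ℝ) < (4 : ℝ) ^ (k + 2) := by exact_mod_cast hlt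
      refine this.le.trans (le_of_eq ?_)
      rw [← Real.rpow_natCast]
      push_cast
      rfl
    calc (n : ℝ) ^ (Pool.Agent.TH405.alp h q - ε)
        ≤ (n : ℝ) ^ (Pool.Agent.TH405.alp h q - δ) := by
          apply Real.rpow_le_rpow_of_exponent_le hn1
          have : δ ≤ ε := min_le_left _ _
          linarith
      _ ≤ ((4 : ℝ) ^ ((k : ℝ) + 2)) ^ (Pool.Agent.TH405.alp h q - δ) :=
          Real.rpow_le_rpow (by linarith) hn2 (by linarith)
      _ = (4 : ℝ) ^ (((k : ℝ) + 2) * (Pool.Agent.TH405.alp h q - δ)) := by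
          rw [← Real.rpow_mul (by norm_num)]
      _ ≤ Pool.Agent.TH405.Lk h q k / 4 := by linarith
      _ ≤ ((Pool.Agent.TH405.Bk k).filter (· ∈ A)).card := by
          have := (hAk k hk).1
          convert this
      _ ≤ _ := by exact_mod_cast hcard k n hle

end Pool.Agent.S11655
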