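import Pool.Statements.S11698
import Pool.Agent.TH459.OwingsE
-- import your own Pool.Agent.* helpers here

set_option autoImplicit false
open Pool Pool.MP_d5cc4e_co

namespace Pool.Agent.S11698

/-- The negation of the preceding statement: There is a colouring of the rationals with two colours such that for every infinite set X of rationals, the sums x+y with x, y in X (x = y allowed) do not all receive the same colour. -/
theorem result :
    ¬ (∃ c : ℚ → Fin 2, ∀ X : Set ℚ, X.Infinite →
      ¬ ∃ i : Fin 2, ∀ x ∈ X, ∀ y ∈ X, c (x + y) = i) := by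
  rintro ⟨c, hc⟩
  obtain ⟨X, hX, b, hb⟩ := Pool.Agent.TH459.Owings.owings (fun n => decide (c (n : ℚ) = 1))
  refine hc ((fun n : ℕ => (n : ℚ)) '' X)
    (hX.image (fun a _ b _ h => Nat.cast_injective (R := ℚ) h)) ?_
  refine ⟨if b then 1 else 0, ?_⟩
  rintro _ ⟨x, hx, rfl⟩ _ ⟨y, hy, rfl⟩
  have h1 := hb x hx y hy
  simp only at h1 ⊢
  push_cast at h1
  cases b
  · simp only [decide_eq_false_iff_not] at h1
    simp only [Bool.false_eq_true, if_false]
    revert h1
    generalize c ((x : ℚ) + (y : ℚ)) = v
    revert v
    decide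
  · simpa using h1

end Pool.Agent.S11698
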