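import Pool.Statements.S11816

set_option autoImplicit false
open Pool Pool.MP_daf6f7_co

namespace Pool.Agent.S11816

/-- The hypergraph dual to the Grötzsch graph: its points are the 20 edges of the Grötzsch graph
and its 11 edges are the sets of graph edges incident with a given vertex. -/
def e : Fin 11 → Finset (Fin 20) :=
  ![{0, 4, 7, 14}, {0, 1, 6, 9}, {1, 2, 8, 11}, {2, 3, 10, 13}, {3, 4, 5, 12},
    {5, 6, 15}, {7, 8, 16}, {9, 10, 17}, {11, 12, 18}, {13, 14, 19}, {15, 16, 17, 18, 19}]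

/-- A 3-colouring of the Grötzsch graph minus the vertex `r`. -/
def tab : Fin 11 → Fin 11 → Fin 3 :=
  ![![0, 0, 1, 0, 1, 2, 0, 2, 0, 2, 1], ![0, 0, 0, 1, 2, 1, 1, 2, 1, 2, 0],
    ![0, 1, 0, 0, 1, 0, 2, 2, 0, 2, 1], ![0, 1, 0, 0, 1, 0, 2, 0, 2, 2, 1],
    ![0, 1, 0, 1, 0, 0, 2, 0, 2, 2, 1], ![0, 1, 0, 1, 2, 0, 1, 2, 1, 2, 0],
    ![0, 1, 2, 0, 1, 0, 0, 2, 0, 2, 1], ![0, 1, 0, 2, 1, 2, 1, 0, 2, 1, 0],
    ![0, 1, 0, 1, 2, 0, 2, 0, 0, 2, 1], ![0, 1, 0, 1, 2, 0, 1, 0, 1, 0, 2],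
    ![0, 1, 0, 1, 2, 0, 1, 0, 1, 2, 0]]

lemma tab_ok : ∀ r i j : Fin 11, i ≠ r → j ≠ r → i ≠ j → tab r i = tab r j →
    Disjoint (e i) (e j) := by
  decide +kernel

lemma e_nonempty : ∀ i, (e i).Nonempty := by decide

lemma indep5 : ∀ i ∈ ({5, 6, 7, 8, 9} : Finset (Fin 11)),
    ∀ j ∈ ({5, 6, 7, 8, 9} : Finset (Fin 11)), i ≠ j → Disjoint (e i) (e j) := by
  decide

lemma sup_univ : Finset.univ.sup
    (fun v : Fin 20 => (Finset.univ.filter (fun i : Fin 11 => v ∈ e i)).card) = 2 := by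
  decide +kernel

/-- The Grötzsch graph has no proper 3-colouring (Mycielski's argument). -/
lemma no_colouring (c : Fin 11 → Fin 3)
    (hc : ∀ i j, i ≠ j → c i = c j → Disjoint (e i) (e j)) : False := by
  have h : ∀ i j : Fin 11, ¬ Disjoint (e i) (e j) → i ≠ j → c i ≠ c j :=
    fun i j h1 h2 h3 => h1 (hc i j h2 h3)
  have a01 := h 0 1 (by decide) (by decide)
  have a12 := h 1 2 (by decide) (by decide)
  have a23 := h 2 3 (by decide) (by decide)
  have a34 := h 3 4 (by decide) (by decide)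
  have a40 := h 4 0 (by decide) (by decide)
  have b0 := h 5 4 (by decide) (by decide)
  have b0' := h 5 1 (by decide) (by decide)
  have b1 := h 6 0 (by decide) (by decide)
  have b1' := h 6 2 (by decide) (by decide)
  have b2 := h 7 1 (by decide) (by decide)
  have b2' := h 7 3 (by decide) (by decide)
  have b3 := h 8 2 (by decide) (by decide)
  have b3' := h 8 4 (by decide) (by decide)
  have b4 := h 9 3 (by decide) (by decide)
  have b4' := h 9 0 (by decide) (by decide)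
  have w0 := h 5 10 (by decide) (by decide)
  have w1 := h 6 10 (by decide) (by decide)
  have w2 := h 7 10 (by decide) (by decide)
  have w3 := h 8 10 (by decide) (by decide)
  have w4 := h 9 10 (by decide) (by decide)
  -- the recoloured 5-cycle avoids the colour of vertex 10
  have alt : ∀ w x y z : Fin 3, x ≠ w → y ≠ w → z ≠ w → x ≠ y → y ≠ z → z = x := by
    intro w x y z
    simp only [ne_eq, Fin.ext_iff]
    omega
  have key : ∀ w x0 x1 x2 x3 x4 : Fin 3, x0 ≠ w → x1 ≠ w → x2 ≠ w → x3 ≠ w → x4 ≠ w →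
      x0 ≠ x1 → x1 ≠ x2 → x2 ≠ x3 → x3 ≠ x4 → x4 ≠ x0 → False := by
    intro w x0 x1 x2 x3 x4 h0 h1 h2 h3 h4 h01 h12 h23 h34 h40
    have e1 := alt w x0 x1 x2 h0 h1 h2 h01 h12
    have e2 := alt w x2 x3 x4 h2 h3 h4 h23 h34
    exact h40 (e2.trans e1)
  have step : ∀ x u y v w : Fin 3, x ≠ y → u ≠ y → v ≠ x → u ≠ w → v ≠ w →
      (if x = w then u else x) ≠ (if y = w then v else y) := by decide
  have ne : ∀ x u w : Fin 3, u ≠ w → (if x = w then u else x) ≠ w := by decide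
  exact key (c 10) (if c 0 = c 10 then c 5 else c 0) (if c 1 = c 10 then c 6 else c 1)
    (if c 2 = c 10 then c 7 else c 2) (if c 3 = c 10 then c 8 else c 3)
    (if c 4 = c 10 then c 9 else c 4)
    (ne _ _ _ w0) (ne _ _ _ w1) (ne _ _ _ w2) (ne _ _ _ w3) (ne _ _ _ w4)
    (step _ _ _ _ _ a01 b0' b1 w0 w1) (step _ _ _ _ _ a12 b1' b2 w1 w2)
    (step _ _ _ _ _ a23 b2' b3 w2 w3) (step _ _ _ _ _ a34 b3' b4 w3 w4)
    (step _ _ _ _ _ a40 b4' b0 w4 w0)

lemma cond (S : Finset (Fin 11)) : ∃ M ⊆ S,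
    (∀ i ∈ M, ∀ j ∈ M, i ≠ j → Disjoint (e i) (e j)) ∧
    S.card ≤ M.card *
      (Finset.univ.sup (fun v : Fin 20 => (S.filter (fun i => v ∈ e i)).card) + 1) := by
  by_cases hind : ∀ i ∈ S, ∀ j ∈ S, i ≠ j → Disjoint (e i) (e j)
  · exact ⟨S, subset_rfl, hind, Nat.le_mul_of_pos_right _ (Nat.succ_pos _)⟩
  · push Not at hind
    obtain ⟨i, hi, j, hj, hij, hd⟩ := hind
    rw [Finset.not_disjoint_iff] at hd
    obtain ⟨v, hvi, hvj⟩ := hd
    have h2 : 2 ≤ Finset.univ.sup
        (fun v : Fin 20 => (S.filter (fun i => v ∈ e i)).card) := by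
      refine le_trans ?_ (Finset.le_sup (f := fun v : Fin 20 =>
        (S.filter (fun i => v ∈ e i)).card) (Finset.mem_univ v))
      have : 1 < (S.filter (fun i => v ∈ e i)).card :=
        Finset.one_lt_card.mpr ⟨i, by simp [hi, hvi], j, by simp [hj, hvj], hij⟩
      exact this
    suffices hM : ∃ M ⊆ S, (∀ i ∈ M, ∀ j ∈ M, i ≠ j → Disjoint (e i) (e j)) ∧
        S.card ≤ M.card * 3 by
      obtain ⟨M, hMS, hMi, hMc⟩ := hM
      exact ⟨M, hMS, hMi, hMc.trans (Nat.mul_le_mul_left _ (by omega))⟩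
    by_cases hS : S = Finset.univ
    · subst hS
      exact ⟨{5, 6, 7, 8, 9}, Finset.subset_univ _, indep5, by simp⟩
    · obtain ⟨r, hr⟩ : ∃ r, r ∉ S := by
        by_contra hcon
        push Not at hcon
        exact hS (Finset.eq_univ_of_forall hcon)
      have hsum : S.card = ∑ a : Fin 3, (S.filter (fun i => tab r i = a)).card :=
        Finset.card_eq_sum_card_fiberwise (fun _ _ => Finset.mem_coe.mpr (Finset.mem_univ _))
      have hex : ∃ a : Fin 3, S.card ≤ (S.filter (fun i => tab r i = a)).card * 3 := by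
        by_contra hcon
        push Not at hcon
        have h0 := hcon 0
        have h1 := hcon 1
        have h2 := hcon 2
        rw [Fin.sum_univ_three] at hsum
        omega
      obtain ⟨a, ha⟩ := hex
      refine ⟨S.filter (fun i => tab r i = a), Finset.filter_subset _ _, ?_, ha⟩
      intro i hi j hj hij
      rw [Finset.mem_filter] at hi hj
      exact tab_ok r i j (fun h => hr (h ▸ hi.1)) (fun h => hr (h ▸ hj.1)) hij
        (hi.2.trans hj.2.symm)

theorem result :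
    ¬ (∀ (V : Type) [Fintype V] [DecidableEq V] (m : ℕ) (e : Fin m → Finset V),
    (∀ i, (e i).Nonempty) →
    (∀ S : Finset (Fin m), ∃ M ⊆ S,
        (∀ i ∈ M, ∀ j ∈ M, i ≠ j → Disjoint (e i) (e j)) ∧
        S.card ≤ M.card *
          (Finset.univ.sup (fun v : V => (S.filter (fun i => v ∈ e i)).card) + 1)) →
    ∃ c : Fin m → Fin (Finset.univ.sup
        (fun v : V => (Finset.univ.filter (fun i : Fin m => v ∈ e i)).card) + 1),
      ∀ i j, i ≠ j → c i = c j → Disjoint (e i) (e j)) := by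
  intro h
  obtain ⟨c, hc⟩ := h (Fin 20) 11 e e_nonempty cond
  refine no_colouring (fun i => Fin.cast (by rw [sup_univ]) (c i)) ?_
  intro i j hij hcij
  exact hc i j hij (by simpa using hcij)

end Pool.Agent.S11816
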