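import Pool.Statements.S11942
import Pool.Agent.TH433.Three

set_option autoImplicit false
open Pool Pool.MP_df4dc5_co

namespace Pool.Agent.S11942

/-- The negation of the preceding statement: There is a clutter that is minimally non-ideal (non-ideal, every proper deletion/contraction minor ideal) whose minimum-size members form the lines of a non-degenerate projective plane on all its elements, with lines of size at least 4 (order above two). -/
theorem result :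
    ¬ (∃ (n : ℕ) (C : Finset (Finset (Fin n))),
      IsAntichain (· ⊆ ·) (C : Set (Finset (Fin n))) ∧
      (∃ x ∈ Set.extremePoints ℝ
          {x : Fin n → ℝ | (∀ i, 0 ≤ x i) ∧ ∀ S ∈ C, (1 : ℝ) ≤ ∑ i ∈ S, x i},
        ∃ i : Fin n, ∀ z : ℤ, x i ≠ (z : ℝ)) ∧
      (∀ I J : Finset (Fin n), Disjoint I J → (I ∪ J).Nonempty →
        ∀ x ∈ Set.extremePoints ℝ
            {x : Fin n → ℝ | (∀ i, 0 ≤ x i) ∧ (∀ i ∈ I ∪ J, x i = 0) ∧
              ∀ S ∈ C, Disjoint S I → (1 : ℝ) ≤ ∑ i ∈ S, x i},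
          ∀ i : Fin n, ∃ z : ℤ, x i = (z : ℝ)) ∧
      ∃ r : ℕ, 4 ≤ r ∧ (∀ S ∈ C, r ≤ S.card) ∧
        (∀ p q : Fin n, p ≠ q →
          ∃! ℓ : Finset (Fin n), ℓ ∈ C ∧ ℓ.card = r ∧ p ∈ ℓ ∧ q ∈ ℓ) ∧
        (∀ ℓ ∈ C, ∀ m ∈ C, ℓ.card = r → m.card = r → ℓ ≠ m →
          ∃! p : Fin n, p ∈ ℓ ∧ p ∈ m) ∧
        (∃ F : Finset (Fin n), F.card = 4 ∧
          ∀ ℓ ∈ C, ℓ.card = r → (F ∩ ℓ).card ≤ 2)) := by
  rintro ⟨n, C, -, -, hC, r, hr, hmin, hline, hmeet, F, hF4, hF⟩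
  obtain ⟨q, rfl⟩ : ∃ q, r = q + 1 := ⟨r - 1, by omega⟩
  have hq : 3 ≤ q := by omega
  have hP : Pool.Agent.TH433.IsPlane (C.filter (fun l => l.card = q + 1)) q := by
    refine ⟨?_, ?_, ?_, ?_, ?_⟩
    · intro l hl
      exact (Finset.mem_filter.1 hl).2
    · intro p p' hpp
      obtain ⟨l, ⟨h1, h2, h3, h4⟩, -⟩ := hline p p' hpp
      exact ⟨l, Finset.mem_filter.2 ⟨h1, h2⟩, h3, h4⟩
    · intro l hl m hm p p' hpp h1 h2 h3 h4
      rw [Finset.mem_filter] at hl hm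
      exact (hline p p' hpp).unique ⟨hl.1, hl.2, h1, h2⟩ ⟨hm.1, hm.2, h3, h4⟩
    · intro l hl m hm
      rw [Finset.mem_filter] at hl hm
      by_cases hlm : l = m
      · subst hlm
        have h1 : 0 < l.card := by omega
        obtain ⟨p, hp⟩ := Finset.card_pos.1 h1
        exact ⟨p, hp, hp⟩
      · obtain ⟨p, ⟨h1, h2⟩, -⟩ := hmeet l hl.1 m hm.1 hl.2 hm.2 hlm
        exact ⟨p, h1, h2⟩
    · refine ⟨F, hF4, fun l hl => ?_⟩
      rw [Finset.mem_filter] at hl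
      exact hF l hl.1 hl.2
  have hLC : C.filter (fun l => l.card = q + 1) ⊆ C := Finset.filter_subset _ _
  rcases Nat.lt_or_ge 3 q with h | h
  · exact Pool.Agent.TH433.no_large hP h hLC hmin hC
  · have h3 : q = 3 := by omega
    subst h3
    exact Pool.Agent.TH433.no_three hP hLC hmin hC

end Pool.Agent.S11942
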