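import Pool.Statements.S11986
import Pool.Agent.TH465.TT.Lim

set_option autoImplicit false
open Filter Topology
open Pool Pool.MP_e10300_co

namespace Pool.Agent.S11986

open Pool.Agent.TH465.TT in
/-- The sequence of graphs: blow-ups of tensor powers of complete graphs. -/
theorem exists_seq (s : ℕ) (hs : 2 ≤ s) (a : ℝ) :
    ∃ M : ℕ → ℕ, Tendsto M atTop atTop ∧
      Tendsto (fun n : ℕ => P (M n) / ((Real.log n) ^ a * (n : ℝ) ^ (-(1 / (s : ℝ)))))
        atTop atTop ∧
      Tendsto (fun n : ℕ => sp (M n) (⊤ : SimpleGraph (Fin 2)).Adj 2 1 n) atTop (𝓝 1) ∧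
      Tendsto (fun n : ℕ => sp (M n) (SimpleGraph.cycleGraph 4).Adj 4 4 n) atTop (𝓝 1) ∧
      (∀ t : ℕ, ∀ᶠ n in atTop,
        sp (M n) (completeBipartiteGraph (Fin s) (Fin t)).Adj (s + t) (s * t) n ≤
          Real.exp (s ^ 2 * 2 ^ (s * t)) + 1) ∧
      ∀ᶠ n in atTop, sp (M n) (SimpleGraph.cycleGraph 3).Adj 3 3 n ≤ 1 / 2 := by
  obtain ⟨M, hM, hA⟩ := diag (fun m n =>
    |sp m (⊤ : SimpleGraph (Fin 2)).Adj 2 1 n - 1| < 1 / ((m : ℝ) + 1) ∧
    |sp m (SimpleGraph.cycleGraph 4).Adj 4 4 n - tv m (SimpleGraph.cycleGraph 4).Adj 4 4| <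
      1 / ((m : ℝ) + 1) ∧
    (∀ t ∈ Finset.range (m + 1),
      sp m (completeBipartiteGraph (Fin s) (Fin t)).Adj (s + t) (s * t) n <
        Real.exp (s ^ 2 * 2 ^ (s * t)) + 1) ∧
    sp m (SimpleGraph.cycleGraph 3).Adj 3 3 n < 1 / 2 ∧
    (m : ℝ) ≤ P m / ((Real.log n) ^ a * (n : ℝ) ^ (-(1 / (s : ℝ))))) (by
    intro m
    have hm : (0 : ℝ) < 1 / ((m : ℝ) + 1) := by positivity
    refine Filter.Eventually.and ?_ (Filter.Eventually.and ?_ (Filter.Eventually.and ?_
      (Filter.Eventually.and ?_ ?_)))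
    · have h := sp_lim m (⊤ : SimpleGraph (Fin 2)).Adj 2 1 (by simp)
      rw [tv_K2] at h
      have h' := (Metric.tendsto_nhds.1 h) _ hm
      simpa [Real.dist_eq] using h'
    · have h := sp_lim m (SimpleGraph.cycleGraph 4).Adj 4 4 (by simp)
      have h' := (Metric.tendsto_nhds.1 h) _ hm
      simpa [Real.dist_eq] using h'
    · rw [Filter.eventually_all_finset]
      intro t _
      have h := sp_lim m (completeBipartiteGraph (Fin s) (Fin t)).Adj (s + t) (s * t) (by simp)
      have hlt : tv m (completeBipartiteGraph (Fin s) (Fin t)).Adj (s + t) (s * t) <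
          Real.exp (s ^ 2 * 2 ^ (s * t)) + 1 :=
        lt_of_le_of_lt (tv_bip s t m (by omega)) (by linarith)
      exact h.eventually_lt_const hlt
    · have h := sp_lim m (SimpleGraph.cycleGraph 3).Adj 3 3 (by simp)
      have he : Real.exp (-1) < 1 / 2 := by
        have h1 := Real.exp_one_gt_d9
        rw [Real.exp_neg, inv_eq_one_div, div_lt_div_iff₀ (Real.exp_pos 1) (by norm_num)]
        linarith
      exact h.eventually_lt_const (lt_of_le_of_lt (tv_C3 m) he)
    · exact (dens_lim s hs a (P m) (P_pos m)).eventually_ge_atTop (m : ℝ))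
  have hMR : Tendsto (fun n => (M n : ℝ)) atTop atTop := tendsto_natCast_atTop_atTop.comp hM
  have hinv : Tendsto (fun n => 1 / ((M n : ℝ) + 1)) atTop (𝓝 0) :=
    (tendsto_one_div_add_atTop_nhds_zero_nat (𝕜 := ℝ)).comp hM
  refine ⟨M, hM, ?_, ?_, ?_, ?_, ?_⟩
  · refine tendsto_atTop_mono' _ ?_ hMR
    filter_upwards [hA] with n hn
    exact hn.2.2.2.2
  · rw [tendsto_iff_norm_sub_tendsto_zero]
    refine squeeze_zero' (Filter.Eventually.of_forall fun n => norm_nonneg _) ?_ hinv
    filter_upwards [hA] with n hn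
    exact hn.1.le
  · have h1 : Tendsto (fun n => Real.exp (1 / ((M n : ℝ) + 1))) atTop (𝓝 1) := by
      have := (Real.continuous_exp.tendsto 0).comp hinv
      rwa [Real.exp_zero] at this
    have h2 : Tendsto (fun n => Real.exp (1 / ((M n : ℝ) + 1)) + 1 / ((M n : ℝ) + 1)) atTop
        (𝓝 1) := by
      simpa using h1.add hinv
    have h3 : Tendsto (fun n => 1 - 1 / ((M n : ℝ) + 1)) atTop (𝓝 1) := by
      simpa using (tendsto_const_nhds (x := (1 : ℝ))).sub hinv
    refine tendsto_of_tendsto_of_tendsto_of_le_of_le' h3 h2 ?_ ?_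
    · filter_upwards [hA] with n hn
      have h4 := abs_lt.1 hn.2.1
      have h5 := (tv_C4 (M n)).1
      linarith [h4.1]
    · filter_upwards [hA] with n hn
      have h4 := abs_lt.1 hn.2.1
      have h5 := (tv_C4 (M n)).2
      linarith [h4.2]
  · intro t
    filter_upwards [hA, hM.eventually_ge_atTop t] with n hn ht
    exact (hn.2.2.1 t (Finset.mem_range.2 (by omega))).le
  · filter_upwards [hA] with n hn
    exact hn.2.2.2.1.le

/-- The negation of the preceding statement: There are s≥2, a>0 such that whenever p(n)/((log n)^a n^(-1/s))→∞ and n-vertex graphs have normalized labelled K2 and C4 counts tending to 1 and bounded normalized K_{s,t} counts for each t, the normalized triangle count tends to 1. -/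
theorem result :
    ¬ (∃ s : ℕ, 2 ≤ s ∧ ∃ a : ℝ, 0 < a ∧
      ∀ p : ℕ → ℝ, (∀ n, 0 < p n ∧ p n ≤ 1) →
        Tendsto (fun n : ℕ => p n / ((Real.log n) ^ a * (n : ℝ) ^ (-(1 / (s : ℝ))))) atTop atTop →
        ∀ G : ∀ n : ℕ, SimpleGraph (Fin n),
          Tendsto (fun n : ℕ =>
            (Set.ncard {f : Fin 2 → Fin n | Function.Injective f ∧
                ∀ i j, (⊤ : SimpleGraph (Fin 2)).Adj i j → (G n).Adj (f i) (f j)} : ℝ) /
              ((n.descFactorial 2 : ℝ) * p n ^ 1)) atTop (𝓝 1) →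
          Tendsto (fun n : ℕ =>
            (Set.ncard {f : Fin 4 → Fin n | Function.Injective f ∧
                ∀ i j, (SimpleGraph.cycleGraph 4).Adj i j → (G n).Adj (f i) (f j)} : ℝ) /
              ((n.descFactorial 4 : ℝ) * p n ^ 4)) atTop (𝓝 1) →
          (∀ t : ℕ, 1 ≤ t → ∃ C : ℝ, ∀ n : ℕ,
            (Set.ncard {f : Fin s ⊕ Fin t → Fin n | Function.Injective f ∧
                ∀ i j, (completeBipartiteGraph (Fin s) (Fin t)).Adj i j → (G n).Adj (f i) (f j)} : ℝ) /
              ((n.descFactorial (s + t) : ℝ) * p n ^ (s * t)) ≤ C) →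
          Tendsto (fun n : ℕ =>
            (Set.ncard {f : Fin 3 → Fin n | Function.Injective f ∧
                ∀ i j, (SimpleGraph.cycleGraph 3).Adj i j → (G n).Adj (f i) (f j)} : ℝ) /
              ((n.descFactorial 3 : ℝ) * p n ^ 3)) atTop (𝓝 1)) := by
  rintro ⟨s, hs, a, _, H⟩
  obtain ⟨M, -, hdens, hK2, hC4, hbip, hC3⟩ := exists_seq s hs a
  have hfin := H (fun n => Pool.Agent.TH465.TT.P (M n))
    (fun n => ⟨Pool.Agent.TH465.TT.P_pos _, Pool.Agent.TH465.TT.P_le_one _⟩) hdens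
    (fun n => Pool.Agent.TH465.TT.Gr (M n) n) hK2 hC4 (by
      intro t _
      obtain ⟨N, hN⟩ := eventually_atTop.1 (hbip t)
      refine ⟨Real.exp (s ^ 2 * 2 ^ (s * t)) + 1 + ∑ n ∈ Finset.range N,
        |Pool.Agent.TH465.TT.sp (M n) (completeBipartiteGraph (Fin s) (Fin t)).Adj (s + t)
          (s * t) n|, ?_⟩
      intro n
      change Pool.Agent.TH465.TT.sp (M n) (completeBipartiteGraph (Fin s) (Fin t)).Adj (s + t)
        (s * t) n ≤ _
      by_cases hn : N ≤ n
      · have h1 := hN n hn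
        have h2 : 0 ≤ ∑ n ∈ Finset.range N,
            |Pool.Agent.TH465.TT.sp (M n) (completeBipartiteGraph (Fin s) (Fin t)).Adj (s + t)
              (s * t) n| := Finset.sum_nonneg fun _ _ => abs_nonneg _
        linarith
      · push Not at hn
        have h1 := Finset.single_le_sum (f := fun n =>
          |Pool.Agent.TH465.TT.sp (M n) (completeBipartiteGraph (Fin s) (Fin t)).Adj (s + t)
            (s * t) n|) (fun _ _ => abs_nonneg _) (Finset.mem_range.2 hn)
        have h2 := le_abs_self (Pool.Agent.TH465.TT.sp (M n)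
          (completeBipartiteGraph (Fin s) (Fin t)).Adj (s + t) (s * t) n)
        have h3 : 0 < Real.exp (s ^ 2 * 2 ^ (s * t)) := Real.exp_pos _
        linarith)
  have h1 : ∀ᶠ n in atTop, 1 / 2 <
      Pool.Agent.TH465.TT.sp (M n) (SimpleGraph.cycleGraph 3).Adj 3 3 n :=
    hfin.eventually_const_lt (by norm_num)
  obtain ⟨n, h2, h3⟩ := (h1.and hC3).exists
  linarith

end Pool.Agent.S11986
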