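import Pool.Statements.S12060
import Pool.Agent.Results.MP_e3c312_co.CuspSymmetry

set_option autoImplicit false
open Pool Pool.MP_e3c312_co

namespace Pool.Agent.S12060

open Pool.Agent.Results.MP_e3c312_co.CuspSymmetry

open scoped Topology

/-- two placements are related when an isometry maps the first one onto the second one -/
abbrev Rl : (Fin 7 → E 3) → (Fin 7 → E 3) → Prop :=
  fun q q' => ∃ T : E 3 ≃ᵢ E 3, ∀ i, T (q i) = q' i

theorem rl_equiv : Equivalence Rl where
  refl q := ⟨IsometryEquiv.refl _, fun _ => rfl⟩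
  symm := by
    rintro q q' ⟨T, h⟩
    exact ⟨T.symm, fun i => by rw [← h i, T.symm_apply_apply]⟩
  trans := by
    rintro q q' q'' ⟨T, h⟩ ⟨T', h'⟩
    exact ⟨T.trans T', fun i => by rw [← h' i, ← h i]; rfl⟩

theorem rl_of_eq {q q' : Fin 7 → E 3} (h : Quot.mk Rl q = Quot.mk Rl q') : Rl q q' :=
  rl_equiv.eqvGen_iff.1 (Quot.eqvGen_exact h)

/-- the invariant -/
noncomputable def inv' (q : Fin 7 → E 3) : ℝ := dist (q 2) (q 6) ^ 2 - dist (q 1) (q 6) ^ 2

theorem inv'_congr (q q' : Fin 7 → E 3) (h : Rl q q') : inv' q = inv' q' := by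
  obtain ⟨T, hT⟩ := h
  unfold inv'
  rw [← hT 1, ← hT 2, ← hT 6, T.dist_eq, T.dist_eq]

theorem inv'_continuous : Continuous inv' := by
  unfold inv'
  fun_prop

/-- the invariant on the quotient -/
noncomputable def invQ : Quot Rl → ℝ := Quot.lift inv' inv'_congr

theorem invQ_continuous : Continuous invQ := continuous_quot_lift inv'_congr inv'_continuous

theorem inv'_std {x : ℝ} (hx : x ∈ Dom) : inv' (std x) = 4 * fh x := inv_std hx

theorem dom_scale' (y : Set.Ioo (0 : ℝ) 1) : (2 * (y : ℝ) - 1) / 10 ∈ Dom := by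
  obtain ⟨y, h1, h2⟩ := y
  constructor <;> simp only <;> linarith

/-- the curve of classes, parametrised by the open unit interval -/
noncomputable def crv (y : Set.Ioo (0 : ℝ) 1) : Quot Rl := Quot.mk Rl (std ((2 * (y : ℝ) - 1) / 10))

theorem crv_continuous : Continuous crv := by
  unfold crv
  refine continuous_quot_mk.comp ?_
  refine cont_std.comp_continuous (by fun_prop) ?_
  exact fun y => dom_scale' y

theorem invQ_crv (y : Set.Ioo (0 : ℝ) 1) : invQ (crv y) = 4 * fh ((2 * (y : ℝ) - 1) / 10) :=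
  inv'_std (dom_scale' y)

theorem crv_isEmbedding : Topology.IsEmbedding crv := by
  refine Topology.IsEmbedding.of_comp crv_continuous invQ_continuous ?_
  have hc : Continuous (invQ ∘ crv) := invQ_continuous.comp crv_continuous
  have hm : StrictMono (invQ ∘ crv) := by
    intro y y' h
    simp only [Function.comp, invQ_crv]
    have h' : (2 * (y : ℝ) - 1) / 10 < (2 * (y' : ℝ) - 1) / 10 := by
      have : (y : ℝ) < y' := h
      linarith
    have := fh_strictMono (dom_scale' y) (dom_scale' y') h'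
    linarith
  refine hm.isEmbedding_of_ordConnected ?_
  have : PreconnectedSpace (Set.Ioo (0 : ℝ) 1) :=
    Subtype.preconnectedSpace isPreconnected_Ioo
  exact (isPreconnected_range hc).ordConnected

/-- the local conditions -/
def Near' (q : Fin 7 → E 3) : Prop :=
  0 < dist (q 1) (q 2) ∧ dist (q 1) (q 2) ^ 2 < 8 ∧
    |dist (q 3) (q 4) ^ 2 - 25| < 12 / 100 ∧ dist (q 3) (q 5) ^ 2 < 5661

theorem near'_congr (q q' : Fin 7 → E 3) (h : Rl q q') (hq : Near' q) : Near' q' := by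
  obtain ⟨T, hT⟩ := h
  unfold Near' at *
  rw [← hT 1, ← hT 2, ← hT 3, ← hT 4, ← hT 5, T.dist_eq, T.dist_eq, T.dist_eq]
  exact hq

theorem near'_isOpen : IsOpen {q : Fin 7 → E 3 | Near' q} := by
  have c12 : Continuous fun q : Fin 7 → E 3 => dist (q 1) (q 2) := by fun_prop
  have c34 : Continuous fun q : Fin 7 → E 3 => dist (q 3) (q 4) := by fun_prop
  have c35 : Continuous fun q : Fin 7 → E 3 => dist (q 3) (q 5) := by fun_prop
  refine (isOpen_lt continuous_const c12).inter ((isOpen_lt (c12.pow 2) continuous_const).inter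
    ((isOpen_lt ((c34.pow 2).sub continuous_const).abs continuous_const).inter
      (isOpen_lt (c35.pow 2) continuous_const)))

/-- the open set of the quotient -/
def OO : Set (Quot Rl) := Quot.mk Rl '' {q | Near' q}

theorem OO_isOpen : IsOpen OO := by
  refine (isQuotientMap_quot_mk (r := Rl)).isOpen_preimage.1 ?_
  convert near'_isOpen using 1
  ext q
  constructor
  · rintro ⟨q', hq', h⟩
    exact near'_congr q' q (rl_of_eq h) hq'
  · intro hq
    exact ⟨q, hq, rfl⟩

/-- the classes of the placements with the edge lengths of `p7` -/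
def SS : Set (Quot Rl) :=
  {x | ∃ q : Fin 7 → E 3, Quot.mk Rl q = x ∧ ∀ i j, G7.Adj i j → dist (q i) (q j) = dist (p7 i) (p7 j)}

theorem near'_std {x : ℝ} (hx : x ∈ Dom) : Near' (std x) := by
  have hX0 : 0 ≤ x ^ 2 := sq_nonneg x
  have hX := dom_X hx
  have hr := rel_std hx
  obtain ⟨h12, h34, h35, _, _, _, _⟩ := hr.nonedges
  have hz := hr.z0
  have hA := hr.hA
  have hz2 : fz (x ^ 2) ^ 2 < 2 := by
    have : 0 < fs (x ^ 2) := by
      have := hr.hs
      have := hr.P0
      unfold fs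
      positivity
    nlinarith
  refine ⟨?_, ?_, ?_, ?_⟩
  · have : dist (std x 1) (std x 2) ≠ 0 := by
      intro h
      have h12' : dist (std x 1) (std x 2) ^ 2 = 4 * fz (x ^ 2) ^ 2 := h12
      rw [h] at h12'
      have : 0 < fz (x ^ 2) ^ 2 := by positivity
      linarith
    positivity
  · have h12' : dist (std x 1) (std x 2) ^ 2 = 4 * fz (x ^ 2) ^ 2 := h12
    rw [h12']; linarith
  · have h34' : dist (std x 3) (std x 4) ^ 2 = 25 + 12 * x ^ 2 := h34
    rw [h34', abs_lt]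
    constructor <;> linarith
  · have h35' : dist (std x 3) (std x 5) ^ 2 = 5121 + 180 * x ^ 2 := h35
    rw [h35']; linarith

theorem range_crv : Set.range crv = OO ∩ SS := by
  apply Set.Subset.antisymm
  · rintro _ ⟨y, rfl⟩
    exact ⟨⟨std _, near'_std (dom_scale' y), rfl⟩, ⟨std _, rfl, fun i j h => std_mem (dom_scale' y) i j h⟩⟩
  · rintro _ ⟨⟨q, hq, rfl⟩, ⟨q', hq', h'⟩⟩
    have hn : Near' q' := near'_congr q q' (rl_equiv.symm (rl_of_eq hq')) hq
    obtain ⟨h1, h2, h3, h4⟩ := hn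
    obtain ⟨T, x, hx, hT⟩ := local_unique q' h' h1 h2 h3 h4
    have hx10 : (10 * x + 1) / 2 ∈ Set.Ioo (0 : ℝ) 1 := by
      obtain ⟨a, b⟩ := hx
      constructor <;> linarith
    refine ⟨⟨(10 * x + 1) / 2, hx10⟩, ?_⟩
    rw [← hq']
    refine Quot.sound ?_
    refine ⟨T.symm, fun i => ?_⟩
    show T.symm (std ((2 * ((10 * x + 1) / 2) - 1) / 10) i) = q' i
    have e : (2 * ((10 * x + 1) / 2) - 1) / 10 = x := by ring
    rw [e, ← hT i, T.symm_apply_apply]

/-- the chart -/
noncomputable def chartH : ↥(OO ∩ SS) ≃ₜ ↥(Set.Ioo (0 : ℝ) 1) :=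
  (Homeomorph.setCongr range_crv.symm).trans crv_isEmbedding.toHomeomorph.symm

theorem chartH_symm (y : Set.Ioo (0 : ℝ) 1) : (chartH.symm y).1 = crv y := rfl

/-- the reflection group -/
def GG : Subgroup (E 3 ≃ᵢ E 3) where
  carrier := {g | g = 1 ∨ g = refl3}
  one_mem' := Or.inl rfl
  mul_mem' := by
    rintro a b (rfl | rfl) (rfl | rfl)
    · left; simp
    · right; simp
    · right; simp
    · left; exact refl3_mul
  inv_mem' := by
    rintro a (rfl | rfl)
    · left; simp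
    · right; exact inv_eq_of_mul_eq_one_left refl3_mul

/-- the reflection as an element of the group -/
noncomputable def rGG : GG := ⟨refl3, Or.inr rfl⟩

theorem GG_cases (g : GG) : g = 1 ∨ g = rGG := by
  obtain ⟨g, hg⟩ := g
  rcases hg with h | h
  · left; exact Subtype.ext h
  · right; exact Subtype.ext h

theorem rGG_mul : rGG * rGG = 1 := Subtype.ext refl3_mul

theorem rGG_ne : rGG ≠ 1 := fun h => refl3_ne (congrArg Subtype.val h)

open Classical in
/-- the homomorphism to the permutation group -/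
noncomputable def thetaG : GG →* Equiv.Perm (Fin 7) :=
  MonoidHom.mk' (fun g => if g = 1 then 1 else Equiv.swap 1 2) (by
    intro g h
    rcases GG_cases g with rfl | rfl <;> rcases GG_cases h with rfl | rfl
    · simp
    · simp
    · simp
    · rw [rGG_mul, if_pos rfl, if_neg rGG_ne, Equiv.swap_mul_self])

theorem thetaG_rGG : thetaG rGG = Equiv.swap 1 2 := by
  simp [thetaG, rGG_ne]

theorem GG_finite : Finite GG := by
  have : Finite ({1, refl3} : Set (E 3 ≃ᵢ E 3)) := Set.toFinite _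
  exact this

theorem GG_adj (g : GG) (u v : Fin 7) : G7.Adj u v ↔ G7.Adj (thetaG g u) (thetaG g v) := by
  rcases GG_cases g with rfl | rfl
  · rw [map_one]; rfl
  · rw [thetaG_rGG]
    exact (sw0.map_rel_iff' (a := u) (b := v)).symm

theorem GG_symm (g : GG) (i : Fin 7) : (g : E 3 ≃ᵢ E 3) (p7 i) = p7 (thetaG g i) := by
  rcases GG_cases g with rfl | rfl
  · rw [map_one]; rfl
  · rw [thetaG_rGG]
    have h := p7_symm rG i
    rw [theta_rG] at h
    exact h


/-- The negation of the preceding statement: For any Γ-symmetric framework in ℝ^d, every expansive motion tracing one half-branch of a neighbourhood of [p] homeomorphic to an interval in the configuration space mod isometries can be moved by continuous isometries so it stays Γ-symmetric. -/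
theorem result :
    ¬ (∀ (d : ℕ) (V : Type) [Fintype V] (G : SimpleGraph V) (p : V → EuclideanSpace ℝ (Fin d))
    (Γ : Subgroup (EuclideanSpace ℝ (Fin d) ≃ᵢ EuclideanSpace ℝ (Fin d))) [Finite Γ]
    (θ : Γ →* Equiv.Perm V),
    (∀ γ : Γ, ∀ u v : V, G.Adj u v ↔ G.Adj (θ γ u) (θ γ v)) →
    (∀ γ : Γ, ∀ i : V,
      (γ : EuclideanSpace ℝ (Fin d) ≃ᵢ EuclideanSpace ℝ (Fin d)) (p i) = p (θ γ i)) →
    ∀ m : ℝ → V → EuclideanSpace ℝ (Fin d),
      ContinuousOn m (Set.Icc 0 1) → m 0 = p →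
      (∀ t ∈ Set.Icc (0:ℝ) 1, ∀ i j : V, G.Adj i j → dist (m t i) (m t j) = dist (p i) (p j)) →
      (∀ i j : V, MonotoneOn (fun t => dist (m t i) (m t j)) (Set.Icc (0:ℝ) 1)) →
      (∃ t ∈ Set.Icc (0:ℝ) 1, ∃ i j : V, dist (m t i) (m t j) ≠ dist (p i) (p j)) →
      Set.InjOn (fun t => Quot.mk (fun q q' : V → EuclideanSpace ℝ (Fin d) =>
          ∃ T : EuclideanSpace ℝ (Fin d) ≃ᵢ EuclideanSpace ℝ (Fin d), ∀ i, T (q i) = q' i) (m t))
        (Set.Icc (0:ℝ) 1) →
      (∃ O : Set (Quot (fun q q' : V → EuclideanSpace ℝ (Fin d) =>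
          ∃ T : EuclideanSpace ℝ (Fin d) ≃ᵢ EuclideanSpace ℝ (Fin d), ∀ i, T (q i) = q' i)),
        IsOpen O ∧
        ∃ h : ↥(O ∩ {x : Quot (fun q q' : V → EuclideanSpace ℝ (Fin d) =>
              ∃ T : EuclideanSpace ℝ (Fin d) ≃ᵢ EuclideanSpace ℝ (Fin d), ∀ i, T (q i) = q' i) |
              ∃ q : V → EuclideanSpace ℝ (Fin d),
                Quot.mk (fun q q' : V → EuclideanSpace ℝ (Fin d) =>
                  ∃ T : EuclideanSpace ℝ (Fin d) ≃ᵢ EuclideanSpace ℝ (Fin d), ∀ i, T (q i) = q' i) q = x ∧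
                ∀ i j : V, G.Adj i j → dist (q i) (q j) = dist (p i) (p j)}) ≃ₜ ↥(Set.Ioo (0:ℝ) 1),
        ∃ a : Set.Ioo (0:ℝ) 1,
          (h.symm a).1 = Quot.mk (fun q q' : V → EuclideanSpace ℝ (Fin d) =>
            ∃ T : EuclideanSpace ℝ (Fin d) ≃ᵢ EuclideanSpace ℝ (Fin d), ∀ i, T (q i) = q' i) p ∧
          ((∀ t ∈ Set.Ioc (0:ℝ) 1, ∃ b : Set.Ioo (0:ℝ) 1,
              (h.symm b).1 = Quot.mk (fun q q' : V → EuclideanSpace ℝ (Fin d) =>
                ∃ T : EuclideanSpace ℝ (Fin d) ≃ᵢ EuclideanSpace ℝ (Fin d), ∀ i, T (q i) = q' i) (m t) ∧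
              (a : ℝ) < (b : ℝ)) ∨
           (∀ t ∈ Set.Ioc (0:ℝ) 1, ∃ b : Set.Ioo (0:ℝ) 1,
              (h.symm b).1 = Quot.mk (fun q q' : V → EuclideanSpace ℝ (Fin d) =>
                ∃ T : EuclideanSpace ℝ (Fin d) ≃ᵢ EuclideanSpace ℝ (Fin d), ∀ i, T (q i) = q' i) (m t) ∧
              (b : ℝ) < (a : ℝ)))) →
      ∃ T : ℝ → (EuclideanSpace ℝ (Fin d) ≃ᵢ EuclideanSpace ℝ (Fin d)),
        (∀ x, T 0 x = x) ∧
        (∀ x, ContinuousOn (fun t => T t x) (Set.Icc (0:ℝ) 1)) ∧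
        ∀ t ∈ Set.Icc (0:ℝ) 1, ∀ γ : Γ, ∀ i : V,
          (γ : EuclideanSpace ℝ (Fin d) ≃ᵢ EuclideanSpace ℝ (Fin d)) (T t (m t i))
            = T t (m t (θ γ i))) := by
  intro H
  have hdom : ∀ t ∈ Set.Icc (0 : ℝ) 1, t / 20 ∈ Dom := by
    rintro t ⟨h0, h1⟩
    constructor <;> linarith
  have hfin := GG_finite
  have hcls : ∀ t : ℝ, invQ (Quot.mk Rl (std (t / 20))) = inv' (std (t / 20)) := fun t => rfl
  obtain ⟨T, -, -, hT⟩ := H 3 (Fin 7) G7 p7 GG thetaG GG_adj GG_symm (fun t => std (t / 20))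
    (cont_std.comp (by fun_prop) hdom)
    (by show std (0 / 20) = p7; rw [zero_div, std_zero])
    (fun t ht i j h => std_mem (hdom t ht) i j h)
    (fun i j t ht t' ht' h => std_dist_mono (by have := ht.1; positivity) (by linarith) (hdom t ht)
      (hdom t' ht') i j)
    (by
      refine ⟨1, ⟨zero_le_one, le_rfl⟩, 3, 4, ?_⟩
      have h1 : dist (std (1 / 20) 3) (std (1 / 20) 4) ^ 2 = 25 + 12 * (1 / 20 : ℝ) ^ 2 :=
        (rel_std (hdom 1 ⟨zero_le_one, le_rfl⟩)).nonedges.2.1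
      have h2 : dist (p7 3) (p7 4) ^ 2 = 25 + 12 * 0 := rel0.nonedges.2.1
      intro h
      have h3 : dist (std (1 / 20) 3) (std (1 / 20) 4) = dist (p7 3) (p7 4) := h
      rw [h3, h2] at h1
      norm_num at h1)
    (by
      intro t ht t' ht' h
      have h1 : inv' (std (t / 20)) = inv' (std (t' / 20)) := by
        rw [← hcls, ← hcls]
        exact congrArg invQ h
      rw [inv'_std (hdom t ht), inv'_std (hdom t' ht')] at h1
      have h2 := fh_strictMono.injOn (hdom t ht) (hdom t' ht') (by linarith)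
      linarith)
    (by
      refine ⟨OO, OO_isOpen, chartH, ⟨1 / 2, by norm_num⟩, ?_, Or.inl ?_⟩
      · show Quot.mk Rl (std ((2 * (1 / 2) - 1) / 10)) = Quot.mk Rl p7
        rw [show (2 * (1 / 2 : ℝ) - 1) / 10 = 0 by norm_num, std_zero]
      · rintro t ⟨h0, h1⟩
        refine ⟨⟨(t / 2 + 1) / 2, by constructor <;> linarith⟩, ?_, ?_⟩
        · show Quot.mk Rl (std ((2 * ((t / 2 + 1) / 2) - 1) / 10)) = Quot.mk Rl (std (t / 20))
          rw [show (2 * ((t / 2 + 1) / 2) - 1) / 10 = t / 20 by ring]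
        · show (1 / 2 : ℝ) < (t / 2 + 1) / 2
          linarith)
  have one_mem : (1 : ℝ) ∈ Set.Icc (0 : ℝ) 1 := ⟨zero_le_one, le_rfl⟩
  have e6 := hT 1 one_mem rGG 6
  have e1 := hT 1 one_mem rGG 1
  rw [thetaG_rGG] at e6 e1
  have s6 : Equiv.swap (1 : Fin 7) 2 6 = 6 := by decide
  have s1 : Equiv.swap (1 : Fin 7) 2 1 = 2 := by decide
  rw [s6] at e6
  rw [s1] at e1
  have e6' : refl3 (T 1 (std (1 / 20) 6)) = T 1 (std (1 / 20) 6) := e6
  have e1' : refl3 (T 1 (std (1 / 20) 1)) = T 1 (std (1 / 20) 2) := e1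
  have hd : dist (std (1 / 20) 2) (std (1 / 20) 6) = dist (std (1 / 20) 1) (std (1 / 20) 6) := by
    calc dist (std (1 / 20) 2) (std (1 / 20) 6)
        = dist (T 1 (std (1 / 20) 2)) (T 1 (std (1 / 20) 6)) := ((T 1).dist_eq _ _).symm
      _ = dist (refl3 (T 1 (std (1 / 20) 1))) (refl3 (T 1 (std (1 / 20) 6))) := by rw [e1', e6']
      _ = dist (T 1 (std (1 / 20) 1)) (T 1 (std (1 / 20) 6)) := refl3.dist_eq _ _
      _ = dist (std (1 / 20) 1) (std (1 / 20) 6) := (T 1).dist_eq _ _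
  have h2 := inv'_std (hdom 1 one_mem)
  have h3 : inv' (std (1 / 20)) = 0 := by
    unfold inv'; rw [hd, sub_self]
  have h5 : fh 0 = 0 := by simp [fh, fm]
  have h6 := fh_lt (x := 0) (y := 1 / 20) le_rfl (by norm_num) zero_dom (hdom 1 one_mem)
  linarith


end Pool.Agent.S12060
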