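import Pool.Statements.S12223
import Pool.Agent.TH895.Typ.Meagre

set_option autoImplicit false
open TopologicalSpace
open Pool Pool.MP_eb34a4_co

namespace Pool.Agent.S12223

/-- For every ε>0 and all large d, outside a meagre set of norms on ℝ^d (unit balls with the Hausdorff topology), the unit distance graph of the norm has chromatic number at most (1+ε)^d. -/
theorem result :
    ∀ ε : ℝ, 0 < ε → ∃ d₀ : ℕ, ∀ d : ℕ, d₀ ≤ d →
      IsMeagre
        {K : {K : NonemptyCompacts (EuclideanSpace ℝ (Fin d)) //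
              Convex ℝ (K : Set (EuclideanSpace ℝ (Fin d))) ∧
              (∀ x ∈ (K : Set (EuclideanSpace ℝ (Fin d))),
                -x ∈ (K : Set (EuclideanSpace ℝ (Fin d)))) ∧
              (0 : EuclideanSpace ℝ (Fin d)) ∈
                interior (K : Set (EuclideanSpace ℝ (Fin d)))} |
          ¬ ∃ n : ℕ, (n : ℝ) ≤ (1 + ε) ^ d ∧
            (SimpleGraph.fromRel (fun x y : EuclideanSpace ℝ (Fin d) =>
                x - y ∈ frontier
                  ((K.1 : NonemptyCompacts (EuclideanSpace ℝ (Fin d))) :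
                    Set (EuclideanSpace ℝ (Fin d))))).chromaticNumber ≤ (n : ℕ∞)} := by
  intro ε hε
  obtain ⟨d₀, hd₀, h⟩ := Pool.Agent.TH895.Typ.eventually_le_pow hε
  refine ⟨d₀, fun d hd => ?_⟩
  refine (Pool.Agent.TH895.Typ.typical_colorable (lt_of_lt_of_le hd₀ hd)).mono ?_
  intro K hK hcol
  exact hK ⟨2 * d + 1, h d hd, SimpleGraph.chromaticNumber_le_iff_colorable.mpr hcol⟩

end Pool.Agent.S12223
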