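import Pool.Statements.S12391
import Pool.Agent.TH835.MaeGeo

set_option autoImplicit false
open Pool Pool.MP_f35a22_co

namespace Pool.Agent.S12391

abbrev E := EuclideanSpace ℝ (Fin 3)

/-- There is no `K_{3,3}` of unit distances in three-space. -/
lemma no_K33 (c q : Fin 3 → E) (hc : Function.Injective c) (hq : Function.Injective q)
    (H : ∀ i j, dist (q i) (c j) = 1) : False := by
  have indep : ∀ (x y : Fin 3 → E), Function.Injective x → (∀ i j, dist (y i) (x j) = 1) →
      Module.finrank ℝ (vectorSpan ℝ (Set.range x)) = 2 := by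
    intro x y hx hxy
    have hcos : EuclideanGeometry.Cospherical (Set.range x) := by
      refine ⟨y 0, 1, ?_⟩
      rintro _ ⟨j, rfl⟩
      rw [dist_comm]; exact hxy 0 j
    have hai : AffineIndependent ℝ x := hcos.affineIndependent (s := Set.range x) (p := x) subset_rfl hx
    exact hai.finrank_vectorSpan (by simp)
  have h1 := indep c q hc H
  have h2 := indep q c hq (fun i j => by rw [dist_comm]; exact H j i)
  have hle : vectorSpan ℝ (Set.range c) ≤ (vectorSpan ℝ (Set.range q))ᗮ := by
    rw [vectorSpan_def, Submodule.span_le]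
    rintro _ ⟨_, ⟨i, rfl⟩, _, ⟨j, rfl⟩, rfl⟩
    rw [SetLike.mem_coe, Submodule.mem_orthogonal]
    intro u hu
    rw [vectorSpan_def] at hu
    induction hu using Submodule.span_induction with
    | mem x hx =>
      obtain ⟨_, ⟨k, rfl⟩, _, ⟨l, rfl⟩, rfl⟩ := hx
      simp only [vsub_eq_sub]
      have e1 := norm_sub_sq_real (q k) (c i)
      have e2 := norm_sub_sq_real (q k) (c j)
      have e3 := norm_sub_sq_real (q l) (c i)
      have e4 := norm_sub_sq_real (q l) (c j)
      rw [← dist_eq_norm, H] at e1 e2 e3 e4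
      rw [inner_sub_left, inner_sub_right, inner_sub_right]
      linarith
    | zero => simp
    | add x y _ _ hx hy => rw [inner_add_left, hx, hy, add_zero]
    | smul a x _ hx => rw [inner_smul_left, hx, mul_zero]
  have h3 := Submodule.finrank_mono hle
  have h4 := (vectorSpan ℝ (Set.range q)).finrank_add_finrank_orthogonal
  have h5 : Module.finrank ℝ E = 3 := by simp
  rw [h5] at h4
  omega

/-- For any set of at least 5 distinct centers in 3-space, if every 4 of the unit spheres around them share a common point, then one point lies on all of these unit spheres. -/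
theorem result :
    ∀ S : Set (EuclideanSpace ℝ (Fin 3)),
      5 ≤ S.encard →
      (∀ T : Set (EuclideanSpace ℝ (Fin 3)), T ⊆ S → T.encard = 4 →
        ∃ p : EuclideanSpace ℝ (Fin 3), ∀ c ∈ T, p ∈ Metric.sphere c 1) →
      ∃ p : EuclideanSpace ℝ (Fin 3), ∀ c ∈ S, p ∈ Metric.sphere c 1 := by
  intro S hS hT
  -- five distinct centres have a common point
  have h5 : ∀ c : Fin 5 → E, Function.Injective c → (∀ i, c i ∈ S) →
      ∃ p : E, ∀ i, dist p (c i) = 1 := by
    intro c hc hcS
    have : ∀ i, ∃ p : E, ∀ j, j ≠ i → dist p (c j) = 1 := by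
      intro i
      obtain ⟨p, hp⟩ := hT (c '' {j | j ≠ i}) (by rintro _ ⟨j, _, rfl⟩; exact hcS j) (by
        rw [hc.encard_image]
        have : ({j | j ≠ i} : Set (Fin 5)) = ((Finset.univ.erase i : Finset (Fin 5)) : Set (Fin 5)) := by
          ext j; simp
        rw [this, Set.encard_coe_eq_coe_finsetCard, Finset.card_erase_of_mem (Finset.mem_univ i)]
        simp)
      refine ⟨p, fun j hj => ?_⟩
      have := hp (c j) ⟨j, hj, rfl⟩
      rwa [Metric.mem_sphere] at this
    choose p hp using this
    obtain ⟨i, hi⟩ := Pool.Agent.TH835.Maehara.five p c (fun i j hij => hp i j hij.symm)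
    refine ⟨p i, fun j => ?_⟩
    by_cases h : j = i
    · rw [h]; exact hi
    · exact hp i j h
  -- choose five centres
  obtain ⟨T, hTS, hTc⟩ := Set.exists_subset_encard_eq hS
  have hTfin : T.Finite := Set.finite_of_encard_eq_coe (k := 5) hTc
  obtain ⟨c, hcinj, hcS⟩ : ∃ c : Fin 5 → E, Function.Injective c ∧ ∀ i, c i ∈ S := by
    have hcard : hTfin.toFinset.card = 5 := by
      have := hTfin.encard_eq_coe_toFinset_card
      rw [hTc] at this
      exact_mod_cast this.symm
    refine ⟨fun i => (hTfin.toFinset.equivFin.symm (Fin.cast hcard.symm i) : E), ?_, ?_⟩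
    · intro i j hij
      have := Subtype.ext hij
      have := hTfin.toFinset.equivFin.symm.injective this
      exact Fin.cast_injective _ this
    · intro i
      exact hTS (hTfin.mem_toFinset.1 (hTfin.toFinset.equivFin.symm _).2)
  obtain ⟨p, hp⟩ := h5 c hcinj hcS
  by_cases hall : ∀ x ∈ S, dist p x = 1
  · exact ⟨p, fun x hx => by rw [Metric.mem_sphere]; exact hall x hx⟩
  push Not at hall
  obtain ⟨a, haS, ha⟩ := hall
  have hac : ∀ i, a ≠ c i := fun i h => ha (by rw [h]; exact hp i)
  -- second candidate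
  obtain ⟨q, hq⟩ := h5 ![c 0, c 1, c 2, c 3, a] (by
    intro i j hij
    fin_cases i <;> fin_cases j <;> simp_all [hcinj.eq_iff, (hac _).symm]) (by
    intro i; fin_cases i
    · exact hcS 0
    · exact hcS 1
    · exact hcS 2
    · exact hcS 3
    · exact haS)
  have hq0 : dist q (c 0) = 1 := hq 0
  have hq1 : dist q (c 1) = 1 := hq 1
  have hq2 : dist q (c 2) = 1 := hq 2
  have hqa : dist q a = 1 := hq 4
  have hpq : p ≠ q := fun h => ha (by rw [h]; exact hqa)
  by_cases hall2 : ∀ x ∈ S, dist q x = 1
  · exact ⟨q, fun x hx => by rw [Metric.mem_sphere]; exact hall2 x hx⟩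
  push Not at hall2
  obtain ⟨b, hbS, hb⟩ := hall2
  have hb0 : b ≠ c 0 := fun h => hb (by rw [h]; exact hq0)
  have hb1 : b ≠ c 1 := fun h => hb (by rw [h]; exact hq1)
  have hb2 : b ≠ c 2 := fun h => hb (by rw [h]; exact hq2)
  have hba : b ≠ a := fun h => hb (by rw [h]; exact hqa)
  obtain ⟨w, hw⟩ := h5 ![c 0, c 1, c 2, a, b] (by
    intro i j hij
    fin_cases i <;> fin_cases j <;> simp_all [hcinj.eq_iff, (hac _).symm, hb0.symm, hb1.symm, hb2.symm, hba.symm]) (by
    intro i; fin_cases i
    · exact hcS 0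
    · exact hcS 1
    · exact hcS 2
    · exact haS
    · exact hbS)
  have hw0 : dist w (c 0) = 1 := hw 0
  have hw1 : dist w (c 1) = 1 := hw 1
  have hw2 : dist w (c 2) = 1 := hw 2
  have hwa : dist w a = 1 := hw 3
  have hwb : dist w b = 1 := hw 4
  have hpw : p ≠ w := fun h => ha (by rw [h]; exact hwa)
  have hqw : q ≠ w := fun h => hb (by rw [h]; exact hwb)
  exfalso
  refine no_K33 ![c 0, c 1, c 2] ![p, q, w] ?_ ?_ ?_
  · intro i j hij
    fin_cases i <;> fin_cases j <;> simp_all [hcinj.eq_iff]
  · intro i j hij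
    fin_cases i <;> fin_cases j <;> simp_all [hpq.symm, hpw.symm, hqw.symm]
  · intro i j
    fin_cases i <;> fin_cases j
    · exact hp 0
    · exact hp 1
    · exact hp 2
    · exact hq0
    · exact hq1
    · exact hq2
    · exact hw0
    · exact hw1
    · exact hw2

end Pool.Agent.S12391
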