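import Pool.Statements.S12841
import Pool.Agent.TH586.ZonIter
import Pool.Agent.TH586.Sp2
import Pool.Agent.H902R3.ZA.ZSUP

set_option autoImplicit false
open Pool Pool.MP_1bae07_gt

namespace Pool.Agent.S12841

open Pool.Agent.H172R2.ZS (E Zon)

/-- There is an absolute constant C such that for every origin-centred zonotope K in ℝ^d and any finitely many vectors in K, some choice of signs puts their signed sum in C√d·K, i.e. vb(K,K) ≤ C√d. -/
theorem result :
    ∃ C : ℝ, 0 < C ∧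
      ∀ (d m : ℕ) (v : Fin m → (Fin d → ℝ)) (n : ℕ) (u : Fin n → (Fin d → ℝ)),
        (∀ i, ∃ t : Fin m → ℝ, (∀ j, t j ∈ Set.Icc (-1 : ℝ) 1) ∧
            u i = ∑ j, t j • v j) →
        ∃ ε : Fin n → ℝ, (∀ i, ε i = 1 ∨ ε i = -1) ∧
          ∃ s : Fin m → ℝ, (∀ j, s j ∈ Set.Icc (-1 : ℝ) 1) ∧
            ∑ i, ε i • u i = (C * Real.sqrt d) • ∑ j, s j • v j := by
  obtain ⟨C, hC, hvec⟩ := Pool.Agent.W555.ZL.vec Pool.Agent.TH586.ZonIter.iter
  refine ⟨1224 * Real.sqrt C + 1, by positivity, ?_⟩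
  intro d m v n u hu
  rcases Nat.eq_zero_or_pos d with hd | hd
  · subst hd
    refine ⟨fun _ => 1, fun _ => Or.inl rfl, fun _ => 0, fun _ => by simp, ?_⟩
    exact Subsingleton.elim _ _
  have hd0 : (0 : ℝ) < d := by exact_mod_cast hd
  let V : Fin m → E d := fun j => WithLp.toLp 2 (v j)
  obtain ⟨N, B, hN, hB⟩ := hvec d m V (1 / 2) (by norm_num) (by norm_num)
  -- the vectors in the sparse zonotope
  have hz : ∀ i, ∃ f : Fin N → ℝ, (∀ k, |f k| ≤ 1) ∧
      (WithLp.toLp 2 (u i) : E d) = (3 / 2 : ℝ) • ∑ k, f k • B k := by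
    intro i
    obtain ⟨t, ht, hti⟩ := hu i
    have hmem : (WithLp.toLp 2 (u i) : E d) ∈ Zon V := by
      refine ⟨t, ht, ?_⟩
      rw [hti, WithLp.toLp_sum]
      rfl
    obtain ⟨z, ⟨f, hf, hzf⟩, hz2⟩ := Pool.Agent.H902R3.ZA.ZSUP_ok d N m B V (3 / 2) (by norm_num)
      (fun x => by
        have := (hB x).2
        norm_num at this
        exact this) _ hmem
    refine ⟨f, fun k => abs_le.mpr ⟨(hf k).1, (hf k).2⟩, ?_⟩
    rw [hz2, hzf]
  choose f hf1 hf2 using hz
  obtain ⟨ε, hε1, hε2⟩ := Pool.Agent.TH586.Sp.spencer N n f hf1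
  refine ⟨ε, hε1, ?_⟩
  -- rescaled coefficients
  let c : Fin N → ℝ := fun k => (∑ i, ε i * f i k) / (408 * Real.sqrt N)
  have hc : ∀ k, c k ∈ Set.Icc (-1 : ℝ) 1 := by
    intro k
    have hN0 : (0 : ℝ) < N := by exact_mod_cast k.pos
    have h1 : 0 < 408 * Real.sqrt N := by positivity
    have h2 : |c k| ≤ 1 := by
      simp only [c]
      rw [abs_div, abs_of_pos h1, div_le_one h1]
      exact hε2 k
    exact abs_le.mp h2
  have hsum : ∑ i, ε i • (WithLp.toLp 2 (u i) : E d) = (612 * Real.sqrt N) • ∑ k, c k • B k := by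
    have h1 : ∑ i, ε i • (WithLp.toLp 2 (u i) : E d) = (3 / 2 : ℝ) • ∑ k, (∑ i, ε i * f i k) • B k := by
      simp only [hf2]
      simp only [Finset.smul_sum, Finset.sum_smul, smul_smul]
      rw [Finset.sum_comm]
      apply Finset.sum_congr rfl
      intro k _
      apply Finset.sum_congr rfl
      intro i _
      congr 1
      ring
    rw [h1, Finset.smul_sum, Finset.smul_sum]
    apply Finset.sum_congr rfl
    intro k _
    rw [smul_smul, smul_smul]
    congr 1
    have hN0 : (0 : ℝ) < N := by exact_mod_cast k.pos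
    have : 0 < Real.sqrt N := by positivity
    simp only [c]
    field_simp
    ring
  obtain ⟨z, ⟨s, hs, hzs⟩, hz2⟩ := Pool.Agent.H902R3.ZA.ZSUP_ok d m N V B 1 (by norm_num)
    (fun x => by
      have := (hB x).1
      rw [one_mul]; exact this) (∑ k, c k • B k) ⟨c, hc, rfl⟩
  rw [one_smul] at hz2
  -- the final scale
  set R : ℝ := (1224 * Real.sqrt C + 1) * Real.sqrt d with hR
  have hR0 : 0 < R := by positivity
  have hle : 612 * Real.sqrt N ≤ R := by
    have h1 : (N : ℝ) ≤ 4 * C * d := by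
      refine hN.trans (le_of_eq ?_)
      ring
    have h2 : Real.sqrt N ≤ 2 * (Real.sqrt C * Real.sqrt d) := by
      rw [← Real.sqrt_mul hC.le]
      have h3 : (2 : ℝ) * Real.sqrt (C * d) = Real.sqrt (4 * C * d) := by
        have e1 : (4 : ℝ) * C * d = 2 ^ 2 * (C * d) := by ring
        have e2 : Real.sqrt ((2 : ℝ) ^ 2) = 2 := Real.sqrt_sq (by norm_num)
        rw [e1, Real.sqrt_mul (show (0 : ℝ) ≤ 2 ^ 2 by positivity) (C * d), e2]
      rw [h3]
      exact Real.sqrt_le_sqrt h1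
    have h4 : 0 < Real.sqrt d := by positivity
    rw [hR]
    nlinarith
  set r : ℝ := 612 * Real.sqrt N / R with hr
  have hr0 : 0 ≤ r := by positivity
  have hr1 : r ≤ 1 := by rw [hr, div_le_one hR0]; exact hle
  refine ⟨fun j => r * s j, ?_, ?_⟩
  · intro j
    obtain ⟨h1, h2⟩ := hs j
    constructor
    · nlinarith
    · nlinarith
  · have h1 : (WithLp.toLp 2 (∑ i, ε i • u i) : E d) = WithLp.toLp 2 (R • ∑ j, (r * s j) • v j) := by
      have h2 : (WithLp.toLp 2 (∑ i, ε i • u i) : E d) = ∑ i, ε i • (WithLp.toLp 2 (u i) : E d) := by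
        rw [WithLp.toLp_sum]; rfl
      have h3 : (WithLp.toLp 2 (R • ∑ j, (r * s j) • v j) : E d) = R • ∑ j, (r * s j) • V j := by
        rw [WithLp.toLp_smul, WithLp.toLp_sum]; rfl
      rw [h2, h3, hsum, hz2, hzs, Finset.smul_sum, Finset.smul_sum]
      apply Finset.sum_congr rfl
      intro j _
      rw [smul_smul, smul_smul]
      congr 1
      rw [hr]
      field_simp
    exact (WithLp.toLp_injective 2) h1

end Pool.Agent.S12841
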