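import Pool.Statements.S12865
import Pool.Agent.TH18.APC.Metric

set_option autoImplicit false
open Pool Pool.MP_1ef410_gt

namespace Pool.Agent.S12865

/-- For countable groups N, H and any action of H on N by automorphisms, if N and H have asymptotic property C for every proper left-invariant metric, then so does the semidirect product N ⋊ H. -/
theorem result :
    ∀ (N H : Type) [Group N] [Group H] [Countable N] [Countable H] (φ : H →* MulAut N),
      (∀ d : N → N → ℝ,
        ((∀ x y, d x y = 0 ↔ x = y) ∧ (∀ x y, d x y = d y x) ∧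
          (∀ x y z, d x z ≤ d x y + d y z) ∧ (∀ g x y, d (g * x) (g * y) = d x y) ∧
          (∀ r : ℝ, {x : N | d 1 x ≤ r}.Finite)) →
        ∀ R : ℕ → ℝ, ∃ n : ℕ, ∃ U : ℕ → Set (Set N), ∃ B : ℝ,
          (∀ i < n, ∀ A ∈ U i, ∀ x ∈ A, ∀ y ∈ A, d x y ≤ B) ∧
          (∀ i < n, ∀ A ∈ U i, ∀ A' ∈ U i, A ≠ A' → ∀ x ∈ A, ∀ y ∈ A', R i < d x y) ∧
          (∀ x : N, ∃ i < n, ∃ A ∈ U i, x ∈ A)) →
      (∀ d : H → H → ℝ,
        ((∀ x y, d x y = 0 ↔ x = y) ∧ (∀ x y, d x y = d y x) ∧
          (∀ x y z, d x z ≤ d x y + d y z) ∧ (∀ g x y, d (g * x) (g * y) = d x y) ∧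
          (∀ r : ℝ, {x : H | d 1 x ≤ r}.Finite)) →
        ∀ R : ℕ → ℝ, ∃ n : ℕ, ∃ U : ℕ → Set (Set H), ∃ B : ℝ,
          (∀ i < n, ∀ A ∈ U i, ∀ x ∈ A, ∀ y ∈ A, d x y ≤ B) ∧
          (∀ i < n, ∀ A ∈ U i, ∀ A' ∈ U i, A ≠ A' → ∀ x ∈ A, ∀ y ∈ A', R i < d x y) ∧
          (∀ x : H, ∃ i < n, ∃ A ∈ U i, x ∈ A)) →
      (∀ d : (N ⋊[φ] H) → (N ⋊[φ] H) → ℝ,
        ((∀ x y, d x y = 0 ↔ x = y) ∧ (∀ x y, d x y = d y x) ∧
          (∀ x y z, d x z ≤ d x y + d y z) ∧ (∀ g x y, d (g * x) (g * y) = d x y) ∧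
          (∀ r : ℝ, {x : N ⋊[φ] H | d 1 x ≤ r}.Finite)) →
        ∀ R : ℕ → ℝ, ∃ n : ℕ, ∃ U : ℕ → Set (Set (N ⋊[φ] H)), ∃ B : ℝ,
          (∀ i < n, ∀ A ∈ U i, ∀ x ∈ A, ∀ y ∈ A, d x y ≤ B) ∧
          (∀ i < n, ∀ A ∈ U i, ∀ A' ∈ U i, A ≠ A' → ∀ x ∈ A, ∀ y ∈ A', R i < d x y) ∧
          (∀ x : N ⋊[φ] H, ∃ i < n, ∃ A ∈ U i, x ∈ A)) := by
  intro N H _ _ _ _ φ hN hH d hd R
  obtain ⟨h0, hs, ht, hinv, hprop⟩ := hd
  have h1 : Pool.Agent.TH18.APC.APCon (Set.univ : Set H) := by
    have h2 : ∀ r : ℝ, Set.Finite {x : H | d (SemidirectProduct.inr 1) (SemidirectProduct.inr x) ≤ r} := by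
      intro r
      have h3 := (hprop r).preimage
        (SemidirectProduct.inr_injective (φ := φ)).injOn (f := SemidirectProduct.inr)
      refine h3.subset ?_
      intro x hx
      have hx' : d (SemidirectProduct.inr 1) (SemidirectProduct.inr x) ≤ r := hx
      rw [map_one] at hx'
      exact hx'
    refine Pool.Agent.TH18.APC.APCon_of_metric Set.univ
      (fun x y => d (SemidirectProduct.inr x) (SemidirectProduct.inr y)) ?_ h2 ?_
    · intro g x y
      show d (SemidirectProduct.inr (g * x)) (SemidirectProduct.inr (g * y)) = _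
      rw [map_mul, map_mul]
      exact hinv _ _ _
    · intro R _
      obtain ⟨n, U, B, h3, h4, h5⟩ := hH
        (fun x y => d (SemidirectProduct.inr x) (SemidirectProduct.inr y))
        ⟨fun x y => (h0 _ _).trans SemidirectProduct.inr_injective.eq_iff,
          fun x y => hs _ _, fun x y z => ht _ _ _, fun g x y => by
            show d (SemidirectProduct.inr (g * x)) (SemidirectProduct.inr (g * y)) = _
            rw [map_mul, map_mul]
            exact hinv _ _ _, h2⟩ R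
      exact ⟨n, U, fun i hi => ⟨B, h3 i hi⟩, h4, fun x _ => h5 x⟩
  have h2 : Pool.Agent.TH18.APC.APCon (Set.univ : Set N) := by
    have h2 : ∀ r : ℝ, Set.Finite {x : N | d (SemidirectProduct.inl 1) (SemidirectProduct.inl x) ≤ r} := by
      intro r
      have h3 := (hprop r).preimage
        (SemidirectProduct.inl_injective (φ := φ)).injOn (f := SemidirectProduct.inl)
      refine h3.subset ?_
      intro x hx
      have hx' : d (SemidirectProduct.inl 1) (SemidirectProduct.inl x) ≤ r := hx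
      rw [map_one] at hx'
      exact hx'
    refine Pool.Agent.TH18.APC.APCon_of_metric Set.univ
      (fun x y => d (SemidirectProduct.inl x) (SemidirectProduct.inl y)) ?_ h2 ?_
    · intro g x y
      show d (SemidirectProduct.inl (g * x)) (SemidirectProduct.inl (g * y)) = _
      rw [map_mul, map_mul]
      exact hinv _ _ _
    · intro R _
      obtain ⟨n, U, B, h3, h4, h5⟩ := hN
        (fun x y => d (SemidirectProduct.inl x) (SemidirectProduct.inl y))
        ⟨fun x y => (h0 _ _).trans SemidirectProduct.inl_injective.eq_iff,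
          fun x y => hs _ _, fun x y z => ht _ _ _, fun g x y => by
            show d (SemidirectProduct.inl (g * x)) (SemidirectProduct.inl (g * y)) = _
            rw [map_mul, map_mul]
            exact hinv _ _ _, h2⟩ R
      exact ⟨n, U, fun i hi => ⟨B, h3 i hi⟩, h4, fun x _ => h5 x⟩
  have h3 : Pool.Agent.TH18.APC.APCon
      ((SemidirectProduct.rightHom : N ⋊[φ] H →* H).ker : Set (N ⋊[φ] H)) := by
    rw [← SemidirectProduct.range_inl_eq_ker_rightHom, MonoidHom.coe_range]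
    exact Pool.Agent.TH18.APC.APCon_range _ SemidirectProduct.inl_injective h2
  exact Pool.Agent.TH18.APC.metric_of_APC
    (Pool.Agent.TH18.APC.APC_ext SemidirectProduct.rightHom h1 h3) d hinv hprop R

end Pool.Agent.S12865
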