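import Pool.Statements.S12897
import Pool.Agent.TH579.FSig

set_option autoImplicit false
open Pool Pool.MP_26524f_gt

namespace Pool.Agent.S12897

/-- If a set of reals has the property that from any sequence of open γ-covers one can pick finitely many sets from each so that together they form an open ω-cover, then every F_σ subset (relative to the set) has the same property. -/
theorem result :
    ∀ P : Set ℝ → Prop,
      (∀ X : Set ℝ, P X ↔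
        ∀ 𝒰 : ℕ → Set (Set ℝ),
          (∀ n, (∀ U ∈ 𝒰 n, ∃ V : Set ℝ, IsOpen V ∧ U = V ∩ X) ∧ X ∉ 𝒰 n ∧
              X ⊆ ⋃₀ (𝒰 n) ∧ (𝒰 n).Infinite ∧
              ∀ x ∈ X, {U ∈ 𝒰 n | x ∉ U}.Finite) →
          ∃ ℱ : ℕ → Set (Set ℝ), (∀ n, (ℱ n).Finite ∧ ℱ n ⊆ 𝒰 n) ∧
            X ∉ (⋃ n, ℱ n) ∧ X ⊆ ⋃₀ (⋃ n, ℱ n) ∧
            ∀ F : Finset ℝ, (↑F : Set ℝ) ⊆ X →
              ∃ U ∈ (⋃ n, ℱ n), (↑F : Set ℝ) ⊆ U) →
      ∀ X Y : Set ℝ,
        (∃ K : ℕ → Set ℝ, (∀ n, IsClosed (K n)) ∧ Y = X ∩ (⋃ n, K n)) →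
        P X → P Y := by
  intro P hP X Y hK hX
  rw [hP] at hX ⊢
  exact Pool.Agent.TH579.FSig.sfin hK hX

end Pool.Agent.S12897
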