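import Pool.Statements.S13200
import Pool.Agent.TH309.Tor.Vec

set_option autoImplicit false
open scoped ContDiff
open Pool Pool.MP_582a01_gt

namespace Pool.Agent.S13200

/-- The negation of the preceding statement: For odd d, any smooth periodic metric on the plane (a metric on the 2-torus) whose geodesic flow has a momentum-polynomial integral of exact degree d, not a polynomial in H, admits a nonzero periodic Killing vector field. -/
theorem result :
    ¬ (∀ d : ℕ, Odd d →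
  ∀ g : (Fin 2 → ℝ) → Fin 2 → Fin 2 → ℝ,
    (∀ i j, ContDiff ℝ ∞ (fun x => g x i j)) →
    (∀ x, (Matrix.of (g x)).PosDef) →
    (∀ (x : Fin 2 → ℝ) (v : Fin 2 → ℤ), g (x + (fun k => (v k : ℝ))) = g x) →
  ∀ H : (Fin 2 → ℝ) → (Fin 2 → ℝ) → ℝ,
    (∀ x p, H x p = (1 / 2 : ℝ) * dotProduct p ((Matrix.of (g x))⁻¹.mulVec p)) →
    (∃ (a : ℕ → ℕ → (Fin 2 → ℝ) → ℝ) (F : (Fin 2 → ℝ) → (Fin 2 → ℝ) → ℝ),
      (∀ x p, F x p = ∑ i ∈ Finset.range (d + 1), ∑ j ∈ Finset.range (d + 1 - i),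
          a i j x * p 0 ^ i * p 1 ^ j) ∧
      (∀ i j, ContDiff ℝ ∞ (a i j)) ∧
      (∀ i j (x : Fin 2 → ℝ) (v : Fin 2 → ℤ), a i j (x + (fun k => (v k : ℝ))) = a i j x) ∧
      (∃ i j x, i + j = d ∧ a i j x ≠ 0) ∧
      (∀ x p : Fin 2 → ℝ,
        ∑ k : Fin 2,
          (fderiv ℝ (fun y => F y p) x (Pi.single k (1 : ℝ))
              * fderiv ℝ (fun q => H x q) p (Pi.single k (1 : ℝ))
            - fderiv ℝ (fun q => F x q) p (Pi.single k (1 : ℝ))
              * fderiv ℝ (fun y => H y p) x (Pi.single k (1 : ℝ))) = 0) ∧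
      ¬ ∃ q : Polynomial ℝ, ∀ x p, F x p = q.eval (H x p)) →
    ∃ V : (Fin 2 → ℝ) → Fin 2 → ℝ,
      (∀ k, ContDiff ℝ ∞ (fun x => V x k)) ∧
      (∀ (x : Fin 2 → ℝ) (v : Fin 2 → ℤ), V (x + (fun k => (v k : ℝ))) = V x) ∧
      (∃ x, V x ≠ 0) ∧
      (∀ x (i j : Fin 2),
        ∑ k : Fin 2,
          (V x k * fderiv ℝ (fun y => g y i j) x (Pi.single k (1 : ℝ))
            + g x k j * fderiv ℝ (fun y => V y k) x (Pi.single i (1 : ℝ))
            + g x i k * fderiv ℝ (fun y => V y k) x (Pi.single j (1 : ℝ))) = 0)) := by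
  intro h
  obtain ⟨P⟩ := Pool.Agent.TH309.Tor.exists_pack
  have hS := P.contDiff_S
  have hA := P.contDiff_A
  have hB := P.contDiff_B
  have dS : Differentiable ℝ P.S := hS.differentiable (by simp)
  have dA : Differentiable ℝ P.A := hA.differentiable (by simp)
  have dB : Differentiable ℝ P.B := hB.differentiable (by simp)
  set s := Pool.Agent.TH309.Tor.V2 P.S with hs
  set a := Pool.Agent.TH309.Tor.V2 P.A with ha
  set b := Pool.Agent.TH309.Tor.V2 P.B with hb
  have cS : ContDiff ℝ ∞ s := Pool.Agent.TH309.Tor.V2_contDiff hS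
  have cA : ContDiff ℝ ∞ a := Pool.Agent.TH309.Tor.V2_contDiff hA
  have cB : ContDiff ℝ ∞ b := Pool.Agent.TH309.Tor.V2_contDiff hB
  have hsp : ∀ x, 0 < s x := fun x => P.S_pos _
  have ps : ∀ (x : Fin 2 → ℝ) (v : Fin 2 → ℤ), s (x + fun k => (v k : ℝ)) = s x :=
    fun x v => Pool.Agent.TH309.Tor.V2_per (P := P) (f := fun w => 1 + w.1) x v
  have pa : ∀ (x : Fin 2 → ℝ) (v : Fin 2 → ℤ), a (x + fun k => (v k : ℝ)) = a x :=
    fun x v => Pool.Agent.TH309.Tor.V2_per (P := P) (f := fun w => w.2.1) x v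
  have pb : ∀ (x : Fin 2 → ℝ) (v : Fin 2 → ℤ), b (x + fun k => (v k : ℝ)) = b x :=
    fun x v => Pool.Agent.TH309.Tor.V2_per (P := P) (f := fun w => w.2.2) x v
  set g : (Fin 2 → ℝ) → Fin 2 → Fin 2 → ℝ :=
    fun x i j => (if i = j then (2 : ℝ) else 1) / s x with hg
  set H : (Fin 2 → ℝ) → (Fin 2 → ℝ) → ℝ :=
    fun x p => (1 / 2 : ℝ) * dotProduct p ((Matrix.of (g x))⁻¹.mulVec p) with hH
  have hHf : ∀ x p, H x p = s x / 3 * (p 0 ^ 2 - p 0 * p 1 + p 1 ^ 2) := by
    intro x p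
    simp only [hH, hg]
    rw [Pool.Agent.TH309.Tor.inv_g (hsp x)]
    simp [Matrix.mulVec, dotProduct, Fin.sum_univ_two]
    ring
  set co : ℕ → ℕ → (Fin 2 → ℝ) → ℝ := fun i j x =>
    if i = 3 ∧ j = 0 then a x else if i = 2 ∧ j = 1 then 1 + b x - a x else
      if i = 1 ∧ j = 2 then -(1 + b x - a x) else if i = 0 ∧ j = 3 then b x else 0 with hco
  set F : (Fin 2 → ℝ) → (Fin 2 → ℝ) → ℝ := fun x p =>
    ∑ i ∈ Finset.range (3 + 1), ∑ j ∈ Finset.range (3 + 1 - i), co i j x * p 0 ^ i * p 1 ^ j with hF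
  have hFf : ∀ x p, F x p = a x * p 0 ^ 3 + (1 + b x - a x) * (p 0 ^ 2 * p 1) -
      (1 + b x - a x) * (p 0 * p 1 ^ 2) + b x * p 1 ^ 3 := by
    intro x p
    simp only [hF, hco]
    simp [Finset.sum_range_succ]
    ring
  have hco_smooth : ∀ i j, ContDiff ℝ ∞ (co i j) := by
    intro i j
    simp only [hco]
    split_ifs
    · exact cA
    · exact (contDiff_const.add cB).sub cA
    · exact ((contDiff_const.add cB).sub cA).neg
    · exact cB
    · exact contDiff_const
  obtain ⟨V, hV, hVp, ⟨x0, hx0⟩, hL⟩ := h 3 (by decide) g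
    (by
      intro i j
      simp only [hg]
      exact contDiff_const.div cS fun x => (hsp x).ne')
    (fun x => Pool.Agent.TH309.Tor.posDef_g (hsp x))
    (by
      intro x v
      simp only [hg]
      rw [ps x v])
    H (fun x p => rfl)
    ⟨co, F, fun x p => rfl, hco_smooth, by
        intro i j x v
        simp only [hco]
        rw [pa x v, pb x v],
      ⟨2, 1, 0, rfl, by
        have e : P.Psi (60 * 0, 60 * 0) = 0 := by
          rw [mul_zero]; exact P.Psi_zero
        have e1 : a 0 = 0 := by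
          show (P.Psi (60 * 0, 60 * 0)).2.1 = 0
          rw [e]; rfl
        have e2 : b 0 = 0 := by
          show (P.Psi (60 * 0, 60 * 0)).2.2 = 0
          rw [e]; rfl
        simp only [hco]
        norm_num [e1, e2]⟩,
      by
        intro x p
        have s1 := Pool.Agent.TH309.Tor.V2_deriv dS x
        have a1 := Pool.Agent.TH309.Tor.V2_deriv dA x
        have b1 := Pool.Agent.TH309.Tor.V2_deriv dB x
        rw [← hs] at s1
        rw [← ha] at a1
        rw [← hb] at b1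
        have k0 : HasFDerivAt (fun y : Fin 2 → ℝ => y 0) (ContinuousLinearMap.proj (R := ℝ)
          (φ := fun _ : Fin 2 => ℝ) 0) p := hasFDerivAt_apply 0 p
        have k1 : HasFDerivAt (fun y : Fin 2 → ℝ => y 1) (ContinuousLinearMap.proj (R := ℝ)
          (φ := fun _ : Fin 2 => ℝ) 1) p := hasFDerivAt_apply 1 p
        have k02 : HasFDerivAt (fun y : Fin 2 → ℝ => y 0 ^ 2) ((((2 : ℕ) : ℝ) * p 0 ^ (2 - 1)) •
            (ContinuousLinearMap.proj (R := ℝ) (φ := fun _ : Fin 2 => ℝ) 0)) p := by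
          have := HasDerivAt.comp_hasFDerivAt p (hasDerivAt_pow 2 (p 0)) k0
          exact this
        have k03 : HasFDerivAt (fun y : Fin 2 → ℝ => y 0 ^ 3) ((((3 : ℕ) : ℝ) * p 0 ^ (3 - 1)) •
            (ContinuousLinearMap.proj (R := ℝ) (φ := fun _ : Fin 2 => ℝ) 0)) p := by
          have := HasDerivAt.comp_hasFDerivAt p (hasDerivAt_pow 3 (p 0)) k0
          exact this
        have k12 : HasFDerivAt (fun y : Fin 2 → ℝ => y 1 ^ 2) ((((2 : ℕ) : ℝ) * p 1 ^ (2 - 1)) •
            (ContinuousLinearMap.proj (R := ℝ) (φ := fun _ : Fin 2 => ℝ) 1)) p := by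
          have := HasDerivAt.comp_hasFDerivAt p (hasDerivAt_pow 2 (p 1)) k1
          exact this
        have k13 : HasFDerivAt (fun y : Fin 2 → ℝ => y 1 ^ 3) ((((3 : ℕ) : ℝ) * p 1 ^ (3 - 1)) •
            (ContinuousLinearMap.proj (R := ℝ) (φ := fun _ : Fin 2 => ℝ) 1)) p := by
          have := HasDerivAt.comp_hasFDerivAt p (hasDerivAt_pow 3 (p 1)) k1
          exact this
        have D1 := (((a1.mul_const (p 0 ^ 3)).fun_add
          (((b1.const_add 1).fun_sub a1).mul_const (p 0 ^ 2 * p 1))).fun_sub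
          (((b1.const_add 1).fun_sub a1).mul_const (p 0 * p 1 ^ 2))).fun_add
          (b1.mul_const (p 1 ^ 3))
        have D2 := (((k03.const_mul (a x)).fun_add
          ((k02.fun_mul k1).const_mul (1 + b x - a x))).fun_sub
          ((k0.fun_mul k12).const_mul (1 + b x - a x))).fun_add
          (k13.const_mul (b x))
        have D3 := (s1.mul_const (1 / 3)).mul_const (p 0 ^ 2 - p 0 * p 1 + p 1 ^ 2)
        have D4 := ((k02.fun_sub (k0.fun_mul k1)).fun_add k12).const_mul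
          (s x / 3)
        have E1 : (fun y => F y p) = fun y => a y * p 0 ^ 3 + (1 + b y - a y) * (p 0 ^ 2 * p 1) -
            (1 + b y - a y) * (p 0 * p 1 ^ 2) + b y * p 1 ^ 3 := by
          funext y; exact hFf y p
        have E2 : (fun q => F x q) = fun q : Fin 2 → ℝ => a x * q 0 ^ 3 +
            (1 + b x - a x) * (q 0 ^ 2 * q 1) -
            (1 + b x - a x) * (q 0 * q 1 ^ 2) + b x * q 1 ^ 3 := by
          funext q; exact hFf x q
        have E3 : (fun y => H y p) = fun y => s y * (1 / 3) * (p 0 ^ 2 - p 0 * p 1 + p 1 ^ 2) := by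
          funext y; rw [hHf y p]; ring
        have E4 : (fun q => H x q) = fun q : Fin 2 → ℝ =>
            s x / 3 * (q 0 ^ 2 - q 0 * q 1 + q 1 ^ 2) := by
          funext q; exact hHf x q
        rw [Fin.sum_univ_two, E1, E2, E3, E4, D1.fderiv, D2.fderiv, D3.fderiv, D4.fderiv]
        have hp := P.pde (60 * x 0, 60 * x 1)
        obtain ⟨h1, h2, h3⟩ := hp
        have es : s x = P.S (60 * x 0, 60 * x 1) := rfl
        have ea : a x = P.A (60 * x 0, 60 * x 1) := rfl
        have eb : b x = P.B (60 * x 0, 60 * x 1) := rfl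
        rw [es, ea, eb]
        simp only [ContinuousLinearMap.add_apply, ContinuousLinearMap.sub_apply,
          ContinuousLinearMap.smul_apply, ContinuousLinearMap.proj_apply, smul_eq_mul,
          Pi.single_eq_same, Pi.single_eq_of_ne (show (0 : Fin 2) ≠ 1 by decide),
          Pi.single_eq_of_ne (show (1 : Fin 2) ≠ 0 by decide)]
        push_cast
        linear_combination (60 / 3 * (p 0 ^ 2 - p 0 * p 1 + p 1 ^ 2)) *
          (p 0 ^ 2 * h1 + p 0 * p 1 * h3 + p 1 ^ 2 * h2),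
      by
        rintro ⟨q, hq⟩
        have e : P.Psi (60 * 0, 60 * 0) = 0 := by
          rw [mul_zero]; exact P.Psi_zero
        have e1 : a 0 = 0 := by
          show (P.Psi (60 * 0, 60 * 0)).2.1 = 0
          rw [e]; rfl
        have e2 : b 0 = 0 := by
          show (P.Psi (60 * 0, 60 * 0)).2.2 = 0
          rw [e]; rfl
        have q1 := hq 0 ![2, 1]
        have q2 := hq 0 ![-2, -1]
        have q3 : H 0 ![-2, -1] = H 0 ![2, 1] := by
          rw [hHf, hHf]; simp
        rw [q3, ← q1, hFf, hFf, e1, e2] at q2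
        norm_num at q2⟩
  -- Killing fields
  set ι : ℝ × ℝ →L[ℝ] (Fin 2 → ℝ) := ContinuousLinearMap.pi
    (fun i : Fin 2 => if i = 0 then ContinuousLinearMap.fst ℝ ℝ ℝ else
      ContinuousLinearMap.snd ℝ ℝ ℝ) with hι
  have hι0 : ∀ u : ℝ × ℝ, ι u 0 = u.1 := fun u => by simp [hι]
  have hι1 : ∀ u : ℝ × ℝ, ι u 1 = u.2 := fun u => by simp [hι]
  have hι10 : ι (1, 0) = Pi.single 0 1 := by
    ext i; fin_cases i
    · simp [hι0]
    · simp [hι1]
  have hι01 : ι (0, 1) = Pi.single 1 1 := by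
    ext i; fin_cases i
    · simp [hι0]
    · simp [hι1]
  set X : ℝ × ℝ → ℝ := fun u => V (ι u) 0 with hX
  set Y : ℝ × ℝ → ℝ := fun u => V (ι u) 1 with hY
  have dV : ∀ k x, DifferentiableAt ℝ (fun x => V x k) x := fun k x =>
    (hV k).differentiable (by simp) x
  have fX : ∀ u, HasFDerivAt X ((fderiv ℝ (fun x => V x 0) (ι u)).comp ι) u := fun u =>
    HasFDerivAt.comp (g := fun x => V x 0) (f := ι) u (dV 0 _).hasFDerivAt ι.hasFDerivAt
  have fY : ∀ u, HasFDerivAt Y ((fderiv ℝ (fun x => V x 1) (ι u)).comp ι) u := fun u =>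
    HasFDerivAt.comp (g := fun x => V x 1) (f := ι) u (dV 1 _).hasFDerivAt ι.hasFDerivAt
  have X1 : ∀ u, fderiv ℝ X u (1, 0) = fderiv ℝ (fun x => V x 0) (ι u) (Pi.single 0 1) := by
    intro u; rw [(fX u).fderiv, ContinuousLinearMap.comp_apply, hι10]
  have X2 : ∀ u, fderiv ℝ X u (0, 1) = fderiv ℝ (fun x => V x 0) (ι u) (Pi.single 1 1) := by
    intro u; rw [(fX u).fderiv, ContinuousLinearMap.comp_apply, hι01]
  have Y1 : ∀ u, fderiv ℝ Y u (1, 0) = fderiv ℝ (fun x => V x 1) (ι u) (Pi.single 0 1) := by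
    intro u; rw [(fY u).fderiv, ContinuousLinearMap.comp_apply, hι10]
  have Y2 : ∀ u, fderiv ℝ Y u (0, 1) = fderiv ℝ (fun x => V x 1) (ι u) (Pi.single 1 1) := by
    intro u; rw [(fY u).fderiv, ContinuousLinearMap.comp_apply, hι01]
  -- the derivative of the metric
  have gder : ∀ (x : Fin 2 → ℝ) (i j : Fin 2), HasFDerivAt (fun y => g y i j)
      ((-(if i = j then (2 : ℝ) else 1) / s x ^ 2) •
        ((60 * fderiv ℝ P.S (60 * x 0, 60 * x 1) (1, 0)) • ContinuousLinearMap.proj (R := ℝ)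
          (φ := fun _ : Fin 2 => ℝ) 0 +
        (60 * fderiv ℝ P.S (60 * x 0, 60 * x 1) (0, 1)) • ContinuousLinearMap.proj (R := ℝ)
          (φ := fun _ : Fin 2 => ℝ) 1)) x := by
    intro x i j
    have s1 := Pool.Agent.TH309.Tor.V2_deriv dS x
    rw [← hs] at s1
    have h1 : HasDerivAt (fun r : ℝ => (if i = j then (2 : ℝ) else 1) / r)
        (-(if i = j then (2 : ℝ) else 1) / s x ^ 2) (s x) := by
      have := (hasDerivAt_const (s x) (if i = j then (2 : ℝ) else 1)).fun_div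
        (hasDerivAt_id (s x)) (hsp x).ne'
      refine this.congr_deriv ?_
      simp
    exact h1.comp_hasFDerivAt x s1
  have eqs : ∀ (x : Fin 2 → ℝ) (i j : Fin 2), ∑ k : Fin 2,
      (V x k * fderiv ℝ (fun y => g y i j) x (Pi.single k (1 : ℝ))
        + g x k j * fderiv ℝ (fun y => V y k) x (Pi.single i (1 : ℝ))
        + g x i k * fderiv ℝ (fun y => V y k) x (Pi.single j (1 : ℝ))) = 0 := hL
  have cr : ∀ u : ℝ × ℝ, (fderiv ℝ Y u (1, 0) = -fderiv ℝ X u (0, 1) ∧
      fderiv ℝ Y u (0, 1) = fderiv ℝ X u (1, 0) - fderiv ℝ X u (0, 1)) ∧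
      X u * fderiv ℝ P.S (60 * u.1, 60 * u.2) (1, 0) * 60 +
      Y u * fderiv ℝ P.S (60 * u.1, 60 * u.2) (0, 1) * 60 =
      s (ι u) * (2 * fderiv ℝ X u (1, 0) + fderiv ℝ Y u (1, 0)) := by
    intro u
    have k1 := eqs (ι u) 0 0
    have k2 := eqs (ι u) 1 1
    have k3 := eqs (ι u) 0 1
    rw [Fin.sum_univ_two, (gder _ _ _).fderiv] at k1 k2 k3
    simp only [ContinuousLinearMap.add_apply, ContinuousLinearMap.smul_apply,
      ContinuousLinearMap.proj_apply, smul_eq_mul,
      Pi.single_eq_same, Pi.single_eq_of_ne (show (0 : Fin 2) ≠ 1 by decide),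
      Pi.single_eq_of_ne (show (1 : Fin 2) ≠ 0 by decide), ← X1, ← X2, ← Y1, ← Y2, hι0, hι1,
      hg, if_true, if_neg (show ¬ (0 : Fin 2) = 1 by decide),
      if_neg (show ¬ (1 : Fin 2) = 0 by decide)] at k1 k2 k3
    have hsu := hsp (ι u)
    set σ := s (ι u)
    have hX' : V (ι u) 0 = X u := rfl
    have hY' : V (ι u) 1 = Y u := rfl
    rw [hX', hY'] at k1 k2 k3
    set σ1 := fderiv ℝ P.S (60 * u.1, 60 * u.2) (1, 0)
    set σ2 := fderiv ℝ P.S (60 * u.1, 60 * u.2) (0, 1)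
    set x1 := fderiv ℝ X u (1, 0)
    set x2 := fderiv ℝ X u (0, 1)
    set y1 := fderiv ℝ Y u (1, 0)
    set y2 := fderiv ℝ Y u (0, 1)
    have m1 : σ * (2 * x1 + y1) = 60 * (X u * σ1 + Y u * σ2) := by
      field_simp at k1
      linarith
    have m2 : σ * (x2 + 2 * y2) = 60 * (X u * σ1 + Y u * σ2) := by
      field_simp at k2
      linarith
    have m3 : σ * (x1 + 2 * y1 + 2 * x2 + y2) = 60 * (X u * σ1 + Y u * σ2) := by
      field_simp at k3
      linarith
    have n1 : σ * (3 * (y1 + x2)) = 0 := by linear_combination 2 * m3 - m1 - m2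
    have n1' := (mul_eq_zero.1 n1).resolve_left hsu.ne'
    have n2 : σ * (3 * (y2 - x1 + x2)) = 0 := by linear_combination m3 + m2 - 2 * m1
    have n2' := (mul_eq_zero.1 n2).resolve_left hsu.ne'
    exact ⟨⟨by linarith, by linarith⟩, by linarith⟩
  have perV : ∀ (k : Fin 2) (u : ℝ × ℝ) (v : Fin 2 → ℤ) (w : ℝ × ℝ),
      ι w = ι u + (fun k => (v k : ℝ)) → V (ι w) k = V (ι u) k := by
    intro k u v w hw
    rw [hw, hVp]
  have p10 : ∀ (k : Fin 2) (u : ℝ × ℝ), V (ι (u.1 + 1, u.2)) k = V (ι u) k := by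
    intro k u
    refine perV k u ![1, 0] _ ?_
    ext i; fin_cases i
    · simp [hι0]
    · simp [hι1]
  have p01 : ∀ (k : Fin 2) (u : ℝ × ℝ), V (ι (u.1, u.2 + 1)) k = V (ι u) k := by
    intro k u
    refine perV k u ![0, 1] _ ?_
    ext i; fin_cases i
    · simp [hι0]
    · simp [hι1]
  have hc := Pool.Agent.TH309.Tor.const_of_cr (X := X) (Y := Y)
    (fun u => (fX u).differentiableAt) (fun u => (fY u).differentiableAt)
    (p10 0) (p01 0) (p10 1) (p01 1) (fun u => (cr u).1.1) (fun u => (cr u).1.2)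
  have zX : ∀ u v, fderiv ℝ X u v = 0 := by
    intro u v
    have : X = fun _ => X (0, 0) := by funext w; exact (hc w (0, 0)).1
    rw [this]; simp
  have zY : ∀ u v, fderiv ℝ Y u v = 0 := by
    intro u v
    have : Y = fun _ => Y (0, 0) := by funext w; exact (hc w (0, 0)).2
    rw [this]; simp
  have hkill : ∀ u, fderiv ℝ P.S u (X (0, 0), Y (0, 0)) = 0 := by
    intro u
    have h1 := (cr (u.1 / 60, u.2 / 60)).2
    rw [zX, zY, (hc (u.1 / 60, u.2 / 60) (0, 0)).1, (hc (u.1 / 60, u.2 / 60) (0, 0)).2] at h1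
    have e : ((60 * (u.1 / 60), 60 * (u.2 / 60)) : ℝ × ℝ) = u := by
      ext
      · simp only; ring
      · simp only; ring
    simp only [e] at h1
    rw [Pool.Agent.TH309.Tor.fderiv_dir]
    simp only
    linarith
  have hz := P.no_killing hkill
  apply hx0
  have hxx : ι (x0 0, x0 1) = x0 := by
    ext i; fin_cases i
    · simp [hι0]
    · simp [hι1]
  ext k
  fin_cases k
  · have h1 : X (x0 0, x0 1) = X (0, 0) := (hc _ _).1
    rw [hz.1] at h1
    simp only [hX] at h1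
    rw [hxx] at h1
    simpa using h1
  · have h1 : Y (x0 0, x0 1) = Y (0, 0) := (hc _ _).2
    rw [hz.2] at h1
    simp only [hY] at h1
    rw [hxx] at h1
    simpa using h1

end Pool.Agent.S13200
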