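import Pool.Statements.S13210
import Pool.Agent.TH583.ShadowF

set_option autoImplicit false
open MeasureTheory
open scoped Pointwise
open Pool Pool.MP_598757_gt

namespace Pool.Agent.S13210

open Set Pool.Agent.TH583.Shadow in
/-- Everything about the projections of the unit cube along a unit vector `u`. -/
theorem cube_projection (u : EuclideanSpace ℝ (Fin 3)) (hu : ‖u‖ = 1) :
    ∃ X V : ℝ, 0 < V ∧ V ≤ 1 + X ∧ 1 ≤ X ∧ X ^ 2 ≤ 3 ∧
      (volume (K + segment ℝ (0 : EuclideanSpace ℝ (Fin 3)) u)).toReal = 1 + X ∧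
      ∀ t : ℝ, 0 < t → (volume ((fun x : EuclideanSpace ℝ (Fin 3) => x - (inner ℝ u x) • u) '' K
              + Metric.closedBall (0 : EuclideanSpace ℝ (Fin 3)) t)).toReal =
        4 / 3 * Real.pi * t ^ 3 + Real.pi * t ^ 2 * V + 2 * t * X := by
  obtain ⟨Φ, c, hΦ, hΦa, hin⟩ := exists_phi u hu
  set q : Fin 3 → ℂ := fun i => c (EuclideanSpace.single i 1) with hq
  have hui : ∀ i, inner ℝ u (EuclideanSpace.single i (1 : ℝ)) = u i := by
    intro i; simp [PiLp.inner_apply]
  have hii : ∀ i, ‖q i‖ ^ 2 = 1 - u i ^ 2 := by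
    intro i
    have h := hin (EuclideanSpace.single i 1) (EuclideanSpace.single i 1)
    rw [hui, real_inner_self_eq_norm_sq, PiLp.norm_single] at h
    rw [← Complex.normSq_eq_norm_sq, Complex.normSq_apply]
    simp only [norm_one, one_pow] at h
    simp only [hq]
    nlinarith
  have hij : ∀ i j, i ≠ j → (q i).re * (q j).re + (q i).im * (q j).im = - (u i * u j) := by
    intro i j hne
    have h := hin (EuclideanSpace.single i 1) (EuclideanSpace.single j 1)
    rw [hui, hui] at h
    have h0 : inner ℝ (EuclideanSpace.single i (1 : ℝ)) (EuclideanSpace.single j (1 : ℝ)) = (0 : ℝ) := by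
      simp [PiLp.inner_apply, PiLp.single_apply, hne]
    rw [h0] at h
    simp only [hq]
    linarith
  have hsum : u 0 ^ 2 + u 1 ^ 2 + u 2 ^ 2 = 1 := by
    have := EuclideanSpace.norm_eq u
    rw [hu, Fin.sum_univ_three] at this
    have h2 := Real.sq_sqrt (show 0 ≤ ‖u 0‖ ^ 2 + ‖u 1‖ ^ 2 + ‖u 2‖ ^ 2 by positivity)
    rw [← this] at h2
    simp only [Real.norm_eq_abs, sq_abs] at h2
    linarith
  have hcross : ∀ i j k, i ≠ j → u i ^ 2 + u j ^ 2 + u k ^ 2 = 1 → |cross (q i) (q j)| = |u k| := by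
    intro i j k hne hs
    rw [← sq_eq_sq₀ (abs_nonneg _) (abs_nonneg _), sq_abs, sq_abs]
    have h1 := hij i j hne
    have h2 := hii i
    have h3 := hii j
    rw [← Complex.normSq_eq_norm_sq, Complex.normSq_apply] at h2 h3
    have : cross (q i) (q j) ^ 2 = ((q i).re * (q i).re + (q i).im * (q i).im) *
        ((q j).re * (q j).re + (q j).im * (q j).im) -
        ((q i).re * (q j).re + (q i).im * (q j).im) ^ 2 := by
      simp only [cross]; ring
    rw [this, h1, h2, h3]
    nlinarith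
  have hX : |cross (q 1) (q 0)| + |cross (q 2) (q 0)| + |cross (q 2) (q 1)| =
      |u 0| + |u 1| + |u 2| := by
    rw [hcross 1 0 2 (by decide) (by linarith), hcross 2 0 1 (by decide) (by linarith),
      hcross 2 1 0 (by decide) (by linarith)]
    ring
  have habs : |u 0| ^ 2 + |u 1| ^ 2 + |u 2| ^ 2 = 1 := by simpa only [sq_abs] using hsum
  have p0 := abs_nonneg (u 0)
  have p1 := abs_nonneg (u 1)
  have p2 := abs_nonneg (u 2)
  have r0 := norm_nonneg (q 0)
  have r1 := norm_nonneg (q 1)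
  have r2 := norm_nonneg (q 2)
  have himg : c '' K = segment ℝ 0 (q 0) + segment ℝ 0 (q 1) + segment ℝ 0 (q 2) := image_K c
  refine ⟨|u 0| + |u 1| + |u 2|, ‖q 0‖ + ‖q 1‖ + ‖q 2‖, ?_, ?_, ?_, ?_, ?_, ?_⟩
  · have : (0 : ℝ) < (‖q 0‖ + ‖q 1‖ + ‖q 2‖) ^ 2 := by
      have h0 := hii 0; have h1 := hii 1; have h2 := hii 2
      nlinarith [mul_nonneg r0 r1, mul_nonneg r0 r2, mul_nonneg r1 r2]
    rcases (by positivity : (0 : ℝ) ≤ ‖q 0‖ + ‖q 1‖ + ‖q 2‖).eq_or_lt with h | h
    · rw [← h] at this; norm_num at this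
    · exact h
  · refine alg_bound p0 p1 p2 r0 r1 r2 habs ?_ ?_ ?_
    · rw [hii 0, sq_abs]
    · rw [hii 1, sq_abs]
    · rw [hii 2, sq_abs]
  · nlinarith [mul_nonneg p0 p1, mul_nonneg p0 p2, mul_nonneg p1 p2]
  · nlinarith [sq_nonneg (|u 0| - |u 1|), sq_nonneg (|u 0| - |u 2|), sq_nonneg (|u 1| - |u 2|)]
  · have h0 := vol_zono (le_refl (0 : ℝ)) (q 0) (q 1) (q 2)
    rw [Metric.closedBall_zero, singleton_zero, zero_add, ← himg] at h0
    rw [vol_K_add u hu Φ c hΦ hΦa hin, h0, hX,
      ENNReal.toReal_add (by norm_num) ENNReal.ofReal_ne_top, ENNReal.toReal_ofReal (by positivity)]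
    simp
  · intro t ht
    rw [vol_P_add u hu Φ c hΦ hΦa hin ht, himg, vol_Q ht, hX, ENNReal.toReal_ofReal (by positivity)]

/-- The negation of the preceding statement: For every convex body K in 3-space and real c: if every orthogonal plane projection has isoperimetric ratio π·area/V₁² at least c, then 9π·vol(K)²/(2·V₂(K)³) is at least c (V₁, V₂ given via Steiner-formula limits). -/
theorem result :
    ¬ (∀ (K : Set (EuclideanSpace ℝ (Fin 3))) (c : ℝ),
    IsCompact K → Convex ℝ K → (interior K).Nonempty →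
    (∀ u ∈ Metric.sphere (0 : EuclideanSpace ℝ (Fin 3)) 1, ∀ L : ℝ,
      Filter.Tendsto (fun t : ℝ =>
        ((volume ((fun x : EuclideanSpace ℝ (Fin 3) => x - (inner ℝ u x) • u) '' K
              + Metric.closedBall (0 : EuclideanSpace ℝ (Fin 3)) t)).toReal
          - 2 * t * ((volume (K + segment ℝ (0 : EuclideanSpace ℝ (Fin 3)) u)).toReal
              - (volume K).toReal)) / (Real.pi * t ^ 2))
        (nhdsWithin 0 (Set.Ioi 0)) (nhds L) →
      c ≤ Real.pi * ((volume (K + segment ℝ (0 : EuclideanSpace ℝ (Fin 3)) u)).toReal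
              - (volume K).toReal) / L ^ 2) →
    ∀ S : ℝ,
      Filter.Tendsto (fun t : ℝ =>
        ((volume (K + Metric.closedBall (0 : EuclideanSpace ℝ (Fin 3)) t)).toReal
          - (volume K).toReal) / (2 * t))
        (nhdsWithin 0 (Set.Ioi 0)) (nhds S) →
      c ≤ 9 * Real.pi * (volume K).toReal ^ 2 / (2 * S ^ 3)) := by
  intro H
  have hpi := Real.pi_pos
  have h := H Pool.Agent.TH583.Shadow.K (23 / 100 * Real.pi) Pool.Agent.TH583.Shadow.isCompact_K
    Pool.Agent.TH583.Shadow.convex_K Pool.Agent.TH583.Shadow.interior_K ?_ 3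
    Pool.Agent.TH583.Shadow.tendsto_steiner_K
  · rw [Pool.Agent.TH583.Shadow.vol_K] at h
    simp only [ENNReal.toReal_one] at h
    linarith
  · intro u hu L hL
    obtain ⟨X, V, hV0, hV1, hX1, hX3, hA, hQ⟩ := cube_projection u (by simpa using hu)
    have hK1 : (volume Pool.Agent.TH583.Shadow.K).toReal = 1 := by
      rw [Pool.Agent.TH583.Shadow.vol_K]; rfl
    rw [hA, hK1] at hL ⊢
    rw [add_sub_cancel_left] at hL ⊢
    have hlim : Filter.Tendsto (fun t : ℝ =>
        ((volume ((fun x : EuclideanSpace ℝ (Fin 3) => x - (inner ℝ u x) • u) ''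
              Pool.Agent.TH583.Shadow.K
              + Metric.closedBall (0 : EuclideanSpace ℝ (Fin 3)) t)).toReal
          - 2 * t * X) / (Real.pi * t ^ 2))
        (nhdsWithin 0 (Set.Ioi 0)) (nhds V) := by
      have h1 : Filter.Tendsto (fun t : ℝ => V + 4 / 3 * t) (nhdsWithin 0 (Set.Ioi 0)) (nhds V) := by
        have : Filter.Tendsto (fun t : ℝ => V + 4 / 3 * t) (nhds 0) (nhds (V + 4 / 3 * 0)) :=
          Continuous.tendsto (by fun_prop) 0
        rw [mul_zero, add_zero] at this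
        exact this.mono_left nhdsWithin_le_nhds
      refine h1.congr' ?_
      filter_upwards [self_mem_nhdsWithin] with t ht
      have ht' : (0 : ℝ) < t := ht
      rw [hQ t ht', eq_div_iff (by positivity)]
      ring
    have hLV : L = V := tendsto_nhds_unique hL hlim
    rw [hLV, le_div_iff₀ (by positivity)]
    have h2 : V ^ 2 ≤ (1 + X) ^ 2 := by nlinarith
    have h3 : 23 / 100 * (1 + X) ^ 2 ≤ X := by nlinarith
    nlinarith

end Pool.Agent.S13210
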