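import Pool.Statements.S13341
import Pool.Agent.TH592.Nag.Core

set_option autoImplicit false
open Bundle
open scoped Manifold ContDiff
open Pool Pool.MP_6d5819_gt

namespace Pool.Agent.S13341

/-- For every compact simply connected Riemannian manifold whose points all have isometric symmetries with differential minus identity, if some antipodal finite set is larger than the total real Betti number, then some integral homology group has an element of order 2. -/
theorem result :
  ∀ (d : ℕ) (M : Type) [EMetricSpace M]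
    [ChartedSpace (EuclideanSpace ℝ (Fin d)) M]
    [IsManifold (𝓡 d) ∞ M]
    [RiemannianBundle (fun x : M ↦ TangentSpace (𝓡 d) x)]
    [IsContMDiffRiemannianBundle (𝓡 d) ∞ (EuclideanSpace ℝ (Fin d))
      (fun x : M ↦ TangentSpace (𝓡 d) x)]
    [IsRiemannianManifold (𝓡 d) M]
    [CompactSpace M] [SimplyConnectedSpace M]
    (s : M → M → M),
    (∀ x : M, Isometry (s x) ∧ s x x = x ∧
      mfderiv (𝓡 d) (𝓡 d) (s x) x = -ContinuousLinearMap.id ℝ (EuclideanSpace ℝ (Fin d))) →
    (∃ A : Finset M, (∀ x ∈ A, ∀ y ∈ A, s x y = y) ∧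
      (∑ i ∈ Finset.range (d + 1),
        Module.finrank ℝ
          ((((AlgebraicTopology.singularHomologyFunctor (ModuleCat.{0} ℝ) i).obj
            (ModuleCat.of ℝ ℝ)).obj (TopCat.of M) : ModuleCat.{0} ℝ) : Type)) < A.card) →
    ∃ i : ℕ, ∃ g : ((((AlgebraicTopology.singularHomologyFunctor (ModuleCat.{0} ℤ) i).obj
            (ModuleCat.of ℤ ℤ)).obj (TopCat.of M) : ModuleCat.{0} ℤ) : Type),
      addOrderOf g = 2 := by
  intro d M i1 i2 i3 i4 i5 i6 i7 i8 s hs hA
  obtain ⟨A, hA, hlt⟩ := hA
  by_contra hcon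
  have hno : ∀ i, Pool.Agent.TH592.Nag.NoTwo M i := by
    intro i
    by_contra hi
    exact hcon ⟨i, Pool.Agent.TH592.Nag.order_two M i hi⟩
  have hfin : ∀ x y : M, edist x y ≠ ⊤ := by
    intro x y
    have h1 : Metric.eball x ⊤ = Set.univ :=
      IsClopen.eq_univ ⟨Metric.isClosed_eball_top, Metric.isOpen_eball⟩
        ⟨x, Metric.mem_eball_self ENNReal.zero_lt_top⟩
    have h2 : y ∈ Metric.eball x ⊤ := by rw [h1]; trivial
    have h3 : edist y x < ⊤ := h2
    rw [edist_comm]
    exact h3.ne
  have key := @Pool.Agent.TH592.Nag.core d M (EMetricSpace.toMetricSpace hfin) i2 i3 i4 i5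
    ⟨i6.out⟩ i7 inferInstance inferInstance s hs A hA hno
  simp only [Pool.Agent.TH592.Nag.finrank_real] at hlt
  omega

end Pool.Agent.S13341
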