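import Pool.Statements.S13392
import Pool.Agent.TH643.FQ.Space

set_option autoImplicit false
open Pool Pool.MP_74810d_gt

namespace Pool.Agent.S13392

/-- The negation of the preceding statement: For every n ≥ 1 and every simply connected second countable Hausdorff topological n-manifold Q, some smooth flow on R^(n+1) has orbit space, with the quotient topology, homeomorphic to Q. -/
theorem result :
    ¬ (∀ n : ℕ, 1 ≤ n →
      ∀ (Q : Type) [TopologicalSpace Q] [T2Space Q] [SecondCountableTopology Q]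
        [ChartedSpace (EuclideanSpace ℝ (Fin n)) Q] [SimplyConnectedSpace Q],
        ∃ Φ : ℝ → EuclideanSpace ℝ (Fin (n + 1)) → EuclideanSpace ℝ (Fin (n + 1)),
          ContDiff ℝ (⊤ : ℕ∞)
              (fun p : ℝ × EuclideanSpace ℝ (Fin (n + 1)) => Φ p.1 p.2) ∧
          (∀ x, Φ 0 x = x) ∧
          (∀ (s t : ℝ) (x : EuclideanSpace ℝ (Fin (n + 1))), Φ (s + t) x = Φ s (Φ t x)) ∧
          Nonempty
            (Quot (fun x y : EuclideanSpace ℝ (Fin (n + 1)) => ∃ t : ℝ, Φ t x = y) ≃ₜ Q)) := by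
  intro H
  have hsc := Pool.Agent.TH643.FQ.sc_QQ
  obtain ⟨Φ, hsm, h0, hadd, ⟨e⟩⟩ := H 9 (by norm_num) Pool.Agent.TH643.FQ.QQ
  let r : EuclideanSpace ℝ (Fin (9 + 1)) → EuclideanSpace ℝ (Fin (9 + 1)) → Prop :=
    fun x y => ∃ t : ℝ, Φ t x = y
  have hr : Equivalence r := by
    refine ⟨fun x => ⟨0, h0 x⟩, ?_, ?_⟩
    · rintro x y ⟨t, rfl⟩
      exact ⟨-t, by rw [← hadd, neg_add_cancel, h0]⟩
    · rintro x y z ⟨t, rfl⟩ ⟨s, rfl⟩
      exact ⟨s + t, by rw [hadd]⟩
  have hΦ : Continuous (fun p : ℝ × EuclideanSpace ℝ (Fin (9 + 1)) => Φ p.1 p.2) := hsm.continuous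
  let E : Quot r ≃ₜ Pool.Agent.TH643.FQ.NN := e.trans Pool.Agent.TH643.FQ.QQhomeo
  let f : EuclideanSpace ℝ (Fin (9 + 1)) → Pool.Agent.TH643.FQ.NN := fun x => E (Quot.mk r x)
  have hopen : IsOpenMap (Quot.mk r) := by
    intro U hU
    have hpre : Quot.mk r ⁻¹' (Quot.mk r '' U) = ⋃ t : ℝ, (Φ t) ⁻¹' U := by
      ext x
      simp only [Set.mem_preimage, Set.mem_image, Set.mem_iUnion]
      constructor
      · rintro ⟨y, hy, hyx⟩
        obtain ⟨t, rfl⟩ := hr.symm (hr.eqvGen_iff.1 (Quot.eqvGen_exact hyx))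
        exact ⟨t, hy⟩
      · rintro ⟨t, ht⟩
        exact ⟨Φ t x, ht, (Quot.sound ⟨t, rfl⟩).symm⟩
    change IsOpen (Quot.mk r ⁻¹' (Quot.mk r '' U))
    rw [hpre]
    exact isOpen_iUnion fun t => hU.preimage (hΦ.comp (continuous_const.prodMk continuous_id))
  have hG : Pool.Agent.TH643.FQ.GFlow Φ f :=
    { cont := hΦ
      zero := h0
      add := hadd
      fcont := E.continuous.comp continuous_quot_mk
      fopen := E.isOpenMap.comp hopen
      fibre := by
        intro x y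
        constructor
        · intro hxy
          exact hr.eqvGen_iff.1 (Quot.eqvGen_exact (E.injective hxy))
        · intro hxy
          exact congrArg E (Quot.sound hxy) }
  exact Pool.Agent.TH643.FQ.no_flow hG (by
    intro n
    obtain ⟨q, rfl⟩ := E.surjective n
    obtain ⟨x, rfl⟩ := Quot.exists_rep q
    exact ⟨x, rfl⟩)

end Pool.Agent.S13392
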