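import Pool.Statements.S13463
import Pool.Agent.TH629.EqDeg.PS

set_option autoImplicit false
open Pool Pool.MP_80eea4_gt

namespace Pool.Agent.S13463

/-- For a finite group acting linearly on C^n and an equivariant polynomial map with isolated zero at 0, the trace of each g on the local algebra C[[x]]/(f) equals the local multiplicity (degree) of f restricted to the fixed subspace of g. -/
theorem result :
  ∀ (G : Type) [Group G] [Fintype G] (n : ℕ) (ρ : G →* Matrix (Fin n) (Fin n) ℂ)
    (f : Fin n → MvPolynomial (Fin n) ℂ),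
    (∀ g : G, ∀ i : Fin n,
      MvPolynomial.aeval
          (fun j : Fin n => ∑ k : Fin n, ρ g j k • (MvPolynomial.X k : MvPolynomial (Fin n) ℂ))
          (f i)
        = ∑ j : Fin n, ρ g i j • f j) →
    (∀ i : Fin n, MvPolynomial.constantCoeff (f i) = 0) →
    Module.Finite ℂ (MvPowerSeries (Fin n) ℂ ⧸
      Ideal.span (Set.range (fun i : Fin n => (f i : MvPowerSeries (Fin n) ℂ)))) →
    ∀ g : G,
    ∀ T : (MvPowerSeries (Fin n) ℂ ⧸
          Ideal.span (Set.range (fun i : Fin n => (f i : MvPowerSeries (Fin n) ℂ))))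
        →ₐ[ℂ] (MvPowerSeries (Fin n) ℂ ⧸
          Ideal.span (Set.range (fun i : Fin n => (f i : MvPowerSeries (Fin n) ℂ)))),
      (∀ i : Fin n,
        T (Ideal.Quotient.mk
            (Ideal.span (Set.range (fun i : Fin n => (f i : MvPowerSeries (Fin n) ℂ))))
            (MvPowerSeries.X i))
          = Ideal.Quotient.mk
            (Ideal.span (Set.range (fun i : Fin n => (f i : MvPowerSeries (Fin n) ℂ))))
            (∑ j : Fin n, ρ g i j • (MvPowerSeries.X j : MvPowerSeries (Fin n) ℂ))) →
      LinearMap.trace ℂ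
          (MvPowerSeries (Fin n) ℂ ⧸
            Ideal.span (Set.range (fun i : Fin n => (f i : MvPowerSeries (Fin n) ℂ))))
          T.toLinearMap
        = ((Module.finrank ℂ
            (MvPowerSeries (Fin n) ℂ ⧸
              Ideal.span (Set.range (fun i : Fin n => (f i : MvPowerSeries (Fin n) ℂ)) ∪
                Set.range (fun i : Fin n =>
                  ∑ j : Fin n, (ρ g - 1) i j • (MvPowerSeries.X j : MvPowerSeries (Fin n) ℂ)))))
            : ℂ) := by
  intro G _ _ n ρ f hf _ hfin g T hT
  have hK : 0 < Fintype.card G := Fintype.card_pos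
  have hR : ρ g ^ Fintype.card G = 1 := by
    rw [← map_pow, pow_card_eq_one, map_one]
  have h := TH629.EqDeg.trace_ps (ρ g) (Fintype.card G) hK hR f (hf g) hfin T hT
  have hJ : TH629.EqDeg.Jhat (Sum.elim f fun i => ∑ j, (ρ g - 1) i j •
      (MvPolynomial.X j : MvPolynomial (Fin n) ℂ)) =
      Ideal.span (Set.range (fun i : Fin n => (f i : MvPowerSeries (Fin n) ℂ)) ∪
        Set.range (fun i : Fin n =>
          ∑ j : Fin n, (ρ g - 1) i j • (MvPowerSeries.X j : MvPowerSeries (Fin n) ℂ))) := by
    have h1 : (fun i : Fin n ⊕ Fin n => (((Sum.elim f fun i => ∑ j, (ρ g - 1) i j •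
        (MvPolynomial.X j : MvPolynomial (Fin n) ℂ)) i : MvPolynomial (Fin n) ℂ) :
          MvPowerSeries (Fin n) ℂ)) =
        Sum.elim (fun i : Fin n => (f i : MvPowerSeries (Fin n) ℂ)) (fun i : Fin n =>
          ∑ j : Fin n, (ρ g - 1) i j • (MvPowerSeries.X j : MvPowerSeries (Fin n) ℂ)) := by
      funext i
      rcases i with i | i
      · rfl
      · simp only [Sum.elim_inr]
        rw [← MvPolynomial.coeToMvPowerSeries.ringHom_apply, map_sum]
        refine Finset.sum_congr rfl fun j _ => ?_
        rw [MvPolynomial.coeToMvPowerSeries.ringHom_apply, MvPolynomial.coe_smul,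
          MvPolynomial.coe_X]
    rw [TH629.EqDeg.Jhat, h1, Set.Sum.elim_range]
  rw [← hJ]
  exact h

end Pool.Agent.S13463
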