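import Pool.Statements.S13515
import Pool.Agent.TH622.Main

set_option autoImplicit false
open scoped ContDiff
open Pool Pool.MP_897da6_gt

namespace Pool.Agent.S13515

/-- There is a compact embedded Lagrangian surface L in standard symplectic R^4 such that for every r>0 some symplectic embedding of the round ball of radius r pulls L back exactly to the ball's intersection with the plane y1=y2=0. -/
theorem result :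
    ∃ L : Set (Fin 4 → ℝ), IsCompact L ∧
      (∀ p ∈ L, ∃ W : Set (Fin 4 → ℝ), ∃ g : (Fin 4 → ℝ) → (Fin 4 → ℝ),
        IsOpen W ∧ ContDiffOn ℝ ∞ g W ∧ Set.InjOn g W ∧
        (∀ x ∈ W, Function.Injective (fderiv ℝ g x)) ∧
        p ∈ g '' W ∧
        L ∩ g '' W = g '' {x | x ∈ W ∧ x 1 = 0 ∧ x 3 = 0} ∧
        (∀ x ∈ W, x 1 = 0 → x 3 = 0 → ∀ u v : Fin 4 → ℝ,
          u 1 = 0 → u 3 = 0 → v 1 = 0 → v 3 = 0 →
          fderiv ℝ g x u 0 * fderiv ℝ g x v 1 - fderiv ℝ g x u 1 * fderiv ℝ g x v 0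
            + fderiv ℝ g x u 2 * fderiv ℝ g x v 3 - fderiv ℝ g x u 3 * fderiv ℝ g x v 2 = 0)) ∧
      ∀ r : ℝ, 0 < r → ∃ φ : (Fin 4 → ℝ) → (Fin 4 → ℝ),
        ContDiffOn ℝ ∞ φ {x | x 0 ^ 2 + x 1 ^ 2 + x 2 ^ 2 + x 3 ^ 2 < r ^ 2} ∧
        Set.InjOn φ {x | x 0 ^ 2 + x 1 ^ 2 + x 2 ^ 2 + x 3 ^ 2 < r ^ 2} ∧
        (∀ x ∈ {x : Fin 4 → ℝ | x 0 ^ 2 + x 1 ^ 2 + x 2 ^ 2 + x 3 ^ 2 < r ^ 2},
          ∀ u v : Fin 4 → ℝ,
          fderiv ℝ φ x u 0 * fderiv ℝ φ x v 1 - fderiv ℝ φ x u 1 * fderiv ℝ φ x v 0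
            + fderiv ℝ φ x u 2 * fderiv ℝ φ x v 3 - fderiv ℝ φ x u 3 * fderiv ℝ φ x v 2
            = u 0 * v 1 - u 1 * v 0 + u 2 * v 3 - u 3 * v 2) ∧
        (∀ x ∈ {x : Fin 4 → ℝ | x 0 ^ 2 + x 1 ^ 2 + x 2 ^ 2 + x 3 ^ 2 < r ^ 2},
          (φ x ∈ L ↔ (x 1 = 0 ∧ x 3 = 0))) := by
  obtain ⟨L, h1, h2, h3⟩ := Pool.Agent.TH622.main_surface
  refine ⟨L, h1, ?_, h3⟩
  intro p hp
  obtain ⟨C, U, hU, hpU, hUL⟩ := h2 p hp
  exact Pool.Agent.TH622.PLS.frozen_chart C hU hpU hUL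

end Pool.Agent.S13515
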