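import Pool.Statements.S13589
import Pool.Agent.TH629.Tree.Term

/-!
The terminals are the corners of a square together with the vertices of a small convex chain with
infinitely many edges which starts at one corner; `S` and `T` are the two Steiner trees of the
square, each with the chain added, and `M` is the closed neighbourhood of radius `1 / 200` of the
terminals.
-/

set_option autoImplicit false
open Pool Pool.MP_93ef73_gt

namespace Pool.Agent.S13589

open scoped ENNReal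
open MeasureTheory Metric Pool.Agent.TH629.Tree Pool.Agent.Helper752

theorem lower_A {W : Set E2} (hW : IsCompact W) (hc : IsConnected W) (hA : AA ⊆ W) :
    ENNReal.ofReal (2 + 2 * √3) + ∑' k, ENNReal.ofReal (ll k) ≤ μH[1] W := by
  apply lower_all hW hc
  intro a ha u v
  exact ⟨a, hA ha, by simp, by simp, by simp⟩

theorem lower_M {W : Set E2} (hW : IsCompact W) (hc : IsConnected W)
    (h : ∀ y ∈ cthickening (1 / 200) AA, infDist y W ≤ 1 / 200) :
    ENNReal.ofReal (2 + 2 * √3) + ∑' k, ENNReal.ofReal (ll k) ≤ μH[1] W := by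
  apply lower_all hW hc
  intro a ha u v
  -- a unit vector in the direction `(u, v)`
  obtain ⟨c, s, n, hn, hcs, hu, hv⟩ : ∃ c s n : ℝ, 0 ≤ n ∧ c ^ 2 + s ^ 2 = 1 ∧ u = n * c ∧
      v = n * s := by
    by_cases h0 : u ^ 2 + v ^ 2 = 0
    · refine ⟨1, 0, 0, le_rfl, by norm_num, ?_, ?_⟩
      · nlinarith [sq_nonneg u, sq_nonneg v]
      · nlinarith [sq_nonneg u, sq_nonneg v]
    · have h1 : 0 < u ^ 2 + v ^ 2 := lt_of_le_of_ne (by positivity) (Ne.symm h0)
      have h2 : 0 < √(u ^ 2 + v ^ 2) := Real.sqrt_pos.2 h1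
      have h3 : √(u ^ 2 + v ^ 2) ^ 2 = u ^ 2 + v ^ 2 := Real.sq_sqrt h1.le
      refine ⟨u / √(u ^ 2 + v ^ 2), v / √(u ^ 2 + v ^ 2), √(u ^ 2 + v ^ 2), h2.le, ?_, ?_, ?_⟩
      · rw [div_pow, div_pow, h3]
        field_simp
      · field_simp
      · field_simp
  have hy : a + (1 / 200 : ℝ) • (!₂[c, s] : E2) ∈ cthickening (1 / 200) AA := by
    apply mem_cthickening_of_dist_le _ a _ _ ha
    rw [dist_eq_norm, add_sub_cancel_left, norm_smul, EuclideanSpace.norm_eq, Fin.sum_univ_two]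
    simp [hcs]
  obtain ⟨q, hq, hqd⟩ := hW.exists_infDist_eq_dist hc.nonempty (a + (1 / 200 : ℝ) • (!₂[c, s] : E2))
  have h1 := h _ hy
  rw [hqd, EuclideanSpace.dist_eq, Fin.sum_univ_two, Real.dist_eq, Real.dist_eq, sq_abs,
    sq_abs] at h1
  have h2 := (Real.sqrt_le_left (by norm_num)).1 h1
  simp at h2
  have h3 : (q 0 - a 0) ^ 2 + (q 1 - a 1) ^ 2 ≤ 1 / 100 * (c * (q 0 - a 0) + s * (q 1 - a 1)) := by
    nlinarith
  have h4 : 0 ≤ c * (q 0 - a 0) + s * (q 1 - a 1) := by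
    nlinarith [sq_nonneg (q 0 - a 0), sq_nonneg (q 1 - a 1)]
  have h5 : (c * (q 0 - a 0) + s * (q 1 - a 1)) ^ 2 ≤ (q 0 - a 0) ^ 2 + (q 1 - a 1) ^ 2 := by
    nlinarith [sq_nonneg (c * (q 1 - a 1) - s * (q 0 - a 0))]
  have h6 : (q 0 - a 0) ^ 2 + (q 1 - a 1) ^ 2 ≤ (1 / 100) ^ 2 := by
    have h7 : c * (q 0 - a 0) + s * (q 1 - a 1) ≤ 1 / 100 := by
      by_contra hcon
      push Not at hcon
      nlinarith
    nlinarith
  refine ⟨q, hq, ?_, ?_, ?_⟩
  · apply abs_le_of_sq_le_sq _ (by norm_num)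
    nlinarith [sq_nonneg (q 1 - a 1)]
  · apply abs_le_of_sq_le_sq _ (by norm_num)
    nlinarith [sq_nonneg (q 0 - a 0)]
  · rw [hu, hv]
    have : n * c * (q 0 - a 0) + n * s * (q 1 - a 1)
        = n * (c * (q 0 - a 0) + s * (q 1 - a 1)) := by ring
    rw [this]
    exact mul_nonneg hn h4

/-- There exist d, a nonempty compact totally disconnected A in R^d with two distinct Steiner trees S, T, no terminal interior to segments in both, and nonempty compact M (∣M∣=∣A∣ if A finite) and r>0 with S an r-minimizer for M. -/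
theorem result :
  ∃ (d : ℕ) (A S T M : Set (EuclideanSpace ℝ (Fin d))) (r : ℝ),
    IsCompact A ∧ A.Nonempty ∧ IsTotallyDisconnected A ∧
    (IsCompact S ∧ IsConnected S ∧ A ⊆ S ∧
      MeasureTheory.Measure.hausdorffMeasure 1 S < ⊤ ∧
      ∀ S' : Set (EuclideanSpace ℝ (Fin d)), IsCompact S' → IsConnected S' → A ⊆ S' →
        MeasureTheory.Measure.hausdorffMeasure 1 S ≤ MeasureTheory.Measure.hausdorffMeasure 1 S') ∧
    (IsCompact T ∧ IsConnected T ∧ A ⊆ T ∧
      MeasureTheory.Measure.hausdorffMeasure 1 T < ⊤ ∧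
      ∀ S' : Set (EuclideanSpace ℝ (Fin d)), IsCompact S' → IsConnected S' → A ⊆ S' →
        MeasureTheory.Measure.hausdorffMeasure 1 T ≤ MeasureTheory.Measure.hausdorffMeasure 1 S') ∧
    S ≠ T ∧
    IsCompact M ∧ M.Nonempty ∧ 0 < r ∧
    (A.Finite → M.Finite ∧ M.ncard = A.ncard) ∧
    (¬ ∃ a ∈ A,
        (∃ x y : EuclideanSpace ℝ (Fin d), x ≠ y ∧ segment ℝ x y ⊆ S ∧ a ∈ openSegment ℝ x y) ∧
        (∃ x y : EuclideanSpace ℝ (Fin d), x ≠ y ∧ segment ℝ x y ⊆ T ∧ a ∈ openSegment ℝ x y)) ∧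
    (∀ y ∈ M, Metric.infDist y S ≤ r) ∧
    ∀ W : Set (EuclideanSpace ℝ (Fin d)), IsCompact W → IsConnected W →
      (∀ y ∈ M, Metric.infDist y W ≤ r) →
        MeasureTheory.Measure.hausdorffMeasure 1 S ≤ MeasureTheory.Measure.hausdorffMeasure 1 W := by
  have hne : AA.Nonempty := ⟨pt 0, Or.inl (Set.mem_insert _ _)⟩
  refine ⟨2, AA, SA ∪ Z, SB ∪ Z, cthickening (1 / 200) AA, 1 / 200, AA_compact, hne,
    AA_countable.isTotallyDisconnected,
    ⟨ST_compact.1, ST_conn.1, AA_sub.1, lt_of_le_of_lt ST_len.1 total_lt,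
      fun W h1 h2 h3 => ST_len.1.trans (lower_A h1 h2 h3)⟩,
    ⟨ST_compact.2, ST_conn.2, AA_sub.2, lt_of_le_of_lt ST_len.2 total_lt,
      fun W h1 h2 h3 => ST_len.2.trans (lower_A h1 h2 h3)⟩,
    ST_ne, AA_compact.cthickening, hne.mono (self_subset_cthickening _), by norm_num,
    fun h => absurd h AA_infinite, fun ⟨a, ha, h, _⟩ => term_all ⟨a, ha, h⟩, ?_,
    fun W h1 h2 h3 => ST_len.1.trans (lower_M h1 h2 h3)⟩
  intro y hy
  rw [AA_compact.cthickening_eq_biUnion_closedBall (by norm_num)] at hy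
  simp only [Set.mem_iUnion] at hy
  obtain ⟨a, ha, hya⟩ := hy
  exact (infDist_le_dist_of_mem (AA_sub.1 ha)).trans hya

end Pool.Agent.S13589
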