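import Pool.Statements.S13596
import Pool.Agent.TH545.Wheel

set_option autoImplicit false
open Pool Pool.MP_94b191_gt

namespace Pool.Agent.S13596

/-- The negation of the preceding statement: Every continuum in which any two points are joined by a uniform family of paths covering the space has, for any two points, a uniform family of arcs between them covering the union of all arcs joining them. -/
theorem result :
    ¬ (∀ (X : Type) [MetricSpace X] [CompactSpace X] [ConnectedSpace X],
      (∀ a b : X, ∃ P : Set (Path a b),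
          (∀ ε : ℝ, ε > 0 → ∃ n : ℕ, ∀ p ∈ P, ∃ t : Fin (n + 1) → unitInterval,
              t 0 = 0 ∧ t (Fin.last n) = 1 ∧ StrictMono t ∧
              ∀ i : Fin n, Metric.diam (⇑p '' Set.Icc (t i.castSucc) (t i.succ)) ≤ ε) ∧
          (⋃ p ∈ P, Set.range ⇑p) = Set.univ) →
      (∀ a b : X, ∃ P : Set (Path a b),
          (∀ p ∈ P, Function.Injective ⇑p) ∧
          (∀ ε : ℝ, ε > 0 → ∃ n : ℕ, ∀ p ∈ P, ∃ t : Fin (n + 1) → unitInterval,
              t 0 = 0 ∧ t (Fin.last n) = 1 ∧ StrictMono t ∧
              ∀ i : Fin n, Metric.diam (⇑p '' Set.Icc (t i.castSucc) (t i.succ)) ≤ ε) ∧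
          (⋃ p ∈ P, Set.range ⇑p) =
            ⋃ (q : Path a b) (_ : Function.Injective ⇑q), Set.range ⇑q)) := by
  intro H
  obtain ⟨P, h1, h2, h3⟩ := H Pool.Agent.TH545.Wheel.X
    (fun a b => Pool.Agent.TH545.Wheel.uniform_paths a b)
    Pool.Agent.TH545.Wheel.a Pool.Agent.TH545.Wheel.b
  exact Pool.Agent.TH545.Wheel.not_uniform P h1 h2 h3

end Pool.Agent.S13596
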