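import Pool.Statements.S13599
import Pool.Agent.TH589.SC.End

set_option autoImplicit false
open Pool Pool.MP_94e842_gt

namespace Pool.Agent.S13599

/-- Any planar convex body whose boundary has the transitivity property is an ellipse. Transitivity: string construction at length ℓ1, then at any ℓ2 above the new perimeter, equals a single string construction at some ℓ3. -/
theorem result :
    ∀ K : Set (EuclideanSpace ℝ (Fin 2)), IsCompact K → Convex ℝ K → (interior K).Nonempty →
      (∀ ℓ1 : ℝ, (MeasureTheory.Measure.hausdorffMeasure 1 (frontier K)).toReal < ℓ1 →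
        ∀ ℓ2 : ℝ,
          (MeasureTheory.Measure.hausdorffMeasure 1
              (frontier {x : EuclideanSpace ℝ (Fin 2) |
                (MeasureTheory.Measure.hausdorffMeasure 1
                  (frontier (convexHull ℝ (insert x K)))).toReal ≤ ℓ1})).toReal < ℓ2 →
          ∃ ℓ3 : ℝ,
            {y : EuclideanSpace ℝ (Fin 2) |
              (MeasureTheory.Measure.hausdorffMeasure 1
                (frontier (convexHull ℝ (insert y
                  {x : EuclideanSpace ℝ (Fin 2) |
                    (MeasureTheory.Measure.hausdorffMeasure 1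
                      (frontier (convexHull ℝ (insert x K)))).toReal ≤ ℓ1})))).toReal = ℓ2}
            = {y : EuclideanSpace ℝ (Fin 2) |
              (MeasureTheory.Measure.hausdorffMeasure 1
                (frontier (convexHull ℝ (insert y K)))).toReal = ℓ3}) →
      ∃ f : EuclideanSpace ℝ (Fin 2) ≃ᵃ[ℝ] EuclideanSpace ℝ (Fin 2),
        K = f '' Metric.closedBall 0 1 := by
  intro K hK hc hi hT
  have hne : K.Nonempty := hi.mono interior_subset
  have e1 : ∀ x, (MeasureTheory.Measure.hausdorffMeasure 1
      (frontier (convexHull ℝ (insert x K)))).toReal = Pool.Agent.TH589.SC.FF K x :=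
    fun x => Pool.Agent.TH589.SC.hull_perim hc hK hi x
  have e2 : ∀ l : ℝ, {x : EuclideanSpace ℝ (Fin 2) |
      (MeasureTheory.Measure.hausdorffMeasure 1
        (frontier (convexHull ℝ (insert x K)))).toReal ≤ l} = Pool.Agent.TH589.SC.LL K l := by
    intro l
    ext x
    change _ ≤ l ↔ Pool.Agent.TH589.SC.FF K x ≤ l
    rw [e1]
  have e3 : (MeasureTheory.Measure.hausdorffMeasure 1 (frontier K)).toReal =
      Pool.Agent.TH589.SC.II K := Pool.Agent.TH589.SC.cauchy hc hK hi
  apply Pool.Agent.TH589.SC.main hc hK hi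
  intro l1 hl1 l2 hl2
  have hLc := Pool.Agent.TH589.SC.isCompact_LL hK hne l1
  have hLcv := Pool.Agent.TH589.SC.convex_LL hK hne l1
  have hLi := Pool.Agent.TH589.SC.interior_LL hK hi hl1.le
  have e4 : (MeasureTheory.Measure.hausdorffMeasure 1
      (frontier (Pool.Agent.TH589.SC.LL K l1))).toReal =
      Pool.Agent.TH589.SC.II (Pool.Agent.TH589.SC.LL K l1) :=
    Pool.Agent.TH589.SC.cauchy hLcv hLc hLi
  have e5 : ∀ x, (MeasureTheory.Measure.hausdorffMeasure 1
      (frontier (convexHull ℝ (insert x (Pool.Agent.TH589.SC.LL K l1))))).toReal =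
      Pool.Agent.TH589.SC.FF (Pool.Agent.TH589.SC.LL K l1) x :=
    fun x => Pool.Agent.TH589.SC.hull_perim hLcv hLc hLi x
  have h := hT l1 (by rw [e3]; exact hl1) l2 (by rw [e2, e4]; exact hl2)
  obtain ⟨l3, h3⟩ := h
  refine ⟨l3, ?_⟩
  rw [e2] at h3
  simp only [e5, e1] at h3
  exact h3


end Pool.Agent.S13599
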