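import Pool.Statements.S13720
import Pool.Agent.TH651.RP5.Main

set_option autoImplicit false
open Pool Pool.MP_a77ffe_gt

namespace Pool.Agent.S13720

/-- The negation of the preceding statement: There is a geometric simplicial complex in some Euclidean space with exactly 22 vertices whose underlying space is homeomorphic to the 5-sphere with antipodal points identified, i.e. real projective 5-space. -/
theorem result :
    ¬ (∃ n : ℕ, ∃ K : Geometry.SimplicialComplex ℝ (EuclideanSpace ℝ (Fin n)),
      K.vertices.ncard = 22 ∧
      Nonempty (Homeomorph (↥K.space)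
        (Quot (fun x y : Metric.sphere (0 : EuclideanSpace ℝ (Fin 6)) 1 =>
          (x : EuclideanSpace ℝ (Fin 6)) = (y : EuclideanSpace ℝ (Fin 6)) ∨
          (x : EuclideanSpace ℝ (Fin 6)) = -(y : EuclideanSpace ℝ (Fin 6)))))) := by
  rintro ⟨n, K, hc, ⟨Ψ⟩⟩
  exact Pool.Agent.TH651.RP5.no_triangulation_22 K hc Ψ

end Pool.Agent.S13720
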