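import Pool.Statements.S13721
import Pool.Agent.TH18.APC.Metric

set_option autoImplicit false
open Pool Pool.MP_a813f9_gt

namespace Pool.Agent.S13721

/-- For countable groups G, H with proper left-invariant metrics and a homomorphism f from G to H, if H and ker f (subspace metric) have asymptotic property C, then G has asymptotic property C. -/
theorem result :
  ∀ (G H : Type) [Group G] [Group H] [Countable G] [Countable H]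
    (f : G →* H) (dG : G → G → ℝ) (dH : H → H → ℝ),
    (∀ x, dG x x = 0) → (∀ x y, dG x y = dG y x) →
    (∀ x y z, dG x z ≤ dG x y + dG y z) → (∀ x y, dG x y = 0 → x = y) →
    (∀ g x y, dG (g * x) (g * y) = dG x y) → (∀ r : ℝ, Set.Finite {x : G | dG 1 x ≤ r}) →
    (∀ x, dH x x = 0) → (∀ x y, dH x y = dH y x) →
    (∀ x y z, dH x z ≤ dH x y + dH y z) → (∀ x y, dH x y = 0 → x = y) →
    (∀ g x y, dH (g * x) (g * y) = dH x y) → (∀ r : ℝ, Set.Finite {x : H | dH 1 x ≤ r}) →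
    (∀ R : ℕ → ℝ, (∀ i, 0 < R i) → ∃ n : ℕ, ∃ U : ℕ → Set (Set H),
      (∀ i < n, ∃ B : ℝ, ∀ V ∈ U i, ∀ x ∈ V, ∀ y ∈ V, dH x y ≤ B) ∧
      (∀ i < n, ∀ V ∈ U i, ∀ W ∈ U i, V ≠ W → ∀ x ∈ V, ∀ y ∈ W, R i < dH x y) ∧
      (∀ x : H, ∃ i < n, ∃ V ∈ U i, x ∈ V)) →
    (∀ R : ℕ → ℝ, (∀ i, 0 < R i) → ∃ n : ℕ, ∃ U : ℕ → Set (Set G),
      (∀ i < n, ∀ V ∈ U i, V ⊆ (f.ker : Set G)) ∧
      (∀ i < n, ∃ B : ℝ, ∀ V ∈ U i, ∀ x ∈ V, ∀ y ∈ V, dG x y ≤ B) ∧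
      (∀ i < n, ∀ V ∈ U i, ∀ W ∈ U i, V ≠ W → ∀ x ∈ V, ∀ y ∈ W, R i < dG x y) ∧
      (∀ x ∈ (f.ker : Set G), ∃ i < n, ∃ V ∈ U i, x ∈ V)) →
    (∀ R : ℕ → ℝ, (∀ i, 0 < R i) → ∃ n : ℕ, ∃ U : ℕ → Set (Set G),
      (∀ i < n, ∃ B : ℝ, ∀ V ∈ U i, ∀ x ∈ V, ∀ y ∈ V, dG x y ≤ B) ∧
      (∀ i < n, ∀ V ∈ U i, ∀ W ∈ U i, V ≠ W → ∀ x ∈ V, ∀ y ∈ W, R i < dG x y) ∧
      (∀ x : G, ∃ i < n, ∃ V ∈ U i, x ∈ V)) := by
  intro G H _ _ _ _ f dG dH _ _ _ _ hGinv hGprop _ _ _ _ hHinv hHprop hH hN R _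
  have h1 : Pool.Agent.TH18.APC.APCon (Set.univ : Set H) := by
    refine Pool.Agent.TH18.APC.APCon_of_metric Set.univ dH hHinv hHprop ?_
    intro R hR
    obtain ⟨n, U, h1, h2, h3⟩ := hH R hR
    exact ⟨n, U, h1, h2, fun x _ => h3 x⟩
  have h2 : Pool.Agent.TH18.APC.APCon (f.ker : Set G) := by
    refine Pool.Agent.TH18.APC.APCon_of_metric (f.ker : Set G) dG hGinv hGprop ?_
    intro R hR
    obtain ⟨n, U, -, h1, h2, h3⟩ := hN R hR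
    exact ⟨n, U, h1, h2, h3⟩
  obtain ⟨n, U, B, h3, h4, h5⟩ := Pool.Agent.TH18.APC.metric_of_APC
    (Pool.Agent.TH18.APC.APC_ext f h1 h2) dG hGinv hGprop R
  exact ⟨n, U, fun i hi => ⟨B, h3 i hi⟩, h4, h5⟩

end Pool.Agent.S13721
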