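import Pool.Statements.S13772
import Pool.Agent.Helper531.Sine

set_option autoImplicit false
open Pool Pool.MP_b1ea19_gt

namespace Pool.Agent.S13772

open Topology in
/-- Images under an embedding commute with components in a set. -/
theorem image_cc {Y Z : Type} [TopologicalSpace Y] [TopologicalSpace Z] {e : Y → Z}
    (he : IsEmbedding e) {S : Set Y} {y : Y} (hy : y ∈ S) :
    e '' connectedComponentIn S y = connectedComponentIn (e '' S) (e y) := by
  apply Set.Subset.antisymm
  · exact he.continuous.continuousOn.image_connectedComponentIn_subset hy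
  · have hsub : connectedComponentIn (e '' S) (e y) ⊆ e '' S := connectedComponentIn_subset _ _
    have heq : e '' (e ⁻¹' connectedComponentIn (e '' S) (e y)) =
        connectedComponentIn (e '' S) (e y) := by
      rw [Set.image_preimage_eq_inter_range, Set.inter_eq_left]
      exact hsub.trans (Set.image_subset_range _ _)
    rw [← heq]
    apply Set.image_mono
    apply IsPreconnected.subset_connectedComponentIn
    · rw [← he.isInducing.isPreconnected_image, heq]
      exact isPreconnected_connectedComponentIn
    · exact mem_connectedComponentIn (Set.mem_image_of_mem e hy)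
    · intro z hz
      obtain ⟨w, hw, hwz⟩ := hsub hz
      rw [← he.injective hwz]
      exact hw

open Topology in
/-- Local separating points of an embedded set. -/
theorem image_L {Y Z : Type} [TopologicalSpace Y] [TopologicalSpace Z] {e : Y → Z}
    (he : IsEmbedding e) (C : Set Y) :
    e '' {p : Y | p ∈ C ∧ ∃ V : Set Y, IsOpen V ∧ p ∈ V ∧
          ¬ IsPreconnected (connectedComponentIn (V ∩ C) p \ {p})} =
      Pool.Agent.Helper531.LocalSeparatingPoints (e '' C) := by
  have key : ∀ (p : Y) (_ : p ∈ C) (U : Set Z), e p ∈ U →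
      (IsPreconnected (connectedComponentIn (e ⁻¹' U ∩ C) p \ {p}) ↔
        IsPreconnected (connectedComponentIn (e '' C ∩ U) (e p) \ {e p})) := by
    intro p hp U hU
    have h1 : e '' C ∩ U = e '' (e ⁻¹' U ∩ C) := by
      rw [Set.inter_comm (e ⁻¹' U) C, Set.image_inter_preimage]
    have h2 : p ∈ e ⁻¹' U ∩ C := ⟨hU, hp⟩
    rw [h1, ← image_cc he h2, ← Set.image_singleton, ← Set.image_sdiff he.injective,
      he.isInducing.isPreconnected_image]
  ext z
  constructor
  · rintro ⟨p, ⟨hp, V, hV, hpV, hn⟩, rfl⟩
    obtain ⟨U, hU, rfl⟩ := he.isInducing.isOpen_iff.mp hV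
    exact ⟨⟨p, hp, rfl⟩, U, hU, hpV, fun h => hn ((key p hp U hpV).mpr h)⟩
  · rintro ⟨⟨p, hp, rfl⟩, U, hU, hpU, hn⟩
    exact ⟨p, ⟨hp, e ⁻¹' U, hU.preimage he.continuous, hpU,
      fun h => hn ((key p hp U hpU).mp h)⟩, rfl⟩

/-- The negation of the preceding statement: If X is a continuum in which every subcontinuum C has a connected set of local separating points, then any two distinct points of any connected subset of X are joined by an arc lying inside that subset. -/
theorem result :
    ¬ (∀ (X : Type) [MetricSpace X] [CompactSpace X] [ConnectedSpace X],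
      (∀ C : Set X, IsCompact C → IsConnected C →
        IsPreconnected {p : X | p ∈ C ∧ ∃ V : Set X, IsOpen V ∧ p ∈ V ∧
          ¬ IsPreconnected (connectedComponentIn (V ∩ C) p \ {p})}) →
      ∀ A : Set X, IsConnected A → ∀ x ∈ A, ∀ y ∈ A, x ≠ y →
        ∃ f : unitInterval → X, Continuous f ∧ Function.Injective f ∧
          f 0 = x ∧ f 1 = y ∧ Set.range f ⊆ A) := by
  intro H
  have hcomp : CompactSpace Pool.Agent.Helper531.Sine.X :=
    isCompact_iff_compactSpace.mp Pool.Agent.Helper531.Sine.X_compact
  have hconn : ConnectedSpace Pool.Agent.Helper531.Sine.X :=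
    isConnected_iff_connectedSpace.mp Pool.Agent.Helper531.Sine.X_connected
  have he : Topology.IsEmbedding (Subtype.val : Pool.Agent.Helper531.Sine.X → ℝ × ℝ) :=
    Topology.IsEmbedding.subtypeVal
  have h := H Pool.Agent.Helper531.Sine.X (by
    intro C hC hCc
    rw [← he.isInducing.isPreconnected_image, image_L he C]
    apply Pool.Agent.Helper531.Sine.L_preconnected
    · rintro _ ⟨q, -, rfl⟩
      exact q.2
    · exact hC.image he.continuous
    · exact hCc.isPreconnected.image _ he.continuous.continuousOn) Set.univ isConnected_univ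
  apply Pool.Agent.Helper531.Sine.not_arcwise
  intro x hx y hy hxy
  obtain ⟨f, hf, hfi, hf0, hf1, -⟩ := h ⟨x, hx⟩ trivial ⟨y, hy⟩ trivial
    (fun hh => hxy (congrArg Subtype.val hh))
  refine ⟨fun t => (f t : ℝ × ℝ), continuous_subtype_val.comp hf,
    fun a b hab => hfi (Subtype.ext hab), congrArg Subtype.val hf0, congrArg Subtype.val hf1, ?_⟩
  rintro _ ⟨t, rfl⟩
  exact (f t).2

end Pool.Agent.S13772
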