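-- A monotone (not continuous) retraction of the disk onto its boundary circle with one exceptional
-- value: the identity on the circle, and the constant 1 inside.
import Pool.Statements.S13885

set_option autoImplicit false
open Pool Pool.MP_c36963_gt

namespace Pool.Agent.S13885

/-- There exists r : ℂ → ℂ mapping the closed unit disk into the unit circle, fixing the circle, with connected fibers in the disk, such that only finitely many circle points y fail: for all circle sequences s_n → y, every point of the Kuratowski lim sup of the fibers r⁻¹(s_n) lies in r⁻¹(y). -/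
theorem result :
    ∃ r : ℂ → ℂ,
      (∀ z ∈ Metric.closedBall (0:ℂ) 1, r z ∈ Metric.sphere (0:ℂ) 1) ∧
      (∀ y ∈ Metric.sphere (0:ℂ) 1, r y = y) ∧
      (∀ y ∈ Metric.sphere (0:ℂ) 1,
        IsConnected {z : ℂ | z ∈ Metric.closedBall (0:ℂ) 1 ∧ r z = y}) ∧
      Set.Finite {y : ℂ | y ∈ Metric.sphere (0:ℂ) 1 ∧
        ¬ (∀ s : ℕ → ℂ, (∀ n, s n ∈ Metric.sphere (0:ℂ) 1) →
            Filter.Tendsto s Filter.atTop (nhds y) →
            ∀ x : ℂ, (∀ ε : ℝ, ε > 0 → ∀ N : ℕ, ∃ n : ℕ, n ≥ N ∧
                ∃ z : ℂ, z ∈ Metric.closedBall (0:ℂ) 1 ∧ r z = s n ∧ dist z x < ε) →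
              r x = y)} := by
  classical
  refine ⟨fun z => if z ∈ Metric.sphere (0:ℂ) 1 then z else 1, ?_, ?_, ?_, ?_⟩
  · intro z _
    by_cases hz : z ∈ Metric.sphere (0:ℂ) 1
    · simp only [hz, if_true]
    · simp only [hz, if_false]
      simp
  · intro y hy
    simp only [hy, if_true]
  · intro y hy
    by_cases hy1 : y = 1
    · subst hy1
      have hset : {z : ℂ | z ∈ Metric.closedBall (0:ℂ) 1 ∧
          (if z ∈ Metric.sphere (0:ℂ) 1 then z else 1) = 1} =
          Metric.ball (0:ℂ) 1 ∪ {1} := by
        ext z
        simp only [Set.mem_setOf_eq, Set.mem_union, Set.mem_singleton_iff, Metric.mem_ball,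
          Metric.mem_closedBall, Metric.mem_sphere]
        constructor
        · rintro ⟨h1, h2⟩
          by_cases h : dist z 0 = 1
          · rw [if_pos h] at h2; exact Or.inr h2
          · exact Or.inl (lt_of_le_of_ne h1 h)
        · rintro (h | h)
          · exact ⟨h.le, by rw [if_neg h.ne]⟩
          · subst h
            refine ⟨by simp, by simp⟩
      rw [hset]
      refine ⟨⟨1, Or.inr rfl⟩, ?_⟩
      have hb : IsPreconnected (Metric.ball (0:ℂ) 1) := (convex_ball (0:ℂ) 1).isPreconnected
      apply hb.subset_closure (Set.subset_union_left)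
      intro z hz
      rw [closure_ball (0:ℂ) one_ne_zero]
      rcases hz with h | h
      · exact Metric.ball_subset_closedBall h
      · rw [Set.mem_singleton_iff] at h
        subst h
        simp
    · have hset : {z : ℂ | z ∈ Metric.closedBall (0:ℂ) 1 ∧
          (if z ∈ Metric.sphere (0:ℂ) 1 then z else 1) = y} = {y} := by
        ext z
        simp only [Set.mem_setOf_eq, Set.mem_singleton_iff]
        constructor
        · rintro ⟨_, h2⟩
          by_cases h : z ∈ Metric.sphere (0:ℂ) 1
          · rwa [if_pos h] at h2
          · rw [if_neg h] at h2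
            exact absurd h2.symm hy1
        · rintro rfl
          exact ⟨Metric.sphere_subset_closedBall hy, by rw [if_pos hy]⟩
      rw [hset]
      exact isConnected_singleton
  · apply (Set.finite_singleton (1:ℂ)).subset
    rintro y ⟨hy, hfail⟩
    by_contra hy1
    apply hfail
    intro s hs hlim x hx
    have hy1' : y ≠ 1 := hy1
    have hne : ∀ᶠ n in Filter.atTop, s n ≠ 1 := hlim.eventually_ne hy1'
    have hxy : x = y := by
      by_contra hxy
      have hd : 0 < dist x y := dist_pos.mpr hxy
      have h1 : ∀ᶠ n in Filter.atTop, dist (s n) y < dist x y / 2 :=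
        (Metric.tendsto_nhds.mp hlim) _ (half_pos hd)
      obtain ⟨N, hN⟩ := Filter.eventually_atTop.mp (hne.and h1)
      obtain ⟨n, hn, z, hz, hrz, hzx⟩ := hx (dist x y / 2) (half_pos hd) N
      obtain ⟨h2, h3⟩ := hN n hn
      have hzs : z = s n := by
        by_cases h : z ∈ Metric.sphere (0:ℂ) 1
        · simpa only [h, if_true] using hrz
        · simp only [h, if_false] at hrz
          exact absurd hrz.symm h2
      rw [hzs] at hzx
      have := dist_triangle x (s n) y
      rw [dist_comm x (s n)] at this
      linarith
    subst hxy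
    simp only [hy, if_true]

end Pool.Agent.S13885
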