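import Pool.Statements.S13944
import Pool.Agent.TH566.CL.Main

set_option autoImplicit false
open Pool Pool.MP_ca288e_gt

namespace Pool.Agent.S13944

/-- The negation of the preceding statement: Every regular space in which each family of disjoint nonempty open sets is met by a Lindelöf subset, and which has a sequence of open covers whose double stars at each point intersect to that point, has at most continuum many points. -/
theorem result :
    ¬ (∀ (X : Type) [TopologicalSpace X], RegularSpace X →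
      (∀ 𝒰 : Set (Set X), (∀ U ∈ 𝒰, IsOpen U ∧ U.Nonempty) → 𝒰.PairwiseDisjoint id →
        ∃ L : Set X, IsLindelof L ∧ ∀ U ∈ 𝒰, (L ∩ U).Nonempty) →
      (∃ 𝒰 : ℕ → Set (Set X),
        (∀ n, ∀ V ∈ 𝒰 n, IsOpen V) ∧ (∀ n, ⋃₀ 𝒰 n = Set.univ) ∧
        ∀ x y : X, x ≠ y → ∃ n, ¬ ∃ V ∈ 𝒰 n, ∃ W ∈ 𝒰 n, x ∈ V ∧ (V ∩ W).Nonempty ∧ y ∈ W) →
      Cardinal.mk X ≤ Cardinal.continuum) := by
  intro h
  obtain ⟨X, hX, h3, -, hc, hr, hl⟩ := Pool.Agent.TH566.CL.main
  exact hl (@h X hX (@T3Space.toRegularSpace X hX h3) hc hr)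

end Pool.Agent.S13944
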