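import Pool.Statements.S14184
import Pool.Agent.Helper580.PT.Kappa
import Pool.Agent.Helper580.PT.SixBody

set_option autoImplicit false
open Pool Pool.MP_ee94a4_gt

namespace Pool.Agent.S14184

/-- The negation of the preceding statement: For every d ≥ 3, the largest minimal number of nonzero translates of a convex body in ℝ^d needed to cover it equals the largest size of a finite set whose distinct pairs are each strictly antipodal (0-antipodal). -/
theorem result :
    ¬ (∀ d : ℕ, 3 ≤ d →
      ∃ n : ℕ,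
        IsGreatest
          {m : ℕ | ∃ K : Set (EuclideanSpace ℝ (Fin d)),
              Convex ℝ K ∧ IsCompact K ∧ (interior K).Nonempty ∧
              IsLeast
                {k : ℕ | ∃ t : Fin k → EuclideanSpace ℝ (Fin d),
                    (∀ i, t i ≠ 0) ∧ K ⊆ ⋃ i, (fun p => t i + p) '' K}
                m}
          n ∧
        IsGreatest
          {m : ℕ | ∃ S : Finset (EuclideanSpace ℝ (Fin d)),
              S.card = m ∧
              ∀ x ∈ S, ∀ y ∈ S, x ≠ y →
                ∃ f : EuclideanSpace ℝ (Fin d) →L[ℝ] ℝ,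
                  ∀ z ∈ convexHull ℝ (↑S : Set (EuclideanSpace ℝ (Fin d))),
                    (z ≠ x → f x < f z) ∧ (z ≠ y → f z < f y)}
          n) := by
  intro h
  obtain ⟨n, hA, hB⟩ := h 3 le_rfl
  obtain ⟨m, hm, K, hK⟩ := Helper580.PT.SixBody.six_body
  have hmn : m ≤ n := hA.2 ⟨K, hK⟩
  obtain ⟨S, hS, hf⟩ := hB.1
  have h6 : 6 ≤ S.card := by omega
  have hinj : Function.Injective fun i : Fin 6 =>
      (S.equivFin.symm (Fin.castLE h6 i) : EuclideanSpace ℝ (Fin 3)) := by
    intro i j hij
    have h1 := S.equivFin.symm.injective (Subtype.ext hij)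
    exact Fin.castLE_injective h6 h1
  have hmem : ∀ i : Fin 6, (S.equivFin.symm (Fin.castLE h6 i) : EuclideanSpace ℝ (Fin 3)) ∈ S :=
    fun i => (S.equivFin.symm (Fin.castLE h6 i)).2
  refine Helper580.PT.kappa (p := fun i : Fin 6 =>
    (S.equivFin.symm (Fin.castLE h6 i) : EuclideanSpace ℝ (Fin 3))) ?_
  intro i j hij
  obtain ⟨f, hf'⟩ := hf _ (hmem i) _ (hmem j) (fun h => hij (hinj h))
  refine ⟨f, fun l hl => ?_, fun l hl => ?_⟩
  · exact (hf' _ (subset_convexHull ℝ _ (Finset.mem_coe.2 (hmem l)))).1 (fun h => hl (hinj h))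
  · exact (hf' _ (subset_convexHull ℝ _ (Finset.mem_coe.2 (hmem l)))).2 (fun h => hl (hinj h))

end Pool.Agent.S14184
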