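import Pool.Statements.S14193
import Pool.Agent.TH596.J13
import Pool.Agent.TH602.A8
import Pool.Agent.TH925.J14

set_option autoImplicit false
open Bundle
open scoped Manifold ContDiff
open Pool Pool.MP_f059bd_gt

namespace Pool.Agent.S14193

/-- On every closed connected smooth Riemannian surface, every nonempty open set meets the image of a stationary geodesic net (vertices of valence at least 3, balanced unit tangents) whose image is not a disjoint union of finitely many simple closed geodesics. -/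
theorem result :
  ∀ (S : Type) [MetricSpace S] [ChartedSpace (EuclideanSpace ℝ (Fin 2)) S]
    [IsManifold 𝓘(ℝ, EuclideanSpace ℝ (Fin 2)) ∞ S] [CompactSpace S] [ConnectedSpace S]
    [RiemannianBundle (fun x : S => TangentSpace 𝓘(ℝ, EuclideanSpace ℝ (Fin 2)) x)]
    [IsContMDiffRiemannianBundle 𝓘(ℝ, EuclideanSpace ℝ (Fin 2)) ∞ (EuclideanSpace ℝ (Fin 2))
      (fun x : S => TangentSpace 𝓘(ℝ, EuclideanSpace ℝ (Fin 2)) x)]
    [IsRiemannianManifold 𝓘(ℝ, EuclideanSpace ℝ (Fin 2)) S],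
  ∀ U : Set S, IsOpen U → U.Nonempty →
  ∃ (n m : ℕ) (src tgt : Fin m → Fin n) (p : Fin n → S) (γ : Fin m → ℝ → S),
    (∀ e, ∃ c : ℝ, 0 < c ∧ ∀ t ∈ Set.Icc (0:ℝ) 1, ∃ δ > 0,
        ∀ s ∈ Set.Icc (0:ℝ) 1, ∀ s' ∈ Set.Icc (0:ℝ) 1,
          |s - t| < δ → |s' - t| < δ → dist (γ e s) (γ e s') = c * |s - s'|) ∧
    (∀ e, γ e 0 = p (src e) ∧ γ e 1 = p (tgt e)) ∧
    (∀ v, 3 ≤ (Finset.univ.filter (fun e => src e = v)).card
              + (Finset.univ.filter (fun e => tgt e = v)).card) ∧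
    (∀ v,
      (∑ e ∈ Finset.univ.filter (fun e => src e = v),
        ‖@id (TangentSpace 𝓘(ℝ, EuclideanSpace ℝ (Fin 2)) (p v))
            (mfderivWithin 𝓘(ℝ, ℝ) 𝓘(ℝ, EuclideanSpace ℝ (Fin 2)) (γ e) (Set.Icc 0 1) 0 (1 : ℝ))‖⁻¹
          • @id (TangentSpace 𝓘(ℝ, EuclideanSpace ℝ (Fin 2)) (p v))
            (mfderivWithin 𝓘(ℝ, ℝ) 𝓘(ℝ, EuclideanSpace ℝ (Fin 2)) (γ e) (Set.Icc 0 1) 0 (1 : ℝ)))
      - (∑ e ∈ Finset.univ.filter (fun e => tgt e = v),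
        ‖@id (TangentSpace 𝓘(ℝ, EuclideanSpace ℝ (Fin 2)) (p v))
            (mfderivWithin 𝓘(ℝ, ℝ) 𝓘(ℝ, EuclideanSpace ℝ (Fin 2)) (γ e) (Set.Icc 0 1) 1 (1 : ℝ))‖⁻¹
          • @id (TangentSpace 𝓘(ℝ, EuclideanSpace ℝ (Fin 2)) (p v))
            (mfderivWithin 𝓘(ℝ, ℝ) 𝓘(ℝ, EuclideanSpace ℝ (Fin 2)) (γ e) (Set.Icc 0 1) 1 (1 : ℝ)))
      = 0) ∧
    (¬ ∃ (k : ℕ) (c : Fin k → ℝ → S) (T : Fin k → ℝ),
        (∀ i, 0 < T i ∧ Function.Periodic (c i) (T i) ∧ Set.InjOn (c i) (Set.Ico 0 (T i)) ∧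
          ∃ a : ℝ, 0 < a ∧ ∀ t : ℝ, ∃ δ > 0, ∀ s s' : ℝ,
            |s - t| < δ → |s' - t| < δ → dist (c i s) (c i s') = a * |s - s'|) ∧
        (Pairwise fun i j => Disjoint (Set.range (c i)) (Set.range (c j))) ∧
        (⋃ e, γ e '' Set.Icc (0:ℝ) 1) = ⋃ i, Set.range (c i)) ∧
    ((⋃ e, γ e '' Set.Icc (0:ℝ) 1) ∩ U).Nonempty := by
  intro S _ _ _ _ _ _ _ _ U hU hne
  obtain ⟨N, F, hF, hinj, hiso⟩ := Pool.Agent.TH596.J13.isometric_embedding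
    (fun n h hs η hη => Pool.Agent.TH602.perturb h hs hη) S
  exact Pool.Agent.TH925.J14.transfer S N F hF hinj hiso U hU hne

end Pool.Agent.S14193
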