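-- Every proper system of at most continuum many congruences is solvable in the hyperbolic plane.
--
-- Idea. Identify a set with its complement. The congruences then form a graph on the classes of
-- sets; in each component choose a root class, and realise the component by a star: one isometry for
-- each further class of the component and a single isometry exchanging the root set and its
-- complement. All congruences of the given system are satisfied by products of these isometries.
-- For the star system only the powers of the exchanging isometries have to be free of fixed points,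
-- so that a free family of continuum many parabolic isometries suffices: the stabilizers of points
-- are commutative and the labels can be chosen along the orbits.
import Pool.Statements.S14257
import Pool.Agent.TH549.Cong.Orient
import Pool.Agent.TH549.Cong.FreeFam

set_option autoImplicit false
open Pool Pool.MP_f7c3cd_gt

namespace Pool.Agent.S14257

open Pool.Agent.TH549.Cong Cardinal
open scoped MatrixGroups

/-- Every proper system of at most continuum many congruences among at most continuum many (nonempty index set) sets has a solution: a partition of the hyperbolic plane where each congruence holds via some hyperbolic isometry. -/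
theorem result :
    ∀ (I M : Type) (L R : M → Set I),
      Nonempty I →
      Cardinal.mk I ≤ Cardinal.continuum →
      Cardinal.mk M ≤ Cardinal.continuum →
      (∀ i, (L i).Nonempty ∧ L i ≠ Set.univ ∧ (R i).Nonempty ∧ R i ≠ Set.univ) →
      ∃ A : I → Set UpperHalfPlane,
        Pairwise (fun j k => Disjoint (A j) (A k)) ∧
        (⋃ j, A j) = Set.univ ∧
        ∀ i, ∃ g : IsometryEquiv UpperHalfPlane UpperHalfPlane,
          g '' (⋃ j ∈ L i, A j) = ⋃ j ∈ R i, A j := by
  classical
  intro I M L R hI _ hM hprop
  obtain ⟨i₀⟩ := hI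
  -- normalisation of a set: the member of the class which contains `i₀`
  let nm : Set I → Set I := fun T => if i₀ ∈ T then T else Tᶜ
  have nm_mem : ∀ T, i₀ ∈ nm T := by
    intro T
    by_cases h : i₀ ∈ T
    · simp only [nm, h, if_true]
    · simp only [nm, h, if_false]; exact h
  have nm_ne : ∀ T : Set I, T.Nonempty → T ≠ Set.univ → nm T ≠ Set.univ := by
    intro T h1 h2
    by_cases h : i₀ ∈ T
    · simpa only [nm, h, if_true] using h2
    · simp only [nm, h, if_false]
      intro h3
      rw [Set.compl_univ_iff] at h3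
      exact h1.ne_empty h3
  -- the generators
  let S : Type := ↥(Set.range (fun i => nm (L i)) ∪ Set.range (fun i => nm (R i)))
  have hScard : #S ≤ continuum := by
    refine (Cardinal.mk_union_le _ _).trans ?_
    refine (add_le_add (Cardinal.mk_range_le.trans hM) (Cardinal.mk_range_le.trans hM)).trans ?_
    rw [Cardinal.continuum_add_self]
  let lS : M → S := fun i => ⟨nm (L i), Or.inl ⟨i, rfl⟩⟩
  let rS : M → S := fun i => ⟨nm (R i), Or.inr ⟨i, rfl⟩⟩
  let B : S → Set I := fun v => v.1
  have hBinj : Function.Injective B := Subtype.val_injective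
  have hB0 : ∀ v, i₀ ∈ B v := by
    rintro ⟨v, ⟨i, rfl⟩ | ⟨i, rfl⟩⟩
    · exact nm_mem _
    · exact nm_mem _
  have hBne : ∀ v, B v ≠ Set.univ := by
    rintro ⟨v, ⟨i, rfl⟩ | ⟨i, rfl⟩⟩
    · exact nm_ne _ (hprop i).1 (hprop i).2.1
    · exact nm_ne _ (hprop i).2.2.1 (hprop i).2.2.2
  -- the components
  let E : Setoid S := Relation.EqvGen.setoid (fun a b => ∃ i, a = lS i ∧ b = rS i)
  let root : S → S := fun v => Quotient.out (Quotient.mk E v)
  have hroot : ∀ v, root (root v) = root v := by
    intro v
    change Quotient.out (Quotient.mk E (root v)) = Quotient.out (Quotient.mk E v)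
    rw [show Quotient.mk E (root v) = Quotient.mk E v from Quotient.out_eq _]
  have hlr : ∀ i, root (lS i) = root (rS i) := by
    intro i
    change Quotient.out (Quotient.mk E (lS i)) = Quotient.out (Quotient.mk E (rS i))
    rw [show Quotient.mk E (lS i) = Quotient.mk E (rS i) from
      Quotient.sound (Relation.EqvGen.rel _ _ ⟨i, rfl, rfl⟩)]
  -- the action
  obtain ⟨t, ht⟩ := exists_algebraicIndependent hScard
  let φ : FreeGroup S →* SL(2, ℝ) := FreeGroup.lift (fun v : S => (pm (t v) : SL(2, ℝ)))
  have hφinj : Function.Injective φ := free_of_algebraicIndependent t ht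
  let act : MulAction (FreeGroup S) UpperHalfPlane := MulAction.compHom UpperHalfPlane φ
  have hact : ∀ (g : FreeGroup S) (z : UpperHalfPlane), g • z = φ g • z := fun _ _ => rfl
  have hcomm : ∀ (x : UpperHalfPlane) (g h : FreeGroup S), g • x = x → h • x = x →
      g * h = h * g := by
    intro x g h hg hh
    apply hφinj
    rw [map_mul, map_mul]
    exact commute_of_fixed _ _ x hg hh
  obtain ⟨nxt, H1, H2, H3⟩ := exists_orientation hcomm
  have H4 : ∀ v : S, ∀ m : ℕ, 0 < m → ∀ x : UpperHalfPlane, (FreeGroup.of v) ^ m • x ≠ x := by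
    intro v m hm x
    rw [hact, map_pow]
    have : φ (FreeGroup.of v) = pm (t v) := by simp [φ]
    rw [this]
    exact pm_pow_ne (t v) m hm x
  obtain ⟨ℓ, hℓ⟩ := exists_label nxt root B hroot hBinj i₀ hB0 hBne H1 H2 H3 H4
  -- from the root to a class, and the exchange at the root
  have hstar : ∀ v : S, ∃ g : FreeGroup S, ∀ x, ℓ x ∈ B (root v) ↔ ℓ (g • x) ∈ B v := by
    intro v
    by_cases hv : root v = v
    · refine ⟨1, fun x => ?_⟩
      rw [one_smul, hv]
    · refine ⟨FreeGroup.of v, fun x => ?_⟩
      have := hℓ x v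
      simpa only [Ls, Rs, if_neg hv] using this
  have hflip : ∀ v : S, root v = v → ∀ x, ℓ x ∈ B v ↔ ¬ ℓ (FreeGroup.of v • x) ∈ B v := by
    intro v hv x
    have := hℓ x v
    simpa only [Ls, Rs, if_pos hv, hv, if_true, Set.mem_compl_iff] using this
  have hpos : ∀ i, ∃ g : FreeGroup S, ∀ x, ℓ x ∈ B (lS i) ↔ ℓ (g • x) ∈ B (rS i) := by
    intro i
    obtain ⟨g1, h1⟩ := hstar (lS i)
    obtain ⟨g2, h2⟩ := hstar (rS i)
    refine ⟨g2 * g1⁻¹, fun x => ?_⟩
    rw [mul_smul, ← h2, ← hlr i, h1, smul_inv_smul]
  have hneg : ∀ i, ∃ g : FreeGroup S, ∀ x, ℓ x ∈ B (lS i) ↔ ¬ ℓ (g • x) ∈ B (rS i) := by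
    intro i
    obtain ⟨g1, h1⟩ := hstar (lS i)
    obtain ⟨g2, h2⟩ := hstar (rS i)
    refine ⟨g2 * FreeGroup.of (root (lS i)) * g1⁻¹, fun x => ?_⟩
    rw [mul_smul, mul_smul, ← h2, ← hlr i, ← hflip _ (hroot (lS i)), h1, smul_inv_smul]
  have hsol : ∀ i, ∃ g : FreeGroup S, ∀ x, ℓ x ∈ L i ↔ ℓ (g • x) ∈ R i := by
    intro i
    by_cases h1 : i₀ ∈ L i <;> by_cases h2 : i₀ ∈ R i
    · obtain ⟨g, hg⟩ := hpos i
      exact ⟨g, fun x => by simpa only [B, lS, rS, nm, h1, h2, if_true] using hg x⟩
    · obtain ⟨g, hg⟩ := hneg i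
      exact ⟨g, fun x => by simpa only [B, lS, rS, nm, h1, h2, if_true, if_false,
        Set.mem_compl_iff, not_not] using hg x⟩
    · obtain ⟨g, hg⟩ := hneg i
      exact ⟨g, fun x => by simpa only [B, lS, rS, nm, h1, h2, if_true, if_false,
        Set.mem_compl_iff, not_iff_not] using hg x⟩
    · obtain ⟨g, hg⟩ := hpos i
      exact ⟨g, fun x => by simpa only [B, lS, rS, nm, h1, h2, if_false,
        Set.mem_compl_iff, not_iff_not] using hg x⟩
  -- the partition
  have hU : ∀ T : Set I, (⋃ j ∈ T, ℓ ⁻¹' {j}) = ℓ ⁻¹' T := by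
    intro T
    ext x
    simp
  refine ⟨fun j => ℓ ⁻¹' {j}, ?_, ?_, ?_⟩
  · intro j k hjk
    rw [Set.disjoint_left]
    intro x hx hx'
    exact hjk (by rw [← (show ℓ x = j from hx), ← (show ℓ x = k from hx')])
  · ext x
    simp
  · intro i
    obtain ⟨g, hg⟩ := hsol i
    refine ⟨IsometryEquiv.constSMul (φ g), ?_⟩
    rw [hU, hU]
    ext y
    constructor
    · rintro ⟨x, hx, rfl⟩
      exact (hg x).mp hx
    · intro hy
      refine ⟨(φ g)⁻¹ • y, ?_, ?_⟩
      · have h3 := hg ((φ g)⁻¹ • y)
        rw [hact, smul_inv_smul] at h3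
        exact h3.mpr hy
      · exact smul_inv_smul (φ g) y

end Pool.Agent.S14257
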