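import Pool.Statements.S14377
import Pool.Agent.TH747.HT.Pi3
import Pool.Agent.H645R2.HT.Univ

set_option autoImplicit false
open Pool Pool.MP_0ee11a_lc

namespace Pool.Agent.S14377

/-- There is a computable coloring of the positive integers with finitely many colors such that no infinite Delta^0_4 set of positive integers has all sums of its nonempty finite subsets the same color. -/
theorem result :
    ∃ k : ℕ, ∃ col : ℕ → ℕ, Computable col ∧ (∀ n, col n < k) ∧
      ∀ H : Set ℕ, H.Infinite → (∀ x ∈ H, 0 < x) →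
        (∃ R : ℕ × ℕ × ℕ × ℕ × ℕ → Prop, ComputablePred R ∧
          ∀ n, n ∈ H ↔ ∃ a, ∀ b, ∃ c, ∀ d, R (n, a, b, c, d)) →
        (∃ R : ℕ × ℕ × ℕ × ℕ × ℕ → Prop, ComputablePred R ∧
          ∀ n, n ∈ H ↔ ∀ a, ∃ b, ∀ c, ∃ d, R (n, a, b, c, d)) →
        ¬ ∃ i : ℕ, ∀ F : Finset ℕ, F.Nonempty → (↑F : Set ℕ) ⊆ H →
            col (∑ x ∈ F, x) = i := by
  open Pool.Agent.TH747.HT Pool.Agent.H645R2.HT Pool.Agent.Helper446 Pool.Agent.Helper446.RE in
  refine ⟨2, fun n => bt (col (D3 W0) n), c_bt.comp (c_col (c_D3 c_W0)), fun n => ?_, ?_⟩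
  · show bt _ < 2
    cases col (D3 W0) n <;> decide
  intro H hH hp ⟨R, hR, hRH⟩ _ ⟨i, hi⟩
  -- the index of the set
  have h1 : REPred fun w : ℕ => ∃ d, ¬ R (w.unpair.1.unpair.1, w.unpair.1.unpair.2,
      w.unpair.2.unpair.1, w.unpair.2.unpair.2, d) := by
    refine RE.exN (p := fun (w : ℕ) d => ¬ R (w.unpair.1.unpair.1, w.unpair.1.unpair.2,
      w.unpair.2.unpair.1, w.unpair.2.unpair.2, d)) ?_
    exact of_comput (cp_comp hR.not (f := fun x : ℕ × ℕ => (x.1.unpair.1.unpair.1,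
      x.1.unpair.1.unpair.2, x.1.unpair.2.unpair.1, x.1.unpair.2.unpair.2, x.2)) (by fun_prop))
  obtain ⟨e, he⟩ := univ_W0 h1
  refine no_solution (limDec3 mon_W0) hH hp ?_ e ?_
  · refine ⟨tb i, fun F hF hFH => ?_⟩
    rw [← hi F hF hFH, tb_bt]
  · intro n
    rw [hRH]
    refine exists_congr fun a => forall_congr' fun b => exists_congr fun c => ?_
    have h2 := he (Nat.pair (Nat.pair n a) (Nat.pair b c))
    simp only [Nat.unpair_pair] at h2
    unfold ix
    simp only [Nat.unpair_pair]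
    constructor
    · intro h s
      by_contra hc
      rw [Bool.not_eq_false] at hc
      obtain ⟨d, hd⟩ := h2.2 ⟨s, hc⟩
      exact hd (h d)
    · intro h d
      by_contra hc
      obtain ⟨s, hs⟩ := h2.1 ⟨d, hc⟩
      rw [h s] at hs
      cases hs

end Pool.Agent.S14377
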