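import Pool.Statements.S14407
import Pool.Agent.TH732.FR.Main

set_option autoImplicit false
open Pool Pool.MP_14b149_lc

namespace Pool.Agent.S14407

/-- If U is a normal measure on a measurable δ, κ is singular of cofinality δ with λ^δ<κ for λ<κ, and a square_κ sequence exists, then some unbounded A ⊆ κ⁺ is not in Ult(V,U) while every proper initial segment of A is in Ult(V,U). -/
theorem result :
  ∀ (δ κ : Cardinal.{0}) (U : Ultrafilter Ordinal.{0}),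
    Cardinal.aleph0 < δ →
    Set.Iio δ.ord ∈ U →
    (∀ β : Ordinal.{0}, ({β} : Set Ordinal.{0}) ∉ U) →
    (∀ (ι : Type) (s : ι → Set Ordinal.{0}), Cardinal.mk ι < δ → (∀ i, s i ∈ U) → (⋂ i, s i) ∈ U) →
    (∀ f : Ordinal.{0} → Ordinal.{0}, {β | f β < β} ∈ U → ∃ γ, {β | f β = γ} ∈ U) →
    δ < κ →
    κ.ord.cof = δ →
    (∀ μ : Cardinal.{0}, μ < κ → μ ^ δ < κ) →
    (∃ C : Ordinal.{0} → Set Ordinal.{0}, ∀ α < (Order.succ κ).ord, Order.IsSuccLimit α →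
        C α ⊆ Set.Iio α ∧
        (∀ β < α, ∃ γ ∈ C α, β < γ) ∧
        (∀ β < α, Order.IsSuccLimit β → (∀ γ < β, ∃ ξ ∈ C α, γ < ξ ∧ ξ < β) → β ∈ C α) ∧
        Nonempty (C α ↪o Set.Iio κ.ord) ∧
        (∀ β < α, Order.IsSuccLimit β → (∀ γ < β, ∃ ξ ∈ C α, γ < ξ ∧ ξ < β) →
          C β = C α ∩ Set.Iio β)) →
    ∀ ρ : (Ordinal.{0} → Ordinal.{0}) → Ordinal.{0},
      (∀ h h' : Ordinal.{0} → Ordinal.{0},
          ρ h < ρ h' ↔ ∀ᶠ i in (U : Filter Ordinal.{0}), h i < h' i) →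
      (∀ h : Ordinal.{0} → Ordinal.{0}, ∀ β < ρ h, ∃ h' : Ordinal.{0} → Ordinal.{0}, ρ h' = β) →
      ∃ A : Set Ordinal.{0},
        A ⊆ Set.Iio (Order.succ κ).ord ∧
        (∀ β < (Order.succ κ).ord, ∃ γ ∈ A, β < γ) ∧
        (¬ ∃ g : Ordinal.{0} → Set Ordinal.{0}, ∀ η : Ordinal.{0},
            η ∈ A ↔ ∃ f : Ordinal.{0} → Ordinal.{0},
              ρ f = η ∧ ∀ᶠ i in (U : Filter Ordinal.{0}), f i ∈ g i) ∧
        (∀ α < (Order.succ κ).ord, ∃ g : Ordinal.{0} → Set Ordinal.{0}, ∀ η : Ordinal.{0},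
            η ∈ A ∩ Set.Iio α ↔ ∃ f : Ordinal.{0} → Ordinal.{0},
              ρ f = η ∧ ∀ᶠ i in (U : Filter Ordinal.{0}), f i ∈ g i) := by
  intro δ κ U hδ0 hδU hnp hcomp hnorm hδκ hcof hpow hsq ρ hρ hρ'
  by_contra hno
  obtain ⟨C, hCC⟩ := hsq
  have hκ0 : Cardinal.aleph0 ≤ κ := (hδ0.trans hδκ).le
  have hC : W590F.Sq C (Order.succ κ).ord := fun α hα hl => ⟨(hCC α hα hl).1, (hCC α hα hl).2.1,
    (hCC α hα hl).2.2.1, (hCC α hα hl).2.2.2.2⟩
  have h2 : (2 : Cardinal.{0}) ^ δ < κ :=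
    hpow 2 (lt_of_lt_of_le (by exact_mod_cast Cardinal.natCast_lt_aleph0 (n := 2)) hκ0)
  obtain ⟨v', _, _, hv'3, _, hv'5⟩ := W590.fr_exists_v δ κ hδ0 hδκ hcof δ hδκ
  have hν0 : Order.succ ((2 : Cardinal.{0}) ^ δ) < κ := by
    obtain ⟨i, hi, h⟩ := hv'5 _ h2
    exact (Order.succ_le_of_lt h).trans_lt (hv'3 i hi)
  obtain ⟨v, hv1, hv2, hv3, hv4, hv5⟩ := W590.fr_exists_v δ κ hδ0 hδκ hcof _ hν0
  have hδ2 : δ ≤ 2 ^ δ := (Cardinal.cantor δ).le
  have hvmono : Monotone v := fun i j hij => hv2 i j hij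
  have hvinf : ∀ i, Cardinal.aleph0 ≤ v i := fun i =>
    ((hδ0.le.trans hδ2).trans (Order.le_succ _)).trans (hv1 i)
  have hKlim : Order.IsSuccLimit (Order.succ κ).ord :=
    Cardinal.isSuccLimit_ord (hκ0.trans (Order.le_succ κ))
  have hK : ∀ β < (Order.succ κ).ord, Order.succ β < (Order.succ κ).ord :=
    fun β hβ => hKlim.succ_lt hβ
  have hD : ∀ β < (Order.succ κ).ord, ∀ x < β, ∃ i < δ.ord, W590F.DD C v i β x := by
    refine W590F.exists_inD hC (fun i => Cardinal.lift.{1} (v i))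
      (fun i j hij => Cardinal.lift_le.mpr (hvmono hij)) δ.ord ?_ ?_
    · rw [Cardinal.lt_ord]; simpa using (Cardinal.aleph0_pos.trans hδ0)
    · intro β hβ hl c hc
      obtain ⟨e⟩ := (hCC β hβ hl).2.2.2.1
      have h1 : (e ⟨c, hc⟩ : Ordinal.{0}) < κ.ord := (e ⟨c, hc⟩).2
      have h2 : Cardinal.mk (↥(C β ∩ Set.Iio c)) ≤
          Cardinal.lift.{1} (e ⟨c, hc⟩ : Ordinal.{0}).card := by
        rw [← Cardinal.mk_Iio_ordinal]
        refine Cardinal.mk_le_of_injective (f := fun y => ⟨(e ⟨y.1, y.2.1⟩ : Ordinal.{0}), ?_⟩) ?_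
        · have : (⟨y.1, y.2.1⟩ : C β) < ⟨c, hc⟩ := y.2.2
          exact e.strictMono this
        · intro a b hab
          have h3 := congrArg Subtype.val hab
          have h4 := e.injective (Subtype.ext h3)
          exact Subtype.ext (Subtype.mk.inj h4)
      obtain ⟨i, hi, h3⟩ := hv5 (e ⟨c, hc⟩ : Ordinal.{0}).card (Cardinal.lt_ord.mp h1)
      exact ⟨i, hi, h2.trans_lt (Cardinal.lift_lt.mpr h3)⟩
  have hX : TH732.FR.Ctx δ U C v ρ (Order.succ κ).ord :=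
    { hδU := hδU
      hge := W590F.ult_ge δ U hnp hcomp
      hρ := hρ
      hρ' := hρ'
      hK := hK
      hC := hC
      hvmono := hvmono
      hvinf := hvinf
      hD := hD
      hcard := fun h hh => W590.fr_card_rho δ κ U hδ0 hδU hnp hcomp hnorm hδκ hpow v hv3 hv4 ρ
        hρ hρ' h hh
      hno := hno }
  exact hX.main hδ0 hδκ hcomp hv1 hν0.le (fun α hα hl => (hCC α hα hl).2.2.2.1)

end Pool.Agent.S14407
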