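import Pool.Statements.S14484
import Pool.Agent.TH745.Fin

set_option autoImplicit false
open FirstOrder FirstOrder.Language
open scoped Classical
open Pool Pool.MP_241a35_lc

namespace Pool.Agent.S14484

/-- The negation of the preceding statement: There is a countable nonstandard model of true arithmetic, presented on ℕ, whose diagram computes every arithmetical set, and every degree below it that computes all arithmetical sets is equivalent to it. -/
theorem result :
    ¬ (∀ Std : (Language.mk (fun _ => Empty) (fun a => Fin (if a = 3 then 2 else 0))).Structure ℕ,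
      (∀ (n : ℕ)
        (r : (Language.mk (fun _ => Empty) (fun a => Fin (if a = 3 then 2 else 0))).Relations n)
        (xs : Fin n → ℕ),
          Structure.RelMap r xs ↔
            ∃ i j k : Fin n, i.val = 0 ∧ j.val = 1 ∧ k.val = 2 ∧
              ((Fin.val r = 0 ∧ xs i + xs j = xs k) ∨ (Fin.val r = 1 ∧ xs i * xs j = xs k))) →
      ∃ (M : Type)
        (A : (Language.mk (fun _ => Empty) (fun a => Fin (if a = 3 then 2 else 0))).Structure M)
        (e : M ≃ ℕ) (p q : M → M → M) (D : ℕ → ℕ),
        (∀ (n : ℕ)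
          (r : (Language.mk (fun _ => Empty) (fun a => Fin (if a = 3 then 2 else 0))).Relations n)
          (xs : Fin n → M),
            Structure.RelMap r xs ↔
              ∃ i j k : Fin n, i.val = 0 ∧ j.val = 1 ∧ k.val = 2 ∧
                ((Fin.val r = 0 ∧ p (xs i) (xs j) = xs k) ∨ (Fin.val r = 1 ∧ q (xs i) (xs j) = xs k))) ∧
        D = (fun m : ℕ => Nat.pair (e (p (e.symm m.unpair.1) (e.symm m.unpair.2)))
                (e (q (e.symm m.unpair.1) (e.symm m.unpair.2)))) ∧
        (Language.mk (fun _ => Empty) (fun a => Fin (if a = 3 then 2 else 0))).ElementarilyEquivalent M ℕ ∧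
        IsEmpty ((Language.mk (fun _ => Empty) (fun a => Fin (if a = 3 then 2 else 0))).Equiv M ℕ) ∧
        (∀ S : Set ℕ,
          (∅ : Set ℕ).Definable (Language.mk (fun _ => Empty) (fun a => Fin (if a = 3 then 2 else 0)))
            {v : Fin 1 → ℕ | v 0 ∈ S} →
          TuringReducible (PFun.lift (fun m : ℕ => if m ∈ S then 1 else 0)) (PFun.lift D)) ∧
        (∀ g : ℕ → ℕ,
          TuringReducible (PFun.lift g) (PFun.lift D) →
          (∀ S : Set ℕ,
            (∅ : Set ℕ).Definable (Language.mk (fun _ => Empty) (fun a => Fin (if a = 3 then 2 else 0)))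
              {v : Fin 1 → ℕ | v 0 ∈ S} →
            TuringReducible (PFun.lift (fun m : ℕ => if m ∈ S then 1 else 0)) (PFun.lift g)) →
          TuringReducible (PFun.lift D) (PFun.lift g))) := by
  intro hall
  obtain ⟨M, A, e, p, q, D, hA, hD, hE, hI, -, h6⟩ :=
    hall Pool.Agent.TH745.stdS Pool.Agent.TH745.isAr_stdS
  obtain ⟨g, hg1, hg2, hg3⟩ := Pool.Agent.TH745.general A e p q D hA hD
    Pool.Agent.TH745.stdS Pool.Agent.TH745.isAr_stdS hE hI
  refine hg2 (h6 g hg1 fun S hS => ?_)
  obtain ⟨f, hf1, hf2⟩ := hg3 S hS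
  have h1 : ComputableIn {(PFun.lift g : ℕ →. ℕ)} (fun m => Pool.Agent.TH745.ind (f m)) :=
    Pool.Agent.TH745.cind hf1
  have h2 : (fun m => Pool.Agent.TH745.ind (f m)) = (fun m : ℕ => if m ∈ S then 1 else 0) := by
    funext m
    by_cases h : m ∈ S
    · rw [if_pos h, (hf2 m).2 h]; rfl
    · have h3 : f m = false := by
        rw [Bool.eq_false_iff]; exact fun h4 => h ((hf2 m).1 h4)
      rw [if_neg h, h3]; rfl
  rw [h2] at h1
  exact h1

end Pool.Agent.S14484
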