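import Pool.Statements.S14496
import Pool.Agent.TH724.SE.Fam
import Pool.Agent.H468R2.MA.P_T_BF
import Pool.Agent.H468R2.MA.P_T_C
import Pool.Agent.H468R2.MA.P_T_CH
import Pool.Agent.H468R2.MA.P_T_GEN
import Pool.Agent.H468R2.MA.P_T_LOC
import Pool.Agent.H468R2.MA.P_T_LOC1
import Pool.Agent.H468R2.MA.P_T_SC

set_option autoImplicit false
open MeasureTheory
open scoped Manifold ContDiff
open Pool Pool.MP_2602dd_lc

namespace Pool.Agent.S14496

/-- The members of the family, as smooth ergodic volume preserving diffeomorphisms. -/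
noncomputable def dif (x : ℕ → ℝ) :
    {T : Diffeomorph (𝓡 2) (𝓡 2) Pool.Agent.TH724.SE.Tor Pool.Agent.TH724.SE.Tor ∞ //
      MeasurePreserving (⇑T) (volume : Measure Pool.Agent.TH724.SE.Tor) volume ∧
        Ergodic (⇑T) (volume : Measure Pool.Agent.TH724.SE.Tor)} :=
  ⟨Pool.Agent.TH724.SE.T (Pool.Agent.TH724.SE.sV x) (Pool.Agent.TH724.SE.abs_sV x),
    (Pool.Agent.TH724.SE.ergodic_sk (Pool.Agent.TH724.SE.abs_sV x)).toMeasurePreserving,
    Pool.Agent.TH724.SE.ergodic_sk (Pool.Agent.TH724.SE.abs_sV x)⟩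

lemma dif_coe (x : ℕ → ℝ) : (⇑(dif x).1 : Pool.Agent.TH724.SE.Tor → Pool.Agent.TH724.SE.Tor) =
    Pool.Agent.TH724.SE.sk (Pool.Agent.TH724.SE.ph (Pool.Agent.TH724.SE.sV x)) := rfl

lemma far_of_gen {x y : ℕ → ℝ} (h : Pool.Agent.H468R2.MA.Gen x y) :
    ∃ᶠ k in Filter.atTop, (1 / 100 : ℝ) ≤
      |Pool.Agent.TH724.SE.sV x k - Pool.Agent.TH724.SE.sV y k| := by
  rw [Filter.frequently_atTop]
  intro N
  obtain ⟨k, hk, h1, h2⟩ := h (N + 1)
  refine ⟨k, by omega, ?_⟩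
  have h3 : (1 : ℝ) / (((N + 1 : ℕ) : ℝ) + 1) ≤ 1 / 2 := by
    apply one_div_le_one_div_of_le (by norm_num)
    push_cast
    have : (0 : ℝ) ≤ N := Nat.cast_nonneg N
    linarith
  have h4 : |x k| ≤ 1 / 2 := h1.trans h3
  have h5 : |y k - Real.pi| ≤ 1 / 2 := h2.trans h3
  have c1 := Real.one_sub_sq_div_two_le_cos (x := x k)
  have c2 := Real.one_sub_sq_div_two_le_cos (x := y k - Real.pi)
  rw [Real.cos_sub_pi] at c2
  have s1 : (x k) ^ 2 ≤ (1 / 2) ^ 2 := by
    rw [← sq_abs]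
    exact pow_le_pow_left₀ (abs_nonneg _) h4 2
  have s2 : (y k - Real.pi) ^ 2 ≤ (1 / 2) ^ 2 := by
    rw [← sq_abs]
    exact pow_le_pow_left₀ (abs_nonneg _) h5 2
  have h6 : (1 / 100 : ℝ) ≤ Pool.Agent.TH724.SE.sV x k - Pool.Agent.TH724.SE.sV y k := by
    unfold Pool.Agent.TH724.SE.sV
    linarith
  exact h6.trans (le_abs_self _)


/-- The negation of the preceding statement: For every compact connected boundaryless smooth manifold of dimension at least 2 with a smooth volume, measure isomorphism of smooth ergodic volume-preserving diffeomorphisms is Borel bi-reducible with isomorphism of countable binary relations on ℕ. -/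
theorem result :
    ¬ (∀ (n : ℕ), 2 ≤ n →
  ∀ (M : Type) [TopologicalSpace M] [ChartedSpace (EuclideanSpace ℝ (Fin n)) M]
    [IsManifold (𝓡 n) ∞ M] [CompactSpace M] [ConnectedSpace M] [T2Space M]
    [MeasurableSpace M] [BorelSpace M] (ν : Measure M),
    (∀ e ∈ atlas (EuclideanSpace ℝ (Fin n)) M, ∃ ρ : EuclideanSpace ℝ (Fin n) → ℝ,
        ContDiffOn ℝ ∞ ρ e.target ∧ (∀ y ∈ e.target, 0 < ρ y) ∧
        Measure.map (⇑e) (ν.restrict e.source) =
          (volume.withDensity (fun y => ENNReal.ofReal (ρ y))).restrict e.target) →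
    (∃ f : {T : Diffeomorph (𝓡 n) (𝓡 n) M M ∞ //
              MeasurePreserving (⇑T) ν ν ∧ Ergodic (⇑T) ν} → (ℕ → ℕ → Bool),
       @Measurable {T : Diffeomorph (𝓡 n) (𝓡 n) M M ∞ //
              MeasurePreserving (⇑T) ν ν ∧ Ergodic (⇑T) ν} (ℕ → ℕ → Bool)
         (MeasurableSpace.comap
           (fun T : {T : Diffeomorph (𝓡 n) (𝓡 n) M M ∞ //
              MeasurePreserving (⇑T) ν ν ∧ Ergodic (⇑T) ν} => (⇑T.1 : M → M))
           (inferInstance : MeasurableSpace (M → M)))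
         (inferInstance : MeasurableSpace (ℕ → ℕ → Bool)) f ∧
       ∀ S T : {T : Diffeomorph (𝓡 n) (𝓡 n) M M ∞ //
              MeasurePreserving (⇑T) ν ν ∧ Ergodic (⇑T) ν},
         (∃ φ ψ : M → M, MeasurePreserving φ ν ν ∧ MeasurePreserving ψ ν ν ∧
            ψ ∘ φ =ᵐ[ν] id ∧ φ ∘ ψ =ᵐ[ν] id ∧ φ ∘ (⇑S.1) =ᵐ[ν] (⇑T.1) ∘ φ) ↔
         (∃ σ : Equiv.Perm ℕ, ∀ i j : ℕ, f S i j = f T (σ i) (σ j))) ∧
    (∃ g : (ℕ → ℕ → Bool) → {T : Diffeomorph (𝓡 n) (𝓡 n) M M ∞ //
              MeasurePreserving (⇑T) ν ν ∧ Ergodic (⇑T) ν},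
       @Measurable (ℕ → ℕ → Bool) {T : Diffeomorph (𝓡 n) (𝓡 n) M M ∞ //
              MeasurePreserving (⇑T) ν ν ∧ Ergodic (⇑T) ν}
         (inferInstance : MeasurableSpace (ℕ → ℕ → Bool))
         (MeasurableSpace.comap
           (fun T : {T : Diffeomorph (𝓡 n) (𝓡 n) M M ∞ //
              MeasurePreserving (⇑T) ν ν ∧ Ergodic (⇑T) ν} => (⇑T.1 : M → M))
           (inferInstance : MeasurableSpace (M → M))) g ∧
       ∀ G H : ℕ → ℕ → Bool,
         (∃ σ : Equiv.Perm ℕ, ∀ i j : ℕ, G i j = H (σ i) (σ j)) ↔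
         (∃ φ ψ : M → M, MeasurePreserving φ ν ν ∧ MeasurePreserving ψ ν ν ∧
            ψ ∘ φ =ᵐ[ν] id ∧ φ ∘ ψ =ᵐ[ν] id ∧
            φ ∘ (⇑(g G).1) =ᵐ[ν] (⇑(g H).1) ∘ φ))) := by
  intro H
  have H2 := H 2 le_rfl Pool.Agent.TH724.SE.Tor
    (volume : Measure Pool.Agent.TH724.SE.Tor) ?_
  · obtain ⟨⟨f, hf, hiff⟩, -⟩ := H2
    -- the structures attached to the points of `ℝ^ℕ`
    let g : (ℕ → ℝ) → Pool.Agent.H468R2.MA.RS Unit (fun _ => 2) :=
      fun x _ b => f (dif x) (b 0) (b 1) = true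
    have hm : Pool.Agent.H468R2.MA.Hm g := by
      refine ⟨fun _ b => ?_, fun x y hxy => ?_⟩
      · let m0 : MeasurableSpace {T : Diffeomorph (𝓡 2) (𝓡 2) Pool.Agent.TH724.SE.Tor
            Pool.Agent.TH724.SE.Tor ∞ //
            MeasurePreserving (⇑T) (volume : Measure Pool.Agent.TH724.SE.Tor) volume ∧
            Ergodic (⇑T) (volume : Measure Pool.Agent.TH724.SE.Tor)} :=
          MeasurableSpace.comap (fun T => (⇑T.1 : Pool.Agent.TH724.SE.Tor →
            Pool.Agent.TH724.SE.Tor)) inferInstance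
        have hd : Measurable dif := by
          rw [measurable_comap_iff]
          refine measurable_pi_lambda _ fun p => ?_
          have h1 : Measurable fun x : ℕ → ℝ =>
              ((Pool.Agent.TH724.SE.F (Pool.Agent.TH724.SE.sV x) p.1 : ℝ) :
                Pool.Agent.TH724.SE.K) :=
            ((AddCircle.continuous_mk' 1).comp
              (Pool.Agent.TH724.SE.continuous_param p.1)).measurable
          exact measurable_const.prodMk (measurable_const.add (measurable_const.add h1))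
        have hfd : Measurable fun x => f (dif x) (b 0) (b 1) :=
          (measurable_pi_apply (b 1)).comp ((measurable_pi_apply (b 0)).comp (hf.comp hd))
        exact hfd (measurableSet_singleton true)
      · obtain ⟨φ, ψ, h1, h2, h3, h4, h5⟩ := Pool.Agent.TH724.SE.close_iso
          (Pool.Agent.TH724.SE.abs_sV x) (Pool.Agent.TH724.SE.abs_sV y)
          (Summable.of_nonneg_of_le (fun n => abs_nonneg _)
            (fun n => Pool.Agent.TH724.SE.sV_sub x y n) hxy)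
        obtain ⟨σ, hσ⟩ := (hiff (dif x) (dif y)).1 ⟨φ, ψ, h1, h2, by rw [h3], by rw [h4], by
          rw [dif_coe, dif_coe, h5]⟩
        refine ⟨σ, fun _ b => ?_⟩
        change f (dif y) (σ (b 0)) (σ (b 1)) = true ↔ f (dif x) (b 0) (b 1) = true
        rw [hσ]
    have hC := Pool.Agent.H468R2.MA.t_T_ERG
      (Pool.Agent.H468R2.MA.t_T_C Pool.Agent.H468R2.MA.t_T_SC
        (Pool.Agent.H468R2.MA.t_T_LOC Pool.Agent.H468R2.MA.t_T_SC
          (Pool.Agent.H468R2.MA.t_T_LOC1 Pool.Agent.H468R2.MA.t_T_SC)))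
      Pool.Agent.H468R2.MA.t_T_CH
    obtain ⟨C, hCr, hCi⟩ := hC Unit (fun _ => 2) g hm
    obtain ⟨x, hx, y, hy, hgen⟩ := Pool.Agent.H468R2.MA.t_T_GEN C hCr
    obtain ⟨π, hπ⟩ := hCi x hx y hy
    obtain ⟨φ, ψ, h1, h2, h3, h4, h5⟩ := (hiff (dif x) (dif y)).2 ⟨π, fun i j => by
      have h := hπ () ![i, j]
      change f (dif y) (π i) (π j) = true ↔ f (dif x) i j = true at h
      exact (Bool.eq_iff_iff.2 h).symm⟩
    exact Pool.Agent.TH724.SE.not_iso (Pool.Agent.TH724.SE.sV_nonneg x)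
      (Pool.Agent.TH724.SE.sV_le x) (Pool.Agent.TH724.SE.sV_nonneg y)
      (Pool.Agent.TH724.SE.sV_le y) (by norm_num) (far_of_gen hgen) h1 h5
  · rintro e ⟨b, rfl⟩
    exact ⟨fun _ => 1, contDiffOn_const, fun _ _ => one_pos,
      Pool.Agent.TH724.SE.volume_chart b⟩

end Pool.Agent.S14496
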