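import Pool.Statements.S14568
import Pool.Agent.TH744.Gas.Gen
import Pool.Agent.TH744.Gas.Col

set_option autoImplicit false
open Classical
open Pool Pool.MP_354b3e_lc

namespace Pool.Agent.S14568

open Pool.Agent.TH744.Gas Pool.Agent.Helper446 Pool.Agent.Helper446.Oracle
open Pool.Agent.Results.MP_81a968_lc.LowIsoGeneric (not_computable_of_generic)

/-- The negation of the preceding statement: For every noncomputable A Turing-below the halting set there is a computable, locally finite, planar graph on ℕ whose neighbour lists are A-computable, with chromatic number 2, but with no computable proper colouring using finitely many colours. -/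
theorem result :
    ¬ (∀ A : Set ℕ,
      ¬ ComputablePred (fun n : ℕ => n ∈ A) →
      TuringReducible (fun n : ℕ => Part.some (if n ∈ A then (1 : ℕ) else 0))
        (fun n : ℕ => Part.some
          (if ((Denumerable.ofNat Nat.Partrec.Code n).eval n).Dom then (1 : ℕ) else 0)) →
      ∃ G : SimpleGraph ℕ,
        ComputablePred (fun p : ℕ × ℕ => G.Adj p.1 p.2) ∧
        (∃ N : ℕ → Finset ℕ, (∀ x y : ℕ, G.Adj x y ↔ y ∈ N x) ∧
          TuringReducible (fun x : ℕ => Part.some (Encodable.encode (N x)))
            (fun n : ℕ => Part.some (if n ∈ A then (1 : ℕ) else 0))) ∧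
        (∃ f : ℕ → EuclideanSpace ℝ (Fin 2), Function.Injective f ∧
          ∃ γ : ∀ u v : ℕ, Path (f u) (f v),
            (∀ u v : ℕ, G.Adj u v → Function.Injective (fun t : unitInterval => γ u v t)) ∧
            (∀ u v w : ℕ, G.Adj u v → ∀ t : unitInterval, γ u v t = f w → w = u ∨ w = v) ∧
            (∀ u v u' v' : ℕ, G.Adj u v → G.Adj u' v' →
              Sym2.mk (u, v) ≠ Sym2.mk (u', v') →
              ∀ t t' : unitInterval, γ u v t = γ u' v' t' →
                ∃ w : ℕ, (w = u ∨ w = v) ∧ (w = u' ∨ w = v') ∧ γ u v t = f w)) ∧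
        G.chromaticNumber = 2 ∧
        ∀ k : ℕ, ∀ c : ℕ → ℕ, Computable c → (∀ x, c x < k) →
          ∃ x y : ℕ, G.Adj x y ∧ c x = c y) := by
  intro H
  obtain ⟨G, hG, ⟨N, hN, hNA⟩, -, hchi, hbad⟩ := H XS XS_not_computable XS_le_K
  clear H
  · -- the correct codes of lists of neighbours
    have hmem : ∀ x y, y ∈ Denumerable.ofNat (List ℕ) (Encodable.encode (N x)) ↔ G.Adj x y := by
      intro x y
      rw [hN]
      have h1 : Encodable.decode (α := Multiset ℕ) (Encodable.encode (N x)) = some (N x).val :=
        Encodable.encodek (N x).val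
      have h2 : (some ((Denumerable.ofNat (List ℕ) (Encodable.encode (N x)) : List ℕ) :
          Multiset ℕ)) = some (N x).val := by
        rw [← h1]
        show _ = ((↑) : List ℕ → Multiset ℕ) <$>
          Encodable.decode (α := List ℕ) (Encodable.encode (N x))
        rw [Denumerable.decode_eq_ofNat]
        rfl
      have h3 := Option.some.inj h2
      rw [← Multiset.mem_coe, h3]
      rfl
    have hA : REIn XS fun p : ℕ × ℕ => (fun x => Encodable.encode (N x)) p.1 = p.2 := by
      refine (turingReducible_fun_iff (A := XS) (g := fun x => Encodable.encode (N x))).1 ?_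
      exact hNA
    have hGc : ComputablePred fun p : ℕ × ℕ => G.Adj p.1 p.2 := hG
    have hB : REPred fun p : ℕ × ℕ => ∃ z : ℕ,
        (z ∈ Denumerable.ofNat (List ℕ) p.2 ∧ ¬ G.Adj p.1 z) ∨
          (z ∉ Denumerable.ofNat (List ℕ) p.2 ∧ G.Adj p.1 z) := by
      have hl : Computable fun x : (ℕ × ℕ) × ℕ => Denumerable.ofNat (List ℕ) x.1.2 :=
        (Computable.ofNat (List ℕ)).comp (by fun_prop)
      refine RE.ex (RE.or (RE.and (RE.mem_list (by fun_prop) hl) ?_)
        (RE.and (RE.not_mem_list (by fun_prop) hl) ?_))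
      · exact RE.comp hGc.not.to_re (f := fun x : (ℕ × ℕ) × ℕ => (x.1.1, x.2)) (by fun_prop)
      · exact RE.comp hGc.to_re (f := fun x : (ℕ × ℕ) × ℕ => (x.1.1, x.2)) (by fun_prop)
    obtain ⟨f, hf, hfB⟩ := computable_of_generic hA hB (by
      rintro x ⟨z, ⟨h1, h2⟩ | ⟨h1, h2⟩⟩
      · exact h2 ((hmem x z).1 h1)
      · exact h1 ((hmem x z).2 h2))
    have hnb : Computable fun x => Denumerable.ofNat (List ℕ) (f x) :=
      (Computable.ofNat (List ℕ)).comp hf
    have hadj : ∀ x y, y ∈ Denumerable.ofNat (List ℕ) (f x) ↔ G.Adj x y := by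
      intro x y
      by_contra hne
      apply hfB x
      refine ⟨y, ?_⟩
      by_cases h : G.Adj x y
      · right; exact ⟨fun h' => hne ⟨fun _ => h, fun _ => h'⟩, h⟩
      · left
        refine ⟨?_, h⟩
        by_contra h'
        exact hne ⟨fun h'' => absurd h'' h', fun h'' => absurd h'' h⟩
    have hcol : G.Colorable 2 := by
      rw [← SimpleGraph.chromaticNumber_le_iff_colorable, hchi]
      rfl
    obtain ⟨C⟩ := hcol
    obtain ⟨c, hc, hc4, hcA⟩ := four_colours G.Adj hnb hadj (fun x y h => h.symm)
      (fun x => decide (C x = 0)) (by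
        intro x y h heq
        have h1 := C.valid h
        have h2 : (C x = 0) ↔ (C y = 0) := by simpa using heq
        apply h1
        have key : ∀ a : Fin 2, a = 0 ∨ a = 1 := by decide
        have h3 := key (C x)
        have h4 := key (C y)
        rcases h3 with h3 | h3 <;> rcases h4 with h4 | h4
        · rw [h3, h4]
        · exact absurd (h2.1 h3) (by rw [h4]; decide)
        · exact absurd (h2.2 h4) (by rw [h3]; decide)
        · rw [h3, h4])
    obtain ⟨x, y, h1, h2⟩ := hbad 4 c hc hc4
    exact hcA x y h1 h2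

end Pool.Agent.S14568
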