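import Pool.Statements.S14767
import Pool.Agent.TH730.Adm.Defin

set_option autoImplicit false
open Pool Pool.MP_5f3cbe_lc

namespace Pool.Agent.S14767

/-- There is a parameter-free first-order ring formula that, in the ring of holomorphic functions on the unit disc, holds of f exactly when its Nevanlinna characteristic T(r,f) is not O(log 1/(1-r)) as r tends to 1 from below. -/
theorem result :
    ∃ φ : FirstOrder.Language.ring.Formula (Fin 1),
      ∀ f : ↥(Subring.closure {g : ℂ → ℂ | DifferentiableOn ℂ g (Metric.ball (0:ℂ) 1) ∧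
                ∀ z ∉ Metric.ball (0:ℂ) 1, g z = g 0}),
        (@FirstOrder.Language.Formula.Realize FirstOrder.Language.ring
            ↥(Subring.closure {g : ℂ → ℂ | DifferentiableOn ℂ g (Metric.ball (0:ℂ) 1) ∧
                ∀ z ∉ Metric.ball (0:ℂ) 1, g z = g 0})
            (FirstOrder.Ring.compatibleRingOfRing
              ↥(Subring.closure {g : ℂ → ℂ | DifferentiableOn ℂ g (Metric.ball (0:ℂ) 1) ∧
                ∀ z ∉ Metric.ball (0:ℂ) 1, g z = g 0})).toStructure
            (Fin 1) φ (fun _ => f)) ↔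
        ¬ Asymptotics.IsBigO (nhdsWithin (1:ℝ) (Set.Iio 1))
            (fun r : ℝ => (2 * Real.pi)⁻¹ *
              ∫ θ in (0:ℝ)..(2 * Real.pi),
                Real.posLog ‖(f : ℂ → ℂ) ((r : ℂ) * Complex.exp ((θ : ℂ) * Complex.I))‖)
            (fun r : ℝ => Real.log (1 - r)⁻¹) := by
  obtain ⟨φ, hφ⟩ := Pool.Agent.TH730.Adm.exists_formula
  refine ⟨φ, fun f => ?_⟩
  rw [← Pool.Agent.TH730.Adm.NA_iff f]
  exact hφ f

end Pool.Agent.S14767
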