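import Pool.Statements.S14895

set_option autoImplicit false
open Pool Pool.MP_735cdd_lc

namespace Pool.Agent.S14895

/-! Let `x 0, x 1, ...` be basis elements and `z i = x i * (x (i+1) ^ 2)⁻¹`. For each `N` there is an
automorphism with `x i ↦ z i` for `i < N`, so `z` and `x` have the same type. Now
`x 0 = z 0 (z 1 (... z (n-1) (x n) ^ 2 ...) ^ 2) ^ 2` for all `n`. An element `d` with
`d = x 0 (x 1 (... x (n-1) w ^ 2 ...) ^ 2) ^ 2` solvable in `w` for all `n` does not exist: apply
the homomorphism onto `ℤ` which is nonzero only at a basis element `x k` that does not occur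
in `d`. -/

/-- A language with one function symbol in each arity. -/
abbrev LL : FirstOrder.Language := FirstOrder.Language.mk (fun _ => Unit) (fun _ => Empty)

section Grp

variable {G : Type} [Group G]

/-- `val z w k m = z k (z (k+1) (... z (k+m-1) w ^ 2 ...) ^ 2) ^ 2`. -/
def val (z : ℕ → G) (w : G) : ℕ → ℕ → G
  | _, 0 => w
  | k, m + 1 => z k * (val z w (k + 1) m * val z w (k + 1) m)

theorem val_eq (x : ℕ → G) (n : ℕ) : ∀ m k, k + m = n →
    val (fun i => x i * (x (i + 1) * x (i + 1))⁻¹) (x n) k m = x k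
  | 0, k, h => by
    have : k = n := by omega
    subst this
    rfl
  | m + 1, k, h => by
    rw [val, val_eq x n m (k + 1) (by omega)]
    group

theorem map_val (π : G →* G) (x : ℕ → G) (w g : G) (k : ℕ) (h0 : ∀ j, j < k → π (x j) = 1)
    (hk : π (x k) = g) (t : ℤ) (hw : π w = g ^ t) :
    ∀ m j, j + m = k → π (val x w j (m + 1)) = g ^ ((1 + 2 * t) * 2 ^ m)
  | 0, j, h => by
    have : j = k := by omega
    subst this
    rw [val, val, map_mul, map_mul, hk, hw]
    rw [← zpow_add, ← zpow_one_add]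
    congr 1
    ring
  | m + 1, j, h => by
    rw [val, map_mul, map_mul, map_val π x w g k h0 hk t hw m (j + 1) (by omega), h0 j (by omega),
      one_mul, ← zpow_add]
    congr 1
    ring

/-- The homomorphisms into the group. -/
theorem hom_ext {X : Set G} (hX : Subgroup.closure X = ⊤) {φ ψ : G →* G}
    (h : ∀ x ∈ X, φ x = ψ x) : φ = ψ :=
  MonoidHom.eq_of_eqOn_dense hX h

/-- The automorphism `x i ↦ x i * (x (i+1) ^ 2)⁻¹`, all other basis elements fixed. -/
theorem exists_transv {X : Set G} (hX : Subgroup.closure X = ⊤)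
    (hf : ∀ f : X → G, ∃ φ : G →* G, ∀ x : X, φ x = f x) (x : ℕ → G) (hx : ∀ i, x i ∈ X)
    (hinj : Function.Injective x) (i : ℕ) :
    ∃ T : G ≃* G, T (x i) = x i * (x (i + 1) * x (i + 1))⁻¹ ∧ ∀ y ∈ X, y ≠ x i → T y = y := by
  classical
  obtain ⟨φ, hφ⟩ := hf fun y => if (y : G) = x i then x i * (x (i + 1) * x (i + 1))⁻¹ else y
  obtain ⟨ψ, hψ⟩ := hf fun y => if (y : G) = x i then x i * (x (i + 1) * x (i + 1)) else y
  have e1 : φ (x i) = x i * (x (i + 1) * x (i + 1))⁻¹ := by
    simpa using hφ ⟨x i, hx i⟩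
  have e2 : ψ (x i) = x i * (x (i + 1) * x (i + 1)) := by
    simpa using hψ ⟨x i, hx i⟩
  have e3 : ∀ y ∈ X, y ≠ x i → φ y = y := fun y hy h => by
    simpa [h] using hφ ⟨y, hy⟩
  have e4 : ∀ y ∈ X, y ≠ x i → ψ y = y := fun y hy h => by
    simpa [h] using hψ ⟨y, hy⟩
  have hne : x (i + 1) ≠ x i := fun h => by
    have := hinj h
    omega
  have h1 : φ.comp ψ = MonoidHom.id G := by
    refine hom_ext hX fun y hy => ?_
    by_cases h : y = x i
    · subst h
      simp only [MonoidHom.comp_apply, MonoidHom.id_apply]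
      rw [e2, map_mul, map_mul, e1, e3 _ (hx _) hne]
      group
    · simp only [MonoidHom.comp_apply, MonoidHom.id_apply]
      rw [e4 y hy h, e3 y hy h]
  have h2 : ψ.comp φ = MonoidHom.id G := by
    refine hom_ext hX fun y hy => ?_
    by_cases h : y = x i
    · subst h
      simp only [MonoidHom.comp_apply, MonoidHom.id_apply]
      rw [e1, map_mul, map_inv, map_mul, e2, e4 _ (hx _) hne]
      group
    · simp only [MonoidHom.comp_apply, MonoidHom.id_apply]
      rw [e3 y hy h, e4 y hy h]
  exact ⟨MonoidHom.toMulEquiv φ ψ h2 h1, e1, e3⟩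

theorem exists_auto {X : Set G} (hX : Subgroup.closure X = ⊤)
    (hf : ∀ f : X → G, ∃ φ : G →* G, ∀ x : X, φ x = f x) (x : ℕ → G) (hx : ∀ i, x i ∈ X)
    (hinj : Function.Injective x) (N : ℕ) :
    ∃ T : G ≃* G, (∀ i, i < N → T (x i) = x i * (x (i + 1) * x (i + 1))⁻¹) ∧
      ∀ i, N ≤ i → T (x i) = x i := by
  induction N with
  | zero => exact ⟨MulEquiv.refl G, fun i h => by omega, fun i _ => rfl⟩
  | succ N ih =>
    obtain ⟨T, h1, h2⟩ := ih
    obtain ⟨S, h3, h4⟩ := exists_transv hX hf x hx hinj N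
    refine ⟨S.trans T, fun i hi => ?_, fun i hi => ?_⟩
    · rw [MulEquiv.trans_apply]
      rcases Nat.lt_succ_iff_lt_or_eq.1 hi with h | h
      · rw [h4 _ (hx i) (fun h' => by have := hinj h'; omega), h1 i h]
      · subst h
        rw [h3, map_mul, map_inv, map_mul, h2 i le_rfl, h2 (i + 1) (by omega)]
    · rw [MulEquiv.trans_apply, h4 _ (hx i) (fun h' => by have := hinj h'; omega),
        h2 i (by omega)]

/-- Each element involves only finitely many of the `x i`. -/
theorem eventually_one {X : Set G} (hX : Subgroup.closure X = ⊤) (x : ℕ → G)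
    (π : ℕ → G →* G) (hπ : ∀ k, ∀ y ∈ X, y ≠ x k → π k y = 1) (hinj : Function.Injective x)
    (d : G) : ∃ K, ∀ k, K ≤ k → π k d = 1 := by
  have hd : d ∈ Subgroup.closure X := by rw [hX]; trivial
  induction hd using Subgroup.closure_induction with
  | mem y hy =>
    by_cases h : ∃ j, y = x j
    · obtain ⟨j, rfl⟩ := h
      exact ⟨j + 1, fun k hk => hπ k _ hy fun h' => by have := hinj h'; omega⟩
    · push Not at h
      exact ⟨0, fun k _ => hπ k y hy (h k)⟩
  | one => exact ⟨0, fun k _ => map_one _⟩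
  | mul a b _ _ ha hb =>
    obtain ⟨K, hK⟩ := ha
    obtain ⟨K', hK'⟩ := hb
    exact ⟨max K K', fun k hk => by
      rw [map_mul, hK k (le_trans (le_max_left _ _) hk), hK' k (le_trans (le_max_right _ _) hk),
        one_mul]⟩
  | inv a _ ha =>
    obtain ⟨K, hK⟩ := ha
    exact ⟨K, fun k hk => by rw [map_inv, hK k hk, inv_one]⟩

/-- No `d` has all the roots. -/
theorem no_limit (htf : ∀ g : G, ∀ n : ℕ, 0 < n → g ^ n = 1 → g = 1) {X : Set G}
    (hX : Subgroup.closure X = ⊤) (hf : ∀ f : X → G, ∃ φ : G →* G, ∀ x : X, φ x = f x)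
    (x : ℕ → G) (hx : ∀ i, x i ∈ X) (hinj : Function.Injective x) (d : G)
    (hd : ∀ n, ∃ w, d = val x w 0 n) : False := by
  classical
  obtain ⟨g, hg⟩ : ∃ g : G, g ≠ 1 := by
    by_contra h
    push Not at h
    have := hinj ((h (x 0)).trans (h (x 1)).symm)
    omega
  have hπ : ∀ k, ∃ π : G →* G, π (x k) = g ∧ ∀ y ∈ X, y ≠ x k → π y = 1 := by
    intro k
    obtain ⟨π, hπ⟩ := hf fun y => if (y : G) = x k then g else 1
    refine ⟨π, by simpa using hπ ⟨x k, hx k⟩, fun y hy h => by simpa [h] using hπ ⟨y, hy⟩⟩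
  choose π h1 h2 using hπ
  obtain ⟨k, hk⟩ := eventually_one hX x π h2 hinj d
  have hk' := hk k le_rfl
  obtain ⟨w, hw⟩ := hd (k + 1)
  have hz : π k w ∈ Subgroup.zpowers g := by
    have h3 : Subgroup.closure X ≤ (Subgroup.zpowers g).comap (π k) := by
      rw [Subgroup.closure_le]
      intro y hy
      change π k y ∈ Subgroup.zpowers g
      by_cases h : y = x k
      · rw [h, h1]
        exact Subgroup.mem_zpowers g
      · rw [h2 k y hy h]
        exact Subgroup.one_mem _
    rw [hX] at h3
    exact h3 (Subgroup.mem_top w)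
  obtain ⟨t, ht⟩ := Subgroup.mem_zpowers_iff.1 hz
  have h3 := map_val (π k) x w g k (fun j hj => h2 k _ (hx j) fun h' => by
    have := hinj h'; omega) (h1 k) t ht.symm k 0 (by omega)
  rw [← hw, hk'] at h3
  have h4 : (1 + 2 * t) * 2 ^ k ≠ 0 := by
    refine mul_ne_zero (by omega) (by positivity)
  refine hg (htf g ((1 + 2 * t) * 2 ^ k).natAbs (Int.natAbs_pos.2 h4) ?_)
  rcases Int.natAbs_eq ((1 + 2 * t) * 2 ^ k) with h5 | h5
  · rw [h5, zpow_natCast] at h3
    exact h3.symm
  · rw [h5, zpow_neg, zpow_natCast] at h3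
    exact inv_eq_one.1 h3.symm

end Grp

section Lang

variable {G : Type} [Group G] [S : LL.Structure G]

/-- An automorphism of the group is one of the structure. -/
noncomputable def toL (hS : ∀ (n : ℕ) (f : LL.Functions n) (xs : Fin n → G),
    FirstOrder.Language.Structure.funMap f xs = (List.ofFn xs).prod) (T : G ≃* G) :
    FirstOrder.Language.Equiv LL G G where
  toEquiv := T.toEquiv
  map_fun' := by
    intro n f xs
    change T _ = _
    rw [hS, hS, map_list_prod, List.map_ofFn]
    rfl
  map_rel' := by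
    intro n r xs
    exact r.elim

/-- The product of two terms. -/
def mulT {α : Type} (s t : LL.Term α) : LL.Term α :=
  FirstOrder.Language.Term.func (l := 2) () ![s, t]

theorem realize_mulT (hS : ∀ (n : ℕ) (f : LL.Functions n) (xs : Fin n → G),
    FirstOrder.Language.Structure.funMap f xs = (List.ofFn xs).prod) {α : Type}
    (s t : LL.Term α) (v : α → G) : (mulT s t).realize v = s.realize v * t.realize v := by
  rw [mulT, FirstOrder.Language.Term.realize_func, hS]
  simp

/-- The term for `val`. -/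
def valT : ℕ → ℕ → LL.Term ((Unit ⊕ ℕ) ⊕ Fin 1)
  | _, 0 => FirstOrder.Language.Term.var (Sum.inr 0)
  | k, m + 1 => mulT (FirstOrder.Language.Term.var (Sum.inl (Sum.inr k)))
      (mulT (valT (k + 1) m) (valT (k + 1) m))

theorem realize_valT (hS : ∀ (n : ℕ) (f : LL.Functions n) (xs : Fin n → G),
    FirstOrder.Language.Structure.funMap f xs = (List.ofFn xs).prod) (c : G) (z : ℕ → G)
    (xs : Fin 1 → G) : ∀ m k, (valT k m).realize (Sum.elim (Sum.elim (fun _ => c) z) xs) =
      val z (xs 0) k m
  | 0, k => by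
    rw [valT, val, FirstOrder.Language.Term.realize_var]
    rfl
  | m + 1, k => by
    rw [valT, val, realize_mulT hS, realize_mulT hS, realize_valT hS c z xs m (k + 1),
      FirstOrder.Language.Term.realize_var]
    rfl

/-- The formula for `∃ w, c = val z w 0 n`. -/
def fm (n : ℕ) : LL.Formula (Unit ⊕ ℕ) :=
  FirstOrder.Language.BoundedFormula.ex (FirstOrder.Language.Term.bdEqual
    (FirstOrder.Language.Term.var (Sum.inl (Sum.inl ()))) (valT 0 n))

theorem realize_fm (hS : ∀ (n : ℕ) (f : LL.Functions n) (xs : Fin n → G),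
    FirstOrder.Language.Structure.funMap f xs = (List.ofFn xs).prod) (c : G) (z : ℕ → G) (n : ℕ) :
    (fm n).Realize (Sum.elim (fun _ => c) z) ↔ ∃ w, c = val z w 0 n := by
  rw [fm, FirstOrder.Language.Formula.Realize, FirstOrder.Language.BoundedFormula.realize_ex]
  refine exists_congr fun w => ?_
  rw [FirstOrder.Language.BoundedFormula.realize_bdEqual, realize_valT hS,
    FirstOrder.Language.Term.realize_var]
  rfl

end Lang

/-- Every torsion-free group that is free in its own variety on an infinite basis fails ℵ1-homogeneity: some countable tuples a, b share a type, yet some element c has no d making (c,a) and (d,b) share a type. -/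
theorem result :
  ∀ (G : Type) [Group G],
    (∀ g : G, ∀ n : ℕ, 0 < n → g ^ n = 1 → g = 1) →
    (∃ X : Set G, X.Infinite ∧ Subgroup.closure X = ⊤ ∧
      ∀ f : X → G, ∃ φ : G →* G, ∀ x : X, φ x = f x) →
    ∀ [S : (FirstOrder.Language.mk (fun _ => Unit) (fun _ => Empty)).Structure G],
      (∀ (n : ℕ) (f : (FirstOrder.Language.mk (fun _ => Unit) (fun _ => Empty)).Functions n)
          (xs : Fin n → G),
        FirstOrder.Language.Structure.funMap f xs = (List.ofFn xs).prod) →
      ¬ ∀ a b : ℕ → G,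
        (∀ φ : (FirstOrder.Language.mk (fun _ => Unit) (fun _ => Empty)).Formula ℕ,
          φ.Realize a ↔ φ.Realize b) →
        ∀ c : G, ∃ d : G,
          ∀ ψ : (FirstOrder.Language.mk (fun _ => Unit) (fun _ => Empty)).Formula (Unit ⊕ ℕ),
            ψ.Realize (Sum.elim (fun _ => c) a) ↔ ψ.Realize (Sum.elim (fun _ => d) b) := by
  intro G _ htf hX S hS hhom
  obtain ⟨X, hinf, hX, hf⟩ := hX
  set e := hinf.natEmbedding X with he
  let x : ℕ → G := fun i => (e i : G)
  have hx : ∀ i, x i ∈ X := fun i => (e i).2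
  have hinj : Function.Injective x := fun i j h => e.injective (Subtype.ext h)
  let z : ℕ → G := fun i => x i * (x (i + 1) * x (i + 1))⁻¹
  have htype : ∀ φ : LL.Formula ℕ, φ.Realize z ↔ φ.Realize x := by
    intro φ
    classical
    obtain ⟨N, hN⟩ : ∃ N, ∀ i ∈ φ.freeVarFinset, i < N :=
      ⟨φ.freeVarFinset.sup id + 1, fun i hi => Nat.lt_succ_of_le (Finset.le_sup (f := id) hi)⟩
    obtain ⟨T, h1, h2⟩ := exists_auto hX hf x hx hinj N
    have h3 : φ.Realize z ↔ φ.Realize (toL hS T ∘ x) := by
      have h4 := FirstOrder.Language.BoundedFormula.realize_restrictFreeVar (φ := φ)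
        (f := id) (v := fun i => z i) (xs := (default : Fin 0 → G)) z (fun a => rfl)
      have h6 : ∀ a : φ.freeVarFinset, z (id a) = (toL hS T ∘ x) a := fun a =>
        (h1 a (hN a a.2)).symm
      have h5 := FirstOrder.Language.BoundedFormula.realize_restrictFreeVar (φ := φ)
        (f := id) (v := fun i => z i) (xs := (default : Fin 0 → G)) (toL hS T ∘ x) h6
      rw [FirstOrder.Language.Formula.Realize, FirstOrder.Language.Formula.Realize]
      exact h4.symm.trans h5
    rw [h3]
    exact FirstOrder.Language.StrongHomClass.realize_formula (toL hS T) φ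
  obtain ⟨d, hd⟩ := hhom z x htype (x 0)
  refine no_limit htf hX hf x hx hinj d fun n => ?_
  have h1 := (hd (fm n)).1 ((realize_fm hS (x 0) z n).2 ⟨x n, ?_⟩)
  · exact (realize_fm hS d x n).1 h1
  · exact (val_eq x n n 0 (by omega)).symm

end Pool.Agent.S14895
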