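import Pool.Statements.S14924
import Pool.Agent.H539R2.Diag

set_option autoImplicit false
open Pool Pool.MP_76e736_lc

namespace Pool.Agent.S14924

open Pool.Agent.H539R2

/-- the array with a boundary state `b` as an array which sees `none` outside -/
def lift3 {K : ℕ} (b : Fin K) (δ : Fin K → Fin K → Fin K → Fin K)
    (x y z : Option (Fin K)) : Fin K := δ (x.getD b) (y.getD b) (z.getD b)

theorem out_b {K : ℕ} (b : Fin K) (δ : Fin K → Fin K → Fin K → Fin K) (n : ℕ) (c0 : ℕ → Fin K)
    (h0 : ∀ i, ¬ (1 ≤ i ∧ i ≤ n) → c0 i = b) (t i : ℕ) (hi : ¬ (1 ≤ i ∧ i ≤ n)) :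
    Nat.iterate (fun (c : ℕ → Fin K) (i : ℕ) =>
      if 1 ≤ i ∧ i ≤ n then δ (c (i - 1)) (c i) (c (i + 1)) else b) t c0 i = b := by
  cases t with
  | zero => exact h0 i hi
  | succ t =>
    rw [Function.iterate_succ_apply', if_neg hi]

theorem lift_iter {K : ℕ} (inp : Fin 1 → Fin K) (b : Fin K) (δ : Fin K → Fin K → Fin K → Fin K)
    (w : List (Fin 1)) (t i : ℕ) :
    Nat.iterate
      (fun (cfg : ℕ → Option (Fin K)) (i : ℕ) =>
        if 1 ≤ i ∧ i ≤ w.length then some (lift3 b δ (cfg (i - 1)) (cfg i) (cfg (i + 1)))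
        else none) t (fun i : ℕ => if 1 ≤ i then (w[i - 1]?).map inp else none) i =
    if 1 ≤ i ∧ i ≤ w.length then
      some (Nat.iterate
          (fun (c : ℕ → Fin K) (i : ℕ) =>
            if 1 ≤ i ∧ i ≤ w.length then δ (c (i - 1)) (c i) (c (i + 1)) else b) t
          (fun (i : ℕ) => if 1 ≤ i ∧ i ≤ w.length then (w.map inp).getD (i - 1) b else b) i)
    else none := by
  have hout : ∀ t i, ¬ (1 ≤ i ∧ i ≤ w.length) → Nat.iterate
          (fun (c : ℕ → Fin K) (i : ℕ) =>
            if 1 ≤ i ∧ i ≤ w.length then δ (c (i - 1)) (c i) (c (i + 1)) else b) t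
          (fun (i : ℕ) => if 1 ≤ i ∧ i ≤ w.length then (w.map inp).getD (i - 1) b else b) i = b := by
    intro t i hi
    exact out_b b δ w.length _ (fun i hi => if_neg hi) t i hi
  induction t generalizing i with
  | zero =>
    simp only [Function.iterate_zero, id_eq]
    by_cases h1 : 1 ≤ i
    · by_cases h2 : i ≤ w.length
      · have h3 : i - 1 < w.length := by omega
        rw [if_pos h1, if_pos ⟨h1, h2⟩, if_pos ⟨h1, h2⟩, List.getElem?_eq_getElem h3,
          List.getD_eq_getElem _ _ (by simpa using h3)]
        simp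
      · have h3 : w.length ≤ i - 1 := by omega
        rw [if_pos h1, if_neg (fun h => h2 h.2), List.getElem?_eq_none h3]
        rfl
    · rw [if_neg h1, if_neg (fun h => h1 h.1)]
  | succ t ih =>
    rw [Function.iterate_succ_apply', Function.iterate_succ_apply']
    by_cases hi : 1 ≤ i ∧ i ≤ w.length
    · rw [if_pos hi, if_pos hi, if_pos hi]
      congr 1
      unfold lift3
      have key : ∀ j, ((Nat.iterate
          (fun (cfg : ℕ → Option (Fin K)) (i : ℕ) =>
            if 1 ≤ i ∧ i ≤ w.length then some (δ ((cfg (i - 1)).getD b) ((cfg i).getD b)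
              ((cfg (i + 1)).getD b)) else none) t
            (fun i : ℕ => if 1 ≤ i then (w[i - 1]?).map inp else none) j)).getD b =
          Nat.iterate
          (fun (c : ℕ → Fin K) (i : ℕ) =>
            if 1 ≤ i ∧ i ≤ w.length then δ (c (i - 1)) (c i) (c (i + 1)) else b) t
          (fun (i : ℕ) => if 1 ≤ i ∧ i ≤ w.length then (w.map inp).getD (i - 1) b else b) j := by
        intro j
        have hj := ih j
        unfold lift3 at hj
        rw [hj]
        by_cases h : 1 ≤ j ∧ j ≤ w.length
        · rw [if_pos h]; rfl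
        · rw [if_neg h, hout t j h]; rfl
      rw [key, key, key]
    · rw [if_neg hi, if_neg hi]

/-- encoding of the fictitious state as a further state -/
def enc {m : ℕ} : Option (Fin m) → Fin (m + 1)
  | none => Fin.last m
  | some q => q.castSucc

def dec {m : ℕ} (x : Fin (m + 1)) : Option (Fin m) :=
  if h : x.val < m then some ⟨x.val, h⟩ else none

theorem dec_enc {m : ℕ} (o : Option (Fin m)) : dec (enc o) = o := by
  cases o with
  | none => simp [dec, enc]
  | some q => simp [dec, enc]

theorem enc_inj {m : ℕ} {o o' : Option (Fin m)} (h : enc o = enc o') : o = o' := by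
  rw [← dec_enc o, h, dec_enc]

theorem conf_enc {m : ℕ} (init : Fin 1 → Fin m)
    (δ : Option (Fin m) → Option (Fin m) → Option (Fin m) → Fin m) (n t i : ℕ) :
    conf (fun a => enc (some (init a))) (Fin.last m)
      (fun x y z => enc (some (δ (dec x) (dec y) (dec z)))) n t i =
    enc (Nat.iterate
      (fun (cfg : ℕ → Option (Fin m)) (i : ℕ) =>
        if 1 ≤ i ∧ i ≤ (List.replicate n (0 : Fin 1)).length then
          some (δ (cfg (i - 1)) (cfg i) (cfg (i + 1))) else none) t
      (fun i : ℕ => if 1 ≤ i then ((List.replicate n (0 : Fin 1))[i - 1]?).map init else none)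
      i) := by
  induction t generalizing i with
  | zero =>
    rw [conf_zero]
    simp only [Function.iterate_zero, id_eq]
    by_cases h1 : 1 ≤ i
    · by_cases h2 : i ≤ n
      · have h3 : i - 1 < (List.replicate n (0 : Fin 1)).length := by
          rw [List.length_replicate]; omega
        rw [if_pos ⟨h1, h2⟩, if_pos h1, List.getElem?_eq_getElem h3]
        simp
      · have h3 : (List.replicate n (0 : Fin 1)).length ≤ i - 1 := by
          rw [List.length_replicate]; omega
        rw [if_neg (fun h => h2 h.2), if_pos h1, List.getElem?_eq_none h3]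
        rfl
    · rw [if_neg (fun h => h1 h.1), if_neg h1]
      rfl
  | succ t ih =>
    unfold conf at ih ⊢
    rw [Function.iterate_succ_apply', Function.iterate_succ_apply']
    by_cases hi : 1 ≤ i ∧ i ≤ (List.replicate n (0 : Fin 1)).length
    · rw [if_pos hi, if_pos hi, ih, ih, ih]
      beta_reduce
      rw [dec_enc, dec_enc, dec_enc]
    · rw [if_neg hi, if_neg hi]
      rfl

/-- The negation of the preceding statement: Every language accepted by a two-way linear cellular array with boundary states and leftmost-cell acceptance (no time bound) is accepted by some such array that accepts each accepted input within c·n steps, for some constant c. -/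
theorem result :
    ¬ (∀ (k m : ℕ) (init : Fin k → Fin m)
      (δ : Option (Fin m) → Option (Fin m) → Option (Fin m) → Fin m)
      (F : Finset (Fin m)),
    ∃ (m' : ℕ) (init' : Fin k → Fin m')
      (δ' : Option (Fin m') → Option (Fin m') → Option (Fin m') → Fin m')
      (F' : Finset (Fin m')) (c : ℕ),
    ∀ w : List (Fin k),
      ((∃ t : ℕ, ∃ q ∈ F,
          Nat.iterate
            (fun (cfg : ℕ → Option (Fin m)) (i : ℕ) =>
              if 1 ≤ i ∧ i ≤ w.length then some (δ (cfg (i - 1)) (cfg i) (cfg (i + 1))) else none)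
            t
            (fun i : ℕ => if 1 ≤ i then (w[i - 1]?).map init else none) 1 = some q)
        ↔
       (∃ t : ℕ, ∃ q ∈ F',
          Nat.iterate
            (fun (cfg : ℕ → Option (Fin m')) (i : ℕ) =>
              if 1 ≤ i ∧ i ≤ w.length then some (δ' (cfg (i - 1)) (cfg i) (cfg (i + 1))) else none)
            t
            (fun i : ℕ => if 1 ≤ i then (w[i - 1]?).map init' else none) 1 = some q)) ∧
      ((∃ t : ℕ, ∃ q ∈ F',
          Nat.iterate
            (fun (cfg : ℕ → Option (Fin m')) (i : ℕ) =>
              if 1 ≤ i ∧ i ≤ w.length then some (δ' (cfg (i - 1)) (cfg i) (cfg (i + 1))) else none)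
            t
            (fun i : ℕ => if 1 ≤ i then (w[i - 1]?).map init' else none) 1 = some q) →
       (∃ t : ℕ, t ≤ c * w.length ∧ ∃ q ∈ F',
          Nat.iterate
            (fun (cfg : ℕ → Option (Fin m')) (i : ℕ) =>
              if 1 ≤ i ∧ i ≤ w.length then some (δ' (cfg (i - 1)) (cfg i) (cfg (i + 1))) else none)
            t
            (fun i : ℕ => if 1 ≤ i then (w[i - 1]?).map init' else none) 1 = some q))) := by
  intro h
  obtain ⟨K, inp, b, δ, A, hls⟩ := ls_lca (F := U) LS.U
  obtain ⟨m', init', δ', F', c, H⟩ := h 1 K inp (lift3 b δ) A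
  refine DL_not_lin (fun a => enc (some (init' a))) (Fin.last m')
    (fun x y z => enc (some (δ' (dec x) (dec y) (dec z)))) (F'.image fun q => enc (some q)) c ?_
  intro n
  obtain ⟨H1, H2⟩ := H (List.replicate n (0 : Fin 1))
  have hmem : ∀ t, (conf (fun a => enc (some (init' a))) (Fin.last m')
      (fun x y z => enc (some (δ' (dec x) (dec y) (dec z)))) n t 1 ∈
        F'.image fun q => enc (some q)) ↔ ∃ q ∈ F', Nat.iterate
      (fun (cfg : ℕ → Option (Fin m')) (i : ℕ) =>
        if 1 ≤ i ∧ i ≤ (List.replicate n (0 : Fin 1)).length then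
          some (δ' (cfg (i - 1)) (cfg i) (cfg (i + 1))) else none) t
      (fun i : ℕ => if 1 ≤ i then ((List.replicate n (0 : Fin 1))[i - 1]?).map init' else none)
      1 = some q := by
    intro t
    rw [conf_enc, Finset.mem_image]
    constructor
    · rintro ⟨q, hq, he⟩
      exact ⟨q, hq, (enc_inj he).symm⟩
    · rintro ⟨q, hq, he⟩
      exact ⟨q, hq, by rw [he]⟩
  have hDL : (List.replicate n (0 : Fin 1)) ∈ DL ↔ ∃ t : ℕ, ∃ q ∈ A,
      Nat.iterate
        (fun (cfg : ℕ → Option (Fin K)) (i : ℕ) =>
          if 1 ≤ i ∧ i ≤ (List.replicate n (0 : Fin 1)).length then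
            some (lift3 b δ (cfg (i - 1)) (cfg i) (cfg (i + 1))) else none) t
        (fun i : ℕ => if 1 ≤ i then ((List.replicate n (0 : Fin 1))[i - 1]?).map inp else none)
        1 = some q := by
    refine (hls (List.replicate n (0 : Fin 1))).trans ?_
    apply exists_congr
    intro t
    rw [lift_iter]
    by_cases hn : 1 ≤ 1 ∧ 1 ≤ (List.replicate n (0 : Fin 1)).length
    · rw [if_pos hn]
      constructor
      · intro hh
        exact ⟨_, hh, rfl⟩
      · rintro ⟨q, hq, he⟩
        rw [Option.some_inj] at he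
        rw [he]; exact hq
    · rw [if_neg hn]
      constructor
      · intro hh
        exfalso
        have hw : List.replicate n (0 : Fin 1) = [] := by
          rw [← List.length_eq_zero_iff]; omega
        exact ((hls (List.replicate n (0 : Fin 1))).2 ⟨t, hh⟩).1 hw
      · rintro ⟨q, hq, he⟩
        cases he
  constructor
  · intro hd
    obtain ⟨t, ht, hq⟩ := H2 (H1.1 (hDL.1 hd))
    refine ⟨t, ht.trans ?_, (hmem t).2 hq⟩
    rw [List.length_replicate]
    exact Nat.mul_le_mul_left c (by omega)
  · rintro ⟨t, -, hq⟩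
    exact hDL.2 (H1.2 ⟨t, (hmem t).1 hq⟩)

end Pool.Agent.S14924
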