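import Pool.Statements.S14999

set_option autoImplicit false
open Pool Pool.MP_8565d5_lc

namespace Pool.Agent.S14999

open Polynomial

/-- The exponents of binary weight at most two below `2 ^ t`, except `2 ^ i + 2 ^ (i + 1)` and
`1 + 2 ^ (t - 1)`. -/
def D0 (t : ℕ) : Finset ℕ :=
  insert 0 ((Finset.range t).image (fun i => 2 ^ i) ∪
    ((Finset.range t ×ˢ Finset.range t).filter
      (fun p => p.1 < p.2 ∧ p.1 + 1 ≠ p.2 ∧ ¬ (p.1 = 0 ∧ p.2 + 1 = t))).image
        (fun p => 2 ^ p.1 + 2 ^ p.2))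

theorem mem_D0 (t d : ℕ) : d ∈ D0 t ↔ d = 0 ∨ (∃ i < t, d = 2 ^ i) ∨
    (∃ i j, i < j ∧ j < t ∧ i + 1 ≠ j ∧ ¬ (i = 0 ∧ j + 1 = t) ∧ d = 2 ^ i + 2 ^ j) := by
  unfold D0
  simp only [Finset.mem_insert, Finset.mem_union, Finset.mem_image, Finset.mem_range,
    Finset.mem_filter, Finset.mem_product, Prod.exists]
  constructor
  · rintro (h | ⟨i, hi, rfl⟩ | ⟨i, j, ⟨⟨hi, hj⟩, h1, h2, h3⟩, rfl⟩)
    · exact Or.inl h
    · exact Or.inr (Or.inl ⟨i, hi, rfl⟩)
    · exact Or.inr (Or.inr ⟨i, j, h1, hj, h2, h3, rfl⟩)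
  · rintro (h | ⟨i, hi, rfl⟩ | ⟨i, j, h1, hj, h2, h3, rfl⟩)
    · exact Or.inl h
    · exact Or.inr (Or.inl ⟨i, hi, rfl⟩)
    · exact Or.inr (Or.inr ⟨i, j, ⟨⟨by omega, hj⟩, h1, h2, h3⟩, rfl⟩)

theorem digits_two_mul_add (n : ℕ) : (Nat.digits 2 (2 * n)).sum = (Nat.digits 2 n).sum := by
  rcases Nat.eq_zero_or_pos n with h | h
  · subst h; simp
  · rw [Nat.digits_def' (by norm_num) (by omega)]
    simp

theorem digits_two_pow_mul (i n : ℕ) : (Nat.digits 2 (2 ^ i * n)).sum = (Nat.digits 2 n).sum := by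
  induction i with
  | zero => simp
  | succ i ih => rw [pow_succ, mul_comm (2 ^ i) 2, mul_assoc, digits_two_mul_add, ih]

theorem digits_pow (i : ℕ) : (Nat.digits 2 (2 ^ i)).sum = 1 := by
  have := digits_two_pow_mul i 1
  simpa using this

theorem digits_pow_add {i j : ℕ} (h : i < j) : (Nat.digits 2 (2 ^ i + 2 ^ j)).sum = 2 := by
  obtain ⟨m, rfl⟩ : ∃ m, j = i + (m + 1) := ⟨j - i - 1, by omega⟩
  have e : 2 ^ i + 2 ^ (i + (m + 1)) = 2 ^ i * (1 + 2 * 2 ^ m) := by ring
  rw [e, digits_two_pow_mul, Nat.digits_def' (by norm_num) (by positivity)]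
  have e1 : (1 + 2 * 2 ^ m) % 2 = 1 := by omega
  have e2 : (1 + 2 * 2 ^ m) / 2 = 2 ^ m := by omega
  rw [e1, e2, List.sum_cons, digits_pow]

theorem D0_lt {t d : ℕ} (hd : d ∈ D0 t) : d < 2 ^ t := by
  rw [mem_D0] at hd
  rcases hd with rfl | ⟨i, hi, rfl⟩ | ⟨i, j, h1, hj, h2, h3, rfl⟩
  · positivity
  · exact Nat.pow_lt_pow_right (by norm_num) hi
  · have h4 : 2 ^ i < 2 ^ j := Nat.pow_lt_pow_right (by norm_num) h1
    have h5 : 2 ^ (j + 1) ≤ 2 ^ t := Nat.pow_le_pow_right (by norm_num) (by omega)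
    rw [pow_succ] at h5
    omega

theorem D0_digits {t d : ℕ} (hd : d ∈ D0 t) : (Nat.digits 2 d).sum ≤ 2 := by
  rw [mem_D0] at hd
  rcases hd with rfl | ⟨i, hi, rfl⟩ | ⟨i, j, h1, hj, h2, h3, rfl⟩
  · simp
  · rw [digits_pow]; norm_num
  · rw [digits_pow_add h1]

theorem testBit_pow (i k : ℕ) : (2 ^ i).testBit k = decide (i = k) := Nat.testBit_two_pow

theorem testBit_pow_add {i j : ℕ} (h : i < j) (k : ℕ) :
    (2 ^ i + 2 ^ j).testBit k = (decide (i = k) || decide (j = k)) := by
  have e : 2 ^ i + 2 ^ j = 2 ^ j ||| 2 ^ i := by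
    have := Nat.two_pow_add_eq_or_of_lt (i := j) (b := 2 ^ i)
      (Nat.pow_lt_pow_right (by norm_num) h) 1
    rw [mul_one] at this
    rw [add_comm, this]
  rw [e, Nat.testBit_or, testBit_pow, testBit_pow, Bool.or_comm]

theorem three_notMem {t : ℕ} (_ht : 5 ≤ t) : 3 ∉ D0 t := by
  intro h
  rw [mem_D0] at h
  rcases h with h | ⟨i, hi, h⟩ | ⟨i, j, h1, hj, h2, h3, h⟩
  · omega
  · have h0 : (3 : ℕ).testBit 0 = (2 ^ i).testBit 0 := by rw [← h]
    have h1 : (3 : ℕ).testBit 1 = (2 ^ i).testBit 1 := by rw [← h]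
    rw [testBit_pow] at h0 h1
    have e0 : (3 : ℕ).testBit 0 = true := by decide
    have e1 : (3 : ℕ).testBit 1 = true := by decide
    rw [e0] at h0; rw [e1] at h1
    have h0' := of_decide_eq_true h0.symm
    have h1' := of_decide_eq_true h1.symm
    omega
  · have e0 : (3 : ℕ).testBit 0 = true := by decide
    have e1 : (3 : ℕ).testBit 1 = true := by decide
    rw [h, testBit_pow_add h1] at e0 e1
    simp only [Bool.or_eq_true, decide_eq_true_eq] at e0 e1
    omega

theorem D0_shadow {t d e : ℕ} (hd : d ∈ D0 t)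
    (he : ∀ i : ℕ, e.testBit i = true → d.testBit i = true) : e ∈ D0 t := by
  have hd' := hd
  rw [mem_D0] at hd
  rcases hd with rfl | ⟨i, hi, rfl⟩ | ⟨i, j, h1, hj, h2, h3, rfl⟩
  · have : e = 0 := by
      apply Nat.eq_of_testBit_eq
      intro i
      have := he i
      rw [Nat.zero_testBit] at this ⊢
      simpa using this
    rw [this]; exact hd'
  · have h : e = 0 ∨ e = 2 ^ i := by
      by_cases hb : e.testBit i = true
      · right
        apply Nat.eq_of_testBit_eq
        intro k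
        rw [testBit_pow]
        by_cases hk : i = k
        · subst hk; simpa using hb
        · have := he k
          rw [testBit_pow] at this
          simp only [hk, decide_false, Bool.false_eq_true, imp_false, Bool.not_eq_true] at this
          simp [hk, this]
      · left
        apply Nat.eq_of_testBit_eq
        intro k
        rw [Nat.zero_testBit]
        by_cases hk : i = k
        · subst hk; simpa using hb
        · have := he k
          rw [testBit_pow] at this
          simpa [hk] using this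
    rcases h with h | h
    · rw [h, mem_D0]; exact Or.inl rfl
    · rw [h]; exact hd'
  · have key : ∀ k, i ≠ k → j ≠ k → e.testBit k = false := by
      intro k h4 h5
      have := he k
      rw [testBit_pow_add h1] at this
      simpa [h4, h5] using this
    by_cases hbi : e.testBit i = true <;> by_cases hbj : e.testBit j = true
    · have : e = 2 ^ i + 2 ^ j := by
        apply Nat.eq_of_testBit_eq
        intro k
        rw [testBit_pow_add h1]
        by_cases hk : i = k
        · subst hk; simp [hbi]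
        · by_cases hk' : j = k
          · subst hk'; simp [hbj]
          · simp [hk, hk', key k hk hk']
      rw [this]; exact hd'
    · have : e = 2 ^ i := by
        apply Nat.eq_of_testBit_eq
        intro k
        rw [testBit_pow]
        by_cases hk : i = k
        · subst hk; simp [hbi]
        · by_cases hk' : j = k
          · subst hk'; simp [hk, hbj]
          · simp [hk, key k hk hk']
      rw [this, mem_D0]; exact Or.inr (Or.inl ⟨i, by omega, rfl⟩)
    · have : e = 2 ^ j := by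
        apply Nat.eq_of_testBit_eq
        intro k
        rw [testBit_pow]
        by_cases hk : j = k
        · subst hk; simp [hbj]
        · by_cases hk' : i = k
          · subst hk'; simp [hk, hbi]
          · simp [hk, key k hk' hk]
      rw [this, mem_D0]; exact Or.inr (Or.inl ⟨j, hj, rfl⟩)
    · have : e = 0 := by
        apply Nat.eq_of_testBit_eq
        intro k
        rw [Nat.zero_testBit]
        by_cases hk : j = k
        · subst hk; simpa using hbj
        · by_cases hk' : i = k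
          · subst hk'; simpa using hbi
          · exact key k hk' hk
      rw [this, mem_D0]; exact Or.inl rfl

theorem D0_double {t d : ℕ} (ht : 5 ≤ t) (hd : d ∈ D0 t) (h0 : d ≠ 0) :
    (2 * d - 1) % (2 ^ t - 1) + 1 ∈ D0 t := by
  have ht5 : 2 ^ 5 ≤ 2 ^ t := Nat.pow_le_pow_right (by norm_num) ht
  have small : ∀ x, 1 ≤ x → x ≤ 2 ^ t - 1 → (x - 1) % (2 ^ t - 1) + 1 = x := by
    intro x h1 h2
    rw [Nat.mod_eq_of_lt (by omega)]
    omega
  have big : ∀ x, 1 ≤ x → x ≤ 2 ^ t - 1 → (x + (2 ^ t - 1) - 1) % (2 ^ t - 1) + 1 = x := by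
    intro x h1 h2
    have e : x + (2 ^ t - 1) - 1 = (x - 1) + (2 ^ t - 1) := by omega
    rw [e, Nat.add_mod_right, Nat.mod_eq_of_lt (by omega)]
    omega
  rw [mem_D0] at hd
  rcases hd with rfl | ⟨i, hi, rfl⟩ | ⟨i, j, h1, hj, h2, h3, rfl⟩
  · exact absurd rfl h0
  · by_cases hit : i + 1 = t
    · have e : 2 * 2 ^ i - 1 = 1 + (2 ^ t - 1) - 1 := by
        rw [← hit, pow_succ]; have := Nat.one_le_two_pow (n := i); omega
      rw [e, big 1 le_rfl (by omega), mem_D0]
      exact Or.inr (Or.inl ⟨0, by omega, by simp⟩)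
    · have hlt : 2 ^ (i + 1) < 2 ^ t := Nat.pow_lt_pow_right (by norm_num) (by omega)
      have e : 2 * 2 ^ i = 2 ^ (i + 1) := by rw [pow_succ]; ring
      rw [e, small _ (Nat.one_le_two_pow) (by omega), mem_D0]
      exact Or.inr (Or.inl ⟨i + 1, by omega, rfl⟩)
  · by_cases hjt : j + 1 = t
    · have hi0 : i ≠ 0 := fun h => h3 ⟨h, hjt⟩
      have hlt : 2 ^ (i + 1) < 2 ^ j := Nat.pow_lt_pow_right (by norm_num) (by omega)
      have hjt' : 2 ^ t = 2 * 2 ^ j := by rw [← hjt, pow_succ]; ring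
      have e : 2 * (2 ^ i + 2 ^ j) - 1 = (1 + 2 ^ (i + 1)) + (2 ^ t - 1) - 1 := by
        rw [hjt']; have := Nat.one_le_two_pow (n := j); have := Nat.one_le_two_pow (n := i); rw [pow_succ]; omega
      rw [e, big _ (Nat.le_add_right _ _) (by have := Nat.one_le_two_pow (n := j); omega), mem_D0]
      exact Or.inr (Or.inr ⟨0, i + 1, by omega, by omega, by omega, by omega, by simp⟩)
    · have hlt : 2 ^ (i + 1) < 2 ^ (j + 1) := Nat.pow_lt_pow_right (by norm_num) (by omega)
      have hlt2 : 2 ^ (j + 2) ≤ 2 ^ t := Nat.pow_le_pow_right (by norm_num) (by omega)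
      have e3 : 2 ^ (j + 2) = 2 ^ (j + 1) + 2 ^ (j + 1) := by rw [pow_succ 2 (j + 1)]; ring
      have e : 2 * (2 ^ i + 2 ^ j) = 2 ^ (i + 1) + 2 ^ (j + 1) := by
        rw [pow_succ, pow_succ]; ring
      rw [e, small _ (by have := Nat.one_le_two_pow (n := i + 1); omega) (by omega), mem_D0]
      exact Or.inr (Or.inr ⟨i + 1, j + 1, by omega, by omega, by omega, by omega, rfl⟩)


/-! ### The field part -/

section field

set_option linter.unusedSectionVars false
variable {K : Type} [Field K] [Algebra (ZMod 2) K] [Finite K]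

/-- The space of functions spanned by the monomials with exponents in `D`. -/
def W (K : Type) [Field K] (D : Finset ℕ) : Submodule K (K → K) where
  carrier := {g | ∃ c : ℕ → K, ∀ x : K, g x = ∑ d ∈ D, c d * x ^ d}
  zero_mem' := ⟨0, by simp⟩
  add_mem' := by
    rintro f g ⟨c, hc⟩ ⟨c', hc'⟩
    exact ⟨fun d => c d + c' d, fun x => by
      rw [Pi.add_apply, hc, hc', ← Finset.sum_add_distrib]
      exact Finset.sum_congr rfl fun d _ => by ring⟩
  smul_mem' := by
    rintro a f ⟨c, hc⟩
    exact ⟨fun d => a * c d, fun x => by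
      rw [Pi.smul_apply, hc, smul_eq_mul, Finset.mul_sum]
      exact Finset.sum_congr rfl fun d _ => by ring⟩

theorem mono_mem_W {D : Finset ℕ} {d : ℕ} (hd : d ∈ D) : (fun x : K => x ^ d) ∈ W K D := by
  classical
  refine ⟨fun e => if e = d then 1 else 0, fun x => ?_⟩
  simp [hd]

theorem sub_mem_W {D : Finset ℕ} {g : K → K} (h : g ∈ W K D) :
    ∃ c : ℕ → K, ∀ x : K, g x = ∑ d ∈ D, c d * x ^ d := h

/-- `x ^ (2 d)` as a monomial with reduced exponent -/
theorem pow_reduce {t : ℕ} (_ht : 1 ≤ t) (hK : Nat.card K = 2 ^ t) (x : K) {n : ℕ} (hn : n ≠ 0) :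
    x ^ ((n - 1) % (2 ^ t - 1) + 1) = x ^ n := by
  by_cases hx : x = 0
  · subst hx
    rw [zero_pow hn, zero_pow (by omega)]
  · haveI := Fintype.ofFinite K
    have h1 : x ^ (2 ^ t - 1) = 1 := by
      rw [← hK, Nat.card_eq_fintype_card]
      exact FiniteField.pow_card_sub_one_eq_one x hx
    have h2 : n = ((n - 1) % (2 ^ t - 1) + 1) + (2 ^ t - 1) * ((n - 1) / (2 ^ t - 1)) := by
      have := Nat.mod_add_div (n - 1) (2 ^ t - 1)
      omega
    conv_rhs => rw [h2, pow_add, pow_mul, h1, one_pow, mul_one]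

theorem frob_mem_W {t : ℕ} (ht : 5 ≤ t) (hK : Nat.card K = 2 ^ t) {d : ℕ} (hd : d ∈ D0 t)
    (m : ℕ) : (fun x : K => x ^ (d * 2 ^ m)) ∈ W K (D0 t) := by
  by_cases h0 : d = 0
  · subst h0
    simpa using mono_mem_W (K := K) hd
  induction m generalizing d with
  | zero => simpa using mono_mem_W hd
  | succ m ih =>
    have h1 := D0_double ht hd h0
    have h2 := ih h1 (by omega)
    have h3 : (fun x : K => x ^ (((2 * d - 1) % (2 ^ t - 1) + 1) * 2 ^ m)) =
        (fun x : K => x ^ (d * 2 ^ (m + 1))) := by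
      funext x
      rw [pow_mul, pow_reduce (by omega) hK x (by omega), ← pow_mul]
      congr 1
      ring
    rwa [h3] at h2

theorem trace_formula {t : ℕ} (hK : Nat.card K = 2 ^ t) (x : K) :
    algebraMap (ZMod 2) K (Algebra.trace (ZMod 2) K x) = ∑ m ∈ Finset.range t, x ^ (2 ^ m) := by
  have hf : Module.finrank (ZMod 2) K = t := by
    have h1 := Module.natCard_eq_pow_finrank (K := ZMod 2) (V := K)
    rw [hK] at h1
    have h2 : Nat.card (ZMod 2) = 2 := by simp
    rw [h2] at h1
    exact (Nat.pow_right_injective (le_refl 2) h1).symm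
  rw [FiniteField.algebraMap_trace_eq_sum_pow, hf]
  simp

theorem trace_mem_W {t : ℕ} (ht : 5 ≤ t) (hK : Nat.card K = 2 ^ t) {d : ℕ} (hd : d ∈ D0 t)
    (a : K) : (fun x : K => algebraMap (ZMod 2) K (Algebra.trace (ZMod 2) K (a * x ^ d))) ∈
      W K (D0 t) := by
  have : (fun x : K => algebraMap (ZMod 2) K (Algebra.trace (ZMod 2) K (a * x ^ d))) =
      ∑ m ∈ Finset.range t, (a ^ (2 ^ m)) • (fun x : K => x ^ (d * 2 ^ m)) := by
    funext x
    rw [trace_formula hK, Finset.sum_apply]
    refine Finset.sum_congr rfl fun m _ => ?_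
    rw [Pi.smul_apply, smul_eq_mul, mul_pow, ← pow_mul]
  rw [this]
  exact Submodule.sum_mem _ fun m _ => Submodule.smul_mem _ _ (frob_mem_W ht hK hd m)


theorem not_mem_W {t : ℕ} (ht : 5 ≤ t) (hK : Nat.card K = 2 ^ t) :
    (fun x : K => algebraMap (ZMod 2) K (Algebra.trace (ZMod 2) K (x ^ 3))) ∉ W K (D0 t) := by
  classical
  rintro ⟨c, hc⟩
  have := Fintype.ofFinite K
  have hcard : Fintype.card K = 2 ^ t := by rw [← Nat.card_eq_fintype_card, hK]
  have ht5 : 2 ^ 5 ≤ 2 ^ t := Nat.pow_le_pow_right (by norm_num) ht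
  set P : K[X] := ∑ m ∈ Finset.range (t - 1), X ^ (3 * 2 ^ m) + X ^ (1 + 2 ^ (t - 1)) -
    ∑ d ∈ D0 t, C (c d) * X ^ d with hP
  have hdeg : P.natDegree < Fintype.card K := by
    rw [hcard]
    have h1 : P.natDegree ≤ 2 ^ t - 1 := by
      rw [hP]
      refine (Polynomial.natDegree_sub_le _ _).trans (max_le ?_ ?_)
      · apply (Polynomial.natDegree_add_le_of_degree_le _ _)
        · apply Polynomial.natDegree_sum_le_of_forall_le
          intro m hm
          rw [Finset.mem_range] at hm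
          rw [Polynomial.natDegree_X_pow]
          have h2 : 2 ^ (m + 2) ≤ 2 ^ t := Nat.pow_le_pow_right (by norm_num) (by omega)
          rw [pow_add] at h2
          have h3 := Nat.one_le_two_pow (n := m)
          omega
        · rw [Polynomial.natDegree_X_pow]
          have h2 : 2 ^ t = 2 * 2 ^ (t - 1) := by
            rw [← pow_succ']; congr 1; omega
          have h3 : 2 ^ 4 ≤ 2 ^ (t - 1) := Nat.pow_le_pow_right (by norm_num) (by omega)
          omega
      · apply Polynomial.natDegree_sum_le_of_forall_le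
        intro d hd
        have h2 := D0_lt hd
        exact (Polynomial.natDegree_C_mul_X_pow_le _ _).trans (by omega)
    omega
  have hzero : P = 0 := by
    apply Polynomial.eq_zero_of_natDegree_lt_card_of_eval_eq_zero P (f := fun x : K => x)
      Function.injective_id _ hdeg
    intro x
    have h1 := hc x
    simp only at h1
    rw [trace_formula hK] at h1
    rw [hP, Polynomial.eval_sub, Polynomial.eval_add, Polynomial.eval_finsetSum,
      Polynomial.eval_finsetSum, Polynomial.eval_pow, Polynomial.eval_X]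
    simp only [Polynomial.eval_pow, Polynomial.eval_X, Polynomial.eval_mul, Polynomial.eval_C]
    rw [← h1, sub_eq_zero]
    obtain ⟨s, rfl⟩ : ∃ s, t = s + 1 := ⟨t - 1, by omega⟩
    rw [Finset.sum_range_succ, Nat.add_sub_cancel]
    congr 1
    · refine Finset.sum_congr rfl fun m _ => by rw [← pow_mul]
    · rw [← pow_mul]
      have h2 := pow_reduce (K := K) (t := s + 1) (by omega) hK x (n := 3 * 2 ^ s) (by positivity)
      rw [← h2]
      congr 1
      have h3 : 3 * 2 ^ s - 1 = 2 ^ s + (2 ^ (s + 1) - 1) := by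
        rw [pow_succ]; have := Nat.one_le_two_pow (n := s); omega
      have h4 : 2 ^ 4 ≤ 2 ^ s := Nat.pow_le_pow_right (by norm_num) (by omega)
      rw [h3, Nat.add_mod_right, Nat.mod_eq_of_lt (by rw [pow_succ]; omega), add_comm]
  have hcoef : P.coeff 3 = 1 := by
    rw [hP, Polynomial.coeff_sub, Polynomial.coeff_add, Polynomial.finsetSum_coeff,
      Polynomial.finsetSum_coeff]
    have h1 : ∑ m ∈ Finset.range (t - 1), (X ^ (3 * 2 ^ m) : K[X]).coeff 3 = 1 := by
      rw [Finset.sum_eq_single 0]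
      · simp
      · intro m _ hm
        rw [Polynomial.coeff_X_pow, if_neg]
        have h2 : 2 ^ 1 ≤ 2 ^ m := Nat.pow_le_pow_right (by norm_num) (by omega)
        omega
      · intro h; exact absurd (Finset.mem_range.2 (by omega)) h
    have h2 : (X ^ (1 + 2 ^ (t - 1)) : K[X]).coeff 3 = 0 := by
      rw [Polynomial.coeff_X_pow, if_neg]
      have h3 : 2 ^ 4 ≤ 2 ^ (t - 1) := Nat.pow_le_pow_right (by norm_num) (by omega)
      omega
    have h3 : ∑ d ∈ D0 t, (C (c d) * X ^ d : K[X]).coeff 3 = 0 := by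
      apply Finset.sum_eq_zero
      intro d hd
      rw [Polynomial.coeff_C_mul_X_pow, if_neg]
      intro h
      exact three_notMem ht (h ▸ hd)
    rw [h1, h2, h3]; ring
  rw [hzero, Polynomial.coeff_zero] at hcoef
  exact zero_ne_one hcoef

theorem eq_zero_of_trace (y : K) (h : ∀ a : K, Algebra.trace (ZMod 2) K (a * y) = 0) : y = 0 := by
  have h1 := (traceForm_nondegenerate (ZMod 2) K).1 y
  apply h1
  intro a
  rw [Algebra.traceForm_apply, mul_comm]
  exact h a

/-- The main linear algebra fact: a functional of few variables which kills the property kills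
`Tr (x ^ 3)`. -/
theorem key {t k : ℕ} (ht : k + 5 ≤ t) (hK : Nat.card K = 2 ^ t) (α : Fin k → K)
    (lam : Fin k → ZMod 2)
    (h : ∀ d ∈ D0 t, ∀ a : K, ∑ i, lam i * Algebra.trace (ZMod 2) K (a * α i ^ d) = 0) :
    ∑ i, lam i * Algebra.trace (ZMod 2) K (α i ^ 3) = 0 := by
  classical
  have := Fintype.ofFinite K
  have hf : Module.finrank (ZMod 2) K = t := by
    have h1 := Module.natCard_eq_pow_finrank (K := ZMod 2) (V := K)
    rw [hK] at h1
    have h2 : Nat.card (ZMod 2) = 2 := by simp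
    rw [h2] at h1
    exact (Nat.pow_right_injective (le_refl 2) h1).symm
  have hchar : CharP K 2 := charP_of_injective_algebraMap (algebraMap (ZMod 2) K).injective 2
  set S : ℕ → K := fun d => ∑ i, algebraMap (ZMod 2) K (lam i) * α i ^ d with hS
  have htr : ∀ (a : K) (d : ℕ), Algebra.trace (ZMod 2) K (a * S d) =
      ∑ i, lam i * Algebra.trace (ZMod 2) K (a * α i ^ d) := by
    intro a d
    rw [hS]
    simp only
    rw [Finset.mul_sum, map_sum]
    refine Finset.sum_congr rfl fun i _ => ?_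
    rw [← smul_eq_mul (lam i), ← map_smul, Algebra.smul_def]
    congr 1; ring
  have hSD : ∀ d ∈ D0 t, S d = 0 := fun d hd => eq_zero_of_trace _ fun a => by
    rw [htr]; exact h d hd a
  suffices hS3 : S 3 = 0 by
    have h1 := htr 1 3
    rw [hS3, mul_zero, map_zero] at h1
    rw [h1]
    exact Finset.sum_congr rfl fun i _ => by rw [one_mul]
  by_contra hne
  -- the square of `S (1 + 2 ^ (t - 1))`
  have hsq : S (1 + 2 ^ (t - 1)) ^ 2 = S 3 := by
    have h1 : ∀ z : ZMod 2, z ^ 2 = z := by decide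
    rw [hS]
    simp only
    rw [CharTwo.sum_sq]
    refine Finset.sum_congr rfl fun i _ => ?_
    rw [mul_pow, ← map_pow, h1, ← pow_mul]
    congr 1
    have h2 := pow_reduce (K := K) (t := t) (by omega) hK (α i)
      (n := (1 + 2 ^ (t - 1)) * 2) (by positivity)
    rw [← h2]
    congr 1
    have h3 : 2 ^ t = 2 * 2 ^ (t - 1) := by rw [← pow_succ']; congr 1; omega
    have h4 : 2 ^ 4 ≤ 2 ^ (t - 1) := Nat.pow_le_pow_right (by norm_num) (by omega)
    have h5 : (1 + 2 ^ (t - 1)) * 2 - 1 = 2 + (2 ^ t - 1) := by omega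
    rw [h5, Nat.add_mod_right, Nat.mod_eq_of_lt (by omega)]
  -- the linearized polynomial
  have hL : ∀ x : K, (∀ i, Algebra.trace (ZMod 2) K (α i * x) = 0) →
      S 3 * x ^ 2 + S (1 + 2 ^ (t - 1)) * x ^ (2 ^ (t - 1)) = 0 := by
    intro x hx
    have h1 : ∑ i, algebraMap (ZMod 2) K (lam i) * α i *
        algebraMap (ZMod 2) K (Algebra.trace (ZMod 2) K (α i * x)) = 0 := by
      apply Finset.sum_eq_zero
      intro i _
      rw [hx i, map_zero, mul_zero]
    have h2 : ∑ i, algebraMap (ZMod 2) K (lam i) * α i *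
        algebraMap (ZMod 2) K (Algebra.trace (ZMod 2) K (α i * x)) =
        ∑ m ∈ Finset.range t, S (1 + 2 ^ m) * x ^ (2 ^ m) := by
      rw [hS]
      simp only
      simp_rw [trace_formula hK, Finset.mul_sum, Finset.sum_mul]
      rw [Finset.sum_comm]
      refine Finset.sum_congr rfl fun m _ => Finset.sum_congr rfl fun i _ => ?_
      rw [mul_pow, pow_add, pow_one]; ring
    rw [h2] at h1
    obtain ⟨s, rfl⟩ : ∃ s, t = s + 3 := ⟨t - 3, by omega⟩
    rw [Finset.sum_range_succ, Finset.sum_range_succ', Finset.sum_range_succ'] at h1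
    have h3 : ∑ m ∈ Finset.range s, S (1 + 2 ^ (m + 1 + 1)) * x ^ (2 ^ (m + 1 + 1)) = 0 := by
      apply Finset.sum_eq_zero
      intro m hm
      rw [Finset.mem_range] at hm
      rw [hSD (1 + 2 ^ (m + 1 + 1)) (by
        rw [mem_D0]
        exact Or.inr (Or.inr ⟨0, m + 1 + 1, by omega, by omega, by omega, by omega, by simp⟩)),
        zero_mul]
    have h4 : S (1 + 2 ^ 0) = 0 := hSD _ (by
      rw [mem_D0]; exact Or.inr (Or.inl ⟨1, by omega, by norm_num⟩))
    rw [h3, h4] at h1
    simpa using h1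
  -- the kernel
  set φ : K →ₗ[ZMod 2] (Fin k → ZMod 2) := LinearMap.pi fun i =>
    (Algebra.trace (ZMod 2) K).comp (LinearMap.mulLeft (ZMod 2) (α i)) with hφ
  have hker : ∀ x ∈ LinearMap.ker φ, ∀ i, Algebra.trace (ZMod 2) K (α i * x) = 0 := by
    intro x hx i
    rw [LinearMap.mem_ker] at hx
    exact congrFun hx i
  have hroot : ∀ x ∈ LinearMap.ker φ, (S 3) ^ 2 * x ^ 4 + S 3 * x = 0 := by
    intro x hx
    have h1 := hL x (hker x hx)
    have h2 : (S 3 * x ^ 2 + S (1 + 2 ^ (t - 1)) * x ^ (2 ^ (t - 1))) ^ 2 = 0 := by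
      rw [h1]; ring
    rw [CharTwo.add_sq, mul_pow, mul_pow, hsq, ← pow_mul, ← pow_mul] at h2
    have h3 : x ^ (2 ^ (t - 1) * 2) = x := by
      have h4 : 2 ^ (t - 1) * 2 = Fintype.card K := by
        rw [← Nat.card_eq_fintype_card, hK, ← pow_succ]; congr 1; omega
      rw [h4, FiniteField.pow_card]
    rw [h3] at h2
    exact h2
  have hfin : k + 5 ≤ k + Module.finrank (ZMod 2) (LinearMap.ker φ) := by
    have h1 := LinearMap.finrank_range_add_finrank_ker φ
    have h2 : Module.finrank (ZMod 2) (LinearMap.range φ) ≤ k := by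
      have := Submodule.finrank_le (LinearMap.range φ)
      rwa [Module.finrank_fin_fun] at this
    omega
  have hcardker : 2 ^ 5 ≤ Nat.card (LinearMap.ker φ) := by
    rw [Module.natCard_eq_pow_finrank (K := ZMod 2), Nat.card_zmod]
    exact Nat.pow_le_pow_right (by norm_num) (by omega)
  set p : K[X] := C ((S 3) ^ 2) * X ^ 4 + C (S 3) * X with hp
  have hp0 : p ≠ 0 := by
    intro h0
    have h1 : p.coeff 1 = S 3 := by
      rw [hp, Polynomial.coeff_add, Polynomial.coeff_C_mul_X_pow, Polynomial.coeff_C_mul_X]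
      simp
    rw [h0, Polynomial.coeff_zero] at h1
    exact hne h1.symm
  have hpdeg : p.natDegree ≤ 4 := by
    rw [hp]
    apply (Polynomial.natDegree_add_le_of_degree_le _ _)
    · exact Polynomial.natDegree_C_mul_X_pow_le _ _
    · exact ((Polynomial.natDegree_C_mul_le _ _).trans Polynomial.natDegree_X_le).trans (by norm_num)
  have hsub : ((LinearMap.ker φ : Submodule (ZMod 2) K) : Set K) ⊆ (p.roots.toFinset : Set K) := by
    intro x hx
    rw [Finset.mem_coe, Multiset.mem_toFinset, Polynomial.mem_roots hp0, Polynomial.IsRoot.def, hp]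
    simp only [Polynomial.eval_add, Polynomial.eval_mul, Polynomial.eval_C, Polynomial.eval_pow,
      Polynomial.eval_X]
    exact hroot x hx
  have hle : Nat.card (LinearMap.ker φ) ≤ 4 := by
    calc Nat.card (LinearMap.ker φ) = ((LinearMap.ker φ : Submodule (ZMod 2) K) : Set K).ncard := rfl
      _ ≤ (p.roots.toFinset : Set K).ncard := Set.ncard_le_ncard hsub
      _ = p.roots.toFinset.card := Set.ncard_coe_finset _
      _ ≤ p.roots.card := Multiset.toFinset_card_le _
      _ ≤ p.natDegree := Polynomial.card_roots' p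
      _ ≤ 4 := hpdeg
  omega

end field

theorem result :
    ∀ k : ℕ, ∃ t : ℕ, t.Prime ∧ ∃ D : Finset ℕ,
      (∀ d ∈ D, d < 2 ^ t ∧ (Nat.digits 2 d).sum ≤ 2) ∧
      (∃ d : ℕ, d < 2 ^ t ∧ (Nat.digits 2 d).sum ≤ 2 ∧ d ∉ D) ∧
      (∀ d ∈ D, d ≠ 0 → (2 * d - 1) % (2 ^ t - 1) + 1 ∈ D) ∧
      (∀ d ∈ D, ∀ e : ℕ, (∀ i : ℕ, e.testBit i = true → d.testBit i = true) → e ∈ D) ∧
      ¬ ∃ C : Set ((Fin k → GaloisField 2 t) × Set (Fin k → ZMod 2)),
          ∀ f : GaloisField 2 t → ZMod 2,
            ((∃ c : ℕ → GaloisField 2 t, ∀ x : GaloisField 2 t,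
                algebraMap (ZMod 2) (GaloisField 2 t) (f x) = ∑ d ∈ D, c d * x ^ d) ↔
              ∀ p ∈ C, (fun i => f (p.1 i)) ∈ p.2) := by
  intro k
  obtain ⟨t, ht, htp⟩ := Nat.exists_infinite_primes (k + 5)
  have ht5 : 5 ≤ t := by omega
  refine ⟨t, htp, D0 t, fun d hd => ⟨D0_lt hd, D0_digits hd⟩,
    ⟨3, ?_, by norm_num, three_notMem ht5⟩, fun d hd h0 => D0_double ht5 hd h0,
    fun d hd e he => D0_shadow hd he, ?_⟩
  · have : 2 ^ 5 ≤ 2 ^ t := Nat.pow_le_pow_right (by norm_num) ht5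
    omega
  rintro ⟨Cs, hCs⟩
  have hK : Nat.card (GaloisField 2 t) = 2 ^ t := GaloisField.card 2 t (by omega)
  have := Fintype.ofFinite (GaloisField 2 t)
  set f1 : GaloisField 2 t → ZMod 2 :=
    fun x => Algebra.trace (ZMod 2) (GaloisField 2 t) (x ^ 3) with hf1
  apply not_mem_W ht5 hK
  show ∃ c : ℕ → GaloisField 2 t, ∀ x : GaloisField 2 t,
    algebraMap (ZMod 2) (GaloisField 2 t) (f1 x) = ∑ d ∈ D0 t, c d * x ^ d
  rw [hCs f1]
  intro p hp
  let P0 : Submodule (ZMod 2) (GaloisField 2 t → ZMod 2) :=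
    { carrier := {f | (fun x => algebraMap (ZMod 2) (GaloisField 2 t) (f x)) ∈
        W (GaloisField 2 t) (D0 t)}
      zero_mem' := by
        have : (fun x : GaloisField 2 t => algebraMap (ZMod 2) (GaloisField 2 t)
            ((0 : GaloisField 2 t → ZMod 2) x)) = 0 := by funext x; simp
        rw [Set.mem_ofPred_eq, this]; exact Submodule.zero_mem _
      add_mem' := by
        intro f g hf hg
        rw [Set.mem_ofPred_eq] at hf hg ⊢
        have : (fun x : GaloisField 2 t => algebraMap (ZMod 2) (GaloisField 2 t) ((f + g) x)) =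
          (fun x => algebraMap (ZMod 2) (GaloisField 2 t) (f x)) +
          (fun x => algebraMap (ZMod 2) (GaloisField 2 t) (g x)) := by funext x; simp
        rw [this]; exact Submodule.add_mem _ hf hg
      smul_mem' := by
        intro c f hf
        rw [Set.mem_ofPred_eq] at hf ⊢
        have : (fun x : GaloisField 2 t => algebraMap (ZMod 2) (GaloisField 2 t) ((c • f) x)) =
          (algebraMap (ZMod 2) (GaloisField 2 t) c) •
          (fun x => algebraMap (ZMod 2) (GaloisField 2 t) (f x)) := by funext x; simp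
        rw [this]; exact Submodule.smul_mem _ _ hf }
  have hmem : (fun i => f1 (p.1 i)) ∈ P0.map (LinearMap.funLeft (ZMod 2) (ZMod 2) p.1) := by
    by_contra hn
    obtain ⟨l, hl1, hl2⟩ := Submodule.exists_le_ker_of_notMem hn
    apply hl1
    have hform : ∀ v : Fin k → ZMod 2, l v = ∑ i, l (Pi.single i 1) * v i := by
      intro v
      conv_lhs => rw [← Finset.univ_sum_single v]
      rw [map_sum]
      refine Finset.sum_congr rfl fun i _ => ?_
      have : (Pi.single i (v i) : Fin k → ZMod 2) = v i • Pi.single i 1 := by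
        rw [← Pi.single_smul, smul_eq_mul, mul_one]
      rw [this, map_smul, smul_eq_mul, mul_comm]
    rw [hform]
    apply key ht hK
    intro d hd a
    have h1 : (fun x => Algebra.trace (ZMod 2) (GaloisField 2 t) (a * x ^ d)) ∈ P0 :=
      trace_mem_W ht5 hK hd a
    have h2 := hl2 (Submodule.mem_map_of_mem (f := LinearMap.funLeft (ZMod 2) (ZMod 2) p.1) h1)
    rw [LinearMap.mem_ker, hform] at h2
    exact h2
  obtain ⟨g, hg, hgf⟩ := hmem
  have h3 := (hCs g).1 hg p hp
  have h4 : (fun i => g (p.1 i)) = fun i => f1 (p.1 i) := hgf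
  rwa [h4] at h3

end Pool.Agent.S14999
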