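import Pool.Statements.S15060
import Pool.Agent.TH713.PinDfs

/-!
The instance with the periods `7, 7, 8, 8, 8, 8, 16, 23, 1000` has density
`2/7 + 4/8 + 1/16 + 1/23 + 1/1000 < 1 - 6/56`, but it is not schedulable: in every schedule of the
first eight tasks no slot is free.  This is checked for the 27 slots around a free slot.
-/

set_option autoImplicit false
open Pool Pool.MP_917099_lc

namespace Pool.Agent.S15060

open Pool.Agent.TH713.Pin

/-- the periods -/
def per : Fin (8 + 1) → ℕ := ![7, 7, 8, 8, 8, 8, 16, 23, 1000]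

/-- the classes of equal periods -/
def cls : Fin (8 + 1) → ℕ := ![0, 0, 1, 1, 1, 1, 2, 3, 4]

theorem card_le {S : ℤ → Fin (8 + 1)}
    (hS : ∀ i : Fin (8 + 1), ∀ m : ℤ, ∃ t : ℤ, m ≤ t ∧ t < m + (per i : ℤ) ∧ S t = i)
    (t0 : ℤ) (n k p : ℕ) (I : Finset (Fin (8 + 1))) (hI : ∀ i ∈ I, cls i = k ∧ per i = p) :
    I.card ≤ cnt (fun j => cls (S (t0 + j))) k n p := by
  have h1 : ∀ i : Fin (8 + 1), ∃ j : ℕ, j < per i ∧ S (t0 + ((n + j : ℕ) : ℤ)) = i := by
    intro i
    obtain ⟨t, ht1, ht2, ht3⟩ := hS i (t0 + n)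
    refine ⟨(t - (t0 + n)).toNat, by omega, ?_⟩
    rw [← ht3]
    congr 1
    push_cast
    omega
  choose g hg1 hg2 using h1
  rw [cnt_eq_card]
  apply Finset.card_le_card_of_injOn g
  · intro i hi
    have hi := Finset.mem_coe.1 hi
    simp only [Finset.coe_filter, Finset.mem_range, Set.mem_ofPred_eq]
    refine ⟨by rw [← (hI i hi).2]; exact hg1 i, ?_⟩
    rw [hg2 i]
    exact (hI i hi).1
  · intro i _ j _ hij
    rw [← hg2 i, ← hg2 j, hij]

/-- The negation of the preceding statement: For any nonempty list of positive integer periods with smallest period a, if the sum of 1/aᵢ is at most 1 − (a−1)/(a(a+1)), there is a schedule ℤ → indices in which every index i appears in every aᵢ consecutive integer slots. -/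
theorem result :
    ¬ (∀ (k : ℕ) (a : Fin (k + 1) → ℕ),
      (∀ i, 0 < a i) →
      (∀ i, a 0 ≤ a i) →
      (∑ i, (1 : ℝ) / (a i : ℝ)) ≤ 1 - ((a 0 : ℝ) - 1) / ((a 0 : ℝ) * ((a 0 : ℝ) + 1)) →
      ∃ S : ℤ → Fin (k + 1), ∀ i : Fin (k + 1), ∀ m : ℤ,
        ∃ t : ℤ, m ≤ t ∧ t < m + (a i : ℤ) ∧ S t = i) := by
  intro H
  obtain ⟨S, hS⟩ := H 8 per (by decide) (by decide) (by
    simp [Fin.sum_univ_succ, per]
    norm_num)
  obtain ⟨t0, -, -, ht0⟩ := hS 8 0
  have hW : Win (fun j : ℕ => cls (S (t0 - 13 + j))) :=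
    { a := fun n => card_le hS (t0 - 13) n 0 7 {0, 1} (by decide)
      b := fun n => card_le hS (t0 - 13) n 1 8 {2, 3, 4, 5} (by decide)
      c := fun n => card_le hS (t0 - 13) n 2 16 {6} (by decide)
      d := fun n => card_le hS (t0 - 13) n 3 23 {7} (by decide) }
  apply no_hole hW 0
  have e : t0 - 13 + ((0 + 13 : ℕ) : ℤ) = t0 := by push_cast; ring
  show cls (S (t0 - 13 + ((0 + 13 : ℕ) : ℤ))) = 4
  rw [e, ht0]
  rfl

end Pool.Agent.S15060
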