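import Pool.Statements.S15085
import Pool.Agent.TH722.CR.Final

set_option autoImplicit false
open Pool Pool.MP_97bde0_lc

namespace Pool.Agent.S15085

/-- For every aperiodic countable Borel equivalence relation E on a standard Borel space and probability measure μ such that E is non-smooth on every invariant Borel measure-one set, some invariant Borel measure-one set Y has E on Y Borel isomorphic to a continuous countable group action on a compact me -/
theorem result :
  ∀ (X : Type) [MeasurableSpace X] [StandardBorelSpace X] (E : X → X → Prop)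
    (μ : MeasureTheory.Measure X) [MeasureTheory.IsProbabilityMeasure μ],
    Equivalence E →
    MeasurableSet {p : X × X | E p.1 p.2} →
    (∀ x : X, {y : X | E x y}.Countable) →
    (∀ x : X, {y : X | E x y}.Infinite) →
    (∀ Y : Set X, MeasurableSet Y → (∀ x y : X, E x y → x ∈ Y → y ∈ Y) → μ Y = 1 →
      ¬ ∃ f : X → ℝ, Measurable f ∧ ∀ x ∈ Y, ∀ y ∈ Y, (E x y ↔ f x = f y)) →
    ∃ Y : Set X, MeasurableSet Y ∧ (∀ x y : X, E x y → x ∈ Y → y ∈ Y) ∧ μ Y = 1 ∧
      ∃ (G : Type) (_ : Group G) (_ : Countable G) (Z : Type) (_ : TopologicalSpace Z)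
        (_ : CompactSpace Z) (_ : TopologicalSpace.MetrizableSpace Z) (_ : MeasurableSpace Z)
        (_ : BorelSpace Z) (_ : MulAction G Z) (_ : ContinuousConstSMul G Z) (f : Y ≃ᵐ Z),
        ∀ a b : Y, E a b ↔ ∃ g : G, g • f a = f b := by
  intro X _ _ E μ _ hE hEm hcount hinf hns
  exact Pool.Agent.TH722.CR.main_theorem E μ hE hEm hcount hinf hns

end Pool.Agent.S15085
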