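import Pool.Statements.S15144
import Pool.Agent.TH743.BA2

set_option autoImplicit false
open Pool Pool.MP_a2ec29_lc

namespace Pool.Agent.S15144

/-- The negation of the preceding statement: Take any computable infinite linear order L and computable Boolean algebra B isomorphic to the algebra of finite unions of half-open intervals of L. Then some computable copy of L makes B computably isomorphic to that copy's interval algebra. -/
theorem result :
    ¬ (∀ (β : Type) [LinearOrder β] (l : ℕ ≃ β),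
      ComputablePred (fun p : ℕ × ℕ => l p.1 ≤ l p.2) →
      ∀ (α : Type) [BooleanAlgebra α] (e : ℕ ≃ α),
        Computable₂ (fun m n : ℕ => e.symm (e m ⊔ e n)) →
        Computable₂ (fun m n : ℕ => e.symm (e m ⊓ e n)) →
        Computable (fun n : ℕ => e.symm (e n)ᶜ) →
        (∃ φ : α → Set β, Function.Injective φ ∧
            (∀ a b, φ (a ⊔ b) = φ a ∪ φ b) ∧
            (∀ a, φ aᶜ = (φ a)ᶜ) ∧
            Set.range φ = {X : Set β | ∃ S : Finset β, ∃ b : Bool,
              X = {x : β | Xor' (b = true) (Odd (S.filter (fun s => s ≤ x)).card)}}) →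
        ∃ l' : ℕ ≃ β, ComputablePred (fun p : ℕ × ℕ => l' p.1 ≤ l' p.2) ∧
          ∃ ψ : α → Set β, Function.Injective ψ ∧
            (∀ a b, ψ (a ⊔ b) = ψ a ∪ ψ b) ∧
            (∀ a, ψ aᶜ = (ψ a)ᶜ) ∧
            Set.range ψ = {X : Set β | ∃ S : Finset β, ∃ b : Bool,
              X = {x : β | Xor' (b = true) (Odd (S.filter (fun s => s ≤ x)).card)}} ∧
            ∃ c : ℕ → List ℕ × Bool, Computable c ∧
              ∀ n : ℕ, ψ (e n) = {x : β | Xor' ((c n).2 = true)
                (Odd ((c n).1.filter (fun s => decide (l' s ≤ x))).length)}) := by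
  intro h
  have hle : ComputablePred (fun p : ℕ × ℕ => (Equiv.refl ℕ) p.1 ≤ (Equiv.refl ℕ) p.2) :=
    Pool.Agent.Helper941.Zeta.p_le (Computable.fst) (Computable.snd)
  obtain ⟨l', hl', ψ, hinj, hsup, hcompl, hrange, c, hc, hψ⟩ := h ℕ (Equiv.refl ℕ) hle
    Pool.Agent.TH743.BA.FC Pool.Agent.TH743.BA.e Pool.Agent.TH743.BA.comp_sup
    Pool.Agent.TH743.BA.comp_inf Pool.Agent.TH743.BA.comp_compl
    ⟨fun X => (X : Set ℕ), Subtype.val_injective, fun _ _ => rfl, fun _ => rfl,
      Pool.Agent.TH743.BA.range_R⟩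
  apply Pool.Agent.TH743.BA.not_comp_ts
  have hrange' : Set.range ψ = Pool.Agent.TH743.BA.R := hrange
  have key : ∀ i, Pool.Agent.TH743.BA.TS i ↔
      (((c (2 ^ i)).2 = true) ↔ ¬ ((c (2 ^ i)).1.length % 2 = 1)) := by
    intro i
    obtain ⟨N, hN⟩ := Pool.Agent.TH743.BA.filter_large l' (c (2 ^ i)).1
    rw [← Pool.Agent.TH743.BA.S_infinite_iff, ← Pool.Agent.TH743.BA.e_val,
      ← Pool.Agent.TH743.BA.image_infinite hinj hsup hcompl hrange']
    refine (Pool.Agent.TH743.BA.const_mem (N := N) fun x hx => ?_).2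
    rw [hψ, Set.mem_setOf_eq, Pool.Agent.TH743.BA.xor_iff, hN x hx, Nat.odd_iff]
  have h2 : Computable fun i : ℕ => c (2 ^ i) :=
    hc.comp (Pool.Agent.Helper941.Dim.c_pow Computable.id)
  have h3 : ComputablePred fun i : ℕ =>
      (((c (2 ^ i)).2 = true) ↔ ¬ ((c (2 ^ i)).1.length % 2 = 1)) :=
    Pool.Agent.Helper941.Zeta.p_iff
      (Pool.Agent.Helper941.Zeta.p_eqb (Computable.snd.comp h2) (Computable.const true))
      (Pool.Agent.Helper941.Zeta.p_not (Pool.Agent.Helper941.Zeta.p_eq
        (Pool.Agent.Helper941.Zeta.c_mod2 (Computable.list_length.comp (Computable.fst.comp h2)))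
        (Computable.const 1)))
  exact h3.of_eq fun i => (key i).symm

end Pool.Agent.S15144
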