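import Pool.Statements.S15550

set_option autoImplicit false
open Pool Pool.MP_e6ce3e_lc

namespace Pool.Agent.S15550

open Set Cardinal

section
variable {L : Type} [LinearOrder L]

/-- In a linear order without uncountable well-ordered subsets, the upper part of the countable
condensation class of a point is countable. -/
lemma upper_countable (h1 : ∀ S : Set L, S.WellFoundedOn (· < ·) → S.Countable) (x : L) :
    {w : L | x ≤ w ∧ (Icc x w).Countable}.Countable := by
  classical
  set U : Set L := {w : L | x ≤ w ∧ (Icc x w).Countable} with hU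
  let r : U → U → Prop := WellOrderingRel
  have hr : IsWellFounded U r := ⟨WellOrderingRel.isWellOrder.wf⟩
  have hcof := isCofinal_setOfPred_imp_lt r
  set S : Set U := {a | ∀ b, r b a → b < a} with hS
  have hSwf : (Subtype.val '' S : Set L).WellFoundedOn (· < ·) := by
    rw [Set.wellFoundedOn_iff]
    have hw : WellFounded (fun a b : L => ∃ (a' b' : U), a'.1 = a ∧ b'.1 = b ∧ r a' b') := by
      refine ⟨fun a => ?_⟩
      by_cases ha : a ∈ U
      · have key : ∀ u : U, Acc (fun a b : L => ∃ (a' b' : U), a'.1 = a ∧ b'.1 = b ∧ r a' b') u.1 := by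
          intro u
          induction u using hr.wf.induction with
          | _ u ih =>
            refine ⟨_, ?_⟩
            rintro y ⟨a', b', rfl, hb, hab⟩
            have : b' = u := Subtype.ext hb
            subst this
            exact ih a' hab
        exact key ⟨a, ha⟩
      · refine ⟨_, ?_⟩
        rintro y ⟨a', b', rfl, hb, hab⟩
        exact absurd (hb ▸ b'.2) ha
    refine Subrelation.wf ?_ hw
    rintro a b ⟨hab, ⟨a', ha', rfl⟩, ⟨b', hb', rfl⟩⟩
    refine ⟨a', b', rfl, rfl, ?_⟩
    rcases trichotomous_of r a' b' with h | h | h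
    · exact h
    · subst h
      exact absurd hab (lt_irrefl _)
    · exact absurd (ha' b' h) (not_lt.2 (le_of_lt hab))
  have hSc := h1 _ hSwf
  have hsub : U ⊆ ⋃ w ∈ (Subtype.val '' S : Set L), Icc x w ∩ {y | w ∈ U} := by
    intro y hy
    obtain ⟨b, hb, hyb⟩ := hcof ⟨y, hy⟩
    simp only [mem_iUnion]
    exact ⟨b.1, ⟨b, hb, rfl⟩, ⟨hy.1, hyb⟩, b.2⟩
  refine Set.Countable.mono hsub (hSc.biUnion fun w _ => ?_)
  by_cases hw : w ∈ U
  · exact (hw.2).mono inter_subset_left
  · refine Set.Countable.mono (s₂ := ∅) ?_ countable_empty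
    rintro y ⟨_, hy⟩
    exact hw hy

/-- The condensation class of a point is countable. -/
lemma class_countable (h1 : ∀ S : Set L, S.WellFoundedOn (· < ·) → S.Countable)
    (h2 : ∀ S : Set L, S.WellFoundedOn (· > ·) → S.Countable) (x : L) :
    {w : L | (uIcc x w).Countable}.Countable := by
  have hA := upper_countable h1 x
  have hB : {w : L | w ≤ x ∧ (Icc w x).Countable}.Countable := by
    have := upper_countable (L := Lᵒᵈ) (fun S hS => h2 S hS) (OrderDual.toDual x)
    refine Set.Countable.mono ?_ this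
    rintro w ⟨hw, hw'⟩
    refine ⟨hw, ?_⟩
    refine Set.Countable.mono ?_ hw'
    intro y hy
    exact ⟨hy.2, hy.1⟩
  refine Set.Countable.mono ?_ (hA.union hB)
  intro w hw
  rcases le_total x w with h | h
  · left
    exact ⟨h, by simpa [uIcc_of_le h] using hw⟩
  · right
    exact ⟨h, by simpa [uIcc_of_ge h] using hw⟩

/-- Hausdorff: the rationals embed, with uncountable gaps, into every uncountable short order. -/
lemma exists_rat (h1 : ∀ S : Set L, S.WellFoundedOn (· < ·) → S.Countable)
    (h2 : ∀ S : Set L, S.WellFoundedOn (· > ·) → S.Countable) (h3 : ¬ (univ : Set L).Countable) :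
    ∃ g : ℚ → L, StrictMono g ∧ ∀ p q, p < q → ¬ (Icc (g p) (g q)).Countable := by
  classical
  let st : Setoid L := ⟨fun x y => (uIcc x y).Countable,
    ⟨fun x => by simp, fun {x y} h => by simpa [uIcc_comm] using h,
      fun {x y z} h h' => (h.union h').mono uIcc_subset_uIcc_union_uIcc⟩⟩
  let out : L → L := fun x => (Quotient.mk st x).out
  have hout : ∀ x, (uIcc (out x) x).Countable := fun x => Quotient.mk_out (s := st) x
  have hout_eq : ∀ x y, (uIcc x y).Countable → out x = out y := fun x y h => by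
    have : Quotient.mk st x = Quotient.mk st y := Quotient.sound h
    simp only [out, this]
  have hidem : ∀ x, out (out x) = out x := fun x => hout_eq _ _ (hout x)
  let R : Set L := range out
  have hR : ∀ x ∈ R, out x = x := by
    rintro _ ⟨x, rfl⟩
    exact hidem x
  have hRne : ∀ x ∈ R, ∀ y ∈ R, x ≠ y → ¬ (uIcc x y).Countable := by
    intro x hx y hy hne hc
    apply hne
    rw [← hR x hx, ← hR y hy]
    exact hout_eq x y hc
  have hdense : DenselyOrdered R := by
    refine ⟨fun a b hab => ?_⟩
    by_contra hcon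
    push Not at hcon
    have hab' : (a : L) < b := hab
    apply hRne a a.2 b b.2 hab'.ne
    rw [uIcc_of_le hab'.le]
    refine Set.Countable.mono ?_ ((class_countable h1 h2 (a : L)).union
      (class_countable h1 h2 (b : L)))
    intro w hw
    have hcase : out w ≤ a ∨ (b : L) ≤ out w := by
      by_contra hc
      rw [not_or, not_le, not_le] at hc
      have := hcon ⟨out w, ⟨w, rfl⟩⟩ (show (a : L) < out w from hc.1)
      exact absurd (show out w < b from hc.2) (not_lt.2 this)
    rcases hcase with h | h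
    · left
      show (uIcc (a : L) w).Countable
      refine (hout w).mono ?_
      rw [uIcc_of_le hw.1, uIcc_of_le (h.trans hw.1)]
      exact Icc_subset_Icc_left h
    · right
      show (uIcc (b : L) w).Countable
      refine (hout w).mono ?_
      rw [uIcc_of_ge hw.2, uIcc_of_ge (hw.2.trans h)]
      exact Icc_subset_Icc_right h
  have hnt : Nontrivial R := by
    by_contra hcon
    rw [not_nontrivial_iff_subsingleton] at hcon
    apply h3
    rcases isEmpty_or_nonempty L with he | ⟨⟨x⟩⟩
    · exact Set.Countable.mono (s₂ := ∅) (fun y => (he.false y).elim) countable_empty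
    · refine Set.Countable.mono ?_ (class_countable h1 h2 (out x))
      intro w _
      have : out x = out w := congrArg Subtype.val
        (Subsingleton.elim (⟨out x, ⟨x, rfl⟩⟩ : R) ⟨out w, ⟨w, rfl⟩⟩)
      show (uIcc (out x) w).Countable
      rw [this]
      exact hout w
  obtain ⟨e⟩ := Order.embedding_from_countable_to_dense ℚ R
  refine ⟨fun q => (e q : L), fun p q h => e.strictMono h, fun p q h hc => ?_⟩
  have hlt : (e p : L) < e q := e.strictMono h
  apply hRne (e p) (e p).2 (e q) (e q).2 hlt.ne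
  rwa [uIcc_of_le hlt.le]

lemma main (h1 : ∀ S : Set L, S.WellFoundedOn (· < ·) → S.Countable)
    (h2 : ∀ S : Set L, S.WellFoundedOn (· > ·) → S.Countable) (h3 : ¬ (univ : Set L).Countable) :
    ∃ K : Set L, #K = ℵ₁ ∧ ∃ f : K → ℚ, Monotone f ∧ Function.Surjective f := by
  classical
  obtain ⟨g, hg, hgu⟩ := exists_rat h1 h2 h3
  have hB0 : ℵ₁ ≤ #(Icc (g 0) (g 1)) := by
    have := hgu 0 1 zero_lt_one
    rw [← succ_aleph0]
    refine Order.succ_le_of_lt ?_
    by_contra hc
    exact this (Cardinal.le_aleph0_iff_set_countable.1 (not_lt.1 hc))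
  obtain ⟨B, hBsub, hB⟩ := Cardinal.le_mk_iff_exists_subset.1 hB0
  let A : Set L := g '' Iio 0
  let C : Set L := g '' Ioi 1
  have hAc : A.Countable := (Set.to_countable _).image _
  have hCc : C.Countable := (Set.to_countable _).image _
  have hBne : B.Nonempty := by
    rw [← Set.nonempty_coe_sort, ← mk_ne_zero_iff, hB]
    exact (aleph0_pos.trans aleph0_lt_aleph_one).ne'
  let K : Set L := (A ∪ B) ∪ C
  have hK : #K = ℵ₁ := by
    apply le_antisymm
    · refine (mk_union_le _ _).trans (add_le_of_le aleph0_lt_aleph_one.le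
        ((mk_union_le _ _).trans (add_le_of_le aleph0_lt_aleph_one.le ?_ hB.le)) ?_)
      · exact (Cardinal.le_aleph0_iff_set_countable.2 hAc).trans aleph0_lt_aleph_one.le
      · exact (Cardinal.le_aleph0_iff_set_countable.2 hCc).trans aleph0_lt_aleph_one.le
    · rw [← hB]
      exact mk_le_mk_of_subset (fun x hx => Or.inl (Or.inr hx))
  refine ⟨K, hK, ?_⟩
  -- the map to the rationals
  have hinj := hg.injective
  let h : L → ℚ := fun x =>
    if hx : ∃ q : ℚ, q < 0 ∧ g q = x then hx.choose
    else if hx : ∃ q : ℚ, 1 < q ∧ g q = x then hx.choose - 1 else 0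
  have hlow : ∀ q : ℚ, q < 0 → h (g q) = q := by
    intro q hq
    have hx : ∃ q' : ℚ, q' < 0 ∧ g q' = g q := ⟨q, hq, rfl⟩
    simp only [h, dif_pos hx]
    exact hinj hx.choose_spec.2
  have hhigh : ∀ q : ℚ, 1 < q → h (g q) = q - 1 := by
    intro q hq
    have hx0 : ¬ ∃ q' : ℚ, q' < 0 ∧ g q' = g q := by
      rintro ⟨q', hq', he⟩
      have := hinj he
      linarith
    have hx : ∃ q' : ℚ, 1 < q' ∧ g q' = g q := ⟨q, hq, rfl⟩
    simp only [h, dif_neg hx0, dif_pos hx]
    rw [hinj hx.choose_spec.2]
  have hmid : ∀ b ∈ B, h b = 0 := by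
    intro b hb
    have hb' := hBsub hb
    have hx0 : ¬ ∃ q' : ℚ, q' < 0 ∧ g q' = b := by
      rintro ⟨q', hq', rfl⟩
      exact absurd (hg hq') (not_lt.2 hb'.1)
    have hx1 : ¬ ∃ q' : ℚ, 1 < q' ∧ g q' = b := by
      rintro ⟨q', hq', rfl⟩
      exact absurd (hg hq') (not_lt.2 hb'.2)
    simp only [h, dif_neg hx0, dif_neg hx1]
  refine ⟨fun x => h x.1, ?_, ?_⟩
  · rintro ⟨x, hx⟩ ⟨y, hy⟩ hxy
    have hxy' : x ≤ y := hxy
    show h x ≤ h y
    rcases hx with (⟨p, hp, rfl⟩ | hx) | ⟨p, hp, rfl⟩ <;>
    rcases hy with (⟨q, hq, rfl⟩ | hy) | ⟨q, hq, rfl⟩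
    · rw [hlow p hp, hlow q hq]
      exact hg.le_iff_le.1 hxy'
    · rw [hlow p hp, hmid y hy]
      exact le_of_lt hp
    · rw [hlow p hp, hhigh q hq]
      have h5 : p < 0 := hp
      have h6 : 1 < q := hq
      linarith
    · rw [hlow q hq, hmid x hx]
      have h5 : g q < g 0 := hg hq
      exact absurd (h5.trans_le ((hBsub hx).1.trans hxy')) (lt_irrefl _)
    · rw [hmid x hx, hmid y hy]
    · rw [hmid x hx, hhigh q hq]
      have h6 : 1 < q := hq
      linarith
    · have h5 : p < 0 ∨ 1 < p := Or.inr hp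
      have h6 : q < 0 := hq
      have h7 : p ≤ q := hg.le_iff_le.1 hxy'
      have h8 : 1 < p := hp
      linarith
    · have h8 : g 1 < g p := hg hp
      exact absurd (h8.trans_le (hxy'.trans (hBsub hy).2)) (lt_irrefl _)
    · rw [hhigh p hp, hhigh q hq]
      have := hg.le_iff_le.1 hxy'
      linarith
  · intro q
    rcases lt_trichotomy q 0 with hq | hq | hq
    · exact ⟨⟨g q, Or.inl (Or.inl ⟨q, hq, rfl⟩)⟩, hlow q hq⟩
    · obtain ⟨b, hb⟩ := hBne
      refine ⟨⟨b, Or.inl (Or.inr hb)⟩, ?_⟩
      rw [hq]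
      exact hmid b hb
    · refine ⟨⟨g (q + 1), Or.inr ⟨q + 1, ?_, rfl⟩⟩, ?_⟩
      · show 1 < q + 1
        linarith
      · show h (g (q + 1)) = q
        rw [hhigh (q + 1) (by linarith)]
        ring

end

/-- The negation of the preceding statement: There is a linear order L with no uncountable well-ordered or reverse-well-ordered subset, of size at least aleph_1, mapping monotonically onto every size-aleph_1 linear order embeddable in it, but with no monotone surjection onto the rationals. -/
theorem result :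
    ¬ (∃ (L : Type) (_ : LinearOrder L),
      (∀ S : Set L, S.WellFoundedOn (· < ·) → S.Countable) ∧
      (∀ S : Set L, S.WellFoundedOn (· > ·) → S.Countable) ∧
      Cardinal.aleph 1 ≤ Cardinal.mk L ∧
      (∀ (K : Type) [LinearOrder K], Cardinal.mk K = Cardinal.aleph 1 →
          Nonempty (K ↪o L) → ∃ f : L → K, Monotone f ∧ Function.Surjective f) ∧
      ¬ ∃ f : L → ℚ, Monotone f ∧ Function.Surjective f) := by
  rintro ⟨L, _, h1, h2, h3, h4, h5⟩
  have h3' : ¬ (univ : Set L).Countable := by
    intro hc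
    have h6 : #L ≤ ℵ₀ := by
      rw [← mk_univ]
      exact Cardinal.le_aleph0_iff_set_countable.2 hc
    exact absurd (h3.trans h6) (not_le.2 aleph0_lt_aleph_one)
  obtain ⟨K, hK, f, hf, hf'⟩ := main h1 h2 h3'
  obtain ⟨k, hk, hk'⟩ := h4 K hK ⟨OrderEmbedding.subtype _⟩
  exact h5 ⟨f ∘ k, hf.comp hk, hf'.comp hk'⟩

end Pool.Agent.S15550
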