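import Pool.Statements.S15622
import Pool.Agent.TH744.Sm.Non

set_option autoImplicit false
open Pool Pool.MP_f548aa_lc

namespace Pool.Agent.S15622

/-- The negation of the preceding statement: For any two Π^0_1 classes P, Q of infinite binary sequences, neither the whole space, the posets under inclusion of Π^0_1 classes containing P and of those containing Q are order-isomorphic. -/
theorem result :
    ¬ (∀ P Q : Set (ℕ → Bool),
      (∃ T : List Bool → Bool, Computable T ∧
          P = {x : ℕ → Bool | ∀ n : ℕ, T ((List.range n).map x) = true}) →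
      (∃ T : List Bool → Bool, Computable T ∧
          Q = {x : ℕ → Bool | ∀ n : ℕ, T ((List.range n).map x) = true}) →
      P ≠ Set.univ → Q ≠ Set.univ →
      Nonempty
        ({S : Set (ℕ → Bool) //
            (∃ T : List Bool → Bool, Computable T ∧
              S = {x : ℕ → Bool | ∀ n : ℕ, T ((List.range n).map x) = true}) ∧ P ⊆ S} ≃o
         {S : Set (ℕ → Bool) //
            (∃ T : List Bool → Bool, Computable T ∧
              S = {x : ℕ → Bool | ∀ n : ℕ, T ((List.range n).map x) = true}) ∧ Q ⊆ S})) := by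
  intro H
  have h1 : (∅ : Set (ℕ → Bool)) ≠ Set.univ := by
    intro h
    have : (fun _ => false : ℕ → Bool) ∈ (∅ : Set (ℕ → Bool)) := h ▸ Set.mem_univ _
    exact this
  have h2 : ({Pool.Agent.TH744.Sm.zer} : Set (ℕ → Bool)) ≠ Set.univ := by
    intro h
    have h3 : (fun _ => true : ℕ → Bool) ∈ ({Pool.Agent.TH744.Sm.zer} : Set (ℕ → Bool)) :=
      h ▸ Set.mem_univ _
    have h4 := congrFun (Set.mem_singleton_iff.1 h3) 0
    simp [Pool.Agent.TH744.Sm.zer] at h4
  exact Pool.Agent.TH744.Sm.not_iso
    (H ∅ {Pool.Agent.TH744.Sm.zer} Pool.Agent.TH744.Sm.pi_empty Pool.Agent.TH744.Sm.pi_zer h1 h2)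

end Pool.Agent.S15622
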