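import Pool.Statements.S15640
import Pool.Agent.TH767.Hom

set_option autoImplicit false
open FirstOrder FirstOrder.Language
open Pool Pool.MP_faa25e_lc

namespace Pool.Agent.S15640

/-- The negation of the preceding statement: For every characterizable cardinal κ (via Scott sentences of countable structures, models meaning back-and-forth equivalent structures), κ is not homogeneously characterizable exactly when κ has countable cofinality. -/
theorem result :
    ¬ (∀ κ : Cardinal.{0},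
      (Cardinal.aleph0 ≤ κ ∧
        ∃ (L : FirstOrder.Language.{0,0}) (M : Type) (_ : L.Structure M),
          L.card ≤ Cardinal.aleph0 ∧ Countable M ∧
          (∀ μ : Cardinal.{0}, Cardinal.aleph0 ≤ μ → μ ≤ κ →
            ∃ (A : Type) (_ : L.Structure A), Cardinal.mk A = μ ∧
              (∃ S : Set (L.PartialEquiv M A), S.Nonempty ∧ (∀ f ∈ S, f.dom.FG) ∧
                (∀ f ∈ S, ∀ m : M, ∃ g ∈ S, f ≤ g ∧ m ∈ g.dom) ∧
                (∀ f ∈ S, ∀ a : A, ∃ g ∈ S, f ≤ g ∧ a ∈ g.cod))) ∧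
          (∀ (A : Type) (_ : L.Structure A),
            (∃ S : Set (L.PartialEquiv M A), S.Nonempty ∧ (∀ f ∈ S, f.dom.FG) ∧
                (∀ f ∈ S, ∀ m : M, ∃ g ∈ S, f ≤ g ∧ m ∈ g.dom) ∧
                (∀ f ∈ S, ∀ a : A, ∃ g ∈ S, f ≤ g ∧ a ∈ g.cod)) →
            Cardinal.mk A ≠ Order.succ κ)) →
      ((¬ ∃ (L : FirstOrder.Language.{0,0}) (M : Type) (_ : L.Structure M),
          L.card ≤ Cardinal.aleph0 ∧ Countable M ∧
          ∃ P : L.Relations 1,
            Set.Infinite {x : M | Structure.RelMap P ![x]} ∧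
            (∀ σ : Equiv.Perm {x : M // Structure.RelMap P ![x]},
              ∃ e : L.Equiv M M, ∀ x : {x : M // Structure.RelMap P ![x]}, e x.1 = (σ x).1) ∧
            (∀ (A : Type) (_ : L.Structure A),
              (∃ S : Set (L.PartialEquiv M A), S.Nonempty ∧ (∀ f ∈ S, f.dom.FG) ∧
                (∀ f ∈ S, ∀ m : M, ∃ g ∈ S, f ≤ g ∧ m ∈ g.dom) ∧
                (∀ f ∈ S, ∀ a : A, ∃ g ∈ S, f ≤ g ∧ a ∈ g.cod)) →
              Cardinal.mk A ≤ κ) ∧
            (∃ (A : Type) (_ : L.Structure A),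
              (∃ S : Set (L.PartialEquiv M A), S.Nonempty ∧ (∀ f ∈ S, f.dom.FG) ∧
                (∀ f ∈ S, ∀ m : M, ∃ g ∈ S, f ≤ g ∧ m ∈ g.dom) ∧
                (∀ f ∈ S, ∀ a : A, ∃ g ∈ S, f ≤ g ∧ a ∈ g.cod)) ∧
              Cardinal.mk {a : A // Structure.RelMap P ![a]} = κ))
        ↔ κ.ord.cof = Cardinal.aleph0)) := by
  intro hall
  have main : ∀ μ : Cardinal.{0}, Cardinal.aleph0 ≤ μ → μ ≤ Cardinal.beth Ordinal.omega0 →
      ∃ (V P : Type) (π : V → P) (c : Pool.Agent.TH767.Col V), Pool.Agent.TH767.Mdl π c ∧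
        Cardinal.mk V = μ ∧ Cardinal.mk P = μ := by
    intro μ h1 h2
    have hP : Cardinal.mk μ.out = μ := Cardinal.mk_out μ
    have hinf : Infinite μ.out := by
      rw [Cardinal.infinite_iff, hP]; exact h1
    obtain ⟨c, hc⟩ := Pool.Agent.TH767.exists_mdl μ.out (by rw [hP]; exact h2)
    exact ⟨_, _, _, c, hc, (Pool.Agent.TH767.mk_T _).trans hP, hP⟩
  have hsum : ∀ μ : Cardinal.{0}, Cardinal.aleph0 ≤ μ → ∀ (V P : Type) (π : V → P)
      (c : Pool.Agent.TH767.Col V), Cardinal.mk V = μ → Cardinal.mk P = μ →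
      Cardinal.mk (Pool.Agent.TH767.Car π c) = μ := by
    intro μ h V P π c hV hP
    change Cardinal.mk (V ⊕ P) = μ
    rw [Cardinal.mk_sum, Cardinal.lift_id, Cardinal.lift_id, hV, hP, Cardinal.add_eq_self h]
  obtain ⟨V, P, π, c, hM, hV, hP⟩ := main Cardinal.aleph0 le_rfl (Cardinal.aleph0_le_beth _)
  have hVc : Countable V := Cardinal.mk_le_aleph0_iff.1 hV.le
  have hMc : Countable (Pool.Agent.TH767.Car π c) :=
    Cardinal.mk_le_aleph0_iff.1 (hsum _ le_rfl V P π c hV hP).le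
  have hPi : Infinite P := hM.inf
  have hcof : (Cardinal.beth Ordinal.omega0 : Cardinal.{0}).ord.cof = Cardinal.aleph0 := by
    have h1 := Ordinal.cof_map_of_isNormal
      (f := fun o : Ordinal.{0} => (Cardinal.beth o : Cardinal.{0}).ord)
      (Cardinal.isNormal_ord.comp Cardinal.isNormal_beth) Ordinal.isSuccLimit_omega0
    exact h1.trans Ordinal.cof_omega0
  refine (hall (Cardinal.beth Ordinal.omega0) ⟨Cardinal.aleph0_le_beth _,
    Pool.Agent.TH767.Lg, Pool.Agent.TH767.Car π c, inferInstance,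
    Pool.Agent.TH767.card_Lg, hMc, ?_, ?_⟩).2 hcof ?_
  · intro μ h1 h2
    obtain ⟨V', P', π', c', hM', hV', hP'⟩ := main μ h1 h2
    exact ⟨Pool.Agent.TH767.Car π' c', inferInstance, hsum μ h1 V' P' π' c' hV' hP',
      Pool.Agent.TH767.bfe_mdl hM hM'⟩
  · intro A _ h hA
    have h1 := Pool.Agent.TH767.card_le_of_bfe hM h
    rw [hA] at h1
    exact absurd (Order.lt_succ (Cardinal.beth Ordinal.omega0 : Cardinal.{0})) (not_lt.2 h1)
  · refine ⟨Pool.Agent.TH767.Lg, Pool.Agent.TH767.Car π c, inferInstance,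
      Pool.Agent.TH767.card_Lg, hMc, (Pool.Agent.TH767.Rl.isP : Pool.Agent.TH767.Lg.Relations 1),
      ?_, ?_, ?_, ?_⟩
    · have h1 : Infinite {x : Pool.Agent.TH767.Car π c //
          Structure.RelMap (L := Pool.Agent.TH767.Lg)
            (Pool.Agent.TH767.Rl.isP : Pool.Agent.TH767.Lg.Relations 1) ![x]} :=
        (Pool.Agent.TH767.pEquiv π c).infinite_iff.1 hPi
      exact Set.infinite_coe_iff.1 h1
    · intro σ
      exact Pool.Agent.TH767.exists_aut hM σ
    · intro A _ h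
      exact Pool.Agent.TH767.card_le_of_bfe hM h
    · obtain ⟨V', P', π', c', hM', hV', hP'⟩ :=
        main (Cardinal.beth Ordinal.omega0) (Cardinal.aleph0_le_beth _) le_rfl
      refine ⟨Pool.Agent.TH767.Car π' c', inferInstance, Pool.Agent.TH767.bfe_mdl hM hM', ?_⟩
      rw [← Cardinal.mk_congr (Pool.Agent.TH767.pEquiv π' c'), hP']

end Pool.Agent.S15640
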