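import Pool.Statements.S15767
import Pool.Agent.TH793.SB.Main
-- import your own Pool.Agent.* helpers here

set_option autoImplicit false
open MeasureTheory
open Pool Pool.MP_a03d92_mp

namespace Pool.Agent.S15767

/-- For some d≥1 and finite spin set there is a translation-invariant finite-range lattice-gas interaction with exactly one ground-state measure, which is non-periodic and remains a ground-state measure under every small finite-range perturbation. -/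
theorem result :
  ∃ d : ℕ, 1 ≤ d ∧ ∃ n : ℕ,
    ∃ Adm : (Finset (Fin d → ℤ) → ((Fin d → ℤ) → Fin n) → ℝ) → Prop,
    (∀ Φ, Adm Φ ↔
      (∀ (Λ : Finset (Fin d → ℤ)) (X Y : (Fin d → ℤ) → Fin n),
          (∀ i ∈ Λ, X i = Y i) → Φ Λ X = Φ Λ Y) ∧
      (∀ (Λ : Finset (Fin d → ℤ)) (X : (Fin d → ℤ) → Fin n) (a : Fin d → ℤ),
          Φ (Λ.image (fun i => i + a)) (fun i => X (i - a)) = Φ Λ X) ∧
      (∃ R : ℕ, ∀ Λ : Finset (Fin d → ℤ),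
          (∃ i ∈ Λ, ∃ j ∈ Λ, ∃ k : Fin d, (R : ℤ) < |i k - j k|) →
          ∀ X : (Fin d → ℤ) → Fin n, Φ Λ X = 0)) ∧
    ∃ GSM : (Finset (Fin d → ℤ) → ((Fin d → ℤ) → Fin n) → ℝ) →
        Measure ((Fin d → ℤ) → Fin n) → Prop,
    (∀ Φ μ, GSM Φ μ ↔
      IsProbabilityMeasure μ ∧
      (∀ a : Fin d → ℤ,
          μ.map (fun X : (Fin d → ℤ) → Fin n => fun i => X (i - a)) = μ) ∧
      (∀ᵐ X ∂μ, ∀ Y : (Fin d → ℤ) → Fin n, {i | Y i ≠ X i}.Finite →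
          0 ≤ ∑ᶠ Λ : Finset (Fin d → ℤ), (Φ Λ Y - Φ Λ X))) ∧
    ∃ Φ, Adm Φ ∧ ∃ μ, GSM Φ μ ∧ (∀ ν, GSM Φ ν → ν = μ) ∧
      μ {X | ∃ a : Fin d → ℤ, a ≠ 0 ∧ (fun i => X (i - a)) = X} = 0 ∧
      ∀ Φ', Adm Φ' → ∃ ε₀ : ℝ, 0 < ε₀ ∧ ∀ ε : ℝ, 0 ≤ ε → ε < ε₀ →
        GSM (fun Λ X => Φ Λ X + ε * Φ' Λ X) μ := by
  exact TH989.J591.s15767_of TH793.SB.sbcMain TH793.SB.noPer TH793.SB.exist TH793.SB.countDiff
    TH793.SB.uniqMeas TH793.SB.invMeas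

end Pool.Agent.S15767
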