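import Pool.Statements.S16808
import Pool.Agent.TH851.Pair

set_option autoImplicit false
open Pool Pool.MP_493793_nt

namespace Pool.Agent.S16808

/-- The negation of the preceding statement: For each ε>0 and constants c_j,C_j>0 there is K: if 2≤N≤N'≤2N, F≥N, f smooth on [N,2N] with c_j F/N^j ≤ ∣f^(j)∣ ≤ C_j F/N^j for all j≥0, then ∣Σ_{N≤n≤N'} e(f(n))∣ ≤ K N^{1/2} F^ε. -/
theorem result :
    ¬ (∀ ε : ℝ, 0 < ε → ∀ c C : ℕ → ℝ, (∀ j, 0 < c j) → (∀ j, 0 < C j) →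
      ∃ K : ℝ, ∀ N N' F : ℝ, ∀ f : ℝ → ℝ,
        2 ≤ N → N ≤ N' → N' ≤ 2 * N → N ≤ F →
        ContDiffOn ℝ (⊤ : ℕ∞) f (Set.Icc N (2 * N)) →
        (∀ j : ℕ, ∀ x ∈ Set.Icc N (2 * N),
            c j * F / N ^ j ≤ |iteratedDerivWithin j f (Set.Icc N (2 * N)) x| ∧
            |iteratedDerivWithin j f (Set.Icc N (2 * N)) x| ≤ C j * F / N ^ j) →
        ‖∑ n ∈ Finset.Icc ⌈N⌉₊ ⌊N'⌋₊,
            Complex.exp (2 * (Real.pi : ℂ) * Complex.I * ((f (n : ℝ) : ℝ) : ℂ))‖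
          ≤ K * N ^ (1 / 2 : ℝ) * F ^ ε) := by
  intro hall
  obtain ⟨K, hK⟩ := hall (1 / 12) (by norm_num) TH851.cLow TH851.cUp TH851.cLow_pos TH851.cUp_pos
  obtain ⟨N, N', hN, hNN', hN', hlt⟩ := TH851.exceed (5 / 8) (by norm_num) K
  have hN0 : 0 < N := by linarith
  have hNF : N ≤ N ^ (3 / 2 : ℝ) := by
    calc N = N ^ (1 : ℝ) := (Real.rpow_one N).symm
      _ ≤ N ^ (3 / 2 : ℝ) := Real.rpow_le_rpow_of_exponent_le (by linarith) (by norm_num)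
  have h := hK N N' (N ^ (3 / 2 : ℝ)) TH851.f0 hN hNN' hN' hNF (TH851.contDiff_f0 hN)
    (TH851.adm_f0 hN)
  have h1 : K * N ^ (1 / 2 : ℝ) * (N ^ (3 / 2 : ℝ)) ^ (1 / 12 : ℝ) = K * N ^ (5 / 8 : ℝ) := by
    rw [← Real.rpow_mul hN0.le, mul_assoc, ← Real.rpow_add hN0]
    norm_num
  rw [h1] at h
  exact absurd h (not_le.2 hlt)

end Pool.Agent.S16808
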