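import Pool.Statements.S16891
import Pool.Agent.TH843.PY.Main

set_option autoImplicit false
open Pool Pool.MP_4e97f5_nt

namespace Pool.Agent.S16891

/-- For every n ≥ 1 there is an infinite-degree totally real algebraic extension of ℚ whose ring of integers has Pythagoras number exactly n. -/
theorem result :
    ∀ n : ℕ, 1 ≤ n →
      ∃ (K : Type) (_ : Field K) (_ : CharZero K),
        Algebra.IsAlgebraic ℚ K ∧
        ¬ FiniteDimensional ℚ K ∧
        (∀ φ : K →+* ℂ, ∀ x : K, (φ x).im = 0) ∧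
        (∀ x : K,
          (∃ m : ℕ, ∃ g : Fin m → K, (∀ i, IsIntegral ℤ (g i)) ∧ x = ∑ i, g i ^ 2) →
          ∃ f : Fin n → K, (∀ i, IsIntegral ℤ (f i)) ∧ x = ∑ i, f i ^ 2) ∧
        (∃ x : K,
          (∃ m : ℕ, ∃ g : Fin m → K, (∀ i, IsIntegral ℤ (g i)) ∧ x = ∑ i, g i ^ 2) ∧
          ∀ f : Fin (n - 1) → K, (∀ i, IsIntegral ℤ (f i)) → x ≠ ∑ i, f i ^ 2) :=
  Pool.Agent.TH843.PY.target_all

end Pool.Agent.S16891
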