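import Pool.Statements.S16940

set_option autoImplicit false
open Complex DirichletCharacter
open Pool Pool.MP_50d0fc_nt

namespace Pool.Agent.S16940

open Filter Topology Set

set_option linter.unusedSectionVars false

variable {q : ℕ} [NeZero q] (χ : DirichletCharacter ℂ q)

lemma LFunction_conj (s : ℂ) (hs : s ≠ 1) :
    DirichletCharacter.LFunction χ⁻¹ ((starRingEnd ℂ) s) =
      (starRingEnd ℂ) (DirichletCharacter.LFunction χ s) := by
  have hg_an : AnalyticOnNhd ℂ (fun z ↦ (starRingEnd ℂ)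
      (DirichletCharacter.LFunction χ⁻¹ ((starRingEnd ℂ) z))) {1}ᶜ :=
    DifferentiableOn.analyticOnNhd
      (fun z hz ↦ (differentiableAt_conj_conj_iff.mpr <|
        DirichletCharacter.differentiableAt_LFunction _ _ (Or.inl <|
        (map_ne_one_iff _ (starRingEnd ℂ).injective).mpr hz)).differentiableWithinAt)
      isOpen_compl_singleton
  have hf_an : AnalyticOnNhd ℂ (DirichletCharacter.LFunction χ) {1}ᶜ :=
    DifferentiableOn.analyticOnNhd
      (fun z hz ↦ (DirichletCharacter.differentiableAt_LFunction _ _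
        (Or.inl hz)).differentiableWithinAt) isOpen_compl_singleton
  have hgz (z : ℂ) (hz : 1 < z.re) : (starRingEnd ℂ)
      (DirichletCharacter.LFunction χ⁻¹ ((starRingEnd ℂ) z)) = DirichletCharacter.LFunction χ z := by
    rw [DirichletCharacter.LFunction_eq_LSeries _ (by rwa [conj_re]),
      DirichletCharacter.LFunction_eq_LSeries _ hz, LSeries, LSeries, conj_tsum]
    refine tsum_congr fun n ↦ ?_
    rcases eq_or_ne n 0 with rfl | hn
    · simp
    · rw [LSeries.term_of_ne_zero hn, LSeries.term_of_ne_zero hn, map_div₀,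
        ← conj_cpow _ _ (by rw [natCast_arg]; positivity), conj_natCast,
        ← MulChar.star_apply']
      simp
  have heq : EqOn (fun z ↦ (starRingEnd ℂ)
      (DirichletCharacter.LFunction χ⁻¹ ((starRingEnd ℂ) z))) (DirichletCharacter.LFunction χ) {1}ᶜ :=
    hg_an.eqOn_of_preconnected_of_eventuallyEq hf_an
      (isConnected_compl_singleton_of_one_lt_rank (by simp) 1).isPreconnected
      (by norm_num : (2 : ℂ) ∈ _)
      (eventuallyEq_of_mem
        ((isOpen_lt continuous_const continuous_re).mem_nhds (by norm_num)) hgz)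
  simpa using congrArg (starRingEnd ℂ) (heq hs)

variable {χ}

lemma inv_even_iff : (χ⁻¹).Even ↔ χ.Even := by
  unfold DirichletCharacter.Even
  rw [MulChar.inv_apply_eq_inv', inv_eq_one]

lemma gammaFactor_inv (s : ℂ) :
    DirichletCharacter.gammaFactor χ⁻¹ s = DirichletCharacter.gammaFactor χ s := by
  by_cases h : χ.Even
  · rw [DirichletCharacter.Even.gammaFactor_def h, DirichletCharacter.Even.gammaFactor_def
      (inv_even_iff.mpr h)]
  · have h' : ¬ (χ⁻¹).Even := fun h2 => h (inv_even_iff.mp h2)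
    simp [DirichletCharacter.gammaFactor, h, h']

/-- the archimedean factor with shift `a` -/
noncomputable def gam (a : ℂ) (s : ℂ) : ℂ := Gammaℝ (s + a)

lemma gammaFactor_cases : (∀ s, DirichletCharacter.gammaFactor χ s = gam 0 s) ∨
    (∀ s, DirichletCharacter.gammaFactor χ s = gam 1 s) := by
  unfold DirichletCharacter.gammaFactor gam
  by_cases h : χ.Even
  · left; intro s; simp [h]
  · right; intro s; simp [h]

lemma gammaFactor_ne_zero {s : ℂ} (hs : 0 < s.re) : DirichletCharacter.gammaFactor χ s ≠ 0 := by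
  rcases gammaFactor_cases (χ := χ) with h | h
  · rw [h]; exact Gammaℝ_ne_zero_of_re_pos (by simpa using hs)
  · rw [h]; exact Gammaℝ_ne_zero_of_re_pos (by simp; linarith)

lemma diffAt_Gammaℝ {s : ℂ} (hs : 0 < s.re) : DifferentiableAt ℂ Gammaℝ s := by
  have h1 := (differentiable_Gammaℝ_inv s).inv (inv_ne_zero (Gammaℝ_ne_zero_of_re_pos hs))
  simpa [Pi.inv_def] using h1

lemma diffAt_gammaFactor {s : ℂ} (hs : 0 < s.re) :
    DifferentiableAt ℂ (DirichletCharacter.gammaFactor χ) s := by
  rcases gammaFactor_cases (χ := χ) with h | h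
  · rw [funext h]
    exact DifferentiableAt.fun_comp' (f := fun s => s + 0) s
      (diffAt_Gammaℝ (by simpa using hs)) (by fun_prop)
  · rw [funext h]
    exact DifferentiableAt.fun_comp' (f := fun s => s + 1) s
      (diffAt_Gammaℝ (by simp; linarith)) (by fun_prop)

lemma completed_eq {s : ℂ} (hs : 0 < s.re) : DirichletCharacter.completedLFunction χ s =
    DirichletCharacter.LFunction χ s * DirichletCharacter.gammaFactor χ s := by
  have hs0 : s ≠ 0 := by rintro rfl; simp at hs
  rw [DirichletCharacter.LFunction_eq_completed_div_gammaFactor χ s (Or.inl hs0),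
    div_mul_cancel₀ _ (gammaFactor_ne_zero hs)]

/-- The real part of the logarithmic derivative at `1/2` is determined by the functional equation. -/
lemma key (hprim : χ.IsPrimitive) (h1 : χ ≠ 1) (hL : LFunction χ (1 / 2) ≠ 0) :
    2 * (deriv (LFunction χ) (1 / 2) / LFunction χ (1 / 2)).re =
      -Real.log q - 2 * (logDeriv (DirichletCharacter.gammaFactor χ) (1 / 2)).re := by
  have h1' : χ⁻¹ ≠ 1 := fun h => h1 (inv_eq_one.1 h)
  have hq0 : (q : ℂ) ≠ 0 := by exact_mod_cast NeZero.ne q
  have hd : Differentiable ℂ (LFunction χ) := differentiable_LFunction h1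
  have hd' : Differentiable ℂ (LFunction χ⁻¹) := differentiable_LFunction h1'
  have hhalf : (0 : ℝ) < ((1 / 2 : ℂ)).re := by norm_num
  have hg0 : DirichletCharacter.gammaFactor χ (1 / 2) ≠ 0 := gammaFactor_ne_zero hhalf
  have hgd : DifferentiableAt ℂ (DirichletCharacter.gammaFactor χ) (1 / 2) :=
    diffAt_gammaFactor hhalf
  -- conjugation
  have hcv : LFunction χ⁻¹ (1 / 2) = (starRingEnd ℂ) (LFunction χ (1 / 2)) := by
    have := LFunction_conj χ (1 / 2) (by norm_num)
    rwa [show (starRingEnd ℂ) (1 / 2 : ℂ) = 1 / 2 by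
      rw [map_div₀, map_one, Complex.conj_ofNat]] at this
  have hcd : deriv (LFunction χ⁻¹) (1 / 2) = (starRingEnd ℂ) (deriv (LFunction χ) (1 / 2)) := by
    have h2 : HasDerivAt (LFunction χ) (deriv (LFunction χ) (1 / 2)) ((starRingEnd ℂ) (1 / 2)) := by
      rw [show (starRingEnd ℂ) (1 / 2 : ℂ) = 1 / 2 by
        rw [map_div₀, map_one, Complex.conj_ofNat]]
      exact (hd _).hasDerivAt
    have h3 := h2.conj_conj
    rw [Complex.conj_conj] at h3
    have h4 : (⇑(starRingEnd ℂ) ∘ LFunction χ ∘ ⇑(starRingEnd ℂ)) =ᶠ[𝓝 (1 / 2 : ℂ)]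
        LFunction χ⁻¹ := by
      have h5 : ∀ᶠ s : ℂ in 𝓝 (1 / 2 : ℂ), (starRingEnd ℂ) s ≠ 1 := by
        have h6 : IsOpen {s : ℂ | (starRingEnd ℂ) s ≠ 1} :=
          isOpen_ne_fun continuous_conj continuous_const
        refine h6.mem_nhds ?_
        show (starRingEnd ℂ) (1 / 2 : ℂ) ≠ 1
        rw [map_div₀, map_one, Complex.conj_ofNat]
        norm_num
      filter_upwards [h5] with s hs
      have h7 := LFunction_conj χ _ hs
      rw [Complex.conj_conj] at h7
      exact h7.symm
    exact (h3.congr_of_eventuallyEq h4.symm).deriv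
  have hL' : LFunction χ⁻¹ (1 / 2) ≠ 0 := by
    rw [hcv]; exact (map_ne_zero _).2 hL
  -- the functional equation near `1/2`
  set W := rootNumber χ with hW
  have hfe : (fun s : ℂ => LFunction χ (1 - s) * DirichletCharacter.gammaFactor χ (1 - s)) =ᶠ[𝓝 (1 / 2 : ℂ)]
      fun s : ℂ => (q : ℂ) ^ (s - 1 / 2) * W * (LFunction χ⁻¹ s * DirichletCharacter.gammaFactor χ s) := by
    have h5 : ∀ᶠ s : ℂ in 𝓝 (1 / 2 : ℂ), 0 < s.re ∧ 0 < (1 - s).re := by
      have h6 : IsOpen {s : ℂ | 0 < s.re ∧ 0 < (1 - s).re} :=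
        (isOpen_lt continuous_const continuous_re).inter
          (isOpen_lt continuous_const (continuous_re.comp (continuous_const.sub continuous_id)))
      exact h6.mem_nhds ⟨by norm_num, by norm_num⟩
    filter_upwards [h5] with s hs
    rw [← completed_eq hs.2, ← gammaFactor_inv s, ← completed_eq hs.1]
    exact hprim.completedLFunction_one_sub s
  have hW0 : W ≠ 0 := by
    intro h0
    have h2 := hfe.eq_of_nhds
    simp only [h0, mul_zero, zero_mul] at h2
    rw [show (1 : ℂ) - 1 / 2 = 1 / 2 by norm_num] at h2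
    exact (mul_ne_zero hL hg0) h2
  -- logarithmic derivatives
  have hl : logDeriv (fun s : ℂ => LFunction χ (1 - s) * DirichletCharacter.gammaFactor χ (1 - s)) (1 / 2) =
      -(logDeriv (LFunction χ) (1 / 2) + logDeriv (DirichletCharacter.gammaFactor χ) (1 / 2)) := by
    have e : (1 : ℂ) - 1 / 2 = 1 / 2 := by norm_num
    have hdl : HasDerivAt (fun s : ℂ => LFunction χ (1 - s)) (-(deriv (LFunction χ) (1 / 2))) (1 / 2) := by
      have := HasDerivAt.comp_const_sub (1 : ℂ) (1 / 2 : ℂ)
        (f := LFunction χ) (f' := deriv (LFunction χ) (1 / 2)) (by rw [e]; exact (hd _).hasDerivAt)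
      exact this
    have hdg : HasDerivAt (fun s : ℂ => DirichletCharacter.gammaFactor χ (1 - s))
        (-(deriv (DirichletCharacter.gammaFactor χ) (1 / 2))) (1 / 2) := by
      have := HasDerivAt.comp_const_sub (1 : ℂ) (1 / 2 : ℂ)
        (f := DirichletCharacter.gammaFactor χ)
        (f' := deriv (DirichletCharacter.gammaFactor χ) (1 / 2)) (by rw [e]; exact hgd.hasDerivAt)
      exact this
    have hdd := (hdl.mul hdg).deriv
    simp only [Pi.mul_def] at hdd
    rw [logDeriv_apply, hdd, logDeriv_apply, logDeriv_apply, e]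
    field_simp
    ring
  have hr : logDeriv (fun s : ℂ => (q : ℂ) ^ (s - 1 / 2) * W *
      (LFunction χ⁻¹ s * DirichletCharacter.gammaFactor χ s)) (1 / 2) =
      Complex.log q + logDeriv (LFunction χ⁻¹) (1 / 2) +
        logDeriv (DirichletCharacter.gammaFactor χ) (1 / 2) := by
    have hdq : HasDerivAt (fun s : ℂ => (q : ℂ) ^ (s - 1 / 2)) ((q : ℂ) ^ ((1 / 2 : ℂ) - 1 / 2) *
        Complex.log q * 1) (1 / 2) :=
      HasDerivAt.const_cpow ((hasDerivAt_id (1 / 2 : ℂ)).sub_const (1 / 2)) (Or.inl hq0)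
    have hdd := (hdq.mul_const W).mul ((hd' (1 / 2)).hasDerivAt.mul hgd.hasDerivAt)
    have e3 : (q : ℂ) ^ ((1 / 2 : ℂ) - 1 / 2) = 1 := by rw [sub_self, cpow_zero]
    have := hdd.deriv
    simp only [Pi.mul_def] at this
    rw [logDeriv_apply, this, logDeriv_apply, logDeriv_apply, e3]
    field_simp
    ring
  have hmain : -(logDeriv (LFunction χ) (1 / 2) + logDeriv (DirichletCharacter.gammaFactor χ) (1 / 2)) =
      Complex.log q + logDeriv (LFunction χ⁻¹) (1 / 2) +
        logDeriv (DirichletCharacter.gammaFactor χ) (1 / 2) := by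
    rw [← hl, ← hr]
    rw [logDeriv_apply, logDeriv_apply, hfe.deriv_eq, hfe.eq_of_nhds]
  have hre := congrArg Complex.re hmain
  have hc : logDeriv (LFunction χ⁻¹) (1 / 2) = (starRingEnd ℂ) (logDeriv (LFunction χ) (1 / 2)) := by
    rw [logDeriv_apply, logDeriv_apply, hcd, hcv, map_div₀]
  rw [hc] at hre
  have hlog : (Complex.log q).re = Real.log q := by
    rw [Complex.log_re, Complex.norm_natCast]
  simp only [neg_re, add_re, conj_re, hlog] at hre
  rw [← logDeriv_apply]
  linarith

lemma prim_of_prime (hq : q.Prime) (h1 : χ ≠ 1) : χ.IsPrimitive := by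
  have h2 := conductor_dvd_level χ
  rcases (Nat.dvd_prime hq).1 h2 with h | h
  · exact absurd (eq_one_iff_conductor_eq_one.2 h) h1
  · exact h

/-- The negation of the preceding statement: There are A>0, D>1/2 such that for prime q→∞, uniformly in θ in [0,2π], the max over non-principal χ mod q with L(1/2,χ)≠0 of Re(e^{-iθ}L'/L(1/2,χ)) is asymptotic to A·√(log q)·(log log q)^D. -/
theorem result :
    ¬ (∃ A D : ℝ, 0 < A ∧ 1 / 2 < D ∧
      ∀ ε : ℝ, 0 < ε → ∃ Q : ℕ, ∀ (q : ℕ) [NeZero q], q.Prime → Q ≤ q →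
        ∀ θ : ℝ, θ ∈ Set.Icc (0 : ℝ) (2 * Real.pi) →
          (∀ χ : DirichletCharacter ℂ q, χ ≠ 1 → LFunction χ (1 / 2) ≠ 0 →
            (Complex.exp (-(θ : ℂ) * Complex.I) *
                (deriv (LFunction χ) (1 / 2) / LFunction χ (1 / 2))).re ≤
              (1 + ε) * A * Real.sqrt (Real.log q) * (Real.log (Real.log q)) ^ D) ∧
          (∃ χ : DirichletCharacter ℂ q, χ ≠ 1 ∧ LFunction χ (1 / 2) ≠ 0 ∧
            (1 - ε) * A * Real.sqrt (Real.log q) * (Real.log (Real.log q)) ^ D ≤
              (Complex.exp (-(θ : ℂ) * Complex.I) *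
                (deriv (LFunction χ) (1 / 2) / LFunction χ (1 / 2))).re)) := by
  rintro ⟨A, D, hA, hD, h⟩
  obtain ⟨Q, hQ⟩ := h (1 / 2) (by norm_num)
  set C : ℝ := |2 * (logDeriv (gam 0) (1 / 2)).re| + |2 * (logDeriv (gam 1) (1 / 2)).re| with hC
  obtain ⟨N, hN⟩ := exists_nat_gt (Real.exp (C + 2))
  obtain ⟨q, hqN, hqp⟩ := Nat.exists_infinite_primes (max Q (max N 3))
  have : NeZero q := ⟨hqp.ne_zero⟩
  have hqQ : Q ≤ q := (le_max_left _ _).trans hqN
  have hqN' : N ≤ q := ((le_max_left _ _).trans (le_max_right _ _)).trans hqN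
  have hqe : Real.exp (C + 2) < (q : ℝ) := hN.trans_le (by exact_mod_cast hqN')
  have hlogq : C + 2 < Real.log q := by
    rw [Real.lt_log_iff_exp_lt ((Real.exp_pos _).trans hqe)]
    exact hqe
  have hC0 : 0 ≤ C := by positivity
  obtain ⟨-, χ, h1, hL, hlow⟩ := hQ q hqp hqQ 0 ⟨le_rfl, by positivity⟩
  have hk := key (prim_of_prime hqp h1) h1 hL
  have hpos : 0 ≤ (1 - 1 / 2) * A * Real.sqrt (Real.log q) * (Real.log (Real.log q)) ^ D := by
    have hll : 0 ≤ Real.log (Real.log q) := Real.log_nonneg (by linarith)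
    have := Real.rpow_nonneg hll D
    positivity
  have hre : (Complex.exp (-((0 : ℝ) : ℂ) * Complex.I) *
      (deriv (LFunction χ) (1 / 2) / LFunction χ (1 / 2))).re =
      (deriv (LFunction χ) (1 / 2) / LFunction χ (1 / 2)).re := by
    simp
  rw [hre] at hlow
  have hgam : -C ≤ 2 * (logDeriv (DirichletCharacter.gammaFactor χ) (1 / 2)).re := by
    have ha0 := neg_abs_le (2 * (logDeriv (gam 0) (1 / 2)).re)
    have ha1 := neg_abs_le (2 * (logDeriv (gam 1) (1 / 2)).re)
    have hb0 := abs_nonneg (2 * (logDeriv (gam 0) (1 / 2)).re)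
    have hb1 := abs_nonneg (2 * (logDeriv (gam 1) (1 / 2)).re)
    rcases gammaFactor_cases (χ := χ) with h | h
    · rw [funext h]; linarith
    · rw [funext h]; linarith
  linarith

end Pool.Agent.S16940
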