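import Pool.Statements.S16965
import Pool.Agent.TH923.Y0.Final

set_option autoImplicit false
open Pool Pool.MP_531408_nt

namespace Pool.Agent.S16965

/-- For q=ℓ^n, every monic irreducible 𝔭 in 𝔽_q[T] of degree ≥3 (≥4 if q=3), and every rank-2 Drinfeld module T↦T+gτ+Δτ² over 𝔽_q(T), no Galois-stable A-submodule of φ[𝔭] of size q^deg𝔭 exists. -/
theorem result :
    ∀ (ℓ n : ℕ) [Fact ℓ.Prime], n ≠ 0 →
    ∀ (𝔭 : Polynomial (GaloisField ℓ n)), 𝔭.Monic → Irreducible 𝔭 →
    (if ℓ ^ n = 3 then 4 else 3) ≤ 𝔭.natDegree →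
    ∀ (g Δ : RatFunc (GaloisField ℓ n)), Δ ≠ 0 →
    ¬ ∃ S : Set (AlgebraicClosure (RatFunc (GaloisField ℓ n))),
      S.Finite ∧
      S.ncard = (ℓ ^ n) ^ 𝔭.natDegree ∧
      (0 : AlgebraicClosure (RatFunc (GaloisField ℓ n))) ∈ S ∧
      (∀ x ∈ S, ∀ y ∈ S, x + y ∈ S) ∧
      (∀ a : Polynomial (GaloisField ℓ n), ∀ x ∈ S,
        a.sum (fun (i : ℕ) (c : GaloisField ℓ n) =>
          algebraMap (RatFunc (GaloisField ℓ n)) (AlgebraicClosure (RatFunc (GaloisField ℓ n)))
              (RatFunc.C c) *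
            (fun y : AlgebraicClosure (RatFunc (GaloisField ℓ n)) =>
              algebraMap (RatFunc (GaloisField ℓ n)) (AlgebraicClosure (RatFunc (GaloisField ℓ n)))
                  RatFunc.X * y +
              algebraMap (RatFunc (GaloisField ℓ n)) (AlgebraicClosure (RatFunc (GaloisField ℓ n)))
                  g * y ^ (ℓ ^ n) +
              algebraMap (RatFunc (GaloisField ℓ n)) (AlgebraicClosure (RatFunc (GaloisField ℓ n)))
                  Δ * y ^ ((ℓ ^ n) ^ 2))^[i] x) ∈ S) ∧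
      (∀ x ∈ S,
        𝔭.sum (fun (i : ℕ) (c : GaloisField ℓ n) =>
          algebraMap (RatFunc (GaloisField ℓ n)) (AlgebraicClosure (RatFunc (GaloisField ℓ n)))
              (RatFunc.C c) *
            (fun y : AlgebraicClosure (RatFunc (GaloisField ℓ n)) =>
              algebraMap (RatFunc (GaloisField ℓ n)) (AlgebraicClosure (RatFunc (GaloisField ℓ n)))
                  RatFunc.X * y +
              algebraMap (RatFunc (GaloisField ℓ n)) (AlgebraicClosure (RatFunc (GaloisField ℓ n)))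
                  g * y ^ (ℓ ^ n) +
              algebraMap (RatFunc (GaloisField ℓ n)) (AlgebraicClosure (RatFunc (GaloisField ℓ n)))
                  Δ * y ^ ((ℓ ^ n) ^ 2))^[i] x) = 0) ∧
      (∀ σ : AlgebraicClosure (RatFunc (GaloisField ℓ n)) ≃ₐ[RatFunc (GaloisField ℓ n)]
          AlgebraicClosure (RatFunc (GaloisField ℓ n)),
        ∀ x ∈ S, σ x ∈ S) := by
  intro ℓ n _ hn 𝔭 hm hirr hdeg g Δ hΔ
  rintro ⟨S, hfin, hcard, -, -, hmul, hP, hGal⟩
  have hfinite : Finite (GaloisField ℓ n) := inferInstance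
  exact Pool.Agent.TH923.Y0.main (Fq := GaloisField ℓ n) (q := ℓ ^ n) (GaloisField.card ℓ n hn)
    g Δ (P := 𝔭) hdeg hΔ hirr hm rfl S hfin hcard hmul hP hGal

end Pool.Agent.S16965
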