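-- Proof of frozen statement S17002 (the negation of the Cao, Liu and Zhang uniqueness question).
-- Two distinct prime solutions with s = 10:
--   x = (2, 3, 7, 61, 167, 733, 17137, 183571, 43296350362823, 54276895434139407247582854229)
--   y = (2, 3, 11, 17, 101, 157, 1979, 10093, 16879, 5998279018951962403)
import Pool.Statements.S17002
import Pool.Agent.H354R2.Pratt

set_option autoImplicit false
open Pool Pool.MP_560dd7_nt

namespace Pool.Agent.S17002

open Pool.Agent.H354R2


lemma p183571 : Nat.Prime 183571 := by norm_num
lemma p23911 : Nat.Prime 23911 := by norm_num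
lemma p499493 : Nat.Prime 499493 := by norm_num

lemma p834998657 : Nat.Prime 834998657 :=
  pratt 834998657 3 30 [2, 2, 2, 2, 2, 2, 2, 17, 499, 769]
    (by intro q hq; fin_cases hq <;> norm_num) (by decide +kernel)

lemma p746488799359 : Nat.Prime 746488799359 :=
  pratt 746488799359 7 40 [2, 3, 149, 834998657]
    (by intro q hq; fin_cases hq <;> first | exact p834998657 | norm_num) (by decide +kernel)

lemma p43296350362823 : Nat.Prime 43296350362823 :=
  pratt 43296350362823 5 46 [2, 29, 746488799359]
    (by intro q hq; fin_cases hq <;> first | exact p746488799359 | norm_num) (by decide +kernel)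

lemma p39636533431608593 : Nat.Prime 39636533431608593 :=
  pratt 39636533431608593 3 56 [2, 2, 2, 2, 41, 5059, 23911, 499493]
    (by intro q hq; fin_cases hq <;> first | exact p499493 | norm_num) (by decide +kernel)

lemma p16747228105523262714361 : Nat.Prime 16747228105523262714361 :=
  pratt 16747228105523262714361 34 74 [2, 2, 2, 3, 5, 7, 503, 39636533431608593]
    (by intro q hq; fin_cases hq <;> first | exact p39636533431608593 | norm_num)
    (by decide +kernel)

lemma p54276895434139407247582854229 : Nat.Prime 54276895434139407247582854229 :=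
  pratt 54276895434139407247582854229 2 96 [2, 2, 3, 17, 15887, 16747228105523262714361]
    (by intro q hq; fin_cases hq <;> first | exact p16747228105523262714361 | norm_num)
    (by decide +kernel)

lemma p5998279018951962403 : Nat.Prime 5998279018951962403 :=
  pratt 5998279018951962403 3 63 [2, 3, 11, 17, 101, 157, 1979, 10093, 16879]
    (by intro q hq; fin_cases hq <;> norm_num) (by decide +kernel)

/-- the first prime solution with ten terms -/
def X : Fin 10 → ℕ :=
  ![2, 3, 7, 61, 167, 733, 17137, 183571, 43296350362823, 54276895434139407247582854229]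

/-- the second prime solution with ten terms -/
def Y : Fin 10 → ℕ :=
  ![2, 3, 11, 17, 101, 157, 1979, 10093, 16879, 5998279018951962403]

lemma X_mono : StrictMono X := by
  rw [Fin.strictMono_iff_lt_succ]
  intro i
  fin_cases i <;> simp [X]

lemma Y_mono : StrictMono Y := by
  rw [Fin.strictMono_iff_lt_succ]
  intro i
  fin_cases i <;> simp [Y]

lemma X_prime : ∀ i, Nat.Prime (X i) := by
  intro i
  fin_cases i
  · show Nat.Prime 2; norm_num
  · show Nat.Prime 3; norm_num
  · show Nat.Prime 7; norm_num
  · show Nat.Prime 61; norm_num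
  · show Nat.Prime 167; norm_num
  · show Nat.Prime 733; norm_num
  · show Nat.Prime 17137; norm_num
  · exact p183571
  · exact p43296350362823
  · exact p54276895434139407247582854229

lemma Y_prime : ∀ i, Nat.Prime (Y i) := by
  intro i
  fin_cases i
  · show Nat.Prime 2; norm_num
  · show Nat.Prime 3; norm_num
  · show Nat.Prime 11; norm_num
  · show Nat.Prime 17; norm_num
  · show Nat.Prime 101; norm_num
  · show Nat.Prime 157; norm_num
  · show Nat.Prime 1979; norm_num
  · show Nat.Prime 10093; norm_num
  · show Nat.Prime 16879; norm_num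
  · exact p5998279018951962403

lemma X_eq : (∑ i, (1 : ℚ) / (X i : ℚ)) + 1 / (∏ i, (X i : ℚ)) = 1 := by
  simp only [Fin.sum_univ_succ, Fin.prod_univ_succ, X, Matrix.cons_val_zero, Matrix.cons_val_succ,
    Finset.univ_eq_empty, Finset.sum_empty, Finset.prod_empty]
  norm_num

lemma Y_eq : (∑ i, (1 : ℚ) / (Y i : ℚ)) + 1 / (∏ i, (Y i : ℚ)) = 1 := by
  simp only [Fin.sum_univ_succ, Fin.prod_univ_succ, Y, Matrix.cons_val_zero, Matrix.cons_val_succ,
    Finset.univ_eq_empty, Finset.sum_empty, Finset.prod_empty]
  norm_num

/-- The negation of the preceding statement: For every s, any two strictly increasing s-tuples of primes (each above 1) satisfying sum of reciprocals plus reciprocal of their product equals 1 are identical, i.e. there is at most one prime solution. -/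
theorem result :
    ¬ (∀ s : ℕ, ∀ x y : Fin s → ℕ,
      StrictMono x → (∀ i, 1 < x i) → (∀ i, Nat.Prime (x i)) →
      (∑ i, (1 : ℚ) / (x i : ℚ)) + 1 / (∏ i, (x i : ℚ)) = 1 →
      StrictMono y → (∀ i, 1 < y i) → (∀ i, Nat.Prime (y i)) →
      (∑ i, (1 : ℚ) / (y i : ℚ)) + 1 / (∏ i, (y i : ℚ)) = 1 →
      x = y) := by
  intro h
  have hxy : X = Y := h 10 X Y X_mono (fun i => (X_prime i).one_lt) X_prime X_eq
    Y_mono (fun i => (Y_prime i).one_lt) Y_prime Y_eq
  have h2 : X 2 = Y 2 := by rw [hxy]
  have h3 : (7 : ℕ) = 11 := h2
  omega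

end Pool.Agent.S17002
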