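import Pool.Statements.S17203
import Pool.Agent.TH870.Lam

set_option autoImplicit false
open Pool Pool.MP_637dc3_nt

namespace Pool.Agent.S17203

/-- For 1≤n≤m and transcendental real ξ: if infinitely many q≥1 have all ‖qξ^j‖≤q^(-l) for j≤n, then for every μ<(nl−m+n)/m infinitely many q≥1 have all ‖qξ^j‖≤q^(-μ) for j≤m; i.e. λ_m(ξ)≥(nλ_n(ξ)−m+n)/m. -/
theorem result :
    ∀ (m n : ℕ), 1 ≤ n → n ≤ m → ∀ ξ : ℝ, Transcendental ℚ ξ →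
      ∀ l μ : ℝ,
        {q : ℕ | 0 < q ∧ ∀ j ∈ Finset.Icc 1 n,
            |(q : ℝ) * ξ ^ j - ((round ((q : ℝ) * ξ ^ j) : ℤ) : ℝ)| ≤ (q : ℝ) ^ (-l)}.Infinite →
        μ < ((n : ℝ) * l - (m : ℝ) + (n : ℝ)) / (m : ℝ) →
        {q : ℕ | 0 < q ∧ ∀ j ∈ Finset.Icc 1 m,
            |(q : ℝ) * ξ ^ j - ((round ((q : ℝ) * ξ ^ j) : ℤ) : ℝ)| ≤ (q : ℝ) ^ (-μ)}.Infinite := by
  intro m n hn hnm ξ hξ l μ hinf hμ
  have hirr : Irrational ξ := hξ.irrational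
  obtain ⟨k, rfl⟩ : ∃ k, m = n + k := ⟨m - n, by omega⟩
  refine Pool.Agent.TH870.Lam.main n hn ξ hirr k l μ hinf ?_
  have hm : (0 : ℝ) < ((n + k : ℕ) : ℝ) := by
    have : 0 < n + k := by omega
    exact_mod_cast this
  rw [lt_div_iff₀ hm] at hμ
  push_cast at hμ ⊢
  nlinarith

end Pool.Agent.S17203
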