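import Pool.Statements.S17475
import Pool.Agent.TH909.Main

set_option autoImplicit false
open Pool Pool.MP_773b62_nt

namespace Pool.Agent.S17475

/-- For every ε>0 there are arbitrarily large composite n such that the number of residues a mod n with a^(n-1) ≡ 1 mod n exceeds (1-ε)n, i.e. the limsup over composites of F(n)/n equals 1. -/
theorem result :
    ∀ ε : ℝ, 0 < ε → ∀ N : ℕ, ∃ n : ℕ, N < n ∧ 1 < n ∧ ¬ Nat.Prime n ∧
      (1 - ε) * (n : ℝ) <
        (((Finset.range n).filter (fun a => a ^ (n - 1) ≡ 1 [MOD n])).card : ℝ) :=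
  fun ε hε N => Pool.Agent.TH909.main ε hε N

end Pool.Agent.S17475
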