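import Pool.Statements.S17720
import Pool.Agent.TH849.CF7

set_option autoImplicit false
open Pool Pool.MP_8d5d9c_nt

namespace Pool.Agent.S17720

/-- The negation of the preceding statement: If x is continued-fraction normal (its Gauss-map orbit is equidistributed for the Gauss measure) and q, r are irrational roots of nonzero integer quadratics with q nonzero, then q times x plus r is also continued-fraction normal. -/
theorem result :
    ¬ (∀ x q r : ℝ,
      (Irrational x ∧ ∀ t : ℝ, 0 ≤ t → t ≤ 1 →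
        Filter.Tendsto
          (fun N : ℕ =>
            (((Finset.range N).filter
              (fun n => (fun y : ℝ => Int.fract (1 / y))^[n] (Int.fract x) < t)).card : ℝ) / (N : ℝ))
          Filter.atTop (nhds (Real.log (1 + t) / Real.log 2))) →
      (Irrational q ∧ ∃ a b c : ℤ, (a ≠ 0 ∨ b ≠ 0 ∨ c ≠ 0) ∧
        (a : ℝ) * q ^ 2 + (b : ℝ) * q + (c : ℝ) = 0) →
      (Irrational r ∧ ∃ a b c : ℤ, (a ≠ 0 ∨ b ≠ 0 ∨ c ≠ 0) ∧
        (a : ℝ) * r ^ 2 + (b : ℝ) * r + (c : ℝ) = 0) →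
      q ≠ 0 →
      (Irrational (q * x + r) ∧ ∀ t : ℝ, 0 ≤ t → t ≤ 1 →
        Filter.Tendsto
          (fun N : ℕ =>
            (((Finset.range N).filter
              (fun n => (fun y : ℝ => Int.fract (1 / y))^[n] (Int.fract (q * x + r)) < t)).card : ℝ) / (N : ℝ))
          Filter.atTop (nhds (Real.log (1 + t) / Real.log 2)))) := by
  intro h
  obtain ⟨x, hx, h0, h1, h2, h3⟩ := Pool.Agent.TH849.CFN.main
  have hq : Irrational (√2) ∧ ∃ a b c : ℤ, (a ≠ 0 ∨ b ≠ 0 ∨ c ≠ 0) ∧
      (a : ℝ) * (√2) ^ 2 + (b : ℝ) * (√2) + (c : ℝ) = 0 := by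
    refine ⟨irrational_sqrt_two, 1, 0, -2, Or.inl one_ne_zero, ?_⟩
    rw [Real.sq_sqrt (by norm_num)]
    norm_num
  have hfx : Int.fract x = x := Int.fract_eq_self.mpr ⟨h0, h1⟩
  have h4 := h x (√2) (√2) ⟨hx, by rw [hfx]; exact h2⟩ hq hq (by positivity)
  exact h3 h4.2

end Pool.Agent.S17720
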