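import Pool.Statements.S17771
import Pool.Agent.TH845.ErdosPow3

set_option autoImplicit false
open Pool Pool.MP_91e459_nt

namespace Pool.Agent.S17771

/-- For all n ≥ 1, m ≥ 2 with (1−1/m)^n > 1/2 and (1−1/(m−1))^n < 1/2: (m−1)^n exceeds 1^n+…+(m−2)^n and (m+1)^n is less than 1^n+…+m^n. -/
theorem result :
    ∀ m n : ℕ, 1 ≤ n → 2 ≤ m →
      (1 - 1 / (m : ℝ)) ^ n > 1 / 2 →
      (1 - 1 / ((m : ℝ) - 1)) ^ n < 1 / 2 →
      (m - 1) ^ n > ∑ i ∈ Finset.Icc 1 (m - 2), i ^ n ∧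
      (m + 1) ^ n < ∑ i ∈ Finset.Icc 1 m, i ^ n := by
  intro m n hn hm h1 h2
  refine ⟨?_, Pool.Agent.TH845.EP.second m n hn hm h1⟩
  obtain ⟨k, rfl⟩ := Nat.exists_eq_add_of_le hm
  have e1 : 2 + k - 1 = k + 1 := by omega
  have e2 : 2 + k - 2 = k := by omega
  rw [e1, e2]
  apply Pool.Agent.TH845.EP.first
  have h3 : (1 - 1 / (((2 + k : ℕ) : ℝ) - 1)) ^ n = (k : ℝ) ^ n / ((k : ℝ) + 1) ^ n := by
    rw [← div_pow]
    congr 1
    push_cast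
    have : (k : ℝ) + 1 ≠ 0 := by positivity
    have h4 : (2 : ℝ) + k - 1 = k + 1 := by ring
    rw [h4]
    field_simp
    ring
  rw [h3, div_lt_iff₀ (by positivity)] at h2
  have h5 : 2 * (k : ℝ) ^ n < ((k : ℝ) + 1) ^ n := by linarith
  exact_mod_cast h5

end Pool.Agent.S17771
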