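import Pool.Statements.S17899

set_option autoImplicit false
open Filter Topology
open Pool Pool.MP_9d1108_nt

namespace Pool.Agent.S17899

open Finset

/-- sum of `1/p` over the primes `p > P` dividing `n` -/
noncomputable def S (P n : ℕ) : ℝ := ∑ p ∈ n.primeFactors with P < p, ((p : ℝ))⁻¹

/-- product of `1 - 1/p` over the primes `p ≤ P` dividing `n` -/
noncomputable def a (P n : ℕ) : ℝ :=
  ∏ p ∈ (range (P + 1)) with (p.Prime ∧ p ∣ n), (1 - ((p : ℝ))⁻¹)

lemma S_nonneg (P n : ℕ) : 0 ≤ S P n := by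
  unfold S
  exact Finset.sum_nonneg (fun i _ => by positivity)

lemma factor_mem {p : ℕ} (hp : p.Prime) : 0 ≤ 1 - ((p : ℝ))⁻¹ ∧ 1 - ((p : ℝ))⁻¹ ≤ 1 := by
  have h1 : (1 : ℝ) ≤ p := by exact_mod_cast hp.one_lt.le
  have h2 : ((p : ℝ))⁻¹ ≤ 1 := inv_le_one_of_one_le₀ h1
  have h3 : 0 ≤ ((p : ℝ))⁻¹ := by positivity
  constructor <;> linarith

lemma a_nonneg (P n : ℕ) : 0 ≤ a P n := by
  unfold a
  refine Finset.prod_nonneg (fun p hp => ?_)
  rw [Finset.mem_filter] at hp
  exact (factor_mem hp.2.1).1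

lemma a_le_one (P n : ℕ) : a P n ≤ 1 := by
  unfold a
  refine Finset.prod_le_one (fun p hp => ?_) (fun p hp => ?_)
  · rw [Finset.mem_filter] at hp
    exact (factor_mem hp.2.1).1
  · rw [Finset.mem_filter] at hp
    exact (factor_mem hp.2.1).2

lemma one_sub_sum_le (s : Finset ℕ) (f : ℕ → ℝ) (h : ∀ i ∈ s, 0 ≤ f i ∧ f i ≤ 1) :
    1 - ∑ i ∈ s, f i ≤ ∏ i ∈ s, (1 - f i) := by
  induction s using Finset.induction_on with
  | empty => simp
  | insert b s hb ih =>
    rw [Finset.sum_insert hb, Finset.prod_insert hb]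
    have ih' := ih (fun i hi => h i (Finset.mem_insert_of_mem hi))
    have hfb := h b (Finset.mem_insert_self b s)
    have hp1 : ∏ i ∈ s, (1 - f i) ≤ 1 := by
      refine Finset.prod_le_one (fun i hi => ?_) (fun i hi => ?_)
      · have := h i (Finset.mem_insert_of_mem hi); linarith
      · have := h i (Finset.mem_insert_of_mem hi); linarith
    nlinarith [hfb.1, hfb.2]

lemma totient_eq {n : ℕ} (hn : n ≠ 0) (P : ℕ) : (n.totient : ℝ) =
    n * (a P n * ∏ p ∈ n.primeFactors with P < p, (1 - ((p : ℝ))⁻¹)) := by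
  have h := Nat.totient_eq_mul_prod_factors n
  have h' : (n.totient : ℝ) = n * ∏ p ∈ n.primeFactors, (1 - ((p : ℝ))⁻¹) := by
    have := congrArg (fun q : ℚ => (q : ℝ)) h
    simpa using this
  rw [h']
  congr 1
  rw [mul_comm, ← Finset.prod_filter_mul_prod_filter_not n.primeFactors (fun p => P < p)]
  congr 1
  unfold a
  refine Finset.prod_congr ?_ (fun _ _ => rfl)
  ext p
  simp only [Finset.mem_filter, Nat.mem_primeFactors, Finset.mem_range]
  constructor
  · rintro ⟨⟨h1, h2, _⟩, h4⟩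
    exact ⟨by omega, h1, h2⟩
  · rintro ⟨h1, h2, h3⟩
    exact ⟨⟨h2, h3, hn⟩, by omega⟩

lemma totient_le {n : ℕ} (hn : n ≠ 0) (P : ℕ) : (n.totient : ℝ) ≤ n * a P n := by
  rw [totient_eq hn P]
  have h1 : ∏ p ∈ n.primeFactors with P < p, (1 - ((p : ℝ))⁻¹) ≤ 1 := by
    refine Finset.prod_le_one (fun p hp => ?_) (fun p hp => ?_)
    · rw [Finset.mem_filter, Nat.mem_primeFactors] at hp
      exact (factor_mem hp.1.1).1
    · rw [Finset.mem_filter, Nat.mem_primeFactors] at hp
      exact (factor_mem hp.1.1).2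
  have h2 := a_nonneg P n
  have h3 : a P n * ∏ p ∈ n.primeFactors with P < p, (1 - ((p : ℝ))⁻¹) ≤ a P n := by
    calc _ ≤ a P n * 1 := by gcongr
      _ = a P n := mul_one _
  gcongr

lemma le_totient {n : ℕ} (hn : n ≠ 0) (P : ℕ) : n * a P n - n * S P n ≤ (n.totient : ℝ) := by
  rw [totient_eq hn P]
  have h1 : 1 - S P n ≤ ∏ p ∈ n.primeFactors with P < p, (1 - ((p : ℝ))⁻¹) := by
    unfold S
    refine one_sub_sum_le _ (fun p : ℕ => ((p : ℝ))⁻¹) (fun p hp => ?_)
    rw [Finset.mem_filter, Nat.mem_primeFactors] at hp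
    have := factor_mem hp.1.1
    constructor <;> linarith
  have h2 := a_nonneg P n
  have h3 := a_le_one P n
  have h4 := S_nonneg P n
  have h5 : (0 : ℝ) ≤ n := by positivity
  have h6 : a P n - S P n ≤ a P n * ∏ p ∈ n.primeFactors with P < p, (1 - ((p : ℝ))⁻¹) := by
    calc a P n - S P n ≤ a P n * (1 - S P n) := by nlinarith
      _ ≤ _ := by gcongr
  nlinarith

/-- first moment of `S` -/
lemma sum_S_le (P N : ℕ) (hP : P ≠ 0) : ∑ n ∈ range N, S P n ≤ N / P := by
  have h1 : ∀ n ∈ range N, S P n ≤ ∑ p ∈ Ioc P (max P N), if (n ≠ 0 ∧ p ∣ n) then ((p : ℝ))⁻¹ else 0 := by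
    intro n hn
    rw [← Finset.sum_filter]
    unfold S
    refine Finset.sum_le_sum_of_subset_of_nonneg ?_ (fun i _ _ => by positivity)
    intro p hp
    rw [Finset.mem_filter, Nat.mem_primeFactors] at hp
    rw [Finset.mem_filter, Finset.mem_Ioc]
    refine ⟨⟨hp.2, ?_⟩, hp.1.2.2, hp.1.2.1⟩
    have := Nat.le_of_dvd (Nat.pos_of_ne_zero hp.1.2.2) hp.1.2.1
    have := Finset.mem_range.1 hn
    exact le_max_of_le_right (by omega)
  refine (Finset.sum_le_sum h1).trans ?_
  rw [Finset.sum_comm]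
  have h2 : ∀ p ∈ Ioc P (max P N), (∑ n ∈ range N, if (n ≠ 0 ∧ p ∣ n) then ((p : ℝ))⁻¹ else 0)
      ≤ N * (((p : ℝ)) ^ 2)⁻¹ := by
    intro p hp
    rw [Finset.mem_Ioc] at hp
    have hp0 : 0 < p := by omega
    have hp0' : (0 : ℝ) < p := by exact_mod_cast hp0
    rw [← Finset.sum_filter, Finset.sum_const, nsmul_eq_mul]
    have h3 : ((range N).filter (fun n => n ≠ 0 ∧ p ∣ n)).card ≤ N / p := by
      rw [← Nat.Ioc_filter_dvd_card_eq_div]
      refine Finset.card_le_card ?_
      intro n hn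
      rw [Finset.mem_filter, Finset.mem_range] at hn
      rw [Finset.mem_filter, Finset.mem_Ioc]
      exact ⟨⟨Nat.pos_of_ne_zero hn.2.1, hn.1.le⟩, hn.2.2⟩
    have h4 : (((range N).filter (fun n => n ≠ 0 ∧ p ∣ n)).card : ℝ) ≤ N / p := by
      calc (((range N).filter (fun n => n ≠ 0 ∧ p ∣ n)).card : ℝ) ≤ ((N / p : ℕ) : ℝ) := by exact_mod_cast h3
        _ ≤ N / p := Nat.cast_div_le
    calc _ ≤ (N / p : ℝ) * ((p : ℝ))⁻¹ := by gcongr
      _ = N * (((p : ℝ)) ^ 2)⁻¹ := by field_simp
  refine (Finset.sum_le_sum h2).trans ?_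
  rw [← Finset.mul_sum]
  have h5 := sum_Ioc_inv_sq_le_sub (α := ℝ) hP (le_max_left P N)
  have h6 : (0 : ℝ) ≤ ((max P N : ℕ) : ℝ)⁻¹ := by positivity
  have h7 : ∑ i ∈ Ioc P (max P N), (((i : ℝ)) ^ 2)⁻¹ ≤ ((P : ℝ))⁻¹ := by linarith
  calc (N : ℝ) * ∑ i ∈ Ioc P (max P N), (((i : ℝ)) ^ 2)⁻¹ ≤ N * ((P : ℝ))⁻¹ := by gcongr
    _ = N / P := by rw [div_eq_mul_inv]

/-- Markov's inequality for `S` -/
lemma card_S_gt (P N : ℕ) (hP : P ≠ 0) (η : ℝ) (hη : 0 < η) :
    ((((range N).filter (fun n => η < S P n)).card : ℕ) : ℝ) ≤ N / P / η := by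
  rw [le_div_iff₀ hη]
  calc ((((range N).filter (fun n => η < S P n)).card : ℕ) : ℝ) * η
      = ∑ n ∈ (range N).filter (fun n => η < S P n), η := by
        rw [Finset.sum_const, nsmul_eq_mul]
    _ ≤ ∑ n ∈ (range N).filter (fun n => η < S P n), S P n := by
        refine Finset.sum_le_sum (fun n hn => ?_)
        exact (Finset.mem_filter.1 hn).2.le
    _ ≤ ∑ n ∈ range N, S P n := by
        refine Finset.sum_le_sum_of_subset_of_nonneg (Finset.filter_subset _ _) (fun n _ _ => S_nonneg P n)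
    _ ≤ N / P := sum_S_le P N hP

/-- a set of integers in one residue class mod `Q` and of diameter at most `L` -/
lemma card_class (s : Finset ℕ) (Q : ℕ) (hQ : 0 < Q) (L : ℝ)
    (hmod : ∀ m ∈ s, ∀ n ∈ s, m % Q = n % Q)
    (hdiam : ∀ m ∈ s, ∀ n ∈ s, (m : ℝ) - n ≤ L) (hL : 0 ≤ L) : (s.card : ℝ) ≤ L / Q + 1 := by
  rcases s.eq_empty_or_nonempty with h | h
  · subst h
    simp only [Finset.card_empty, Nat.cast_zero]
    positivity
  · set m := s.min' h with hm
    have hms : m ∈ s := s.min'_mem h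
    have hQ' : (0 : ℝ) < Q := by exact_mod_cast hQ
    have hcard : s.card ≤ (range (⌊L / Q⌋₊ + 1)).card := by
      refine Finset.card_le_card_of_injOn (fun n => (n - m) / Q) ?_ ?_
      · intro n hn
        have hn' : n ∈ s := hn
        have hmn : m ≤ n := s.min'_le n hn'
        simp only [Finset.coe_range, Set.mem_Iio]
        rw [Nat.lt_succ_iff]
        refine Nat.le_floor ?_
        calc (((n - m) / Q : ℕ) : ℝ) ≤ ((n - m : ℕ) : ℝ) / Q := Nat.cast_div_le
          _ ≤ L / Q := by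
            gcongr
            rw [Nat.cast_sub hmn]
            exact hdiam n hn' m hms
      · intro n hn n' hn' heq
        have hn1 : n ∈ s := hn
        have hn2 : n' ∈ s := hn'
        have hmn : m ≤ n := s.min'_le n hn1
        have hmn' : m ≤ n' := s.min'_le n' hn2
        have e1 : Q ∣ n - m := (Nat.modEq_iff_dvd' hmn).1 (hmod m hms n hn1)
        have e2 : Q ∣ n' - m := (Nat.modEq_iff_dvd' hmn').1 (hmod m hms n' hn2)
        have heq' : (n - m) / Q = (n' - m) / Q := heq
        have e3 : n - m = n' - m := by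
          rw [← Nat.div_mul_cancel e1, ← Nat.div_mul_cancel e2, heq']
        omega
    rw [Finset.card_range] at hcard
    calc (s.card : ℝ) ≤ ((⌊L / Q⌋₊ + 1 : ℕ) : ℝ) := by exact_mod_cast hcard
      _ = (⌊L / Q⌋₊ : ℝ) + 1 := by push_cast; ring
      _ ≤ L / Q + 1 := by
        have := Nat.floor_le (show 0 ≤ L / Q by positivity)
        linarith

lemma a_congr (P : ℕ) {m n : ℕ} (h : m % primorial P = n % primorial P) : a P m = a P n := by
  unfold a
  refine Finset.prod_congr ?_ (fun _ _ => rfl)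
  ext p
  simp only [Finset.mem_filter, Finset.mem_range]
  have key : ∀ {u v : ℕ}, u % primorial P = v % primorial P → p < P + 1 → p.Prime → p ∣ u → p ∣ v := by
    intro u v huv hp hpp hd
    have hdp : p ∣ primorial P := by
      unfold primorial
      exact Finset.dvd_prod_of_mem _ (by simp [hp, hpp])
    have : u ≡ v [MOD p] := Nat.ModEq.of_dvd hdp huv
    exact (this.dvd_iff (dvd_refl p)).1 hd
  constructor
  · rintro ⟨h1, h2, h3⟩
    exact ⟨h1, h2, key h h1 h2 h3⟩
  · rintro ⟨h1, h2, h3⟩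
    exact ⟨h1, h2, key h.symm h1 h2 h3⟩

/-- the main counting estimate -/
lemma count_bound (x P : ℕ) (H η : ℝ) (hP : P ≠ 0) (hη : 0 < η) (hH : 0 ≤ H) (hHx : H ≤ x) :
    (((Set.ncard {n : ℕ | (x : ℝ) < (n : ℝ) + (Nat.totient n : ℝ) ∧
              (n : ℝ) + (Nat.totient n : ℝ) < (x : ℝ) + H} : ℕ) : ℝ)) ≤
      (2 * x : ℝ) / P / η + (H + 2 * x * η) + primorial P := by
  classical
  set T : Finset ℕ := (range (2 * x)).filter (fun n => (x : ℝ) < (n : ℝ) + (Nat.totient n : ℝ) ∧
              (n : ℝ) + (Nat.totient n : ℝ) < (x : ℝ) + H) with hT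
  have hset : {n : ℕ | (x : ℝ) < (n : ℝ) + (Nat.totient n : ℝ) ∧
              (n : ℝ) + (Nat.totient n : ℝ) < (x : ℝ) + H} = (T : Set ℕ) := by
    ext n
    simp only [Set.mem_ofPred_eq, hT, Finset.coe_filter, Finset.mem_range]
    constructor
    · intro h
      refine ⟨?_, h⟩
      have h1 : (0 : ℝ) ≤ (Nat.totient n : ℝ) := by positivity
      have h2 : (n : ℝ) < 2 * x := by linarith [h.2]
      exact_mod_cast h2
    · intro h
      exact h.2
  rw [hset, Set.ncard_coe_finset]
  set B1 := T.filter (fun n => η < S P n) with hB1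
  set B2 := T.filter (fun n => ¬ (η < S P n)) with hB2
  have hcard : T.card = B1.card + B2.card := by
    rw [hB1, hB2, Finset.card_filter_add_card_filter_not]
  have hB1c : (B1.card : ℝ) ≤ (2 * x : ℝ) / P / η := by
    have h1 : B1.card ≤ ((range (2 * x)).filter (fun n => η < S P n)).card := by
      refine Finset.card_le_card ?_
      intro n hn
      rw [hB1, Finset.mem_filter, hT, Finset.mem_filter] at hn
      exact Finset.mem_filter.2 ⟨hn.1.1, hn.2⟩
    have h2 := card_S_gt P (2 * x) hP η hη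
    push_cast at h2
    calc (B1.card : ℝ) ≤ _ := by exact_mod_cast h1
      _ ≤ _ := h2
  have hQ : 0 < primorial P := primorial_pos P
  have hQ' : (0 : ℝ) < primorial P := by exact_mod_cast hQ
  set L : ℝ := H + 2 * x * η with hL
  have hL0 : 0 ≤ L := by positivity
  have hB2c : (B2.card : ℝ) ≤ L + primorial P := by
    have h1 : B2.card = ∑ r ∈ range (primorial P), (B2.filter (fun n => n % primorial P = r)).card := by
      refine Finset.card_eq_sum_card_fiberwise (fun n _ => ?_)
      simpa using Nat.mod_lt n hQ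
    have h2 : ∀ r ∈ range (primorial P),
        ((B2.filter (fun n => n % primorial P = r)).card : ℝ) ≤ L / primorial P + 1 := by
      intro r _
      refine card_class _ (primorial P) hQ L ?_ ?_ hL0
      · intro m hm n hn
        rw [Finset.mem_filter] at hm hn
        rw [hm.2, hn.2]
      · intro m hm n hn
        rw [Finset.mem_filter] at hm hn
        have hmn : m % primorial P = n % primorial P := by rw [hm.2, hn.2]
        have haeq : a P m = a P n := a_congr P hmn
        have hm1 := hm.1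
        have hn1 := hn.1
        rw [hB2, Finset.mem_filter, hT, Finset.mem_filter, Finset.mem_range] at hm1 hn1
        obtain ⟨⟨hmx, hm2, hm3⟩, hmS⟩ := hm1
        obtain ⟨⟨hnx, hn2, hn3⟩, hnS⟩ := hn1
        have hxpos : (0 : ℝ) ≤ x := by positivity
        have hm0 : m ≠ 0 := by
          rintro rfl
          simp at hm2
          linarith
        have hn0 : n ≠ 0 := by
          rintro rfl
          simp at hn2
          linarith
        have e1 := le_totient hm0 P
        have e2 := totient_le hn0 P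
        rw [haeq] at e1
        have ha0 := a_nonneg P n
        have hmS' : S P m ≤ η := not_lt.1 hmS
        have hmx' : (m : ℝ) ≤ 2 * x := by exact_mod_cast hmx.le
        have hmpos : (0 : ℝ) ≤ m := by positivity
        have e3 : (m : ℝ) * S P m ≤ 2 * x * η := by
          calc (m : ℝ) * S P m ≤ (2 * x) * η :=
            mul_le_mul hmx' hmS' (S_nonneg P m) (by positivity)
            _ = _ := by ring
        -- m (1 + a) < x + H + 2 x η, x < n (1 + a)
        have e4 : (m : ℝ) * (1 + a P n) < x + H + 2 * x * η := by nlinarith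
        have e5 : (x : ℝ) < n * (1 + a P n) := by nlinarith
        have e6 : ((m : ℝ) - n) * (1 + a P n) ≤ L := by
          rw [hL]; nlinarith
        by_cases hle : (m : ℝ) - n ≤ 0
        · linarith
        · push Not at hle
          nlinarith
    calc (B2.card : ℝ) = ∑ r ∈ range (primorial P), ((B2.filter (fun n => n % primorial P = r)).card : ℝ) := by
          rw [h1]; push_cast; rfl
      _ ≤ ∑ r ∈ range (primorial P), (L / primorial P + 1) := Finset.sum_le_sum h2
      _ = L + primorial P := by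
          rw [Finset.sum_const, Finset.card_range, nsmul_eq_mul]
          field_simp
  rw [hcard]
  push_cast
  linarith

/-- the slowly growing parameter -/
noncomputable def psi (x : ℕ) : ℝ := Real.sqrt (Nat.log 16 x : ℕ)

/-- the window length -/
noncomputable def F (x : ℕ) : ℝ := x / psi x

lemma psi_sq (x : ℕ) : psi x ^ 2 = (Nat.log 16 x : ℕ) := by
  unfold psi
  exact Real.sq_sqrt (by positivity)

lemma psi_pos {x : ℕ} (hx : 16 ≤ x) : 1 ≤ psi x := by
  unfold psi
  rw [Real.one_le_sqrt]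
  exact_mod_cast Nat.log_pos (by norm_num) hx

lemma tendsto_psi : Tendsto psi atTop atTop := by
  unfold psi
  refine Real.tendsto_sqrt_atTop.comp (tendsto_natCast_atTop_atTop.comp ?_)
  refine Filter.tendsto_atTop_atTop.2 (fun b => ⟨16 ^ b, fun n hn => ?_⟩)
  exact Nat.le_log_of_pow_le (by norm_num) hn

lemma sqrt_le_F {x : ℕ} (hx : 16 ≤ x) : Real.sqrt x ≤ F x := by
  unfold F
  have h1 := psi_pos hx
  have h2 : psi x ≤ Real.sqrt x := by
    unfold psi
    refine Real.sqrt_le_sqrt ?_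
    exact_mod_cast Nat.log_le_self 16 x
  rw [le_div_iff₀ (by linarith)]
  calc Real.sqrt x * psi x ≤ Real.sqrt x * Real.sqrt x := by gcongr
    _ = x := Real.mul_self_sqrt (by positivity)

lemma tendsto_F : Tendsto F atTop atTop := by
  refine tendsto_atTop_mono' atTop ?_ (Real.tendsto_sqrt_atTop.comp tendsto_natCast_atTop_atTop)
  filter_upwards [eventually_ge_atTop 16] with x hx
  exact sqrt_le_F hx

lemma le_totient_exp {n : ℕ} (hn : n ≠ 0) : (n : ℝ) ≤ n.totient * Real.exp (2 * S 1 n) := by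
  have h := Nat.totient_eq_mul_prod_factors n
  have h' : (n.totient : ℝ) = n * ∏ p ∈ n.primeFactors, (1 - ((p : ℝ))⁻¹) := by
    have := congrArg (fun q : ℚ => (q : ℝ)) h
    simpa using this
  have hS : S 1 n = ∑ p ∈ n.primeFactors, ((p : ℝ))⁻¹ := by
    unfold S
    refine Finset.sum_congr ?_ (fun _ _ => rfl)
    refine Finset.filter_true_of_mem (fun p hp => ?_)
    exact (Nat.mem_primeFactors.1 hp).1.one_lt
  have h1 : 1 ≤ (∏ p ∈ n.primeFactors, (1 - ((p : ℝ))⁻¹)) * Real.exp (2 * S 1 n) := by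
    rw [hS, Finset.mul_sum, Real.exp_sum, ← Finset.prod_mul_distrib]
    have hone : (1 : ℝ) = ∏ _p ∈ n.primeFactors, (1 : ℝ) := by simp
    refine hone.le.trans (Finset.prod_le_prod (fun p _ => zero_le_one) (fun p hp => ?_))
    have hp2 : (2 : ℝ) ≤ p := by exact_mod_cast (Nat.mem_primeFactors.1 hp).1.two_le
    have hp3 : ((p : ℝ))⁻¹ ≤ 2⁻¹ := by
      refine inv_anti₀ (by norm_num) hp2
    have hp4 : 0 ≤ ((p : ℝ))⁻¹ := by positivity
    have hp5 := Real.add_one_le_exp (2 * ((p : ℝ))⁻¹)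
    have hp6 : (1 - ((p : ℝ))⁻¹) * (2 * ((p : ℝ))⁻¹ + 1) ≤
        (1 - ((p : ℝ))⁻¹) * Real.exp (2 * ((p : ℝ))⁻¹) := by
      refine mul_le_mul_of_nonneg_left hp5 (by linarith)
    nlinarith
  rw [h', mul_assoc]
  have h2 : (0 : ℝ) ≤ n := by positivity
  nlinarith

/-- the set of density one -/
def A : Set ℕ := {n | S 1 n ≤ Real.log (psi n) / 4}

lemma density_A : Tendsto (fun N : ℕ => ((A ∩ Set.Iio N).ncard : ℝ) / (N : ℝ)) atTop (𝓝 1) := by
  classical
  have hcount : ∀ N : ℕ, ((A ∩ Set.Iio N).ncard : ℝ) =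
      N - (((range N).filter (fun n => n ∉ A)).card : ℝ) := by
    intro N
    have h1 : A ∩ Set.Iio N = (((range N).filter (fun n => n ∈ A) : Finset ℕ) : Set ℕ) := by
      ext n
      simp [and_comm]
    rw [h1, Set.ncard_coe_finset]
    have h2 := Finset.card_filter_add_card_filter_not (s := range N) (fun n => n ∈ A)
    rw [Finset.card_range] at h2
    have h3 : ((((range N).filter (fun n => n ∈ A)).card : ℝ)) +
      (((range N).filter (fun n => n ∉ A)).card : ℝ) = N := by exact_mod_cast h2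
    linarith
  have hlog : Tendsto (fun n : ℕ => Real.log (psi n) / 4) atTop atTop :=
    (Real.tendsto_log_atTop.comp tendsto_psi).atTop_div_const (by norm_num)
  rw [Metric.tendsto_atTop]
  intro ε hε
  obtain ⟨n0, hn0⟩ := Filter.eventually_atTop.1 (hlog.eventually_ge_atTop (4 / ε))
  obtain ⟨N1, hN1⟩ := exists_nat_gt (4 * n0 / ε)
  refine ⟨max N1 1, fun N hN => ?_⟩
  have hN1' : N1 ≤ N := le_trans (le_max_left _ _) hN
  have hNpos : 1 ≤ N := le_trans (le_max_right _ _) hN
  have hNpos' : (0 : ℝ) < N := by exact_mod_cast hNpos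
  rw [Real.dist_eq, hcount N]
  set b := (((range N).filter (fun n => n ∉ A)).card : ℝ) with hb
  have hb0 : 0 ≤ b := by positivity
  have hbb : b ≤ n0 + N / (4 / ε) := by
    have h1 : ((range N).filter (fun n => n ∉ A)) ⊆ (range n0) ∪
        ((range N).filter (fun n => 4 / ε < S 1 n)) := by
      intro n hn
      rw [Finset.mem_filter] at hn
      rw [Finset.mem_union, Finset.mem_range, Finset.mem_filter]
      by_cases hlt : n < n0
      · left; exact hlt
      · right
        refine ⟨hn.1, ?_⟩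
        have h2 := hn0 n (not_lt.1 hlt)
        have h3 : ¬ (S 1 n ≤ Real.log (psi n) / 4) := hn.2
        push Not at h3
        linarith
    have h4 := (Finset.card_le_card h1).trans (Finset.card_union_le _ _)
    rw [Finset.card_range] at h4
    have h5 := card_S_gt 1 N one_ne_zero (4 / ε) (by positivity)
    have h6 : b ≤ n0 + (((range N).filter (fun n => 4 / ε < S 1 n)).card : ℝ) := by
      rw [hb]; exact_mod_cast h4
    have h7 : (N : ℝ) / (1 : ℕ) / (4 / ε) = N / (4 / ε) := by norm_num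
    linarith
  have h8 : ((N : ℝ) - b) / N - 1 = - (b / N) := by field_simp; ring
  rw [h8, abs_neg, abs_of_nonneg (by positivity), div_lt_iff₀ hNpos']
  have h9 : (4 * n0 / ε : ℝ) < N := lt_of_lt_of_le hN1 (by exact_mod_cast hN1')
  rw [div_lt_iff₀ hε] at h9
  have h10 : (N : ℝ) / (4 / ε) = N * ε / 4 := by field_simp
  rw [h10] at hbb
  nlinarith

lemma tendsto_ratio : Tendsto (fun n : ℕ => F n / (Nat.totient n : ℝ)) (atTop ⊓ 𝓟 A) (𝓝 0) := by
  have hlim : Tendsto (fun n : ℕ => (Real.sqrt (psi n))⁻¹) (atTop ⊓ 𝓟 A) (𝓝 0) :=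
    ((Real.tendsto_sqrt_atTop.comp tendsto_psi).inv_tendsto_atTop).mono_left inf_le_left
  refine tendsto_of_tendsto_of_tendsto_of_le_of_le' tendsto_const_nhds hlim ?_ ?_
  · refine Filter.Eventually.of_forall (fun n => ?_)
    unfold F psi
    positivity
  · rw [Filter.eventually_inf_principal]
    filter_upwards [eventually_ge_atTop 16] with n hn hA
    have hA' : S 1 n ≤ Real.log (psi n) / 4 := hA
    have hpsi := psi_pos hn
    have hpsi0 : 0 < psi n := by linarith
    have hn0 : n ≠ 0 := by omega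
    have h1 := le_totient_exp hn0
    have h2 : Real.exp (2 * S 1 n) ≤ Real.sqrt (psi n) := by
      calc Real.exp (2 * S 1 n) ≤ Real.exp (Real.log (psi n) / 2) := by
            refine Real.exp_le_exp.2 ?_
            linarith
        _ = Real.sqrt (psi n) := by
            rw [← Real.log_sqrt hpsi0.le, Real.exp_log (Real.sqrt_pos.2 hpsi0)]
    have h3 : (0 : ℝ) < n.totient := by
      exact_mod_cast Nat.totient_pos.2 (Nat.pos_of_ne_zero hn0)
    have h4 : (n : ℝ) ≤ n.totient * Real.sqrt (psi n) :=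
      h1.trans (by gcongr)
    unfold F
    have h5 : 0 < Real.sqrt (psi n) := Real.sqrt_pos.2 hpsi0
    rw [div_div, div_le_iff₀ (by positivity)]
    calc (n : ℝ) ≤ n.totient * Real.sqrt (psi n) := h4
      _ = (Real.sqrt (psi n))⁻¹ * (psi n * n.totient) := by
        have h6 : psi n = Real.sqrt (psi n) * Real.sqrt (psi n) := (Real.mul_self_sqrt hpsi0.le).symm
        field_simp
        rw [pow_two]
        rw [← h6]

lemma final_bound {x : ℕ} (hx : 16 ≤ x) :
    (((Set.ncard {n : ℕ | (x : ℝ) < (n : ℝ) + (Nat.totient n : ℝ) ∧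
              (n : ℝ) + (Nat.totient n : ℝ) < (x : ℝ) + F x} : ℕ) : ℝ)) ≤ 6 * F x := by
  have hpsi := psi_pos hx
  have hpsi0 : 0 < psi x := by linarith
  have hP : Nat.log 16 x ≠ 0 := (Nat.log_pos (by norm_num) hx).ne'
  have hxpos : (0 : ℝ) < x := by exact_mod_cast (by omega : 0 < x)
  have hF0 : 0 ≤ F x := by unfold F; positivity
  have hFx : F x ≤ x := by
    unfold F
    exact div_le_self hxpos.le hpsi
  have h := count_bound x (Nat.log 16 x) (F x) (psi x)⁻¹ hP (by positivity) hF0 hFx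
  refine h.trans ?_
  have hPpsi : ((Nat.log 16 x : ℕ) : ℝ) = psi x ^ 2 := (psi_sq x).symm
  have h1 : (2 * x : ℝ) / (Nat.log 16 x : ℕ) / (psi x)⁻¹ = 2 * F x := by
    rw [hPpsi]; unfold F; field_simp
  have h2 : (2 * x : ℝ) * (psi x)⁻¹ = 2 * F x := by
    unfold F; field_simp
  have h3 : (primorial (Nat.log 16 x) : ℝ) ≤ F x := by
    refine le_trans ?_ (sqrt_le_F hx)
    refine Real.le_sqrt_of_sq_le ?_
    have h4 : primorial (Nat.log 16 x) ≤ 4 ^ (Nat.log 16 x) := primorial_le_four_pow _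
    have h5 : (4 ^ (Nat.log 16 x)) ^ 2 ≤ x := by
      rw [← pow_mul, mul_comm, pow_mul]
      norm_num
      exact Nat.pow_log_le_self 16 (by omega)
    have h6 : (primorial (Nat.log 16 x)) ^ 2 ≤ x := (Nat.pow_le_pow_left h4 2).trans h5
    exact_mod_cast h6
  rw [h1, h2]
  linarith

/-- There is F with F(x)→∞ and F(n)/φ(n)→0 along a density-one set, such that for some C only finitely many x have more than C·F(x) integers n with n+φ(n) in the open interval (x, x+F(x)). -/
theorem result :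
    ∃ F : ℕ → ℝ, Tendsto F atTop atTop ∧
      (∃ A : Set ℕ,
        Tendsto (fun N : ℕ => ((A ∩ Set.Iio N).ncard : ℝ) / (N : ℝ)) atTop (𝓝 1) ∧
        Tendsto (fun n : ℕ => F n / (Nat.totient n : ℝ)) (atTop ⊓ 𝓟 A) (𝓝 0)) ∧
      ¬ (∀ C : ℝ, Set.Infinite {x : ℕ |
          ((Set.ncard {n : ℕ | (x : ℝ) < (n : ℝ) + (Nat.totient n : ℝ) ∧
              (n : ℝ) + (Nat.totient n : ℝ) < (x : ℝ) + F x} : ℕ) : ℝ) > C * F x}) := by
  refine ⟨F, tendsto_F, ⟨A, density_A, tendsto_ratio⟩, fun h => ?_⟩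
  refine h 6 ((Set.finite_Iio 16).subset (fun x hx => ?_))
  rw [Set.mem_Iio]
  by_contra hlt
  push Not at hlt
  exact absurd (final_bound hlt) (not_le.2 hx)

end Pool.Agent.S17899
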