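import Pool.Statements.S17961
import Pool.Agent.TH870.W.Fin

set_option autoImplicit false
open Pool Pool.MP_a0d2f7_nt

namespace Pool.Agent.S17961

/-- There is a real ξ whose Mahler exponent w(ξ) = limsup w_n(ξ)/n differs from its Koksma exponent w*(ξ) = limsup w_n^*(ξ)/n, where w_n and w_n^* measure approximation by integer polynomials and by algebraic numbers of degree ≤ n. -/
theorem result :
    ∃ ξ : ℝ,
      Filter.limsup
        (fun n : ℕ => (((1 : ℝ) / (n : ℝ) : ℝ) : EReal) *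
          sSup ((fun w : ℝ => (w : EReal)) ''
            {w : ℝ | Set.Infinite {P : Polynomial ℤ |
              P.natDegree ≤ n ∧ 0 < |Polynomial.aeval ξ P| ∧
              |Polynomial.aeval ξ P| ≤
                ((P.support.sup (fun i => (P.coeff i).natAbs) : ℕ) : ℝ) ^ (-w)}}))
        Filter.atTop
      ≠
      Filter.limsup
        (fun n : ℕ => (((1 : ℝ) / (n : ℝ) : ℝ) : EReal) *
          sSup ((fun w : ℝ => (w : EReal)) ''
            {w : ℝ | Set.Infinite {α : ℝ | ∃ P : Polynomial ℤ,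
              Irreducible P ∧ P.natDegree ≤ n ∧ Polynomial.aeval α P = 0 ∧
              0 < |ξ - α| ∧
              |ξ - α| ≤
                ((P.support.sup (fun i => (P.coeff i).natAbs) : ℕ) : ℝ) ^ (-w - 1)}}))
        Filter.atTop := by
  obtain ⟨ξ, hK, hM⟩ := Pool.Agent.TH870.W.exists_xi
  refine ⟨ξ, ?_⟩
  apply ne_of_gt
  have hS : Filter.limsup
        (fun n : ℕ => (((1 : ℝ) / (n : ℝ) : ℝ) : EReal) *
          sSup ((fun w : ℝ => (w : EReal)) ''
            {w : ℝ | Set.Infinite {α : ℝ | ∃ P : Polynomial ℤ,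
              Irreducible P ∧ P.natDegree ≤ n ∧ Polynomial.aeval α P = 0 ∧
              0 < |ξ - α| ∧
              |ξ - α| ≤
                ((P.support.sup (fun i => (P.coeff i).natAbs) : ℕ) : ℝ) ^ (-w - 1)}}))
        Filter.atTop ≤ ((40 + 1 / 20 : ℝ) : EReal) := by
    apply Filter.limsup_le_of_le
    · isBoundedDefault
    filter_upwards [Filter.eventually_ge_atTop 800] with n hn
    have hnr : (800 : ℝ) ≤ n := by exact_mod_cast hn
    have h1 : sSup ((fun w : ℝ => (w : EReal)) ''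
            {w : ℝ | Set.Infinite {α : ℝ | ∃ P : Polynomial ℤ,
              Irreducible P ∧ P.natDegree ≤ n ∧ Polynomial.aeval α P = 0 ∧
              0 < |ξ - α| ∧
              |ξ - α| ≤
                ((P.support.sup (fun i => (P.coeff i).natAbs) : ℕ) : ℝ) ^ (-w - 1)}}) ≤
        ((40 * ((n : ℝ) + 1) : ℝ) : EReal) := by
      apply sSup_le
      rintro _ ⟨w, hw, rfl⟩
      exact EReal.coe_le_coe_iff.mpr (hK n (by omega) w hw)
    calc (((1 : ℝ) / (n : ℝ) : ℝ) : EReal) * _
        ≤ (((1 : ℝ) / (n : ℝ) : ℝ) : EReal) * ((40 * ((n : ℝ) + 1) : ℝ) : EReal) :=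
          mul_le_mul_of_nonneg_left h1 (by
            rw [← EReal.coe_zero, EReal.coe_le_coe_iff]; positivity)
      _ = (((1 : ℝ) / (n : ℝ) * (40 * ((n : ℝ) + 1)) : ℝ) : EReal) := by
          rw [← EReal.coe_mul]
      _ ≤ _ := by
          rw [EReal.coe_le_coe_iff, one_div, inv_mul_le_iff₀ (by linarith)]
          linarith
  have hW : ((40 + 1 / 10 : ℝ) : EReal) ≤ Filter.limsup
        (fun n : ℕ => (((1 : ℝ) / (n : ℝ) : ℝ) : EReal) *
          sSup ((fun w : ℝ => (w : EReal)) ''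
            {w : ℝ | Set.Infinite {P : Polynomial ℤ |
              P.natDegree ≤ n ∧ 0 < |Polynomial.aeval ξ P| ∧
              |Polynomial.aeval ξ P| ≤
                ((P.support.sup (fun i => (P.coeff i).natAbs) : ℕ) : ℝ) ^ (-w)}}))
        Filter.atTop := by
    apply Filter.le_limsup_of_frequently_le
    · rw [Filter.frequently_atTop]
      intro a
      refine ⟨8 * (a + 6) + 2, by omega, ?_⟩
      have h1 : ((40 * (8 * ((a + 6 : ℕ) : ℝ) + 2) + ((a + 6 : ℕ) : ℝ) - 1 : ℝ) : EReal) ≤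
          sSup ((fun w : ℝ => (w : EReal)) ''
            {w : ℝ | Set.Infinite {P : Polynomial ℤ |
              P.natDegree ≤ 8 * (a + 6) + 2 ∧ 0 < |Polynomial.aeval ξ P| ∧
              |Polynomial.aeval ξ P| ≤
                ((P.support.sup (fun i => (P.coeff i).natAbs) : ℕ) : ℝ) ^ (-w)}}) := by
        apply le_sSup
        exact ⟨_, hM (a + 6) (by omega), rfl⟩
      have hpos : (0 : ℝ) < ((8 * (a + 6) + 2 : ℕ) : ℝ) := by positivity
      calc ((40 + 1 / 10 : ℝ) : EReal)
          ≤ (((1 : ℝ) / ((8 * (a + 6) + 2 : ℕ) : ℝ) *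
            (40 * (8 * ((a + 6 : ℕ) : ℝ) + 2) + ((a + 6 : ℕ) : ℝ) - 1) : ℝ) : EReal) := by
            rw [EReal.coe_le_coe_iff, div_mul_eq_mul_div, one_mul, le_div_iff₀ hpos]
            push_cast
            have : (0 : ℝ) ≤ a := Nat.cast_nonneg _
            linarith
        _ = (((1 : ℝ) / ((8 * (a + 6) + 2 : ℕ) : ℝ) : ℝ) : EReal) *
            ((40 * (8 * ((a + 6 : ℕ) : ℝ) + 2) + ((a + 6 : ℕ) : ℝ) - 1 : ℝ) : EReal) := by
            rw [← EReal.coe_mul]
        _ ≤ _ := mul_le_mul_of_nonneg_left h1 (by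
            rw [← EReal.coe_zero, EReal.coe_le_coe_iff]; positivity)
    · isBoundedDefault
  refine lt_of_le_of_lt hS (lt_of_lt_of_le ?_ hW)
  rw [EReal.coe_lt_coe_iff]
  norm_num

end Pool.Agent.S17961
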