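import Pool.Statements.S18419
import Mathlib

set_option autoImplicit false
open Pool Pool.MP_c520af_nt

namespace Pool.Agent.S18419

open Polynomial

/-- `d + 1 + (X - 1)(X - 2)⋯(X - d)` -/
noncomputable def G (K : Type) [Field K] (d : ℕ) : Polynomial K :=
  C ((d : K) + 1) + ∏ s ∈ Finset.range d, (X - C ((s : K) + 1))

theorem G_natDegree (K : Type) [Field K] (d : ℕ) : (G K d).natDegree = d := by
  unfold G
  rw [natDegree_C_add, natDegree_prod_of_monic _ _ (fun s _ => monic_X_sub_C _)]
  simp only [natDegree_X_sub_C, Finset.sum_const, Finset.card_range, smul_eq_mul, mul_one]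

theorem G_eval (K : Type) [Field K] (d a : ℕ) (h : a < d) :
    (G K d).eval ((a : K) + 1) = (d : K) + 1 := by
  unfold G
  rw [eval_add, eval_C, eval_prod, Finset.prod_eq_zero (Finset.mem_range.2 h) (by simp), add_zero]

/-- For every number field K there are maps (x,y) to (y, F_d(y) − δ_d x), with deg F_d = d and δ_d ≠ 0, for each d ≥ 2, whose number of K-rational periodic points eventually exceeds C·d for every constant C. -/
theorem result :
    ∀ (K : Type) [Field K] [NumberField K],
      ∃ (F : ℕ → Polynomial K) (δ : ℕ → K),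
        (∀ d : ℕ, 2 ≤ d → (F d).natDegree = d ∧ δ d ≠ 0) ∧
        ∀ C : ℕ, ∃ D : ℕ, ∀ d : ℕ, 2 ≤ d → D ≤ d →
          (((C * d : ℕ) : ℕ∞) <
            {P : K × K | ∃ n : ℕ, 1 ≤ n ∧
              (fun p : K × K => (p.2, (F d).eval p.2 - δ d * p.1))^[n] P = P}.encard) := by
  classical
  intro K _ _
  refine ⟨G K, fun _ => 1, fun d _ => ⟨G_natDegree K d, one_ne_zero⟩, ?_⟩
  intro C
  refine ⟨C + 1, ?_⟩
  intro d hd hC
  set S := {P : K × K | ∃ n : ℕ, 1 ≤ n ∧
              (fun p : K × K => (p.2, (G K d).eval p.2 - 1 * p.1))^[n] P = P} with hS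
  let T : Finset (K × K) :=
    (Finset.range d ×ˢ Finset.range d).image (fun q => (((q.1 : K) + 1), ((q.2 : K) + 1)))
  have hT : T.card = d * d := by
    rw [Finset.card_image_of_injective]
    · simp
    · rintro ⟨a, b⟩ ⟨a', b'⟩ h
      simp only [Prod.mk.injEq, add_left_inj, Nat.cast_inj] at h
      exact Prod.ext h.1 h.2
  have hsub : (T : Set (K × K)) ⊆ S := by
    intro P hP
    simp only [T, Finset.coe_image, Set.mem_image, Finset.coe_product, Set.mem_prod,
      Finset.coe_range, Set.mem_Iio] at hP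
    obtain ⟨⟨a, b⟩, ⟨ha, hb⟩, rfl⟩ := hP
    have e1 := G_eval K d b hb
    have e2 : (G K d).eval ((d : K) + 1 - ((a : K) + 1)) = (d : K) + 1 := by
      have h := G_eval K d (d - 1 - a) (by omega)
      rw [show (((d - 1 - a : ℕ) : K) + 1) = (d : K) + 1 - ((a : K) + 1) by
        rw [Nat.cast_sub (by omega), Nat.cast_sub (by omega)]; push_cast; ring] at h
      exact h
    have e3 : (G K d).eval ((d : K) + 1 - ((b : K) + 1)) = (d : K) + 1 := by
      have h := G_eval K d (d - 1 - b) (by omega)
      rw [show (((d - 1 - b : ℕ) : K) + 1) = (d : K) + 1 - ((b : K) + 1) by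
        rw [Nat.cast_sub (by omega), Nat.cast_sub (by omega)]; push_cast; ring] at h
      exact h
    have e4 := G_eval K d a ha
    refine ⟨4, by norm_num, ?_⟩
    simp only [Function.iterate_succ, Function.iterate_zero, Function.comp, id, one_mul]
    simp only [e1, e2, e3]
    rw [show (d : K) + 1 - ((d : K) + 1 - ((a : K) + 1)) = (a : K) + 1 by ring, e4]
    ext
    · simp
    · simp only []
      ring
  calc ((C * d : ℕ) : ℕ∞) < ((d * d : ℕ) : ℕ∞) := by
        exact_mod_cast Nat.mul_lt_mul_of_pos_right (by omega) (by omega)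
    _ = (T : Set (K × K)).encard := by rw [Set.encard_coe_eq_coe_finsetCard, hT]
    _ ≤ S.encard := Set.encard_le_encard hsub

end Pool.Agent.S18419
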