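import Pool.Statements.S18875
import Pool.Agent.TH832.Smyth.Strict
import Pool.Agent.TH832.Smyth.Unity
import Pool.Agent.TH832.Smyth.Galois
import Pool.Agent.TH832.Smyth.Necess

set_option autoImplicit false
open scoped NumberField
open Pool Pool.MP_ed3ef1_nt

namespace Pool.Agent.S18875

/-- For every number field K and tuple a in O_K^n: some nonzero K-conjugates α_i (repeats allowed) satisfy Σ a_i α_i = 0 iff the strong archimedean and nonarchimedean absolute value criteria hold, or Σ a_i ω_i = 0 for some roots of unity ω_i. -/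
theorem result :
  ∀ (K : Type) [Field K] [NumberField K] (n : ℕ) (a : Fin n → 𝓞 K),
    (∃ α : Fin n → AlgebraicClosure K,
        (∀ i, α i ≠ 0) ∧ (∀ i j, minpoly K (α i) = minpoly K (α j)) ∧
        ∑ i, algebraMap K (AlgebraicClosure K) (a i : K) * α i = 0) ↔
    (((∀ v : NumberField.InfinitePlace K, ∀ i : Fin n,
          v (a i : K) < ∑ j ∈ Finset.univ.erase i, v (a j : K)) ∧
      (∀ v : IsDedekindDomain.HeightOneSpectrum (𝓞 K), ∀ i : Fin n,
          ∃ j : Fin n, j ≠ i ∧ v.valuation K (a i : K) ≤ v.valuation K (a j : K))) ∨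
     ∃ ω : Fin n → AlgebraicClosure K,
        (∀ i, ∃ m : ℕ, 0 < m ∧ ω i ^ m = 1) ∧
        ∑ i, algebraMap K (AlgebraicClosure K) (a i : K) * ω i = 0) := by
  intro K _ _ n a
  classical
  have hint : Algebra.IsAlgebraic ℚ (AlgebraicClosure K) := Algebra.IsAlgebraic.trans ℚ K _
  have hcl : IsAlgClosure ℚ (AlgebraicClosure K) := ⟨inferInstance, hint⟩
  have hnorm : Normal ℚ (AlgebraicClosure K) := IsAlgClosure.normal ℚ _
  have hperm := fun h : Pool.Agent.TH832.Smyth.PermSol (fun i => (a i : K)) =>
    Pool.Agent.TH832.Smyth.perm_conj (Ω := AlgebraicClosure K) (fun i => (a i : K)) h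
  constructor
  · rintro ⟨α, hα0, hα, hsum⟩
    by_cases hA : ∀ v : NumberField.InfinitePlace K, ∀ i : Fin n,
        v (a i : K) < ∑ j ∈ Finset.univ.erase i, v (a j : K)
    · left
      refine ⟨hA, fun v i => ?_⟩
      by_cases hai : (a i : K) = 0
      · obtain ⟨v₀⟩ := (inferInstance : Nonempty (NumberField.InfinitePlace K))
        have h1 := hA v₀ i
        rw [hai, map_zero] at h1
        obtain ⟨j, hj, -⟩ := Finset.exists_ne_zero_of_sum_ne_zero h1.ne'
        exact ⟨j, Finset.ne_of_mem_erase hj, by rw [hai, map_zero]; exact zero_le⟩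
      exact Pool.Agent.TH832.Smyth.nonarch_nec (v.valuation K) (fun i => (a i : K)) α hα0 hα hsum i hai
    · right
      push Not at hA
      obtain ⟨v, i, hv⟩ := hA
      let _ : Algebra K ℂ := v.embedding.toAlgebra
      set τ : AlgebraicClosure K →ₐ[K] ℂ := IsAlgClosed.lift with hτ
      have hτ : ∀ x : K, ‖(τ : AlgebraicClosure K →+* ℂ) (algebraMap K (AlgebraicClosure K) x)‖ = v x := by
        intro x
        rw [← NumberField.InfinitePlace.norm_embedding_eq]
        congr 1
        exact τ.commutes x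
      refine Pool.Agent.TH832.Smyth.arch_or_unity (fun i => (a i : K)) α hα0 hα hsum
        (τ : AlgebraicClosure K →+* ℂ) i ?_
      simp only [hτ]
      exact hv
  · rintro (⟨hA, hN⟩ | ⟨ω, hω, hsum⟩)
    · rcases Nat.eq_zero_or_pos n with hn | hn
      · subst hn
        exact ⟨fun i => i.elim0, fun i => i.elim0, fun i => i.elim0, by simp⟩
      · have hz : NeZero n := ⟨hn.ne'⟩
        refine hperm (Pool.Agent.TH832.Smyth.strict_perm (fun σ i => ?_)
          (Pool.Agent.TH832.Smyth.nonarch_of_val hN))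
        exact hA (NumberField.InfinitePlace.mk σ) i
    · exact hperm (Pool.Agent.TH832.Smyth.unity_perm (fun i => (a i : K)) ω hω hsum)

end Pool.Agent.S18875
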