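import Pool.Statements.S18877
import Pool.Agent.TH338.LG.Dimn

set_option autoImplicit false
open scoped ENNReal
open Pool Pool.MP_ed49ca_nt

namespace Pool.Agent.S18877

/-- The set of 3-adic integers x such that, for infinitely many n ≥ 0, the 3-adic expansion of 2^n·x contains no digit 2, has Hausdorff dimension 0 in the standard 3-adic metric. -/
theorem result :
    dimH {x : ℤ_[3] | Set.Infinite {n : ℕ | ∀ k : ℕ,
      (PadicInt.toZModPow (k + 1) ((2 : ℤ_[3]) ^ n * x)).val / 3 ^ k ≠ 2}} = 0 := by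
  have h : {x : ℤ_[3] | Set.Infinite {n : ℕ | ∀ k : ℕ,
      (PadicInt.toZModPow (k + 1) ((2 : ℤ_[3]) ^ n * x)).val / 3 ^ k ≠ 2}} =
      {x : ℤ_[3] | {n : ℕ | Pool.Agent.TH338.LG.Om ((2 : ℤ_[3]) ^ n * x)}.Infinite} := by
    ext x
    simp only [Pool.Agent.TH338.LG.val_toZModPow, Pool.Agent.TH338.LG.Om]
  rw [h]
  exact Pool.Agent.TH338.LG.dim_zero

end Pool.Agent.S18877
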