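import Pool.Statements.S19240
import Pool.Agent.TH968.Final

set_option autoImplicit false
open Filter Topology MeasureTheory
open Pool Pool.MP_2c66a4_pr

namespace Pool.Agent.S19240

/-- The negation of the preceding statement: For 0<α<1 and any symmetric α-stable Lévy process, almost surely the graph over [0,1] has Fourier dimension 1: for each s<1 some compactly carried probability measure on it has Fourier decay ‖ξ‖^(-s/2), and for no s>1. -/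
theorem result :
    ¬ (∀ (α : ℝ), 0 < α → α < 1 →
  ∀ (Ω : Type) [MeasurableSpace Ω] (P : Measure Ω) [IsProbabilityMeasure P] (X : ℝ → Ω → ℝ),
    (∀ t : ℝ, Measurable (X t)) →
    (∀ᵐ ω ∂P, X 0 ω = 0) →
    (∀ᵐ ω ∂P, ∀ t : ℝ, 0 ≤ t →
        ContinuousWithinAt (fun s => X s ω) (Set.Ici t) t ∧
        (0 < t → ∃ l : ℝ, Tendsto (fun s => X s ω) (𝓝[<] t) (𝓝 l))) →
    (∀ (n : ℕ) (t : Fin (n + 1) → ℝ), 0 ≤ t 0 → StrictMono t →
        ProbabilityTheory.iIndepFun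
          (fun (i : Fin n) (ω : Ω) => X (t i.succ) ω - X (t i.castSucc) ω) P) →
    (∀ s t : ℝ, 0 ≤ s → s ≤ t → ∀ ξ : ℝ,
        ∫ ω, Complex.exp (((ξ * (X t ω - X s ω) : ℝ) : ℂ) * Complex.I) ∂P
          = ((Real.exp (-(t - s) * |ξ| ^ α) : ℝ) : ℂ)) →
    ∀ᵐ ω ∂P,
      (∀ s : ℝ, 0 < s → s < 1 →
        ∃ (μ : Measure (ℝ × ℝ)) (K : Set (ℝ × ℝ)),
          IsProbabilityMeasure μ ∧ IsCompact K ∧
          K ⊆ {p : ℝ × ℝ | p.1 ∈ Set.Icc (0 : ℝ) 1 ∧ p.2 = X p.1 ω} ∧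
          μ Kᶜ = 0 ∧
          ∃ C : ℝ, ∀ ξ : ℝ × ℝ, 1 ≤ ‖ξ‖ →
            ‖∫ p, Complex.exp (((ξ.1 * p.1 + ξ.2 * p.2 : ℝ) : ℂ) * Complex.I) ∂μ‖
              ≤ C * ‖ξ‖ ^ (-s / 2)) ∧
      (∀ s : ℝ, 1 < s →
        ¬ ∃ (μ : Measure (ℝ × ℝ)) (K : Set (ℝ × ℝ)),
          IsProbabilityMeasure μ ∧ IsCompact K ∧
          K ⊆ {p : ℝ × ℝ | p.1 ∈ Set.Icc (0 : ℝ) 1 ∧ p.2 = X p.1 ω} ∧
          μ Kᶜ = 0 ∧
          ∃ C : ℝ, ∀ ξ : ℝ × ℝ, 1 ≤ ‖ξ‖ →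
            ‖∫ p, Complex.exp (((ξ.1 * p.1 + ξ.2 * p.2 : ℝ) : ℂ) * Complex.I) ∂μ‖
              ≤ C * ‖ξ‖ ^ (-s / 2))) := by
  intro hall
  obtain ⟨ι, hι, B, hB⟩ := Pool.Agent.TH968.exists_goodCells (Pool.Agent.TH968.inten (1/16))
  have h0 : (0 : ℝ) < 1/16 := by norm_num
  have h1 : (1/16 : ℝ) < 1 := by norm_num
  have := hB.prm_prob
  have hgood := Pool.Agent.TH968.ae_good h0 h1 hB
  have hres := hall (1/16) h0 h1 (ι → ℕ × (ℕ → ℝ × ℝ))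
    (Pool.Agent.TH968.prm (Pool.Agent.TH968.inten (1/16)) B)
    (fun t ω => Pool.Agent.TH968.proc t ω)
    (fun t => Pool.Agent.TH968.measurable_proc t)
    (Pool.Agent.TH968.ae_proc_zero hB)
    (by
      filter_upwards [hgood] with ω hω t _
      exact ⟨Pool.Agent.TH968.good_right hω t, fun _ => Pool.Agent.TH968.good_left hω t⟩)
    (fun n t ht0 ht => Pool.Agent.TH968.indep_incr h0 h1 hB ht0 ht.monotone)
    (fun s t hs hst ξ => Pool.Agent.TH968.incr_char h0 h1 hB hs hst ξ)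
  have hbd := Pool.Agent.TH968.ae_bound hB
  obtain ⟨ω, hω1, hω2, S, hS, hH⟩ := (hgood.and (hres.and hbd)).exists
  obtain ⟨μ, K, hμ, -, hK, hμK, C, hC⟩ := hω2.1 (1/2) (by norm_num) (by norm_num)
  have := hμ
  refine Pool.Agent.TH968.no_measure hω1 hS hH μ K hK hμK C (fun u hu => ?_)
  have hn : ‖((0, u) : ℝ × ℝ)‖ = |u| := by
    rw [Prod.norm_mk, norm_zero, Real.norm_eq_abs]
    exact max_eq_right (abs_nonneg u)
  have h3 := hC (0, u) (by rw [hn]; exact hu)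
  rw [hn] at h3
  have e1 : (-(1/2 : ℝ) / 2) = -(1:ℝ)/4 := by norm_num
  rw [e1] at h3
  refine le_trans (le_of_eq ?_) h3
  unfold Pool.Agent.TH968.psi
  congr 2
  ext p
  simp

end Pool.Agent.S19240
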