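import Pool.Statements.S19249
import Pool.Agent.TH551.SV.Main

set_option autoImplicit false
open MeasureTheory ProbabilityTheory
open Pool Pool.MP_30e781_pr

namespace Pool.Agent.S19249

open Pool.Agent.TH551.SV Matrix in
/-- The event forces a small (but positive) least singular value. -/
theorem event_sub {n : ℕ} (hn : 0 < n) (Abar : Matrix (Fin n) (Fin n) ℝ) {σ x : ℝ} (hσ : 0 < σ)
    (hx : 0 < x) (G : Fin n → Fin n → ℝ)
    (h : ∃ v : Fin n → ℝ, (∑ i, v i ^ 2 ≤ 1) ∧
            x ^ 2 ≤ ∑ i, (Matrix.mulVec (Abar + σ • Matrix.of G)⁻¹ v) i ^ 2) :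
    0 < smin (σ⁻¹ • Abar + mx (fun p => G p.1 p.2)) ∧
      smin (σ⁻¹ • Abar + mx (fun p => G p.1 p.2)) ≤ 1 / (x * σ) := by
  obtain ⟨v, hv1, hv2⟩ := h
  set A := Abar + σ • Matrix.of G with hA
  set B := σ⁻¹ • Abar + mx (fun p => G p.1 p.2) with hB
  have hBA : A = σ • B := by
    have : mx (fun p : Fin n × Fin n => G p.1 p.2) = Matrix.of G := rfl
    rw [hA, hB, this, smul_add, smul_smul, mul_inv_cancel₀ hσ.ne', one_smul]
  set w := A⁻¹ *ᵥ v with hw
  have hww : x ^ 2 ≤ w ⬝ᵥ w := by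
    refine hv2.trans (le_of_eq ?_)
    simp only [dotProduct]
    exact Finset.sum_congr rfl fun i _ => by ring
  have hvv : v ⬝ᵥ v ≤ 1 := by
    refine le_trans (le_of_eq ?_) hv1
    simp only [dotProduct]
    exact Finset.sum_congr rfl fun i _ => by ring
  have hx2 : 0 < x ^ 2 := by positivity
  have hdet : A.det ≠ 0 := by
    intro h0
    have h1 : A⁻¹ = 0 := by
      apply Matrix.nonsing_inv_apply_not_isUnit
      rw [h0]; simp
    rw [hw, h1, zero_mulVec, dotProduct_zero] at hww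
    linarith
  have hAw : A *ᵥ w = v := by
    rw [hw, mulVec_mulVec, Matrix.mul_nonsing_inv _ (isUnit_iff_ne_zero.mpr hdet), one_mulVec]
  have hw0 : w ≠ 0 := by
    intro h0
    rw [h0, dotProduct_zero] at hww
    linarith
  have hBw : σ • (B *ᵥ w) = v := by
    rw [← hAw, hBA, smul_mulVec]
  have hBw2 : σ ^ 2 * ((B *ᵥ w) ⬝ᵥ (B *ᵥ w)) = v ⬝ᵥ v := by
    rw [← hBw, smul_dotProduct, dotProduct_smul, smul_eq_mul, smul_eq_mul]; ring
  constructor
  · rw [lt_smin_iff hn le_rfl]
    intro t ht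
    rw [zero_pow two_ne_zero, zero_mul]
    apply dot_self_pos
    intro h0
    apply hdet
    rw [← Matrix.exists_mulVec_eq_zero_iff]
    exact ⟨t, ht, by rw [hBA, smul_mulVec, h0, smul_zero]⟩
  · refine (smin_le (normalize_mem hw0)).trans ?_
    apply Real.sqrt_le_iff.mpr
    refine ⟨by positivity, ?_⟩
    rw [nA_smul, inv_pow, Real.sq_sqrt (dot_self_nonneg w), inv_mul_eq_div,
      div_le_iff₀ (dot_self_pos hw0)]
    have h1 : (B *ᵥ w) ⬝ᵥ (B *ᵥ w) ≤ 1 / σ ^ 2 := by
      rw [le_div_iff₀ (by positivity)]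
      linarith
    refine h1.trans ?_
    have h2 : 1 / σ ^ 2 = (1 / (x * σ)) ^ 2 * x ^ 2 := by field_simp
    rw [h2]
    exact mul_le_mul_of_nonneg_left hww (by positivity)

/-- For every n, real n×n matrix Abar, σ>0, x>0: if G has iid standard Gaussian entries, the probability that the spectral norm of (Abar+σG)⁻¹ is at least x is at most √n/(xσ). -/
theorem result :
    ∀ (n : ℕ) (Abar : Matrix (Fin n) (Fin n) ℝ) (σ x : ℝ), 0 < σ → 0 < x →
      (Measure.pi (fun _ : Fin n => Measure.pi (fun _ : Fin n => gaussianReal 0 1)))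
        {G : Fin n → Fin n → ℝ |
          ∃ v : Fin n → ℝ, (∑ i, v i ^ 2 ≤ 1) ∧
            x ^ 2 ≤ ∑ i, (Matrix.mulVec (Abar + σ • Matrix.of G)⁻¹ v) i ^ 2}
        ≤ ENNReal.ofReal (Real.sqrt n / (x * σ)) := by
  intro n Abar σ x hσ hx
  rcases Nat.eq_zero_or_pos n with hn | hn
  · subst hn
    have h0 : {G : Fin 0 → Fin 0 → ℝ |
          ∃ v : Fin 0 → ℝ, (∑ i, v i ^ 2 ≤ 1) ∧
            x ^ 2 ≤ ∑ i, (Matrix.mulVec (Abar + σ • Matrix.of G)⁻¹ v) i ^ 2} = ∅ := by
      ext G
      simp only [Set.mem_ofPred_eq, Set.mem_empty_iff_false, iff_false, not_exists, not_and]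
      intro v _ h
      simp only [Finset.univ_eq_empty, Finset.sum_empty] at h
      have : 0 < x ^ 2 := by positivity
      linarith
    rw [h0, measure_empty]
    exact zero_le
  · have hmp := Pool.Agent.H992R2.mp_curry n n
    have hb := Pool.Agent.TH551.SV.main_bound hn (σ⁻¹ • Abar) (ε := 1 / (x * σ)) (by positivity)
    have hms : Measurable fun x : Fin n × Fin n → ℝ =>
        Pool.Agent.TH551.SV.smin (σ⁻¹ • Abar + Pool.Agent.TH551.SV.mx x) :=
      Pool.Agent.TH551.SV.meas_smin hn (continuous_const.add Pool.Agent.TH551.SV.continuous_mx)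
    have hEm : MeasurableSet {y : Fin n × Fin n → ℝ |
        0 < Pool.Agent.TH551.SV.smin (σ⁻¹ • Abar + Pool.Agent.TH551.SV.mx y) ∧
        Pool.Agent.TH551.SV.smin (σ⁻¹ • Abar + Pool.Agent.TH551.SV.mx y) ≤ 1 / (x * σ)} :=
      (measurableSet_lt measurable_const hms).inter (measurableSet_le hms measurable_const)
    have h1 := hmp.measure_preimage hEm.nullMeasurableSet
    have h2 : Real.sqrt n * (1 / (x * σ)) = Real.sqrt n / (x * σ) := by ring
    rw [h2] at hb
    refine le_trans (measure_mono ?_) ((le_of_eq h1).trans hb)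
    intro G hG
    exact event_sub hn Abar hσ hx G hG

end Pool.Agent.S19249
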