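import Pool.Statements.S19341
import Pool.Agent.TH982.Chain

set_option autoImplicit false
open Pool Pool.MP_57c4e5_pr

namespace Pool.Agent.S19341

open Pool.Agent.TH982.Chain Pool.Agent.TH982.GWt Pool.Agent.TH982.Eng

/-- For every α in (2,3) and every β>0, the integer-valued chain on [-N,N] with zero boundary and weight exp(-β Σ_{x≠y} ∣x-y∣^(-α)(φx-φy)²) has variance of φ at 0 tending to infinity as N grows. -/
theorem result :
    ∀ α : ℝ, 2 < α → α < 3 → ∀ β : ℝ, 0 < β →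
      Filter.Tendsto
        (fun N : ℕ =>
          (∑' φ : {φ : ℤ → ℤ // ∀ x : ℤ, (N : ℤ) < |x| → φ x = 0},
              ((φ.1 0 : ℝ)) ^ 2 *
                Real.exp (-β * ∑' p : ℤ × ℤ,
                  (if p.1 = p.2 then (0 : ℝ)
                   else ((|p.1 - p.2| : ℤ) : ℝ) ^ (-α) *
                     ((φ.1 p.1 : ℝ) - (φ.1 p.2 : ℝ)) ^ 2))) /
          (∑' φ : {φ : ℤ → ℤ // ∀ x : ℤ, (N : ℤ) < |x| → φ x = 0},
              Real.exp (-β * ∑' p : ℤ × ℤ,
                (if p.1 = p.2 then (0 : ℝ)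
                 else ((|p.1 - p.2| : ℤ) : ℝ) ^ (-α) *
                   ((φ.1 p.1 : ℝ) - (φ.1 p.2 : ℝ)) ^ 2))))
        Filter.atTop Filter.atTop := by
  intro α hα hα3 β hβ
  have key : ∀ N : ℕ,
      (∑' φ : {φ : ℤ → ℤ // ∀ x : ℤ, (N : ℤ) < |x| → φ x = 0},
              ((φ.1 0 : ℝ)) ^ 2 *
                Real.exp (-β * ∑' p : ℤ × ℤ,
                  (if p.1 = p.2 then (0 : ℝ)
                   else ((|p.1 - p.2| : ℤ) : ℝ) ^ (-α) *
                     ((φ.1 p.1 : ℝ) - (φ.1 p.2 : ℝ)) ^ 2))) /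
          (∑' φ : {φ : ℤ → ℤ // ∀ x : ℤ, (N : ℤ) < |x| → φ x = 0},
              Real.exp (-β * ∑' p : ℤ × ℤ,
                (if p.1 = p.2 then (0 : ℝ)
                 else ((|p.1 - p.2| : ℤ) : ℝ) ^ (-α) *
                   ((φ.1 p.1 : ℝ) - (φ.1 p.2 : ℝ)) ^ 2))) = m2 (f0 N) (WN α β N) := by
    intro N
    have hα0 : α ≠ 0 := by linarith
    have e : ∀ φ : {φ : ℤ → ℤ // ∀ x : ℤ, (N : ℤ) < |x| → φ x = 0},
        Real.exp (-β * ∑' p : ℤ × ℤ,
                (if p.1 = p.2 then (0 : ℝ)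
                 else ((|p.1 - p.2| : ℤ) : ℝ) ^ (-α) *
                   ((φ.1 p.1 : ℝ) - (φ.1 p.2 : ℝ)) ^ 2)) = WN α β N φ := by
      intro φ
      unfold WN En
      rw [← neg_mul]
      congr 2
      exact tsum_congr fun p => Jc_eq hα0 p _
    simp_rw [e]
    unfold m2
    congr 1
    exact tsum_congr fun φ => mul_comm _ _
  simp_rw [key]
  have hc : 0 < vG (bb α β) / 4 := div_pos (vG_pos (bb_pos hα hα3 hβ)) (by norm_num)
  have h1 : Filter.Tendsto (fun N : ℕ => vG (bb α β) / 4 * (N : ℝ) ^ (α - 2)) Filter.atTop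
      Filter.atTop := by
    refine Filter.Tendsto.const_mul_atTop hc ?_
    exact (tendsto_rpow_atTop (by linarith)).comp tendsto_natCast_atTop_atTop
  refine Filter.tendsto_atTop_mono' _ ?_ h1
  filter_upwards [Filter.eventually_ge_atTop 1] with N hN
  exact growth hα hα3 hβ hN

end Pool.Agent.S19341
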