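import Pool.Statements.S19431
-- import your own Pool.Agent.* helpers here
import Pool.Agent.TH963.EW
import Pool.Agent.TH429.J705
import Pool.Agent.H704R3.BMain
import Pool.Agent.H704R3.BMoment
import Pool.Agent.H704R3.BNewton
import Pool.Agent.H704R3.BSplit
import Pool.Agent.H704R3.BWindow
import Pool.Agent.H704R3.BExch
import Pool.Agent.H704R3.BSection
import Pool.Agent.H704R3.BOne
import Pool.Agent.H704R3.BLO
import Pool.Agent.H704R3.BLLN

set_option autoImplicit false
open MeasureTheory ProbabilityTheory Filter Topology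
open Pool Pool.MP_7f94de_pr

namespace Pool.Agent.S19431

/-- For i.i.d. complex random variables Y_i that are not a.s. constant, any k(n) with k(n)/n → 0, and any ε > 0, the probability that the k(n)-th elementary symmetric polynomial of Y_1..Y_n has modulus at most exp(−εn) tends to 0. -/
theorem result :
    ∀ (Ω : Type) [MeasurableSpace Ω] (P : Measure Ω) [IsProbabilityMeasure P]
      (Y : ℕ → Ω → ℂ),
      (∀ i, Measurable (Y i)) →
      iIndepFun Y P →
      (∀ i, IdentDistrib (Y i) (Y 0) P P) →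
      (¬ ∃ c : ℂ, ∀ᵐ ω ∂P, Y 0 ω = c) →
      ∀ (k : ℕ → ℕ),
        Tendsto (fun n : ℕ => (k n : ℝ) / (n : ℝ)) atTop (𝓝 0) →
        ∀ ε : ℝ, 0 < ε →
          Tendsto
            (fun n : ℕ =>
              P {ω | ‖∑ s ∈ (Finset.range n).powersetCard (k n), ∏ i ∈ s, Y i ω‖
                    ≤ Real.exp (-(ε * (n : ℝ)))})
            atTop (𝓝 0) := by
  intro Ω _ P _ Y hm hind hid hnd k hk ε hε
  by_cases hfin : ∃ F : Finset ℂ, ∀ᵐ ω ∂P, Y 0 ω ∈ F
  · -- finitely supported laws: the starting library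
    obtain ⟨F, hF⟩ := hfin
    have hM : ∀ᵐ ω ∂P, ‖Y 0 ω‖ ≤ ∑ z ∈ F, ‖z‖ := by
      filter_upwards [hF] with ω hω
      exact Finset.single_le_sum (f := fun z : ℂ => ‖z‖) (fun _ _ => norm_nonneg _) hω
    exact Pool.Agent.H704R3.B.bounded_case Pool.Agent.H704R3.B.tnewton Pool.Agent.H704R3.B.tsplit
      Pool.Agent.H704R3.B.twindow Pool.Agent.H704R3.B.tsection
      (Pool.Agent.H704R3.B.tlostep Pool.Agent.H704R3.B.tsplit Pool.Agent.H704R3.B.texch
        Pool.Agent.H704R3.B.tsection Pool.Agent.H704R3.B.tpigeon Pool.Agent.H704R3.B.tone)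
      Pool.Agent.H704R3.B.tlln Ω P Y hm hind hid hnd _ hM
      (Pool.Agent.H704R3.B.exists_moment P (Y 0) (hm 0) F hF hnd) k hk ε hε
  · -- laws with infinite support
    set μ : Measure ℂ := P.map (Y 0) with hμ
    have hprob : IsProbabilityMeasure μ := Measure.isProbabilityMeasure_map (hm 0).aemeasurable
    have hinf : ¬ ∃ F : Finset ℂ, ∀ᵐ z ∂μ, z ∈ F := by
      rintro ⟨F, hF⟩
      exact hfin ⟨F, ae_of_ae_map (hm 0).aemeasurable hF⟩
    have htrans : ∀ (n : ℕ), P {ω | ‖∑ s ∈ (Finset.range n).powersetCard (k n), ∏ i ∈ s, Y i ω‖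
                    ≤ Real.exp (-(ε * (n : ℝ)))}
        = Measure.pi (fun _ : Fin n => μ)
          {y | ‖Pool.Agent.H704R3.es Finset.univ (k n) y‖ ≤ Real.exp (-(ε * (n:ℝ)))} := by
      intro n
      have h1 : iIndepFun (fun i : Fin n => Y i) P := hind.precomp Fin.val_injective
      have h2 := (iIndepFun_iff_map_fun_eq_pi_map (fun i : Fin n => (hm i).aemeasurable)).mp h1
      have h3 : (fun i : Fin n => P.map (Y i)) = fun _ : Fin n => μ := by
        funext i
        exact (hid i).map_eq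
      have hmeas : Measurable (fun ω => fun i : Fin n => Y i ω) := measurable_pi_lambda _ (fun i => hm i)
      have hset : MeasurableSet {y : Fin n → ℂ | ‖Pool.Agent.H704R3.es Finset.univ (k n) y‖ ≤ Real.exp (-(ε * (n:ℝ)))} :=
        measurableSet_le (Pool.Agent.TH963.es_measurable _ _).norm measurable_const
      rw [← h3, ← h2, Measure.map_apply hmeas hset]
      congr 1
      ext ω
      have h4 : ∑ s ∈ (Finset.range n).powersetCard (k n), ∏ i ∈ s, Y i ω
          = Pool.Agent.H704R3.es Finset.univ (k n) (fun i : Fin n => Y i ω) := by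
        unfold Pool.Agent.H704R3.es
        have h5 : Finset.range n = (Finset.univ : Finset (Fin n)).map Fin.valEmbedding := by
          ext i
          simp
        rw [h5, Finset.powersetCard_map, Finset.sum_map]
        apply Finset.sum_congr rfl
        intro T _
        show ∏ i ∈ T.map Fin.valEmbedding, Y i ω = _
        rw [Finset.prod_map]
        rfl
      show ‖∑ s ∈ (Finset.range n).powersetCard (k n), ∏ i ∈ s, Y i ω‖ ≤ _ ↔ _
      rw [h4]
      rfl
    rw [ENNReal.tendsto_atTop_zero]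
    intro η hη
    obtain ⟨ε0, hε0, hε0η⟩ : ∃ ε0 : ENNReal, 0 < ε0 ∧ ε0 + ε0 + ε0 ≤ η := by
      by_cases htop : η = ⊤
      · exact ⟨1, one_pos, by rw [htop]; exact le_top⟩
      · refine ⟨η / 3, ENNReal.div_pos hη.ne' (by norm_num), ?_⟩
        rw [ENNReal.add_thirds]
    obtain ⟨K0, hK0⟩ := Pool.Agent.TH963.main_pi μ hinf ε hε ε0 hε0
    have hmain := hK0 k hk
    have hsmall : ∀ᶠ n : ℕ in atTop, ∀ j ∈ Finset.range K0,
        P {ω | ‖Pool.Agent.H704R3.es (Finset.range n) j (fun i => Y i ω)‖ ≤ Real.exp (-(ε * (n:ℝ)))} ≤ η := by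
      rw [Filter.eventually_all_finset]
      intro j _
      exact (Pool.Agent.TH429.J705.fixed_k Ω P Y hm hind hid hnd j ε hε).eventually (ge_mem_nhds hη)
    have hall : ∀ᶠ n : ℕ in atTop, P {ω | ‖∑ s ∈ (Finset.range n).powersetCard (k n), ∏ i ∈ s, Y i ω‖
                    ≤ Real.exp (-(ε * (n : ℝ)))} ≤ η := by
      filter_upwards [hmain, hsmall] with n h1 h2
      by_cases hKn : K0 ≤ k n
      · rw [htrans n]
        exact (h1 hKn).trans hε0η
      · exact h2 (k n) (Finset.mem_range.mpr (not_le.mp hKn))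
    exact eventually_atTop.mp hall

end Pool.Agent.S19431
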