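import Pool.Statements.S19475
import Pool.Agent.TH985.TC.Infinite

set_option autoImplicit false
open MeasureTheory ProbabilityTheory
open Pool Pool.MP_9049cc_pr

namespace Pool.Agent.S19475

/-- For every balanced compact set K of real sequences with infinite-product Gaussian measure at least 0.99, the ten-fold Minkowski sum K+…+K contains a compact convex set of Gaussian measure at least 0.01. -/
theorem result :
    ∀ K : Set (ℕ → ℝ), IsCompact K → Balanced ℝ K →
      (99 / 100 : ENNReal) ≤ Measure.infinitePi (fun _ : ℕ => gaussianReal 0 1) K →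
      ∃ C : Set (ℕ → ℝ), IsCompact C ∧ Convex ℝ C ∧
        C ⊆ {x : ℕ → ℝ | ∃ y : Fin 10 → ℕ → ℝ, (∀ i, y i ∈ K) ∧ x = ∑ i, y i} ∧
        (1 / 100 : ENNReal) ≤ Measure.infinitePi (fun _ : ℕ => gaussianReal 0 1) C := by
  intro K hK hbal hμ
  have hsym : ∀ x ∈ K, -x ∈ K := fun x hx => (hbal.neg_mem_iff).2 hx
  have hKm : MeasurableSet K := hK.isClosed.measurableSet
  have hne : K.Nonempty := by
    by_contra hcon
    rw [Set.not_nonempty_iff_eq_empty] at hcon
    rw [hcon, measure_empty] at hμ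
    have h1 : (99 / 100 : ENNReal) ≠ 0 := by
      simp
    exact h1 (nonpos_iff_eq_zero.1 hμ)
  have h0 : (0 : ℕ → ℝ) ∈ K := hbal.zero_mem hne
  have hreal : (99 / 100 : ℝ) ≤ (Measure.infinitePi (fun _ : ℕ => gaussianReal 0 1)).real K := by
    have h2 := ENNReal.toReal_mono (measure_ne_top _ _) hμ
    have h3 : (99 / 100 : ENNReal).toReal = 99 / 100 := by
      rw [ENNReal.toReal_div]
      norm_num
    rw [h3] at h2
    exact h2
  have hc : (Measure.infinitePi (fun _ : ℕ => gaussianReal 0 1)).real Kᶜ ≤ 1 / 100 := by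
    rw [probReal_compl_eq_one_sub hKm]
    linarith
  obtain ⟨C, hCc, hCconv, hsub, hCμ⟩ := Pool.Agent.TH985.TC.exists_convex hK hsym hc
  refine ⟨C, hCc, hCconv, ?_, ?_⟩
  · intro x hx
    obtain ⟨a, ha, b, hb, c, hc', rfl⟩ := hsub hx
    refine ⟨![a, b, c, 0, 0, 0, 0, 0, 0, 0], ?_, ?_⟩
    · intro i
      fin_cases i <;> simp [ha, hb, hc', h0]
    · simp [Fin.sum_univ_succ, add_assoc]
  · have h4 : ENNReal.ofReal (9 / 10) ≤ Measure.infinitePi (fun _ : ℕ => gaussianReal 0 1) C :=
      ENNReal.ofReal_le_of_le_toReal hCμ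
    refine le_trans ?_ h4
    rw [ENNReal.le_ofReal_iff_toReal_le (by simp [ENNReal.div_eq_top]) (by norm_num)]
    rw [ENNReal.toReal_div]
    norm_num

end Pool.Agent.S19475
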