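import Pool.Statements.S19735
import Pool.Agent.W840.FeigeMain

set_option autoImplicit false
open Pool Pool.MP_f10e5d_pr

namespace Pool.Agent.S19735

/-- For all n and all p_i in (0,1), independent X_i equal to 0 with probability p_i and to 1/(1-p_i) otherwise satisfy P(X_1+...+X_n < n+1) ≥ 1/e, with the probability written as a finite sum over the set of nonzero X_i. -/
theorem result :
    ∀ n : ℕ, ∀ p : Fin n → ℝ, (∀ i, 0 < p i ∧ p i < 1) →
      Real.exp (-1) ≤
        ∑ S ∈ (Finset.univ : Finset (Finset (Fin n))).filter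
            (fun S => ∑ i ∈ S, 1 / (1 - p i) < (n : ℝ) + 1),
          (∏ i ∈ S, (1 - p i)) * ∏ i ∈ Sᶜ, p i := by
  intro n p hp
  rcases Nat.eq_zero_or_pos n with hn | hn
  · subst hn
    have h1 : (Finset.univ : Finset (Finset (Fin 0))).filter
            (fun S => ∑ i ∈ S, 1 / (1 - p i) < ((0 : ℕ) : ℝ) + 1) = {∅} := by
      ext S
      simp only [Finset.mem_filter, Finset.mem_univ, true_and, Finset.mem_singleton]
      constructor
      · intro _
        exact Finset.eq_empty_of_forall_notMem fun x => x.elim0
      · intro h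
        subst h
        simp
    rw [h1, Finset.sum_singleton]
    simp
  · have hn' : (1 : ℝ) ≤ n := by exact_mod_cast hn
    have hq : ∀ i, 0 < (fun i => 1 - p i) i ∧ (fun i => 1 - p i) i < 1 := fun i =>
      ⟨by simpa using (hp i).2, by simpa using (hp i).1⟩
    have ha : ∀ i, 0 < (fun i => 1 / (1 - p i)) i := fun i => by
      have := (hq i).1
      positivity
    have hμ1 : ∀ i, (fun i => 1 - p i) i * (fun i => 1 / (1 - p i)) i = 1 := fun i => by
      have := (hq i).1
      simp only at this ⊢
      field_simp
    have hμ : ∀ i, (fun i => 1 - p i) i * (fun i => 1 / (1 - p i)) i ≤ 1 := fun i =>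
      (hμ1 i).le
    have h := Pool.Agent.W840.FeigeCore.feige hq ha hμ (T := (n : ℝ) + 1) (by linarith)
      (Finset.univ : Finset (Fin n)) (by
        rw [Finset.sum_congr rfl (fun i _ => hμ1 i)]
        simp)
    refine h.trans (le_of_eq ?_)
    unfold Pool.Agent.W840.FeigeCore.U Pool.Agent.W840.FeigeCore.E
      Pool.Agent.W840.FeigeCore.ind
    rw [Finset.powerset_univ, Finset.sum_filter]
    refine Finset.sum_congr rfl fun S _ => ?_
    have e1 : (Finset.univ : Finset (Fin n)) \ S = Sᶜ := by
      rw [Finset.compl_eq_univ_sdiff]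
    rw [e1]
    split_ifs with h1
    · rw [mul_one]
      congr 1
      exact Finset.prod_congr rfl fun i _ => by ring
    · rw [mul_zero]

end Pool.Agent.S19735
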